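import Pool.Agent.Work.MP_2b9663_nt.Ch.CDefs
import Pool.Agent.Work.MP_2b9663_nt.Zeta2

set_option autoImplicit false

/-!
Decomposition of the `L`-series of `χ ∘ N` in ideal classes.
-/

namespace Pool.Agent.Work.MP_2b9663_nt

open NumberField NumberField.mixedEmbedding Ideal
open scoped nonZeroDivisors

variable (K : Type) [Field K] [NumberField K]

lemma rpow_absNorm_summable {σ : ℝ} (hσ : 1 < σ) :
    Summable (fun I : Ideal (𝓞 K) => (absNorm I : ℝ) ^ (-σ)) := by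
  rw [← (Equiv.sigmaFiberEquiv (fun I : Ideal (𝓞 K) => absNorm I)).summable_iff]
  have h0 : ∀ x : (Σ n : ℕ, {I : Ideal (𝓞 K) // absNorm I = n}),
      0 ≤ ((fun I : Ideal (𝓞 K) => (absNorm I : ℝ) ^ (-σ)) ∘
        (Equiv.sigmaFiberEquiv (fun I : Ideal (𝓞 K) => absNorm I))) x :=
    fun x => Real.rpow_nonneg (Nat.cast_nonneg _) _
  refine (summable_sigma_of_nonneg h0).mpr ⟨fun n => ?_, ?_⟩
  · have := idc_finite K n
    exact Summable.of_finite
  · refine (fz_summable K hσ).congr fun n => ?_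
    have := idc_finite K n
    have h1 : ∀ y : {I : Ideal (𝓞 K) // absNorm I = n},
        ((fun I : Ideal (𝓞 K) => (absNorm I : ℝ) ^ (-σ)) ∘
        (Equiv.sigmaFiberEquiv (fun I : Ideal (𝓞 K) => absNorm I))) ⟨n, y⟩ = (n : ℝ) ^ (-σ) := by
      intro y
      simp only [Function.comp_apply, Equiv.sigmaFiberEquiv_apply]
      rw [y.2]
    rw [tsum_congr h1, tsum_const]
    simp [fz, idc]

variable {m : ℕ} (χ : DirichletCharacter ℂ m)

/-- the summand of the series over the ideals -/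
noncomputable def hI (s : ℂ) (I : Ideal (𝓞 K)) : ℂ :=
  χ (absNorm I : ZMod m) * (absNorm I : ℂ) ^ (-s)

lemma hI_mul (s : ℂ) (I J : Ideal (𝓞 K)) : hI K χ s (I * J) = hI K χ s I * hI K χ s J := by
  unfold hI
  rw [map_mul, Nat.cast_mul, map_mul, Nat.cast_mul, Complex.natCast_mul_natCast_cpow]
  ring

lemma hI_bot {s : ℂ} (hs : s ≠ 0) : hI K χ s ⊥ = 0 := by
  simp [hI, Ideal.absNorm_bot, Complex.zero_cpow (neg_ne_zero.mpr hs)]

lemma norm_hI_le {s : ℂ} (hs : 1 < s.re) (I : Ideal (𝓞 K)) :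
    ‖hI K χ s I‖ ≤ (absNorm I : ℝ) ^ (-s.re) := by
  unfold hI
  rw [norm_mul]
  have h1 : ‖χ (absNorm I : ZMod m)‖ ≤ 1 := χ.norm_le_one _
  have h2 : ‖(absNorm I : ℂ) ^ (-s)‖ = (absNorm I : ℝ) ^ (-s.re) := by
    rw [Complex.norm_natCast_cpow_of_re_ne_zero _ (by simp; linarith)]
    simp
  rw [h2]
  exact mul_le_of_le_one_left (Real.rpow_nonneg (Nat.cast_nonneg _) _) h1

lemma hI_summable_norm {s : ℂ} (hs : 1 < s.re) : Summable (fun I => ‖hI K χ s I‖) :=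
  Summable.of_nonneg_of_le (fun _ => norm_nonneg _) (norm_hI_le K χ hs)
    (rpow_absNorm_summable K hs)

lemma hasSum_hI {s : ℂ} (hs : 1 < s.re) : HasSum (fun I => hI K χ s I) (LL K χ s) := by
  have h0 := (hI_summable_norm K χ hs).of_norm
  have h1 := (Equiv.sigmaFiberEquiv (fun I : Ideal (𝓞 K) => absNorm I)).summable_iff.mpr h0
  have h2 : ∑' I, hI K χ s I = LL K χ s := by
    rw [← (Equiv.sigmaFiberEquiv (fun I : Ideal (𝓞 K) => absNorm I)).tsum_eq (fun I => hI K χ s I)]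
    have h1' : Summable (fun x : (Σ n : ℕ, {I : Ideal (𝓞 K) // absNorm I = n}) =>
      hI K χ s ((Equiv.sigmaFiberEquiv (fun I : Ideal (𝓞 K) => absNorm I)) x)) := h1
    rw [Summable.tsum_sigma' (fun n => by
      have := idc_finite K n
      exact Summable.of_finite) h1']
    unfold LL LSeries
    refine tsum_congr fun n => ?_
    have := idc_finite K n
    have h3 : ∀ y : {I : Ideal (𝓞 K) // absNorm I = n},
        hI K χ s ((Equiv.sigmaFiberEquiv (fun I : Ideal (𝓞 K) => absNorm I)) ⟨n, y⟩) =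
          χ (n : ZMod m) * (n : ℂ) ^ (-s) := by
      intro y
      simp only [Equiv.sigmaFiberEquiv_apply, hI]
      rw [y.2]
    rw [tsum_congr h3, tsum_const]
    have hs0 : s ≠ 0 := by
      rintro rfl
      simp at hs
      linarith
    rw [LSeries.term_def]
    split_ifs with hn
    · subst hn
      simp [Complex.zero_cpow (neg_ne_zero.mpr hs0)]
    · rw [Complex.cpow_neg, nsmul_eq_mul, idc, div_eq_mul_inv]
      ring
  rw [← h2]
  exact h0.hasSum

/-- the sum over one class -/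
lemma class_sum (U : ∀ G : Ideal (𝓞 K) → ℂ,
      (Summable fun I : {I : Ideal (𝓞 K) // I ≠ ⊥ ∧ I.IsPrincipal} => ‖G I‖) →
      HasSum (fun x : 𝓞 K => (wt K x : ℂ) * G (span {x}))
        (∑' I : {I : Ideal (𝓞 K) // I ≠ ⊥ ∧ I.IsPrincipal}, G I))
    (a J : (Ideal (𝓞 K))⁰) {s : ℂ} (hs : 1 < s.re) :
    ∑' I : {I : (Ideal (𝓞 K))⁰ // ClassGroup.mk0 (a * I) = (ClassGroup.mk0 J)⁻¹},
      hI K χ s ((J : Ideal (𝓞 K)) * ((a : Ideal (𝓞 K)) * ((I : (Ideal (𝓞 K))⁰) : Ideal (𝓞 K)))) =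
        SJ K χ ((a : Ideal (𝓞 K)) * J) s := by
  classical
  have ha : (a : Ideal (𝓞 K)) ≠ ⊥ := nonZeroDivisors.coe_ne_zero a
  have hJ : (J : Ideal (𝓞 K)) ≠ ⊥ := nonZeroDivisors.coe_ne_zero J
  set G : Ideal (𝓞 K) → ℂ := fun P => if P ≤ (a : Ideal (𝓞 K)) * J then hI K χ s P else 0 with hG
  have hGs : Summable fun I : {I : Ideal (𝓞 K) // I ≠ ⊥ ∧ I.IsPrincipal} => ‖G I‖ := by
    refine Summable.of_nonneg_of_le (fun _ => norm_nonneg _) (fun I => ?_)
      ((hI_summable_norm K χ hs).comp_injective Subtype.val_injective)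
    rw [hG]
    dsimp only
    split_ifs with h
    · exact le_rfl
    · rw [norm_zero]
      exact norm_nonneg _
  have h1 : SJ K χ ((a : Ideal (𝓞 K)) * J) s =
      ∑' I : {I : Ideal (𝓞 K) // I ≠ ⊥ ∧ I.IsPrincipal}, G I := by
    rw [← (U G hGs).tsum_eq]
    unfold SJ
    refine tsum_congr fun x => ?_
    rw [hG]
    dsimp only
    rw [Ideal.span_singleton_le_iff_mem]
    by_cases hx : x ∈ (a : Ideal (𝓞 K)) * J
    · rw [if_pos hx, if_pos hx, hI, Ideal.absNorm_span_singleton]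
      unfold nrm
      ring
    · rw [if_neg hx, if_neg hx, mul_zero]
  rw [h1]
  have hcop : ∀ I : (Ideal (𝓞 K))⁰,
      ((J : Ideal (𝓞 K)) * ((a : Ideal (𝓞 K)) * (I : Ideal (𝓞 K)))) = ((J * (a * I) : (Ideal (𝓞 K))⁰) : Ideal (𝓞 K)) := by
    intro I
    rfl
  let g : {I : (Ideal (𝓞 K))⁰ // ClassGroup.mk0 (a * I) = (ClassGroup.mk0 J)⁻¹} →
      {I : Ideal (𝓞 K) // I ≠ ⊥ ∧ I.IsPrincipal} := fun I =>
    ⟨(J : Ideal (𝓞 K)) * ((a : Ideal (𝓞 K)) * (I.1 : Ideal (𝓞 K))), by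
      rw [hcop]
      exact nonZeroDivisors.coe_ne_zero _, by
      rw [hcop]
      refine (ClassGroup.mk0_eq_one_iff (SetLike.coe_mem _)).mp ?_
      have : ClassGroup.mk0 (J * (a * I.1)) = 1 := by
        rw [map_mul, I.2, mul_inv_cancel]
      exact this⟩
  have hg : Function.Injective g := by
    intro I I' h
    have h2 : (J : Ideal (𝓞 K)) * ((a : Ideal (𝓞 K)) * (I.1 : Ideal (𝓞 K))) =
        (J : Ideal (𝓞 K)) * ((a : Ideal (𝓞 K)) * (I'.1 : Ideal (𝓞 K))) := congrArg Subtype.val h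
    have h3 := mul_left_cancel₀ hJ h2
    have h4 := mul_left_cancel₀ ha h3
    exact Subtype.ext (Subtype.ext h4)
  have hsup : Function.support (fun P : {I : Ideal (𝓞 K) // I ≠ ⊥ ∧ I.IsPrincipal} => G P) ⊆
      Set.range g := by
    intro P hP
    have hle : (P : Ideal (𝓞 K)) ≤ (a : Ideal (𝓞 K)) * J := by
      by_contra hc
      apply hP
      rw [hG]
      dsimp only
      rw [if_neg hc]
    obtain ⟨I, hI'⟩ := Ideal.dvd_iff_le.mpr hle
    have hI0 : I ≠ ⊥ := by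
      rintro rfl
      apply P.2.1
      rw [hI', Ideal.mul_bot]
    have hI1 : I ∈ (Ideal (𝓞 K))⁰ := mem_nonZeroDivisors_of_ne_zero hI0
    obtain ⟨I1, hI2⟩ : ∃ I1 : (Ideal (𝓞 K))⁰, (I1 : Ideal (𝓞 K)) = I := ⟨⟨I, hI1⟩, rfl⟩
    have h5 : (P : Ideal (𝓞 K)) = ((J * (a * I1) : (Ideal (𝓞 K))⁰) : Ideal (𝓞 K)) := by
      rw [hI', ← hcop, hI2]
      ring
    have h6 : ClassGroup.mk0 (J * (a * I1)) = 1 := by
      have h7 := P.2.2
      rw [h5] at h7
      exact (ClassGroup.mk0_eq_one_iff (J * (a * I1)).2).mpr h7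
    rw [map_mul] at h6
    refine ⟨⟨I1, (inv_eq_of_mul_eq_one_right h6).symm⟩, ?_⟩
    apply Subtype.ext
    rw [h5]
    rfl
  rw [← hg.tsum_eq hsup]
  refine tsum_congr fun I => ?_
  rw [hG]
  dsimp only
  rw [if_pos]
  have : ((g I : {I : Ideal (𝓞 K) // I ≠ ⊥ ∧ I.IsPrincipal}) : Ideal (𝓞 K)) =
      ((a : Ideal (𝓞 K)) * J) * (I.1 : Ideal (𝓞 K)) := by
    show (J : Ideal (𝓞 K)) * ((a : Ideal (𝓞 K)) * (I.1 : Ideal (𝓞 K))) = _
    ring
  rw [this]
  exact Ideal.mul_le_left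

theorem LL_classes_aux (U : ∀ G : Ideal (𝓞 K) → ℂ,
      (Summable fun I : {I : Ideal (𝓞 K) // I ≠ ⊥ ∧ I.IsPrincipal} => ‖G I‖) →
      HasSum (fun x : 𝓞 K => (wt K x : ℂ) * G (span {x}))
        (∑' I : {I : Ideal (𝓞 K) // I ≠ ⊥ ∧ I.IsPrincipal}, G I))
    [NeZero m] (J : ClassGroup (𝓞 K) → (Ideal (𝓞 K))⁰)
    (hJ : ∀ C, ClassGroup.mk0 (J C) = C⁻¹) (hJm : ∀ C, (absNorm (J C : Ideal (𝓞 K))).Coprime m)
    (a : Ideal (𝓞 K)) (ha : a ≠ ⊥) {s : ℂ} (hs : 1 < s.re) :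
    χ (absNorm a : ZMod m) * (absNorm a : ℂ) ^ (-s) * LL K χ s =
      ∑ C, (χ (absNorm (J C : Ideal (𝓞 K)) : ZMod m))⁻¹ *
        (absNorm (J C : Ideal (𝓞 K)) : ℂ) ^ s * SJ K χ (a * J C) s := by
  classical
  have hs0 : s ≠ 0 := by
    rintro rfl
    simp at hs
    linarith
  set a' : (Ideal (𝓞 K))⁰ := ⟨a, mem_nonZeroDivisors_of_ne_zero ha⟩ with ha'
  -- the sum over nonzero ideals
  have h1 : HasSum (fun I : (Ideal (𝓞 K))⁰ => hI K χ s I) (LL K χ s) := by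
    have := (Function.Injective.hasSum_iff (f := fun I => hI K χ s I) (g := fun I : (Ideal (𝓞 K))⁰ =>
      (I : Ideal (𝓞 K))) (a := LL K χ s) Subtype.val_injective ?_).mpr (hasSum_hI K χ hs)
    · exact this
    · intro I hI1
      have : I = ⊥ := by
        by_contra hc
        exact hI1 ⟨⟨I, mem_nonZeroDivisors_of_ne_zero hc⟩, rfl⟩
      rw [this]
      exact hI_bot K χ hs0
  have h2 : HasSum (fun I : (Ideal (𝓞 K))⁰ => hI K χ s (a * I)) (hI K χ s a * LL K χ s) := by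
    have := h1.mul_left (hI K χ s a)
    simp only [hI_mul]
    exact this
  set t : ClassGroup (𝓞 K) → (Ideal (𝓞 K))⁰ → ℂ := fun C I =>
    if ClassGroup.mk0 (a' * I) = C then hI K χ s (a * I) else 0 with ht
  have ht1 : ∀ C, Summable (t C) := by
    intro C
    refine Summable.of_norm_bounded (g := fun I : (Ideal (𝓞 K))⁰ => ‖hI K χ s (a * I)‖) ?_ ?_
    · have h3 : Function.Injective (fun I : (Ideal (𝓞 K))⁰ => a * (I : Ideal (𝓞 K))) := by
        intro I I' h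
        exact Subtype.ext (mul_left_cancel₀ ha h)
      exact (hI_summable_norm K χ hs).comp_injective h3
    · intro I
      rw [ht]
      dsimp only
      split_ifs
      · exact le_rfl
      · rw [norm_zero]
        exact norm_nonneg _
  have h3 : hI K χ s a * LL K χ s = ∑ C, ∑' I, t C I := by
    rw [← h2.tsum_eq, ← Summable.tsum_finsetSum (fun C _ => ht1 C)]
    refine tsum_congr fun I => ?_
    rw [ht]
    simp
  have h4 : χ (absNorm a : ZMod m) * (absNorm a : ℂ) ^ (-s) = hI K χ s a := rfl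
  rw [h4, h3]
  refine Finset.sum_congr rfl fun C _ => ?_
  have h5 : ∑' I, t C I = ∑' I : {I : (Ideal (𝓞 K))⁰ //
      ClassGroup.mk0 (a' * I) = (ClassGroup.mk0 (J C))⁻¹}, hI K χ s (a * (I : (Ideal (𝓞 K))⁰)) := by
    have hC : (ClassGroup.mk0 (J C))⁻¹ = C := by rw [hJ, inv_inv]
    rw [hC]
    have h6 : t C = Set.indicator {I : (Ideal (𝓞 K))⁰ | ClassGroup.mk0 (a' * I) = C}
        (fun I => hI K χ s (a * (I : (Ideal (𝓞 K))⁰))) := by
      funext I
      rw [ht, Set.indicator_apply]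
      rfl
    rw [h6, ← tsum_subtype]
    rfl
  have hne : hI K χ s (J C) ≠ 0 := by
    unfold hI
    refine mul_ne_zero ?_ ?_
    · exact ((ZMod.isUnit_iff_coprime _ _).mpr (hJm C)).map χ |>.ne_zero
    · rw [Complex.cpow_ne_zero_iff]
      left
      rw [Nat.cast_ne_zero]
      exact absNorm_ne_zero_iff_mem_nonZeroDivisors.mpr (J C).2
  have h7 : ∑' I, t C I = (hI K χ s (J C))⁻¹ * SJ K χ (a * J C) s := by
    rw [h5, ← class_sum K χ U a' (J C) hs, ← tsum_mul_left]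
    refine tsum_congr fun I => ?_
    rw [hI_mul K χ s (J C)]
    field_simp
    rfl
  rw [h7]
  congr 1
  unfold hI
  rw [mul_inv, Complex.cpow_neg, inv_inv]

end Pool.Agent.Work.MP_2b9663_nt
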