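import Pool.Agent.Work.MP_2b9663_nt.Ch.Comp
import Pool.Agent.Work.MP_2b9663_nt.Ch.Classes

set_option autoImplicit false

/-!
The `L`-series of `χ ∘ N` is analytic at `1 + i y`, unless `y = 0` and `χ ∘ N` is trivial.
-/

namespace Pool.Agent.Work.MP_2b9663_nt

open NumberField Ideal
open scoped nonZeroDivisors

variable (K : Type) [Field K] [NumberField K]

section

/-- the statement of the unfolding lemma -/
def UnfoldHyp : Prop := ∀ G : Ideal (𝓞 K) → ℂ,
  (Summable fun I : {I : Ideal (𝓞 K) // I ≠ ⊥ ∧ I.IsPrincipal} => ‖G I‖) →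
  HasSum (fun x : 𝓞 K => (wt K x : ℂ) * G (span {x}))
    (∑' I : {I : Ideal (𝓞 K) // I ≠ ⊥ ∧ I.IsPrincipal}, G I)

variable {m : ℕ} (χ : DirichletCharacter ℂ m)

theorem LL_continuation_of (U : UnfoldHyp K) [NeZero m] (a : Ideal (𝓞 K)) (ha0 : a ≠ ⊥)
    (ha : (absNorm a).Coprime m) :
    ∃ g : ℂ → ℂ, DifferentiableOn ℂ g (HP K) ∧ ∀ s : ℂ, 1 < s.re →
      (χ (absNorm a : ZMod m) * (absNorm a : ℂ) ^ (1 - s) - 1) * LL K χ s = g s := by
  choose J hJ hJm using fun C : ClassGroup (𝓞 K) => exists_ideal_coprime m (NeZero.ne m) C⁻¹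
  have hJ0 : ∀ C, (J C : Ideal (𝓞 K)) ≠ ⊥ := fun C => nonZeroDivisors.coe_ne_zero _
  choose g hg hgs using fun C : ClassGroup (𝓞 K) => SJ_mul χ a (J C) ha (hJm C) (hJ0 C) ha0
  have hN : ∀ C, (absNorm (J C : Ideal (𝓞 K)) : ℂ) ≠ 0 := fun C => by
    rw [Nat.cast_ne_zero, Ne, Ideal.absNorm_eq_zero_iff]
    exact hJ0 C
  have ha1 : (absNorm a : ℂ) ≠ 0 := by
    rw [Nat.cast_ne_zero, Ne, Ideal.absNorm_eq_zero_iff]
    exact ha0
  refine ⟨fun s => (absNorm a : ℂ) * ∑ C, (χ (absNorm (J C : Ideal (𝓞 K)) : ZMod m))⁻¹ *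
    (absNorm (J C : Ideal (𝓞 K)) : ℂ) ^ s * g C s, ?_, fun s hs => ?_⟩
  · refine DifferentiableOn.const_mul (DifferentiableOn.fun_sum fun C _ => ?_) _
    refine DifferentiableOn.mul (DifferentiableOn.const_mul ?_ _) (hg C)
    intro s _
    exact (differentiableAt_id.const_cpow (Or.inl (hN C))).differentiableWithinAt
  · have h1 := LL_classes_aux K χ U J hJ hJm a ha0 hs
    have h2 := LL_classes_aux K χ U J hJ hJm ⊤ top_ne_bot hs
    simp only [Ideal.absNorm_top, Nat.cast_one, map_one, Complex.one_cpow, one_mul,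
      Ideal.top_mul] at h2
    have h3 : (absNorm a : ℂ) ^ (1 - s) = absNorm a * (absNorm a : ℂ) ^ (-s) := by
      rw [sub_eq_add_neg, Complex.cpow_add _ _ ha1, Complex.cpow_one]
    have h4 : ∑ C, (χ (absNorm (J C : Ideal (𝓞 K)) : ZMod m))⁻¹ *
        (absNorm (J C : Ideal (𝓞 K)) : ℂ) ^ s * SJ K χ (a * J C) s =
        (∑ C, (χ (absNorm (J C : Ideal (𝓞 K)) : ZMod m))⁻¹ *
          (absNorm (J C : Ideal (𝓞 K)) : ℂ) ^ s * SJ K χ (J C) s) / absNorm a +
        ∑ C, (χ (absNorm (J C : Ideal (𝓞 K)) : ZMod m))⁻¹ *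
          (absNorm (J C : Ideal (𝓞 K)) : ℂ) ^ s * g C s := by
      rw [Finset.sum_div, ← Finset.sum_add_distrib]
      refine Finset.sum_congr rfl fun C _ => ?_
      rw [hgs C s hs]
      ring
    rw [h4, ← h2] at h1
    have h5 : (χ (absNorm a : ZMod m) * (absNorm a : ℂ) ^ (1 - s) - 1) * LL K χ s =
        absNorm a * (χ (absNorm a : ZMod m) * (absNorm a : ℂ) ^ (-s) * LL K χ s) - LL K χ s := by
      rw [h3]; ring
    beta_reduce
    rw [h5, h1]
    field_simp
    ring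

end

section

/-- small integers congruent to one detect the vertical twist -/
lemma exists_cpow_ne_one (m : ℕ) (hm : m ≠ 0) (n : ℕ) (hn : n ≠ 0) {y : ℝ} (hy : y ≠ 0) :
    ∃ k : ℕ, (((1 + m * k) ^ n : ℕ) : ℂ) ^ (-(y * Complex.I)) ≠ 1 := by
  by_contra hcon
  push Not at hcon
  set θ : ℝ := n * y with hθ
  have hθ0 : θ ≠ 0 := mul_ne_zero (by exact_mod_cast hn) hy
  have key : ∀ k : ℕ, ∃ z : ℤ, θ * Real.log (1 + m * k) = z * (2 * Real.pi) := by
    intro k
    have h1 := hcon k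
    have h2 : (((1 + m * k) ^ n : ℕ) : ℂ) ≠ 0 := by
      have : (1 + m * k) ^ n ≠ 0 := pow_ne_zero _ (by omega)
      exact_mod_cast this
    rw [Complex.cpow_def_of_ne_zero h2, Complex.exp_eq_one_iff] at h1
    obtain ⟨z, hz⟩ := h1
    refine ⟨-z, ?_⟩
    have h3 : Complex.log (((1 + m * k) ^ n : ℕ) : ℂ) = ((n * Real.log (1 + m * k) : ℝ) : ℂ) := by
      have h4 : (((1 + m * k) ^ n : ℕ) : ℂ) = (((1 + m * k : ℝ) ^ n : ℝ) : ℂ) := by push_cast; ring
      rw [h4, ← Complex.ofReal_log (by positivity), Real.log_pow]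
    rw [h3] at hz
    have h5 := congrArg Complex.im hz
    simp only [Complex.mul_im, Complex.neg_re, Complex.neg_im, Complex.mul_re, Complex.ofReal_re,
      Complex.ofReal_im, Complex.I_re, Complex.I_im, Complex.intCast_re, Complex.intCast_im,
      Complex.re_ofNat, Complex.im_ofNat] at h5
    push_cast
    rw [hθ]
    linarith
  obtain ⟨k, hk⟩ := exists_nat_gt (|θ| / (2 * Real.pi))
  have hpi := Real.pi_pos
  have hk0 : (0 : ℝ) < k := lt_of_le_of_lt (by positivity) hk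
  obtain ⟨z, hz⟩ := key k
  obtain ⟨z', hz'⟩ := key (k + 1)
  have hm' : (1 : ℝ) ≤ m := by exact_mod_cast Nat.one_le_iff_ne_zero.mpr hm
  have hA : (0 : ℝ) < 1 + m * k := by positivity
  have h1 : θ * (Real.log (1 + m * ((k + 1 : ℕ) : ℝ)) - Real.log (1 + m * k)) =
      ((z' - z : ℤ) : ℝ) * (2 * Real.pi) := by
    rw [mul_sub, hz, hz']
    push_cast
    ring
  have h2 : 0 < Real.log (1 + m * ((k + 1 : ℕ) : ℝ)) - Real.log (1 + m * k) := by
    rw [sub_pos]
    refine Real.log_lt_log hA ?_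
    push_cast
    nlinarith
  have h3 : Real.log (1 + m * ((k + 1 : ℕ) : ℝ)) - Real.log (1 + m * k) < 1 / k := by
    rw [← Real.log_div (by positivity) hA.ne']
    have h4 : (1 + m * ((k + 1 : ℕ) : ℝ)) / (1 + m * k) = 1 + m / (1 + m * k) := by
      field_simp
      push_cast
      ring
    rw [h4]
    have h5 : Real.log (1 + m / (1 + m * k : ℝ)) ≤ m / (1 + m * k) := by
      have := Real.log_le_sub_one_of_pos (show (0 : ℝ) < 1 + m / (1 + m * k) by positivity)
      linarith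
    refine lt_of_le_of_lt h5 ?_
    rw [div_lt_div_iff₀ hA hk0]
    linarith
  have h6 : |θ * (Real.log (1 + m * ((k + 1 : ℕ) : ℝ)) - Real.log (1 + m * k))| < 2 * Real.pi := by
    rw [abs_mul, abs_of_pos h2]
    calc |θ| * (Real.log (1 + m * ((k + 1 : ℕ) : ℝ)) - Real.log (1 + m * k))
        ≤ |θ| * (1 / k) := mul_le_mul_of_nonneg_left h3.le (abs_nonneg _)
      _ < 2 * Real.pi := by
          rw [mul_one_div, div_lt_iff₀ hk0]
          rw [div_lt_iff₀ (by positivity)] at hk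
          linarith
  rw [h1, abs_mul, abs_of_pos (show (0 : ℝ) < 2 * Real.pi by positivity)] at h6
  have h7 : |((z' - z : ℤ) : ℝ)| < 1 := by
    by_contra h
    push Not at h
    nlinarith
  have h8 : z' - z = 0 := by
    have : |z' - z| < 1 := by exact_mod_cast h7
    exact Int.abs_lt_one_iff.mp this
  rw [h8] at h1
  have h9 : θ * (Real.log (1 + m * ((k + 1 : ℕ) : ℝ)) - Real.log (1 + m * k)) ≠ 0 :=
    mul_ne_zero hθ0 h2.ne'
  exact h9 (by rw [h1]; simp)

variable {m : ℕ} (χ : DirichletCharacter ℂ m)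

/-- the witness -/
lemma exists_witness [NeZero m] {y : ℝ} (h : y ≠ 0 ∨ ∃ p : ℕ, p.Prime ∧ idc K p ≠ 0 ∧
    ¬ p ∣ m ∧ χ (p : ZMod m) ≠ 1) :
    ∃ a : Ideal (𝓞 K), a ≠ ⊥ ∧ (absNorm a).Coprime m ∧
      χ (absNorm a : ZMod m) * (absNorm a : ℂ) ^ (-(y * Complex.I)) ≠ 1 := by
  by_cases hy : y = 0
  · obtain ⟨p, hp, hi, hpm, hχ⟩ := h.resolve_left (not_not.mpr hy)
    have h1 : Nonempty {I : Ideal (𝓞 K) // absNorm I = p} := by
      by_contra hne
      rw [not_nonempty_iff] at hne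
      exact hi (by unfold idc; exact Nat.card_of_isEmpty)
    obtain ⟨⟨a, ha⟩⟩ := h1
    refine ⟨a, ?_, ?_, ?_⟩
    · rintro rfl
      rw [Ideal.absNorm_bot] at ha
      exact hp.ne_zero ha.symm
    · rw [ha]
      exact (Nat.Prime.coprime_iff_not_dvd hp).mpr hpm
    · rw [ha, hy]
      simpa using hχ
  · obtain ⟨k, hk⟩ := exists_cpow_ne_one m (NeZero.ne m) (Module.finrank ℤ (𝓞 K))
      Module.finrank_pos.ne' hy
    set b : ℕ := 1 + m * k with hb
    have hN : absNorm (Ideal.span {(b : 𝓞 K)}) = b ^ Module.finrank ℤ (𝓞 K) := by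
      rw [Ideal.absNorm_span_singleton]
      have h1 : ((b : ℕ) : 𝓞 K) = algebraMap ℤ (𝓞 K) (b : ℤ) := by simp
      rw [h1, Algebra.norm_algebraMap, Int.natAbs_pow, Int.natAbs_natCast]
    refine ⟨Ideal.span {(b : 𝓞 K)}, ?_, ?_, ?_⟩
    · rw [Ne, Ideal.span_singleton_eq_bot]
      have : b ≠ 0 := by rw [hb]; omega
      exact_mod_cast this
    · rw [hN]
      refine Nat.Coprime.pow_left _ ?_
      rw [hb]
      simp
    · rw [hN]
      have h2 : ((b ^ Module.finrank ℤ (𝓞 K) : ℕ) : ZMod m) = 1 := by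
        rw [hb]
        push_cast
        rw [ZMod.natCast_self, zero_mul, add_zero, one_pow]
      rw [h2, map_one, one_mul]
      exact hk

/-- **Theorem A.** -/
theorem LL_analytic_of (U : UnfoldHyp K) [NeZero m] {y : ℝ} (h : y ≠ 0 ∨ ∃ p : ℕ, p.Prime ∧ idc K p ≠ 0 ∧
    ¬ p ∣ m ∧ χ (p : ZMod m) ≠ 1) :
    ∃ F : ℂ → ℂ, AnalyticAt ℂ F (1 + y * Complex.I) ∧ ∀ s : ℂ, 1 < s.re → F s = LL K χ s := by
  obtain ⟨a, ha0, ham, hne⟩ := exists_witness K χ h
  obtain ⟨g, hg, hgs⟩ := LL_continuation_of K χ U a ha0 ham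
  have ha1 : absNorm a ≠ 0 := by
    rw [Ne, Ideal.absNorm_eq_zero_iff]
    exact ha0
  have ha1' : (absNorm a : ℂ) ≠ 0 := by exact_mod_cast ha1
  have ha2 : 1 < absNorm a := by
    by_contra hle
    have h1 : absNorm a = 1 := by omega
    exact hne (by rw [h1]; simp)
  have hn : (0 : ℝ) < Module.finrank ℚ K := by exact_mod_cast Module.finrank_pos
  refine ⟨fun s => g s / (χ (absNorm a : ZMod m) * (absNorm a : ℂ) ^ (1 - s) - 1), ?_,
    fun s hs => ?_⟩
  · refine AnalyticAt.div ?_ ?_ ?_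
    · refine (hg.analyticAt ((isOpen_HP K).mem_nhds ?_))
      change 1 - 1 / (Module.finrank ℚ K : ℝ) < (1 + y * Complex.I).re
      simp only [Complex.add_re, Complex.one_re, Complex.mul_re, Complex.ofReal_re, Complex.I_re,
        mul_zero, Complex.ofReal_im, Complex.I_im, mul_one, sub_self, add_zero]
      have : 0 < 1 / (Module.finrank ℚ K : ℝ) := by positivity
      linarith
    · refine (analyticAt_const.mul ?_).sub analyticAt_const
      have hd : Differentiable ℂ fun s : ℂ => (absNorm a : ℂ) ^ (1 - s) := by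
        intro s
        exact ((differentiableAt_const _).sub differentiableAt_id).const_cpow (Or.inl ha1')
      exact hd.analyticAt _
    · have h1 : (1 : ℂ) - (1 + y * Complex.I) = -(y * Complex.I) := by ring
      rw [h1, sub_ne_zero]
      exact hne
  · beta_reduce
    rw [← hgs s hs, mul_comm, mul_div_assoc, div_self, mul_one]
    rw [sub_ne_zero]
    intro h1
    have h2 : ‖χ (absNorm a : ZMod m) * (absNorm a : ℂ) ^ (1 - s)‖ < 1 := by
      rw [norm_mul]
      have h3 : ‖(absNorm a : ℂ) ^ (1 - s)‖ = (absNorm a : ℝ) ^ (1 - s.re) := by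
        have h4 := Complex.norm_natCast_cpow_of_pos (Nat.pos_of_ne_zero ha1) (1 - s)
        simpa using h4
      have h4 : (absNorm a : ℝ) ^ (1 - s.re) < 1 := by
        refine Real.rpow_lt_one_of_one_lt_of_neg (by exact_mod_cast ha2) (by linarith)
      rw [h3]
      calc ‖χ (absNorm a : ZMod m)‖ * (absNorm a : ℝ) ^ (1 - s.re)
          ≤ 1 * (absNorm a : ℝ) ^ (1 - s.re) :=
            mul_le_mul_of_nonneg_right (χ.norm_le_one _) (by positivity)
        _ < 1 := by rw [one_mul]; exact h4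
    rw [h1, norm_one] at h2
    exact lt_irrefl _ h2

end

end Pool.Agent.Work.MP_2b9663_nt
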