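import Pool.Agent.Work.MP_2b9663_nt.Ch.MVC

set_option autoImplicit false

/-!
Continuous logarithms of a meromorphic function along a segment which ends at a point: the
principal part is the order of the function times the logarithm of the parameter.
-/

namespace Pool.Agent.Work.MP_2b9663_nt

open Filter Topology

/-- a continuous logarithm of a function close to `w ≠ 0` is bounded -/
lemma log_bounded {l : ℝ → ℂ} {r : ℝ} (hr : 0 < r) (hl : ContinuousOn l (Set.Ioo 0 r))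
    {w : ℂ} (hw : w ≠ 0) (h : ∀ ε ∈ Set.Ioo (0 : ℝ) r, ‖Complex.exp (l ε) / w - 1‖ ≤ 1 / 2) :
    ∃ C : ℝ, ∀ ε ∈ Set.Ioo (0 : ℝ) r, ‖l ε‖ ≤ C := by
  have hε₀ : r / 2 ∈ Set.Ioo (0 : ℝ) r := ⟨by linarith, by linarith⟩
  have hre : ∀ ε ∈ Set.Ioo (0 : ℝ) r, 1 / 2 ≤ (Complex.exp (l ε) / w).re := by
    intro ε hε
    have h2 := (Complex.abs_re_le_norm _).trans (h ε hε)
    rw [Complex.sub_re, Complex.one_re, abs_le] at h2
    linarith [h2.1]
  have hslit : ∀ ε ∈ Set.Ioo (0 : ℝ) r, Complex.exp (l ε) / w ∈ Complex.slitPlane := by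
    intro ε hε
    left
    linarith [hre ε hε]
  set g : ℝ → ℂ := fun ε => l ε - Complex.log (Complex.exp (l ε) / w) with hg
  have hgc : ContinuousOn g (Set.Ioo 0 r) := by
    refine hl.sub (ContinuousOn.clog ?_ hslit)
    exact (Complex.continuous_exp.comp_continuousOn hl).div_const w
  have hexp : ∀ ε, Complex.exp (g ε) = w := by
    intro ε
    rw [hg]
    beta_reduce
    rw [Complex.exp_sub, Complex.exp_log (div_ne_zero (Complex.exp_ne_zero _) hw)]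
    field_simp
  have hgT : ∀ ε, ∃ k : ℤ, g ε = Complex.log w + k * (2 * Real.pi * Complex.I) := by
    intro ε
    have h2 : Complex.exp (g ε) = Complex.exp (Complex.log w) := by
      rw [hexp, Complex.exp_log hw]
    exact Complex.exp_eq_exp_iff_exists_int.mp h2
  choose k hk using hgT
  have hkim : ∀ ε, ((k ε : ℤ) : ℝ) = ((g ε).im - w.arg) / (2 * Real.pi) := by
    intro ε
    have h2 : (g ε).im = w.arg + k ε * (2 * Real.pi) := by
      rw [hk]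
      simp [Complex.log_im]
    rw [h2]
    field_simp
    ring
  have hkc : ContinuousOn k (Set.Ioo 0 r) := by
    rw [Int.isClosedEmbedding_coe_real.isInducing.continuousOn_iff]
    refine ContinuousOn.congr ?_ fun ε _ => hkim ε
    exact ((Complex.continuous_im.comp_continuousOn hgc).sub continuousOn_const).div_const _
  have hconst : ∀ ε ∈ Set.Ioo (0 : ℝ) r, g ε = g (r / 2) := by
    intro ε hε
    rw [hk ε, hk (r / 2), isPreconnected_Ioo.constant hkc hε hε₀]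
  refine ⟨‖g (r / 2)‖ + (Real.log 2 + Real.pi), fun ε hε => ?_⟩
  have h3 : l ε = g (r / 2) + Complex.log (Complex.exp (l ε) / w) := by
    rw [← hconst ε hε, hg]
    ring
  rw [h3]
  refine (norm_add_le _ _).trans (add_le_add_right ?_ _)
  refine (Complex.norm_le_abs_re_add_abs_im _).trans (add_le_add ?_ ?_)
  · rw [Complex.log_re]
    have h4 : ‖Complex.exp (l ε) / w‖ ≤ 3 / 2 := by
      have h5 := norm_add_le (Complex.exp (l ε) / w - 1) 1
      rw [sub_add_cancel, norm_one] at h5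
      linarith [h ε hε]
    have h5 : 1 / 2 ≤ ‖Complex.exp (l ε) / w‖ :=
      (hre ε hε).trans ((le_abs_self _).trans (Complex.abs_re_le_norm _))
    rw [abs_le]
    constructor
    · rw [← Real.log_inv]
      refine Real.log_le_log (by norm_num) ?_
      linarith
    · refine Real.log_le_log (by linarith) ?_
      linarith
  · rw [Complex.log_im]
    exact Complex.abs_arg_le_pi _


/-- the path `ε ↦ s₀ + ε` tends to `s₀` in the punctured neighbourhood -/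
lemma tendsto_add_ofReal (s₀ : ℂ) : Tendsto (fun ε : ℝ => s₀ + (ε : ℂ)) (𝓝[>] 0) (𝓝[≠] s₀) := by
  rw [tendsto_nhdsWithin_iff]
  constructor
  · have h1 : Tendsto (fun ε : ℝ => s₀ + (ε : ℂ)) (𝓝 0) (𝓝 (s₀ + ((0 : ℝ) : ℂ))) :=
      Continuous.tendsto (by fun_prop) 0
    rw [Complex.ofReal_zero, add_zero] at h1
    exact h1.mono_left nhdsWithin_le_nhds
  · filter_upwards [self_mem_nhdsWithin] with ε hε0
    have hε : (0 : ℝ) < ε := hε0
    rw [Set.mem_compl_iff, Set.mem_singleton_iff]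
    intro h1
    have h2 : (ε : ℂ) = 0 := by linear_combination h1
    rw [Complex.ofReal_eq_zero] at h2
    exact hε.ne' h2

/-- **The argument lemma.** If `Λ` is a continuous logarithm of `ε ↦ F (s₀ + ε)` and `F` is
meromorphic at `s₀`, then `Λ ε = n log ε + O(1)`, where `n` is the order of `F` at `s₀`. -/
theorem log_meromorphic {F : ℂ → ℂ} {s₀ : ℂ} (hF : MeromorphicAt F s₀) {Λ : ℝ → ℂ} {r : ℝ}
    (hr : 0 < r) (hΛ : ContinuousOn Λ (Set.Ioc 0 r))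
    (h : ∀ ε ∈ Set.Ioc (0 : ℝ) r, Complex.exp (Λ ε) = F (s₀ + (ε : ℂ))) :
    ∃ n : ℤ, meromorphicOrderAt F s₀ = n ∧
      ∃ C : ℝ, ∀ ε ∈ Set.Ioc (0 : ℝ) r, ‖Λ ε - (n : ℂ) * ((Real.log ε : ℝ) : ℂ)‖ ≤ C := by
  have hpath := tendsto_add_ofReal s₀
  have hmem : Set.Ioc (0 : ℝ) r ∈ 𝓝[>] (0 : ℝ) := Ioc_mem_nhdsGT hr
  have hfin : meromorphicOrderAt F s₀ ≠ ⊤ := by
    intro htop
    rw [meromorphicOrderAt_eq_top_iff] at htop
    obtain ⟨ε, h1, h2⟩ := ((hpath.eventually htop).and hmem).exists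
    rw [← h ε h2] at h1
    exact Complex.exp_ne_zero _ h1
  obtain ⟨n, hn⟩ := WithTop.ne_top_iff_exists.mp hfin
  refine ⟨n, hn.symm, ?_⟩
  obtain ⟨g, hg, hg0, hFg⟩ := (meromorphicOrderAt_eq_int_iff hF).mp hn.symm
  set l : ℝ → ℂ := fun ε => Λ ε - (n : ℂ) * ((Real.log ε : ℝ) : ℂ) with hl
  have hlog : ContinuousOn (fun ε : ℝ => (n : ℂ) * ((Real.log ε : ℝ) : ℂ)) (Set.Ioc 0 r) := by
    refine continuousOn_const.mul ?_
    refine Complex.continuous_ofReal.comp_continuousOn ?_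
    exact Real.continuousOn_log.mono fun ε hε => hε.1.ne'
  have hlc : ContinuousOn l (Set.Ioc 0 r) := hΛ.sub hlog
  -- the exponential of `l` is `g (s₀ + ε)` near `0`
  have hexp : ∀ᶠ ε : ℝ in 𝓝[>] 0, Complex.exp (l ε) = g (s₀ + (ε : ℂ)) := by
    filter_upwards [hpath.eventually hFg, hmem] with ε h1 h2
    have hε : (ε : ℂ) ≠ 0 := by exact_mod_cast h2.1.ne'
    have h3 : Complex.exp ((n : ℂ) * ((Real.log ε : ℝ) : ℂ)) = (ε : ℂ) ^ n := by
      rw [Complex.exp_int_mul, ← Complex.ofReal_exp, Real.exp_log h2.1]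
    simp only [hl]
    rw [Complex.exp_sub, h ε h2, h1, h3, add_sub_cancel_left, smul_eq_mul,
      mul_div_cancel_left₀ _ (zpow_ne_zero n hε)]
  have hlim : Tendsto (fun ε : ℝ => ‖Complex.exp (l ε) / g s₀ - 1‖) (𝓝[>] 0) (𝓝 0) := by
    have h1 : Tendsto (fun ε : ℝ => g (s₀ + (ε : ℂ))) (𝓝[>] 0) (𝓝 (g s₀)) :=
      hg.continuousAt.tendsto.comp (hpath.mono_right nhdsWithin_le_nhds)
    have h2 := ((h1.congr' (hexp.mono fun ε h => h.symm)).div_const (g s₀)).sub_const 1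
    rw [div_self hg0, sub_self] at h2
    simpa using h2.norm
  have h2 := hlim.eventually (gt_mem_nhds (by norm_num : (0 : ℝ) < 1 / 2))
  rw [eventually_nhdsWithin_iff, Metric.eventually_nhds_iff] at h2
  obtain ⟨δ, hδ, h2⟩ := h2
  have hr' : 0 < min δ r := lt_min hδ hr
  obtain ⟨D, hD⟩ := log_bounded hr'
    (hlc.mono fun ε hε => ⟨hε.1, hε.2.le.trans (min_le_right _ _)⟩)
    hg0 fun ε hε => (h2 (y := ε) (by
      rw [Real.dist_eq, sub_zero, abs_of_pos hε.1]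
      exact hε.2.trans_le (min_le_left _ _)) hε.1).le
  -- the compact part
  have hcomp : ContinuousOn l (Set.Icc (min δ r) r) :=
    hlc.mono fun ε hε => ⟨hr'.trans_le hε.1, hε.2⟩
  obtain ⟨D', hD'⟩ := isCompact_Icc.exists_bound_of_continuousOn hcomp
  refine ⟨max D D', fun ε hε => ?_⟩
  rcases lt_or_ge ε (min δ r) with h3 | h3
  · exact (hD ε ⟨hε.1, h3⟩).trans (le_max_left _ _)
  · exact (hD' ε ⟨h3, hε.2⟩).trans (le_max_right _ _)

/-- The argument lemma for analytic functions: the order is a natural number. -/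
theorem log_analytic {F : ℂ → ℂ} {s₀ : ℂ} (hF : AnalyticAt ℂ F s₀) {Λ : ℝ → ℂ} {r : ℝ}
    (hr : 0 < r) (hΛ : ContinuousOn Λ (Set.Ioc 0 r))
    (h : ∀ ε ∈ Set.Ioc (0 : ℝ) r, Complex.exp (Λ ε) = F (s₀ + (ε : ℂ))) :
    ∃ n : ℕ, analyticOrderAt F s₀ = n ∧
      ∃ C : ℝ, ∀ ε ∈ Set.Ioc (0 : ℝ) r, ‖Λ ε - (n : ℂ) * ((Real.log ε : ℝ) : ℂ)‖ ≤ C := by
  obtain ⟨n, hn, C, hC⟩ := log_meromorphic hF.meromorphicAt hr hΛ h
  rw [hF.meromorphicOrderAt_eq] at hn
  have hne : analyticOrderAt F s₀ ≠ ⊤ := by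
    intro htop
    rw [htop, ENat.map_top] at hn
    exact WithTop.top_ne_coe hn
  obtain ⟨m, hm⟩ := ENat.ne_top_iff_exists.mp hne
  rw [← hm, ENat.map_natCast] at hn
  have h1 : (m : ℤ) = n := by exact_mod_cast hn
  subst h1
  exact ⟨m, hm.symm, C, by simpa using hC⟩

/-- From a continuous logarithm to the mean value. -/
lemma MVC.of_log {c : Nat.Primes → ℂ} (hc : BDC c) {Λ : ℝ → ℂ} {n : ℂ} {C C' r : ℝ} (hr : 0 < r)
    (h1 : ∀ ε ∈ Set.Ioc (0 : ℝ) r, ‖Λ ε - PSC c ε‖ ≤ C)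
    (h2 : ∀ ε ∈ Set.Ioc (0 : ℝ) r, ‖Λ ε - n * ((Real.log ε : ℝ) : ℂ)‖ ≤ C') : MVC c (-n) := by
  refine ⟨hc, ?_⟩
  have h0 : ∀ᶠ ε : ℝ in 𝓝[>] 0, ‖PSC c ε - n * ((Real.log ε : ℝ) : ℂ)‖ ≤ C + C' := by
    filter_upwards [Ioc_mem_nhdsGT hr] with ε hε
    have h3 : PSC c ε - n * ((Real.log ε : ℝ) : ℂ) =
        (Λ ε - n * ((Real.log ε : ℝ) : ℂ)) - (Λ ε - PSC c ε) := by ring
    rw [h3]
    refine (norm_sub_le _ _).trans ?_
    linarith [h1 ε hε, h2 ε hε]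
  have h3 := (tendsto_of_bounded h0).add_const (-n)
  rw [zero_add] at h3
  refine h3.congr' ?_
  filter_upwards [neglog_pos] with ε h4
  have h5 : ((-Real.log ε : ℝ) : ℂ) ≠ 0 := by exact_mod_cast h4.ne'
  rw [div_add' _ _ _ h5]
  congr 1
  push_cast
  ring

/-- The mean value is minus the order of the meromorphic function. -/
theorem MVC.of_meromorphic {c : Nat.Primes → ℂ} (hc : BDC c) {F : ℂ → ℂ} {s₀ : ℂ}
    (hF : MeromorphicAt F s₀) {Λ : ℝ → ℂ} {C r : ℝ} (hr : 0 < r)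
    (hΛ : ContinuousOn Λ (Set.Ioc 0 r))
    (h : ∀ ε ∈ Set.Ioc (0 : ℝ) r, Complex.exp (Λ ε) = F (s₀ + (ε : ℂ)))
    (hb : ∀ ε ∈ Set.Ioc (0 : ℝ) r, ‖Λ ε - PSC c ε‖ ≤ C) :
    ∃ n : ℤ, meromorphicOrderAt F s₀ = n ∧ MVC c (-(n : ℂ)) := by
  obtain ⟨n, hn, C', hC'⟩ := log_meromorphic hF hr hΛ h
  exact ⟨n, hn, MVC.of_log hc hr hb hC'⟩

/-- The mean value is minus the order of the analytic function. -/
theorem MVC.of_analytic {c : Nat.Primes → ℂ} (hc : BDC c) {F : ℂ → ℂ} {s₀ : ℂ}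
    (hF : AnalyticAt ℂ F s₀) {Λ : ℝ → ℂ} {C r : ℝ} (hr : 0 < r)
    (hΛ : ContinuousOn Λ (Set.Ioc 0 r))
    (h : ∀ ε ∈ Set.Ioc (0 : ℝ) r, Complex.exp (Λ ε) = F (s₀ + (ε : ℂ)))
    (hb : ∀ ε ∈ Set.Ioc (0 : ℝ) r, ‖Λ ε - PSC c ε‖ ≤ C) :
    ∃ n : ℕ, analyticOrderAt F s₀ = n ∧ MVC c (-(n : ℂ)) := by
  obtain ⟨n, hn, C', hC'⟩ := log_analytic hF hr hΛ h
  exact ⟨n, hn, MVC.of_log hc hr hb hC'⟩

end Pool.Agent.Work.MP_2b9663_nt
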