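import Pool.Agent.Work.MP_2b9663_nt.Ch.Virtual
import Pool.Agent.Work.MP_2b9663_nt.BaseChange

set_option autoImplicit false

/-!
The virtual representation and base change to number fields.
-/

namespace Pool.Agent.Work.MP_2b9663_nt

open NumberField Filter Topology

section

variable {G : Type*} [Group G] [Fintype G]

/-- the average over a subgroup of a function which is invariant under a normal subgroup `N` depends
only on the image of the subgroup modulo `N` -/
lemma avg_map (N : Subgroup G) [N.Normal] {f : G → ℂ} (hN : ∀ g, ∀ n ∈ N, f (g * n) = f g)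
    {H H' : Subgroup G} (h : H ⊔ N = H' ⊔ N) :
    (∑ g, f g * Set.indicator (H : Set G) (1 : G → ℂ) g) / Nat.card H =
      (∑ g, f g * Set.indicator (H' : Set G) (1 : G → ℂ) g) / Nat.card H' := by
  classical
  -- the function on the quotient
  let F : G ⧸ N → ℂ := Quotient.lift f (by
    intro a b hab
    have h1 : a⁻¹ * b ∈ N := QuotientGroup.leftRel_apply.1 hab
    have h2 := hN a _ h1
    rw [mul_inv_cancel_left] at h2
    exact h2.symm)
  have hF : ∀ g, f g = F (QuotientGroup.mk' N g) := fun g => rfl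
  have key : ∀ H : Subgroup G, (∑ g, f g * Set.indicator (H : Set G) (1 : G → ℂ) g) / Nat.card H =
      (∑ x : H.map (QuotientGroup.mk' N), F x) / Fintype.card (H.map (QuotientGroup.mk' N)) := by
    intro H
    have h1 : ∑ g, f g * Set.indicator (H : Set G) (1 : G → ℂ) g = ∑ g : H, f g := by
      simp only [Set.indicator_apply, SetLike.mem_coe, Pi.one_apply, mul_ite, mul_one, mul_zero]
      rw [← Finset.sum_filter]
      exact Finset.sum_subtype _ (by simp) f
    have h2 := sum_comp_surj ((QuotientGroup.mk' N).subgroupMap H)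
      ((QuotientGroup.mk' N).subgroupMap_surjective H) (fun x => F x)
    rw [← h2, h1, Nat.card_eq_fintype_card]
    rfl
  rw [key, key]
  have h3 : H.map (QuotientGroup.mk' N) = H'.map (QuotientGroup.mk' N) := by
    rw [Subgroup.map_eq_map_iff, QuotientGroup.ker_mk']
    exact h
  rw [h3]

/-- Frobenius reciprocity and `avg_map` -/
lemma sum_pc_eq (N : Subgroup G) [N.Normal] {f : G → ℂ} (hN : ∀ g, ∀ n ∈ N, f (g * n) = f g)
    (hf : IsCl f) {H H' : Subgroup G} (h : H ⊔ N = H' ⊔ N) :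
    ∑ g, f g * (pc H g : ℂ) = ∑ g, f g * (pc H' g : ℂ) := by
  have h1 := Reps.sum_mul_pc_complex H hf
  have h2 := Reps.sum_mul_pc_complex H' hf
  have h3 := avg_map N hN h
  have h4 : ∀ H : Subgroup G, (Nat.card H : ℂ) ≠ 0 := fun H => by
    have : 0 < Nat.card H := Nat.card_pos
    exact_mod_cast this.ne'
  rw [div_eq_div_iff (h4 H) (h4 H')] at h3
  have h5 : (Nat.card H : ℂ) * (Nat.card H' : ℂ) * ∑ g, f g * (pc H g : ℂ) =
      (Nat.card H : ℂ) * (Nat.card H' : ℂ) * ∑ g, f g * (pc H' g : ℂ) := by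
    linear_combination (Nat.card H' : ℂ) * h1 - (Nat.card H : ℂ) * h2 +
      (Fintype.card G : ℂ) * h3
  exact mul_left_cancel₀ (mul_ne_zero (h4 H) (h4 H')) h5

end

section

variable {Ω : Type} [Field Ω] [CharZero Ω] [IsAlgClosure ℚ Ω]

omit [IsAlgClosure ℚ Ω] in
/-- the embeddings of `K` in `Ω` have their images in the Galois extension `L ⊇ K` -/
lemma fixEmb_restrict {K L : IntermediateField ℚ Ω} [NumberField K] [NumberField L] [IsGalois ℚ L]
    (h : K ≤ L) (g : Ω ≃ₐ[ℚ] Ω) :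
    fixEmb K Ω g = pc (subf L K).fixingSubgroup (AlgEquiv.restrictNormalHom L g) := by
  have hfinL : Finite (K →+* L) := Finite.of_equiv _ (RingHom.equivRatAlgHom K L).symm
  have hfinΩ : Finite (K →+* Ω) := Finite.of_equiv _ (RingHom.equivRatAlgHom K Ω).symm
  have hres : ∀ x : L, ((AlgEquiv.restrictNormalHom L g x : L) : Ω) = g (x : Ω) := fun x =>
    AlgEquiv.restrictNormal_commutes g L x
  let F : (K →+* L) → (K →+* Ω) := fun σ => (algebraMap L Ω).comp σ
  have hFi : Function.Injective F := by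
    intro σ τ hst
    refine RingHom.ext fun x => Subtype.ext ?_
    exact RingHom.congr_fun hst x
  have hcard : Nat.card (K →+* Ω) ≤ Nat.card (K →+* L) := by
    have h1 : Nat.card (K →+* Ω) ≤ Module.finrank ℚ K := by
      rw [Nat.card_congr (RingHom.equivRatAlgHom K Ω)]
      exact card_algHom_le_finrank ℚ K Ω
    have h2 : Nat.card (K →+* L) = Module.finrank ℚ K := by
      have h3 := fixEmb_eq_pc (subf L K) 1
      rw [← fixEmb_congr (subfEquiv h)] at h3
      have h4 : fixEmb K L 1 = Nat.card (K →+* L) := by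
        unfold fixEmb
        exact Nat.card_congr (Equiv.subtypeUnivEquiv fun σ x => rfl)
      have h5 : pc (subf L K).fixingSubgroup (1 : L ≃ₐ[ℚ] L) = Module.finrank ℚ (subf L K) := by
        rw [← index_fixing]
        unfold pc
        exact Nat.card_congr (Equiv.subtypeUnivEquiv fun x => one_smul _ x)
      rw [← h4, h3, h5, finrank_subf h]
    rw [h2]
    exact h1
  have hbij : Function.Bijective F := hFi.bijective_of_nat_card_le hcard
  rw [← fixEmb_eq_pc, ← fixEmb_congr (subfEquiv h)]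
  unfold fixEmb
  refine (Nat.card_congr (Equiv.ofBijective (fun σ : {σ : K →+* L // ∀ x,
    AlgEquiv.restrictNormalHom L g (σ x) = σ x} => (⟨F σ.1, fun x => ?_⟩ :
      {σ : K →+* Ω // ∀ x, g (σ x) = σ x})) ⟨?_, ?_⟩)).symm
  · have h1 := congrArg (fun z : L => (z : Ω)) (σ.2 x)
    beta_reduce at h1
    rw [hres] at h1
    exact h1
  · intro σ τ hst
    exact Subtype.ext (hFi (congrArg Subtype.val hst))
  · rintro ⟨τ, hτ⟩
    obtain ⟨σ, rfl⟩ := hbij.2 τ
    refine ⟨⟨σ, fun x => Subtype.ext ?_⟩, rfl⟩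
    rw [hres]
    exact hτ x

omit [IsAlgClosure ℚ Ω] in
lemma lvl_fixEmb {K L : IntermediateField ℚ Ω} [NumberField K] [NumberField L] [IsGalois ℚ L]
    (h : K ≤ L) : Lvl L (fun g => (fixEmb K Ω g : ℂ)) := by
  intro g x hx
  beta_reduce
  rw [fixEmb_restrict h, fixEmb_restrict h, map_mul, (restrict_ker L x).2 hx, mul_one]

omit [IsAlgClosure ℚ Ω] in
lemma isCl_fixEmb (K : Type) [Field K] : IsCl (fun g : Ω ≃ₐ[ℚ] Ω => (fixEmb K Ω g : ℂ)) := by
  intro x g
  beta_reduce
  have h1 : fixEmb K Ω (x * g * x⁻¹) = fixEmb K Ω g := by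
    unfold fixEmb
    refine Nat.card_congr ⟨fun σ => ⟨((x⁻¹ : Ω ≃ₐ[ℚ] Ω) : Ω →+* Ω).comp σ.1, fun z => ?_⟩,
      fun σ => ⟨(x : Ω →+* Ω).comp σ.1, fun z => ?_⟩, fun σ => ?_, fun σ => ?_⟩
    · have h2 := congrArg (x⁻¹ : Ω ≃ₐ[ℚ] Ω) (σ.2 z)
      rw [AlgEquiv.mul_apply, AlgEquiv.mul_apply, ← AlgEquiv.mul_apply x⁻¹, inv_mul_cancel] at h2
      exact h2
    · have h2 := congrArg x (σ.2 z)
      change (x * g * x⁻¹) (x (σ.1 z)) = x (σ.1 z)
      rw [← AlgEquiv.mul_apply, inv_mul_cancel_right, AlgEquiv.mul_apply]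
      exact h2
    · refine Subtype.ext (RingHom.ext fun z => ?_)
      change x (x⁻¹ (σ.1 z)) = σ.1 z
      rw [← AlgEquiv.mul_apply, mul_inv_cancel]
      rfl
    · refine Subtype.ext (RingHom.ext fun z => ?_)
      change x⁻¹ (x (σ.1 z)) = σ.1 z
      rw [← AlgEquiv.mul_apply, inv_mul_cancel]
      rfl
  rw [h1]

/-- the number of prime ideals of degree one above `p` -/
lemma idc_isFrob (K : IntermediateField ℚ Ω) [NumberField K] : ∃ T : Finset Nat.Primes,
    ∀ p, p ∉ T → ∀ g : Ω ≃ₐ[ℚ] Ω, IsFrob (p : ℕ) g → idc K (p : ℕ) = fixEmb K Ω g := by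
  have h1 : NumberField (NC K) := nc_nf K
  have h2 : IsGalois ℚ (NC K) := nc_gal K
  have hK : K ≤ NC K := le_nc K
  obtain ⟨T, hT⟩ := idc_frob (subf (NC K) K)
  obtain ⟨T', hT'⟩ := IsFrob.classFn (Ω := Ω) (NC K) (fun x => pc (subf (NC K) K).fixingSubgroup x)
    (fun x g => pc_conj _ x g)
  classical
  refine ⟨T ∪ T', fun p hp g hg => ?_⟩
  have hp' : Fact (p : ℕ).Prime := ⟨p.2⟩
  rw [Finset.mem_union, not_or] at hp
  rw [fixEmb_restrict hK, hT' p hp.2 g hg, ← hT p hp.1]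
  exact idc_congr (subfEquiv hK) (p : ℕ)

/-- the mean value of `V * fixEmb K` depends only on `K ⊓ M`, if `V` is of level `M` -/
lemma meanAt_fixEmb_eq {M L K K' : IntermediateField ℚ Ω} [NumberField M] [IsGalois ℚ M]
    [NumberField L] [IsGalois ℚ L] [NumberField K] [NumberField K'] (hM : M ≤ L) (hK : K ≤ L)
    (hK' : K' ≤ L) {V : (Ω ≃ₐ[ℚ] Ω) → ℂ} (hV : Lvl M V) (hVc : IsCl V) (h : K ⊓ M = K' ⊓ M) :
    meanAt L (fun g => V g * (fixEmb K Ω g : ℂ)) =
      meanAt L (fun g => V g * (fixEmb K' Ω g : ℂ)) := by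
  obtain ⟨f, hf, hcl⟩ := exists_descent (hV.mono hM)
  have hN := normal_subf hM
  have hfN : ∀ x, ∀ n ∈ (subf L M).fixingSubgroup, f (x * n) = f x := by
    intro x n hn
    obtain ⟨g, rfl⟩ := restrict_surj L x
    obtain ⟨u, rfl⟩ := restrict_surj L n
    rw [← map_mul, ← hf, ← hf]
    refine hV g u ((IntermediateField.mem_fixingSubgroup_iff M u).2 fun z hz => ?_)
    have h1 := (IntermediateField.mem_fixingSubgroup_iff _ _).1 hn (⟨z, hM hz⟩ : L) hz
    have h2 := congrArg (fun w : L => (w : Ω)) h1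
    exact (AlgEquiv.restrictNormal_commutes u L (⟨z, hM hz⟩ : L)).symm.trans h2
  have key : ∀ (E : IntermediateField ℚ Ω) [NumberField E], E ≤ L →
      meanAt L (fun g => V g * (fixEmb E Ω g : ℂ)) =
        (∑ x, f x * (pc (subf L E).fixingSubgroup x : ℂ)) / Fintype.card (L ≃ₐ[ℚ] L) := by
    intro E _ hE
    rw [← meanAt_restrict L fun x => f x * (pc (subf L E).fixingSubgroup x : ℂ)]
    congr 1
    funext g
    rw [← hf, fixEmb_restrict hE]
  rw [key K hK, key K' hK', sum_pc_eq (subf L M).fixingSubgroup hfN (hcl hVc)]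
  rw [← fixing_inf, ← fixing_inf, ← subf_inf, ← subf_inf, h]

/-- **Base change.**  If the correlations of `a` with the class functions are those of `V`, then
the correlation of `a` with the number of the prime ideals of degree one of `K` is the mean value
of `V * fixEmb K`. -/
theorem virtual_base {Fr : Nat.Primes → (Ω ≃ₐ[ℚ] Ω)} (hFr : ∀ p : Nat.Primes, IsFrob (p : ℕ) (Fr p))
    {a : Nat.Primes → ℂ} {M : IntermediateField ℚ Ω} {V : (Ω ≃ₐ[ℚ] Ω) → ℂ}
    (hfun : ∀ (L : IntermediateField ℚ Ω) [NumberField L] [IsGalois ℚ L] (f : (Ω ≃ₐ[ℚ] Ω) → ℂ),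
      M ≤ L → Lvl L f → IsCl f → MVC (fun p => a p * f (Fr p)) (meanAt L fun g => V g * f g))
    {K L : IntermediateField ℚ Ω} [NumberField K] [NumberField L] [IsGalois ℚ L] (hM : M ≤ L)
    (hK : K ≤ L) : MVC (fun p : Nat.Primes => (idc K (p : ℕ) : ℂ) * a p)
      (meanAt L fun g => V g * (fixEmb K Ω g : ℂ)) := by
  obtain ⟨T, hT⟩ := idc_isFrob K
  refine (hfun L (fun g => (fixEmb K Ω g : ℂ)) hM (lvl_fixEmb hK) (isCl_fixEmb K)).congr T
    fun p hp => ?_
  rw [hT p hp (Fr p) (hFr p), mul_comm]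

/-- The mean values of the base changes to `K` and `K'` are equal if `K` and `K'` have the same
intersection with `M`. -/
theorem virtual_stable {Fr : Nat.Primes → (Ω ≃ₐ[ℚ] Ω)}
    (hFr : ∀ p : Nat.Primes, IsFrob (p : ℕ) (Fr p)) {a : Nat.Primes → ℂ}
    {M : IntermediateField ℚ Ω} [NumberField M] [IsGalois ℚ M] {V : (Ω ≃ₐ[ℚ] Ω) → ℂ}
    (hV : Lvl M V) (hVc : IsCl V)
    (hfun : ∀ (L : IntermediateField ℚ Ω) [NumberField L] [IsGalois ℚ L] (f : (Ω ≃ₐ[ℚ] Ω) → ℂ),
      M ≤ L → Lvl L f → IsCl f → MVC (fun p => a p * f (Fr p)) (meanAt L fun g => V g * f g))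
    {K K' : IntermediateField ℚ Ω} [NumberField K] [NumberField K'] (h : K ⊓ M = K' ⊓ M)
    {x x' : ℂ} (hx : MVC (fun p : Nat.Primes => (idc K (p : ℕ) : ℂ) * a p) x)
    (hx' : MVC (fun p : Nat.Primes => (idc K' (p : ℕ) : ℂ) * a p) x') : x = x' := by
  have h1 : FiniteDimensional ℚ (K ⊔ K' ⊔ M : IntermediateField ℚ Ω) := by
    have : FiniteDimensional ℚ (K ⊔ K' : IntermediateField ℚ Ω) :=
      IntermediateField.finiteDimensional_sup K K'
    exact IntermediateField.finiteDimensional_sup (K ⊔ K') M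
  have h2 : NumberField (K ⊔ K' ⊔ M : IntermediateField ℚ Ω) := ⟨⟩
  have h3 : NumberField (NC (K ⊔ K' ⊔ M)) := nc_nf _
  have h4 : IsGalois ℚ (NC (K ⊔ K' ⊔ M)) := nc_gal _
  have hle : K ⊔ K' ⊔ M ≤ NC (K ⊔ K' ⊔ M) := le_nc _
  have hK : K ≤ NC (K ⊔ K' ⊔ M) := (le_sup_left.trans le_sup_left).trans hle
  have hK' : K' ≤ NC (K ⊔ K' ⊔ M) := (le_sup_right.trans le_sup_left).trans hle
  have hM : M ≤ NC (K ⊔ K' ⊔ M) := le_sup_right.trans hle
  rw [hx.unique (virtual_base hFr hfun hM hK), hx'.unique (virtual_base hFr hfun hM hK')]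
  exact meanAt_fixEmb_eq hM hK hK' hV hVc h

end

end Pool.Agent.Work.MP_2b9663_nt
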