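import Pool.Agent.Work.MP_2b9663_nt.Ch.VirtK

set_option autoImplicit false

/-!
The multiplicities of the irreducible representations in the virtual representation.
-/

namespace Pool.Agent.Work.MP_2b9663_nt

open NumberField Filter Topology ComplexConjugate

section

variable {Ω : Type} [Field Ω] [CharZero Ω] [IsAlgClosure ℚ Ω]

/-- a common Galois level of two representations and a number field -/
lemma exists_common (R R' : ArtinRep Ω) (M : IntermediateField ℚ Ω) [NumberField M] :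
    ∃ L : IntermediateField ℚ Ω, NumberField L ∧ IsGalois ℚ L ∧ M ≤ L ∧
      (∀ g ∈ L.fixingSubgroup, R.ρ g = 1) ∧ ∀ g ∈ L.fixingSubgroup, R'.ρ g = 1 := by
  obtain ⟨E, hE, hR⟩ := R.level
  obtain ⟨E', hE', hR'⟩ := R'.level
  have h1 : FiniteDimensional ℚ (E ⊔ E' ⊔ M : IntermediateField ℚ Ω) := by
    have : FiniteDimensional ℚ (E ⊔ E' : IntermediateField ℚ Ω) :=
      IntermediateField.finiteDimensional_sup E E'
    exact IntermediateField.finiteDimensional_sup (E ⊔ E') M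
  have h2 : NumberField (E ⊔ E' ⊔ M : IntermediateField ℚ Ω) := ⟨⟩
  have hle : E ⊔ E' ⊔ M ≤ NC (E ⊔ E' ⊔ M) := le_nc _
  refine ⟨NC (E ⊔ E' ⊔ M), nc_nf _, nc_gal _, le_sup_right.trans hle, fun g hg => hR g ?_,
    fun g hg => hR' g ?_⟩
  · exact IntermediateField.fixingSubgroup_le ((le_sup_left.trans le_sup_left).trans hle) hg
  · exact IntermediateField.fixingSubgroup_le ((le_sup_right.trans le_sup_left).trans hle) hg

/-- the mean value of a finite sum -/
lemma meanAt_sum (M : IntermediateField ℚ Ω) [NumberField M] {ι : Type*} (s : Finset ι)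
    (f : ι → (Ω ≃ₐ[ℚ] Ω) → ℂ) :
    meanAt M (fun g => ∑ i ∈ s, f i g) = ∑ i ∈ s, meanAt M (f i) := by
  have := finite_quot M
  cases nonempty_fintype ((Ω ≃ₐ[ℚ] Ω) ⧸ M.fixingSubgroup)
  rw [meanAt_eq, Finset.sum_comm, Finset.sum_div]
  exact Finset.sum_congr rfl fun i _ => (meanAt_eq M (f i)).symm

open scoped Classical in
/-- the mean value of `V * χ` for an irreducible character `χ` is the multiplicity of its conjugate
in `V` -/
theorem meanAt_mult {M : IntermediateField ℚ Ω} [NumberField M] [IsGalois ℚ M]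
    {s : Finset ((Ω ≃ₐ[ℚ] Ω) → ℂ)} {r : ((Ω ≃ₐ[ℚ] Ω) → ℂ) → ℤ}
    (hs : ∀ χ ∈ s, ∃ R : ArtinRep Ω, R.Irr ∧ R.char = χ ∧ ∀ g ∈ M.fixingSubgroup, R.ρ g = 1)
    {R : ArtinRep Ω} (hR : R.Irr) {L : IntermediateField ℚ Ω} [NumberField L] [IsGalois ℚ L]
    (hM : M ≤ L) (hL : ∀ g ∈ L.fixingSubgroup, R.ρ g = 1) :
    meanAt L (fun g => (∑ χ ∈ s, (r χ : ℂ) * χ g) * R.char g) =
      if (fun g => conj (R.char g)) ∈ s then (r (fun g => conj (R.char g)) : ℂ) else 0 := by
  have hfq := finite_quot L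
  obtain ⟨R', h1, h2, h3⟩ := exists_dual R
  have hR'c : R'.char = fun g => conj (R.char g) := funext h2
  have h4 : (fun g => (∑ χ ∈ s, (r χ : ℂ) * χ g) * R.char g) =
      fun g => ∑ χ ∈ s, (r χ : ℂ) * (χ g * conj (R'.char g)) := by
    funext g
    rw [Finset.sum_mul]
    refine Finset.sum_congr rfl fun χ _ => ?_
    rw [h2, Complex.conj_conj]
    ring
  rw [h4, meanAt_sum, ← hR'c]
  have h5 : ∀ χ ∈ s, meanAt L (fun g => (r χ : ℂ) * (χ g * conj (R'.char g))) =
      if χ = R'.char then (r χ : ℂ) else 0 := by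
    intro χ hχ
    obtain ⟨S, hS, hSχ, hSM⟩ := hs χ hχ
    have h6 : Lvl L S.char := ArtinRep.lvl_char fun g hg =>
      hSM g (IntermediateField.fixingSubgroup_le hM hg)
    have h7 : Lvl L R'.char := ArtinRep.lvl_char fun g hg => h3 g (hL g hg)
    obtain ⟨h8, h9⟩ := char_orth S R' hS (h1 hR) L h6 h7
    rw [meanAt_const_mul, ← hSχ]
    split_ifs with h10
    · rw [h8 h10, mul_one]
    · rw [h9 h10, mul_zero]
  rw [Finset.sum_congr rfl h5, Finset.sum_ite_eq']

open scoped Classical in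
/-- **The order of the twist** by an irreducible representation is minus the multiplicity of the
dual representation in the virtual representation. -/
theorem virtual_mult {Fr : Nat.Primes → (Ω ≃ₐ[ℚ] Ω)} {a : Nat.Primes → ℂ}
    {M : IntermediateField ℚ Ω} [NumberField M] [IsGalois ℚ M]
    {s : Finset ((Ω ≃ₐ[ℚ] Ω) → ℂ)} {r : ((Ω ≃ₐ[ℚ] Ω) → ℂ) → ℤ}
    (hs : ∀ χ ∈ s, ∃ R : ArtinRep Ω, R.Irr ∧ R.char = χ ∧ ∀ g ∈ M.fixingSubgroup, R.ρ g = 1)
    (hfun : ∀ (L : IntermediateField ℚ Ω) [NumberField L] [IsGalois ℚ L] (f : (Ω ≃ₐ[ℚ] Ω) → ℂ),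
      M ≤ L → Lvl L f → IsCl f →
      MVC (fun p => a p * f (Fr p)) (meanAt L fun g => (∑ χ ∈ s, (r χ : ℂ) * χ g) * f g))
    {R : ArtinRep Ω} (hR : R.Irr) {m : ℤ}
    (hm : MVC (fun p => a p * R.char (Fr p)) (-(m : ℂ))) :
    m = -(if (fun g => conj (R.char g)) ∈ s then r (fun g => conj (R.char g)) else 0) ∧
      (m ≠ 0 → ∀ g ∈ M.fixingSubgroup, R.ρ g = 1) := by
  obtain ⟨L, hL1, hL2, hM, hL, -⟩ := exists_common R R M
  have h1 := hfun L R.char hM (ArtinRep.lvl_char hL) R.isCl_char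
  have h2 := hm.unique h1
  rw [meanAt_mult hs hR hM hL] at h2
  have h3 : m = -(if (fun g => conj (R.char g)) ∈ s then r (fun g => conj (R.char g)) else 0) := by
    have h4 : (m : ℂ) = ((-(if (fun g => conj (R.char g)) ∈ s then
        r (fun g => conj (R.char g)) else 0) : ℤ) : ℂ) := by
      push_cast
      rw [← h2, neg_neg]
    exact_mod_cast h4
  refine ⟨h3, fun hm0 => ?_⟩
  have h4 : (fun g => conj (R.char g)) ∈ s := by
    by_contra hcon
    rw [if_neg hcon, neg_zero] at h3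
    exact hm0 h3
  obtain ⟨S, -, hSχ, hSM⟩ := hs _ h4
  have h5 : Lvl M S.char := ArtinRep.lvl_char hSM
  rw [hSχ] at h5
  have h6 : Lvl M R.char := by
    have h7 := h5.comp fun z => conj z
    have h8 : (fun x => conj (conj (R.char x))) = R.char := funext fun x => Complex.conj_conj _
    rw [h8] at h7
    exact h7
  exact triv_of_lvl h6

end

end Pool.Agent.Work.MP_2b9663_nt
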