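import Pool.Agent.Work.MP_2b9663_nt.Ch.OrderC
import Pool.Agent.Work.MP_2b9663_nt.Ch.VirtMult
import Pool.Agent.Work.MP_2b9663_nt.Ch.VirtK
import Pool.Agent.Work.MP_2b9663_nt.Master

set_option autoImplicit false

/-!
From the continuations of the twisted `L`-functions to mean values.
-/

namespace Pool.Agent.Work.MP_2b9663_nt

open Filter Topology NumberField

section

variable {Ω : Type} [Field Ω] [CharZero Ω] [IsAlgClosure ℚ Ω]

/-- a Galois level of a representation -/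
lemma exists_level_one (R : ArtinRep Ω) : ∃ (L : IntermediateField ℚ Ω), NumberField L ∧
    IsGalois ℚ L ∧ ∀ g ∈ L.fixingSubgroup, R.ρ g = 1 := by
  obtain ⟨L, h1, h2, h3⟩ := exists_level (Finset.univ : Finset Unit) (fun _ => R)
  refine ⟨L, h1, h2, fun g hg => ?_⟩
  have := h3 () (Finset.mem_univ _) 1 g hg
  rwa [one_mul, map_one] at this

/-- the character of an Artin representation is bounded -/
lemma ArtinRep.char_bounded (R : ArtinRep Ω) : ∃ B : ℝ, 0 ≤ B ∧ ∀ g, ‖R.char g‖ ≤ B := by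
  obtain ⟨L, _, _, h⟩ := exists_level_one R
  obtain ⟨f, hf, _⟩ := exists_descent (ArtinRep.lvl_char (R := R) h)
  refine ⟨∑ g, ‖f g‖, Finset.sum_nonneg fun _ _ => norm_nonneg _, fun g => ?_⟩
  rw [hf]
  exact Finset.single_le_sum (f := fun g => ‖f g‖) (fun _ _ => norm_nonneg _) (Finset.mem_univ _)

/-- the character of an Artin representation at an inverse -/
lemma ArtinRep.char_inv (R : ArtinRep Ω) (g : Ω ≃ₐ[ℚ] Ω) :
    R.char g⁻¹ = (starRingEnd ℂ) (R.char g) := by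
  obtain ⟨L, _, _, h⟩ := exists_level_one R
  obtain ⟨ρ, hρ⟩ := exists_desc R h
  rw [char_of_desc hρ, char_of_desc hρ, map_inv, Reps.chi_inv]

/-- the mean values are invariant under the inversion -/
lemma meanAt_inv (L : IntermediateField ℚ Ω) [NumberField L] [IsGalois ℚ L]
    {f : (Ω ≃ₐ[ℚ] Ω) → ℂ} (hL : Lvl L f) : meanAt L (fun g => f g⁻¹) = meanAt L f := by
  obtain ⟨f', hf', -⟩ := exists_descent hL
  have h1 : (fun g : Ω ≃ₐ[ℚ] Ω => f g⁻¹) =
      fun g => (fun σ => f' σ⁻¹) (AlgEquiv.restrictNormalHom L g) := by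
    funext g
    beta_reduce
    rw [hf', map_inv]
  have h2 : f = fun g => f' (AlgEquiv.restrictNormalHom L g) := funext hf'
  rw [h1, meanAt_restrict L (fun σ => f' σ⁻¹)]
  conv_rhs => rw [h2]
  rw [meanAt_restrict L f', Fintype.sum_equiv (Equiv.inv (L ≃ₐ[ℚ] L)) (fun σ => f' σ⁻¹) f'
    fun σ => rfl]

/-- Every Artin representation is unramified outside a finite set of primes. -/
lemma ArtinRep.unr_almost (R : ArtinRep Ω) : ∃ T : Finset Nat.Primes, ∀ p, p ∉ T →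
    R.Unr (p : ℕ) := by
  obtain ⟨L, _, _, h⟩ := exists_level_one R
  obtain ⟨D, hD0, hD⟩ := exists_sep (⊤ : IntermediateField ℚ L)
  refine ⟨smallPrimes (D + 1), fun p hp 𝔓 h𝔓 hpm g hg => ?_⟩
  have hpr : Fact (p : ℕ).Prime := ⟨p.2⟩
  apply h
  rw [← restrict_ker]
  -- the prime ideal of `L`
  set P : Ideal (𝓞 L) := 𝔓.comap (algebraMap (𝓞 L) (𝓞 Ω)) with hP
  have hPp : P.IsPrime := Ideal.comap_isPrime _ _
  have hPm : ((p : ℕ) : 𝓞 L) ∈ P := by
    rw [hP, Ideal.mem_comap, map_natCast]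
    exact hpm
  have hunder : P.under ℤ = Ideal.span {((p : ℕ) : ℤ)} := by
    have hmax : (Ideal.span {((p : ℕ) : ℤ)}).IsMaximal :=
      PrincipalIdealRing.isMaximal_of_irreducible (Nat.prime_iff_prime_int.mp p.2).irreducible
    refine (hmax.eq_of_le (Ideal.comap_isPrime _ _).ne_top ?_).symm
    rw [Ideal.span_singleton_le_iff_mem]
    change algebraMap ℤ (𝓞 L) ((p : ℕ) : ℤ) ∈ P
    simpa using hPm
  obtain ⟨P₀, hP₀⟩ := frob_spec (L := L) p
  have hP₀p : P₀.IsPrime := hP₀.max.isPrime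
  obtain ⟨σ, hσ⟩ := Algebra.IsInvariant.exists_smul_of_under_eq ℤ (𝓞 L) (L ≃ₐ[ℚ] L) P₀ P
    (hP₀.under_eq.trans hunder.symm)
  have hF := hP₀.conj σ
  rw [← hσ] at hF
  have h1 : redHom (⊤ : IntermediateField ℚ L) P (AlgEquiv.restrictNormalHom L g) =
      redHom (⊤ : IntermediateField ℚ L) P 1 := by
    refine RingHom.ext fun y => ?_
    rw [redHom_apply, redHom_apply, one_smul, Ideal.Quotient.eq, hP, Ideal.mem_comap, map_sub]
    have h2 : algebraMap (𝓞 L) (𝓞 Ω) (AlgEquiv.restrictNormalHom L g •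
        algebraMap (𝓞 (⊤ : IntermediateField ℚ L)) (𝓞 L) y) =
        g • algebraMap (𝓞 L) (𝓞 Ω) (algebraMap (𝓞 (⊤ : IntermediateField ℚ L)) (𝓞 L) y) := by
      apply RingOfIntegers.ext
      exact AlgEquiv.restrictNormal_commutes g L _
    rw [h2]
    exact hg _
  have h2 := hD (p : ℕ) _ P hF (not_dvd_of_big hD0 hp) _ _ h1
  rw [mul_one, IntermediateField.fixingSubgroup_top, Subgroup.mem_bot, inv_eq_one] at h2
  exact h2

/-- class functions of finite level do not depend on the choice of the Frobenius elements -/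
lemma classFn_isFrob {L : IntermediateField ℚ Ω} [NumberField L] [IsGalois ℚ L]
    {f : (Ω ≃ₐ[ℚ] Ω) → ℂ} (hL : Lvl L f) (hf : IsCl f) : ∃ T : Finset Nat.Primes,
    ∀ p, p ∉ T → ∀ g g' : Ω ≃ₐ[ℚ] Ω, IsFrob (p : ℕ) g → IsFrob (p : ℕ) g' → f g = f g' := by
  obtain ⟨f', hf', hcl⟩ := exists_descent hL
  obtain ⟨T, hT⟩ := IsFrob.classFn (Ω := Ω) L f' (hcl hf)
  refine ⟨T, fun p hp g g' hg hg' => ?_⟩
  rw [hf', hf' g', hT p hp g hg, hT p hp g' hg']

section

variable {G : Nat.Primes → Prop} {t : Nat.Primes → ℕ → ℂ} {i : ℕ} {b : ℝ}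

/-- **The order of a twist at a point of the line and the mean value of the twisted traces.** -/
theorem order_artin (hb : 0 ≤ b) (h : WeilBound G t i b) {R : ArtinRep Ω} {y : ℝ} {F : ℂ → ℂ}
    (hF : IsArtinContinuation G t i R ((i : ℂ) / 2 + 1 + Complex.I * y) F)
    (Fr : Nat.Primes → (Ω ≃ₐ[ℚ] Ω)) (hFr : ∀ p : Nat.Primes, IsFrob (p : ℕ) (Fr p)) :
    ∃ n : ℤ, meromorphicOrderAt F ((i : ℂ) / 2 + 1 + Complex.I * y) = n ∧
      MVC (fun p => nt G t i p * (starRingEnd ℂ) (R.char (Fr p)) * pw y p) (-(n : ℂ)) := by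
  classical
  obtain ⟨⟨Fr', hFr', hE⟩, hmer⟩ := hF
  obtain ⟨B, hB0, hB⟩ := R.char_bounded
  have hw : WeilBound (fun p => G p ∧ R.Unr (p : ℕ)) (fun p k => t p k * R.char (Fr' p ^ k)) i
      (b * B) := by
    intro p hp k hk
    rw [norm_mul]
    calc ‖t p k‖ * ‖R.char (Fr' p ^ k)‖ ≤ (b * Real.sqrt (((p : ℕ) : ℝ) ^ k) ^ i) * B :=
          mul_le_mul (h p hp.1 k hk) (hB _) (norm_nonneg _) (by positivity)
      _ = _ := by ring
  obtain ⟨n, hn, hmv⟩ := order_c (mul_nonneg hb hB0) hw y hE hmer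
  refine ⟨n, hn, ?_⟩
  obtain ⟨T, hT⟩ := R.unr_almost
  obtain ⟨L, _, _, hL⟩ := exists_level_one R
  obtain ⟨T', hT'⟩ := classFn_isFrob (ArtinRep.lvl_char (R := R) hL) R.isCl_char
  refine hmv.congr (T ∪ T') fun p hp => ?_
  rw [Finset.mem_union, not_or] at hp
  congr 1
  unfold nt
  by_cases hG : G p
  · rw [if_pos ⟨hG, hT p hp.1⟩, if_pos hG]
    beta_reduce
    have h1 : (starRingEnd ℂ) (R.char (Fr p)) = R.char (Fr' p) := by
      rw [← hT' p hp.2 _ _ (hFr' p) (hFr p), R.char_inv, Complex.conj_conj]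
    rw [pow_one, h1]
    ring
  · rw [if_neg fun hcon => hG hcon.1, if_neg hG, zero_mul]

/-- the same for the base change to a number field -/
theorem order_artinBase (hb : 0 ≤ b) (h : WeilBound G t i b) {K : Type} [Field K] [NumberField K]
    {F : ℂ → ℂ} (hF : IsContinuationNF G t i K F) :
    ∃ n : ℤ, meromorphicOrderAt F ((i : ℂ) / 2 + 1) = n ∧
      MVC (fun p : Nat.Primes => (idc K (p : ℕ) : ℂ) * nt G t i p) (-(n : ℂ)) := by
  have hB : (0 : ℝ) ≤ Module.finrank ℚ K * b := mul_nonneg (Nat.cast_nonneg _) hb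
  have hs : (i : ℂ) / 2 + 1 + Complex.I * ((0 : ℝ) : ℂ) = (i : ℂ) / 2 + 1 := by
    rw [Complex.ofReal_zero, mul_zero, add_zero]
  obtain ⟨n, hn, hmv⟩ := order_c (y := 0) hB (weil_nf h K) (F := F) (by rw [hs]; exact hF.1)
    (by rw [hs]; exact hF.2)
  rw [hs] at hn
  refine ⟨n, hn, hmv.congr ∅ fun p _ => ?_⟩
  have hp : Fact (p : ℕ).Prime := ⟨p.2⟩
  have h1 : Nat.card (Fq p 1) = (p : ℕ) := by
    rw [card_Fq p one_ne_zero, pow_one]
  rw [pw_zero, mul_one]
  unfold nt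
  split_ifs
  · beta_reduce
    rw [card_homs_eq h1 K, mul_div_assoc]
  · rw [mul_zero]

end

end

end Pool.Agent.Work.MP_2b9663_nt
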