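import Pool.Agent.Work.MP_2b9663_nt.Ch.MVC

set_option autoImplicit false

/-!
The Bessel inequality and the master inequality for complex mean values.
-/

namespace Pool.Agent.Work.MP_2b9663_nt

open Filter Topology ComplexConjugate

/-- **The master inequality**, abstract form. -/
theorem MVC.master {a Φ : Nat.Primes → ℂ} {b : ℝ} {T : Finset Nat.Primes}
    (ha : ∀ p, p ∉ T → ‖a p‖ ≤ b) {x : ℂ} (h : MVC (fun p => a p * Φ p) x) {μ : ℝ}
    (hΦ : MVo (fun p => ‖Φ p‖) μ) : ‖x‖ ≤ b * μ := by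
  refine h.norm_le (hΦ.const_mul b) T fun p hp => ?_
  rw [norm_mul]
  exact mul_le_mul_of_nonneg_right (ha p hp) (norm_nonneg _)

/-- **The Bessel inequality** for families of bounded functions `a S` and orthonormal systems
`u D S`. -/
theorem MVC.bessel_family {ι κ : Type*} [DecidableEq ι] (𝒟 : Finset ι) (𝒮 : Finset κ)
    (u : ι → κ → Nat.Primes → ℂ)
    (horth : ∀ D ∈ 𝒟, ∀ D' ∈ 𝒟, ∀ S ∈ 𝒮,
      MVC (fun p => u D S p * conj (u D' S p)) (if D = D' then 1 else 0))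
    (a : κ → Nat.Primes → ℂ) (γ : κ → ℝ) (T : Finset Nat.Primes)
    (ha : ∀ S ∈ 𝒮, ∀ p, p ∉ T → ‖a S p‖ ≤ γ S) (x : ι → ℂ)
    (h : ∀ D ∈ 𝒟, MVC (fun p => ∑ S ∈ 𝒮, a S p * u D S p) (x D)) :
    ∑ D ∈ 𝒟, ‖x D‖ ^ 2 ≤ (∑ S ∈ 𝒮, γ S) ^ 2 := by
  classical
  set N := ∑ D ∈ 𝒟, ‖x D‖ ^ 2 with hN
  have hN0 : 0 ≤ N := Finset.sum_nonneg fun D _ => sq_nonneg _
  set ν := Real.sqrt N with hν
  have hν0 : 0 ≤ ν := Real.sqrt_nonneg _
  have hνN : ν ^ 2 = N := Real.sq_sqrt hN0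
  set W : κ → Nat.Primes → ℂ := fun S p => ∑ D ∈ 𝒟, conj (x D) * u D S p with hW
  have hNC : (N : ℂ) = ∑ D ∈ 𝒟, conj (x D) * x D := by
    rw [hN]
    push_cast
    refine Finset.sum_congr rfl fun D _ => ?_
    rw [mul_comm, Complex.mul_conj, Complex.normSq_eq_norm_sq]
    push_cast
    rfl
  -- the linear term
  have h1 : MVC (fun p => ∑ S ∈ 𝒮, a S p * W S p) N := by
    have h2 := MVC.sum 𝒟 fun D hD => (h D hD).const_mul (conj (x D))
    rw [← hNC] at h2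
    refine h2.congr ∅ fun p _ => ?_
    simp only [hW, Finset.mul_sum]
    rw [Finset.sum_comm]
    refine Finset.sum_congr rfl fun S _ => Finset.sum_congr rfl fun D _ => ?_
    ring
  -- the quadratic term
  have h2 : ∀ S ∈ 𝒮, MVo (fun p => ‖W S p‖ ^ 2) N := by
    intro S hS
    have h3 := MVC.sum 𝒟 fun D hD => MVC.sum 𝒟 fun D' hD' =>
      (horth D hD D' hD' S hS).const_mul (conj (x D) * x D')
    have h4 : ∑ D ∈ 𝒟, ∑ D' ∈ 𝒟, conj (x D) * x D' * (if D = D' then 1 else 0) = (N : ℂ) := by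
      rw [hNC]
      refine Finset.sum_congr rfl fun D hD => ?_
      simp only [mul_ite, mul_one, mul_zero]
      rw [Finset.sum_ite_eq, if_pos hD]
    rw [h4] at h3
    have h5 := (h3.congr (d := fun p => ((‖W S p‖ ^ 2 : ℝ) : ℂ)) ∅ fun p _ => by
      have h6 : ((‖W S p‖ ^ 2 : ℝ) : ℂ) = W S p * conj (W S p) := by
        rw [Complex.mul_conj, Complex.normSq_eq_norm_sq]
      rw [h6]
      simp only [hW]
      rw [map_sum, Finset.sum_mul_sum]
      refine Finset.sum_congr rfl fun D _ => Finset.sum_congr rfl fun D' _ => ?_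
      rw [map_mul, Complex.conj_conj]
      ring).re
    simp only [Complex.ofReal_re] at h5
    exact h5
  have h1' : MVo (fun p => (∑ S ∈ 𝒮, a S p * W S p).re) N := by
    have := h1.re
    simpa using this
  have hsum : ∀ (f : κ → Nat.Primes → ℝ) (y : κ → ℝ), (∀ S ∈ 𝒮, MVo (f S) (y S)) →
      MVo (fun p => ∑ S ∈ 𝒮, f S p) (∑ S ∈ 𝒮, y S) := by
    intro f y hf
    have := (MVC.sum 𝒮 fun S hS => (hf S hS).toMVC).re
    simpa using this
  have hone : ∀ r : ℝ, MVo (fun _ => r) r := fun r => by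
    have := (MVC.const (r : ℂ)).re
    simpa using this
  have h3 : MVo (fun p => 2 * ν * (-1 * (∑ S ∈ 𝒮, a S p * W S p).re) +
      ∑ S ∈ 𝒮, γ S * (ν ^ 2 + ‖W S p‖ ^ 2))
      (2 * ν * (-1 * N) + ∑ S ∈ 𝒮, γ S * (ν ^ 2 + N)) :=
    ((h1'.const_mul (-1)).const_mul (2 * ν)).add (hsum _ _ fun S hS =>
      (((hone (ν ^ 2)).add (h2 S hS))).const_mul (γ S))
  have h4 := h3.nonneg T (by
    intro p hp
    rw [Complex.re_sum, Finset.mul_sum, Finset.mul_sum, ← Finset.sum_add_distrib]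
    refine Finset.sum_nonneg fun S hS => ?_
    have h5 := ha S hS p hp
    have h6 : 0 ≤ γ S := (norm_nonneg _).trans h5
    have h7 : (a S p * W S p).re ≤ γ S * ‖W S p‖ := by
      refine (Complex.re_le_norm _).trans ?_
      rw [norm_mul]
      exact mul_le_mul_of_nonneg_right h5 (norm_nonneg _)
    have h8 : 2 * ν * ‖W S p‖ ≤ ν ^ 2 + ‖W S p‖ ^ 2 := by
      have h9 := sq_nonneg (ν - ‖W S p‖)
      nlinarith
    have h9 := mul_le_mul_of_nonneg_left h8 h6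
    have h10 := mul_le_mul_of_nonneg_left h7 (mul_nonneg zero_le_two hν0)
    nlinarith)
  rw [← Finset.sum_mul, hνN, ← hνN] at h4
  rcases eq_or_lt_of_le hν0 with h5 | h5
  · rw [← hνN, ← h5, zero_pow two_ne_zero]
    exact sq_nonneg _
  · have h6 : ν ≤ ∑ S ∈ 𝒮, γ S := by
      have h7 : 0 ≤ 2 * ν ^ 2 * ((∑ S ∈ 𝒮, γ S) - ν) := by
        have : 2 * ν ^ 2 * ((∑ S ∈ 𝒮, γ S) - ν) =
          2 * ν * (-1 * ν ^ 2) + (∑ S ∈ 𝒮, γ S) * (ν ^ 2 + ν ^ 2) := by ring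
        rw [this]
        exact h4
      have h8 : 0 < 2 * ν ^ 2 := by positivity
      have h9 := nonneg_of_mul_nonneg_right h7 h8
      linarith
    rw [← hνN]
    exact pow_le_pow_left₀ hν0 h6 2

/-- **The Bessel inequality** for complex mean values. -/
theorem MVC.bessel {ι : Type*} [DecidableEq ι] (𝒟 : Finset ι) (u : ι → Nat.Primes → ℂ)
    (horth : ∀ D ∈ 𝒟, ∀ D' ∈ 𝒟,
      MVC (fun p => u D p * conj (u D' p)) (if D = D' then 1 else 0))
    (a : Nat.Primes → ℂ) (b : ℝ) (T : Finset Nat.Primes) (ha : ∀ p, p ∉ T → ‖a p‖ ≤ b)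
    (x : ι → ℂ) (h : ∀ D ∈ 𝒟, MVC (fun p => a p * u D p) (x D)) :
    ∑ D ∈ 𝒟, ‖x D‖ ^ 2 ≤ b ^ 2 := by
  have h1 := MVC.bessel_family 𝒟 (Finset.univ : Finset Unit) (fun D _ => u D)
    (fun D hD D' hD' _ _ => horth D hD D' hD') (fun _ => a) (fun _ => b) T
    (fun _ _ => ha) x (fun D hD => by simpa using h D hD)
  simpa using h1

/-- At most `b ^ 2` integers in a family which satisfies the Bessel inequality are nonzero. -/
lemma card_le_of_bessel {ι : Type*} (m : ι → ℤ) (B : ℕ)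
    (h : ∀ s : Finset ι, ∑ j ∈ s, ((m j : ℝ)) ^ 2 ≤ B) :
    {j | m j ≠ 0}.Finite ∧ {j | m j ≠ 0}.ncard ≤ B := by
  classical
  have key : ∀ s : Finset ι, (∀ j ∈ s, m j ≠ 0) → s.card ≤ B := by
    intro s hs
    have h1 : (s.card : ℝ) ≤ ∑ j ∈ s, ((m j : ℝ)) ^ 2 := by
      rw [Finset.card_eq_sum_ones, Nat.cast_sum]
      refine Finset.sum_le_sum fun j hj => ?_
      have h2 : (1 : ℤ) ≤ m j ^ 2 := by
        have := sq_pos_of_ne_zero (hs j hj)
        linarith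
      rw [Nat.cast_one]
      exact_mod_cast h2
    exact_mod_cast h1.trans (h s)
  have hfin : {j | m j ≠ 0}.Finite := by
    by_contra hinf
    obtain ⟨t, ht, hc⟩ := Set.Infinite.exists_subset_card_eq hinf (B + 1)
    have := key t fun j hj => ht hj
    omega
  refine ⟨hfin, ?_⟩
  rw [Set.ncard_eq_toFinset_card _ hfin]
  exact key _ fun j hj => by simpa using hj

end Pool.Agent.Work.MP_2b9663_nt
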