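import Pool.Agent.Work.MP_2b9663_nt.Ch.BesC

set_option autoImplicit false

/-!
The Bessel inequality for complex mean values of functions with a given support.
-/

namespace Pool.Agent.Work.MP_2b9663_nt

open Filter Topology ComplexConjugate

/-- **The Bessel inequality** for families of bounded functions `a S` and orthonormal systems
`u D S`, supported on a set of primes of density `δ`. -/
theorem MVC.bessel_dens {ι κ : Type*} [DecidableEq ι] (𝒟 : Finset ι) (𝒮 : Finset κ)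
    (u : ι → κ → Nat.Primes → ℂ)
    (horth : ∀ D ∈ 𝒟, ∀ D' ∈ 𝒟, ∀ S ∈ 𝒮,
      MVC (fun p => u D S p * conj (u D' S p)) (if D = D' then 1 else 0))
    (a : κ → Nat.Primes → ℂ) (γ : κ → ℝ) (T : Finset Nat.Primes)
    (ha : ∀ S ∈ 𝒮, ∀ p, p ∉ T → ‖a S p‖ ≤ γ S) (x : ι → ℂ)
    (h : ∀ D ∈ 𝒟, MVC (fun p => ∑ S ∈ 𝒮, a S p * u D S p) (x D))
    {w : Nat.Primes → ℝ} {δ : ℝ} (hw : MVo w δ) (hw0 : ∀ p, 0 ≤ w p)
    (hsupp : ∀ D ∈ 𝒟, ∀ S ∈ 𝒮, ∀ p, p ∉ T → u D S p = 0 ∨ w p = 1) :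
    ∑ D ∈ 𝒟, ‖x D‖ ^ 2 ≤ δ * (∑ S ∈ 𝒮, γ S) ^ 2 := by
  classical
  set N := ∑ D ∈ 𝒟, ‖x D‖ ^ 2 with hN
  have hN0 : 0 ≤ N := Finset.sum_nonneg fun D _ => sq_nonneg _
  have hδ0 : 0 ≤ δ := hw.nonneg ∅ fun p _ => hw0 p
  set W : κ → Nat.Primes → ℂ := fun S p => ∑ D ∈ 𝒟, conj (x D) * u D S p with hW
  have hWs : ∀ S ∈ 𝒮, ∀ p, p ∉ T → W S p = 0 ∨ w p = 1 := by
    intro S hS p hp
    by_cases h1 : w p = 1
    · exact Or.inr h1
    · refine Or.inl (Finset.sum_eq_zero fun D hD => ?_)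
      rcases hsupp D hD S hS p hp with h2 | h2
      · rw [h2, mul_zero]
      · exact absurd h2 h1
  have hNC : (N : ℂ) = ∑ D ∈ 𝒟, conj (x D) * x D := by
    rw [hN]
    push_cast
    refine Finset.sum_congr rfl fun D _ => ?_
    rw [mul_comm, Complex.mul_conj, Complex.normSq_eq_norm_sq]
    push_cast
    rfl
  -- the linear term
  have h1 : MVC (fun p => ∑ S ∈ 𝒮, a S p * W S p) N := by
    have h2 := MVC.sum 𝒟 fun D hD => (h D hD).const_mul (conj (x D))
    rw [← hNC] at h2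
    refine h2.congr ∅ fun p _ => ?_
    simp only [hW, Finset.mul_sum]
    rw [Finset.sum_comm]
    refine Finset.sum_congr rfl fun S _ => Finset.sum_congr rfl fun D _ => ?_
    ring
  -- the quadratic term
  have h2 : ∀ S ∈ 𝒮, MVo (fun p => ‖W S p‖ ^ 2) N := by
    intro S hS
    have h3 := MVC.sum 𝒟 fun D hD => MVC.sum 𝒟 fun D' hD' =>
      (horth D hD D' hD' S hS).const_mul (conj (x D) * x D')
    have h4 : ∑ D ∈ 𝒟, ∑ D' ∈ 𝒟, conj (x D) * x D' * (if D = D' then 1 else 0) = (N : ℂ) := by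
      rw [hNC]
      refine Finset.sum_congr rfl fun D hD => ?_
      simp only [mul_ite, mul_one, mul_zero]
      rw [Finset.sum_ite_eq, if_pos hD]
    rw [h4] at h3
    have h5 := (h3.congr (d := fun p => ((‖W S p‖ ^ 2 : ℝ) : ℂ)) ∅ fun p _ => by
      have h6 : ((‖W S p‖ ^ 2 : ℝ) : ℂ) = W S p * conj (W S p) := by
        rw [Complex.mul_conj, Complex.normSq_eq_norm_sq]
      rw [h6]
      simp only [hW]
      rw [map_sum, Finset.sum_mul_sum]
      refine Finset.sum_congr rfl fun D _ => Finset.sum_congr rfl fun D' _ => ?_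
      rw [map_mul, Complex.conj_conj]
      ring).re
    simp only [Complex.ofReal_re] at h5
    exact h5
  have h1' : MVo (fun p => (∑ S ∈ 𝒮, a S p * W S p).re) N := by
    have := h1.re
    simpa using this
  have hsum : ∀ (f : κ → Nat.Primes → ℝ) (y : κ → ℝ), (∀ S ∈ 𝒮, MVo (f S) (y S)) →
      MVo (fun p => ∑ S ∈ 𝒮, f S p) (∑ S ∈ 𝒮, y S) := by
    intro f y hf
    have := (MVC.sum 𝒮 fun S hS => (hf S hS).toMVC).re
    simpa using this
  set Γ := ∑ S ∈ 𝒮, γ S with hΓ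
  have key : ∀ ν : ℝ, 0 ≤ ν → 2 * ν * N ≤ Γ * (ν ^ 2 * δ + N) := by
    intro ν hν0
    have h3 : MVo (fun p => 2 * ν * (-1 * (∑ S ∈ 𝒮, a S p * W S p).re) +
        ∑ S ∈ 𝒮, γ S * (ν ^ 2 * w p + ‖W S p‖ ^ 2))
        (2 * ν * (-1 * N) + ∑ S ∈ 𝒮, γ S * (ν ^ 2 * δ + N)) :=
      ((h1'.const_mul (-1)).const_mul (2 * ν)).add (hsum _ _ fun S hS =>
        (((hw.const_mul (ν ^ 2)).add (h2 S hS))).const_mul (γ S))
    have h4 := h3.nonneg T (by
      intro p hp
      rw [Complex.re_sum, Finset.mul_sum, Finset.mul_sum, ← Finset.sum_add_distrib]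
      refine Finset.sum_nonneg fun S hS => ?_
      have h5 := ha S hS p hp
      have h6 : 0 ≤ γ S := (norm_nonneg _).trans h5
      have h7 : (a S p * W S p).re ≤ γ S * ‖W S p‖ := by
        refine (Complex.re_le_norm _).trans ?_
        rw [norm_mul]
        exact mul_le_mul_of_nonneg_right h5 (norm_nonneg _)
      have h8 : 2 * ν * ‖W S p‖ ≤ ν ^ 2 * w p + ‖W S p‖ ^ 2 := by
        rcases hWs S hS p hp with h9 | h9
        · rw [h9, norm_zero, mul_zero]
          have := hw0 p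
          positivity
        · rw [h9]
          have h10 := sq_nonneg (ν - ‖W S p‖)
          nlinarith
      have h9 := mul_le_mul_of_nonneg_left h8 h6
      have h10 := mul_le_mul_of_nonneg_left h7 (mul_nonneg zero_le_two hν0)
      nlinarith)
    rw [← Finset.sum_mul, ← hΓ] at h4
    linarith
  have hΓnn : 0 ≤ Γ ∨ N = 0 := by
    rcases eq_or_lt_of_le hN0 with h0 | h0
    · exact Or.inr h0.symm
    · left
      have := key 0 le_rfl
      have h5 : 0 ≤ Γ * N := by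
        have h6 : Γ * (0 ^ 2 * δ + N) = Γ * N := by ring
        rw [h6] at this
        linarith
      exact nonneg_of_mul_nonneg_left h5 h0
  rcases hΓnn with hΓ1 | hN1
  · rcases eq_or_lt_of_le (mul_nonneg hΓ1 hδ0) with h0 | h0
    · have h5 := key (Γ + 1) (by linarith)
      have h6 : Γ * ((Γ + 1) ^ 2 * δ + N) = (Γ + 1) ^ 2 * (Γ * δ) + Γ * N := by ring
      rw [h6, ← h0] at h5
      have h7 : 0 ≤ δ * Γ ^ 2 := by positivity
      nlinarith
    · have h5 := key (N / (Γ * δ)) (div_nonneg hN0 h0.le)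
      have hΓ2 : Γ ≠ 0 := fun h => by rw [h, zero_mul] at h0; exact lt_irrefl 0 h0
      have hδ2 : δ ≠ 0 := fun h => by rw [h, mul_zero] at h0; exact lt_irrefl 0 h0
      have h6 : Γ * ((N / (Γ * δ)) ^ 2 * δ + N) = N ^ 2 / (Γ * δ) + Γ * N := by
        field_simp
      have h7 : 2 * (N / (Γ * δ)) * N = 2 * (N ^ 2 / (Γ * δ)) := by ring
      rw [h6, h7] at h5
      have h8 : N ^ 2 / (Γ * δ) ≤ Γ * N := by linarith
      rw [div_le_iff₀ h0] at h8
      rcases eq_or_lt_of_le hN0 with h9 | h9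
      · rw [← h9]
        positivity
      · have h10 : N * N ≤ (δ * Γ ^ 2) * N := by nlinarith
        exact le_of_mul_le_mul_right h10 h9
  · rw [hN1]
    positivity

end Pool.Agent.Work.MP_2b9663_nt
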