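import Mathlib
import Pool.Agent.Work.MP_2b9663_nt.Zeta1

set_option autoImplicit false

/-!
Definitions for the theorem of Chebotarev: the weight on the algebraic integers whose sum over
associates is one, and the `L`-series of `χ ∘ N`.
-/

namespace Pool.Agent.Work.MP_2b9663_nt

open NumberField NumberField.mixedEmbedding NumberField.Units
  NumberField.Units.dirichletUnitTheorem Ideal
open scoped nonZeroDivisors

/-- the tent function; its integral translates sum to one -/
noncomputable def tent (c : ℝ) : ℝ := max 0 (1 - |c|)

variable (K : Type) [Field K] [NumberField K]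

open scoped Classical in
/-- the coordinates of the logarithmic embedding in a basis of the lattice of units -/
noncomputable def lc (x : mixedSpace K) (i : Fin (rank K)) : ℝ :=
  ((basisUnitLattice K).ofZLatticeBasis ℝ (unitLattice K)).repr (logMap x) i

open scoped Classical in
/-- the weight: its sum over the associates of an element is one -/
noncomputable def wt (x : 𝓞 K) : ℝ :=
  if x = 0 then 0 else
    (torsionOrder K : ℝ)⁻¹ * ∏ i, tent (lc K (mixedEmbedding K (x : K)) i)

/-- the absolute value of the norm -/
noncomputable def nrm (x : 𝓞 K) : ℕ := (Algebra.norm ℤ x).natAbs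

open scoped Classical in
/-- the size of an algebraic integer -/
noncomputable def sz (x : 𝓞 K) : ℝ := ‖mixedEmbedding K (x : K)‖

/-- the sign of the norm if `σ`, and one otherwise -/
noncomputable def sg (σ : Bool) (x : 𝓞 K) : ℤ := if σ then (Algebra.norm ℤ x).sign else 1

/-- the function to be summed over the lattice of algebraic integers -/
noncomputable def FF (σ : Bool) (s : ℂ) (x : 𝓞 K) : ℂ :=
  (sg K σ x : ℂ) * (wt K x : ℂ) * (nrm K x : ℂ) ^ (-s)

/-- the half plane `Re s > 1 - 1 / n` -/
def HP : Set ℂ := {s | 1 - 1 / (Module.finrank ℚ K : ℝ) < s.re}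

section

variable {m : ℕ} (χ : DirichletCharacter ℂ m)

open scoped Classical in
/-- the sum over the elements of the ideal `J` -/
noncomputable def SJ (J : Ideal (𝓞 K)) (s : ℂ) : ℂ :=
  ∑' x : 𝓞 K, if x ∈ J then (wt K x : ℂ) * χ (nrm K x : ZMod m) * (nrm K x : ℂ) ^ (-s) else 0

/-- the `L`-series of `χ ∘ N` -/
noncomputable def LL (s : ℂ) : ℂ := LSeries (fun n => χ (n : ZMod m) * (idc K n : ℂ)) s

end

end Pool.Agent.Work.MP_2b9663_nt
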