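import Mathlib

set_option autoImplicit false

/-!
Counting the units modulo a prime whose order is not a multiple of `n`; cyclotomic characters of
Galois groups: surjectivity, fibres, injectivity on cyclic subgroups.
-/

namespace Pool.Agent.Work.MP_2b9663_nt

open Finset

section

/-- the arithmetic of the order of an element whose order is not a multiple of `n` -/
lemma exists_prime_pow_mul_dvd {n k N o : ℕ} (hk : 1 ≤ k) (hN : N ≠ 0) (hn : n ^ k ∣ N)
    (ho : o ∣ N) (hno : ¬ n ∣ o) : ∃ q ∈ n.primeFactors, q ^ k * o ∣ N := by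
  have hn0 : n ≠ 0 := by
    rintro rfl
    rw [zero_pow (by omega), zero_dvd_iff] at hn
    exact hN hn
  have ho0 : o ≠ 0 := by
    rintro rfl
    exact hN (zero_dvd_iff.mp ho)
  have h1 : ¬ ∀ p : ℕ, p.Prime → n.factorization p ≤ o.factorization p := fun h =>
    hno ((Nat.factorization_prime_le_iff_dvd hn0 ho0).mp h)
  push Not at h1
  obtain ⟨q, hq, hlt⟩ := h1
  have hqn : q ∣ n := by
    by_contra hcon
    rw [Nat.factorization_eq_zero_of_not_dvd hcon] at hlt
    omega
  refine ⟨q, Nat.mem_primeFactors.mpr ⟨hq, hqn, hn0⟩, ?_⟩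
  have hqk : q ^ k ≠ 0 := pow_ne_zero _ hq.ne_zero
  rw [← Nat.factorization_prime_le_iff_dvd (mul_ne_zero hqk ho0) hN]
  intro p hp
  rw [Nat.factorization_mul hqk ho0, Nat.factorization_pow, Finsupp.add_apply, Finsupp.smul_apply,
    hq.factorization, Finsupp.single_apply, smul_eq_mul]
  have h2 := (Nat.factorization_prime_le_iff_dvd (pow_ne_zero k hn0) hN).mpr hn p hp
  rw [Nat.factorization_pow, Finsupp.smul_apply, smul_eq_mul] at h2
  have h3 := (Nat.factorization_prime_le_iff_dvd ho0 hN).mpr ho p hp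
  by_cases hqp : q = p
  · subst hqp
    rw [if_pos rfl, mul_one]
    refine le_trans ?_ h2
    obtain ⟨e, he⟩ := Nat.exists_eq_add_of_lt hlt
    rw [he]
    obtain ⟨j, rfl⟩ := Nat.exists_eq_add_of_le hk
    nlinarith [Nat.zero_le (j * (o.factorization q + e))]
  · rw [if_neg hqp, mul_zero, zero_add]
    exact h3

/-- Few elements of a finite cyclic group have an order that is not a multiple of `n`. -/
lemma count_order {A : Type*} [Group A] [Fintype A] [DecidableEq A] [IsCyclic A] {n k : ℕ}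
    (hk : 1 ≤ k) (hn : n ^ k ∣ Fintype.card A) :
    (#{a : A | ¬ n ∣ orderOf a} : ℝ) * 2 ^ k ≤ n * Fintype.card A := by
  have hN : Fintype.card A ≠ 0 := Fintype.card_ne_zero
  have hn0 : n ≠ 0 := by
    rintro rfl
    rw [zero_pow (by omega), zero_dvd_iff] at hn
    exact hN hn
  -- the divisor `N / q ^ k`
  have h1 : ({a : A | ¬ n ∣ orderOf a} : Finset A) ⊆
      n.primeFactors.biUnion fun q => {a : A | a ^ (Fintype.card A / q ^ k) = 1} := by
    intro a ha
    rw [Finset.mem_filter_univ] at ha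
    obtain ⟨q, hq, hd⟩ := exists_prime_pow_mul_dvd hk hN hn (orderOf_dvd_card (x := a)) ha
    rw [Finset.mem_biUnion]
    refine ⟨q, hq, ?_⟩
    rw [Finset.mem_filter_univ]
    apply orderOf_dvd_iff_pow_eq_one.mp
    have hqp := (Nat.prime_of_mem_primeFactors hq).pos
    exact Nat.dvd_div_of_mul_dvd hd
  have h2 : (#{a : A | ¬ n ∣ orderOf a} : ℝ) ≤ ∑ q ∈ n.primeFactors, ((Fintype.card A / q ^ k : ℕ) : ℝ) := by
    have h3 := (Finset.card_le_card h1).trans Finset.card_biUnion_le
    have h4 : ∑ q ∈ n.primeFactors, #{a : A | a ^ (Fintype.card A / q ^ k) = 1} ≤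
        ∑ q ∈ n.primeFactors, (Fintype.card A / q ^ k : ℕ) := by
      refine Finset.sum_le_sum fun q hq => IsCyclic.card_pow_eq_one_le ?_
      have hqn : q ^ k ∣ Fintype.card A :=
        (pow_dvd_pow_of_dvd (Nat.dvd_of_mem_primeFactors hq) k).trans hn
      exact Nat.div_pos (Nat.le_of_dvd (Nat.pos_of_ne_zero hN) hqn)
        (pow_pos (Nat.prime_of_mem_primeFactors hq).pos k)
    exact_mod_cast h3.trans h4
  have h3 : ∀ q ∈ n.primeFactors, ((Fintype.card A / q ^ k : ℕ) : ℝ) ≤ Fintype.card A / 2 ^ k := by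
    intro q hq
    refine (Nat.cast_div_le).trans ?_
    push_cast
    have hq2 : (2 : ℝ) ≤ q := by exact_mod_cast (Nat.prime_of_mem_primeFactors hq).two_le
    exact div_le_div_of_nonneg_left (Nat.cast_nonneg _) (by positivity)
      (pow_le_pow_left₀ (by norm_num) hq2 k)
  have h4 : ∑ q ∈ n.primeFactors, ((Fintype.card A / q ^ k : ℕ) : ℝ) ≤
      n * (Fintype.card A / 2 ^ k) := by
    refine (Finset.sum_le_sum h3).trans ?_
    rw [Finset.sum_const, nsmul_eq_mul]
    refine mul_le_mul_of_nonneg_right ?_ (by positivity)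
    have h5 : n.primeFactors ⊆ Finset.Icc 1 n := fun q hq => by
      rw [Finset.mem_Icc]
      exact ⟨(Nat.prime_of_mem_primeFactors hq).one_le,
        Nat.le_of_dvd (Nat.pos_of_ne_zero hn0) (Nat.dvd_of_mem_primeFactors hq)⟩
    have h6 := Finset.card_le_card h5
    rw [Nat.card_Icc, Nat.add_sub_cancel] at h6
    exact_mod_cast h6
  have h5 := h2.trans h4
  calc (#{a : A | ¬ n ∣ orderOf a} : ℝ) * 2 ^ k ≤ n * (Fintype.card A / 2 ^ k) * 2 ^ k :=
        mul_le_mul_of_nonneg_right h5 (by positivity)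
    _ = n * Fintype.card A := by
        field_simp

/-- **Few units have an order that is not a multiple of `n`, for a suitable prime `m`.** -/
theorem exists_prime_count {n : ℕ} (hn : n ≠ 0) {δ : ℝ} (hδ : 0 < δ) :
    ∃ m : ℕ, ∃ _ : Fact m.Prime, (#{a : (ZMod m)ˣ | ¬ n ∣ orderOf a} : ℝ) ≤
      δ * Fintype.card (ZMod m)ˣ := by
  obtain ⟨k, hk⟩ : ∃ k : ℕ, 1 ≤ k ∧ (n : ℝ) / 2 ^ k ≤ δ := by
    have h1 : Filter.Tendsto (fun k : ℕ => (n : ℝ) / 2 ^ k) Filter.atTop (nhds 0) := by
      have h2 := (tendsto_pow_atTop_nhds_zero_of_lt_one (r := (1 / 2 : ℝ)) (by norm_num)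
        (by norm_num)).const_mul (n : ℝ)
      rw [mul_zero] at h2
      refine h2.congr fun k => ?_
      rw [one_div, inv_pow, div_eq_mul_inv]
    have h2 := (h1.eventually (ge_mem_nhds hδ)).and (Filter.eventually_ge_atTop 1)
    obtain ⟨k, h3, h4⟩ := h2.exists
    exact ⟨k, h4, h3⟩
  obtain ⟨hk1, hk2⟩ := hk
  obtain ⟨m, hm, _, hmod⟩ := Nat.exists_prime_gt_modEq_one (k := n ^ k) 0 (pow_ne_zero k hn)
  have hfact : Fact m.Prime := ⟨hm⟩
  refine ⟨m, hfact, ?_⟩
  have h1 : n ^ k ∣ Fintype.card (ZMod m)ˣ := by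
    rw [ZMod.card_units_eq_totient, Nat.totient_prime hm]
    exact (Nat.modEq_iff_dvd' hm.one_le).mp hmod.symm
  have h2 := count_order hk1 h1
  have h3 : (0 : ℝ) < 2 ^ k := by positivity
  have h4 : (0 : ℝ) ≤ Fintype.card (ZMod m)ˣ := Nat.cast_nonneg _
  rw [div_le_iff₀ h3] at hk2
  have h5 := mul_le_mul_of_nonneg_right hk2 h4
  refine le_of_mul_le_mul_right (a := (2 : ℝ) ^ k) ?_ h3
  calc _ ≤ (n : ℝ) * Fintype.card (ZMod m)ˣ := h2
    _ ≤ δ * 2 ^ k * Fintype.card (ZMod m)ˣ := h5
    _ = δ * Fintype.card (ZMod m)ˣ * 2 ^ k := by ring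

/-- sums over the fibres of a surjective homomorphism -/
theorem sum_comp_surj {G A : Type*} [Group G] [Fintype G] [Group A] [Fintype A] (φ : G →* A)
    (hφ : Function.Surjective φ) {M : Type*} [Field M] [CharZero M] (F : A → M) :
    (∑ g, F (φ g)) / (Fintype.card G : M) = (∑ a, F a) / (Fintype.card A : M) := by
  classical
  have h1 : ∀ a : A, #{g : G | φ g = a} = #{g : G | φ g = 1} := fun a =>
    MonoidHom.card_fiber_eq_of_mem_range φ (hφ a) (hφ 1)
  set c := #{g : G | φ g = 1} with hc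
  have h2 : Fintype.card G = c * Fintype.card A := by
    rw [← Finset.card_univ, Finset.card_eq_sum_card_fiberwise (f := φ) (t := Finset.univ)
      (fun _ _ => Finset.mem_coe.mpr (Finset.mem_univ _))]
    rw [Finset.sum_congr rfl fun a _ => h1 a, Finset.sum_const, Finset.card_univ, smul_eq_mul,
      mul_comm]
  have h3 : ∑ g, F (φ g) = (c : M) * ∑ a, F a := by
    rw [← Finset.sum_fiberwise_of_maps_to (s := Finset.univ) (t := Finset.univ) (g := φ)
      (fun _ _ => Finset.mem_univ _), Finset.mul_sum]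
    refine Finset.sum_congr rfl fun a _ => ?_
    rw [← h1 a, Finset.card_eq_sum_ones, Nat.cast_sum, Finset.sum_mul]
    refine Finset.sum_congr rfl fun g hg => ?_
    rw [(Finset.mem_filter.mp hg).2, Nat.cast_one, one_mul]
  have hA : (Fintype.card A : M) ≠ 0 := by exact_mod_cast Fintype.card_ne_zero
  have hc0 : (c : M) ≠ 0 := by
    have h4 : c ≠ 0 := by
      intro h
      rw [h, zero_mul] at h2
      exact Fintype.card_ne_zero h2
    exact_mod_cast h4
  rw [h3, h2]
  push_cast
  field_simp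

end

section

variable {L : Type} [Field L] [NumberField L]

/-- the cyclotomic character of a Galois number field is surjective -/
theorem autToPow_surjective [IsGalois ℚ L] {m : ℕ} [NeZero m] {ζ : L} (hζ : IsPrimitiveRoot ζ m) :
    Function.Surjective (hζ.autToPow ℚ) := by
  intro a
  have hm : 0 < m := Nat.pos_of_ne_zero (NeZero.ne m)
  have hcop : (a : ZMod m).val.Coprime m := ZMod.val_coe_unit_coprime a
  have h1 : IsPrimitiveRoot (ζ ^ (a : ZMod m).val) m := hζ.pow_of_coprime _ hcop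
  have h2 : minpoly ℚ ζ = minpoly ℚ (ζ ^ (a : ZMod m).val) := by
    rw [← Polynomial.cyclotomic_eq_minpoly_rat hζ hm, ← Polynomial.cyclotomic_eq_minpoly_rat h1 hm]
  obtain ⟨σ, hσ⟩ := isConjRoot_iff_exists_algEquiv.mp (show IsConjRoot ℚ (ζ ^ (a : ZMod m).val) ζ from
    h2.symm)
  refine ⟨σ, Units.ext ?_⟩
  have h3 := hζ.autToPow_spec ℚ σ
  rw [hσ] at h3
  exact ZMod.val_injective m (hζ.pow_inj (ZMod.val_lt _) (ZMod.val_lt _) h3)

variable {M : Type} [Field M] [NumberField M]

/-- **Adjoining roots of unity** to a Galois number field -/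
theorem exists_cyclotomic_ext (M : Type) [Field M] [NumberField M] [IsGalois ℚ M] (m : ℕ)
    [NeZero m] : ∃ (L : Type) (_ : Field L) (_ : NumberField L) (_ : Algebra M L)
      (_ : IsScalarTower ℚ M L) (_ : IsGalois ℚ L) (ζ : L), IsPrimitiveRoot ζ m ∧
      ∀ σ : L ≃ₐ[ℚ] L, (∀ x : M, σ (algebraMap M L x) = algebraMap M L x) → σ ζ = ζ → σ = 1 := by
  obtain ⟨p, hp, hps⟩ := IsGalois.is_separable_splitting_field ℚ M
  have hm : (m : M) ≠ 0 := by exact_mod_cast NeZero.ne m
  have inst1 : NeZero (m : M) := ⟨hm⟩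
  have hc0 : Polynomial.cyclotomic m ℚ ≠ 0 := Polynomial.cyclotomic_ne_zero m ℚ
  have inst2 : (Polynomial.cyclotomic m M).IsSplittingField M (CyclotomicField m M) :=
    IsCyclotomicExtension.splitting_field_cyclotomic m M (CyclotomicField m M)
  have inst3 : ((Polynomial.cyclotomic m ℚ).map (algebraMap ℚ M)).IsSplittingField M
      (CyclotomicField m M) := by
    rw [Polynomial.map_cyclotomic]
    exact inst2
  have inst4 : (p * Polynomial.cyclotomic m ℚ).IsSplittingField ℚ (CyclotomicField m M) :=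
    Polynomial.IsSplittingField.mul (K := M) (CyclotomicField m M) p (Polynomial.cyclotomic m ℚ)
      hp.ne_zero hc0
  have inst5 : Normal ℚ (CyclotomicField m M) := Normal.of_isSplittingField (p * Polynomial.cyclotomic m ℚ)
  have inst6 : IsGalois ℚ (CyclotomicField m M) := ⟨⟩
  refine ⟨CyclotomicField m M, inferInstance, inferInstance, inferInstance, inferInstance, inst6,
    IsCyclotomicExtension.zeta m M (CyclotomicField m M),
    IsCyclotomicExtension.zeta_spec m M (CyclotomicField m M), fun σ h1 h2 => ?_⟩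
  have h3 := IsCyclotomicExtension.adjoin_primitive_root_eq_top (A := M) (n := m)
    (IsCyclotomicExtension.zeta_spec m M (CyclotomicField m M))
  have h4 : ∀ x ∈ Algebra.adjoin M ({IsCyclotomicExtension.zeta m M (CyclotomicField m M)} :
      Set (CyclotomicField m M)), σ x = x := by
    intro x hx
    induction hx using Algebra.adjoin_induction with
    | mem x hx =>
      rw [Set.mem_singleton_iff.mp hx]
      exact h2
    | algebraMap r => exact h1 r
    | add x y _ _ hx hy => rw [map_add, hx, hy]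
    | mul x y _ _ hx hy => rw [map_mul, hx, hy]
  refine AlgEquiv.ext fun x => ?_
  rw [AlgEquiv.one_apply]
  exact h4 x (h3 ▸ Algebra.mem_top)

/-- An automorphism whose image under the cyclotomic character has an order divisible by the degree
of `M` generates a group on which the cyclotomic character is injective. -/
theorem autToPow_injOn {L : Type} [Field L] [NumberField L] [Algebra M L] [IsScalarTower ℚ M L]
    [IsGalois ℚ M] {m : ℕ} [NeZero m] {ζ : L} (hζ : IsPrimitiveRoot ζ m)
    (hL : ∀ σ : L ≃ₐ[ℚ] L, (∀ x : M, σ (algebraMap M L x) = algebraMap M L x) → σ ζ = ζ → σ = 1)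
    {c : L ≃ₐ[ℚ] L} (hc : Fintype.card (M ≃ₐ[ℚ] M) ∣ orderOf (hζ.autToPow ℚ c)) :
    Set.InjOn (hζ.autToPow ℚ) (Subgroup.zpowers c : Set (L ≃ₐ[ℚ] L)) := by
  have key : ∀ j : ℤ, hζ.autToPow ℚ (c ^ j) = 1 → c ^ j = 1 := by
    intro j hj
    rw [map_zpow] at hj
    have h1 : ((orderOf (hζ.autToPow ℚ c) : ℕ) : ℤ) ∣ j := orderOf_dvd_iff_zpow_eq_one.mpr hj
    have h2 : ((Fintype.card (M ≃ₐ[ℚ] M) : ℕ) : ℤ) ∣ j := (Int.natCast_dvd_natCast.mpr hc).trans h1
    have h3 : (AlgEquiv.restrictNormalHom M c) ^ j = 1 := by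
      obtain ⟨i, rfl⟩ := h2
      rw [zpow_mul, zpow_natCast, pow_card_eq_one, one_zpow]
    apply hL
    · intro x
      rw [← map_zpow] at h3
      have h4 := AlgEquiv.restrictNormal_commutes (c ^ j) M x
      have h5 : (c ^ j).restrictNormal M = 1 := h3
      rw [h5] at h4
      exact h4.symm
    · have h4 := hζ.autToPow_spec ℚ (c ^ j)
      rw [map_zpow, hj] at h4
      rw [← h4]
      rcases eq_or_ne m 1 with h5 | h5
      · subst h5
        rw [IsPrimitiveRoot.one_right_iff] at hζ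
        rw [hζ, one_pow]
      · have : Fact (1 < m) := ⟨by have := NeZero.ne m; omega⟩
        rw [Units.val_one, ZMod.val_one, pow_one]
  intro a ha b hb hab
  obtain ⟨i, rfl⟩ := Subgroup.mem_zpowers_iff.mp ha
  obtain ⟨j, rfl⟩ := Subgroup.mem_zpowers_iff.mp hb
  have h1 := key (i - j) (by rw [zpow_sub, map_mul, hab, map_inv, mul_inv_cancel])
  rw [zpow_sub, mul_inv_eq_one] at h1
  exact h1

end

end Pool.Agent.Work.MP_2b9663_nt
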