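import Mathlib

set_option autoImplicit false

/-!
Frobenius elements of the automorphism group of an algebraic closure of `ℚ`, functions of finite
level and their mean values, Artin representations.
-/

namespace Pool.Agent.Work.MP_2b9663_nt

open Filter Topology NumberField

section

variable {Ω : Type} [Field Ω] [CharZero Ω]

/-- `g` is a Frobenius element at `p`: there is a prime ideal `𝔓` above `p` of the ring of all
algebraic integers of `Ω` such that `g x` is congruent to `x ^ p` modulo `𝔓` for all `x`. -/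
def IsFrob (p : ℕ) (g : Ω ≃ₐ[ℚ] Ω) : Prop :=
  ∃ 𝔓 : Ideal (𝓞 Ω), 𝔓.IsPrime ∧ ((p : ℕ) : 𝓞 Ω) ∈ 𝔓 ∧ ∀ x : 𝓞 Ω, g • x - x ^ p ∈ 𝔓

/-- `f` is of level `L`: it is constant on the left cosets of the group of the automorphisms
which fix the elements of `L`. -/
def Lvl (L : IntermediateField ℚ Ω) (f : (Ω ≃ₐ[ℚ] Ω) → ℂ) : Prop :=
  ∀ g, ∀ h ∈ L.fixingSubgroup, f (g * h) = f g

/-- class functions -/
def IsCl {G : Type*} [Group G] (f : G → ℂ) : Prop := ∀ x g, f (x * g * x⁻¹) = f g

/-- The mean value of a function `f` of level `L`: the average of its values on the left cosets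
of the group of the automorphisms which fix the elements of `L`. -/
noncomputable def meanAt (L : IntermediateField ℚ Ω) (f : (Ω ≃ₐ[ℚ] Ω) → ℂ) : ℂ :=
  (∑ᶠ q : (Ω ≃ₐ[ℚ] Ω) ⧸ L.fixingSubgroup, f q.out) /
    (Nat.card ((Ω ≃ₐ[ℚ] Ω) ⧸ L.fixingSubgroup) : ℂ)

variable (Ω) in
/-- An Artin representation of `ℚ` of dimension `n`: a homomorphism `ρ` from the group of the
automorphisms of `Ω`, an algebraic closure of `ℚ`, to `GL n ℂ`, which is trivial on the automorphisms
that fix all elements of some number field. -/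
structure ArtinRep where
  n : ℕ
  ρ : (Ω ≃ₐ[ℚ] Ω) →* Matrix.GeneralLinearGroup (Fin n) ℂ
  level : ∃ M : IntermediateField ℚ Ω, FiniteDimensional ℚ M ∧ ∀ g ∈ M.fixingSubgroup, ρ g = 1

/-- the character of an Artin representation -/
noncomputable def ArtinRep.char (R : ArtinRep Ω) (g : Ω ≃ₐ[ℚ] Ω) : ℂ :=
  Matrix.trace (R.ρ g : Matrix (Fin R.n) (Fin R.n) ℂ)

/-- irreducible Artin representations -/
def ArtinRep.Irr (R : ArtinRep Ω) : Prop :=
  R.n ≠ 0 ∧ ∀ W : Submodule ℂ (Fin R.n → ℂ),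
    (∀ g, ∀ w ∈ W, (R.ρ g : Matrix (Fin R.n) (Fin R.n) ℂ).mulVec w ∈ W) → W = ⊥ ∨ W = ⊤

end

end Pool.Agent.Work.MP_2b9663_nt
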