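import Pool.Agent.Work.MP_2b9663_nt.Density
import Pool.Agent.Work.MP_2b9663_nt.Ch.Defs

set_option autoImplicit false

/-!
Frobenius elements of a Galois number field: for all but finitely many primes they form one
conjugacy class; the cyclotomic character at a Frobenius element; Frobenius elements of Galois
subfields.
-/

namespace Pool.Agent.Work.MP_2b9663_nt

open NumberField
open scoped Pointwise

section

variable {L : Type} [Field L] [NumberField L] [IsGalois ℚ L]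

omit [IsGalois ℚ L] in
lemma FrobData.under_eq {p : ℕ} {φ : L ≃ₐ[ℚ] L} {P : Ideal (𝓞 L)} (h : FrobData p φ P) :
    P.under ℤ = Ideal.span {(p : ℤ)} := by
  ext z
  rw [Ideal.mem_span_singleton]
  constructor
  · intro hz
    have h1 : ((z.natAbs : ℕ) : 𝓞 L) ∈ P := by
      have h2 : algebraMap ℤ (𝓞 L) z ∈ P := hz
      rcases Int.natAbs_eq z with h3 | h3
      · rw [h3] at h2
        simpa using h2
      · rw [h3] at h2
        simpa using h2
    exact Int.natCast_dvd.mpr (h.mem_iff _ h1)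
  · rintro ⟨w, rfl⟩
    change algebraMap ℤ (𝓞 L) ((p : ℤ) * w) ∈ P
    rw [map_mul]
    refine Ideal.mul_mem_right _ _ ?_
    simpa using h.mem

omit [IsGalois ℚ L] in
/-- a conjugate of a Frobenius element is a Frobenius element at the image of the prime ideal -/
lemma FrobData.conj {p : ℕ} {φ : L ≃ₐ[ℚ] L} {P : Ideal (𝓞 L)} (h : FrobData p φ P)
    (σ : L ≃ₐ[ℚ] L) : FrobData p (σ * φ * σ⁻¹) (σ • P) := by
  have hmem : ∀ x : 𝓞 L, x ∈ σ • P ↔ σ⁻¹ • x ∈ P := fun x =>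
    Ideal.mem_pointwise_smul_iff_inv_smul_mem
  have hnat : ∀ n : ℕ, σ⁻¹ • ((n : ℕ) : 𝓞 L) = ((n : ℕ) : 𝓞 L) := fun n =>
    map_natCast (MulSemiringAction.toRingHom (L ≃ₐ[ℚ] L) (𝓞 L) σ⁻¹) n
  refine ⟨?_, ?_, fun n hn => ?_, fun x => ?_⟩
  · rw [Ideal.pointwise_smul_eq_comap]
    have := h.max
    exact Ideal.comap_isMaximal_of_equiv _
  · rw [hmem, hnat]
    exact h.mem
  · rw [hmem, hnat] at hn
    exact h.mem_iff n hn
  · rw [hmem]
    have h1 := h.frob (σ⁻¹ • x)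
    have h2 : σ⁻¹ • ((σ * φ * σ⁻¹) • x - x ^ p) = φ • (σ⁻¹ • x) - (σ⁻¹ • x) ^ p := by
      rw [smul_sub, smul_smul, smul_smul, smul_pow']
      congr 2
      group
    rw [h2]
    exact h1

/-- two prime ideals above `p` are conjugate -/
lemma FrobData.exists_smul {p : ℕ} {φ φ' : L ≃ₐ[ℚ] L} {P P' : Ideal (𝓞 L)} (h : FrobData p φ P)
    (h' : FrobData p φ' P') : ∃ σ : L ≃ₐ[ℚ] L, P' = σ • P := by
  have h1 : P.IsPrime := h.max.isPrime
  have h2 : P'.IsPrime := h'.max.isPrime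
  exact Algebra.IsInvariant.exists_smul_of_under_eq ℤ (𝓞 L) (L ≃ₐ[ℚ] L) P P'
    (h.under_eq.trans h'.under_eq.symm)

variable (L) in
omit [IsGalois ℚ L] in
/-- for all but finitely many primes the Frobenius element at `P` is unique -/
lemma frobData_unique : ∃ D : ℕ, D ≠ 0 ∧ ∀ (p : ℕ) (φ φ' : L ≃ₐ[ℚ] L) (P : Ideal (𝓞 L)),
    FrobData p φ P → FrobData p φ' P → ¬ p ∣ D → φ = φ' := by
  obtain ⟨D, hD0, hD⟩ := exists_sep (⊤ : IntermediateField ℚ L)
  refine ⟨D, hD0, fun p φ φ' P h h' hp => ?_⟩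
  have h1 : redHom ⊤ P φ = redHom ⊤ P φ' := by
    refine RingHom.ext fun y => ?_
    rw [redHom_apply, redHom_apply, Ideal.Quotient.eq]
    have h2 := h.frob (algebraMap (𝓞 (⊤ : IntermediateField ℚ L)) (𝓞 L) y)
    have h3 := h'.frob (algebraMap (𝓞 (⊤ : IntermediateField ℚ L)) (𝓞 L) y)
    have h4 := P.sub_mem h2 h3
    rwa [sub_sub_sub_cancel_right] at h4
  have h2 := hD p φ P h hp φ φ' h1
  rw [IntermediateField.fixingSubgroup_top, Subgroup.mem_bot] at h2
  exact inv_mul_eq_one.mp h2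

variable (L) in
/-- **for all but finitely many primes the Frobenius elements form one conjugacy class** -/
theorem frobData_isConj : ∃ D : ℕ, D ≠ 0 ∧ ∀ (p : ℕ) (φ φ' : L ≃ₐ[ℚ] L) (P P' : Ideal (𝓞 L)),
    FrobData p φ P → FrobData p φ' P' → ¬ p ∣ D → IsConj φ φ' := by
  obtain ⟨D, hD0, hD⟩ := frobData_unique L
  refine ⟨D, hD0, fun p φ φ' P P' h h' hp => ?_⟩
  obtain ⟨σ, rfl⟩ := h.exists_smul h'
  exact isConj_iff.mpr ⟨σ, hD p _ _ _ (h.conj σ) h' hp⟩

omit [IsGalois ℚ L] in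
/-- **the cyclotomic character of a Frobenius element at `p` is `p`** if `p` does not divide `m` -/
theorem FrobData.autToPow {p : ℕ} {φ : L ≃ₐ[ℚ] L} {P : Ideal (𝓞 L)} (h : FrobData p φ P)
    {m : ℕ} [NeZero m] {ζ : L} (hζ : IsPrimitiveRoot ζ m) (hp : ¬ p ∣ m) :
    ((hζ.autToPow ℚ φ : (ZMod m)ˣ) : ZMod m) = (p : ZMod m) := by
  -- the root of unity as an algebraic integer
  set z : 𝓞 L := ⟨ζ, hζ.isIntegral (NeZero.pos m)⟩ with hz
  have hzζ : ((z : 𝓞 L) : L) = ζ := rfl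
  have hzp : IsPrimitiveRoot z m := by
    refine IsPrimitiveRoot.of_map_of_injective (f := algebraMap (𝓞 L) L) ?_
      RingOfIntegers.coe_injective
    exact hζ
  set a : ℕ := ((hζ.autToPow ℚ φ : (ZMod m)ˣ) : ZMod m).val with ha
  have h1 : φ • z = z ^ a := by
    apply RingOfIntegers.ext
    change φ ζ = _
    rw [← hζ.autToPow_spec ℚ φ]
    rfl
  have h2 : z ^ a - z ^ p ∈ P := by
    rw [← h1]
    exact h.frob z
  have h3 : ((a : ℕ) : ZMod m) = ((p : ℕ) : ZMod m) := by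
    by_contra hne
    apply hp
    apply h.mem_iff
    have hP : P.IsPrime := h.max.isPrime
    -- reduce to `z ^ k - 1 ∈ P` with `0 < k < m`
    obtain ⟨b, hb⟩ : ∃ b : ℕ, p ≤ b ∧ b ≡ a [MOD m] := by
      refine ⟨a + p * m, ?_, ?_⟩
      · have := NeZero.pos m
        nlinarith
      · simp [Nat.ModEq]
    have hpow : ∀ i j : ℕ, i ≡ j [MOD m] → z ^ i = z ^ j := by
      intro i j hij
      rw [← pow_mod_orderOf z i, ← pow_mod_orderOf z j, ← hzp.eq_orderOf]
      exact congrArg (fun t => z ^ t) hij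
    have h4 : z ^ b = z ^ a := hpow _ _ hb.2
    set k := (b - p) % m with hk
    have h5 : z ^ (b - p) = z ^ k := hpow _ _ (Nat.mod_modEq _ _).symm
    have h6 : z ^ p * (1 - z ^ k) ∈ P := by
      have e1 : z ^ p * (1 - z ^ k) = -(z ^ a - z ^ p) := by
        rw [← h5, ← h4]
        have e2 : z ^ b = z ^ p * z ^ (b - p) := by
          rw [← pow_add, Nat.add_sub_cancel' hb.1]
        rw [e2]
        ring
      rw [e1]
      exact P.neg_mem h2
    have hunit : IsUnit z := hzp.isUnit (NeZero.ne m)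
    have h7 : 1 - z ^ k ∈ P := by
      rcases hP.mem_or_mem h6 with h7 | h7
      · exact absurd (Ideal.eq_top_of_isUnit_mem P h7 (hunit.pow p)) hP.ne_top
      · exact h7
    have hk0 : k ≠ 0 := by
      intro hk0
      apply hne
      have h8 : m ∣ b - p := Nat.dvd_of_mod_eq_zero hk0
      rw [ZMod.natCast_eq_natCast_iff]
      refine hb.2.symm.trans ?_
      exact ((Nat.modEq_iff_dvd' hb.1).mpr h8).symm
    have hkm : k < m := Nat.mod_lt _ (NeZero.pos m)
    obtain ⟨n, hn⟩ : ∃ n, m = n + 1 := ⟨m - 1, by have := NeZero.pos m; omega⟩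
    have h8 : ((m : ℕ) : 𝓞 L) = ∏ j ∈ Finset.range n, (1 - z ^ (j + 1)) := by
      have h9 : IsPrimitiveRoot z (n + 1) := hn ▸ hzp
      rw [h9.prod_one_sub_pow_eq_order, hn]
      push_cast
      rfl
    rw [h8]
    have h9 : (1 - z ^ ((k - 1) + 1)) ∣ ∏ j ∈ Finset.range n, (1 - z ^ (j + 1)) :=
      Finset.dvd_prod_of_mem _ (Finset.mem_range.mpr (by omega))
    rw [Nat.sub_add_cancel (by omega : 1 ≤ k)] at h9
    exact P.mem_of_dvd h9 h7
  rw [← h3, ha, ZMod.natCast_zmod_val]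

/-- for a class function the value at a Frobenius element does not depend on the choices -/
theorem classFn_frob {A : Type*} (f : (L ≃ₐ[ℚ] L) → A) (hf : ∀ x g, f (x * g * x⁻¹) = f g) :
    ∃ T : Finset Nat.Primes, ∀ p, p ∉ T → ∀ (φ : L ≃ₐ[ℚ] L) (P : Ideal (𝓞 L)),
      FrobData (p : ℕ) φ P → f φ = f (frob L p) := by
  obtain ⟨D, hD0, hD⟩ := frobData_isConj L
  refine ⟨smallPrimes (D + 1), fun p hp φ P h => ?_⟩
  obtain ⟨P', hP'⟩ := frob_spec (L := L) p
  obtain ⟨w, hw⟩ := isConj_iff.mp (hD p _ _ _ _ hP' h (not_dvd_of_big hD0 hp))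
  rw [← hw, hf]

/-- the cyclotomic character at a Frobenius element -/
theorem autToPow_frob (p : Nat.Primes) {m : ℕ} [NeZero m] {ζ : L} (hζ : IsPrimitiveRoot ζ m)
    (hp : ¬ (p : ℕ) ∣ m) :
    ((hζ.autToPow ℚ (frob L p) : (ZMod m)ˣ) : ZMod m) = ((p : ℕ) : ZMod m) := by
  obtain ⟨P, hP⟩ := frob_spec (L := L) p
  exact hP.autToPow hζ hp

end

section

variable {L M : Type} [Field L] [NumberField L] [Field M] [NumberField M] [IsGalois ℚ L]
  [Algebra L M]

lemma algebraMap_restrict_smul (φ : M ≃ₐ[ℚ] M) (x : 𝓞 L) :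
    algebraMap (𝓞 L) (𝓞 M) (AlgEquiv.restrictNormalHom L φ • x) =
      φ • algebraMap (𝓞 L) (𝓞 M) x := by
  apply RingOfIntegers.ext
  exact AlgEquiv.restrictNormal_commutes φ L (x : L)

/-- **the restriction of a Frobenius element to a Galois subfield is a Frobenius element** -/
theorem FrobData.restrict {p : ℕ} {φ : M ≃ₐ[ℚ] M} {P : Ideal (𝓞 M)} (h : FrobData p φ P) :
    FrobData p (AlgEquiv.restrictNormalHom L φ) (P.comap (algebraMap (𝓞 L) (𝓞 M))) := by
  refine ⟨?_, ?_, fun n hn => ?_, fun x => ?_⟩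
  · have := h.max
    exact Ideal.isMaximal_comap_of_isIntegral_of_isMaximal P
  · rw [Ideal.mem_comap, map_natCast]
    exact h.mem
  · rw [Ideal.mem_comap, map_natCast] at hn
    exact h.mem_iff n hn
  · rw [Ideal.mem_comap, map_sub, map_pow, algebraMap_restrict_smul]
    exact h.frob _

variable (L M) in
/-- for all but finitely many primes the restriction of `frob M p` is conjugate to `frob L p` -/
theorem restrict_frob [IsGalois ℚ M] : ∃ T : Finset Nat.Primes, ∀ p, p ∉ T →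
    IsConj (AlgEquiv.restrictNormalHom L (frob M p)) (frob L p) := by
  obtain ⟨D, hD0, hD⟩ := frobData_isConj L
  refine ⟨smallPrimes (D + 1), fun p hp => ?_⟩
  obtain ⟨P, hP⟩ := frob_spec (L := L) p
  obtain ⟨P', hP'⟩ := frob_spec (L := M) p
  exact hD p _ _ _ _ hP'.restrict hP (not_dvd_of_big hD0 hp)

variable (M) in
/-- for all but finitely many primes a class function takes the same value at the restriction of
`frob M p` and at `frob L p` -/
theorem classFn_restrict_frob [IsGalois ℚ M] {A : Type*} (f : (L ≃ₐ[ℚ] L) → A)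
    (hf : ∀ x g, f (x * g * x⁻¹) = f g) : ∃ T : Finset Nat.Primes, ∀ p, p ∉ T →
    f (AlgEquiv.restrictNormalHom L (frob M p)) = f (frob L p) := by
  obtain ⟨T, hT⟩ := restrict_frob L M
  refine ⟨T, fun p hp => ?_⟩
  obtain ⟨w, hw⟩ := isConj_iff.mp (hT p hp)
  rw [← hw, hf]

end

section

variable {Ω : Type} [Field Ω] [CharZero Ω]

/-- **the restriction of a Frobenius element of the group of the automorphisms of an algebraic
closure to a Galois number field is a Frobenius element** -/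
theorem IsFrob.frobData {p : ℕ} [hp : Fact p.Prime] {g : Ω ≃ₐ[ℚ] Ω} (h : IsFrob p g)
    (L : IntermediateField ℚ Ω) [NumberField L] [IsGalois ℚ L] :
    ∃ P : Ideal (𝓞 L), FrobData p (AlgEquiv.restrictNormalHom L g) P := by
  obtain ⟨𝔓, h𝔓, hpm, hfr⟩ := h
  have hnat : ∀ n : ℕ, ((n : ℕ) : 𝓞 L) ∈ 𝔓.comap (algebraMap (𝓞 L) (𝓞 Ω)) ↔
      ((n : ℕ) : 𝓞 Ω) ∈ 𝔓 := fun n => by rw [Ideal.mem_comap, map_natCast]
  have hprime : (𝔓.comap (algebraMap (𝓞 L) (𝓞 Ω))).IsPrime := Ideal.comap_isPrime _ _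
  refine ⟨𝔓.comap (algebraMap (𝓞 L) (𝓞 Ω)), ?_, ?_, fun n hn => ?_, fun x => ?_⟩
  · refine hprime.isMaximal ?_
    intro h0
    have h1 : ((p : ℕ) : 𝓞 L) ∈ 𝔓.comap (algebraMap (𝓞 L) (𝓞 Ω)) := (hnat p).mpr hpm
    rw [h0, Ideal.mem_bot] at h1
    exact hp.out.ne_zero (by exact_mod_cast h1)
  · exact (hnat p).mpr hpm
  · rw [hnat] at hn
    by_contra hpn
    have hco : Nat.Coprime p n := (Nat.Prime.coprime_iff_not_dvd hp.out).mpr hpn
    have hco' : IsCoprime ((p : ℕ) : 𝓞 Ω) ((n : ℕ) : 𝓞 Ω) := by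
      have h1 := (Nat.isCoprime_iff_coprime.mpr hco).map (Int.castRingHom (𝓞 Ω))
      simpa using h1
    obtain ⟨a, b, hab⟩ := hco'
    apply h𝔓.ne_top
    rw [Ideal.eq_top_iff_one, ← hab]
    exact 𝔓.add_mem (𝔓.mul_mem_left a hpm) (𝔓.mul_mem_left b hn)
  · have h1 : algebraMap (𝓞 L) (𝓞 Ω) (AlgEquiv.restrictNormalHom L g • x) =
        g • algebraMap (𝓞 L) (𝓞 Ω) x := by
      apply RingOfIntegers.ext
      exact AlgEquiv.restrictNormal_commutes g L (x : L)
    rw [Ideal.mem_comap, map_sub, map_pow, h1]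
    exact hfr _

/-- for all but finitely many primes a class function of a Galois number field `L` takes the same
value at the restriction of a Frobenius element and at `frob L p` -/
theorem IsFrob.classFn (L : IntermediateField ℚ Ω) [NumberField L] [IsGalois ℚ L] {A : Type*}
    (f : (L ≃ₐ[ℚ] L) → A) (hf : ∀ x g, f (x * g * x⁻¹) = f g) : ∃ T : Finset Nat.Primes,
    ∀ p, p ∉ T → ∀ g : Ω ≃ₐ[ℚ] Ω, IsFrob (p : ℕ) g →
      f (AlgEquiv.restrictNormalHom L g) = f (frob L p) := by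
  obtain ⟨T, hT⟩ := classFn_frob f hf
  refine ⟨T, fun p hp g hg => ?_⟩
  have := Fact.mk p.2
  obtain ⟨P, hP⟩ := hg.frobData L
  exact hT p hp _ P hP

end

section

variable {L : Type} [Field L] [NumberField L] [IsGalois ℚ L]

theorem frob_conj : ∃ D : ℕ, D ≠ 0 ∧ ∀ (p : ℕ) (φ φ' : L ≃ₐ[ℚ] L) (P P' : Ideal (𝓞 L)),
    FrobData p φ P → FrobData p φ' P' → ¬ p ∣ D → IsConj φ φ' := frobData_isConj L

omit [IsGalois ℚ L] in
theorem frob_cyc {m : ℕ} [NeZero m] {ζ : L} (hζ : IsPrimitiveRoot ζ m)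
    (κ : (L ≃ₐ[ℚ] L) →* (ZMod m)ˣ) (hκ : ∀ g, g ζ = ζ ^ ((κ g : ZMod m).val)) :
    ∃ D : ℕ, D ≠ 0 ∧ ∀ (p : ℕ) (φ : L ≃ₐ[ℚ] L) (P : Ideal (𝓞 L)), FrobData p φ P → ¬ p ∣ D →
      ((κ φ : (ZMod m)ˣ) : ZMod m) = (p : ZMod m) := by
  refine ⟨m, NeZero.ne m, fun p φ P h hp => ?_⟩
  rw [← h.autToPow hζ hp]
  have h1 : ζ ^ ((κ φ : ZMod m).val) = ζ ^ ((hζ.autToPow ℚ φ : ZMod m).val) := by
    rw [hζ.autToPow_spec ℚ φ, hκ]
  exact ZMod.val_injective m (hζ.pow_inj (ZMod.val_lt _) (ZMod.val_lt _) h1)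

/-- the restriction of a Frobenius element of an algebraic closure -/
theorem frobData_of_isFrob {Ω : Type} [Field Ω] [CharZero Ω] [IsAlgClosure ℚ Ω]
    (M : IntermediateField ℚ Ω) [NumberField M] [IsGalois ℚ M] {p : ℕ} (hp : p.Prime)
    {g : Ω ≃ₐ[ℚ] Ω} (hg : IsFrob p g) :
    ∃ P : Ideal (𝓞 M), FrobData p (AlgEquiv.restrictNormalHom M g) P :=
  hg.frobData (hp := ⟨hp⟩) M

end

end Pool.Agent.Work.MP_2b9663_nt
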