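import Pool.Agent.Work.MP_2b9663_nt.Ch.ThmB
import Pool.Agent.Work.MP_2b9663_nt.Ch.CountTau
import Pool.Agent.Work.MP_2b9663_nt.Ch.FrobConj

set_option autoImplicit false

/-!
The density theorem of Chebotarev, for all class functions, with the twists `p ^ (-i y)`.
-/

namespace Pool.Agent.Work.MP_2b9663_nt

open Filter Topology NumberField

section

variable {G : Type*} [Group G] [Fintype G]

/-- A class function supported on the elements `c` such that `κ` is injective on the group
generated by `c` is a combination of the functions `1[κ = a] * pc H`. -/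
lemma class_eq_sum {A : Type*} [CommGroup A] [DecidableEq A] (κ : G →* A) {f : G → ℂ} (hf : IsCl f)
    (hs : ∀ c, f c ≠ 0 → Set.InjOn κ (Subgroup.zpowers c : Set G)) :
    ∃ w : G → ℂ, f = ∑ c : G, w c • fun x => if κ x = κ c then (pc (Subgroup.zpowers c) x : ℂ) else 0 := by
  classical
  refine ⟨fun c => f c / ((Finset.univ.filter fun x => IsConj c x).card *
    (pc (Subgroup.zpowers c) c : ℂ)), ?_⟩
  have hfc : ∀ {a b : G}, IsConj a b → f a = f b := by
    intro a b hab
    obtain ⟨x, hx⟩ := isConj_iff.mp hab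
    rw [← hx, hf]
  have hpc0 : ∀ c : G, (pc (Subgroup.zpowers c) c : ℂ) ≠ 0 := by
    intro c
    have h1 : ((1 : G) : G ⧸ Subgroup.zpowers c) ∈ MulAction.fixedBy (G ⧸ Subgroup.zpowers c) c := by
      rw [mk_fixed_iff]
      simp
    have : Nonempty (MulAction.fixedBy (G ⧸ Subgroup.zpowers c) c) := ⟨⟨_, h1⟩⟩
    have h2 : pc (Subgroup.zpowers c) c ≠ 0 := Nat.card_pos.ne'
    exact_mod_cast h2
  -- the values of the functions
  have hval : ∀ c x : G, f c ≠ 0 → (if κ x = κ c then (pc (Subgroup.zpowers c) x : ℂ) else 0) =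
      if IsConj c x then (pc (Subgroup.zpowers c) c : ℂ) else 0 := by
    intro c x hc
    by_cases hcx : IsConj c x
    · obtain ⟨y, hy⟩ := isConj_iff.mp hcx
      have h1 : κ x = κ c := by
        rw [← hy, map_mul, map_mul, map_inv, mul_comm (κ y), mul_inv_cancel_right]
      rw [if_pos h1, if_pos hcx, ← hy, pc_conj]
    · rw [if_neg hcx]
      split_ifs with h1
      · rw [Nat.cast_eq_zero]
        unfold pc
        rw [Nat.card_eq_zero]
        left
        rw [Set.isEmpty_coe_sort, Set.eq_empty_iff_forall_notMem]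
        intro z hz
        obtain ⟨y, rfl⟩ := QuotientGroup.mk_surjective z
        rw [mk_fixed_iff] at hz
        apply hcx
        have h2 : κ (y⁻¹ * x * y) = κ c := by
          rw [map_mul, map_mul, map_inv, mul_comm, mul_inv_cancel_left, h1]
        have h3 := hs c hc hz (Subgroup.mem_zpowers c) h2
        rw [isConj_iff]
        refine ⟨y, ?_⟩
        rw [← h3]
        group
      · rfl
  funext x
  rw [Finset.sum_apply]
  by_cases hx : f x = 0
  · rw [hx]
    refine (Finset.sum_eq_zero fun c _ => ?_).symm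
    rw [Pi.smul_apply, smul_eq_mul]
    beta_reduce
    by_cases hc : f c = 0
    · rw [hc, zero_div, zero_mul]
    · rw [hval c x hc, if_neg, mul_zero]
      intro h
      exact hc ((hfc h).trans hx)
  · have h1 : ∀ c : G, ((f c / ((Finset.univ.filter fun x => IsConj c x).card *
        (pc (Subgroup.zpowers c) c : ℂ))) • fun x => if κ x = κ c then
          (pc (Subgroup.zpowers c) x : ℂ) else 0) x =
        if IsConj c x then f x / (Finset.univ.filter fun z => IsConj x z).card else 0 := by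
      intro c
      rw [Pi.smul_apply, smul_eq_mul]
      by_cases hcx : IsConj c x
      · have hfcx := hfc hcx
        have hc : f c ≠ 0 := by rw [hfcx]; exact hx
        have h2 : (Finset.univ.filter fun z => IsConj c z) = Finset.univ.filter fun z => IsConj x z := by
          ext z
          rw [Finset.mem_filter_univ, Finset.mem_filter_univ]
          exact ⟨fun h => hcx.symm.trans h, fun h => hcx.trans h⟩
        rw [hval c x hc, if_pos hcx, if_pos hcx, h2, hfcx]
        have h3 := hpc0 c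
        field_simp
      · rw [if_neg hcx]
        by_cases hc : f c = 0
        · rw [hc, zero_div, zero_mul]
        · rw [hval c x hc, if_neg hcx, mul_zero]
    rw [Finset.sum_congr rfl fun c _ => h1 c, ← Finset.sum_filter, Finset.sum_const, nsmul_eq_mul]
    have h2 : (Finset.univ.filter fun c => IsConj c x) = Finset.univ.filter fun z => IsConj x z := by
      ext z
      rw [Finset.mem_filter_univ, Finset.mem_filter_univ]
      exact ⟨fun h => h.symm, fun h => h.symm⟩
    rw [h2]
    have h3 : ((Finset.univ.filter fun z => IsConj x z).card : ℂ) ≠ 0 := by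
      have h4 : x ∈ Finset.univ.filter fun z => IsConj x z := by
        rw [Finset.mem_filter_univ]
      have := Finset.card_pos.mpr ⟨x, h4⟩
      exact_mod_cast this.ne'
    field_simp

end

section

variable {L : Type} [Field L] [NumberField L] [IsGalois ℚ L] {m : ℕ} [NeZero m]

/-- the density of class functions supported on good elements -/
theorem hasDens_good (hyp : MeanHyp) {κ : (L ≃ₐ[ℚ] L) →* (ZMod m)ˣ} (hκ : IsCyc κ)
    {f : (L ≃ₐ[ℚ] L) → ℂ} (hf : IsCl f)
    (hs : ∀ c, f c ≠ 0 → Set.InjOn κ (Subgroup.zpowers c : Set (L ≃ₐ[ℚ] L))) (y : ℝ) :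
    HasDens y f := by
  classical
  obtain ⟨w, hw⟩ := class_eq_sum κ hf hs
  rw [hw]
  refine HasDens.sum _ fun c _ => HasDens.smul _ ?_
  exact hasDens_class hyp hκ (κ c) (Subgroup.zpowers c) y

end

section

variable {M L : Type} [Field M] [NumberField M] [IsGalois ℚ M] [Field L] [NumberField L]
  [IsGalois ℚ L] [Algebra M L] [IsScalarTower ℚ M L]

theorem frob_restrict : ∃ T : Finset Nat.Primes, ∀ p, p ∉ T →
    IsConj (AlgEquiv.restrictNormalHom M (frob L p)) (frob M p) := restrict_frob M L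

end

theorem isCyc_autToPow {L : Type} [Field L] [NumberField L] [IsGalois ℚ L] {m : ℕ} [NeZero m]
    {ζ : L} (hζ : IsPrimitiveRoot ζ m) : IsCyc (hζ.autToPow ℚ) :=
  ⟨smallPrimes (m + 1), fun p hp => autToPow_frob p hζ (not_dvd_of_big (NeZero.ne m) hp)⟩

lemma isRat_order {G A : Type*} [Group G] [CommGroup A] (κ : G →* A) (n : ℕ) (B : ℝ)
    [DecidablePred fun a : A => ¬ n ∣ orderOf a] :
    IsRat fun g : G => if ¬ n ∣ orderOf (κ g) then B else 0 := by
  intro g h hgh
  obtain ⟨x, hx⟩ := hgh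
  have hconj : κ (x * g * x⁻¹) = κ g := by
    rw [map_mul, map_mul, map_inv, mul_comm (κ x), mul_inv_cancel_right]
  have h1 : Subgroup.zpowers (κ g) = Subgroup.zpowers (κ h) := by
    rw [← hconj, ← MonoidHom.map_zpowers, ← MonoidHom.map_zpowers, hx]
  have h2 : orderOf (κ g) = orderOf (κ h) := by
    rw [← Nat.card_zpowers, ← Nat.card_zpowers, h1]
  beta_reduce
  exact if_congr (by rw [h2]) rfl rfl

/-- **The density theorem of Chebotarev** (logarithmic form, for class functions, with the twists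
`p ^ (-i y)`). -/
theorem chebotarev (hyp : MeanHyp) (M : Type) [Field M] [NumberField M] [IsGalois ℚ M]
    {f : (M ≃ₐ[ℚ] M) → ℂ} (hf : IsCl f) (y : ℝ) : HasDens y f := by
  classical
  set B : ℝ := ∑ g, ‖f g‖ with hB
  have hB0 : 0 ≤ B := Finset.sum_nonneg fun _ _ => norm_nonneg _
  have hfB : ∀ g, ‖f g‖ ≤ B := fun g =>
    Finset.single_le_sum (f := fun g => ‖f g‖) (fun _ _ => norm_nonneg _) (Finset.mem_univ g)
  have hbd : BDC (fun p => f (frob M p) * pw y p) := by
    refine ⟨B, fun p => ?_⟩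
    rw [norm_mul, norm_pw, mul_one]
    exact hfB _
  unfold HasDens
  refine MVC.of_approx hbd fun δ hδ => ?_
  set n := Fintype.card (M ≃ₐ[ℚ] M) with hn
  have hn0 : n ≠ 0 := Fintype.card_ne_zero
  obtain ⟨m, hm, hcount⟩ := exists_prime_count hn0 (show (0 : ℝ) < δ / (B + 1) by positivity)
  have hm0 : NeZero m := ⟨hm.out.ne_zero⟩
  obtain ⟨L, _, _, _, _, _, ζ, hζ, hL⟩ := exists_cyclotomic_ext M m
  set κ := hζ.autToPow ℚ with hκ
  set ρ : (L ≃ₐ[ℚ] L) →* (M ≃ₐ[ℚ] M) := AlgEquiv.restrictNormalHom M with hρ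
  have hρs : Function.Surjective ρ := AlgEquiv.restrictNormalHom_surjective L
  have hκs : Function.Surjective κ := autToPow_surjective hζ
  set g : (L ≃ₐ[ℚ] L) → ℂ := fun σ => if ¬ n ∣ orderOf (κ σ) then 0 else f (ρ σ) with hg
  have hκc : ∀ x σ, κ (x * σ * x⁻¹) = κ σ := by
    intro x σ
    rw [map_mul, map_mul, map_inv, mul_comm (κ x), mul_inv_cancel_right]
  have hgcl : IsCl g := by
    intro x σ
    rw [hg]
    beta_reduce
    rw [hκc, map_mul, map_mul, map_inv, hf]
  have hgood : HasDens y g := by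
    refine hasDens_good hyp (isCyc_autToPow hζ) hgcl (fun c hc => ?_) y
    have h1 : n ∣ orderOf (κ c) := by
      by_contra hcon
      exact hc (if_pos hcon)
    exact autToPow_injOn (M := M) hζ hL h1
  set F : (L ≃ₐ[ℚ] L) → ℝ := fun σ => if ¬ n ∣ orderOf (κ σ) then B else 0 with hF
  have hFrat : IsRat F := isRat_order κ n B
  have hFd := (density hFrat).toMVo
  have hμ : (∑ σ, F σ) / (Fintype.card (L ≃ₐ[ℚ] L) : ℝ) ≤ δ := by
    have h1 := sum_comp_surj κ hκs (fun a => if ¬ n ∣ orderOf a then B else 0)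
    rw [hF, h1, ← Finset.sum_filter, Finset.sum_const, nsmul_eq_mul]
    have hA : (0 : ℝ) < Fintype.card (ZMod m)ˣ := by exact_mod_cast Fintype.card_pos
    rw [div_le_iff₀ hA]
    have h2 := mul_le_mul_of_nonneg_right hcount hB0
    refine h2.trans ?_
    have h3 : δ / (B + 1) * Fintype.card (ZMod m)ˣ * B = δ * Fintype.card (ZMod m)ˣ * (B / (B + 1)) := by
      field_simp
    rw [h3]
    have h4 : B / (B + 1) ≤ 1 := by
      rw [div_le_one (by linarith)]
      linarith
    exact mul_le_of_le_one_right (by positivity) h4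
  obtain ⟨T, hT⟩ := frob_restrict (M := M) (L := L)
  have hnorm : ∀ σ, ‖f (ρ σ) - g σ‖ ≤ F σ := by
    intro σ
    rw [hg, hF]
    beta_reduce
    split_ifs
    · rw [sub_self, norm_zero]
    · rw [sub_zero]
      exact hfB _
  refine ⟨fun p => g (frob L p) * pw y p, _, fun p => F (frob L p), _, T, hgood, hFd, ?_, hμ, ?_⟩
  · intro p hp
    obtain ⟨x, hx⟩ := isConj_iff.mp (hT p hp)
    have h1 : f (frob M p) = f (ρ (frob L p)) := by
      rw [← hx, hf]
    rw [← sub_mul, norm_mul, norm_pw, mul_one, h1]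
    exact hnorm _
  · split_ifs with hy
    · have h1 : av f = av fun σ => f (ρ σ) := (sum_comp_surj ρ hρs f).symm
      have h2 : av g - av f = -((∑ σ, (f (ρ σ) - g σ)) / (Fintype.card (L ≃ₐ[ℚ] L) : ℂ)) := by
        rw [h1, av, av, Finset.sum_sub_distrib]
        ring
      rw [h2, norm_neg, norm_div, Complex.norm_natCast]
      refine le_trans ?_ hμ
      refine div_le_div_of_nonneg_right ?_ (Nat.cast_nonneg _)
      exact (norm_sum_le _ _).trans (Finset.sum_le_sum fun σ _ => hnorm σ)
    · rw [sub_self, norm_zero]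
      exact hδ.le

section

variable {Ω : Type} [Field Ω] [CharZero Ω] [IsAlgClosure ℚ Ω]

lemma isGalois_of_isAlgClosure : IsGalois ℚ Ω := by
  have h := IsAlgClosure.isAlgebraic (R := ℚ) (K := Ω)
  have h2 : IsAlgClosed Ω := IsAlgClosure.isAlgClosed ℚ
  have h3 : Normal ℚ Ω := normal_iff.mpr fun x => ⟨(h.isAlgebraic x).isIntegral, IsAlgClosed.splits _⟩
  exact ⟨⟩

omit [IsAlgClosure ℚ Ω] in
lemma restrict_ker (L : IntermediateField ℚ Ω) [Normal ℚ L] (g : Ω ≃ₐ[ℚ] Ω) :
    AlgEquiv.restrictNormalHom L g = 1 ↔ g ∈ L.fixingSubgroup := by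
  rw [IntermediateField.mem_fixingSubgroup_iff]
  have h1 : ∀ x : L, algebraMap L Ω (AlgEquiv.restrictNormalHom L g x) = g (algebraMap L Ω x) :=
    fun x => AlgEquiv.restrictNormal_commutes g L x
  constructor
  · intro h x hx
    have h2 := h1 ⟨x, hx⟩
    rw [h] at h2
    exact h2.symm
  · intro h
    refine AlgEquiv.ext fun x => ?_
    apply (algebraMap L Ω).injective
    rw [h1]
    exact h x x.2

lemma restrict_surj (L : IntermediateField ℚ Ω) [Normal ℚ L] :
    Function.Surjective (AlgEquiv.restrictNormalHom L : (Ω ≃ₐ[ℚ] Ω) →* (L ≃ₐ[ℚ] L)) := by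
  have := isGalois_of_isAlgClosure (Ω := Ω)
  exact AlgEquiv.restrictNormalHom_surjective Ω

/-- the mean value of a function of level `L` as an average over the Galois group of `L` -/
lemma meanAt_restrict (L : IntermediateField ℚ Ω) [NumberField L] [IsGalois ℚ L]
    (f : (L ≃ₐ[ℚ] L) → ℂ) : meanAt L (fun g => f (AlgEquiv.restrictNormalHom L g)) =
      (∑ g, f g) / Fintype.card (L ≃ₐ[ℚ] L) := by
  let e : (Ω ≃ₐ[ℚ] Ω) ⧸ L.fixingSubgroup ≃ (L ≃ₐ[ℚ] L) :=
    Equiv.ofBijective (Quotient.lift (fun g => AlgEquiv.restrictNormalHom L g) (by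
      intro a b hab
      have h1 : a⁻¹ * b ∈ L.fixingSubgroup := QuotientGroup.leftRel_apply.mp hab
      rw [← restrict_ker, map_mul, map_inv, inv_mul_eq_one] at h1
      exact h1)) (by
      constructor
      · intro a b hab
        obtain ⟨x, rfl⟩ := QuotientGroup.mk_surjective a
        obtain ⟨y, rfl⟩ := QuotientGroup.mk_surjective b
        have h1 : AlgEquiv.restrictNormalHom L x = AlgEquiv.restrictNormalHom L y := hab
        rw [QuotientGroup.eq, ← restrict_ker, map_mul, map_inv, h1, inv_mul_cancel]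
      · intro σ
        obtain ⟨g, hg⟩ := restrict_surj L σ
        exact ⟨(g : (Ω ≃ₐ[ℚ] Ω) ⧸ L.fixingSubgroup), hg⟩)
  have he : ∀ q : (Ω ≃ₐ[ℚ] Ω) ⧸ L.fixingSubgroup, AlgEquiv.restrictNormalHom L q.out = e q := by
    intro q
    have h1 : e ((q.out : Ω ≃ₐ[ℚ] Ω) : (Ω ≃ₐ[ℚ] Ω) ⧸ L.fixingSubgroup) =
        AlgEquiv.restrictNormalHom L q.out := rfl
    rw [← h1]
    congr 1
    exact QuotientGroup.out_eq' q
  unfold meanAt
  simp only [he]
  rw [Nat.card_congr e, Nat.card_eq_fintype_card, finsum_comp_equiv e (f := f),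
    finsum_eq_sum_of_fintype]

/-- a function of level `L` comes from the Galois group of `L` -/
lemma exists_descent {L : IntermediateField ℚ Ω} [NumberField L] [IsGalois ℚ L]
    {f : (Ω ≃ₐ[ℚ] Ω) → ℂ} (hL : Lvl L f) : ∃ f' : (L ≃ₐ[ℚ] L) → ℂ,
      (∀ g, f g = f' (AlgEquiv.restrictNormalHom L g)) ∧ (IsCl f → IsCl f') := by
  choose lift hlift using restrict_surj L
  have h1 : ∀ g, f g = f (lift (AlgEquiv.restrictNormalHom L g)) := by
    intro g
    have h2 : (lift (AlgEquiv.restrictNormalHom L g))⁻¹ * g ∈ L.fixingSubgroup := by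
      rw [← restrict_ker, map_mul, map_inv, hlift, inv_mul_cancel]
    have h3 := hL (lift (AlgEquiv.restrictNormalHom L g)) _ h2
    rw [mul_inv_cancel_left] at h3
    exact h3
  refine ⟨fun σ => f (lift σ), h1, fun hf x σ => ?_⟩
  beta_reduce
  have h2 : AlgEquiv.restrictNormalHom L (lift x * lift σ * (lift x)⁻¹) = x * σ * x⁻¹ := by
    rw [map_mul, map_mul, map_inv, hlift, hlift]
  rw [← h2, ← h1, hf]

/-- **Chebotarev**, for any choice of the Frobenius elements -/
theorem chebΩ_of (hyp : MeanHyp) (Fr : Nat.Primes → (Ω ≃ₐ[ℚ] Ω))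
    (hFr : ∀ p : Nat.Primes, IsFrob (p : ℕ) (Fr p)) (L : IntermediateField ℚ Ω) [NumberField L]
    [IsGalois ℚ L] (f : (Ω ≃ₐ[ℚ] Ω) → ℂ) (hL : Lvl L f) (hf : IsCl f) (y : ℝ) :
    MVC (fun p => f (Fr p) * pw y p) (if y = 0 then meanAt L f else 0) := by
  obtain ⟨f', hf', hcl⟩ := exists_descent hL
  have hcl' := hcl hf
  have h1 := chebotarev hyp L hcl' y
  obtain ⟨T, hT⟩ := IsFrob.classFn (Ω := Ω) L f' hcl'
  have h2 : meanAt L f = av f' := by
    have h3 : f = fun g => f' (AlgEquiv.restrictNormalHom L g) := funext hf'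
    rw [h3]
    exact meanAt_restrict L f'
  rw [h2]
  refine MVC.congr h1 T fun p hp => ?_
  rw [hf' (Fr p), hT p hp _ (hFr p)]

end

end Pool.Agent.Work.MP_2b9663_nt
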