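import Pool.Agent.Work.MP_2b9663_nt.Ch.MeanHyp
import Pool.Agent.Work.MP_2b9663_nt.Ch.Cheb

set_option autoImplicit false

/-!
The density theorem of Chebotarev.
-/

namespace Pool.Agent.Work.MP_2b9663_nt

open Filter Topology NumberField

/-- **The density theorem of Chebotarev** -/
theorem cheb {L : Type} [Field L] [NumberField L] [IsGalois ℚ L] (f : (L ≃ₐ[ℚ] L) → ℂ)
    (hf : IsCl f) (y : ℝ) :
    MVC (fun p => f (frob L p) * pw y p)
      (if y = 0 then (∑ g, f g) / Fintype.card (L ≃ₐ[ℚ] L) else 0) :=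
  chebotarev meanHyp L hf y

variable {Ω : Type} [Field Ω] [CharZero Ω] [IsAlgClosure ℚ Ω]

/-- **Chebotarev**, for any choice of the Frobenius elements -/
theorem chebΩ (Fr : Nat.Primes → (Ω ≃ₐ[ℚ] Ω)) (hFr : ∀ p : Nat.Primes, IsFrob (p : ℕ) (Fr p))
    (L : IntermediateField ℚ Ω) [NumberField L] [IsGalois ℚ L] (f : (Ω ≃ₐ[ℚ] Ω) → ℂ) (hL : Lvl L f)
    (hf : IsCl f) (y : ℝ) :
    MVC (fun p => f (Fr p) * pw y p) (if y = 0 then meanAt L f else 0) :=
  chebΩ_of meanHyp Fr hFr L f hL hf y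

end Pool.Agent.Work.MP_2b9663_nt
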