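import Mathlib

/-! # Every ideal class contains an integral ideal prime to a given modulus -/

namespace Pool.Agent.Work.MP_2b9663_nt

open NumberField nonZeroDivisors

/-- In a Dedekind domain every ideal class contains an integral ideal prime to a given
nonzero ideal. -/
theorem exists_ideal_sup_eq_top {R : Type*} [CommRing R] [IsDedekindDomain R]
    (M : Ideal R) (hM : M ≠ ⊥) (c : ClassGroup R) :
    ∃ J : (Ideal R)⁰, ClassGroup.mk0 J = c ∧ M ⊔ (J : Ideal R) = ⊤ := by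
  obtain ⟨J0, hJ0⟩ := ClassGroup.mk0_surjective c⁻¹
  have hJ0ne : (J0 : Ideal R) ≠ 0 := nonZeroDivisors.ne_zero J0.2
  have hM0 : M ≠ 0 := hM
  have hI0 : M * (J0 : Ideal R) ≠ 0 := mul_ne_zero hM0 hJ0ne
  obtain ⟨x, hx⟩ := IsDedekindDomain.exists_sup_span_eq (R := R) (I := M * (J0 : Ideal R))
    (J := (J0 : Ideal R)) Ideal.mul_le_right hI0
  have hxJ : Ideal.span {x} ≤ (J0 : Ideal R) := by
    rw [← hx]; exact le_sup_right
  obtain ⟨J, hJ⟩ := Ideal.dvd_iff_le.mpr hxJ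
  -- `J0 * (M ⊔ J) = J0`
  have h1 : (J0 : Ideal R) * (M ⊔ J) = (J0 : Ideal R) * ⊤ := by
    rw [Ideal.mul_sup, ← hJ, mul_comm (J0 : Ideal R) M, hx, Ideal.mul_top]
  have h2 : M ⊔ J = ⊤ := mul_left_cancel₀ hJ0ne h1
  by_cases hx0 : x = 0
  · -- then `J = 0` and `M = ⊤`
    have hJz : J = 0 := by
      have : (J0 : Ideal R) * J = 0 := by
        rw [← hJ, hx0]; simp
      rcases mul_eq_zero.mp this with h | h
      · exact absurd h hJ0ne
      · exact h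
    have hMt : M = ⊤ := by
      rw [hJz] at h2
      simpa using h2
    obtain ⟨J1, hJ1⟩ := ClassGroup.mk0_surjective c
    exact ⟨J1, hJ1, by rw [hMt]; simp⟩
  · have hJne : J ≠ 0 := by
      rintro rfl
      rw [mul_zero] at hJ
      exact hx0 (Ideal.span_singleton_eq_bot.mp hJ)
    refine ⟨⟨J, mem_nonZeroDivisors_of_ne_zero hJne⟩, ?_, h2⟩
    have h3 : ClassGroup.mk0 (J0 * ⟨J, mem_nonZeroDivisors_of_ne_zero hJne⟩) = 1 := by
      have h4 : (J0 * ⟨J, mem_nonZeroDivisors_of_ne_zero hJne⟩ : (Ideal R)⁰) =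
          ⟨(J0 : Ideal R) * J, mem_nonZeroDivisors_of_ne_zero (mul_ne_zero hJ0ne hJne)⟩ := rfl
      rw [h4, ClassGroup.mk0_eq_one_iff, ← hJ]
      exact ⟨⟨x, rfl⟩⟩
    rw [map_mul, hJ0] at h3
    exact (inv_mul_eq_one.mp h3).symm

/-- if `(m) + J = 1` then `N(J)` is prime to `m` -/
theorem absNorm_coprime_of_sup_eq_top {K : Type*} [Field K] [NumberField K] (m : ℕ)
    (J : Ideal (𝓞 K)) (h : Ideal.span {(m : 𝓞 K)} ⊔ J = ⊤) :
    (Ideal.absNorm J).Coprime m := by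
  rw [Nat.coprime_iff_gcd_eq_one]
  by_contra hne
  obtain ⟨p, hp, hpd⟩ := Nat.exists_prime_and_dvd hne
  have h1 : p ∣ Ideal.absNorm J := hpd.trans (Nat.gcd_dvd_left _ _)
  have h2 : p ∣ m := hpd.trans (Nat.gcd_dvd_right _ _)
  obtain ⟨P, hP, hPp, hPJ⟩ := Ideal.exists_isMaximal_dvd_of_dvd_absNorm' hp J h1
  have h3 : J ≤ P := Ideal.dvd_iff_le.mp hPJ
  have hpP : (p : 𝓞 K) ∈ P := by
    have h6 : (p : ℤ) ∈ P.under ℤ := by
      rw [hPp]; exact Ideal.mem_span_singleton_self _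
    have h7 : algebraMap ℤ (𝓞 K) (p : ℤ) ∈ P := h6
    simpa using h7
  have h4 : Ideal.span {(m : 𝓞 K)} ≤ P := by
    rw [Ideal.span_singleton_le_iff_mem]
    obtain ⟨k, rfl⟩ := h2
    push_cast
    exact P.mul_mem_right _ hpP
  have h5 : (⊤ : Ideal (𝓞 K)) ≤ P := by rw [← h]; exact sup_le h4 h3
  exact hP.ne_top (top_le_iff.mp h5)

/-- if `N(J)` is prime to `m` then `(m) + J = 1` -/
theorem sup_eq_top_of_absNorm_coprime {K : Type*} [Field K] [NumberField K] (m : ℕ)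
    (J : Ideal (𝓞 K)) (h : (Ideal.absNorm J).Coprime m) :
    Ideal.span {(m : 𝓞 K)} ⊔ J = ⊤ := by
  rw [Ideal.eq_top_iff_one]
  have h1 : ((Ideal.absNorm J : ℕ) : 𝓞 K) ∈ J := Ideal.absNorm_mem J
  have h2 : IsCoprime ((Ideal.absNorm J : ℤ)) (m : ℤ) := Nat.isCoprime_iff_coprime.mpr h
  obtain ⟨a, b, hab⟩ := h2
  have h3 : ((b : ℤ) : 𝓞 K) * (m : 𝓞 K) + ((a : ℤ) : 𝓞 K) * ((Ideal.absNorm J : ℕ) : 𝓞 K) = 1 := by
    have := congrArg (fun z : ℤ => (z : 𝓞 K)) hab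
    push_cast at this
    rw [add_comm]
    exact this
  rw [← h3]
  exact Ideal.add_mem _
    (Ideal.mem_sup_left (Ideal.mul_mem_left _ _ (Ideal.mem_span_singleton_self _)))
    (Ideal.mem_sup_right (Ideal.mul_mem_left _ _ h1))

/-- every ideal class of a number field contains an integral ideal of norm prime to `m` -/
theorem exists_ideal_coprime {K : Type*} [Field K] [NumberField K] (m : ℕ) (hm : m ≠ 0)
    (c : ClassGroup (𝓞 K)) :
    ∃ J : (Ideal (𝓞 K))⁰, ClassGroup.mk0 J = c ∧ (Ideal.absNorm (J : Ideal (𝓞 K))).Coprime m := by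
  have hM : Ideal.span {(m : 𝓞 K)} ≠ ⊥ := by
    rw [Ne, Ideal.span_singleton_eq_bot]
    exact_mod_cast hm
  obtain ⟨J, h1, h2⟩ := exists_ideal_sup_eq_top (Ideal.span {(m : 𝓞 K)}) hM c
  exact ⟨J, h1, absNorm_coprime_of_sup_eq_top m _ h2⟩

/-- every ideal class contains an ideal prime to `m` -/
theorem exists_coprime_rep (K : Type) [Field K] [NumberField K] (m : ℕ) [NeZero m]
    (C : ClassGroup (𝓞 K)) :
    ∃ J : (Ideal (𝓞 K))⁰, ClassGroup.mk0 J = C ∧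
      (Ideal.absNorm (J : Ideal (𝓞 K))).Coprime m :=
  exists_ideal_coprime m (NeZero.ne m) C

end Pool.Agent.Work.MP_2b9663_nt
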