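import Pool.Agent.Work.MP_2b9663_nt.Ch.Transl
import Pool.Agent.Work.MP_2b9663_nt.Ch.Coprime

set_option autoImplicit false

/-!
Comparison of the lattice sums over an ideal `J` and over `a * J`.
-/

namespace Pool.Agent.Work.MP_2b9663_nt

open NumberField Ideal
open scoped nonZeroDivisors

variable {K : Type} [Field K] [NumberField K]

section Mean

/-- the sum of a periodic function over the classes -/
noncomputable def mn (A : Ideal (𝓞 K)) (f : 𝓞 K → ℂ) : ℂ := ∑ᶠ q : 𝓞 K ⧸ A, f (Quotient.out q)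

lemma mn_eq {A : Ideal (𝓞 K)} [Fintype (𝓞 K ⧸ A)] (f : 𝓞 K → ℂ) :
    mn A f = ∑ q : 𝓞 K ⧸ A, f (Quotient.out q) := finsum_eq_sum_of_fintype _

lemma mn_shift {A : Ideal (𝓞 K)} (hA : A ≠ ⊥) {f : 𝓞 K → ℂ}
    (hf : ∀ x, ∀ a ∈ A, f (x + a) = f x) (u : 𝓞 K) : mn A (fun x => f (x + u)) = mn A f := by
  have := finite_idealQuot hA
  have := Fintype.ofFinite (𝓞 K ⧸ A)
  rw [mn_eq, mn_eq]
  have h1 : ∑ q : 𝓞 K ⧸ A, f (Quotient.out (q + Ideal.Quotient.mk A u)) =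
      ∑ q : 𝓞 K ⧸ A, f (Quotient.out q) :=
    Fintype.sum_equiv (Equiv.addRight (Ideal.Quotient.mk A u)) _ _ fun q => rfl
  rw [← h1]
  refine Finset.sum_congr rfl fun q _ => ?_
  have h2 : Ideal.Quotient.mk A (Quotient.out q) = q := Ideal.Quotient.mk_out q
  rw [← periodic_out hf (Quotient.out q + u), map_add, h2]

lemma mn_sum {A : Ideal (𝓞 K)} (hA : A ≠ ⊥) {ι : Type} (s : Finset ι) (f : ι → 𝓞 K → ℂ) :
    mn A (fun x => ∑ i ∈ s, f i x) = ∑ i ∈ s, mn A (f i) := by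
  have := finite_idealQuot hA
  have := Fintype.ofFinite (𝓞 K ⧸ A)
  simp_rw [mn_eq]
  rw [Finset.sum_comm]

lemma mn_sub {A : Ideal (𝓞 K)} (hA : A ≠ ⊥) (f g : 𝓞 K → ℂ) :
    mn A (fun x => f x - g x) = mn A f - mn A g := by
  have := finite_idealQuot hA
  have := Fintype.ofFinite (𝓞 K ⧸ A)
  simp_rw [mn_eq]
  rw [Finset.sum_sub_distrib]

lemma mn_mul {A : Ideal (𝓞 K)} (hA : A ≠ ⊥) (c : ℂ) (f : 𝓞 K → ℂ) :
    mn A (fun x => c * f x) = c * mn A f := by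
  have := finite_idealQuot hA
  have := Fintype.ofFinite (𝓞 K ⧸ A)
  simp_rw [mn_eq]
  rw [Finset.mul_sum]

/-- the mean over an ideal which is prime to the period -/
lemma mn_ideal {A M J : Ideal (𝓞 K)} (hA : A ≠ ⊥) (hAJ : A ≤ J) (hAM : A ≤ M) (hMJ : M ⊔ J = ⊤)
    {h : 𝓞 K → ℂ} (hh : ∀ x, ∀ a ∈ M, h (x + a) = h x) :
    open scoped Classical in
    (absNorm J : ℂ) * mn A (fun x => if x ∈ J then h x else 0) = mn A h := by
  classical
  have hJ : J ≠ ⊥ := fun h0 => hA (le_bot_iff.mp (h0 ▸ hAJ))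
  have := finite_idealQuot hJ
  have := Fintype.ofFinite (𝓞 K ⧸ J)
  have hper : ∀ r : 𝓞 K ⧸ J, ∀ x, ∀ a ∈ A,
      (if Ideal.Quotient.mk J (x + a) = r then h (x + a) else 0) =
        if Ideal.Quotient.mk J x = r then h x else 0 := fun r x a ha => by
    rw [map_add, Ideal.Quotient.eq_zero_iff_mem.mpr (hAJ ha), add_zero, hh x a (hAM ha)]
  have hu : ∀ r : 𝓞 K ⧸ J, ∃ u ∈ M, Ideal.Quotient.mk J u = r := fun r => by
    obtain ⟨y, rfl⟩ := Ideal.Quotient.mk_surjective r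
    have h1 : y ∈ M ⊔ J := hMJ ▸ Submodule.mem_top
    obtain ⟨u, hu, v, hv, huv⟩ := Submodule.mem_sup.mp h1
    refine ⟨u, hu, ?_⟩
    rw [← huv, map_add, Ideal.Quotient.eq_zero_iff_mem.mpr hv, add_zero]
  have h1 : ∀ r : 𝓞 K ⧸ J, mn A (fun x => if Ideal.Quotient.mk J x = r then h x else 0) =
      mn A (fun x => if x ∈ J then h x else 0) := fun r => by
    obtain ⟨u, hu, hur⟩ := hu r
    rw [← mn_shift hA (hper r) u]
    congr 1
    funext x
    rw [map_add, hur, hh x u hu]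
    have h2 : Ideal.Quotient.mk J x + r = r ↔ x ∈ J := by
      rw [add_eq_right, Ideal.Quotient.eq_zero_iff_mem]
    simp only [h2]
  have h2 : h = fun x => ∑ r : 𝓞 K ⧸ J, if Ideal.Quotient.mk J x = r then h x else 0 := by
    funext x
    rw [Finset.sum_ite_eq]
    simp
  conv_rhs => rw [h2]
  rw [mn_sum hA, Finset.sum_congr rfl fun r _ => h1 r, Finset.sum_const, Finset.card_univ,
    nsmul_eq_mul, ← Nat.card_eq_fintype_card, Ideal.absNorm_apply]
  rfl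

end Mean

section Norm

lemma norm_add_mul (m : ℕ) (x y : 𝓞 K) :
    ((Algebra.norm ℤ (x + (m : 𝓞 K) * y) : ℤ) : ZMod m) = ((Algebra.norm ℤ x : ℤ) : ZMod m) := by
  classical
  have key : ∀ z : 𝓞 K, ((Algebra.norm ℤ z : ℤ) : ZMod m) =
      ((Algebra.leftMulMatrix (RingOfIntegers.basis K) z).map (Int.castRingHom (ZMod m))).det := by
    intro z
    rw [Algebra.norm_eq_matrix_det (RingOfIntegers.basis K)]
    have := RingHom.map_det (Int.castRingHom (ZMod m))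
      (Algebra.leftMulMatrix (RingOfIntegers.basis K) z)
    exact this
  rw [key, key]
  congr 1
  have h1 : (m : 𝓞 K) * y = (m : ℤ) • y := by simp
  rw [h1, map_add, map_smul]
  ext i j
  rw [Matrix.map_apply, Matrix.map_apply, Matrix.add_apply, Matrix.smul_apply, smul_eq_mul,
    eq_intCast, eq_intCast]
  push_cast
  rw [ZMod.natCast_self, zero_mul, add_zero]

lemma norm_periodic (m : ℕ) (x a : 𝓞 K) (ha : a ∈ Ideal.span {(m : 𝓞 K)}) :
    ((Algebra.norm ℤ (x + a) : ℤ) : ZMod m) = ((Algebra.norm ℤ x : ℤ) : ZMod m) := by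
  obtain ⟨y, rfl⟩ := Ideal.mem_span_singleton'.mp ha
  rw [mul_comm y]
  exact norm_add_mul m x y

lemma char_nrm {m : ℕ} (χ : DirichletCharacter ℂ m) : ∃ σ : Bool, ∀ x : 𝓞 K, x ≠ 0 →
    χ (nrm K x : ZMod m) = (sg K σ x : ℂ) * χ ((Algebra.norm ℤ x : ℤ) : ZMod m) := by
  have key : ∀ (x : 𝓞 K), x ≠ 0 → (0 < Algebra.norm ℤ x ∧ (nrm K x : ZMod m) =
      ((Algebra.norm ℤ x : ℤ) : ZMod m)) ∨ (Algebra.norm ℤ x < 0 ∧ (nrm K x : ZMod m) =
      (-1) * ((Algebra.norm ℤ x : ℤ) : ZMod m)) := by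
    intro x hx
    have h0 : Algebra.norm ℤ x ≠ 0 := (Algebra.norm_ne_zero_iff (R := ℤ)).mpr hx
    have h1 : (nrm K x : ZMod m) = ((|Algebra.norm ℤ x| : ℤ) : ZMod m) := by
      rw [nrm, Int.abs_eq_natAbs]
      simp
    rcases lt_or_gt_of_ne h0 with h | h
    · right
      refine ⟨h, ?_⟩
      rw [h1, abs_of_neg h]
      push_cast
      ring
    · left
      refine ⟨h, ?_⟩
      rw [h1, abs_of_pos h]
  rcases χ.even_or_odd with h | h
  · refine ⟨false, fun x hx => ?_⟩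
    rcases key x hx with ⟨-, h2⟩ | ⟨-, h2⟩
    · rw [h2]; simp [sg]
    · rw [h2, map_mul, h]; simp [sg]
  · refine ⟨true, fun x hx => ?_⟩
    rcases key x hx with ⟨h1, h2⟩ | ⟨h1, h2⟩
    · rw [h2]; simp [sg, Int.sign_eq_one_of_pos h1]
    · rw [h2, map_mul, h]; simp [sg, Int.sign_eq_neg_one_of_neg h1]

end Norm

section Compare

variable {m : ℕ} (χ : DirichletCharacter ℂ m)

lemma char_norm_le (x : 𝓞 K) : ‖χ ((Algebra.norm ℤ x : ℤ) : ZMod m)‖ ≤ 1 := χ.norm_le_one _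

open scoped Classical in
lemma SJ_eq {σ : Bool} (hσ : ∀ x : 𝓞 K, x ≠ 0 →
    χ (nrm K x : ZMod m) = (sg K σ x : ℂ) * χ ((Algebra.norm ℤ x : ℤ) : ZMod m))
    (J : Ideal (𝓞 K)) (s : ℂ) : SJ K χ J s =
      ∑' x : 𝓞 K, (if x ∈ J then χ ((Algebra.norm ℤ x : ℤ) : ZMod m) else 0) * FF K σ s x := by
  unfold SJ
  refine tsum_congr fun x => ?_
  by_cases hx : x = 0
  · subst hx
    simp [FF, Lip.wt_zero]
  split_ifs
  · rw [hσ x hx, FF]
    ring
  · simp

theorem SJ_mul [NeZero m] (a J : Ideal (𝓞 K)) (ha : (absNorm a).Coprime m)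
    (hJ : (absNorm J).Coprime m) (hJ0 : J ≠ ⊥) (ha0 : a ≠ ⊥) :
    ∃ g : ℂ → ℂ, DifferentiableOn ℂ g (HP K) ∧
      ∀ s : ℂ, 1 < s.re → SJ K χ (a * J) s = SJ K χ J s / (absNorm a : ℂ) + g s := by
  classical
  obtain ⟨σ, hσ⟩ := char_nrm (K := K) χ
  set M : Ideal (𝓞 K) := Ideal.span {(m : 𝓞 K)} with hM
  have hM0 : M ≠ ⊥ := by
    rw [hM, Ne, Ideal.span_singleton_eq_bot]
    exact_mod_cast NeZero.ne m
  set A : Ideal (𝓞 K) := M * (a * J) with hA
  have haJ0 : a * J ≠ ⊥ := mul_ne_zero ha0 hJ0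
  have hA0 : A ≠ ⊥ := mul_ne_zero hM0 haJ0
  have hAM : A ≤ M := Ideal.mul_le_left
  have hAaJ : A ≤ a * J := Ideal.mul_le_right
  have haJJ : a * J ≤ J := Ideal.mul_le_right
  have hAJ : A ≤ J := hAaJ.trans haJJ
  set h : 𝓞 K → ℂ := fun x => χ ((Algebra.norm ℤ x : ℤ) : ZMod m) with hh
  have hper : ∀ x, ∀ y ∈ M, h (x + y) = h x := fun x y hy => by
    simp only [hh, norm_periodic m x y hy]
  have haJ : (absNorm (a * J)).Coprime m := by
    rw [map_mul]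
    exact Nat.Coprime.mul_left ha hJ
  have h1 := mn_ideal hA0 hAJ hAM (sup_eq_top_of_absNorm_coprime m J hJ) hper
  have h2 := mn_ideal hA0 hAaJ hAM (sup_eq_top_of_absNorm_coprime m (a * J) haJ) hper
  have ha1 : (absNorm a : ℂ) ≠ 0 := by
    rw [Nat.cast_ne_zero, Ne, Ideal.absNorm_eq_zero_iff]
    exact ha0
  have hJ1 : (absNorm J : ℂ) ≠ 0 := by
    rw [Nat.cast_ne_zero, Ne, Ideal.absNorm_eq_zero_iff]
    exact hJ0
  set k : 𝓞 K → ℂ := fun x => (absNorm a : ℂ)⁻¹ * (if x ∈ J then h x else 0) -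
    (if x ∈ a * J then h x else 0) with hk
  have hk0 : ∑ᶠ q : 𝓞 K ⧸ A, k (Quotient.out q) = 0 := by
    change mn A k = 0
    rw [hk, mn_sub hA0, mn_mul hA0]
    rw [← h1, map_mul] at h2
    push_cast at h2
    have h3 : (absNorm J : ℂ) * ((absNorm a : ℂ) * mn A (fun x => if x ∈ a * J then h x else 0)) =
        (absNorm J : ℂ) * mn A (fun x => if x ∈ J then h x else 0) := by
      rw [← h2]; ring
    have h4 := mul_left_cancel₀ hJ1 h3
    rw [← h4]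
    field_simp
    ring
  have hkper : ∀ x, ∀ y ∈ A, k (x + y) = k x := fun x y hy => by
    have e1 : x + y ∈ J ↔ x ∈ J := (Ideal.add_mem_iff_left J (hAJ hy))
    have e2 : x + y ∈ a * J ↔ x ∈ a * J := (Ideal.add_mem_iff_left (a * J) (hAaJ hy))
    simp only [hk, e1, e2, hper x y (hAM hy)]
  obtain ⟨g, hg, hgs⟩ := translation K σ A hA0 k hkper hk0
  refine ⟨fun s => -g s, hg.neg, fun s hs => ?_⟩
  have hF := FF_summable K σ hs
  have hsum : ∀ I : Ideal (𝓞 K), Summable fun x : 𝓞 K => (if x ∈ I then h x else 0) * FF K σ s x :=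
    fun I => by
      refine Summable.of_norm_bounded hF.norm fun x => ?_
      rw [norm_mul]
      refine mul_le_of_le_one_left (norm_nonneg _) ?_
      split_ifs
      · exact char_norm_le χ x
      · simp
  beta_reduce
  rw [hgs s hs, SJ_eq χ hσ, SJ_eq χ hσ]
  have h5 : ∑' x : 𝓞 K, k x * FF K σ s x =
      (absNorm a : ℂ)⁻¹ * ∑' x : 𝓞 K, (if x ∈ J then h x else 0) * FF K σ s x -
        ∑' x : 𝓞 K, (if x ∈ a * J then h x else 0) * FF K σ s x := by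
    rw [← tsum_mul_left, ← ((hsum J).mul_left _).tsum_sub (hsum (a * J))]
    refine tsum_congr fun x => ?_
    simp only [hk]
    ring
  rw [h5]
  ring

end Compare

end Pool.Agent.Work.MP_2b9663_nt
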