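import Pool.Agent.Work.MP_2b9663_nt.Perm

set_option autoImplicit false

/-!
The crossing trick: the permutation character of a cyclic subgroup `⟨c⟩` times the indicator function
of the fibre through `c` of a homomorphism to a commutative group which is injective on `⟨c⟩` is a
multiple of the indicator function of the conjugacy class of `c`.
-/

namespace Pool.Agent.Work.MP_2b9663_nt

open Finset

section

variable {G A : Type*} [Group G] [CommGroup A]

lemma conj_of_inv_conj {x y c : G} (h : y⁻¹ * x * y = c) : y * c * y⁻¹ = x := by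
  rw [← h]
  group

/-- the number of `y` which conjugate `x` to `c` is the order of the centralizer of `c`, if there is
one -/
lemma card_conj_to {c x : G} (h : IsConj c x) :
    Nat.card {y : G // y⁻¹ * x * y = c} = Nat.card (Subgroup.centralizer ({c} : Set G)) := by
  obtain ⟨w, hw⟩ := isConj_iff.mp h
  refine Nat.card_congr
    { toFun := fun y => ⟨w⁻¹ * y.1, ?_⟩
      invFun := fun z => ⟨w * z.1, ?_⟩
      left_inv := fun y => by simp
      right_inv := fun z => by simp }
  · rw [Subgroup.mem_centralizer_singleton_iff]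
    have h1 : y.1⁻¹ * x * y.1 = c := y.2
    have h3 : w * c * w⁻¹ = y.1 * c * y.1⁻¹ := hw.trans (conj_of_inv_conj h1).symm
    calc w⁻¹ * y.1 * c = w⁻¹ * (y.1 * c * y.1⁻¹) * y.1 := by group
      _ = w⁻¹ * (w * c * w⁻¹) * y.1 := by rw [h3]
      _ = c * (w⁻¹ * y.1) := by group
  · have h1 := z.2
    rw [Subgroup.mem_centralizer_singleton_iff] at h1
    rw [← hw]
    calc (w * z.1)⁻¹ * (w * c * w⁻¹) * (w * z.1) = z.1⁻¹ * (c * z.1) := by group
      _ = z.1⁻¹ * (z.1 * c) := by rw [h1]
      _ = c := by group

/-- **Crossing**, conjugate case -/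
theorem pc_zpowers_of_isConj (κ : G →* A) {c x : G}
    (hκ : ∀ u ∈ Subgroup.zpowers c, κ u = κ c → u = c) (h : IsConj c x) :
    pc (Subgroup.zpowers c) x * Nat.card (Subgroup.zpowers c) =
      Nat.card (Subgroup.centralizer ({c} : Set G)) := by
  rw [pc_mul_card, ← card_conj_to h]
  refine Nat.card_congr (Equiv.subtypeEquivRight fun y => ⟨fun h1 => ?_, fun h1 => ?_⟩)
  · refine hκ _ h1 ?_
    obtain ⟨w, hw⟩ := isConj_iff.mp h
    rw [← hw]
    simp only [map_mul, map_inv]
    rw [mul_comm (κ w) (κ c), mul_inv_cancel_right, mul_comm (κ y)⁻¹ (κ c), inv_mul_cancel_right]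
  · rw [h1]
    exact Subgroup.mem_zpowers c

/-- **Crossing**, the other case -/
theorem pc_zpowers_of_not_isConj [Finite G] (κ : G →* A) {c x : G}
    (hκ : ∀ u ∈ Subgroup.zpowers c, κ u = κ c → u = c) (hx : κ x = κ c) (h : ¬ IsConj c x) :
    pc (Subgroup.zpowers c) x = 0 := by
  have h1 : pc (Subgroup.zpowers c) x * Nat.card (Subgroup.zpowers c) = 0 := by
    rw [pc_mul_card, Nat.card_eq_zero]
    refine Or.inl ⟨fun y => h ?_⟩
    have h2 := hκ _ y.2 (by
      simp only [map_mul, map_inv]
      rw [mul_comm (κ y.1)⁻¹ (κ x), inv_mul_cancel_right, hx])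
    exact isConj_iff.mpr ⟨y.1, conj_of_inv_conj h2⟩
  rcases mul_eq_zero.mp h1 with h2 | h2
  · exact h2
  · exact absurd h2 Nat.card_pos.ne'

open scoped Classical in
/-- **Crossing**: the permutation character of `⟨c⟩` times the indicator function of the fibre of `κ`
through `c` is a multiple of the indicator function of the conjugacy class of `c`. -/
theorem cross [Finite G] (F : Type*) [Field F] [CharZero F] (κ : G →* A) {c : G}
    (hκ : ∀ u ∈ Subgroup.zpowers c, κ u = κ c → u = c) (x : G) :
    (if κ x = κ c then (pc (Subgroup.zpowers c) x : F) else 0) =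
      (Nat.card (Subgroup.centralizer ({c} : Set G)) : F) / (Nat.card (Subgroup.zpowers c) : F) *
        (if IsConj c x then 1 else 0) := by
  have h0 : (Nat.card (Subgroup.zpowers c) : F) ≠ 0 := Nat.cast_ne_zero.mpr Nat.card_pos.ne'
  by_cases h : IsConj c x
  · have h1 : κ x = κ c := by
      obtain ⟨w, hw⟩ := isConj_iff.mp h
      rw [← hw]
      simp only [map_mul, map_inv]
      rw [mul_comm (κ w) (κ c), mul_inv_cancel_right]
    rw [if_pos h1, if_pos h, mul_one, eq_div_iff h0, ← pc_zpowers_of_isConj κ hκ h]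
    push_cast
    rfl
  · rw [if_neg h, mul_zero]
    split_ifs with h1
    · rw [pc_zpowers_of_not_isConj κ hκ h1 h, Nat.cast_zero]
    · rfl

/-- the hypothesis of the crossing lemma, from injectivity -/
lemma cross_hyp_of_injOn (κ : G →* A) {c : G}
    (hκ : Set.InjOn κ (Subgroup.zpowers c : Set G)) :
    ∀ u ∈ Subgroup.zpowers c, κ u = κ c → u = c := fun _ hu h =>
  hκ hu (Subgroup.mem_zpowers c) h

/-- the hypothesis of the crossing lemma, from the orders -/
lemma cross_hyp_of_orderOf [Finite G] (κ : G →* A) {c : G} (h : orderOf (κ c) = orderOf c) :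
    ∀ u ∈ Subgroup.zpowers c, κ u = κ c → u = c := by
  intro u hu huc
  obtain ⟨k, rfl⟩ := Subgroup.mem_zpowers_iff.mp hu
  have h1 : (κ c) ^ k = (κ c) ^ (1 : ℤ) := by rw [← map_zpow, huc, zpow_one]
  have h2 := (zpow_eq_zpow_iff_modEq).mp h1
  rw [h] at h2
  have h3 := (zpow_eq_zpow_iff_modEq (x := c)).mpr h2
  rw [h3, zpow_one]

/-- if the order of `κ c` is a multiple of the order of `c` then they are equal -/
lemma orderOf_eq_of_dvd (κ : G →* A) {c : G} (h : orderOf c ∣ orderOf (κ c)) :
    orderOf (κ c) = orderOf c := Nat.dvd_antisymm (orderOf_map_dvd κ c) h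

/-- the number of elements of a conjugacy class times the order of the centralizer is the order of
the group -/
lemma card_isConj_mul [Finite G] (c : G) :
    Nat.card {x : G // IsConj c x} * Nat.card (Subgroup.centralizer ({c} : Set G)) = Nat.card G := by
  classical
  have h1 : Nat.card {p : G × G // p.2⁻¹ * p.1 * p.2 = c} = Nat.card G := by
    refine Nat.card_congr
      { toFun := fun p => p.1.2
        invFun := fun y => ⟨(y * c * y⁻¹, y), by
          change y⁻¹ * (y * c * y⁻¹) * y = c
          group⟩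
        left_inv := fun p => ?_
        right_inv := fun y => rfl }
    obtain ⟨⟨x, y⟩, hp⟩ := p
    have hp' : y⁻¹ * x * y = c := hp
    apply Subtype.ext
    refine Prod.ext ?_ rfl
    change y * c * y⁻¹ = x
    rw [← hp']
    group
  have h2 : Nat.card {p : G × G // p.2⁻¹ * p.1 * p.2 = c} =
      Nat.card (Σ x : {x : G // IsConj c x}, {y : G // y⁻¹ * x.1 * y = c}) := by
    refine Nat.card_congr
      { toFun := fun p => ⟨⟨p.1.1, ?_⟩, ⟨p.1.2, p.2⟩⟩
        invFun := fun q => ⟨(q.1.1, q.2.1), q.2.2⟩
        left_inv := fun p => rfl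
        right_inv := fun q => rfl }
    exact isConj_iff.mpr ⟨p.1.2, conj_of_inv_conj p.2⟩
  have h3 := Fintype.ofFinite G
  rw [← h1, h2, Nat.card_sigma, Finset.sum_congr rfl fun x _ => card_conj_to x.2,
    Finset.sum_const, Finset.card_univ, Nat.card_eq_fintype_card (α := {x : G // IsConj c x}),
    smul_eq_mul]

end

end Pool.Agent.Work.MP_2b9663_nt
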