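import Pool.Agent.Work.MP_2b9663_nt.Inv

set_option autoImplicit false

/-!
ARTIN (MP_2b9663_nt), G5: the traces on the parts of the cohomology of a product of hyperelliptic
curves, for all primes of good reduction.
-/

namespace Pool.Agent.Work.MP_2b9663_nt

open Polynomial NumberField

/-- The data of a product of hyperelliptic curves at one prime of good reduction. -/
theorem curve_data_at {r : ℕ} {f : Fin r → ℤ[X]} (hf : ∀ j, IsCurve (f j)) (i : ℕ)
    {p : Nat.Primes} (hg : Good f (fun _ => 1) p) {k : ℕ} (hk : k ≠ 0) :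
    curveTrace f i ∅ p k = curveBetti f i ∅ * Real.sqrt (((p : ℕ) : ℝ) ^ k) ^ i ∧
      ∀ S, |curveTrace f i S p k| ≤ curveBetti f i S * Real.sqrt (((p : ℕ) : ℝ) ^ k) ^ i := by
  classical
  have hp0 : (0 : ℝ) < ((p : ℕ) : ℝ) := by exact_mod_cast p.2.pos
  have hq0 : (0 : ℝ) ≤ ((p : ℕ) : ℝ) ^ k := (pow_pos hp0 k).le
  have hcard : (Nat.card (Fq p k) : ℝ) = ((p : ℕ) : ℝ) ^ k := by
    rw [card_Fq p hk]
    push_cast
    rfl
  have hsq : ∀ e : ℕ, Real.sqrt (((p : ℕ) : ℝ) ^ k) ^ (2 * e) = ((p : ℕ) : ℝ) ^ (k * e) := by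
    intro e
    rw [pow_mul, Real.sq_sqrt hq0, ← pow_mul]
  constructor
  · rw [curveTrace, curveBetti]
    simp only [Finset.card_empty, Nat.zero_le, true_and, Nat.sub_zero, Finset.prod_empty, one_mul]
    split_ifs with h
    · obtain ⟨e, rfl⟩ := h
      have h1 : (e + e) / 2 = e := by omega
      rw [h1, show e + e = 2 * e by ring, hsq]
    · simp
  · intro S
    rw [curveTrace, curveBetti]
    split_ifs with h
    · obtain ⟨h1, e, he⟩ := h
      have h2 : (i - S.card) / 2 = e := by omega
      have h3 : i = S.card + 2 * e := by omega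
      have h4 : |∏ j ∈ S, (traceOne (f j) 1 (Fq p k) : ℝ)| ≤
          (∏ j ∈ S, ((2 * genus (f j) : ℕ) : ℝ)) * Real.sqrt (((p : ℕ) : ℝ) ^ k) ^ S.card := by
        rw [Finset.abs_prod, ← Finset.prod_const, ← Finset.prod_mul_distrib]
        refine Finset.prod_le_prod (fun j _ => abs_nonneg _) fun j _ => ?_
        have h5 := nx_le hf hg hk j
        have hs : 0 < Real.sqrt (Nat.card (Fq p k)) := by
          rw [hcard]
          exact Real.sqrt_pos.mpr (pow_pos hp0 k)
        rw [nx, abs_div, abs_of_pos hs, div_le_iff₀ hs, hcard] at h5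
        exact h5
      rw [abs_mul, abs_of_nonneg (a := ((r - S.card).choose ((i - S.card) / 2) : ℝ) * _)
        (by positivity), h2]
      conv_rhs => rw [h3, pow_add, hsq]
      push_cast
      calc _ ≤ ((∏ j ∈ S, ((2 * genus (f j) : ℕ) : ℝ)) * Real.sqrt (((p : ℕ) : ℝ) ^ k) ^ S.card) *
            (((r - S.card).choose e : ℝ) * ((p : ℕ) : ℝ) ^ (k * e)) :=
            mul_le_mul_of_nonneg_right h4 (by positivity)
        _ = _ := by
            push_cast
            ring
    · simp

/-- The data of a product of hyperelliptic curves: the Weil bound on every part of the group of the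
hyperelliptic involutions, and the part spanned by algebraic cycles. -/
theorem curve_data' {r : ℕ} {f : Fin r → ℤ[X]} (hf : ∀ j, IsCurve (f j)) (i : ℕ) :
    (∀ S, WeilBound (Good f fun _ => 1) (fun p k => (curveTrace f i S p k : ℂ)) i
      (curveBetti f i S)) ∧
    ∀ p, Good f (fun _ => 1) p → ∀ k : ℕ, k ≠ 0 →
      (curveTrace f i ∅ p k : ℂ) = curveBetti f i ∅ * Real.sqrt (((p : ℕ) : ℝ) ^ k) ^ i := by
  refine ⟨fun S p hp k hk => ?_, fun p hp k hk => ?_⟩
  · have h := (curve_data_at hf i hp hk).2 S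
    rw [Complex.norm_real, Real.norm_eq_abs]
    exact h
  · rw [(curve_data_at hf i hp hk).1]
    push_cast
    rfl

end Pool.Agent.Work.MP_2b9663_nt
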