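import Pool.Agent.Work.MP_2b9663_nt.Ch.DefsTwist

set_option autoImplicit false

/-!
The statements on the orders of the `L`-functions of all twists by Artin representations and over
all number fields.
-/

namespace Pool.Agent.Work.MP_2b9663_nt

open NumberField

section

variable {Ω : Type} [Field Ω] [CharZero Ω]

/-- the inner product of the functions `f` and `g` of finite level is `x`: the mean value of
`f h * conj (g h)` over all `h` in `Gal(L/ℚ)`, for a Galois number field `L` -/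
def InnerVal (f g : (Ω ≃ₐ[ℚ] Ω) → ℂ) (x : ℂ) : Prop :=
  ∃ L : IntermediateField ℚ Ω, NumberField L ∧ IsGalois ℚ L ∧ Lvl L f ∧ Lvl L g ∧
    meanAt L (fun h => f h * (starRingEnd ℂ) (g h)) = x

/-- `χ` is the character of an irreducible representation of the Galois group of `M` -/
def IsIrrChar (M : IntermediateField ℚ Ω) (χ : (Ω ≃ₐ[ℚ] Ω) → ℂ) : Prop :=
  ∃ R : ArtinRep Ω, R.Irr ∧ (∀ g ∈ M.fixingSubgroup, R.ρ g = 1) ∧ R.char = χ

/-- The `L`-function of the traces `t p k` twisted by the character `φ` extends meromorphically to a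
neighbourhood of `s₀ = i / 2 + 1`, and has the order `m` there. Here `φ` is either the character of an
Artin representation `R`, and the `L`-function is that of `t` twisted by `R`; or `φ g` is the number
of the embeddings of a number field `K` fixed by `g`, and the `L`-function is that of `t` over `K`
(the Artin representation is in this case induced from the trivial one over `K`). -/
def OrdChar (G : Nat.Primes → Prop) (t : Nat.Primes → ℕ → ℂ) (i : ℕ) (φ : (Ω ≃ₐ[ℚ] Ω) → ℂ)
    (m : ℤ) : Prop :=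
  ∃ F : ℂ → ℂ, meromorphicOrderAt F ((i : ℂ) / 2 + 1) = m ∧
    ((∃ R : ArtinRep Ω, φ = R.char ∧ IsArtinContinuation G t i R ((i : ℂ) / 2 + 1) F) ∨
      ∃ K : IntermediateField ℚ Ω, NumberField K ∧ (φ = fun g => (fixEmb K Ω g : ℂ)) ∧
        IsContinuationNF G t i K F)

variable (Ω) in
/-- the orders at `s₀` of these `L`-functions are finite, if they extend meromorphically to a
neighbourhood of `s₀` -/
def FiniteOrdChar (G : Nat.Primes → Prop) (t : Nat.Primes → ℕ → ℂ) (i : ℕ) : Prop :=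
  ∀ F : ℂ → ℂ, ((∃ R : ArtinRep Ω, IsArtinContinuation G t i R ((i : ℂ) / 2 + 1) F) ∨
      ∃ K : IntermediateField ℚ Ω, NumberField K ∧ IsContinuationNF G t i K F) →
    ∃ m : ℤ, meromorphicOrderAt F ((i : ℂ) / 2 + 1) = m

variable (Ω) in
/-- For every `r` there is a Galois number field `M` such that the orders at `s₀` of the twists of `t`
by the characters `φ` with `⟨φ, φ⟩ ≤ r` (of Artin representations or number fields), as far as they
extend meromorphically to a neighbourhood of `s₀`, depend only on the inner products of `φ` and the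
irreducible characters of `Gal(M/ℚ)`; the order is zero if these inner products are zero. -/
def StableChar (G : Nat.Primes → Prop) (t : Nat.Primes → ℕ → ℂ) (i : ℕ) : Prop :=
  ∀ r : ℕ, ∃ M : IntermediateField ℚ Ω, NumberField M ∧ IsGalois ℚ M ∧
    (∀ (φ φ' : (Ω ≃ₐ[ℚ] Ω) → ℂ) (m m' : ℤ), (∃ n : ℕ, n ≤ r ∧ InnerVal φ φ n) →
      (∃ n : ℕ, n ≤ r ∧ InnerVal φ' φ' n) → OrdChar G t i φ m → OrdChar G t i φ' m' →
      (∀ χ, IsIrrChar M χ → ∃ x : ℂ, InnerVal φ χ x ∧ InnerVal φ' χ x) → m = m') ∧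
    ∀ (φ : (Ω ≃ₐ[ℚ] Ω) → ℂ) (m : ℤ), (∃ n : ℕ, n ≤ r ∧ InnerVal φ φ n) → OrdChar G t i φ m →
      (∀ χ, IsIrrChar M χ → InnerVal φ χ 0) → m = 0

variable (Ω) in
/-- Let `E` be a Galois extension of `ℚ` in `Ω`, finite or infinite, for instance `Ω`. If the twists
of `t` by all irreducible characters of the Galois group of `E` extend meromorphically to
neighbourhoods of `s₀`, then the order is zero for all but at most `b ^ 2` of them, and there are a
Galois number field `M` in `E` and an integral combination `f = ∑ r χ * χ` of irreducible characters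
`χ` of `Gal(M/ℚ)` such that `∑ r χ ^ 2 ≤ b ^ 2` and `|f g| ≤ b` for all `g`, and such that the order
at `s₀` of the twist of `t` by a character `φ` of the Galois group of `E` (of an Artin
representation, or of a number field in `E`) is `- ⟨f, φ⟩`. The order of `t` over a number field `K`
in `E` depends only on the intersection of `K` and `M`. -/
def VirtualChar (G : Nat.Primes → Prop) (t : Nat.Primes → ℕ → ℂ) (i b : ℕ) : Prop :=
  ∀ (E : IntermediateField ℚ Ω) [IsGalois ℚ E],
    (∀ χ, IsIrrChar E χ → ∃ m : ℤ, OrdChar G t i χ m) →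
    {χ | IsIrrChar E χ ∧ ∃ m : ℤ, OrdChar G t i χ m ∧ m ≠ 0}.encard ≤ (b ^ 2 : ℕ) ∧
    ∃ (M : IntermediateField ℚ Ω) (s : Finset ((Ω ≃ₐ[ℚ] Ω) → ℂ)) (r : ((Ω ≃ₐ[ℚ] Ω) → ℂ) → ℤ),
      NumberField M ∧ IsGalois ℚ M ∧ M ≤ E ∧ (∀ χ ∈ s, IsIrrChar M χ) ∧
      ∑ χ ∈ s, r χ ^ 2 ≤ (b : ℤ) ^ 2 ∧ (∀ g, ‖∑ χ ∈ s, (r χ : ℂ) * χ g‖ ≤ b) ∧
      (∀ (φ : (Ω ≃ₐ[ℚ] Ω) → ℂ) (m : ℤ), Lvl E φ → OrdChar G t i φ m →
        InnerVal (fun g => ∑ χ ∈ s, (r χ : ℂ) * χ g) φ (-(m : ℂ))) ∧
      ∀ (K K' : IntermediateField ℚ Ω) [NumberField K] [NumberField K'] (m m' : ℤ), K ≤ E →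
        K' ≤ E → OrdChar G t i (fun g => (fixEmb K Ω g : ℂ)) m →
        OrdChar G t i (fun g => (fixEmb K' Ω g : ℂ)) m' → K ⊓ M = K' ⊓ M → m = m'

end

end Pool.Agent.Work.MP_2b9663_nt
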