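import Pool.Agent.Work.MP_2b9663_nt.Ch.DefsMain

set_option autoImplicit false

/-!
The mean inequality and Bessel's inequality for single twists.
-/

namespace Pool.Agent.Work.MP_2b9663_nt

open NumberField

section

variable {Ω : Type} [Field Ω] [CharZero Ω]

variable (Ω) in
/-- The mean inequality: for Artin representations `R j` and number fields `K l` of level `L`, such
that the twist of `t` by `R j` has the order `m j` at `s₀` and `t` over `K l` has the order `m' l`,
the absolute value of `∑ c j * m j + ∑ c' l * m' l` is at most `b` times the mean value of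
`|∑ c j * χ j g + ∑ c' l * fix l g|` over all `g` in `Gal(L/ℚ)`, where `χ j` is the character of
`R j` and `fix l g` is the number of the embeddings of `K l` in `Ω` fixed by `g`. -/
def MeanInequality (G : Nat.Primes → Prop) (t : Nat.Primes → ℕ → ℂ) (i b : ℕ) : Prop :=
  ∀ (L : IntermediateField ℚ Ω) [NumberField L] [IsGalois ℚ L] (ι ι' : Type) (s : Finset ι)
    (s' : Finset ι') (R : ι → ArtinRep Ω) (K : ι' → IntermediateField ℚ Ω) (m : ι → ℤ)
    (m' : ι' → ℤ) (c : ι → ℂ) (c' : ι' → ℂ),
    (∀ j ∈ s, OrdArtin G t i (R j) 0 (m j) ∧ ∀ g ∈ L.fixingSubgroup, (R j).ρ g = 1) →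
    (∀ l ∈ s', OrdField G t i (K l) (m' l) ∧ K l ≤ L) →
    ‖∑ j ∈ s, c j * m j + ∑ l ∈ s', c' l * m' l‖ ≤
      b * (meanAt L fun g => ((‖∑ j ∈ s, c j * (R j).char g +
        ∑ l ∈ s', c' l * fixEmb (K l) Ω g‖ : ℝ) : ℂ)).re

variable (Ω) in
/-- Bessel's inequality on the line `Re s = s₀`: let the twists of `t` by irreducible Artin
representations `R j` have the orders `m j` at the points `s₀ + i (y j)`, let the pairs `(R j, y j)`
be different (up to isomorphism), and let `K₀` be a Galois number field such that the characters of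
the `R j` vanish at the automorphisms not over `K₀`, for instance because `K₀ = ℚ` or because the
`R j` are induced from `K₀`. Then the sum of the squares of the `m j` is at most
`b ^ 2 / [K₀ : ℚ]`. -/
def EdgeBessel (G : Nat.Primes → Prop) (t : Nat.Primes → ℕ → ℂ) (i b : ℕ) : Prop :=
  ∀ (K₀ : IntermediateField ℚ Ω) [NumberField K₀] [IsGalois ℚ K₀] (ι : Type) (s : Finset ι)
    (R : ι → ArtinRep Ω) (y : ι → ℝ) (m : ι → ℤ),
    (∀ j ∈ s, (R j).Irr ∧ (∀ g, g ∉ K₀.fixingSubgroup → (R j).char g = 0) ∧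
      OrdArtin G t i (R j) (y j) (m j)) →
    (∀ j ∈ s, ∀ l ∈ s, j ≠ l → y j = y l → (R j).char ≠ (R l).char) →
    (Module.finrank ℚ K₀ : ℤ) * ∑ j ∈ s, m j ^ 2 ≤ (b : ℤ) ^ 2

end

end Pool.Agent.Work.MP_2b9663_nt
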