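import Pool.Agent.Work.MP_2b9663_nt.Ch.DefsMain

set_option autoImplicit false

/-!
Families of sums of twists by Artin representations.
-/

namespace Pool.Agent.Work.MP_2b9663_nt

open NumberField

section

variable {Ω : Type} [Field Ω] [CharZero Ω]

/-- `F` is a meromorphic continuation to a neighbourhood of `s₁` of the `L`-function of the direct sum
of `V₀ ⊗ R₀` and the `V j ⊗ R j`, where `R₀` and `R j` are Artin representations, and `t₀ p k` and
`t j p k` are the traces of the `k`-th power of the geometric Frobenius at `p` on representations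
`V₀` and `V j` of the Galois group; `Fr p` is a geometric Frobenius element at `p`, the inverse of an
element `g` with `g x ≡ x ^ p`. -/
def IsSumContinuation {κ : Type} [Fintype κ] (G : Nat.Primes → Prop) (t₀ : Nat.Primes → ℕ → ℂ)
    (t : κ → Nat.Primes → ℕ → ℂ) (i : ℕ) (R₀ : ArtinRep Ω) (R : κ → ArtinRep Ω) (s₁ : ℂ)
    (F : ℂ → ℂ) : Prop :=
  (∃ Fr : Nat.Primes → (Ω ≃ₐ[ℚ] Ω), (∀ p : Nat.Primes, IsFrob (p : ℕ) (Fr p)⁻¹) ∧
    IsEulerAt (fun p => G p ∧ R₀.Unr (p : ℕ) ∧ ∀ j, (R j).Unr (p : ℕ))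
      (fun p k => t₀ p k * R₀.char (Fr p ^ k) + ∑ j, t j p k * (R j).char (Fr p ^ k)) i s₁ F) ∧
    MeromorphicAt F s₁

/-- `n` is the order at the point `s₀ + i y`, `s₀ = i / 2 + 1`, of the `L`-function of `V₀ ⊗ R₀`, where
`t₀ p k` are the traces of the powers of the geometric Frobenius on `V₀`: either this `L`-function
extends meromorphically to a neighbourhood of this point, with the order `n`; or `V₀` is spanned by
`b₀` classes of algebraic cycles over `ℚ`, and `n` is minus the product of `b₀` and the multiplicity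
of the trivial representation in `R₀` (the mean value of `tr R₀ g` over `Gal(L/ℚ)`, for a Galois
number field `L` over which `R₀` is trivial) if `y = 0`, and `n = 0` if `y ≠ 0`. In particular this
holds with `n = 0` if `V₀ = 0`. -/
def OrdFixed (G : Nat.Primes → Prop) (t₀ : Nat.Primes → ℕ → ℂ) (i : ℕ) (R₀ : ArtinRep Ω) (y : ℝ)
    (n : ℤ) : Prop :=
  OrdArtin G t₀ i R₀ y n ∨
    ∃ b₀ : ℕ, (∀ p, G p → ∀ k : ℕ, k ≠ 0 → t₀ p k = b₀ * Real.sqrt (((p : ℕ) : ℝ) ^ k) ^ i) ∧
      (y = 0 → ∃ L : IntermediateField ℚ Ω, NumberField L ∧ IsGalois ℚ L ∧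
        (∀ g ∈ L.fixingSubgroup, R₀.ρ g = 1) ∧ (n : ℂ) = -(b₀ * meanAt L R₀.char)) ∧
      (y ≠ 0 → n = 0)

variable (Ω) in
/-- The mean inequality for a family of sums of twists, at a point `s₀ + i y`, `s₀ = i / 2 + 1`: let
the `L`-functions of the sums of `V₀ ⊗ R₀ a` and of the `V j ⊗ R a j` have the orders `m a`, and
those of `V₀ ⊗ R₀ a` the orders `n a`, and let `d j` be the dimension of `V j`. Then the absolute
value of `∑ c a * (m a - n a)` is at most the sum of the products of `d j` and the mean value of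
`|∑ c a * tr (R a j g)|` over all `g` in `Gal(L/ℚ)`. -/
def FamilyMean {κ : Type} [Fintype κ] (G : Nat.Primes → Prop) (t₀ : Nat.Primes → ℕ → ℂ)
    (t : κ → Nat.Primes → ℕ → ℂ) (i : ℕ) (d : κ → ℕ) : Prop :=
  ∀ (L : IntermediateField ℚ Ω) [NumberField L] [IsGalois ℚ L] (ι : Type) (s : Finset ι)
    (R₀ : ι → ArtinRep Ω) (R : ι → κ → ArtinRep Ω) (y : ℝ) (F : ι → ℂ → ℂ) (m n : ι → ℤ)
    (c : ι → ℂ),
    (∀ a ∈ s, IsSumContinuation G t₀ t i (R₀ a) (R a) ((i : ℂ) / 2 + 1 + Complex.I * y) (F a) ∧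
      meromorphicOrderAt (F a) ((i : ℂ) / 2 + 1 + Complex.I * y) = m a ∧
      OrdFixed G t₀ i (R₀ a) y (n a) ∧ ∀ j, ∀ g ∈ L.fixingSubgroup, (R a j).ρ g = 1) →
    ‖∑ a ∈ s, c a * (m a - n a)‖ ≤ ∑ j, d j * (meanAt L fun g =>
      ((‖∑ a ∈ s, c a * (R a j).char g‖ : ℝ) : ℂ)).re

variable (Ω) in
/-- Bessel's inequality for a family of sums of twists: let the `L`-function of the sum of
`V₀ ⊗ R₀ a` and of the `V j ⊗ R a j` extend meromorphically to a neighbourhood of the point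
`s₀ + i (y a)`, `s₀ = i / 2 + 1`, let `m a` be its order and `n a` the order of the `L`-function of
`V₀ ⊗ R₀ a` there, and let `d j` be the dimension of `V j`. If, for all `j` with `d j ≠ 0`, the
`R a j` are irreducible, the pairs `(R a j, y a)` are different (up to isomorphism), and the
characters of the `R a j` vanish at the automorphisms not over the Galois number field `K₀` (for
instance because `K₀ = ℚ` or because the `R a j` are induced from `K₀`), then the sum of the squares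
of the `m a - n a` is at most `(∑ d j) ^ 2 / [K₀ : ℚ]`, and `m a = n a` for all but at most
`(∑ d j) ^ 2 / [K₀ : ℚ]` of the `a`. -/
def FamilyBessel {κ : Type} [Fintype κ] (G : Nat.Primes → Prop) (t₀ : Nat.Primes → ℕ → ℂ)
    (t : κ → Nat.Primes → ℕ → ℂ) (i : ℕ) (d : κ → ℕ) : Prop :=
  ∀ (K₀ : IntermediateField ℚ Ω) [NumberField K₀] [IsGalois ℚ K₀] (ι : Type)
    (R₀ : ι → ArtinRep Ω) (R : ι → κ → ArtinRep Ω) (y : ι → ℝ) (F : ι → ℂ → ℂ) (n : ι → ℤ),
    (∀ a, IsSumContinuation G t₀ t i (R₀ a) (R a) ((i : ℂ) / 2 + 1 + Complex.I * y a) (F a) ∧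
      OrdFixed G t₀ i (R₀ a) (y a) (n a)) →
    (∀ j, d j ≠ 0 → (∀ a, (R a j).Irr ∧ ∀ g, g ∉ K₀.fixingSubgroup → (R a j).char g = 0) ∧
      ∀ a a', a ≠ a' → y a = y a' → (R a j).char ≠ (R a' j).char) →
    ∃ m : ι → ℤ,
      (∀ a, meromorphicOrderAt (F a) ((i : ℂ) / 2 + 1 + Complex.I * y a) = m a) ∧
      (∀ s : Finset ι, (Module.finrank ℚ K₀ : ℤ) * ∑ a ∈ s, (m a - n a) ^ 2 ≤
        ((∑ j, d j : ℕ) : ℤ) ^ 2) ∧
      {a | m a ≠ n a}.encard ≤ ((∑ j, d j) ^ 2 / Module.finrank ℚ K₀ : ℕ)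

end

end Pool.Agent.Work.MP_2b9663_nt
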