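import Pool.Agent.Work.MP_2b9663_nt.Ch.DefsTwist

set_option autoImplicit false

/-!
Twisted forms of varieties with an action of a finite group.
-/

namespace Pool.Agent.Work.MP_2b9663_nt

open NumberField

section

variable {Ω : Type} [Field Ω] [CharZero Ω]

/-- a homomorphism from the group of the automorphisms of `Ω` over the number field `K` to the group
`A`, trivial on the automorphisms which fix all elements of some number field `M` -/
structure TwistHom (K : IntermediateField ℚ Ω) (A : Type) [Group A] where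
  hom : K.fixingSubgroup →* A
  level : ∃ M : IntermediateField ℚ Ω, FiniteDimensional ℚ M ∧
    ∀ g : K.fixingSubgroup, (g : Ω ≃ₐ[ℚ] Ω) ∈ M.fixingSubgroup → hom g = 1

open scoped Classical in
/-- The character of the representation of the automorphism group of `Ω` induced from the
representation `σ ∘ ξ` of the group of the automorphisms over `K`, where `σ` is a representation of
`A` with the character `χ`. -/
noncomputable def indChar {K : IntermediateField ℚ Ω} {A : Type} [Group A] (ξ : TwistHom K A)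
    (χ : A → ℂ) (g : Ω ≃ₐ[ℚ] Ω) : ℂ :=
  ∑ᶠ c : (Ω ≃ₐ[ℚ] Ω) ⧸ K.fixingSubgroup,
    if h : c.out⁻¹ * g * c.out ∈ K.fixingSubgroup then χ (ξ.hom ⟨c.out⁻¹ * g * c.out, h⟩) else 0

/-- `p` is unramified in `K` and in the extension of `K` defined by the kernel of `ξ`: the inertia
groups at `p` are contained in this kernel -/
def TwistHom.Unr {K : IntermediateField ℚ Ω} {A : Type} [Group A] (ξ : TwistHom K A) (p : ℕ) :
    Prop :=
  ∀ 𝔓 : Ideal (𝓞 Ω), 𝔓.IsPrime → ((p : ℕ) : 𝓞 Ω) ∈ 𝔓 →
    ∀ g : Ω ≃ₐ[ℚ] Ω, (∀ x : 𝓞 Ω, g • x - x ∈ 𝔓) → ∃ h : g ∈ K.fixingSubgroup, ξ.hom ⟨g, h⟩ = 1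

/-- Let the finite group `A` act on the smooth projective variety `X` over `ℚ`, and let
`H ^ i (X)` be the direct sum of a representation `V₀` of the Galois group on which `A` acts
trivially and of the `σ j ⊗ V j`, with representations `σ j` of `A` with the characters `χ j` and
representations `V j` of the Galois group; `t₀ p k` and `t j p k` are the traces of the `k`-th power
of the geometric Frobenius at `p` on `V₀` and `V j`. Let `X_ξ` be the twist of `X` over `K` by `ξ`,
regarded as a variety over `ℚ`: `H ^ i (X_ξ)` is the direct sum of the representations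
`Ind 1 ⊗ V₀` and `Ind (σ j ∘ ξ) ⊗ V j`, induced from the automorphisms over `K`. `F` is a
meromorphic continuation of the `L`-function of `H ^ i (X_ξ)` to a neighbourhood of
`s₀ = i / 2 + 1`; `Fr p` is a geometric Frobenius element at `p`, the inverse of an element `g` with
`g x ≡ x ^ p`. -/
def IsFormContinuation {κ : Type} [Fintype κ] {A : Type} [Group A] (G : Nat.Primes → Prop)
    (t₀ : Nat.Primes → ℕ → ℂ) (t : κ → Nat.Primes → ℕ → ℂ) (χ : κ → A → ℂ) (i : ℕ)
    {K : IntermediateField ℚ Ω} (ξ : TwistHom K A) (F : ℂ → ℂ) : Prop :=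
  (∃ Fr : Nat.Primes → (Ω ≃ₐ[ℚ] Ω), (∀ p : Nat.Primes, IsFrob (p : ℕ) (Fr p)⁻¹) ∧
    IsEuler (fun p => G p ∧ ξ.Unr (p : ℕ))
      (fun p k => indChar ξ (fun _ => 1) (Fr p ^ k) * t₀ p k +
        ∑ j, indChar ξ (χ j) (Fr p ^ k) * t j p k) i F) ∧
    MeromorphicAt F ((i : ℂ) / 2 + 1)

/-- `m` is the order at `s₀ = i / 2 + 1` of the `L`-function of `V₀` over `K`, where `t₀ p k` are the
traces of the Frobenius elements on `V₀`: either this `L`-function extends meromorphically to a
neighbourhood of `s₀`, with order `m`; or `V₀` is spanned by `b₀` classes of algebraic cycles over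
`ℚ`, and `m = -b₀`. -/
def IsFixedOrder (G : Nat.Primes → Prop) (t₀ : Nat.Primes → ℕ → ℂ) (i : ℕ)
    (K : IntermediateField ℚ Ω) (m : ℤ) : Prop :=
  (∃ F : ℂ → ℂ, IsContinuationNF G t₀ i K F ∧ meromorphicOrderAt F ((i : ℂ) / 2 + 1) = m) ∨
    ∃ b₀ : ℕ, (∀ p, G p → ∀ k : ℕ, k ≠ 0 → t₀ p k = b₀ * Real.sqrt (((p : ℕ) : ℝ) ^ k) ^ i) ∧
      m = -(b₀ : ℤ)

/-- The functions `f a` are of finite level and orthonormal. If they are the characters of
representations of the automorphism group of `Ω` this says that these representations are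
irreducible and not isomorphic to each other. -/
def OrthoChar {ι : Type} (f : ι → (Ω ≃ₐ[ℚ] Ω) → ℂ) : Prop :=
  ∀ a b, ∃ L : IntermediateField ℚ Ω, FiniteDimensional ℚ L ∧ IsGalois ℚ L ∧ Lvl L (f a) ∧
    Lvl L (f b) ∧ (a = b → meanAt L (fun g => f a g * (starRingEnd ℂ) (f b g)) = 1) ∧
    (a ≠ b → meanAt L (fun g => f a g * (starRingEnd ℂ) (f b g)) = 0)

end

end Pool.Agent.Work.MP_2b9663_nt
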