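import Pool.Agent.Work.MP_2b9663_nt.Ch.DefsTwist

set_option autoImplicit false

/-!
The statements on twists by Artin representations.
-/

namespace Pool.Agent.Work.MP_2b9663_nt

open NumberField

section

variable {Ω : Type} [Field Ω] [CharZero Ω]

/-- the `L`-function of the traces `t p k` twisted by `R` extends meromorphically to a neighbourhood
of `s₀ + i y`, `s₀ = i / 2 + 1`, and has the order `m` there -/
def OrdArtin (G : Nat.Primes → Prop) (t : Nat.Primes → ℕ → ℂ) (i : ℕ) (R : ArtinRep Ω) (y : ℝ)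
    (m : ℤ) : Prop :=
  ∃ F : ℂ → ℂ, IsArtinContinuation G t i R ((i : ℂ) / 2 + 1 + Complex.I * y) F ∧
    meromorphicOrderAt F ((i : ℂ) / 2 + 1 + Complex.I * y) = m

/-- the `L`-function of the traces `t p k` over the number field `K` extends meromorphically to a
neighbourhood of `s₀ = i / 2 + 1`, and has the order `m` there -/
def OrdField (G : Nat.Primes → Prop) (t : Nat.Primes → ℕ → ℂ) (i : ℕ) (K : IntermediateField ℚ Ω)
    (m : ℤ) : Prop :=
  ∃ F : ℂ → ℂ, IsContinuationNF G t i K F ∧ meromorphicOrderAt F ((i : ℂ) / 2 + 1) = m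

variable (Ω) in
/-- If these `L`-functions extend meromorphically, then their orders are finite. -/
def FiniteOrders (G : Nat.Primes → Prop) (t : Nat.Primes → ℕ → ℂ) (i : ℕ) : Prop :=
  (∀ (R : ArtinRep Ω) (y : ℝ) (F : ℂ → ℂ),
    IsArtinContinuation G t i R ((i : ℂ) / 2 + 1 + Complex.I * y) F → ∃ m : ℤ,
      meromorphicOrderAt F ((i : ℂ) / 2 + 1 + Complex.I * y) = m) ∧
  ∀ (K : IntermediateField ℚ Ω) [NumberField K] (F : ℂ → ℂ), IsContinuationNF G t i K F →
    ∃ m : ℤ, meromorphicOrderAt F ((i : ℂ) / 2 + 1) = m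

variable (Ω) in
/-- Let `E` be a Galois extension of `ℚ` in `Ω`, finite or infinite, for instance `Ω`. If the twists
of `t` by all irreducible Artin representations trivial over `E` extend meromorphically to
neighbourhoods of `s₀`, then there are a Galois number field `M` in `E` and an integral combination
`f = ∑ r χ * χ` of irreducible characters `χ` of `Gal(M/ℚ)` such that `∑ r χ ^ 2 ≤ b ^ 2` and
`|f g| ≤ b` for all `g`, and such that the order at `s₀` of the twist of `t` by any Artin
representation `R` trivial over `E` is minus the inner product of `f` and the character of `R`, the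
mean value of `f g * conj (tr R g)`, and the order at `s₀` of `t` over any number field `K` in `E` is
minus the mean value of `f g * fix g`, which is the mean value of `f` over the automorphisms over `K`
(the mean values are taken over `Gal(L/ℚ)` for any Galois number field `L` in `E` containing `M`
over which `R` is trivial, or `K ≤ L`). The order over `K` depends only on the intersection of `K`
and `M`. -/
def VirtualRep (G : Nat.Primes → Prop) (t : Nat.Primes → ℕ → ℂ) (i b : ℕ) : Prop :=
  ∀ (E : IntermediateField ℚ Ω) [IsGalois ℚ E],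
    (∀ R : ArtinRep Ω, R.Irr → (∀ g ∈ E.fixingSubgroup, R.ρ g = 1) →
      ∃ m : ℤ, OrdArtin G t i R 0 m) →
    ∃ (M : IntermediateField ℚ Ω) (s : Finset ((Ω ≃ₐ[ℚ] Ω) → ℂ)) (r : ((Ω ≃ₐ[ℚ] Ω) → ℂ) → ℤ),
      NumberField M ∧ IsGalois ℚ M ∧ M ≤ E ∧
      (∀ χ ∈ s, ∃ R : ArtinRep Ω, R.Irr ∧ R.char = χ ∧ ∀ g ∈ M.fixingSubgroup, R.ρ g = 1) ∧
      ∑ χ ∈ s, r χ ^ 2 ≤ (b : ℤ) ^ 2 ∧ (∀ g, ‖∑ χ ∈ s, (r χ : ℂ) * χ g‖ ≤ b) ∧
      (∀ (L : IntermediateField ℚ Ω) [NumberField L] [IsGalois ℚ L], M ≤ L → L ≤ E →
        (∀ (R : ArtinRep Ω) (m : ℤ), (∀ g ∈ L.fixingSubgroup, R.ρ g = 1) → OrdArtin G t i R 0 m →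
          (m : ℂ) = -meanAt L fun g =>
            (∑ χ ∈ s, (r χ : ℂ) * χ g) * (starRingEnd ℂ) (R.char g)) ∧
        ∀ (K : IntermediateField ℚ Ω) (m : ℤ), K ≤ L → OrdField G t i K m →
          (m : ℂ) = -meanAt L fun g => (∑ χ ∈ s, (r χ : ℂ) * χ g) * fixEmb K Ω g) ∧
      ∀ (K K' : IntermediateField ℚ Ω) [NumberField K] [NumberField K'] (m m' : ℤ), K ≤ E →
        K' ≤ E → OrdField G t i K m → OrdField G t i K' m' → K ⊓ M = K' ⊓ M → m = m'

variable (Ω) in
/-- The orders over number fields: let the `L`-function of `t` extend, with the order `m₁` at `s₀`.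
For every `r` there is a number field `M` such that the orders at `s₀` over the number fields `K` of
rank at most `r` (for which the `L`-function of `t` over `K` extends) depend only on the intersection
of `K` and `M`. The rank `embRank` of a number field is the number of orbits of the automorphisms of
`Ω` on the pairs of embeddings; it is at most the degree, and it is two if and only if the Galois
group is doubly transitive. All but finitely many of the fields of rank at most two have the order
`m₁`, and so do all fields `ℚ(c ^ (1 / q))`, where `q > 2 b` is a prime number and the rational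
number `c` is no `q`-th power. -/
def FieldOrders (G : Nat.Primes → Prop) (t : Nat.Primes → ℕ → ℂ) (i b : ℕ) : Prop :=
  ∀ m₁ : ℤ, OrdField G t i (⊥ : IntermediateField ℚ Ω) m₁ →
    (∀ r : ℕ, ∃ M : IntermediateField ℚ Ω, NumberField M ∧
      ∀ (K K' : IntermediateField ℚ Ω) [NumberField K] [NumberField K'] (m m' : ℤ),
        embRank K Ω ≤ r → embRank K' Ω ≤ r → OrdField G t i K m → OrdField G t i K' m' →
        K ⊓ M = K' ⊓ M → m = m') ∧
    {K : IntermediateField ℚ Ω | NumberField K ∧ embRank K Ω ≤ 2 ∧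
      ∃ m : ℤ, OrdField G t i K m ∧ m ≠ m₁}.Finite ∧
    ∀ (K : IntermediateField ℚ Ω) (m : ℤ) (q : ℕ) (c : ℚ) (α : Ω), OrdField G t i K m →
      q.Prime → 2 * b < q → (∀ a : ℚ, a ^ q ≠ c) → α ^ q = (c : Ω) →
      K = IntermediateField.adjoin ℚ {α} → m = m₁

end

end Pool.Agent.Work.MP_2b9663_nt
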