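import Pool.Agent.Work.MP_2b9663_nt.Ch.DefsTwist

set_option autoImplicit false

/-!
The statements on the orders of all twists by Artin representations.
-/

namespace Pool.Agent.Work.MP_2b9663_nt

open NumberField

section

variable {Ω : Type} [Field Ω] [CharZero Ω]

/-- the inner product of the functions `f` and `g` of finite level is `x`: the mean value of
`f h * conj (g h)` over all `h` in `Gal(L/ℚ)`, for a Galois number field `L` -/
def InnerEq (f g : (Ω ≃ₐ[ℚ] Ω) → ℂ) (x : ℂ) : Prop :=
  ∃ L : IntermediateField ℚ Ω, NumberField L ∧ IsGalois ℚ L ∧ Lvl L f ∧ Lvl L g ∧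
    meanAt L (fun h => f h * (starRingEnd ℂ) (g h)) = x

/-- The rank of the Artin representation `R` is at most `r`: the inner product of its character with
itself, the sum of the squares of the multiplicities of the irreducible representations in `R`. -/
def ArtinRep.RankLe (R : ArtinRep Ω) (r : ℕ) : Prop := ∃ n : ℕ, n ≤ r ∧ InnerEq R.char R.char n

/-- The irreducible representations of `Gal(M/ℚ)` have the same multiplicities in `R` and in `R'`: the
spaces of the vectors fixed by the automorphisms over `M` are isomorphic representations. -/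
def SameOver (M : IntermediateField ℚ Ω) (R R' : ArtinRep Ω) : Prop :=
  ∀ S : ArtinRep Ω, S.Irr → (∀ g ∈ M.fixingSubgroup, S.ρ g = 1) →
    ∃ x : ℂ, InnerEq R.char S.char x ∧ InnerEq R'.char S.char x

/-- the `L`-function of the traces `t p k` twisted by `R` extends meromorphically to a neighbourhood
of `s₀ = i / 2 + 1`, and has the order `m` there -/
def OrdTwist (G : Nat.Primes → Prop) (t : Nat.Primes → ℕ → ℂ) (i : ℕ) (R : ArtinRep Ω) (m : ℤ) :
    Prop :=
  ∃ F : ℂ → ℂ, IsArtinContinuation G t i R ((i : ℂ) / 2 + 1) F ∧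
    meromorphicOrderAt F ((i : ℂ) / 2 + 1) = m

variable (Ω) in
/-- For every `r` there is a Galois number field `M` such that the order at `s₀` of the twist of `t`
by an Artin representation `R` of rank at most `r` depends only on the multiplicities in `R` of the
irreducible representations of `Gal(M/ℚ)`, for all `R` for which this twist extends meromorphically
to a neighbourhood of `s₀`. In particular the order is zero if these multiplicities are all zero.
If `R` is induced from the trivial representation over the number field `K`, the twist of `t` by `R`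
is `t` over `K`, and these multiplicities depend only on the intersection of `K` and `M`. -/
def StableTwists (G : Nat.Primes → Prop) (t : Nat.Primes → ℕ → ℂ) (i : ℕ) : Prop :=
  ∀ r : ℕ, ∃ M : IntermediateField ℚ Ω, NumberField M ∧ IsGalois ℚ M ∧
    ∀ (R R' : ArtinRep Ω) (m m' : ℤ), R.RankLe r → R'.RankLe r → OrdTwist G t i R m →
      (OrdTwist G t i R' m' → SameOver M R R' → m = m') ∧
      ((∀ S : ArtinRep Ω, S.Irr → (∀ g ∈ M.fixingSubgroup, S.ρ g = 1) → InnerEq R.char S.char 0) →
        m = 0)

variable (Ω) in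
/-- Let `E` be a Galois extension of `ℚ` in `Ω`, finite or infinite, for instance `Ω`. If the twists
of `t` by all irreducible Artin representations trivial over `E` extend meromorphically to
neighbourhoods of `s₀`, then there are a Galois number field `M` in `E` and an integral combination
`f = ∑ r χ * χ` of irreducible characters `χ` of `Gal(M/ℚ)` such that `∑ r χ ^ 2 ≤ b ^ 2` and
`|f g| ≤ b` for all `g`, and such that the order at `s₀` of the twist of `t` by any Artin
representation `R` trivial over `E` is minus the inner product of `f` and the character of `R`. -/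
def VirtualTwists (G : Nat.Primes → Prop) (t : Nat.Primes → ℕ → ℂ) (i b : ℕ) : Prop :=
  ∀ (E : IntermediateField ℚ Ω) [IsGalois ℚ E],
    (∀ R : ArtinRep Ω, R.Irr → (∀ g ∈ E.fixingSubgroup, R.ρ g = 1) → ∃ m : ℤ, OrdTwist G t i R m) →
    ∃ (M : IntermediateField ℚ Ω) (s : Finset ((Ω ≃ₐ[ℚ] Ω) → ℂ)) (r : ((Ω ≃ₐ[ℚ] Ω) → ℂ) → ℤ),
      NumberField M ∧ IsGalois ℚ M ∧ M ≤ E ∧
      (∀ χ ∈ s, ∃ R : ArtinRep Ω, R.Irr ∧ R.char = χ ∧ ∀ g ∈ M.fixingSubgroup, R.ρ g = 1) ∧
      ∑ χ ∈ s, r χ ^ 2 ≤ (b : ℤ) ^ 2 ∧ (∀ g, ‖∑ χ ∈ s, (r χ : ℂ) * χ g‖ ≤ b) ∧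
      ∀ (R : ArtinRep Ω) (m : ℤ), (∀ g ∈ E.fixingSubgroup, R.ρ g = 1) → OrdTwist G t i R m →
        InnerEq (fun g => ∑ χ ∈ s, (r χ : ℂ) * χ g) R.char (-(m : ℂ))

end

end Pool.Agent.Work.MP_2b9663_nt
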