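import Pool.Agent.Work.MP_2b9663_nt.DefsNF
import Pool.Agent.Work.MP_2b9663_nt.Ch.Defs

set_option autoImplicit false

/-!
Twists of `L`-functions by Artin representations.
-/

namespace Pool.Agent.Work.MP_2b9663_nt

open NumberField

/-- `F` agrees for `Re s > i / 2 + 1` with an Euler product whose factor at every prime outside
a finite set `T` of primes, containing all the primes not in `G`, is the one attached to the
traces `t p k`, and whose factors at the primes in `T` are `Q p (p ^ (-s))⁻¹`, with arbitrary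
polynomials `Q p` not vanishing at `p ^ (-s₁)`. -/
def IsEulerAt (G : Nat.Primes → Prop) (t : Nat.Primes → ℕ → ℂ) (i : ℕ) (s₁ : ℂ) (F : ℂ → ℂ) :
    Prop :=
  ∃ (T : Finset Nat.Primes) (Q : Nat.Primes → Polynomial ℂ), (∀ p, ¬ G p → p ∈ T) ∧
    (∀ p ∈ T, (Q p).eval (((p : ℕ) : ℂ) ^ (-s₁)) ≠ 0) ∧
    ∀ s : ℂ, (i : ℝ) / 2 + 1 < s.re →
      F s = (∏ p ∈ T, ((Q p).eval (((p : ℕ) : ℂ) ^ (-s)))⁻¹) *
        Complex.exp (∑' p : {p : Nat.Primes // p ∉ T}, logFactor (t p) p s)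

section

variable {Ω : Type} [Field Ω] [CharZero Ω]

/-- the Artin representation `R` is unramified at `p`: it is trivial on the inertia groups at `p` -/
def ArtinRep.Unr (R : ArtinRep Ω) (p : ℕ) : Prop :=
  ∀ 𝔓 : Ideal (𝓞 Ω), 𝔓.IsPrime → ((p : ℕ) : 𝓞 Ω) ∈ 𝔓 →
    ∀ g : Ω ≃ₐ[ℚ] Ω, (∀ x : 𝓞 Ω, g • x - x ∈ 𝔓) → R.ρ g = 1

/-- `F` is a meromorphic continuation to a neighbourhood of `s₁` of the `L`-function of the traces
`t p k` twisted by the Artin representation `R`: the traces of the twist are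
`t p k * tr (R (Fr p) ^ k)`, where `Fr p` is a geometric Frobenius element at `p`, the inverse of an
element `g` with `g x ≡ x ^ p`. If `t p k` is the trace of the `k`-th power of the geometric Frobenius
on `H ^ i (X)`, this is the `L`-function of `H ^ i (X) ⊗ R`. -/
def IsArtinContinuation (G : Nat.Primes → Prop) (t : Nat.Primes → ℕ → ℂ) (i : ℕ)
    (R : ArtinRep Ω) (s₁ : ℂ) (F : ℂ → ℂ) : Prop :=
  (∃ Fr : Nat.Primes → (Ω ≃ₐ[ℚ] Ω), (∀ p : Nat.Primes, IsFrob (p : ℕ) (Fr p)⁻¹) ∧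
    IsEulerAt (fun p => G p ∧ R.Unr (p : ℕ)) (fun p k => t p k * R.char (Fr p ^ k)) i s₁ F) ∧
    MeromorphicAt F s₁

end

end Pool.Agent.Work.MP_2b9663_nt
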