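import Mathlib
import Pool.Agent.Work.MP_2b9663_nt.Zeta2
import Pool.Agent.Work.MP_2b9663_nt.Ch.CDefs

set_option autoImplicit false

/-!
The logarithm of the Dirichlet series of a completely multiplicative function of the norm.
-/

namespace Pool.Agent.Work.MP_2b9663_nt

namespace EL

open Filter Topology NumberField Ideal Finset

section

variable (K : Type) [Field K] [NumberField K] (c : ℕ →*₀ ℂ)

/-- the terms of the series -/
noncomputable def tz (s : ℝ) (n : ℕ) : ℂ := c n * ((fz K s n : ℝ) : ℂ)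

/-- the Dirichlet series `∑ c(N I) (N I)^(-s)` over the ideals -/
noncomputable def Lc (s : ℝ) : ℂ := ∑' n : ℕ, tz K c s n

/-- the sum over the primes -/
noncomputable def Tc (s : ℝ) : ℂ := ∑' p : Nat.Primes, tz K c s p

variable {c}

lemma norm_tz_le (hc : ∀ n, ‖c n‖ ≤ 1) (s : ℝ) (n : ℕ) : ‖tz K c s n‖ ≤ fz K s n := by
  rw [tz, norm_mul, Complex.norm_real, Real.norm_eq_abs, abs_of_nonneg (fz_nonneg K s n)]
  exact mul_le_of_le_one_left (fz_nonneg K s n) (hc n)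

lemma tz_summable (hc : ∀ n, ‖c n‖ ≤ 1) {s : ℝ} (hs : 1 < s) : Summable (fun n => ‖tz K c s n‖) :=
  (fz_summable K hs).of_nonneg_of_le (fun _ => norm_nonneg _) (norm_tz_le K hc s)

lemma tz_one (s : ℝ) : tz K c s 1 = 1 := by
  rw [tz, fz_one, map_one]; simp

lemma tz_zero {s : ℝ} (hs : s ≠ 0) : tz K c s 0 = 0 := by
  rw [tz, fz_zero K hs]; simp

lemma tz_mul {s : ℝ} (hs : s ≠ 0) {m n : ℕ} (h : m.Coprime n) :
    tz K c s (m * n) = tz K c s m * tz K c s n := by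
  rw [tz, tz, tz, fz_mul K hs h, map_mul]
  push_cast
  ring

variable (c) in
/-- the Euler factors minus one -/
noncomputable def xc (s : ℝ) (p : Nat.Primes) : ℂ := ∑' e : ℕ, tz K c s ((p : ℕ) ^ (e + 1))

lemma tz_pow_summable (hc : ∀ n, ‖c n‖ ≤ 1) {s : ℝ} (hs : 1 < s) (p : Nat.Primes) :
    Summable (fun e : ℕ => tz K c s ((p : ℕ) ^ e)) :=
  ((tz_summable K hc hs).comp_injective (Nat.pow_right_injective p.2.two_le)).of_norm

lemma euler_factor_c (hc : ∀ n, ‖c n‖ ≤ 1) {s : ℝ} (hs : 1 < s) (p : Nat.Primes) :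
    ∑' e : ℕ, tz K c s ((p : ℕ) ^ e) = 1 + xc K c s p := by
  rw [(tz_pow_summable K hc hs p).tsum_eq_zero_add, pow_zero, tz_one, xc]

/-- the terms of the Euler factor beyond the first one -/
lemma xc_sub (hc : ∀ n, ‖c n‖ ≤ 1) {s : ℝ} (hs : 1 < s) (p : Nat.Primes) :
    ‖xc K c s p - tz K c s p‖ ≤ CZ K * ((p : ℕ) : ℝ) ^ (-2 : ℝ) := by
  have h1 : Summable (fun e : ℕ => tz K c s ((p : ℕ) ^ (e + 1))) :=
    (summable_nat_add_iff 1).mpr (tz_pow_summable K hc hs p)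
  have h2 : xc K c s p = tz K c s p + ∑' e : ℕ, tz K c s ((p : ℕ) ^ (e + 2)) := by
    rw [xc, h1.tsum_eq_zero_add, zero_add, pow_one]
  rw [h2, add_sub_cancel_left, CZ, ← tsum_mul_right]
  refine tsum_of_norm_bounded ((CZ_summable K).mul_right _).hasSum fun e => ?_
  exact (norm_tz_le K hc s _).trans (fz_prime_pow_le K hs p e)

lemma norm_xc_le (hc : ∀ n, ‖c n‖ ≤ 1) {s : ℝ} (hs : 1 < s) (p : Nat.Primes) :
    ‖xc K c s p‖ ≤ (2 ^ Module.finrank ℤ (𝓞 K) + CZ K) * ((p : ℕ) : ℝ)⁻¹ := by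
  have h1 := xc_sub K hc hs p
  have h2 := (norm_tz_le K hc s (p : ℕ)).trans (fz_prime_le K hs p)
  have h3 := mul_le_mul_of_nonneg_left (P2_le_one p) (CZ_nonneg K)
  have h4 : ‖xc K c s p‖ ≤ ‖xc K c s p - tz K c s p‖ + ‖tz K c s p‖ := by
    have := norm_add_le (xc K c s p - tz K c s p) (tz K c s p)
    rwa [sub_add_cancel] at this
  calc _ ≤ _ := h4
    _ ≤ CZ K * ((p : ℕ) : ℝ)⁻¹ + 2 ^ Module.finrank ℤ (𝓞 K) * ((p : ℕ) : ℝ)⁻¹ :=
        add_le_add (h1.trans h3) h2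
    _ = _ := by ring

lemma xc_eq_zero {p : Nat.Primes} (hp : c (p : ℕ) = 0) (s : ℝ) : xc K c s p = 0 := by
  rw [xc]
  refine (tsum_congr fun e => ?_).trans tsum_zero
  rw [tz, map_pow, hp, zero_pow (Nat.succ_ne_zero e), zero_mul]

/-- the bound below which `c` has to vanish -/
noncomputable def P0 : ℕ := ⌈2 * (2 ^ Module.finrank ℤ (𝓞 K) + CZ K)⌉₊

lemma norm_xc_le_half (hc : ∀ n, ‖c n‖ ≤ 1) (h0 : ∀ p : ℕ, p.Prime → p ≤ P0 K → c p = 0) {s : ℝ}
    (hs : 1 < s) (p : Nat.Primes) : ‖xc K c s p‖ ≤ 1 / 2 := by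
  by_cases hp : (p : ℕ) ≤ P0 K
  · rw [xc_eq_zero K (h0 p p.2 hp)]
    simp
  · have hp' : 2 * (2 ^ Module.finrank ℤ (𝓞 K) + CZ K) ≤ ((p : ℕ) : ℝ) := by
      have h1 : (P0 K : ℝ) ≤ ((p : ℕ) : ℝ) := by exact_mod_cast (not_le.1 hp).le
      exact (Nat.le_ceil _).trans h1
    have hp0 : (0 : ℝ) < ((p : ℕ) : ℝ) := by exact_mod_cast p.2.pos
    refine (norm_xc_le K hc hs p).trans ?_
    rw [← div_eq_mul_inv, div_le_iff₀ hp0]
    linarith

lemma norm_log_sub {z : ℂ} (hz : ‖z‖ ≤ 1 / 2) : ‖Complex.log (1 + z) - z‖ ≤ ‖z‖ ^ 2 := by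
  have h1 := Complex.norm_log_one_add_sub_self_le (z := z) (by linarith)
  refine h1.trans ?_
  have h2 : (1 - ‖z‖)⁻¹ ≤ 2 := by
    rw [inv_le_comm₀ (by linarith) two_pos]
    linarith
  have h3 : 0 ≤ ‖z‖ ^ 2 := sq_nonneg _
  nlinarith

/-- the logarithms of the Euler factors -/
lemma log_xc_sub (hc : ∀ n, ‖c n‖ ≤ 1) (h0 : ∀ p : ℕ, p.Prime → p ≤ P0 K → c p = 0) {s : ℝ}
    (hs : 1 < s) (p : Nat.Primes) :
    ‖Complex.log (1 + xc K c s p) - tz K c s p‖ ≤ CX K * ((p : ℕ) : ℝ) ^ (-2 : ℝ) := by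
  have hp0 : (0 : ℝ) < ((p : ℕ) : ℝ) := by exact_mod_cast p.2.pos
  have h1 := norm_log_sub (norm_xc_le_half K hc h0 hs p)
  have h2 := xc_sub K hc hs p
  have h3 := norm_xc_le K hc hs p
  have h6 : ‖xc K c s p‖ ^ 2 ≤
      (2 ^ Module.finrank ℤ (𝓞 K) + CZ K) ^ 2 * ((p : ℕ) : ℝ) ^ (-2 : ℝ) := by
    have h5 : ((p : ℕ) : ℝ) ^ (-2 : ℝ) = (((p : ℕ) : ℝ)⁻¹) ^ 2 := by
      rw [Real.rpow_neg hp0.le, inv_pow]
      norm_num
    rw [h5, ← mul_pow]
    exact pow_le_pow_left₀ (norm_nonneg _) h3 2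
  have h4 : ‖Complex.log (1 + xc K c s p) - tz K c s p‖ ≤
      ‖Complex.log (1 + xc K c s p) - xc K c s p‖ + ‖xc K c s p - tz K c s p‖ := by
    have := norm_add_le (Complex.log (1 + xc K c s p) - xc K c s p) (xc K c s p - tz K c s p)
    rwa [sub_add_sub_cancel] at this
  rw [CX, add_mul]
  exact h4.trans (add_le_add (h1.trans h6) h2)

variable (c) in
/-- the logarithm of the series -/
noncomputable def lc (s : ℝ) : ℂ := ∑' p : Nat.Primes, Complex.log (1 + xc K c s p)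

lemma tz_prime_summable (hc : ∀ n, ‖c n‖ ≤ 1) {s : ℝ} (hs : 1 < s) :
    Summable (fun p : Nat.Primes => tz K c s p) :=
  ((tz_summable K hc hs).comp_injective Subtype.val_injective).of_norm

lemma log_sub_summable (hc : ∀ n, ‖c n‖ ≤ 1) (h0 : ∀ p : ℕ, p.Prime → p ≤ P0 K → c p = 0) {s : ℝ}
    (hs : 1 < s) :
    Summable (fun p : Nat.Primes => Complex.log (1 + xc K c s p) - tz K c s p) :=
  Summable.of_norm_bounded (P2_summable.mul_left (CX K)) fun p => log_xc_sub K hc h0 hs p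

lemma log_summable (hc : ∀ n, ‖c n‖ ≤ 1) (h0 : ∀ p : ℕ, p.Prime → p ≤ P0 K → c p = 0) {s : ℝ}
    (hs : 1 < s) : Summable (fun p : Nat.Primes => Complex.log (1 + xc K c s p)) := by
  refine ((log_sub_summable K hc h0 hs).add (tz_prime_summable K hc hs)).congr fun p => ?_
  rw [sub_add_cancel]

/-- the logarithm is the sum over the primes up to a bounded function -/
lemma lc_sub_le (hc : ∀ n, ‖c n‖ ≤ 1) (h0 : ∀ p : ℕ, p.Prime → p ≤ P0 K → c p = 0) {s : ℝ}
    (hs : 1 < s) : ‖lc K c s - Tc K c s‖ ≤ CX K * P2 := by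
  have h1 : lc K c s - Tc K c s =
      ∑' p : Nat.Primes, (Complex.log (1 + xc K c s p) - tz K c s p) :=
    ((log_summable K hc h0 hs).tsum_sub (tz_prime_summable K hc hs)).symm
  rw [h1, P2, ← tsum_mul_left]
  exact tsum_of_norm_bounded (P2_summable.mul_left (CX K)).hasSum fun p => log_xc_sub K hc h0 hs p

lemma one_add_ne_zero (hc : ∀ n, ‖c n‖ ≤ 1) (h0 : ∀ p : ℕ, p.Prime → p ≤ P0 K → c p = 0) {s : ℝ}
    (hs : 1 < s) (p : Nat.Primes) : 1 + xc K c s p ≠ 0 := by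
  intro h
  have h1 : xc K c s p = -1 := by linear_combination h
  have h2 := norm_xc_le_half K hc h0 hs p
  rw [h1, norm_neg, norm_one] at h2
  norm_num at h2

/-- `exp l = L` -/
lemma exp_lc (hc : ∀ n, ‖c n‖ ≤ 1) (h0 : ∀ p : ℕ, p.Prime → p ≤ P0 K → c p = 0) {s : ℝ}
    (hs : 1 < s) : Complex.exp (lc K c s) = Lc K c s := by
  have hs0 : s ≠ 0 := by linarith
  have h1 : HasProd (fun p : Nat.Primes => ∑' e : ℕ, tz K c s ((p : ℕ) ^ e)) (∑' n, tz K c s n) :=
    EulerProduct.eulerProduct_hasProd (tz_one K s) (fun {m n} h => tz_mul K hs0 h)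
      (tz_summable K hc hs) (tz_zero K hs0)
  have h5 : Complex.exp (∑' p : Nat.Primes, Complex.log (1 + xc K c s p)) =
      ∏' p : Nat.Primes, (1 + xc K c s p) :=
    Complex.cexp_tsum_eq_tprod (fun p => one_add_ne_zero K hc h0 hs p) (log_summable K hc h0 hs)
  have h6 : ∏' p : Nat.Primes, (1 + xc K c s p) = ∑' n, tz K c s n := by
    rw [← h1.tprod_eq]
    exact tprod_congr fun p => (euler_factor_c K hc hs p).symm
  rw [lc, h5, h6, Lc]

/-! ### Continuity -/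

lemma fz_continuous (n : ℕ) : ContinuousOn (fun s : ℝ => fz K s n) (Set.Ioi 1) := by
  rcases eq_or_ne n 0 with rfl | hn
  · refine (continuousOn_const (c := (0 : ℝ))).congr fun s hs => ?_
    have : (1 : ℝ) < s := hs
    exact fz_zero K (by linarith)
  · unfold fz
    have hn' : (n : ℝ) ≠ 0 := by exact_mod_cast hn
    refine continuousOn_const.mul (Continuous.continuousOn ?_)
    exact Continuous.rpow continuous_const continuous_neg fun _ => Or.inl hn'

lemma tz_continuous (n : ℕ) : ContinuousOn (fun s : ℝ => tz K c s n) (Set.Ioi 1) := by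
  unfold tz
  exact continuousOn_const.mul (Complex.continuous_ofReal.comp_continuousOn (fz_continuous K n))

lemma xc_continuous (hc : ∀ n, ‖c n‖ ≤ 1) (p : Nat.Primes) :
    ContinuousOn (fun s : ℝ => xc K c s p) (Set.Ioi 1) := by
  have h1 : ∀ s ∈ Set.Ioi (1 : ℝ), xc K c s p = tz K c s p + ∑' e : ℕ, tz K c s ((p : ℕ) ^ (e + 2)) := by
    intro s hs
    have h1 : Summable (fun e : ℕ => tz K c s ((p : ℕ) ^ (e + 1))) :=
      (summable_nat_add_iff 1).mpr (tz_pow_summable K hc hs p)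
    rw [xc, h1.tsum_eq_zero_add, zero_add, pow_one]
  refine ContinuousOn.congr ?_ h1
  refine (tz_continuous K _).add ?_
  refine continuousOn_tsum (u := fun e : ℕ => (((e : ℝ) + 3) ^ Module.finrank ℤ (𝓞 K) *
    (1 / 2 : ℝ) ^ e) * ((p : ℕ) : ℝ) ^ (-2 : ℝ)) (fun e => tz_continuous K _)
    ((CZ_summable K).mul_right _) fun e s hs => ?_
  exact (norm_tz_le K hc s _).trans (fz_prime_pow_le K hs p e)

lemma lc_continuous (hc : ∀ n, ‖c n‖ ≤ 1) (h0 : ∀ p : ℕ, p.Prime → p ≤ P0 K → c p = 0) :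
    ContinuousOn (lc K c) (Set.Ioi 1) := by
  -- it is enough on the half lines `s > a`, `a > 1`
  have key : ∀ a : ℝ, 1 < a → ContinuousOn (lc K c) (Set.Ioi a) := by
    intro a ha
    have h1 : ∀ s ∈ Set.Ioi a, lc K c s = Tc K c s +
        ∑' p : Nat.Primes, (Complex.log (1 + xc K c s p) - tz K c s p) := by
      intro s hs
      have hs1 : 1 < s := ha.trans hs
      rw [lc, Tc, ← (tz_prime_summable K hc hs1).tsum_add (log_sub_summable K hc h0 hs1)]
      refine tsum_congr fun p => ?_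
      ring
    refine ContinuousOn.congr ?_ h1
    have hsub : Set.Ioi a ⊆ Set.Ioi (1 : ℝ) := fun s hs => ha.trans hs
    refine ContinuousOn.add ?_ ?_
    · unfold Tc
      refine continuousOn_tsum (u := fun p : Nat.Primes => fz K a p)
        (fun p => (tz_continuous K _).mono hsub)
        ((fz_summable K ha).comp_injective Subtype.val_injective) fun p s hs => ?_
      refine (norm_tz_le K hc s _).trans ?_
      have hp1 : (1 : ℝ) ≤ ((p : ℕ) : ℝ) := by exact_mod_cast p.2.one_le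
      refine mul_le_mul_of_nonneg_left ?_ (Nat.cast_nonneg _)
      refine Real.rpow_le_rpow_of_exponent_le hp1 ?_
      have : a < s := hs
      linarith
    · refine continuousOn_tsum (u := fun p : Nat.Primes => CX K * ((p : ℕ) : ℝ) ^ (-2 : ℝ))
        (fun p => ?_) (P2_summable.mul_left (CX K)) fun p s hs => log_xc_sub K hc h0 (hsub hs) p
      refine ContinuousOn.sub ?_ ((tz_continuous K _).mono hsub)
      refine ContinuousOn.clog (continuousOn_const.add ((xc_continuous K hc p).mono hsub))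
        fun s hs => ?_
      have h2 := norm_xc_le_half K hc h0 (hsub hs) p
      left
      have h3 : -(1 / 2) ≤ (xc K c s p).re := by
        have := Complex.abs_re_le_norm (xc K c s p)
        rw [abs_le] at this
        linarith [this.1]
      rw [Complex.add_re, Complex.one_re]
      linarith
  intro s hs
  have hs1 : (1 : ℝ) < s := hs
  have h1 : 1 < (1 + s) / 2 := by linarith
  have h2 : (1 + s) / 2 < s := by linarith
  exact ((key _ h1).continuousAt (Ioi_mem_nhds h2)).continuousWithinAt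

end

/-- A continuous logarithm of a function with a finite nonzero limit is bounded. -/
theorem log_bounded {l : ℝ → ℂ} (hl : ContinuousOn l (Set.Ioi 1)) {A : ℂ} (hA : A ≠ 0)
    (hlim : Tendsto (fun s => Complex.exp (l s)) (𝓝[>] 1) (𝓝 A)) :
    ∃ C, ∀ s ∈ Set.Ioc (1 : ℝ) 2, ‖l s‖ ≤ C := by
  -- near 1
  have h1 : ∀ᶠ s in 𝓝[>] (1 : ℝ), ‖Complex.exp (l s) / A - 1‖ < 1 / 2 := by
    have h2 : Tendsto (fun s => Complex.exp (l s) / A - 1) (𝓝[>] 1) (𝓝 0) := by
      have := (hlim.div_const A).sub_const 1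
      rwa [div_self hA, sub_self] at this
    have h3 := h2.norm
    rw [norm_zero] at h3
    exact h3.eventually (gt_mem_nhds (by norm_num))
  obtain ⟨b, hb1, hb⟩ : ∃ b : ℝ, 1 < b ∧ ∀ s ∈ Set.Ioo 1 b, ‖Complex.exp (l s) / A - 1‖ < 1 / 2 := by
    obtain ⟨b, hb, h⟩ := mem_nhdsGT_iff_exists_Ioo_subset.1 h1
    exact ⟨b, hb, fun s hs => h hs⟩
  -- the integer valued function
  set q : ℝ → ℂ := fun s => (l s - Complex.log A - Complex.log (Complex.exp (l s) / A)) /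
    (2 * Real.pi * Complex.I) with hq
  have hpi : (2 * Real.pi * Complex.I : ℂ) ≠ 0 := Complex.two_pi_I_ne_zero
  have hint : ∀ s ∈ Set.Ioo 1 b, ∃ k : ℤ, q s = k := by
    intro s hs
    have hne : Complex.exp (l s) / A ≠ 0 := div_ne_zero (Complex.exp_ne_zero _) hA
    have h2 : Complex.exp (l s - Complex.log A - Complex.log (Complex.exp (l s) / A)) = 1 := by
      rw [Complex.exp_sub, Complex.exp_sub, Complex.exp_log hA, Complex.exp_log hne, div_self hne]
    obtain ⟨k, hk⟩ := Complex.exp_eq_one_iff.1 h2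
    refine ⟨k, ?_⟩
    simp only [hq]
    rw [hk]
    field_simp
  have hcont : ContinuousOn q (Set.Ioo 1 b) := by
    have hsub : Set.Ioo 1 b ⊆ Set.Ioi (1 : ℝ) := fun s hs => hs.1
    have hlc := hl.mono hsub
    refine ContinuousOn.div_const (ContinuousOn.sub (hlc.sub continuousOn_const) ?_) _
    refine ContinuousOn.clog ((Complex.continuous_exp.comp_continuousOn hlc).div_const A)
      fun s hs => ?_
    left
    have h2 := hb s hs
    have h3 := Complex.abs_re_le_norm (Complex.exp (l s) / A - 1)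
    rw [abs_le] at h3
    have h4 : (Complex.exp (l s) / A - 1).re = (Complex.exp (l s) / A).re - 1 := by simp
    rw [h4] at h3
    linarith [h3.1]
  have hconst : ∀ s ∈ Set.Ioo 1 b, ∀ s' ∈ Set.Ioo 1 b, q s = q s' := by
    intro s hs s' hs'
    choose! k hk using hint
    have h2 : ContinuousOn k (Set.Ioo 1 b) := by
      have h3 : ContinuousOn (fun s => ((k s : ℤ) : ℝ)) (Set.Ioo 1 b) := by
        refine (Complex.continuous_re.comp_continuousOn hcont).congr fun s hs => ?_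
        simp only [Function.comp_apply, hk s hs, Complex.intCast_re]
      exact (Int.isClosedEmbedding_coe_real.isInducing.continuousOn_iff).2 h3
    rw [hk s hs, hk s' hs', isPreconnected_Ioo.constant h2 hs hs']
  -- the bound near 1
  set a : ℝ := (1 + b) / 2 with ha
  have ha1 : 1 < a := by rw [ha]; linarith
  have hab : a < b := by rw [ha]; linarith
  have hnear : ∀ s ∈ Set.Ioo 1 b, ‖l s‖ ≤ ‖Complex.log A‖ + 1 + ‖2 * Real.pi * Complex.I * q a‖ := by
    intro s hs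
    have h2 : l s = Complex.log A + Complex.log (Complex.exp (l s) / A) +
        2 * Real.pi * Complex.I * q a := by
      rw [hconst a ⟨ha1, hab⟩ s hs]
      simp only [hq]
      field_simp
      ring
    have h3 : ‖Complex.log (Complex.exp (l s) / A)‖ ≤ 1 := by
      have h4 := hb s hs
      have h5 := Complex.norm_log_one_add_sub_self_le (z := Complex.exp (l s) / A - 1) (by linarith)
      rw [add_sub_cancel] at h5
      set z := Complex.exp (l s) / A - 1 with hz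
      have h6 : (1 - ‖z‖)⁻¹ ≤ 2 := by
        rw [inv_le_comm₀ (by linarith) two_pos]
        linarith
      have h7 : ‖Complex.log (Complex.exp (l s) / A)‖ ≤
          ‖Complex.log (Complex.exp (l s) / A) - z‖ + ‖z‖ := by
        have := norm_add_le (Complex.log (Complex.exp (l s) / A) - z) z
        rwa [sub_add_cancel] at this
      have h8 : ‖z‖ ^ 2 * (1 - ‖z‖)⁻¹ / 2 ≤ 1 / 4 := by
        have h9 : ‖z‖ ^ 2 ≤ 1 / 4 := by nlinarith [norm_nonneg z]
        have h10 : 0 ≤ (1 - ‖z‖)⁻¹ := inv_nonneg.2 (by linarith)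
        nlinarith [sq_nonneg ‖z‖]
      linarith
    rw [h2]
    refine (norm_add_le _ _).trans (add_le_add ((norm_add_le _ _).trans ?_) le_rfl)
    exact add_le_add le_rfl h3
  -- the rest
  obtain ⟨C, hC⟩ := (isCompact_Icc (a := a) (b := 2)).exists_bound_of_continuousOn
    (hl.mono fun s hs => lt_of_lt_of_le ha1 hs.1)
  refine ⟨max (‖Complex.log A‖ + 1 + ‖2 * Real.pi * Complex.I * q a‖) C, fun s hs => ?_⟩
  rcases lt_or_ge s a with h | h
  · exact (hnear s ⟨hs.1, h.trans hab⟩).trans (le_max_left _ _)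
  · exact (hC s ⟨h, hs.2⟩).trans (le_max_right _ _)

section

variable (K : Type) [Field K] [NumberField K] {c : ℕ →*₀ ℂ}

/-- the real part of the sum over the primes is bounded from above -/
theorem re_bdd (hc : ∀ n, ‖c n‖ ≤ 1) (h0 : ∀ p : ℕ, p.Prime → p ≤ P0 K → c p = 0) {A : ℂ}
    (hlim : Tendsto (Lc K c) (𝓝[>] 1) (𝓝 A)) :
    ∃ C : ℝ, ∀ s ∈ Set.Ioc (1 : ℝ) 2, (Tc K c s).re ≤ C := by
  -- near 1
  have h1 : ∀ᶠ s in 𝓝[>] (1 : ℝ), ‖Lc K c s‖ < ‖A‖ + 1 :=
    hlim.norm.eventually (gt_mem_nhds (by linarith))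
  obtain ⟨b, hb1, hb⟩ : ∃ b : ℝ, 1 < b ∧ ∀ s ∈ Set.Ioo 1 b, ‖Lc K c s‖ < ‖A‖ + 1 := by
    obtain ⟨b, hb, h⟩ := mem_nhdsGT_iff_exists_Ioo_subset.1 h1
    exact ⟨b, hb, fun s hs => h hs⟩
  set a : ℝ := (1 + b) / 2 with ha
  have ha1 : 1 < a := by rw [ha]; linarith
  have hab : a < b := by rw [ha]; linarith
  obtain ⟨C, hC⟩ := (isCompact_Icc (a := a) (b := 2)).exists_bound_of_continuousOn
    ((lc_continuous K hc h0).mono fun s hs => lt_of_lt_of_le ha1 hs.1)
  have hre : ∀ s, 1 < s → (Tc K c s).re ≤ (lc K c s).re + CX K * P2 := by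
    intro s hs
    have h2 := lc_sub_le K hc h0 hs
    have h3 := Complex.abs_re_le_norm (lc K c s - Tc K c s)
    rw [Complex.sub_re, abs_le] at h3
    linarith [h3.1]
  refine ⟨max (Real.log (‖A‖ + 1)) C + CX K * P2, fun s hs => ?_⟩
  refine (hre s hs.1).trans (add_le_add ?_ le_rfl)
  rcases lt_or_ge s a with h | h
  · refine le_trans ?_ (le_max_left _ _)
    have h2 := hb s ⟨hs.1, h.trans hab⟩
    rw [← exp_lc K hc h0 hs.1, Complex.norm_exp] at h2
    exact ((Real.lt_log_iff_exp_lt (by positivity)).2 h2).le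
  · refine le_trans ?_ (le_max_right _ _)
    exact (Complex.re_le_norm _).trans (hC s ⟨h, hs.2⟩)

/-- if the real part of the sum over the primes is bounded from below, then the sum is bounded -/
theorem bdd (hc : ∀ n, ‖c n‖ ≤ 1) (h0 : ∀ p : ℕ, p.Prime → p ≤ P0 K → c p = 0) {A : ℂ}
    (hlim : Tendsto (Lc K c) (𝓝[>] 1) (𝓝 A)) {B : ℝ}
    (hB : ∀ s ∈ Set.Ioc (1 : ℝ) 2, -B ≤ (Tc K c s).re) :
    ∃ C : ℝ, ∀ s ∈ Set.Ioc (1 : ℝ) 2, ‖Tc K c s‖ ≤ C := by
  have hlim' : Tendsto (fun s => Complex.exp (lc K c s)) (𝓝[>] 1) (𝓝 A) := by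
    refine hlim.congr' ?_
    filter_upwards [self_mem_nhdsWithin] with s hs
    exact (exp_lc K hc h0 hs).symm
  have hA : A ≠ 0 := by
    intro hA
    rw [hA] at hlim'
    have h1 := hlim'.norm
    rw [norm_zero] at h1
    have h2 : ∀ᶠ s in 𝓝[>] (1 : ℝ), ‖Complex.exp (lc K c s)‖ < Real.exp (-B - CX K * P2) :=
      h1.eventually (gt_mem_nhds (Real.exp_pos _))
    have h3 : ∀ᶠ s in 𝓝[>] (1 : ℝ), s ∈ Set.Ioo (1 : ℝ) 2 := Ioo_mem_nhdsGT (by norm_num)
    obtain ⟨s, hs1, hs2⟩ := (h2.and h3).exists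
    have h4 := hB s ⟨hs2.1, hs2.2.le⟩
    have h5 := lc_sub_le K hc h0 hs2.1
    have h6 := Complex.abs_re_le_norm (lc K c s - Tc K c s)
    rw [Complex.sub_re, abs_le] at h6
    rw [Complex.norm_exp, Real.exp_lt_exp] at hs1
    linarith [h6.1]
  obtain ⟨C, hC⟩ := log_bounded (lc_continuous K hc h0) hA hlim'
  refine ⟨C + CX K * P2, fun s hs => ?_⟩
  have h1 := lc_sub_le K hc h0 hs.1
  have h2 : ‖Tc K c s‖ ≤ ‖lc K c s‖ + ‖lc K c s - Tc K c s‖ := by
    have := norm_sub_le (lc K c s) (lc K c s - Tc K c s)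
    rwa [sub_sub_cancel] at this
  linarith [hC s hs]

end

end EL

section

variable (K : Type) [Field K] [NumberField K]

/-- `n ↦ χ n * n^(-iy)`, zero at zero -/
noncomputable def EL.tw {m : ℕ} (χ : DirichletCharacter ℂ m) (y : ℝ) : ℕ →*₀ ℂ where
  toFun n := if n = 0 then 0 else χ n * (n : ℂ) ^ (-(y * Complex.I))
  map_zero' := if_pos rfl
  map_one' := by simp
  map_mul' a b := by
    rcases eq_or_ne a 0 with rfl | ha
    · simp
    rcases eq_or_ne b 0 with rfl | hb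
    · simp
    rw [if_neg ha, if_neg hb, if_neg (mul_ne_zero ha hb)]
    push_cast
    rw [map_mul, Complex.natCast_mul_natCast_cpow]
    ring

lemma EL.tw_apply {m : ℕ} (χ : DirichletCharacter ℂ m) (y : ℝ) {n : ℕ} (hn : n ≠ 0) :
    EL.tw χ y n = χ n * (n : ℂ) ^ (-(y * Complex.I)) := if_neg hn

lemma EL.norm_tw_le {m : ℕ} (χ : DirichletCharacter ℂ m) (y : ℝ) (n : ℕ) : ‖EL.tw χ y n‖ ≤ 1 := by
  rcases eq_or_ne n 0 with rfl | hn
  · rw [map_zero, norm_zero]
    exact zero_le_one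
  · rw [EL.tw_apply χ y hn, norm_mul]
    have h1 : ‖((n : ℕ) : ℂ) ^ (-(y * Complex.I))‖ = 1 := by
      rw [Complex.norm_natCast_cpow_of_pos (Nat.pos_of_ne_zero hn)]
      simp
    rw [h1, mul_one]
    exact DirichletCharacter.norm_le_one χ _

lemma EL.tz_tw {m : ℕ} (χ : DirichletCharacter ℂ m) (y : ℝ) {ε : ℝ} (hε : 0 < ε) (n : ℕ) :
    EL.tz K (EL.tw χ y) (1 + ε) n =
      (idc K n : ℂ) * χ n * (n : ℂ) ^ (-((1 : ℂ) + ε + y * Complex.I)) := by
  rcases eq_or_ne n 0 with rfl | hn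
  · have h1 : (-((1 : ℂ) + ε + y * Complex.I)) ≠ 0 := by
      intro h
      have := congrArg Complex.re h
      simp at this
      linarith
    have h2 : ((0 : ℕ) : ℂ) ^ (-((1 : ℂ) + ε + y * Complex.I)) = 0 := by
      rw [Nat.cast_zero]
      exact Complex.zero_cpow h1
    rw [EL.tz, map_zero, zero_mul, h2, mul_zero]
  · have hn' : (n : ℂ) ≠ 0 := by exact_mod_cast hn
    have h1 : (-((1 : ℂ) + ε + y * Complex.I)) = -(((1 + ε : ℝ) : ℂ)) + -(y * Complex.I) := by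
      push_cast
      ring
    rw [EL.tz, EL.tw_apply χ y hn, fz, h1, Complex.cpow_add _ _ hn', Complex.ofReal_mul,
      Complex.ofReal_cpow (Nat.cast_nonneg _)]
    push_cast
    ring

/-- **The logarithm of the Dirichlet series of `χ ∘ N` on the line `Re s = 1`.** -/
theorem exists_log : ∃ P0 : ℕ, ∀ (m : ℕ) (χ : DirichletCharacter ℂ m),
    (∀ p : ℕ, p.Prime → p ≤ P0 → χ p = 0) → ∀ y : ℝ, ∃ Lam : ℝ → ℂ,
      ContinuousOn Lam (Set.Ioi 0) ∧
      (∀ ε : ℝ, 0 < ε → Complex.exp (Lam ε) =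
        ∑' n : ℕ, (idc K n : ℂ) * χ n * (n : ℂ) ^ (-((1 : ℂ) + ε + y * Complex.I))) ∧
      ∃ C : ℝ, ∀ ε : ℝ, 0 < ε → ‖Lam ε - ∑' p : Nat.Primes, (idc K (p : ℕ) : ℂ) * χ (p : ℕ) *
        ((p : ℕ) : ℂ) ^ (-((1 : ℂ) + ε + y * Complex.I))‖ ≤ C := by
  refine ⟨EL.P0 K, fun m χ h0 y => ?_⟩
  have hc := EL.norm_tw_le χ y
  have h0' : ∀ p : ℕ, p.Prime → p ≤ EL.P0 K → EL.tw χ y p = 0 := fun p hp hle => by
    rw [EL.tw_apply χ y hp.ne_zero, h0 p hp hle, zero_mul]
  refine ⟨fun ε => EL.lc K (EL.tw χ y) (1 + ε), ?_, ?_, CX K * P2, ?_⟩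
  · exact (EL.lc_continuous K hc h0').comp (by fun_prop) fun ε (hε : 0 < ε) => by
      change 1 < 1 + ε
      linarith
  · intro ε hε
    rw [EL.exp_lc K hc h0' (by linarith), EL.Lc]
    exact tsum_congr fun n => EL.tz_tw K χ y hε n
  · intro ε hε
    have h1 := EL.lc_sub_le K hc h0' (s := 1 + ε) (by linarith)
    rw [EL.Tc] at h1
    have h2 : ∑' p : Nat.Primes, EL.tz K (EL.tw χ y) (1 + ε) p =
        ∑' p : Nat.Primes, (idc K (p : ℕ) : ℂ) * χ (p : ℕ) *
          ((p : ℕ) : ℂ) ^ (-((1 : ℂ) + ε + y * Complex.I)) :=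
      tsum_congr fun p => EL.tz_tw K χ y hε p
    rw [h2] at h1
    exact h1

lemma EL.LL_eq {m : ℕ} (χ : DirichletCharacter ℂ m) (s : ℂ) (hs : s ≠ 0) :
    LL K χ s = ∑' n : ℕ, (idc K n : ℂ) * χ n * (n : ℂ) ^ (-s) := by
  unfold LL LSeries
  refine tsum_congr fun n => ?_
  rcases eq_or_ne n 0 with rfl | hn
  · have h2 : ((0 : ℕ) : ℂ) ^ (-s) = 0 := by
      rw [Nat.cast_zero]
      exact Complex.zero_cpow (neg_ne_zero.2 hs)
    rw [LSeries.term_zero, h2, mul_zero]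
  · rw [LSeries.term_of_ne_zero hn, Complex.cpow_neg, div_eq_mul_inv]
    ring

/-- **The logarithm of the `L`-series of `χ ∘ N` on the line `Re s = 1`.** -/
theorem exists_log_LL : ∃ P0 : ℕ, ∀ (m : ℕ) (χ : DirichletCharacter ℂ m),
    (∀ p : ℕ, p.Prime → p ≤ P0 → χ p = 0) → ∀ y : ℝ, ∃ Lam : ℝ → ℂ,
      ContinuousOn Lam (Set.Ioi 0) ∧
      (∀ ε : ℝ, 0 < ε → Complex.exp (Lam ε) = LL K χ ((1 : ℂ) + ε + y * Complex.I)) ∧
      ∃ C : ℝ, ∀ ε : ℝ, 0 < ε → ‖Lam ε - ∑' p : Nat.Primes, (idc K (p : ℕ) : ℂ) * χ (p : ℕ) *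
        ((p : ℕ) : ℂ) ^ (-((1 : ℂ) + ε + y * Complex.I))‖ ≤ C := by
  obtain ⟨P0, h⟩ := exists_log K
  refine ⟨P0, fun m χ h0 y => ?_⟩
  obtain ⟨Lam, h1, h2, h3⟩ := h m χ h0 y
  refine ⟨Lam, h1, fun ε hε => ?_, h3⟩
  rw [h2 ε hε, EL.LL_eq]
  intro h4
  have := congrArg Complex.re h4
  simp at this
  linarith

end

end Pool.Agent.Work.MP_2b9663_nt
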