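import Pool.Agent.Work.MP_2b9663_nt.Ch.Defs

set_option autoImplicit false

/-!
The existence of Frobenius elements in the automorphism group of an algebraic closure of `ℚ`.
-/

namespace Pool.Agent.Work.MP_2b9663_nt

open NumberField Topology

section

variable {Ω : Type} [Field Ω] [CharZero Ω] [IsAlgClosure ℚ Ω]

lemma isInvariant_ringOfIntegers : Algebra.IsInvariant ℤ (𝓞 Ω) (Ω ≃ₐ[ℚ] Ω) := by
  constructor
  intro x hx
  have h1 : ((x : 𝓞 Ω) : Ω) ∈ Set.range (algebraMap ℚ Ω) := by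
    rw [InfiniteGalois.mem_range_algebraMap_iff_fixed]
    intro g
    exact congrArg (fun y : 𝓞 Ω => (y : Ω)) (hx g)
  obtain ⟨q, hq⟩ := h1
  have h2 : IsIntegral ℤ q := by
    have h3 : IsIntegral ℤ (algebraMap ℚ Ω q) := by
      rw [hq]
      exact RingOfIntegers.isIntegral_coe x
    exact (isIntegral_algebraMap_iff (algebraMap ℚ Ω).injective).mp h3
  obtain ⟨n, hn⟩ := IsIntegrallyClosed.isIntegral_iff.mp h2
  refine ⟨n, ?_⟩
  apply RingOfIntegers.ext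
  rw [← hq, ← hn]
  simp

/-- there is a Frobenius element at every prime -/
theorem exists_isFrob {p : ℕ} (hp : p.Prime) : ∃ g : Ω ≃ₐ[ℚ] Ω, IsFrob p g := by
  have hfp : Fact p.Prime := ⟨hp⟩
  have hac : IsAlgClosed Ω := IsAlgClosure.isAlgClosed ℚ
  set P : Ideal ℤ := Ideal.span {(p : ℤ)} with hP
  have hPmax : P.IsMaximal :=
    (PrincipalIdealRing.isMaximal_of_irreducible (Nat.prime_iff_prime_int.mp hp).irreducible)
  obtain ⟨Q, hQ, hQP⟩ := Ideal.exists_maximal_ideal_liesOver_of_isIntegral (S := 𝓞 Ω) P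
  have hQpr : Q.IsPrime := hQ.isPrime
  have hpQ : ((p : ℕ) : 𝓞 Ω) ∈ Q := by
    have h1 : ((p : ℕ) : ℤ) ∈ P := Ideal.mem_span_singleton_self _
    rw [hQP.over, Ideal.mem_comap] at h1
    simpa using h1
  have hchar : CharP (𝓞 Ω ⧸ Q) p := by
    have h1 := Ideal.Quotient.eq_zero_iff_mem.mpr hpQ
    rw [map_natCast] at h1
    rcases (Nat.dvd_prime hp).mp (ringChar.dvd h1) with h2 | h2
    · exact absurd h2 CharP.ringChar_ne_one
    · exact ringChar.of_eq h2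
  have hinj : Function.Injective (frobenius (𝓞 Ω ⧸ Q) p) := frobenius_inj _ p
  have hsurj : Function.Surjective (frobenius (𝓞 Ω ⧸ Q) p) := by
    intro x
    obtain ⟨x, rfl⟩ := Ideal.Quotient.mk_surjective x
    obtain ⟨z, hz⟩ := IsAlgClosed.exists_pow_nat_eq (x : Ω) hp.pos
    have hzi : IsIntegral ℤ z := by
      refine IsIntegral.of_pow hp.pos ?_
      rw [hz]
      exact RingOfIntegers.isIntegral_coe x
    have hw : ∃ w : 𝓞 Ω, w ^ p = x := ⟨⟨z, hzi⟩, RingOfIntegers.ext hz⟩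
    obtain ⟨w, hw⟩ := hw
    refine ⟨Ideal.Quotient.mk Q w, ?_⟩
    rw [frobenius_def, ← map_pow, hw]
  set e : (𝓞 Ω ⧸ Q) ≃+* (𝓞 Ω ⧸ Q) := RingEquiv.ofBijective (frobenius (𝓞 Ω ⧸ Q) p) ⟨hinj, hsurj⟩
    with he
  have hcomm : ∀ r : ℤ ⧸ P, e (algebraMap (ℤ ⧸ P) (𝓞 Ω ⧸ Q) r) = algebraMap (ℤ ⧸ P) (𝓞 Ω ⧸ Q) r := by
    intro r
    obtain ⟨n, rfl⟩ := Ideal.Quotient.mk_surjective r
    have h1 : (Ideal.Quotient.mk P) n = ((n : ℤ) : ℤ ⧸ P) := by simp
    rw [h1, map_intCast, map_intCast]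
  let f : (𝓞 Ω ⧸ Q) ≃ₐ[ℤ ⧸ P] (𝓞 Ω ⧸ Q) := AlgEquiv.ofRingEquiv (f := e) hcomm
  let : TopologicalSpace (𝓞 Ω) := ⊥
  have : DiscreteTopology (𝓞 Ω) := ⟨rfl⟩
  have : ContinuousSMul (Ω ≃ₐ[ℚ] Ω) (𝓞 Ω) := by
    rw [continuousSMul_iff_stabilizer_isOpen]
    intro x
    have h1 := stabilizer_isOpen_of_isIntegral (K := ℚ) (x : Ω)
    convert h1 using 1
    ext g
    simp only [SetLike.mem_coe, MulAction.mem_stabilizer_iff]
    constructor
    · intro h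
      exact congrArg (fun y : 𝓞 Ω => (y : Ω)) h
    · intro h
      apply RingOfIntegers.ext
      exact h
  have := isInvariant_ringOfIntegers (Ω := Ω)
  obtain ⟨g, hg⟩ := Ideal.Quotient.stabilizerHom_surjective_of_profinite (G := (Ω ≃ₐ[ℚ] Ω)) P Q f
  refine ⟨g, Q, hQpr, hpQ, fun x => ?_⟩
  have h1 := DFunLike.congr_fun hg (Ideal.Quotient.mk Q x)
  rw [Ideal.Quotient.stabilizerHom_apply] at h1
  have h2 : f (Ideal.Quotient.mk Q x) = Ideal.Quotient.mk Q (x ^ p) := by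
    rw [map_pow]
    rfl
  rw [h2] at h1
  exact Ideal.Quotient.eq.mp h1

end

end Pool.Agent.Work.MP_2b9663_nt
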