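import Pool.Agent.Work.MP_2b9663_nt.Ch.Defs

set_option autoImplicit false

/-!
Functions of finite level, class functions, characters.
-/

namespace Pool.Agent.Work.MP_2b9663_nt

open ComplexConjugate

section

variable {Ω : Type} [Field Ω] [CharZero Ω]

lemma Lvl.mono {L L' : IntermediateField ℚ Ω} (h : L ≤ L') {f : (Ω ≃ₐ[ℚ] Ω) → ℂ} (hf : Lvl L f) :
    Lvl L' f := fun g x hx => hf g x (IntermediateField.fixingSubgroup_le h hx)

lemma Lvl.comp {L : IntermediateField ℚ Ω} {f : (Ω ≃ₐ[ℚ] Ω) → ℂ} (hf : Lvl L f) (F : ℂ → ℂ) :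
    Lvl L (fun x => F (f x)) := fun g x hx => congrArg F (hf g x hx)

lemma Lvl.comp₂ {L : IntermediateField ℚ Ω} {f f' : (Ω ≃ₐ[ℚ] Ω) → ℂ} (hf : Lvl L f)
    (hf' : Lvl L f') (F : ℂ → ℂ → ℂ) : Lvl L (fun x => F (f x) (f' x)) := fun g x hx => by
  beta_reduce
  rw [hf g x hx, hf' g x hx]

lemma Lvl.sum {L : IntermediateField ℚ Ω} {ι : Type*} (s : Finset ι)
    {f : ι → (Ω ≃ₐ[ℚ] Ω) → ℂ} (hf : ∀ i ∈ s, Lvl L (f i)) : Lvl L (fun x => ∑ i ∈ s, f i x) :=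
  fun g x hx => Finset.sum_congr rfl fun i hi => hf i hi g x hx

lemma IsCl.comp {G : Type*} [Group G] {f : G → ℂ} (hf : IsCl f) (F : ℂ → ℂ) :
    IsCl (fun x => F (f x)) := fun x g => congrArg F (hf x g)

lemma IsCl.comp₂ {G : Type*} [Group G] {f f' : G → ℂ} (hf : IsCl f) (hf' : IsCl f')
    (F : ℂ → ℂ → ℂ) : IsCl (fun x => F (f x) (f' x)) := fun x g => by
  beta_reduce
  rw [hf x g, hf' x g]

lemma IsCl.sum {G : Type*} [Group G] {ι : Type*} (s : Finset ι)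
    {f : ι → G → ℂ} (hf : ∀ i ∈ s, IsCl (f i)) : IsCl (fun x => ∑ i ∈ s, f i x) :=
  fun x g => Finset.sum_congr rfl fun i hi => hf i hi x g

lemma normal_fixing (L : IntermediateField ℚ Ω) [h : IsGalois ℚ L] : L.fixingSubgroup.Normal := by
  have h1 : @IsGalois ℚ _ L _ L.algebra' := h
  have h2 : @Normal ℚ L _ _ L.algebra' := h1.to_normal
  rw [← @IntermediateField.restrictNormalHom_ker _ _ _ _ _ L h2]
  infer_instance

lemma ArtinRep.isCl_char (R : ArtinRep Ω) : IsCl R.char := by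
  intro x g
  unfold ArtinRep.char
  rw [map_mul, map_mul]
  have h1 : ((R.ρ x * R.ρ g * R.ρ x⁻¹ : Matrix.GeneralLinearGroup (Fin R.n) ℂ) :
      Matrix (Fin R.n) (Fin R.n) ℂ) = (R.ρ x : Matrix (Fin R.n) (Fin R.n) ℂ) *
      (R.ρ g : Matrix (Fin R.n) (Fin R.n) ℂ) * (R.ρ x⁻¹ : Matrix (Fin R.n) (Fin R.n) ℂ) := rfl
  have h2 : (R.ρ x⁻¹ : Matrix (Fin R.n) (Fin R.n) ℂ) * (R.ρ x : Matrix (Fin R.n) (Fin R.n) ℂ) = 1 := by
    have h3 : R.ρ x⁻¹ * R.ρ x = 1 := by rw [← map_mul, inv_mul_cancel, map_one]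
    have h4 := congrArg (fun u : Matrix.GeneralLinearGroup (Fin R.n) ℂ =>
      (u : Matrix (Fin R.n) (Fin R.n) ℂ)) h3
    exact h4
  rw [h1, Matrix.trace_mul_comm, ← mul_assoc, h2, one_mul]

lemma ArtinRep.lvl_char {R : ArtinRep Ω} {L : IntermediateField ℚ Ω}
    (h : ∀ g ∈ L.fixingSubgroup, R.ρ g = 1) : Lvl L R.char := by
  intro g x hx
  unfold ArtinRep.char
  rw [map_mul, h x hx, mul_one]

/-- the mean value as a finite sum -/
lemma meanAt_eq (L : IntermediateField ℚ Ω) [Fintype ((Ω ≃ₐ[ℚ] Ω) ⧸ L.fixingSubgroup)]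
    (f : (Ω ≃ₐ[ℚ] Ω) → ℂ) :
    meanAt L f = (∑ q : (Ω ≃ₐ[ℚ] Ω) ⧸ L.fixingSubgroup, f q.out) /
      (Fintype.card ((Ω ≃ₐ[ℚ] Ω) ⧸ L.fixingSubgroup) : ℂ) := by
  unfold meanAt
  rw [finsum_eq_sum_of_fintype, Nat.card_eq_fintype_card]

end

end Pool.Agent.Work.MP_2b9663_nt
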