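import Pool.Agent.Work.MP_2b9663_nt.Ch.Cheb
import Pool.Agent.Work.MP_2b9663_nt.Ch.Levels
import Pool.Agent.Work.MP_2b9663_nt.Ch.DefsGroup

set_option autoImplicit false

/-!
Bessel's inequality for families of sums, with functions supported in the group of a Galois number
field.
-/

namespace Pool.Agent.Work.MP_2b9663_nt

open NumberField Filter Topology ComplexConjugate

section

variable {Ω : Type} [Field Ω] [CharZero Ω] [IsAlgClosure ℚ Ω]

/-- the density of the Frobenius elements in the group of a Galois number field -/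
lemma mvc_fixing (hyp : MeanHyp) (Fr : Nat.Primes → (Ω ≃ₐ[ℚ] Ω))
    (hFr : ∀ p : Nat.Primes, IsFrob (p : ℕ) (Fr p)) (K₀ : IntermediateField ℚ Ω) [NumberField K₀]
    [IsGalois ℚ K₀] [DecidablePred (· ∈ K₀.fixingSubgroup)] :
    MVC (fun p => if Fr p ∈ K₀.fixingSubgroup then 1 else 0)
      (1 / (Module.finrank ℚ K₀ : ℂ)) := by
  classical
  have hn := normal_fixing K₀
  set f : (Ω ≃ₐ[ℚ] Ω) → ℂ := fun g => if g ∈ K₀.fixingSubgroup then 1 else 0 with hf
  have hL : Lvl K₀ f := by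
    intro g h hh
    simp only [hf]
    exact if_congr (Subgroup.mul_mem_cancel_right _ hh) rfl rfl
  have hcl : IsCl f := by
    intro x g
    simp only [hf]
    exact if_congr ⟨fun h => by
        have := hn.conj_mem _ h x⁻¹
        rwa [show x⁻¹ * (x * g * x⁻¹) * x⁻¹⁻¹ = g by group] at this,
        fun h => hn.conj_mem _ h x⟩ rfl rfl
  have h1 := chebΩ_of hyp Fr hFr K₀ f hL hcl 0
  rw [if_pos rfl] at h1
  have h2 : meanAt K₀ f = 1 / (Module.finrank ℚ K₀ : ℂ) := by
    have h3 : f = fun g => (fun σ : K₀ ≃ₐ[ℚ] K₀ => if σ = 1 then (1 : ℂ) else 0)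
        (AlgEquiv.restrictNormalHom K₀ g) := by
      funext g
      simp only [hf]
      refine if_congr ?_ rfl rfl
      rw [← restrict_ker]
    rw [h3]
    refine (meanAt_restrict K₀ (fun σ : K₀ ≃ₐ[ℚ] K₀ => if σ = 1 then (1 : ℂ) else 0)).trans ?_
    rw [Finset.sum_ite_eq' Finset.univ, if_pos (Finset.mem_univ _)]
    congr 1
    have h4 : Fintype.card (K₀ ≃ₐ[ℚ] K₀) = Module.finrank ℚ K₀ := by
      rw [← Nat.card_eq_fintype_card]
      exact IsGalois.card_aut_eq_finrank ℚ K₀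
    exact_mod_cast h4
  rw [h2] at h1
  exact h1.congr ∅ fun p _ => by rw [pw_zero, mul_one]

/-- Bessel's inequality for families of sums; take `(hyp : MeanHyp)` as the first argument and use
`chebΩ_of hyp`. -/
theorem group_bessel (hyp : MeanHyp) (Fr : Nat.Primes → (Ω ≃ₐ[ℚ] Ω))
    (hFr : ∀ p : Nat.Primes, IsFrob (p : ℕ) (Fr p)) (K₀ : IntermediateField ℚ Ω) [NumberField K₀]
    [IsGalois ℚ K₀] {κ ι : Type} [Fintype κ] (β : κ → Nat.Primes → ℂ) (d : κ → ℕ)
    (hβ : ∀ j p, ‖β j p‖ ≤ d j) (f : κ → ι → (Ω ≃ₐ[ℚ] Ω) → ℂ) (hcl : ∀ j a, IsCl (f j a))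
    (hlvl : ∀ j a, ∃ L : IntermediateField ℚ Ω, NumberField L ∧ IsGalois ℚ L ∧ Lvl L (f j a))
    (h0 : ∀ j a, ∀ g, g ∉ K₀.fixingSubgroup → f j a g = 0)
    (hon : ∀ j, d j ≠ 0 → OrthoChar (f j)) (x : ι → ℤ)
    (hx : ∀ a, MVC (fun p => ∑ j, β j p * f j a (Fr p)) (x a)) (s : Finset ι) :
    (Module.finrank ℚ K₀ : ℤ) * ∑ a ∈ s, x a ^ 2 ≤ ((∑ j, d j : ℕ) : ℤ) ^ 2 := by
  classical
  set N : ℕ := Module.finrank ℚ K₀ with hN
  have hN0 : 0 < N := Module.finrank_pos
  have hNR : (0 : ℝ) < N := by exact_mod_cast hN0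
  set X : ℝ := ∑ a ∈ s, (x a : ℝ) ^ 2 with hX
  set D : ℝ := ∑ j, (d j : ℝ) with hD
  have hX0 : 0 ≤ X := Finset.sum_nonneg fun a _ => sq_nonneg _
  have hD0 : 0 ≤ D := Finset.sum_nonneg fun j _ => Nat.cast_nonneg _
  -- it is enough to prove the inequality for real numbers
  suffices hmain : (N : ℝ) * X ≤ D ^ 2 by
    have h1 : ((N : ℤ) : ℝ) * ((∑ a ∈ s, x a ^ 2 : ℤ) : ℝ) ≤ (((∑ j, d j : ℕ) : ℤ) : ℝ) ^ 2 := by
      push_cast
      exact hmain
    exact_mod_cast h1
  rcases hX0.eq_or_lt with h00 | hXpos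
  · rw [← h00, mul_zero]
    exact sq_nonneg _
  -- the combinations
  set W : κ → Nat.Primes → ℂ := fun j p => ∑ a ∈ s, (x a : ℂ) * f j a (Fr p) with hW
  have h1 : MVC (fun p => ∑ j, β j p * W j p) (X : ℂ) := by
    have h2 := MVC.sum s fun a _ => (hx a).const_mul (x a : ℂ)
    have h3 : ∑ a ∈ s, (x a : ℂ) * (x a : ℂ) = (X : ℂ) := by
      rw [hX]
      push_cast
      exact Finset.sum_congr rfl fun a _ => by ring
    rw [h3] at h2
    refine h2.congr ∅ fun p _ => ?_
    simp only [hW, Finset.mul_sum]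
    rw [Finset.sum_comm]
    exact Finset.sum_congr rfl fun j _ => Finset.sum_congr rfl fun a _ => by ring
  -- the mean squares
  have h2 : ∀ j, d j ≠ 0 → MVo (fun p => ‖W j p‖ ^ 2) X := by
    intro j hj
    have h3 : ∀ a b, MVC (fun p => f j a (Fr p) * conj (f j b (Fr p)))
        (if a = b then 1 else 0) := by
      intro a b
      obtain ⟨L, hL1, hL2, hLa, hLb, h4, h5⟩ := hon j hj a b
      have hL3 : NumberField L := @NumberField.mk _ _ inferInstance hL1
      have h6 := chebΩ_of hyp Fr hFr L (fun g => f j a g * conj (f j b g))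
        (hLa.comp₂ hLb fun z w => z * conj w) ((hcl j a).comp₂ (hcl j b) fun z w => z * conj w) 0
      rw [if_pos rfl] at h6
      have h7 : meanAt L (fun g => f j a g * conj (f j b g)) = if a = b then 1 else 0 := by
        split_ifs with hab
        · exact h4 hab
        · exact h5 hab
      rw [h7] at h6
      exact h6.congr ∅ fun p _ => by rw [pw_zero, mul_one]
    have h4 := MVC.sum s fun a _ => MVC.sum s fun b _ => (h3 a b).const_mul ((x a : ℂ) * x b)
    have h5 : ∑ a ∈ s, ∑ b ∈ s, (x a : ℂ) * x b * (if a = b then 1 else 0) = (X : ℂ) := by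
      rw [hX]
      push_cast
      refine Finset.sum_congr rfl fun a ha => ?_
      simp only [mul_ite, mul_one, mul_zero]
      rw [Finset.sum_ite_eq, if_pos ha]
      ring
    rw [h5] at h4
    have h6 := (h4.congr (d := fun p => ((‖W j p‖ ^ 2 : ℝ) : ℂ)) ∅ fun p _ => by
      have h7 : ((‖W j p‖ ^ 2 : ℝ) : ℂ) = W j p * conj (W j p) := by
        rw [Complex.mul_conj, Complex.normSq_eq_norm_sq]
      rw [h7]
      simp only [hW]
      rw [map_sum, Finset.sum_mul_sum]
      refine Finset.sum_congr rfl fun a _ => Finset.sum_congr rfl fun b _ => ?_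
      rw [map_mul, map_intCast]
      ring).re
    simp only [Complex.ofReal_re] at h6
    exact h6
  -- the indicator function
  have h3 : MVo (fun p => if Fr p ∈ K₀.fixingSubgroup then 1 else 0) (1 / (N : ℝ)) := by
    have h4 := (mvc_fixing hyp Fr hFr K₀).re
    have h5 : (1 / (N : ℂ)).re = 1 / (N : ℝ) := by
      rw [show (1 / (N : ℂ)) = ((1 / (N : ℝ) : ℝ) : ℂ) by push_cast; rfl, Complex.ofReal_re]
    rw [h5] at h4
    refine h4.congr ∅ fun p _ => ?_
    split_ifs <;> simp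
  -- the bound
  set lam : ℝ := Real.sqrt (N * X) with hlam
  have hlam0 : 0 < lam := Real.sqrt_pos.2 (mul_pos hNR hXpos)
  have hlam2 : lam ^ 2 = N * X := Real.sq_sqrt (mul_pos hNR hXpos).le
  have h4 : ∀ j, MVo (fun p => (d j : ℝ) * (1 / 2 * (lam * (if Fr p ∈ K₀.fixingSubgroup then 1 else 0) +
      lam⁻¹ * (if d j = 0 then 0 else ‖W j p‖ ^ 2))))
      ((d j : ℝ) * (1 / 2 * (lam * (1 / N) + lam⁻¹ * X))) := by
    intro j
    by_cases hj : d j = 0
    · simp only [hj, Nat.cast_zero, zero_mul]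
      have := (MVC.zero).re
      simpa using this
    · simp only [if_neg hj]
      exact (((h3.const_mul lam).add ((h2 j hj).const_mul lam⁻¹)).const_mul (1 / 2)).const_mul _
  have h5 : MVo (fun p => ∑ j, (d j : ℝ) * (1 / 2 * (lam * (if Fr p ∈ K₀.fixingSubgroup then 1 else 0) +
      lam⁻¹ * (if d j = 0 then 0 else ‖W j p‖ ^ 2))))
      (∑ j, (d j : ℝ) * (1 / 2 * (lam * (1 / N) + lam⁻¹ * X))) := by
    have h6 := (MVC.sum Finset.univ fun j _ => (h4 j).toMVC).re
    simpa using h6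
  have h6 := h1.norm_le h5 ∅ fun p _ => by
    refine (norm_sum_le _ _).trans (Finset.sum_le_sum fun j _ => ?_)
    rw [norm_mul]
    by_cases hj : d j = 0
    · have h7 : ‖β j p‖ = 0 := le_antisymm ((hβ j p).trans (by rw [hj, Nat.cast_zero])) (norm_nonneg _)
      rw [h7, hj]
      simp
    · rw [if_neg hj]
      refine mul_le_mul (hβ j p) ?_ (norm_nonneg _) (Nat.cast_nonneg _)
      by_cases hp : Fr p ∈ K₀.fixingSubgroup
      · rw [if_pos hp, mul_one]
        have h8 : 0 ≤ lam⁻¹ * (lam - ‖W j p‖) ^ 2 := by positivity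
        have h9 : lam⁻¹ * (lam - ‖W j p‖) ^ 2 = lam - 2 * ‖W j p‖ + lam⁻¹ * ‖W j p‖ ^ 2 := by
          field_simp
          ring
        linarith
      · have h8 : W j p = 0 := by
          simp only [hW]
          exact Finset.sum_eq_zero fun a _ => by rw [h0 j a _ hp, mul_zero]
        rw [h8, norm_zero, if_neg hp]
        simp
  rw [← Finset.sum_mul, Complex.norm_real, Real.norm_of_nonneg hX0] at h6
  -- X ≤ D * lam / N
  have h7 : (1 / 2 * (lam * (1 / N) + lam⁻¹ * X)) = lam / N := by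
    have h8 : X = lam ^ 2 / N := by
      rw [hlam2]
      field_simp
    rw [h8]
    field_simp
    ring
  rw [h7] at h6
  have h8 : lam ≤ D := by
    have h9 : lam ^ 2 / N ≤ D * (lam / N) := by
      calc lam ^ 2 / N = X := by rw [hlam2]; field_simp
        _ ≤ _ := h6
    rw [← mul_div_assoc, div_le_div_iff_of_pos_right hNR, sq] at h9
    exact le_of_mul_le_mul_right h9 hlam0
  calc (N : ℝ) * X = lam ^ 2 := hlam2.symm
    _ ≤ D ^ 2 := pow_le_pow_left₀ hlam0.le h8 2

end

end Pool.Agent.Work.MP_2b9663_nt
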