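import Pool.Agent.Work.MP_2b9663_nt.Ch.DefsGroup
import Pool.Agent.Work.MP_2b9663_nt.Ch.Levels

set_option autoImplicit false

/-!
Induced characters: class functions, levels, bounds, the trivial character.
-/

namespace Pool.Agent.Work.MP_2b9663_nt

open NumberField

section

variable {Ω : Type} [Field Ω] [CharZero Ω]

/-- the embedding of `K` given by an automorphism -/
noncomputable def embA (K : IntermediateField ℚ Ω) (g : Ω ≃ₐ[ℚ] Ω) : K →ₐ[ℚ] Ω :=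
  (g : Ω →ₐ[ℚ] Ω).comp K.val

theorem embA_apply (K : IntermediateField ℚ Ω) (g : Ω ≃ₐ[ℚ] Ω) (x : K) :
    embA K g x = g (x : Ω) := rfl

theorem embA_eq_iff {K : IntermediateField ℚ Ω} {g h : Ω ≃ₐ[ℚ] Ω} :
    embA K g = embA K h ↔ g⁻¹ * h ∈ K.fixingSubgroup := by
  rw [IntermediateField.mem_fixingSubgroup_iff]
  constructor
  · intro h1 x hx
    have h2 := DFunLike.congr_fun h1 (⟨x, hx⟩ : K)
    rw [embA_apply, embA_apply] at h2
    rw [AlgEquiv.mul_apply, ← h2]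
    exact AlgEquiv.symm_apply_apply g x
  · intro h1
    refine AlgHom.ext fun x => ?_
    have h2 := h1 x x.2
    rw [AlgEquiv.mul_apply] at h2
    rw [embA_apply, embA_apply]
    have h3 := congrArg g h2
    exact h3.symm.trans (AlgEquiv.apply_symm_apply g _)

variable [IsAlgClosure ℚ Ω]

theorem embA_surj (K : IntermediateField ℚ Ω) (σ : K →ₐ[ℚ] Ω) : ∃ g : Ω ≃ₐ[ℚ] Ω, embA K g = σ := by
  have : Algebra.IsAlgebraic ℚ Ω := IsAlgClosure.isAlgebraic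
  have : Normal ℚ Ω := IsAlgClosure.normal ℚ Ω
  have hb := Algebra.IsAlgebraic.algHom_bijective (σ.liftNormal Ω)
  refine ⟨AlgEquiv.ofBijective _ hb, AlgHom.ext fun x => ?_⟩
  exact σ.liftNormal_commutes Ω x

/-- the cosets correspond to the embeddings -/
noncomputable def cosEmb (K : IntermediateField ℚ Ω) :
    ((Ω ≃ₐ[ℚ] Ω) ⧸ K.fixingSubgroup) ≃ (K →ₐ[ℚ] Ω) :=
  Equiv.ofBijective (fun c => embA K c.out) ⟨fun c c' h => by
    have h1 : c.out⁻¹ * c'.out ∈ K.fixingSubgroup := embA_eq_iff.1 h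
    rw [← QuotientGroup.out_eq' c, ← QuotientGroup.out_eq' c']
    exact QuotientGroup.eq.2 h1, fun σ => by
    obtain ⟨g, hg⟩ := embA_surj K σ
    refine ⟨(g : (Ω ≃ₐ[ℚ] Ω) ⧸ K.fixingSubgroup), ?_⟩
    rw [← hg]
    refine embA_eq_iff.2 ?_
    exact QuotientGroup.eq.1 (QuotientGroup.out_eq' _)⟩

theorem cosEmb_apply {K : IntermediateField ℚ Ω} (c : (Ω ≃ₐ[ℚ] Ω) ⧸ K.fixingSubgroup) (x : K) :
    cosEmb K c x = c.out (x : Ω) := rfl

variable {K : IntermediateField ℚ Ω} [NumberField K]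

instance finite_coset : Finite ((Ω ≃ₐ[ℚ] Ω) ⧸ K.fixingSubgroup) :=
  Finite.of_equiv _ (cosEmb K).symm

theorem card_coset_le : Nat.card ((Ω ≃ₐ[ℚ] Ω) ⧸ K.fixingSubgroup) ≤ Module.finrank ℚ K := by
  rw [Nat.card_congr (cosEmb K)]
  exact card_algHom_le_finrank ℚ K Ω

variable {A : Type} [Group A] (ξ : TwistHom K A) {χ : A → ℂ}

open scoped Classical in
/-- one summand -/
noncomputable def indS (ξ : TwistHom K A) (χ : A → ℂ) (g γ : Ω ≃ₐ[ℚ] Ω) : ℂ :=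
  if h : γ⁻¹ * g * γ ∈ K.fixingSubgroup then χ (ξ.hom ⟨γ⁻¹ * g * γ, h⟩) else 0

omit [IsAlgClosure ℚ Ω] [NumberField K] in
theorem indChar_eq (ξ : TwistHom K A) (χ : A → ℂ) (g : Ω ≃ₐ[ℚ] Ω) :
    indChar ξ χ g = ∑ᶠ c : (Ω ≃ₐ[ℚ] Ω) ⧸ K.fixingSubgroup, indS ξ χ g c.out := rfl

omit [IsAlgClosure ℚ Ω] [NumberField K] in
theorem indS_congr {g g' γ γ' : Ω ≃ₐ[ℚ] Ω} (h : γ⁻¹ * g * γ = γ'⁻¹ * g' * γ') :
    indS ξ χ g γ = indS ξ χ g' γ' := by
  classical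
  have h1 : ∀ u v : Ω ≃ₐ[ℚ] Ω, u = v →
      (if h : u ∈ K.fixingSubgroup then χ (ξ.hom ⟨u, h⟩) else 0) =
        if h : v ∈ K.fixingSubgroup then χ (ξ.hom ⟨v, h⟩) else 0 := by
    rintro u _ rfl
    rfl
  unfold indS
  have h2 := h1 _ _ h
  convert h2

omit [IsAlgClosure ℚ Ω] [NumberField K] in
theorem indS_mul (hχ : IsCl χ) (g γ : Ω ≃ₐ[ℚ] Ω) {h : Ω ≃ₐ[ℚ] Ω} (hh : h ∈ K.fixingSubgroup) :
    indS ξ χ g (γ * h) = indS ξ χ g γ := by
  have he : (γ * h)⁻¹ * g * (γ * h) = h⁻¹ * (γ⁻¹ * g * γ) * h := by group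
  unfold indS
  by_cases h1 : γ⁻¹ * g * γ ∈ K.fixingSubgroup
  · have h2 : (γ * h)⁻¹ * g * (γ * h) ∈ K.fixingSubgroup := by
      rw [he]
      exact K.fixingSubgroup.mul_mem (K.fixingSubgroup.mul_mem (K.fixingSubgroup.inv_mem hh) h1) hh
    rw [dif_pos h1, dif_pos h2]
    have h3 : (⟨(γ * h)⁻¹ * g * (γ * h), h2⟩ : K.fixingSubgroup) =
        ⟨h, hh⟩⁻¹ * ⟨γ⁻¹ * g * γ, h1⟩ * (⟨h, hh⟩⁻¹)⁻¹ := by
      refine Subtype.ext ?_
      rw [inv_inv]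
      exact he
    rw [h3, map_mul, map_mul, map_inv ξ.hom (⟨h, hh⟩⁻¹ : K.fixingSubgroup)]
    exact hχ _ _
  · have h2 : (γ * h)⁻¹ * g * (γ * h) ∉ K.fixingSubgroup := by
      intro h2
      apply h1
      have h3 : γ⁻¹ * g * γ = h * ((γ * h)⁻¹ * g * (γ * h)) * h⁻¹ := by group
      rw [h3]
      exact K.fixingSubgroup.mul_mem (K.fixingSubgroup.mul_mem hh h2) (K.fixingSubgroup.inv_mem hh)
    rw [dif_neg h1, dif_neg h2]

omit [IsAlgClosure ℚ Ω] [NumberField K] in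
theorem indS_out (hχ : IsCl χ) (g γ : Ω ≃ₐ[ℚ] Ω) :
    indS ξ χ g (γ : (Ω ≃ₐ[ℚ] Ω) ⧸ K.fixingSubgroup).out = indS ξ χ g γ := by
  have h1 : γ⁻¹ * (γ : (Ω ≃ₐ[ℚ] Ω) ⧸ K.fixingSubgroup).out ∈ K.fixingSubgroup :=
    QuotientGroup.eq.1 (QuotientGroup.out_eq' _).symm
  have h2 : (γ : (Ω ≃ₐ[ℚ] Ω) ⧸ K.fixingSubgroup).out =
      γ * (γ⁻¹ * (γ : (Ω ≃ₐ[ℚ] Ω) ⧸ K.fixingSubgroup).out) := by group
  rw [h2, indS_mul ξ hχ g γ h1]

omit [NumberField K] [IsAlgClosure ℚ Ω] in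
theorem isCl_indChar (hχ : IsCl χ) : IsCl (indChar ξ χ) := by
  intro x g
  rw [indChar_eq, indChar_eq]
  have h1 : ∀ c : (Ω ≃ₐ[ℚ] Ω) ⧸ K.fixingSubgroup,
      indS ξ χ (x * g * x⁻¹) c.out = indS ξ χ g (x⁻¹ • c).out := by
    intro c
    have h2 : x⁻¹ • c = ((x⁻¹ * c.out : Ω ≃ₐ[ℚ] Ω) : (Ω ≃ₐ[ℚ] Ω) ⧸ K.fixingSubgroup) := by
      conv_lhs => rw [← QuotientGroup.out_eq' c]
      rfl
    rw [h2, indS_out ξ hχ]
    have h3 : c.out⁻¹ * (x * g * x⁻¹) * c.out = (x⁻¹ * c.out)⁻¹ * g * (x⁻¹ * c.out) := by group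
    exact indS_congr ξ h3
  rw [finsum_congr h1]
  exact finsum_comp_equiv (f := fun c : (Ω ≃ₐ[ℚ] Ω) ⧸ K.fixingSubgroup => indS ξ χ g c.out)
    (MulAction.toPerm x⁻¹)

/-- a common level of all functions `indChar ξ χ` -/
theorem exists_lvl_indChar : ∃ L : IntermediateField ℚ Ω, NumberField L ∧ IsGalois ℚ L ∧ K ≤ L ∧
    ∀ χ : A → ℂ, IsCl χ → Lvl L (indChar ξ χ) := by
  have : Algebra.IsAlgebraic ℚ Ω := IsAlgClosure.isAlgebraic
  have : Normal ℚ Ω := IsAlgClosure.normal ℚ Ω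
  obtain ⟨M, hM, hξ⟩ := ξ.level
  have hKM : FiniteDimensional ℚ (K ⊔ M : IntermediateField ℚ Ω) :=
    IntermediateField.finiteDimensional_sup K M
  have hN : @Normal ℚ (IntermediateField.normalClosure ℚ (K ⊔ M : IntermediateField ℚ Ω) Ω) _ _
      (IntermediateField.algebra'
        (IntermediateField.normalClosure ℚ (K ⊔ M : IntermediateField ℚ Ω) Ω)) :=
    normalClosure.normal ℚ _ Ω
  have hF : @FiniteDimensional ℚ
      (IntermediateField.normalClosure ℚ (K ⊔ M : IntermediateField ℚ Ω) Ω) _ _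
      (IntermediateField.algebra'
        (IntermediateField.normalClosure ℚ (K ⊔ M : IntermediateField ℚ Ω) Ω)).toModule :=
    normalClosure.is_finiteDimensional ℚ _ Ω
  have hN' : Normal ℚ (IntermediateField.normalClosure ℚ (K ⊔ M : IntermediateField ℚ Ω) Ω) := hN
  have hF' : FiniteDimensional ℚ
    (IntermediateField.normalClosure ℚ (K ⊔ M : IntermediateField ℚ Ω) Ω) := hF
  have hle : K ⊔ M ≤ IntermediateField.normalClosure ℚ (K ⊔ M : IntermediateField ℚ Ω) Ω :=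
    IntermediateField.le_normalClosure _
  have hG : IsGalois ℚ (IntermediateField.normalClosure ℚ (K ⊔ M : IntermediateField ℚ Ω) Ω) := ⟨⟩
  refine ⟨IntermediateField.normalClosure ℚ (K ⊔ M : IntermediateField ℚ Ω) Ω, ⟨⟩, hG,
    le_sup_left.trans hle, fun χ hχ g h hh => ?_⟩
  have hnorm := normal_fixing (IntermediateField.normalClosure ℚ (K ⊔ M : IntermediateField ℚ Ω) Ω)
  rw [indChar_eq, indChar_eq]
  refine finsum_congr fun c => ?_
  have h1 : c.out⁻¹ * h * c.out ∈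
      (IntermediateField.normalClosure ℚ (K ⊔ M : IntermediateField ℚ Ω) Ω).fixingSubgroup := by
    have := hnorm.conj_mem h hh c.out⁻¹
    rwa [inv_inv] at this
  have h2 : c.out⁻¹ * h * c.out ∈ K.fixingSubgroup :=
    IntermediateField.fixingSubgroup_le (le_sup_left.trans hle) h1
  have h3 : ξ.hom ⟨c.out⁻¹ * h * c.out, h2⟩ = 1 :=
    hξ ⟨_, h2⟩ (IntermediateField.fixingSubgroup_le (le_sup_right.trans hle) h1)
  have he : c.out⁻¹ * (g * h) * c.out = (c.out⁻¹ * g * c.out) * (c.out⁻¹ * h * c.out) := by group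
  unfold indS
  by_cases h4 : c.out⁻¹ * g * c.out ∈ K.fixingSubgroup
  · have h5 : c.out⁻¹ * (g * h) * c.out ∈ K.fixingSubgroup := by
      rw [he]
      exact K.fixingSubgroup.mul_mem h4 h2
    rw [dif_pos h4, dif_pos h5]
    have h6 : (⟨c.out⁻¹ * (g * h) * c.out, h5⟩ : K.fixingSubgroup) =
        ⟨c.out⁻¹ * g * c.out, h4⟩ * ⟨c.out⁻¹ * h * c.out, h2⟩ := Subtype.ext he
    rw [h6, map_mul, h3, mul_one]
  · have h5 : c.out⁻¹ * (g * h) * c.out ∉ K.fixingSubgroup := by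
      intro h5
      apply h4
      have h6 := K.fixingSubgroup.mul_mem h5 (K.fixingSubgroup.inv_mem h2)
      rw [he] at h6
      simpa using h6
    rw [dif_neg h4, dif_neg h5]

theorem norm_indChar_le {C : ℝ} (hC : ∀ x, ‖χ x‖ ≤ C) (g : Ω ≃ₐ[ℚ] Ω) :
    ‖indChar ξ χ g‖ ≤ Module.finrank ℚ K * C := by
  have hC0 : 0 ≤ C := (norm_nonneg _).trans (hC 1)
  have := Fintype.ofFinite ((Ω ≃ₐ[ℚ] Ω) ⧸ K.fixingSubgroup)
  rw [indChar_eq, finsum_eq_sum_of_fintype]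
  have h1 : ∀ c : (Ω ≃ₐ[ℚ] Ω) ⧸ K.fixingSubgroup, ‖indS ξ χ g c.out‖ ≤ C := by
    intro c
    unfold indS
    split_ifs with h
    · exact hC _
    · rw [norm_zero]
      exact hC0
  calc ‖∑ c : (Ω ≃ₐ[ℚ] Ω) ⧸ K.fixingSubgroup, indS ξ χ g c.out‖
      ≤ ∑ c : (Ω ≃ₐ[ℚ] Ω) ⧸ K.fixingSubgroup, ‖indS ξ χ g c.out‖ := norm_sum_le _ _
    _ ≤ ∑ _c : (Ω ≃ₐ[ℚ] Ω) ⧸ K.fixingSubgroup, C := Finset.sum_le_sum fun c _ => h1 c
    _ = Nat.card ((Ω ≃ₐ[ℚ] Ω) ⧸ K.fixingSubgroup) * C := by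
      rw [Finset.sum_const, Finset.card_univ, nsmul_eq_mul, Nat.card_eq_fintype_card]
    _ ≤ Module.finrank ℚ K * C :=
      mul_le_mul_of_nonneg_right (by exact_mod_cast card_coset_le) hC0

omit [NumberField K] [IsAlgClosure ℚ Ω] in
theorem indChar_eq_zero (K₀ : IntermediateField ℚ Ω) [NumberField K₀] [IsGalois ℚ K₀] (h : K₀ ≤ K)
    {g : Ω ≃ₐ[ℚ] Ω} (hg : g ∉ K₀.fixingSubgroup) : indChar ξ χ g = 0 := by
  have hnorm := normal_fixing K₀
  rw [indChar_eq]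
  refine (finsum_congr fun c => ?_).trans finsum_zero
  unfold indS
  rw [dif_neg]
  intro h1
  apply hg
  have h2 := hnorm.conj_mem _ (IntermediateField.fixingSubgroup_le h h1) c.out
  have h3 : c.out * (c.out⁻¹ * g * c.out) * c.out⁻¹ = g := by group
  rwa [h3] at h2

theorem indChar_one (g : Ω ≃ₐ[ℚ] Ω) : indChar ξ (fun _ => 1) g = fixEmb K Ω g := by
  classical
  have := Fintype.ofFinite ((Ω ≃ₐ[ℚ] Ω) ⧸ K.fixingSubgroup)
  rw [indChar_eq, finsum_eq_sum_of_fintype]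
  have h1 : ∀ c : (Ω ≃ₐ[ℚ] Ω) ⧸ K.fixingSubgroup, indS ξ (fun _ => 1) g c.out =
      if c.out⁻¹ * g * c.out ∈ K.fixingSubgroup then 1 else 0 := by
    intro c
    unfold indS
    split_ifs with h
    · rfl
    · rfl
  rw [Finset.sum_congr rfl fun c _ => h1 c, Finset.sum_boole]
  congr 1
  unfold fixEmb
  rw [← Fintype.card_subtype, ← Nat.card_eq_fintype_card]
  refine Nat.card_congr ((((cosEmb K).trans (RingHom.equivRatAlgHom K Ω).symm)).subtypeEquiv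
    fun c => ?_)
  rw [IntermediateField.mem_fixingSubgroup_iff]
  constructor
  · intro h x
    have h2 := h x x.2
    rw [AlgEquiv.mul_apply, AlgEquiv.mul_apply] at h2
    have h3 := congrArg c.out h2
    exact (AlgEquiv.apply_symm_apply c.out _).symm.trans h3
  · intro h x hx
    have h2 : g (c.out x) = c.out x := h ⟨x, hx⟩
    rw [AlgEquiv.mul_apply, AlgEquiv.mul_apply, h2]
    exact AlgEquiv.symm_apply_apply c.out x

end

end Pool.Agent.Work.MP_2b9663_nt
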