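import Pool.Agent.Work.MP_2b9663_nt.Ch.CDefs

set_option autoImplicit false

/-!
The Lipschitz estimate for the weighted powers of the norm.
-/

namespace Pool.Agent.Work.MP_2b9663_nt

open NumberField NumberField.mixedEmbedding NumberField.Units
  NumberField.Units.dirichletUnitTheorem Module InfinitePlace

namespace Lip

lemma tent_nonneg (c : ℝ) : 0 ≤ tent c := le_max_left _ _

lemma tent_le_one (c : ℝ) : tent c ≤ 1 := by
  unfold tent
  exact max_le zero_le_one (by linarith [abs_nonneg c])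

lemma tent_lip (a b : ℝ) : |tent a - tent b| ≤ |a - b| := by
  unfold tent
  refine (abs_max_sub_max_le_max _ _ _ _).trans ?_
  refine max_le (by simp) ?_
  rw [show (1 - |a|) - (1 - |b|) = -(|a| - |b|) by ring, abs_neg]
  exact abs_abs_sub_abs_le a b

lemma tent_ne_zero {c : ℝ} (h : tent c ≠ 0) : |c| < 1 := by
  by_contra hc
  push Not at hc
  exact h (max_eq_left (by linarith))

lemma abs_prod_sub_prod_le {ι : Type*} (s : Finset ι) (f g : ι → ℝ)
    (hf : ∀ i, |f i| ≤ 1) (hg : ∀ i, |g i| ≤ 1) :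
    |∏ i ∈ s, f i - ∏ i ∈ s, g i| ≤ ∑ i ∈ s, |f i - g i| := by
  classical
  induction s using Finset.induction_on with
  | empty => simp
  | insert a s ha ih =>
    rw [Finset.prod_insert ha, Finset.prod_insert ha, Finset.sum_insert ha,
      show f a * ∏ i ∈ s, f i - g a * ∏ i ∈ s, g i =
        (f a - g a) * ∏ i ∈ s, f i + g a * (∏ i ∈ s, f i - ∏ i ∈ s, g i) by ring]
    refine (abs_add_le _ _).trans (add_le_add ?_ ?_)
    · rw [abs_mul]
      have : |∏ i ∈ s, f i| ≤ 1 := by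
        rw [Finset.abs_prod]
        exact Finset.prod_le_one (fun i _ => abs_nonneg _) fun i _ => hf i
      exact mul_le_of_le_one_right (abs_nonneg _) this
    · rw [abs_mul]
      exact (mul_le_of_le_one_left (abs_nonneg _) (hg a)).trans ih

variable (K : Type) [Field K] [NumberField K]

lemma wt_zero : wt K 0 = 0 := by simp [wt]

lemma wt_nonneg (x : 𝓞 K) : 0 ≤ wt K x := by
  unfold wt
  split_ifs
  · exact le_rfl
  · exact mul_nonneg (inv_nonneg.2 (Nat.cast_nonneg _)) (Finset.prod_nonneg fun i _ => tent_nonneg _)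

lemma wt_le_one (x : 𝓞 K) : wt K x ≤ 1 := by
  unfold wt
  split_ifs
  · exact zero_le_one
  · have h1 : (torsionOrder K : ℝ)⁻¹ ≤ 1 := by
      refine inv_le_one_of_one_le₀ ?_
      exact_mod_cast Nat.one_le_iff_ne_zero.2 (torsionOrder_ne_zero K)
    exact mul_le_one₀ h1 (Finset.prod_nonneg fun i _ => tent_nonneg _)
      (Finset.prod_le_one (fun i _ => tent_nonneg _) fun i _ => tent_le_one _)

variable {K}

lemma ne_zero_of_wt {x : 𝓞 K} (h : wt K x ≠ 0) : x ≠ 0 := by
  rintro rfl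
  exact h (wt_zero K)

lemma lc_lt_of_wt {x : 𝓞 K} (h : wt K x ≠ 0) (i : Fin (rank K)) :
    |lc K (mixedEmbedding K (x : K)) i| < 1 := by
  have h1 := ne_zero_of_wt h
  have h2 : ∏ i, tent (lc K (mixedEmbedding K (x : K)) i) ≠ 0 := by
    intro h0
    exact h (by simp [wt, h0])
  exact tent_ne_zero fun h3 => h2 (Finset.prod_eq_zero (Finset.mem_univ i) h3)

/-- the normalised logarithm at a place -/
noncomputable def nlog (w : InfinitePlace K) (X : mixedSpace K) : ℝ :=
  Real.log (normAtPlace w X) - Real.log (mixedEmbedding.norm X) * (finrank ℚ K : ℝ)⁻¹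

lemma finrank_ne : (finrank ℚ K : ℝ) ≠ 0 := by
  exact_mod_cast (finrank_pos (R := ℚ) (M := K)).ne'

lemma log_norm {X : mixedSpace K} (hX : mixedEmbedding.norm X ≠ 0) :
    Real.log (mixedEmbedding.norm X) =
      ∑ w : InfinitePlace K, (mult w : ℝ) * Real.log (normAtPlace w X) := by
  rw [mixedEmbedding.norm_apply, Real.log_prod]
  · refine Finset.sum_congr rfl fun w _ => ?_
    rw [Real.log_pow]
  · intro w _
    exact pow_ne_zero _ (mixedEmbedding.norm_ne_zero_iff.1 hX w)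

lemma sum_mult : ∑ w : InfinitePlace K, (mult w : ℝ) = finrank ℚ K := by
  exact_mod_cast sum_mult_eq (K := K)

lemma sum_nlog {X : mixedSpace K} (hX : mixedEmbedding.norm X ≠ 0) :
    ∑ w : InfinitePlace K, (mult w : ℝ) * nlog w X = 0 := by
  unfold nlog
  have h3 := finrank_ne (K := K)
  simp only [mul_sub, Finset.sum_sub_distrib]
  rw [← log_norm hX, ← Finset.sum_mul, sum_mult]
  field_simp
  ring

omit [NumberField K] in
lemma one_le_mult (w : InfinitePlace K) : (1 : ℝ) ≤ mult w := by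
  exact_mod_cast Nat.one_le_iff_ne_zero.2 mult_ne_zero

lemma abs_nlog_le {X : mixedSpace K} (hX : mixedEmbedding.norm X ≠ 0) {M : ℝ} (hM0 : 0 ≤ M)
    (hM : ∀ w, |logMap X w| ≤ M) (w : InfinitePlace K) :
    |nlog w X| ≤ Fintype.card (InfinitePlace K) * M := by
  classical
  have hother : ∀ v : InfinitePlace K, v ≠ w₀ → |(mult v : ℝ) * nlog v X| ≤ M := by
    intro v hv
    exact hM ⟨v, hv⟩
  have hsum := sum_nlog hX
  have hcard : (1 : ℝ) ≤ Fintype.card (InfinitePlace K) := by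
    exact_mod_cast Fintype.card_pos_iff.2 ⟨w⟩
  have key : |(mult w : ℝ) * nlog w X| ≤ Fintype.card (InfinitePlace K) * M := by
    by_cases hw : w = w₀
    · rw [← Finset.add_sum_erase _ _ (Finset.mem_univ w)] at hsum
      have h1 : (mult w : ℝ) * nlog w X =
          -∑ v ∈ Finset.univ.erase w, (mult v : ℝ) * nlog v X := by linarith
      rw [h1, abs_neg]
      refine (Finset.abs_sum_le_sum_abs _ _).trans ?_
      refine (Finset.sum_le_sum (g := fun _ => M) fun v hv => ?_).trans ?_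
      · exact hother v (by rw [← hw]; exact Finset.ne_of_mem_erase hv)
      · rw [Finset.sum_const, nsmul_eq_mul]
        refine mul_le_mul_of_nonneg_right ?_ hM0
        exact_mod_cast Finset.card_le_univ _
    · exact (hother w hw).trans (le_mul_of_one_le_left hM0 hcard)
  refine le_trans ?_ key
  have h1 := one_le_mult w
  rw [abs_mul, abs_of_nonneg (by linarith : (0 : ℝ) ≤ mult w)]
  exact le_mul_of_one_le_left (abs_nonneg _) h1

variable (K)

lemma exists_logMap_bound : ∃ M : ℝ, 0 ≤ M ∧ ∀ X : mixedSpace K, (∀ i, |lc K X i| < 1) →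
    ∀ w, |logMap X w| ≤ M := by
  classical
  let B := (basisUnitLattice K).ofZLatticeBasis ℝ (unitLattice K)
  refine ⟨∑ i, ‖B i‖, Finset.sum_nonneg fun i _ => norm_nonneg _, fun X hX w => ?_⟩
  have h1 : logMap X = ∑ i, lc K X i • B i := by
    exact (B.sum_repr (logMap X)).symm
  have h2 : |logMap X w| ≤ ‖logMap X‖ := norm_le_pi_norm (logMap X) w
  refine h2.trans ?_
  rw [h1]
  refine (norm_sum_le _ _).trans (Finset.sum_le_sum fun i _ => ?_)
  rw [_root_.norm_smul]
  exact mul_le_of_le_one_left (norm_nonneg _) (hX i).le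

open scoped Classical in
lemma exists_lc_lip : ∃ C : ℝ, 0 ≤ C ∧ ∀ (X Y : mixedSpace K) (i : Fin (rank K)),
    |lc K X i - lc K Y i| ≤ C * ‖logMap X - logMap Y‖ := by
  let B := (basisUnitLattice K).ofZLatticeBasis ℝ (unitLattice K)
  let f : Fin (rank K) → (logSpace K →L[ℝ] ℝ) := fun i => LinearMap.toContinuousLinearMap (B.coord i)
  refine ⟨∑ i, ‖f i‖, Finset.sum_nonneg fun i _ => norm_nonneg _, fun X Y i => ?_⟩
  have h1 : lc K X i - lc K Y i = f i (logMap X - logMap Y) := by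
    rw [map_sub]
    rfl
  rw [h1]
  refine ((f i).le_opNorm _).trans ?_
  exact mul_le_mul_of_nonneg_right (Finset.single_le_sum (f := fun i => ‖f i‖)
    (fun i _ => norm_nonneg _) (Finset.mem_univ i)) (norm_nonneg _)

variable {K}

lemma norm_ne {x : 𝓞 K} (h : x ≠ 0) : mixedEmbedding.norm (mixedEmbedding K (x : K)) ≠ 0 := by
  rw [norm_eq_norm]
  simpa using h

lemma place_pos {x : 𝓞 K} (h : x ≠ 0) (w : InfinitePlace K) :
    0 < normAtPlace w (mixedEmbedding K (x : K)) :=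
  lt_of_le_of_ne (normAtPlace_nonneg _ _) (mixedEmbedding.norm_ne_zero_iff.1 (norm_ne h) w).symm

lemma nrm_eq (x : 𝓞 K) : (nrm K x : ℝ) = mixedEmbedding.norm (mixedEmbedding K (x : K)) := by
  rw [norm_eq_norm, nrm, Nat.cast_natAbs, ← Algebra.coe_norm_int]
  push_cast
  rfl

lemma nrm_pos {x : 𝓞 K} (h : x ≠ 0) : 0 < nrm K x := by
  rw [nrm, Int.natAbs_pos]
  exact Algebra.norm_ne_zero_iff.2 h

open scoped Classical in
lemma normAtPlace_le (w : InfinitePlace K) (X : mixedSpace K) : normAtPlace w X ≤ ‖X‖ := by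
  rw [norm_eq_sup'_normAtPlace]
  exact Finset.le_sup' (fun w => normAtPlace w X) (Finset.mem_univ w)

variable (K)

/-- all absolute values are comparable to the size if the weight does not vanish -/
lemma exists_kappa : ∃ κ : ℝ, 0 < κ ∧ κ ≤ 1 ∧ ∀ x : 𝓞 K, wt K x ≠ 0 → ∀ w,
    κ * sz K x ≤ normAtPlace w (mixedEmbedding K (x : K)) := by
  classical
  obtain ⟨M, hM0, hM⟩ := exists_logMap_bound K
  set M' : ℝ := Fintype.card (InfinitePlace K) * M with hM'
  have hM'0 : 0 ≤ M' := by positivity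
  refine ⟨Real.exp (-(2 * M')), Real.exp_pos _, Real.exp_le_one_iff.2 (by linarith),
    fun x hx w => ?_⟩
  have hx0 := ne_zero_of_wt hx
  have hn := norm_ne hx0
  have h1 := abs_nlog_le hn hM0 (hM _ (lc_lt_of_wt hx))
  have h2 : ∀ v, normAtPlace v (mixedEmbedding K (x : K)) ≤
      Real.exp (2 * M') * normAtPlace w (mixedEmbedding K (x : K)) := by
    intro v
    have h3 := (abs_le.1 (h1 v)).2
    have h4 := (abs_le.1 (h1 w)).1
    unfold nlog at h3 h4
    rw [← Real.log_le_log_iff (place_pos hx0 v)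
      (mul_pos (Real.exp_pos _) (place_pos hx0 w)), Real.log_mul (Real.exp_pos _).ne'
      (place_pos hx0 w).ne', Real.log_exp]
    linarith
  have h3 : sz K x ≤ Real.exp (2 * M') * normAtPlace w (mixedEmbedding K (x : K)) := by
    unfold sz
    rw [norm_eq_sup'_normAtPlace]
    exact Finset.sup'_le _ _ fun v _ => h2 v
  calc Real.exp (-(2 * M')) * sz K x
      ≤ Real.exp (-(2 * M')) * (Real.exp (2 * M') * normAtPlace w (mixedEmbedding K (x : K))) :=
        mul_le_mul_of_nonneg_left h3 (Real.exp_pos _).le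
    _ = normAtPlace w (mixedEmbedding K (x : K)) := by
        rw [← mul_assoc, ← Real.exp_add]
        simp

variable {K}

/-- an algebraic number all whose conjugates are smaller than one -/
lemma norm_one_add_pos {t : K} (ht : ∀ w : InfinitePlace K, w t < 1) :
    0 < Algebra.norm ℚ (1 + t) := by
  classical
  let f : ℝ → ℂ := fun r => ∏ φ : K →+* ℂ, (1 + (r : ℂ) * φ t)
  have hf1 : f 1 = ((Algebra.norm ℚ (1 + t) : ℚ) : ℂ) := by
    have h1 := Algebra.norm_eq_prod_embeddings ℚ ℂ (1 + t)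
    rw [← Fintype.prod_equiv (RingHom.equivRatAlgHom K ℂ) (fun φ : K →+* ℂ => φ (1 + t))
      (fun φ : K →ₐ[ℚ] ℂ => φ (1 + t)) (fun φ => rfl)] at h1
    rw [show ((Algebra.norm ℚ (1 + t) : ℚ) : ℂ) = algebraMap ℚ ℂ (Algebra.norm ℚ (1 + t)) by simp,
      h1]
    refine Finset.prod_congr rfl fun φ _ => ?_
    simp
  have hreal : ∀ r, (starRingEnd ℂ) (f r) = f r := by
    intro r
    simp only [f, map_prod, map_add, map_one, map_mul, Complex.conj_ofReal]
    refine Fintype.prod_bijective (fun φ : K →+* ℂ => ComplexEmbedding.conjugate φ)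
      (ComplexEmbedding.involutive_conjugate K).bijective _ _ fun φ => ?_
    simp
  have hne : ∀ r ∈ Set.Icc (0 : ℝ) 1, f r ≠ 0 := by
    intro r hr
    refine Finset.prod_ne_zero_iff.2 fun φ _ h0 => ?_
    have h1 : ‖(r : ℂ) * φ t‖ < 1 := by
      rw [norm_mul, Complex.norm_real, Real.norm_of_nonneg hr.1]
      have h2 : ‖φ t‖ < 1 := ht (InfinitePlace.mk φ)
      exact (mul_le_of_le_one_left (norm_nonneg _) hr.2).trans_lt h2
    have h2 : (r : ℂ) * φ t = -1 := by linear_combination h0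
    rw [h2, norm_neg, norm_one] at h1
    exact lt_irrefl _ h1
  have hre : ∀ r ∈ Set.Icc (0 : ℝ) 1, (f r).re ≠ 0 := by
    intro r hr h0
    refine hne r hr (Complex.ext h0 ?_)
    have := congrArg Complex.im (hreal r)
    rw [Complex.conj_im] at this
    rw [Complex.zero_im]
    linarith
  have hc : ContinuousOn (fun r : ℝ => (f r).re) (Set.Icc 0 1) := by
    refine Continuous.continuousOn ?_
    refine Complex.continuous_re.comp (continuous_finsetProd _ fun φ _ => ?_)
    fun_prop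
  have h0 : (f 0).re = 1 := by simp [f]
  have h1 : 0 < (f 1).re := by
    by_contra hlt
    push Not at hlt
    obtain ⟨r, hr, hr0⟩ := intermediate_value_Icc' zero_le_one hc
      (show (0 : ℝ) ∈ Set.Icc ((f 1).re) ((f 0).re) from ⟨hlt, by rw [h0]; exact zero_le_one⟩)
    exact hre r hr hr0
  rw [hf1] at h1
  have h2 : (((Algebra.norm ℚ (1 + t) : ℚ) : ℂ)).re = ((Algebra.norm ℚ (1 + t) : ℚ) : ℝ) := by
    simp
  rw [h2] at h1
  exact_mod_cast h1

lemma sign_eq {x v : 𝓞 K} (hx : x ≠ 0)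
    (h : ∀ w, normAtPlace w (mixedEmbedding K (v : K)) < normAtPlace w (mixedEmbedding K (x : K))) :
    (Algebra.norm ℤ (x + v)).sign = (Algebra.norm ℤ x).sign := by
  have hx' : (x : K) ≠ 0 := by simpa using hx
  have h1 : ∀ w : InfinitePlace K, w ((v : K) / x) < 1 := by
    intro w
    have h2 := h w
    rw [normAtPlace_apply, normAtPlace_apply] at h2
    rw [map_div₀, div_lt_one (InfinitePlace.pos_iff.2 hx')]
    exact h2
  have h2 := norm_one_add_pos h1
  have h3 : ((x + v : 𝓞 K) : K) = (x : K) * (1 + (v : K) / x) := by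
    push_cast
    field_simp
  have h4 : (Algebra.norm ℚ ((x + v : 𝓞 K) : K)) =
      Algebra.norm ℚ (x : K) * Algebra.norm ℚ (1 + (v : K) / x) := by
    rw [h3, map_mul]
  rw [← Algebra.coe_norm_int, ← Algebra.coe_norm_int] at h4
  rcases lt_trichotomy (Algebra.norm ℤ x) 0 with h5 | h5 | h5
  · have h6 : Algebra.norm ℤ (x + v) < 0 := by
      have : ((Algebra.norm ℤ (x + v) : ℤ) : ℚ) < 0 := by
        rw [h4]
        exact mul_neg_of_neg_of_pos (by exact_mod_cast h5) h2
      exact_mod_cast this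
    rw [Int.sign_eq_neg_one_of_neg h5, Int.sign_eq_neg_one_of_neg h6]
  · exact absurd (Algebra.norm_eq_zero_iff.1 h5) hx
  · have h6 : 0 < Algebra.norm ℤ (x + v) := by
      have : (0 : ℚ) < ((Algebra.norm ℤ (x + v) : ℤ) : ℚ) := by
        rw [h4]
        exact mul_pos (by exact_mod_cast h5) h2
      exact_mod_cast this
    rw [Int.sign_eq_one_of_pos h5, Int.sign_eq_one_of_pos h6]

lemma abs_log_sub_le {a b m : ℝ} (hm : 0 < m) (ha : m ≤ a) (hb : m ≤ b) :
    |Real.log a - Real.log b| ≤ |a - b| / m := by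
  have key : ∀ a b : ℝ, m ≤ a → m ≤ b → Real.log a - Real.log b ≤ |a - b| / m := by
    intro a b ha hb
    have ha0 : 0 < a := hm.trans_le ha
    have hb0 : 0 < b := hm.trans_le hb
    rw [← Real.log_div ha0.ne' hb0.ne']
    have h1 := Real.log_le_sub_one_of_pos (div_pos ha0 hb0)
    have h2 : a / b - 1 = (a - b) / b := by field_simp
    rw [h2] at h1
    refine h1.trans ?_
    refine (div_le_div_of_nonneg_right (le_abs_self _) hb0.le).trans ?_
    exact div_le_div_of_nonneg_left (abs_nonneg _) hm hb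
  rw [abs_le]
  constructor
  · have := key b a hb ha
    rw [abs_sub_comm] at this
    linarith
  · exact key a b ha hb

lemma sz_nonneg (x : 𝓞 K) : 0 ≤ sz K x := by
  classical
  unfold sz
  exact norm_nonneg (mixedEmbedding K (x : K))

lemma sz_add_le (x y : 𝓞 K) : sz K (x + y) ≤ sz K x + sz K y := by
  classical
  unfold sz
  push_cast
  rw [map_add]
  exact norm_add_le (mixedEmbedding K (x : K)) (mixedEmbedding K (y : K))

lemma sz_neg (x : 𝓞 K) : sz K (-x) = sz K x := by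
  classical
  unfold sz
  push_cast
  rw [map_neg]
  exact norm_neg (mixedEmbedding K (x : K))

lemma place_le_sz (w : InfinitePlace K) (x : 𝓞 K) :
    normAtPlace w (mixedEmbedding K (x : K)) ≤ sz K x := normAtPlace_le w _

lemma one_le_sz {x : 𝓞 K} (hx : x ≠ 0) : 1 ≤ sz K x := by
  have h1 : (1 : ℝ) ≤ nrm K x := by exact_mod_cast nrm_pos hx
  rw [nrm_eq, mixedEmbedding.norm_apply] at h1
  have h2 : ∏ w : InfinitePlace K, normAtPlace w (mixedEmbedding K (x : K)) ^ mult w ≤
      ∏ w : InfinitePlace K, sz K x ^ mult w :=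
    Finset.prod_le_prod (fun w _ => pow_nonneg (normAtPlace_nonneg _ _) _) fun w _ =>
      pow_le_pow_left₀ (normAtPlace_nonneg _ _) (place_le_sz w x) _
  rw [Finset.prod_pow_eq_pow_sum, sum_mult_eq] at h2
  by_contra hlt
  push Not at hlt
  have h3 := pow_lt_one₀ (sz_nonneg x) hlt (finrank_pos (R := ℚ) (M := K)).ne'
  linarith

end Lip

open Lip

variable (K : Type) [Field K] [NumberField K]

/-- on the support of the weight the norm is large -/
theorem nrm_ge : ∃ κ : ℝ, 0 < κ ∧ ∀ x : 𝓞 K, wt K x ≠ 0 →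
    κ * (1 + sz K x) ^ Module.finrank ℚ K ≤ nrm K x := by
  obtain ⟨κ, hκ0, hκ1, hκ⟩ := exists_kappa K
  refine ⟨(κ / 2) ^ Module.finrank ℚ K, by positivity, fun x hx => ?_⟩
  have hx0 := ne_zero_of_wt hx
  have h1 := one_le_sz hx0
  rw [← mul_pow, nrm_eq, mixedEmbedding.norm_apply, ← sum_mult_eq (K := K),
    ← Finset.prod_pow_eq_pow_sum]
  refine Finset.prod_le_prod (fun w _ => by positivity) fun w _ => ?_
  refine pow_le_pow_left₀ (by positivity) ?_ _
  refine le_trans ?_ (hκ x hx w)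
  nlinarith

theorem sz_summable {r : ℝ} (hr : (Module.finrank ℚ K : ℝ) < r) :
    Summable fun x : 𝓞 K => (1 + sz K x) ^ (-r) := by
  classical
  let L := mixedEmbedding.integerLattice K
  have hrk : Module.finrank ℤ L = Module.finrank ℚ K := by
    rw [ZLattice.rank ℝ L, mixedEmbedding.finrank]
  have h1 : Summable fun z : L => ‖z‖ ^ (-r) :=
    ZLattice.summable_norm_rpow L (-r) (by rw [hrk]; linarith)
  have h2 : Summable fun z : L => (1 + ‖z‖) ^ (-r) := by
    refine Summable.of_norm_bounded_eventually h1 ?_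
    have h3 : ({0} : Set L)ᶜ ∈ Filter.cofinite := (Set.finite_singleton _).compl_mem_cofinite
    filter_upwards [h3] with z hz
    have hz0 : 0 < ‖z‖ := norm_pos_iff.2 hz
    rw [Real.norm_of_nonneg (by positivity)]
    refine Real.rpow_le_rpow_of_nonpos hz0 (by linarith) ?_
    have : (0 : ℝ) ≤ Module.finrank ℚ K := Nat.cast_nonneg _
    linarith
  let e : 𝓞 K → L := fun x => ⟨mixedEmbedding K (x : K), ⟨x, rfl⟩⟩
  have he0 : ∀ x : 𝓞 K, ((e x : L) : mixedSpace K) = mixedEmbedding K (x : K) := fun x => rfl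
  have he : Function.Injective e := by
    intro x y hxy
    have h4 : ((e x : L) : mixedSpace K) = ((e y : L) : mixedSpace K) := by rw [hxy]
    rw [he0, he0] at h4
    exact RingOfIntegers.ext (mixedEmbedding_injective K h4)
  have h5 := h2.comp_injective he
  have h6 : ((fun z : L => (1 + ‖z‖) ^ (-r)) ∘ e) = fun x : 𝓞 K => (1 + sz K x) ^ (-r) := by
    funext x
    have h7 : ‖e x‖ = sz K x := by
      unfold sz
      rw [← he0]
      rfl
    simp only [Function.comp_apply, h7]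
  rw [← h6]
  exact h5

namespace Lip

variable {K}

omit [NumberField K] in
lemma mult_le_two (w : InfinitePlace K) : (mult w : ℝ) ≤ 2 := by
  unfold mult
  split_ifs <;> norm_num

lemma wt_eq {x : 𝓞 K} (hx : x ≠ 0) : wt K x =
    (torsionOrder K : ℝ)⁻¹ * ∏ i, tent (lc K (mixedEmbedding K (x : K)) i) := by
  unfold wt
  rw [if_neg hx]

lemma tors_inv : 0 ≤ (torsionOrder K : ℝ)⁻¹ ∧ (torsionOrder K : ℝ)⁻¹ ≤ 1 := by
  refine ⟨inv_nonneg.2 (Nat.cast_nonneg _), inv_le_one_of_one_le₀ ?_⟩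
  exact_mod_cast Nat.one_le_iff_ne_zero.2 (torsionOrder_ne_zero K)

lemma abs_wt_sub_le {x y : 𝓞 K} (hx : x ≠ 0) (hy : y ≠ 0) {Cl D : ℝ}
    (hlc : ∀ i, |lc K (mixedEmbedding K (y : K)) i - lc K (mixedEmbedding K (x : K)) i| ≤ Cl * D) :
    |wt K y - wt K x| ≤ rank K * (Cl * D) := by
  rw [wt_eq hx, wt_eq hy, ← mul_sub, abs_mul, abs_of_nonneg tors_inv.1]
  refine (mul_le_of_le_one_left (abs_nonneg _) tors_inv.2).trans ?_
  have h1 : ∀ c, |tent c| ≤ 1 := fun c => by
    rw [abs_of_nonneg (tent_nonneg c)]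
    exact tent_le_one c
  refine (abs_prod_sub_prod_le _ _ _ (fun i => h1 _) fun i => h1 _).trans ?_
  refine (Finset.sum_le_sum (g := fun _ => Cl * D) fun i _ =>
    (tent_lip _ _).trans (hlc i)).trans ?_
  rw [Finset.sum_const, nsmul_eq_mul, Finset.card_univ, Fintype.card_fin]

open scoped Classical in
lemma norm_logMap_sub_le {x y : 𝓞 K} (hx : x ≠ 0) (hy : y ≠ 0) {D : ℝ} (hD : 0 ≤ D)
    (h : ∀ w, |Real.log (normAtPlace w (mixedEmbedding K (y : K))) -
      Real.log (normAtPlace w (mixedEmbedding K (x : K)))| ≤ D) :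
    ‖logMap (mixedEmbedding K (y : K)) - logMap (mixedEmbedding K (x : K))‖ ≤ 4 * D ∧
    |Real.log (nrm K y) - Real.log (nrm K x)| ≤ Module.finrank ℚ K * D := by
  have h2 : |Real.log (nrm K y) - Real.log (nrm K x)| ≤ Module.finrank ℚ K * D := by
    rw [nrm_eq, nrm_eq, log_norm (norm_ne hx), log_norm (norm_ne hy), ← Finset.sum_sub_distrib,
      ← sum_mult, Finset.sum_mul]
    refine (Finset.abs_sum_le_sum_abs _ _).trans (Finset.sum_le_sum fun w _ => ?_)
    rw [← mul_sub, abs_mul, abs_of_nonneg (Nat.cast_nonneg _)]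
    exact mul_le_mul_of_nonneg_left (h w) (Nat.cast_nonneg _)
  refine ⟨?_, h2⟩
  refine (pi_norm_le_iff_of_nonneg (by positivity)).2 fun w => ?_
  rw [Pi.sub_apply, logMap_apply, logMap_apply, ← mul_sub, Real.norm_eq_abs, abs_mul,
    abs_of_nonneg (Nat.cast_nonneg _)]
  have h3 : |Real.log (normAtPlace w.1 (mixedEmbedding K (y : K))) -
      Real.log (mixedEmbedding.norm (mixedEmbedding K (y : K))) * (Module.finrank ℚ K : ℝ)⁻¹ -
      (Real.log (normAtPlace w.1 (mixedEmbedding K (x : K))) -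
      Real.log (mixedEmbedding.norm (mixedEmbedding K (x : K))) * (Module.finrank ℚ K : ℝ)⁻¹)| ≤
      2 * D := by
    rw [nrm_eq, nrm_eq] at h2
    have h4 := h w.1
    have hn : (0 : ℝ) < Module.finrank ℚ K := by exact_mod_cast finrank_pos (R := ℚ) (M := K)
    have h5 : |(Real.log (mixedEmbedding.norm (mixedEmbedding K (y : K))) -
      Real.log (mixedEmbedding.norm (mixedEmbedding K (x : K)))) * (Module.finrank ℚ K : ℝ)⁻¹| ≤
        D := by
      rw [abs_mul, abs_of_pos (inv_pos.2 hn), ← div_eq_mul_inv, div_le_iff₀ hn, mul_comm D]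
      exact h2
    rw [abs_le] at h4 h5 ⊢
    constructor <;> linarith
  calc (mult w.1 : ℝ) * _ ≤ 2 * (2 * D) :=
        mul_le_mul (mult_le_two w.1) h3 (abs_nonneg _) (by norm_num)
    _ = 4 * D := by ring

lemma cpow_sub {a b : ℕ} (ha : 0 < a) (hb : 0 < b) (s : ℂ) {E : ℝ}
    (h : ‖s‖ * |Real.log b - Real.log a| ≤ E) (hE : E ≤ 1) :
    ‖((b : ℂ) ^ (-s) - (a : ℂ) ^ (-s))‖ ≤ 2 * E * (a : ℝ) ^ (-s.re) ∧
    ‖(b : ℂ) ^ (-s)‖ ≤ 3 * (a : ℝ) ^ (-s.re) := by
  have ha0 : (a : ℂ) ≠ 0 := by exact_mod_cast ha.ne'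
  have hb0 : (b : ℂ) ≠ 0 := by exact_mod_cast hb.ne'
  set z : ℂ := -s * ((Real.log b - Real.log a : ℝ) : ℂ) with hz
  have hzn : ‖z‖ ≤ E := by
    rw [hz, norm_mul, norm_neg, Complex.norm_real]
    exact h
  have h1 : (b : ℂ) ^ (-s) = (a : ℂ) ^ (-s) * Complex.exp z := by
    rw [Complex.cpow_def_of_ne_zero ha0, Complex.cpow_def_of_ne_zero hb0, ← Complex.exp_add, hz]
    congr 1
    rw [← Complex.natCast_log, ← Complex.natCast_log]
    push_cast
    ring
  have h2 : ‖(a : ℂ) ^ (-s)‖ = (a : ℝ) ^ (-s.re) := by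
    rw [Complex.norm_natCast_cpow_of_pos ha, Complex.neg_re]
  have h3 : ‖Complex.exp z - 1‖ ≤ 2 * ‖z‖ := Complex.norm_exp_sub_one_le (hzn.trans hE)
  have h4 : (0 : ℝ) ≤ (a : ℝ) ^ (-s.re) := Real.rpow_nonneg (Nat.cast_nonneg _) _
  constructor
  · rw [h1, show (a : ℂ) ^ (-s) * Complex.exp z - (a : ℂ) ^ (-s) =
      (a : ℂ) ^ (-s) * (Complex.exp z - 1) by ring, norm_mul, h2, mul_comm]
    refine mul_le_mul_of_nonneg_right (h3.trans ?_) h4
    linarith
  · rw [h1, norm_mul, h2, mul_comm]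
    refine mul_le_mul_of_nonneg_right ?_ h4
    have h5 : ‖Complex.exp z‖ ≤ ‖Complex.exp z - 1‖ + ‖(1 : ℂ)‖ := by
      have := norm_add_le (Complex.exp z - 1) 1
      rwa [sub_add_cancel] at this
    rw [norm_one] at h5
    linarith

lemma core (σ : Bool) (v : 𝓞 K) (σ₀ R : ℝ) (h0 : 0 ≤ σ₀) :
    ∃ R₀ C : ℝ, 1 ≤ R₀ ∧ 0 ≤ C ∧ ∀ (x : 𝓞 K) (s : ℂ), σ₀ ≤ s.re → ‖s‖ ≤ R → R₀ ≤ sz K x →
      wt K x ≠ 0 → ‖FF K σ s (x + v) - FF K σ s x‖ ≤
        C * (1 + sz K x) ^ (-((Module.finrank ℚ K : ℝ) * σ₀ + 1)) := by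
  classical
  obtain ⟨κ, hκ0, hκ1, hκ⟩ := exists_kappa K
  obtain ⟨κ₁, hκ₁0, hκ₁⟩ := nrm_ge K
  obtain ⟨Cl, hCl0, hCl⟩ := exists_lc_lip K
  set n : ℝ := (Module.finrank ℚ K : ℝ) with hn
  have hn0 : 0 < n := by
    rw [hn]
    exact_mod_cast finrank_pos (R := ℚ) (M := K)
  have hV := sz_nonneg v
  set A : ℝ := 2 * sz K v / κ with hA
  have hA0 : 0 ≤ A := by positivity
  refine ⟨1 + A + n * |R| * A, (12 * rank K * Cl + 2 * n * |R|) * A * 2 * κ₁ ^ (-σ₀),
    by nlinarith [mul_nonneg (mul_nonneg hn0.le (abs_nonneg R)) hA0],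
    by positivity, fun x s hs hsR hxR hx => ?_⟩
  have hR0 : 0 ≤ R := (norm_nonneg _).trans hsR
  rw [abs_of_nonneg hR0] at hxR ⊢
  have hnRA : 0 ≤ n * R * A := mul_nonneg (mul_nonneg hn0.le hR0) hA0
  have hx0 := ne_zero_of_wt hx
  have hsx : 1 ≤ sz K x := one_le_sz hx0
  have hsx0 : 0 < sz K x := by linarith
  set D : ℝ := A / sz K x with hD
  have hD0 : 0 ≤ D := by positivity
  -- the size of `v`
  have hV1 : sz K v ≤ κ / 2 * sz K x := by
    have h1 : A ≤ sz K x := by linarith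
    rw [hA, div_le_iff₀ hκ0] at h1
    linarith
  have hplace : ∀ w, κ / 2 * sz K x ≤ normAtPlace w (mixedEmbedding K ((x + v : 𝓞 K) : K)) := by
    intro w
    have h1 := hκ x hx w
    have h2 : normAtPlace w (mixedEmbedding K (x : K)) ≤
        normAtPlace w (mixedEmbedding K ((x + v : 𝓞 K) : K)) +
        normAtPlace w (mixedEmbedding K (v : K)) := by
      have h3 := normAtPlace_add_le w (mixedEmbedding K ((x + v : 𝓞 K) : K))
        (-mixedEmbedding K (v : K))
      rw [normAtPlace_neg] at h3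
      convert h3 using 2
      push_cast
      rw [map_add]
      ring
    have h3 := place_le_sz w v
    linarith
  have hlt : ∀ w, normAtPlace w (mixedEmbedding K (v : K)) <
      normAtPlace w (mixedEmbedding K (x : K)) := by
    intro w
    have h1 := hκ x hx w
    have h3 := place_le_sz w v
    have h4 : 0 < κ * sz K x := by positivity
    linarith
  have hy0 : x + v ≠ 0 := by
    intro h
    have h1 := hplace w₀
    rw [h] at h1
    simp only [map_zero] at h1
    have h4 : 0 < κ / 2 * sz K x := by positivity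
    linarith
  have hlog : ∀ w, |Real.log (normAtPlace w (mixedEmbedding K ((x + v : 𝓞 K) : K))) -
      Real.log (normAtPlace w (mixedEmbedding K (x : K)))| ≤ D := by
    intro w
    have h4 : 0 < κ / 2 * sz K x := by positivity
    refine (abs_log_sub_le h4 (hplace w) (by have := hκ x hx w; linarith)).trans ?_
    have h5 : |normAtPlace w (mixedEmbedding K ((x + v : 𝓞 K) : K)) -
        normAtPlace w (mixedEmbedding K (x : K))| ≤ sz K v := by
      have h6 : normAtPlace w (mixedEmbedding K ((x + v : 𝓞 K) : K)) ≤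
          normAtPlace w (mixedEmbedding K (x : K)) + normAtPlace w (mixedEmbedding K (v : K)) := by
        have h7 := normAtPlace_add_le w (mixedEmbedding K (x : K)) (mixedEmbedding K (v : K))
        convert h7 using 2
        push_cast
        rw [map_add]
      have h7 : normAtPlace w (mixedEmbedding K (x : K)) ≤
          normAtPlace w (mixedEmbedding K ((x + v : 𝓞 K) : K)) +
          normAtPlace w (mixedEmbedding K (v : K)) := by
        have h3 := normAtPlace_add_le w (mixedEmbedding K ((x + v : 𝓞 K) : K))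
          (-mixedEmbedding K (v : K))
        rw [normAtPlace_neg] at h3
        convert h3 using 2
        push_cast
        rw [map_add]
        ring
      have h8 := place_le_sz w v
      rw [abs_le]
      constructor <;> linarith
    rw [hD, hA]
    refine (div_le_div_of_nonneg_right h5 h4.le).trans (le_of_eq ?_)
    field_simp
  obtain ⟨hmap, hlogN⟩ := norm_logMap_sub_le hx0 hy0 hD0 hlog
  -- the weights
  have hwt : |wt K (x + v) - wt K x| ≤ rank K * (Cl * (4 * D)) :=
    abs_wt_sub_le hx0 hy0 fun i =>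
      (hCl _ _ i).trans (mul_le_mul_of_nonneg_left hmap hCl0)
  -- the powers
  have hE1 : ‖s‖ * |Real.log (nrm K (x + v)) - Real.log (nrm K x)| ≤ R * (n * D) :=
    mul_le_mul hsR hlogN (abs_nonneg _) hR0
  have hE2 : R * (n * D) ≤ 1 := by
    rw [hD, show R * (n * (A / sz K x)) = (n * R * A) / sz K x by ring, div_le_one hsx0]
    linarith
  obtain ⟨hp1, hp2⟩ := cpow_sub (nrm_pos hx0) (nrm_pos hy0) s hE1 hE2
  set P : ℝ := (nrm K x : ℝ) ^ (-s.re) with hP
  have hP0 : 0 ≤ P := Real.rpow_nonneg (Nat.cast_nonneg _) _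
  have hnx1 : (1 : ℝ) ≤ nrm K x := by exact_mod_cast nrm_pos hx0
  have hPle : P ≤ κ₁ ^ (-σ₀) * (1 + sz K x) ^ (-(n * σ₀)) := by
    have h1 : P ≤ (nrm K x : ℝ) ^ (-σ₀) := Real.rpow_le_rpow_of_exponent_le hnx1 (by linarith)
    have h2 : (nrm K x : ℝ) ^ (-σ₀) ≤ (κ₁ * (1 + sz K x) ^ Module.finrank ℚ K) ^ (-σ₀) :=
      Real.rpow_le_rpow_of_nonpos (by positivity) (hκ₁ x hx) (by linarith)
    refine h1.trans (h2.trans (le_of_eq ?_))
    rw [Real.mul_rpow hκ₁0.le (by positivity), ← Real.rpow_natCast, ← Real.rpow_mul (by positivity)]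
    congr 2
    rw [hn]
    ring
  -- the signs
  have hsg : sg K σ (x + v) = sg K σ x := by
    unfold sg
    split_ifs
    · exact sign_eq hx0 hlt
    · rfl
  have hsg1 : ‖((sg K σ x : ℤ) : ℂ)‖ ≤ 1 := by
    unfold sg
    split_ifs
    · rcases lt_trichotomy (Algebra.norm ℤ x) 0 with h | h | h
      · rw [Int.sign_eq_neg_one_of_neg h]; simp
      · rw [h]; simp
      · rw [Int.sign_eq_one_of_pos h]; simp
    · simp
  have hfin : ‖FF K σ s (x + v) - FF K σ s x‖ ≤
      rank K * (Cl * (4 * D)) * (3 * P) + 2 * (R * (n * D)) * P := by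
    unfold FF
    rw [hsg, show ((sg K σ x : ℤ) : ℂ) * (wt K (x + v) : ℂ) * (nrm K (x + v) : ℂ) ^ (-s) -
      ((sg K σ x : ℤ) : ℂ) * (wt K x : ℂ) * (nrm K x : ℂ) ^ (-s) =
      ((sg K σ x : ℤ) : ℂ) * (((wt K (x + v) - wt K x : ℝ) : ℂ) * (nrm K (x + v) : ℂ) ^ (-s) +
        (wt K x : ℂ) * ((nrm K (x + v) : ℂ) ^ (-s) - (nrm K x : ℂ) ^ (-s))) by push_cast; ring,
      norm_mul]
    refine (mul_le_of_le_one_left (norm_nonneg _) hsg1).trans ?_
    refine (norm_add_le _ _).trans (add_le_add ?_ ?_)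
    · rw [norm_mul, Complex.norm_real]
      exact mul_le_mul hwt hp2 (norm_nonneg _) (by positivity)
    · rw [norm_mul, Complex.norm_real, Real.norm_of_nonneg (Lip.wt_nonneg K x)]
      exact (mul_le_of_le_one_left (norm_nonneg _) (Lip.wt_le_one K x)).trans hp1
  have hD2 : D ≤ A * 2 / (1 + sz K x) := by
    rw [hD, div_le_div_iff₀ hsx0 (by positivity)]
    nlinarith
  calc ‖FF K σ s (x + v) - FF K σ s x‖
      ≤ rank K * (Cl * (4 * D)) * (3 * P) + 2 * (R * (n * D)) * P := hfin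
    _ = (12 * rank K * Cl + 2 * n * R) * D * P := by ring
    _ ≤ (12 * rank K * Cl + 2 * n * R) * (A * 2 / (1 + sz K x)) *
        (κ₁ ^ (-σ₀) * (1 + sz K x) ^ (-(n * σ₀))) := by
        refine mul_le_mul (mul_le_mul_of_nonneg_left hD2 (by positivity)) hPle hP0 (by positivity)
    _ = (12 * rank K * Cl + 2 * n * R) * A * 2 * κ₁ ^ (-σ₀) *
        (1 + sz K x) ^ (-(n * σ₀ + 1)) := by
        rw [show -(n * σ₀ + 1) = -(n * σ₀) + -1 by ring,
          Real.rpow_add (by positivity : (0 : ℝ) < 1 + sz K x), Real.rpow_neg_one]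
        field_simp

lemma norm_FF_le_one (σ : Bool) (x : 𝓞 K) {s : ℂ} (hs : 0 ≤ s.re) : ‖FF K σ s x‖ ≤ 1 := by
  by_cases hx : x = 0
  · rw [hx]
    simp [FF, Lip.wt_zero]
  · have hsg1 : ‖((sg K σ x : ℤ) : ℂ)‖ ≤ 1 := by
      unfold sg
      split_ifs
      · rcases lt_trichotomy (Algebra.norm ℤ x) 0 with h | h | h
        · rw [Int.sign_eq_neg_one_of_neg h]; simp
        · rw [h]; simp
        · rw [Int.sign_eq_one_of_pos h]; simp
      · simp
    have h1 : (1 : ℝ) ≤ nrm K x := by exact_mod_cast nrm_pos hx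
    have h2 : ‖(nrm K x : ℂ) ^ (-s)‖ ≤ 1 := by
      rw [Complex.norm_natCast_cpow_of_pos (nrm_pos hx), Complex.neg_re]
      exact Real.rpow_le_one_of_one_le_of_nonpos h1 (by linarith)
    unfold FF
    rw [norm_mul, norm_mul, Complex.norm_real, Real.norm_of_nonneg (Lip.wt_nonneg K x)]
    exact mul_le_one₀ (mul_le_one₀ hsg1 (Lip.wt_nonneg K x) (Lip.wt_le_one K x)) (norm_nonneg _) h2

end Lip

theorem FF_lip (σ : Bool) (v : 𝓞 K) (σ₀ R : ℝ) (h0 : 0 ≤ σ₀) :
    ∃ C : ℝ, ∀ (x : 𝓞 K) (s : ℂ), σ₀ ≤ s.re → ‖s‖ ≤ R →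
      ‖FF K σ s (x + v) - FF K σ s x‖ ≤ C * (1 + sz K x) ^ (-((Module.finrank ℚ K : ℝ) * σ₀ + 1)) := by
  obtain ⟨R₁, C₁, hR₁, hC₁, H₁⟩ := core σ v σ₀ R h0
  obtain ⟨R₂, C₂, hR₂, hC₂, H₂⟩ := core σ (-v) σ₀ R h0
  have hn0 : (0 : ℝ) ≤ Module.finrank ℚ K := Nat.cast_nonneg _
  set a : ℝ := (Module.finrank ℚ K : ℝ) * σ₀ + 1 with ha
  have ha0 : 0 ≤ a := by positivity
  have hV := sz_nonneg v
  set R₃ : ℝ := R₁ + R₂ + 2 * sz K v with hR₃
  have hR₃0 : 0 < R₃ := by linarith
  refine ⟨C₁ + 2 ^ a * C₂ + 2 * (1 + R₃) ^ a, fun x s hs hsR => ?_⟩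
  have hsx := sz_nonneg x
  have hpos : 0 < (1 + sz K x) ^ (-a) := Real.rpow_pos_of_pos (by linarith) _
  have h2a : (0 : ℝ) ≤ 2 ^ a := Real.rpow_nonneg (by norm_num) _
  have h3a : (0 : ℝ) ≤ (1 + R₃) ^ a := Real.rpow_nonneg (by linarith) _
  have hs0 : 0 ≤ s.re := h0.trans hs
  rcases le_or_gt R₃ (sz K x) with hx | hx
  · by_cases hw : wt K x = 0
    · by_cases hw' : wt K (x + v) = 0
      · have : FF K σ s (x + v) - FF K σ s x = 0 := by
          unfold FF
          rw [hw, hw']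
          simp
        rw [this, norm_zero]
        positivity
      · have h1 : sz K x ≤ sz K (x + v) + sz K v := by
          have := sz_add_le (x + v) (-v)
          rwa [sz_neg, add_neg_cancel_right] at this
        have h2 := H₂ (x + v) s hs hsR (by linarith) hw'
        rw [add_neg_cancel_right, norm_sub_rev] at h2
        refine h2.trans ?_
        have h3 : (1 + sz K (x + v)) ^ (-a) ≤ 2 ^ a * (1 + sz K x) ^ (-a) := by
          have h4 : (1 + sz K x) / 2 ≤ 1 + sz K (x + v) := by linarith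
          refine (Real.rpow_le_rpow_of_nonpos (by linarith) h4 (by linarith)).trans (le_of_eq ?_)
          rw [Real.div_rpow (by linarith) (by norm_num), Real.rpow_neg (by norm_num : (0 : ℝ) ≤ 2),
            div_inv_eq_mul, mul_comm]
        calc C₂ * (1 + sz K (x + v)) ^ (-a) ≤ C₂ * (2 ^ a * (1 + sz K x) ^ (-a)) :=
              mul_le_mul_of_nonneg_left h3 hC₂
          _ ≤ (C₁ + 2 ^ a * C₂ + 2 * (1 + R₃) ^ a) * (1 + sz K x) ^ (-a) := by
              have h5 : 0 ≤ (C₁ + 2 * (1 + R₃) ^ a) * (1 + sz K x) ^ (-a) := by positivity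
              nlinarith
    · refine (H₁ x s hs hsR (by linarith) hw).trans ?_
      refine mul_le_mul_of_nonneg_right ?_ hpos.le
      have := mul_nonneg h2a hC₂
      linarith
  · have h1 : ‖FF K σ s (x + v) - FF K σ s x‖ ≤ 2 := by
      refine (norm_sub_le _ _).trans ?_
      linarith [norm_FF_le_one σ (x + v) hs0, norm_FF_le_one σ x hs0]
    refine h1.trans ?_
    have h2 : 1 ≤ (1 + R₃) ^ a * (1 + sz K x) ^ (-a) := by
      rw [Real.rpow_neg (by linarith), ← div_eq_mul_inv, one_le_div (by positivity)]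
      exact Real.rpow_le_rpow (by linarith) (by linarith) ha0
    have h5 : 0 ≤ (C₁ + 2 ^ a * C₂) * (1 + sz K x) ^ (-a) := by positivity
    nlinarith

end Pool.Agent.Work.MP_2b9663_nt
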