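import Pool.Agent.Work.MP_2b9663_nt.MV
import Pool.Agent.Work.MP_2b9663_nt.Ch.Defs

set_option autoImplicit false

/-!
Complex mean values of bounded functions of primes (limit form).
-/

namespace Pool.Agent.Work.MP_2b9663_nt

open Filter Topology Complex

/-- bounded complex functions -/
def BDC (c : Nat.Primes → ℂ) : Prop := ∃ B : ℝ, ∀ p, ‖c p‖ ≤ B

/-- the Dirichlet series with coefficients `c` at primes -/
noncomputable def PSC (c : Nat.Primes → ℂ) (ε : ℝ) : ℂ :=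
  ∑' p : Nat.Primes, c p * ((((p : ℕ) : ℝ) ^ (-(1 + ε)) : ℝ) : ℂ)

/-- `c` is bounded and has the logarithmic mean value `κ`:
`∑ c p * p ^ (-1 - ε) = (κ + o(1)) * log (1 / ε)` as `ε → 0+`. -/
def MVC (c : Nat.Primes → ℂ) (κ : ℂ) : Prop :=
  BDC c ∧ Tendsto (fun ε : ℝ => PSC c ε / ((-Real.log ε : ℝ) : ℂ)) (𝓝[>] 0) (𝓝 κ)

lemma BDC.add {c d : Nat.Primes → ℂ} (hc : BDC c) (hd : BDC d) : BDC (fun p => c p + d p) := by
  obtain ⟨B, hB⟩ := hc
  obtain ⟨B', hB'⟩ := hd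
  exact ⟨B + B', fun p => (norm_add_le _ _).trans (add_le_add (hB p) (hB' p))⟩

lemma BDC.const (a : ℂ) : BDC (fun _ => a) := ⟨‖a‖, fun _ => le_rfl⟩

lemma BDC.mul {c d : Nat.Primes → ℂ} (hc : BDC c) (hd : BDC d) : BDC (fun p => c p * d p) := by
  obtain ⟨B, hB⟩ := hc
  obtain ⟨B', hB'⟩ := hd
  refine ⟨B * B', fun p => ?_⟩
  rw [norm_mul]
  exact mul_le_mul (hB p) (hB' p) (norm_nonneg _) ((norm_nonneg _).trans (hB p))

lemma BDC.neg {c : Nat.Primes → ℂ} (hc : BDC c) : BDC (fun p => -c p) := by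
  obtain ⟨B, hB⟩ := hc
  exact ⟨B, fun p => by rw [norm_neg]; exact hB p⟩

lemma BDC.sub {c d : Nat.Primes → ℂ} (hc : BDC c) (hd : BDC d) : BDC (fun p => c p - d p) := by
  obtain ⟨B, hB⟩ := hc
  obtain ⟨B', hB'⟩ := hd
  exact ⟨B + B', fun p => (norm_sub_le _ _).trans (add_le_add (hB p) (hB' p))⟩

lemma BDC.conj {c : Nat.Primes → ℂ} (hc : BDC c) : BDC (fun p => (starRingEnd ℂ) (c p)) := by
  obtain ⟨B, hB⟩ := hc
  exact ⟨B, fun p => by rw [RCLike.norm_conj]; exact hB p⟩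

lemma BDC.ofReal {c : Nat.Primes → ℝ} (hc : BD c) : BDC (fun p => (c p : ℂ)) := by
  obtain ⟨B, hB⟩ := hc
  exact ⟨B, fun p => by rw [Complex.norm_real]; exact hB p⟩

lemma BDC.re {c : Nat.Primes → ℂ} (hc : BDC c) : BD (fun p => (c p).re) := by
  obtain ⟨B, hB⟩ := hc
  exact ⟨B, fun p => (Complex.abs_re_le_norm _).trans (hB p)⟩

lemma BDC.im {c : Nat.Primes → ℂ} (hc : BDC c) : BD (fun p => (c p).im) := by
  obtain ⟨B, hB⟩ := hc
  exact ⟨B, fun p => (Complex.abs_im_le_norm _).trans (hB p)⟩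

lemma BDC.norm {c : Nat.Primes → ℂ} (hc : BDC c) : BD (fun p => ‖c p‖) := by
  obtain ⟨B, hB⟩ := hc
  exact ⟨B, fun p => by rw [abs_norm]; exact hB p⟩

lemma BDC.sum {ι : Type*} (s : Finset ι) {c : ι → Nat.Primes → ℂ} (h : ∀ i ∈ s, BDC (c i)) :
    BDC (fun p => ∑ i ∈ s, c i p) := by
  classical
  induction s using Finset.induction_on with
  | empty => simpa using BDC.const 0
  | insert a s ha ih =>
    simp only [Finset.sum_insert ha]
    exact (h a (Finset.mem_insert_self _ _)).add (ih fun i hi => h i (Finset.mem_insert_of_mem hi))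

/-- `p ^ (- i y)` is bounded. -/
lemma BDC.cpow (y : ℝ) : BDC (fun p => ((p : ℕ) : ℂ) ^ (-(Complex.I * y))) := by
  refine ⟨1, fun p => ?_⟩
  rw [norm_cpow_prime]
  simp

lemma BDC.char {N : ℕ} (χ : DirichletCharacter ℂ N) : BDC (fun p => χ ((p : ℕ) : ZMod N)) :=
  ⟨1, fun p => χ.norm_le_one _⟩

lemma PSC_summable_norm {c : Nat.Primes → ℂ} (hc : BDC c) {ε : ℝ} (hε : 0 < ε) :
    Summable (fun p : Nat.Primes => ‖c p * ((((p : ℕ) : ℝ) ^ (-(1 + ε)) : ℝ) : ℂ)‖) := by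
  obtain ⟨B, hB⟩ := hc
  have h1 : Summable (fun p : Nat.Primes => ((p : ℕ) : ℝ) ^ (-(1 + ε))) :=
    Nat.Primes.summable_rpow.mpr (by linarith)
  refine Summable.of_nonneg_of_le (fun p => norm_nonneg _) (fun p => ?_) (h1.mul_left B)
  have h2 : (0 : ℝ) ≤ ((p : ℕ) : ℝ) ^ (-(1 + ε)) := Real.rpow_nonneg (Nat.cast_nonneg _) _
  rw [norm_mul, Complex.norm_real, Real.norm_of_nonneg h2]
  exact mul_le_mul_of_nonneg_right (hB p) h2

lemma PSC_summable {c : Nat.Primes → ℂ} (hc : BDC c) {ε : ℝ} (hε : 0 < ε) :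
    Summable (fun p : Nat.Primes => c p * ((((p : ℕ) : ℝ) ^ (-(1 + ε)) : ℝ) : ℂ)) :=
  (PSC_summable_norm hc hε).of_norm

lemma PSC_add {c d : Nat.Primes → ℂ} (hc : BDC c) (hd : BDC d) {ε : ℝ} (hε : 0 < ε) :
    PSC (fun p => c p + d p) ε = PSC c ε + PSC d ε := by
  unfold PSC
  rw [← (PSC_summable hc hε).tsum_add (PSC_summable hd hε)]
  exact tsum_congr fun p => by ring

lemma PSC_const_mul (a : ℂ) (c : Nat.Primes → ℂ) (ε : ℝ) :
    PSC (fun p => a * c p) ε = a * PSC c ε := by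
  unfold PSC
  rw [← tsum_mul_left]
  exact tsum_congr fun p => by ring

lemma PSC_ofReal (c : Nat.Primes → ℝ) (ε : ℝ) : PSC (fun p => (c p : ℂ)) ε = (PS c ε : ℂ) := by
  unfold PSC PS
  rw [Complex.ofReal_tsum]
  exact tsum_congr fun p => by push_cast; ring

lemma PSC_conj (c : Nat.Primes → ℂ) (ε : ℝ) :
    PSC (fun p => (starRingEnd ℂ) (c p)) ε = (starRingEnd ℂ) (PSC c ε) := by
  unfold PSC
  rw [Complex.conj_tsum]
  refine tsum_congr fun p => ?_
  rw [map_mul, Complex.conj_ofReal]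

lemma PSC_re {c : Nat.Primes → ℂ} (hc : BDC c) {ε : ℝ} (hε : 0 < ε) :
    (PSC c ε).re = PS (fun p => (c p).re) ε := by
  unfold PSC PS
  rw [Complex.re_tsum (PSC_summable hc hε)]
  exact tsum_congr fun p => by rw [Complex.re_mul_ofReal]

lemma PSC_im {c : Nat.Primes → ℂ} (hc : BDC c) {ε : ℝ} (hε : 0 < ε) :
    (PSC c ε).im = PS (fun p => (c p).im) ε := by
  unfold PSC PS
  rw [Complex.im_tsum (PSC_summable hc hε)]
  exact tsum_congr fun p => by rw [Complex.im_mul_ofReal]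

lemma norm_PSC_le {c : Nat.Primes → ℂ} (hc : BDC c) {ε : ℝ} (hε : 0 < ε) :
    ‖PSC c ε‖ ≤ PS (fun p => ‖c p‖) ε := by
  unfold PSC PS
  refine (norm_tsum_le_tsum_norm (PSC_summable_norm hc hε)).trans (le_of_eq ?_)
  refine tsum_congr fun p => ?_
  rw [norm_mul, Complex.norm_real, Real.norm_of_nonneg (Real.rpow_nonneg (Nat.cast_nonneg _) _)]

lemma neglog_tendsto : Tendsto (fun ε : ℝ => -Real.log ε) (𝓝[>] 0) atTop :=
  tendsto_neg_atBot_atTop.comp Real.tendsto_log_nhdsGT_zero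

lemma neglog_pos : ∀ᶠ ε : ℝ in 𝓝[>] 0, 0 < -Real.log ε :=
  neglog_tendsto.eventually (eventually_gt_atTop 0)

/-- A function bounded near `0` is negligible. -/
lemma tendsto_of_bounded {g : ℝ → ℂ} {C : ℝ} (h : ∀ᶠ ε : ℝ in 𝓝[>] 0, ‖g ε‖ ≤ C) :
    Tendsto (fun ε : ℝ => g ε / ((-Real.log ε : ℝ) : ℂ)) (𝓝[>] 0) (𝓝 0) := by
  have h1 : Tendsto (fun ε : ℝ => |C| / (-Real.log ε)) (𝓝[>] 0) (𝓝 0) :=
    neglog_tendsto.const_div_atTop _
  refine squeeze_zero_norm' ?_ h1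
  filter_upwards [h, neglog_pos] with ε h2 h3
  rw [norm_div, Complex.norm_real, Real.norm_of_nonneg h3.le]
  exact div_le_div_of_nonneg_right (h2.trans (le_abs_self C)) h3.le

/-- The bounded error form gives the limit form. -/
lemma tendsto_of_LA {g : ℝ → ℂ} {κ : ℂ} {C : ℝ}
    (h : ∀ᶠ ε : ℝ in 𝓝[>] 0, ‖g ε + κ * ((Real.log ε : ℝ) : ℂ)‖ ≤ C) :
    Tendsto (fun ε : ℝ => g ε / ((-Real.log ε : ℝ) : ℂ)) (𝓝[>] 0) (𝓝 κ) := by
  have h1 := (tendsto_of_bounded h).add (tendsto_const_nhds (x := κ))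
  rw [zero_add] at h1
  refine h1.congr' ?_
  filter_upwards [neglog_pos] with ε h2
  have h3 : ((-Real.log ε : ℝ) : ℂ) ≠ 0 := by exact_mod_cast h2.ne'
  field_simp
  push_cast
  ring

lemma MVC.of_LA {c : Nat.Primes → ℂ} {κ : ℂ} {C : ℝ} (hc : BDC c)
    (h : ∀ᶠ ε : ℝ in 𝓝[>] 0, ‖PSC c ε + κ * ((Real.log ε : ℝ) : ℂ)‖ ≤ C) : MVC c κ :=
  ⟨hc, tendsto_of_LA h⟩

lemma MV.toMVC {c : Nat.Primes → ℝ} {κ : ℝ} (h : MV c κ) : MVC (fun p => (c p : ℂ)) κ := by
  obtain ⟨h1, C, hC⟩ := h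
  refine MVC.of_LA (C := C) (BDC.ofReal h1) ?_
  filter_upwards [hC] with ε h2
  rw [PSC_ofReal, ← Complex.ofReal_mul, ← Complex.ofReal_add, Complex.norm_real]
  exact h2

/-- From the real and the imaginary part. -/
lemma MVC.of_re_im {c : Nat.Primes → ℂ} {κ μ : ℝ} (hr : MV (fun p => (c p).re) κ)
    (hi : MV (fun p => (c p).im) μ) : MVC c (κ + μ * Complex.I) := by
  obtain ⟨⟨B, hB⟩, C, hC⟩ := hr
  obtain ⟨⟨B', hB'⟩, C', hC'⟩ := hi
  have hc : BDC c := ⟨B + B', fun p => (Complex.norm_le_abs_re_add_abs_im _).trans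
    (add_le_add (hB p) (hB' p))⟩
  refine MVC.of_LA (C := C + C') hc ?_
  filter_upwards [hC, hC', self_mem_nhdsWithin] with ε h1 h2 h3
  refine (Complex.norm_le_abs_re_add_abs_im _).trans (add_le_add ?_ ?_)
  · rw [Complex.add_re, PSC_re hc h3]
    simpa using h1
  · rw [Complex.add_im, PSC_im hc h3]
    simpa using h2

lemma MVC.add {c d : Nat.Primes → ℂ} {κ μ : ℂ} (hc : MVC c κ) (hd : MVC d μ) :
    MVC (fun p => c p + d p) (κ + μ) := by
  refine ⟨hc.1.add hd.1, (hc.2.add hd.2).congr' ?_⟩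
  filter_upwards [self_mem_nhdsWithin] with ε hε
  rw [PSC_add hc.1 hd.1 hε, add_div]

lemma MVC.const_mul {c : Nat.Primes → ℂ} {κ : ℂ} (a : ℂ) (hc : MVC c κ) :
    MVC (fun p => a * c p) (a * κ) := by
  refine ⟨(BDC.const a).mul hc.1, (hc.2.const_mul a).congr fun ε => ?_⟩
  rw [PSC_const_mul, mul_div_assoc]

lemma MVC.neg {c : Nat.Primes → ℂ} {κ : ℂ} (hc : MVC c κ) : MVC (fun p => -c p) (-κ) := by
  have := hc.const_mul (-1)
  simpa using this

lemma MVC.sub {c d : Nat.Primes → ℂ} {κ μ : ℂ} (hc : MVC c κ) (hd : MVC d μ) :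
    MVC (fun p => c p - d p) (κ - μ) := by
  have := hc.add hd.neg
  simpa [sub_eq_add_neg] using this

lemma MVC.zero : MVC (fun _ => 0) 0 := by
  have := MV.zero.toMVC
  simpa using this

lemma MVC.one : MVC (fun _ => 1) 1 := by
  have := MV.one.toMVC
  simpa using this

lemma MVC.const (a : ℂ) : MVC (fun _ => a) a := by
  have := MVC.one.const_mul a
  simpa using this

lemma MVC.sum {ι : Type*} (s : Finset ι) {c : ι → Nat.Primes → ℂ} {κ : ι → ℂ}
    (h : ∀ i ∈ s, MVC (c i) (κ i)) : MVC (fun p => ∑ i ∈ s, c i p) (∑ i ∈ s, κ i) := by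
  classical
  induction s using Finset.induction_on with
  | empty => simpa using MVC.zero
  | insert a s ha ih =>
    simp only [Finset.sum_insert ha]
    exact (h a (Finset.mem_insert_self _ _)).add (ih fun i hi => h i (Finset.mem_insert_of_mem hi))

lemma MVC.conj {c : Nat.Primes → ℂ} {κ : ℂ} (hc : MVC c κ) :
    MVC (fun p => (starRingEnd ℂ) (c p)) ((starRingEnd ℂ) κ) := by
  refine ⟨hc.1.conj, ((Complex.continuous_conj.tendsto κ).comp hc.2).congr fun ε => ?_⟩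
  rw [Function.comp_apply, PSC_conj, map_div₀, Complex.conj_ofReal]

lemma MVC.unique {c : Nat.Primes → ℂ} {κ μ : ℂ} (h : MVC c κ) (h' : MVC c μ) : κ = μ :=
  tendsto_nhds_unique h.2 h'.2

/-- A bounded function supported on a finite set has mean value zero. -/
lemma MVC.finite {c : Nat.Primes → ℂ} (T : Finset Nat.Primes) (h : ∀ p, p ∉ T → c p = 0) :
    MVC c 0 := by
  classical
  have hc : BDC c := by
    refine ⟨∑ p ∈ T, ‖c p‖, fun p => ?_⟩
    by_cases hp : p ∈ T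
    · exact Finset.single_le_sum (f := fun p => ‖c p‖) (fun p _ => norm_nonneg _) hp
    · rw [h p hp, norm_zero]
      exact Finset.sum_nonneg fun p _ => norm_nonneg _
  refine ⟨hc, tendsto_of_bounded (C := ∑ p ∈ T, ‖c p‖) ?_⟩
  filter_upwards [self_mem_nhdsWithin] with ε hε
  have hε0 : (0 : ℝ) < ε := hε
  have h1 : PSC c ε = ∑ p ∈ T, c p * ((((p : ℕ) : ℝ) ^ (-(1 + ε)) : ℝ) : ℂ) :=
    tsum_eq_sum fun p hp => by rw [h p hp, zero_mul]
  rw [h1]
  refine (norm_sum_le _ _).trans (Finset.sum_le_sum fun p _ => ?_)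
  have h2 : (0 : ℝ) ≤ ((p : ℕ) : ℝ) ^ (-(1 + ε)) := Real.rpow_nonneg (Nat.cast_nonneg _) _
  have h3 : ((p : ℕ) : ℝ) ^ (-(1 + ε)) ≤ 1 :=
    Real.rpow_le_one_of_one_le_of_nonpos (by exact_mod_cast p.2.one_le) (by linarith)
  rw [norm_mul, Complex.norm_real, Real.norm_of_nonneg h2]
  exact mul_le_of_le_one_right (norm_nonneg _) h3

/-- The mean value does not depend on finitely many values. -/
lemma MVC.congr {c d : Nat.Primes → ℂ} {κ : ℂ} (hc : MVC c κ) (T : Finset Nat.Primes)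
    (h : ∀ p, p ∉ T → c p = d p) : MVC d κ := by
  have h1 : MVC (fun p => d p - c p) 0 := MVC.finite T fun p hp => by rw [h p hp, sub_self]
  have := hc.add h1
  simpa using this

/-- limit form of the real mean value -/
def MVo (c : Nat.Primes → ℝ) (κ : ℝ) : Prop :=
  BD c ∧ Tendsto (fun ε : ℝ => PS c ε / (-Real.log ε)) (𝓝[>] 0) (𝓝 κ)

lemma MVC.re {c : Nat.Primes → ℂ} {κ : ℂ} (hc : MVC c κ) : MVo (fun p => (c p).re) κ.re := by
  refine ⟨hc.1.re, ((Complex.continuous_re.tendsto κ).comp hc.2).congr' ?_⟩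
  filter_upwards [self_mem_nhdsWithin] with ε hε
  rw [Function.comp_apply, Complex.div_ofReal_re, PSC_re hc.1 hε]

lemma MVC.im {c : Nat.Primes → ℂ} {κ : ℂ} (hc : MVC c κ) : MVo (fun p => (c p).im) κ.im := by
  refine ⟨hc.1.im, ((Complex.continuous_im.tendsto κ).comp hc.2).congr' ?_⟩
  filter_upwards [self_mem_nhdsWithin] with ε hε
  rw [Function.comp_apply, Complex.div_ofReal_im, PSC_im hc.1 hε]

lemma MVo.toMVC {c : Nat.Primes → ℝ} {κ : ℝ} (h : MVo c κ) : MVC (fun p => (c p : ℂ)) κ := by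
  refine ⟨BDC.ofReal h.1, ((Complex.continuous_ofReal.tendsto κ).comp h.2).congr fun ε => ?_⟩
  rw [Function.comp_apply, PSC_ofReal, Complex.ofReal_div]

lemma MV.toMVo {c : Nat.Primes → ℝ} {κ : ℝ} (h : MV c κ) : MVo c κ := by
  have := h.toMVC.re
  simpa using this

lemma MVC.of_MVo {c : Nat.Primes → ℂ} {κ μ : ℝ} (hr : MVo (fun p => (c p).re) κ)
    (hi : MVo (fun p => (c p).im) μ) : MVC c (κ + μ * Complex.I) := by
  have h1 := hr.toMVC.add (hi.toMVC.const_mul Complex.I)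
  rw [mul_comm Complex.I (μ : ℂ)] at h1
  refine h1.congr ∅ fun p _ => ?_
  rw [mul_comm Complex.I, Complex.re_add_im]

lemma MVo.add {c d : Nat.Primes → ℝ} {κ μ : ℝ} (hc : MVo c κ) (hd : MVo d μ) :
    MVo (fun p => c p + d p) (κ + μ) := by
  have := (hc.toMVC.add hd.toMVC).re
  simpa using this

lemma MVo.const_mul {c : Nat.Primes → ℝ} {κ : ℝ} (a : ℝ) (hc : MVo c κ) :
    MVo (fun p => a * c p) (a * κ) := by
  have := (hc.toMVC.const_mul a).re
  simpa using this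

lemma MVo.sub {c d : Nat.Primes → ℝ} {κ μ : ℝ} (hc : MVo c κ) (hd : MVo d μ) :
    MVo (fun p => c p - d p) (κ - μ) := by
  have := (hc.toMVC.sub hd.toMVC).re
  simpa using this

lemma MVo.congr {c d : Nat.Primes → ℝ} {κ : ℝ} (hc : MVo c κ) (T : Finset Nat.Primes)
    (h : ∀ p, p ∉ T → c p = d p) : MVo d κ := by
  have := (hc.toMVC.congr (d := fun p => (d p : ℂ)) T fun p hp => by rw [h p hp]).re
  simpa using this

lemma MVo.nonneg {c : Nat.Primes → ℝ} {κ : ℝ} (hc : MVo c κ) (T : Finset Nat.Primes)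
    (h : ∀ p, p ∉ T → 0 ≤ c p) : 0 ≤ κ := by
  classical
  have h1 : MVo (fun p => if p ∈ T then 0 else c p) κ := hc.congr T fun p hp => (if_neg hp).symm
  refine ge_of_tendsto h1.2 ?_
  filter_upwards [neglog_pos] with ε hε
  refine div_nonneg (tsum_nonneg fun p => mul_nonneg ?_ (Real.rpow_nonneg (Nat.cast_nonneg _) _))
    hε.le
  beta_reduce
  split_ifs with hp
  · exact le_rfl
  · exact h p hp

lemma MVo.mono {c d : Nat.Primes → ℝ} {κ μ : ℝ} (hc : MVo c κ) (hd : MVo d μ)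
    (T : Finset Nat.Primes) (h : ∀ p, p ∉ T → c p ≤ d p) : κ ≤ μ := by
  have h2 := (hd.sub hc).nonneg T fun p hp => by linarith [h p hp]
  linarith

/-- **Norm bound** -/
lemma MVC.norm_le {c : Nat.Primes → ℂ} {d : Nat.Primes → ℝ} {κ : ℂ} {μ : ℝ} (hc : MVC c κ)
    (hd : MVo d μ) (T : Finset Nat.Primes) (h : ∀ p, p ∉ T → ‖c p‖ ≤ d p) : ‖κ‖ ≤ μ := by
  by_cases hκ : κ = 0
  · rw [hκ, norm_zero]
    exact hd.nonneg T fun p hp => (norm_nonneg _).trans (h p hp)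
  · set u : ℂ := (starRingEnd ℂ) κ / ‖κ‖ with hu
    have hn : (‖κ‖ : ℂ) ≠ 0 := by exact_mod_cast norm_ne_zero_iff.2 hκ
    have hu1 : ‖u‖ = 1 := by
      rw [hu, norm_div, RCLike.norm_conj, Complex.norm_real, norm_norm]
      exact div_self (norm_ne_zero_iff.2 hκ)
    have hu2 : (u * κ).re = ‖κ‖ := by
      have : u * κ = (‖κ‖ : ℂ) := by
        rw [hu, div_mul_eq_mul_div, mul_comm, Complex.mul_conj, Complex.normSq_eq_norm_sq]
        push_cast
        field_simp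
      rw [this, Complex.ofReal_re]
    have h1 := (hc.const_mul u).re
    rw [hu2] at h1
    refine h1.mono hd T fun p hp => ?_
    refine (Complex.re_le_norm _).trans ?_
    rw [norm_mul, hu1, one_mul]
    exact h p hp

/-- **Approximation**: a bounded function which can be approximated in mean by functions
with mean values close to `κ` has mean value `κ`. -/
lemma MVC.of_approx {c : Nat.Primes → ℂ} {κ : ℂ} (hc : BDC c)
    (h : ∀ δ : ℝ, 0 < δ → ∃ (c' : Nat.Primes → ℂ) (κ' : ℂ) (d : Nat.Primes → ℝ) (μ : ℝ)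
      (T : Finset Nat.Primes), MVC c' κ' ∧ MVo d μ ∧ (∀ p, p ∉ T → ‖c p - c' p‖ ≤ d p) ∧
      μ ≤ δ ∧ ‖κ' - κ‖ ≤ δ) : MVC c κ := by
  classical
  refine ⟨hc, ?_⟩
  rw [Metric.tendsto_nhds]
  intro η hη
  obtain ⟨c', κ', d, μ, T, hc', hd, hle, hμ, hκ⟩ := h (η / 5) (by positivity)
  -- replace `d` by a function which dominates everywhere
  obtain ⟨d', hd', hle'⟩ : ∃ d' : Nat.Primes → ℝ, MVo d' μ ∧ ∀ p, ‖c p - c' p‖ ≤ d' p := by
    refine ⟨fun p => if p ∈ T then ‖c p - c' p‖ else d p,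
      hd.congr T fun p hp => (if_neg hp).symm, fun p => ?_⟩
    beta_reduce
    split_ifs with hp
    · exact le_rfl
    · exact hle p hp
  have h1 := hc'.2
  rw [Metric.tendsto_nhds] at h1
  have h2 := hd'.2
  rw [Metric.tendsto_nhds] at h2
  filter_upwards [h1 (η / 5) (by positivity), h2 (η / 5) (by positivity), neglog_pos,
    self_mem_nhdsWithin] with ε h3 h4 h5 hε
  have hε0 : (0 : ℝ) < ε := hε
  have hsub : PSC c ε - PSC c' ε = PSC (fun p => c p - c' p) ε := by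
    have := PSC_add (hc.sub hc'.1) hc'.1 hε0
    simp only [sub_add_cancel] at this
    rw [this]
    ring
  have h6 : ‖PSC c ε - PSC c' ε‖ ≤ PS d' ε := by
    rw [hsub]
    refine (norm_PSC_le (hc.sub hc'.1) hε0).trans ?_
    obtain ⟨B, hB⟩ := (hc.sub hc'.1).norm
    obtain ⟨B', hB'⟩ := hd'.1
    refine (PS_summable hB hε0).tsum_le_tsum (fun p => ?_) (PS_summable hB' hε0)
    exact mul_le_mul_of_nonneg_right (hle' p) (Real.rpow_nonneg (Nat.cast_nonneg _) _)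
  rw [Real.dist_eq] at h4
  rw [dist_eq_norm] at h3 ⊢
  have h7 : ‖PSC c ε / ((-Real.log ε : ℝ) : ℂ) - PSC c' ε / ((-Real.log ε : ℝ) : ℂ)‖ ≤
      PS d' ε / (-Real.log ε) := by
    rw [← sub_div, norm_div, Complex.norm_real, Real.norm_of_nonneg h5.le]
    exact div_le_div_of_nonneg_right h6 h5.le
  have h8 : PS d' ε / (-Real.log ε) < μ + η / 5 := by
    have := (abs_lt.1 h4).2
    linarith
  calc ‖PSC c ε / ((-Real.log ε : ℝ) : ℂ) - κ‖
      = ‖(PSC c ε / ((-Real.log ε : ℝ) : ℂ) - PSC c' ε / ((-Real.log ε : ℝ) : ℂ)) +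
        (PSC c' ε / ((-Real.log ε : ℝ) : ℂ) - κ') + (κ' - κ)‖ := by congr 1; ring
    _ ≤ ‖PSC c ε / ((-Real.log ε : ℝ) : ℂ) - PSC c' ε / ((-Real.log ε : ℝ) : ℂ)‖ +
        ‖PSC c' ε / ((-Real.log ε : ℝ) : ℂ) - κ'‖ + ‖κ' - κ‖ := norm_add₃_le
    _ < η := by linarith

/-- **Squeeze** for real functions: lower and upper approximations. -/
lemma MVo.squeeze {c : Nat.Primes → ℝ} {κ : ℝ} (hc : BD c)
    (h : ∀ δ : ℝ, 0 < δ → ∃ (l u : Nat.Primes → ℝ) (a b : ℝ) (T : Finset Nat.Primes),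
      MVo l a ∧ MVo u b ∧ (∀ p, p ∉ T → l p ≤ c p ∧ c p ≤ u p) ∧ κ - δ ≤ a ∧ b ≤ κ + δ) :
    MVo c κ := by
  have key : MVC (fun p => (c p : ℂ)) κ := by
    refine MVC.of_approx (BDC.ofReal hc) fun δ hδ => ?_
    obtain ⟨l, u, a, b, T, hl, hu, hlu, ha, hb⟩ := h (δ / 2) (by positivity)
    have hab : a ≤ b := hl.mono hu T fun p hp => (hlu p hp).1.trans (hlu p hp).2
    refine ⟨fun p => (l p : ℂ), a, fun p => u p - l p, b - a, T, hl.toMVC, hu.sub hl,
      fun p hp => ?_, by linarith, ?_⟩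
    · rw [← Complex.ofReal_sub, Complex.norm_real, Real.norm_of_nonneg (by linarith [(hlu p hp).1])]
      linarith [(hlu p hp).2]
    · rw [← Complex.ofReal_sub, Complex.norm_real, Real.norm_eq_abs, abs_le]
      constructor <;> linarith
  have := key.re
  simpa using this

/-- **Lower bounds suffice**: nonnegative functions with sum one and lower mean values. -/
lemma MVo.of_lower {ι : Type*} (s : Finset ι) {c : ι → Nat.Primes → ℝ} {κ : ι → ℝ}
    (hc : ∀ i ∈ s, BD (c i)) (hsum : ∀ p, ∑ i ∈ s, c i p = 1) (hκ : ∑ i ∈ s, κ i = 1)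
    (h : ∀ i ∈ s, ∀ δ : ℝ, 0 < δ → ∃ (l : Nat.Primes → ℝ) (a : ℝ) (T : Finset Nat.Primes),
      MVo l a ∧ (∀ p, p ∉ T → l p ≤ c i p) ∧ κ i - δ ≤ a) : ∀ i ∈ s, MVo (c i) (κ i) := by
  classical
  intro i hi
  refine MVo.squeeze (hc i hi) fun δ hδ => ?_
  have hcard : (0 : ℝ) < s.card + 1 := by positivity
  have h1 : ∀ j : ι, ∃ (l : Nat.Primes → ℝ) (a : ℝ) (T : Finset Nat.Primes), j ∈ s →
      MVo l a ∧ (∀ p, p ∉ T → l p ≤ c j p) ∧ κ j - δ / (s.card + 1) ≤ a := by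
    intro j
    by_cases hj : j ∈ s
    · obtain ⟨l, a, T, h2⟩ := h j hj (δ / (s.card + 1)) (by positivity)
      exact ⟨l, a, T, fun _ => h2⟩
    · exact ⟨fun _ => 0, 0, ∅, fun h => absurd h hj⟩
  choose l a T hl using h1
  refine ⟨l i, fun p => 1 - ∑ j ∈ s.erase i, l j p, a i, 1 - ∑ j ∈ s.erase i, a j,
    s.biUnion T, (hl i hi).1, ?_, fun p hp => ?_, ?_, ?_⟩
  · have h2 : MVo (fun p => ∑ j ∈ s.erase i, l j p) (∑ j ∈ s.erase i, a j) := by
      have := (MVC.sum (s.erase i) fun j hj =>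
        (hl j (Finset.mem_of_mem_erase hj)).1.toMVC).re
      simpa using this
    exact (MV.toMVo MV.one).sub h2
  · have hT : ∀ j ∈ s, p ∉ T j := fun j hj hp' => hp (Finset.mem_biUnion.2 ⟨j, hj, hp'⟩)
    refine ⟨(hl i hi).2.1 p (hT i hi), ?_⟩
    have h2 := hsum p
    rw [← Finset.add_sum_erase _ _ hi] at h2
    have h3 : ∑ j ∈ s.erase i, l j p ≤ ∑ j ∈ s.erase i, c j p :=
      Finset.sum_le_sum fun j hj =>
        (hl j (Finset.mem_of_mem_erase hj)).2.1 p (hT j (Finset.mem_of_mem_erase hj))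
    linarith
  · have h2 := (hl i hi).2.2
    have h3 : δ / (s.card + 1) ≤ δ := div_le_self hδ.le (by linarith [Nat.cast_nonneg (α := ℝ) s.card])
    linarith
  · have h2 : ∑ j ∈ s.erase i, (κ j - δ / (s.card + 1)) ≤ ∑ j ∈ s.erase i, a j :=
      Finset.sum_le_sum fun j hj => (hl j (Finset.mem_of_mem_erase hj)).2.2
    rw [Finset.sum_sub_distrib, Finset.sum_const, nsmul_eq_mul] at h2
    have h3 := hκ
    rw [← Finset.add_sum_erase _ _ hi] at h3
    have h4 : ((s.erase i).card : ℝ) * (δ / (s.card + 1)) ≤ δ := by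
      rw [mul_div_assoc', div_le_iff₀ hcard, mul_comm]
      refine mul_le_mul_of_nonneg_left ?_ hδ.le
      have : ((s.erase i).card : ℝ) ≤ s.card := by exact_mod_cast Finset.card_erase_le
      linarith
    linarith

end Pool.Agent.Work.MP_2b9663_nt
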