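import Pool.Agent.Work.MP_2b9663_nt.Ch.Virtual
import Pool.Agent.Work.MP_2b9663_nt.Ch.VirtK

set_option autoImplicit false

/-!
The virtual representation for the Artin representations that are trivial over a Galois extension
`E` of `ℚ`, finite or infinite.
-/

namespace Pool.Agent.Work.MP_2b9663_nt

open NumberField Filter Topology ComplexConjugate

section

variable {Ω : Type} [Field Ω] [CharZero Ω] [IsAlgClosure ℚ Ω]

/-- the automorphisms over the intersection of a number field and an intermediate field -/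
lemma fixing_inf_eq_sup (M E : IntermediateField ℚ Ω) [NumberField M] :
    (M ⊓ E).fixingSubgroup = M.fixingSubgroup ⊔ E.fixingSubgroup := by
  have hgal := isGalois_of_isAlgClosure (Ω := Ω)
  have hopen : IsOpen ((M.fixingSubgroup ⊔ E.fixingSubgroup : Subgroup (Ω ≃ₐ[ℚ] Ω)) :
      Set (Ω ≃ₐ[ℚ] Ω)) :=
    Subgroup.isOpen_mono le_sup_left M.fixingSubgroup_isOpen
  have hclosed : IsClosed ((M.fixingSubgroup ⊔ E.fixingSubgroup : Subgroup (Ω ≃ₐ[ℚ] Ω)) :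
      Set (Ω ≃ₐ[ℚ] Ω)) := OpenSubgroup.isClosed ⟨_, hopen⟩
  have h1 : IntermediateField.fixedField
      (M.fixingSubgroup ⊔ E.fixingSubgroup : Subgroup (Ω ≃ₐ[ℚ] Ω)) = M ⊓ E := by
    apply le_antisymm
    · refine le_inf ?_ ?_
      · exact (IntermediateField.fixedField_le le_sup_left).trans
          (InfiniteGalois.fixedField_fixingSubgroup M).le
      · exact (IntermediateField.fixedField_le le_sup_right).trans
          (InfiniteGalois.fixedField_fixingSubgroup E).le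
    · rw [IntermediateField.le_iff_le]
      exact sup_le (IntermediateField.fixingSubgroup_le inf_le_left)
        (IntermediateField.fixingSubgroup_le inf_le_right)
  have h2 := InfiniteGalois.fixingSubgroup_fixedField
    (⟨M.fixingSubgroup ⊔ E.fixingSubgroup, hclosed⟩ : ClosedSubgroup (Ω ≃ₐ[ℚ] Ω))
  rw [← h1]
  exact h2

/-- a common Galois level in `E` of representations trivial over `E` -/
lemma exists_level_in (E : IntermediateField ℚ Ω) [hEg : IsGalois ℚ E] {ι : Type} (s : Finset ι)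
    (R : ι → ArtinRep Ω) (hE : ∀ j ∈ s, ∀ g ∈ E.fixingSubgroup, (R j).ρ g = 1) :
    ∃ M : IntermediateField ℚ Ω, NumberField M ∧ IsGalois ℚ M ∧ M ≤ E ∧
      ∀ j ∈ s, ∀ g ∈ M.fixingSubgroup, (R j).ρ g = 1 := by
  obtain ⟨M, hM1, hM2, hM⟩ := exists_level s R
  have h1 : FiniteDimensional ℚ (M ⊓ E : IntermediateField ℚ Ω) :=
    FiniteDimensional.of_injective (IntermediateField.inclusion inf_le_left).toLinearMap
      (IntermediateField.inclusion (E := M ⊓ E) (F := M) inf_le_left).injective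
  have h2 : @IsGalois ℚ _ M _ M.algebra' := hM2
  have h3 : @IsGalois ℚ _ E _ E.algebra' := hEg
  have h4 : @IsGalois ℚ _ (M ⊓ E : IntermediateField ℚ Ω) _ (M ⊓ E).algebra' := inferInstance
  refine ⟨M ⊓ E, ⟨⟩, h4, inf_le_right, fun j hj g hg => ?_⟩
  rw [fixing_inf_eq_sup] at hg
  have h2 : M.fixingSubgroup ⊔ E.fixingSubgroup ≤ (R j).ρ.ker := by
    refine sup_le (fun x hx => ?_) fun x hx => hE j hj x hx
    have h3 := hM j hj 1 x hx
    rwa [one_mul, map_one] at h3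
  exact h2 hg

/-- the characters of the irreducible Artin representations trivial over `E` -/
def irrArtinE (E : IntermediateField ℚ Ω) : Set ((Ω ≃ₐ[ℚ] Ω) → ℂ) :=
  {χ | ∃ R : ArtinRep Ω, R.Irr ∧ R.char = χ ∧ ∀ g ∈ E.fixingSubgroup, R.ρ g = 1}

omit [IsAlgClosure ℚ Ω] in
lemma irrArtinE_sub (E : IntermediateField ℚ Ω) : irrArtinE E ⊆ irrArtin Ω := by
  rintro χ ⟨R, hR, hRχ, -⟩
  exact ⟨R, hR, hRχ⟩

/-- the class functions of level `L ≤ E` are in the span of these characters -/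
lemma mem_span_irrE (E L : IntermediateField ℚ Ω) [NumberField L] [IsGalois ℚ L] (hLE : L ≤ E)
    {f : (Ω ≃ₐ[ℚ] Ω) → ℂ} (hL : Lvl L f) (hf : IsCl f) : f ∈ Submodule.span ℂ (irrArtinE E) := by
  obtain ⟨s, c, hs, h⟩ := char_complete L hL hf
  have h1 : f = ∑ χ ∈ s, c χ • χ := by
    rw [h]
    funext g
    rw [Finset.sum_apply]
    rfl
  rw [h1]
  refine Submodule.sum_mem _ fun χ hχ => Submodule.smul_mem _ _ (Submodule.subset_span ?_)
  obtain ⟨R, hR, hR2, hR3⟩ := hs χ hχ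
  exact ⟨R, hR, hR2, fun g hg => hR3 g (IntermediateField.fixingSubgroup_le hLE hg)⟩

variable (hyp : MeanHyp) (Fr : Nat.Primes → (Ω ≃ₐ[ℚ] Ω))
  (hFr : ∀ p : Nat.Primes, IsFrob (p : ℕ) (Fr p)) {a : Nat.Primes → ℂ} {b : ℝ} (ha : ∀ p, ‖a p‖ ≤ b)

include hyp hFr ha in
/-- The virtual representation over `E`.  `m χ` is the order of the twist by the irreducible Artin
character `χ`. -/
theorem virtualE_of (E : IntermediateField ℚ Ω) [IsGalois ℚ E] (m : ((Ω ≃ₐ[ℚ] Ω) → ℂ) → ℤ)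
    (h : ∀ R : ArtinRep Ω, R.Irr → (∀ g ∈ E.fixingSubgroup, R.ρ g = 1) →
      MVC (fun p => a p * R.char (Fr p)) (-(m R.char : ℂ))) :
    ∃ (M : IntermediateField ℚ Ω) (s : Finset ((Ω ≃ₐ[ℚ] Ω) → ℂ)) (r : ((Ω ≃ₐ[ℚ] Ω) → ℂ) → ℤ),
      NumberField M ∧ IsGalois ℚ M ∧ M ≤ E ∧
      (∀ χ ∈ s, ∃ R : ArtinRep Ω, R.Irr ∧ R.char = χ ∧ ∀ g ∈ M.fixingSubgroup, R.ρ g = 1) ∧
      ((∑ χ ∈ s, r χ ^ 2 : ℤ) : ℝ) ≤ b ^ 2 ∧
      (∀ g, ‖∑ χ ∈ s, (r χ : ℂ) * χ g‖ ≤ b) ∧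
      ∀ (L : IntermediateField ℚ Ω) [NumberField L] [IsGalois ℚ L] (f : (Ω ≃ₐ[ℚ] Ω) → ℂ),
        M ≤ L → L ≤ E → Lvl L f → IsCl f →
        MVC (fun p => a p * f (Fr p)) (meanAt L fun g => (∑ χ ∈ s, (r χ : ℂ) * χ g) * f g) := by
  classical
  have horth : OrthP Fr (irrArtinE E) := fun χ hχ χ' hχ' =>
    orthP_irrArtin hyp Fr hFr χ (irrArtinE_sub E hχ) χ' (irrArtinE_sub E hχ')
  have hX : ∀ χ ∈ irrArtinE E, MVC (fun p => a p * χ (Fr p)) (-(m χ : ℂ)) := by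
    rintro χ ⟨R, hR, rfl, hRE⟩
    exact h R hR hRE
  have haB : ∀ p, p ∉ (∅ : Finset Nat.Primes) → ‖a p‖ ≤ ((⌈b⌉₊ : ℕ) : ℝ) := fun p _ =>
    (ha p).trans (Nat.le_ceil b)
  obtain ⟨hfin, -⟩ := suppX_finite horth haB hX
  set S : Finset ((Ω ≃ₐ[ℚ] Ω) → ℂ) := hfin.toFinset with hSdef
  have hS : ∀ χ, χ ∈ S ↔ χ ∈ suppX (irrArtinE E) m := fun χ => hfin.mem_toFinset
  -- the representations
  have hex : ∀ χ : S, ∃ R : ArtinRep Ω, R.Irr ∧ (R.char = fun g => conj (χ.1 g)) ∧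
      ∀ g ∈ E.fixingSubgroup, R.ρ g = 1 := by
    rintro ⟨χ, hχ⟩
    obtain ⟨⟨R, hR, hRχ, hRE⟩, -⟩ := (hS χ).1 hχ
    obtain ⟨R', h1, h2, h3⟩ := exists_dual R
    refine ⟨R', h1 hR, funext fun g => ?_, fun g hg => h3 g (hRE g hg)⟩
    rw [h2, hRχ]
  choose Rd hRd hRd' hRdE using hex
  obtain ⟨M, hM1, hM2, hME, hM⟩ := exists_level_in E (Finset.univ : Finset S) Rd
    fun χ _ => hRdE χ
  have hM' : ∀ χ : S, ∀ g ∈ M.fixingSubgroup, (Rd χ).ρ g = 1 := fun χ g hg =>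
    hM χ (Finset.mem_univ _) g hg
  set cj : ((Ω ≃ₐ[ℚ] Ω) → ℂ) → ((Ω ≃ₐ[ℚ] Ω) → ℂ) := fun χ g => conj (χ g) with hcj
  have hcj2 : ∀ χ, cj (cj χ) = χ := fun χ => funext fun g => Complex.conj_conj _
  have hinj : Function.Injective cj := Function.HasLeftInverse.injective ⟨cj, hcj2⟩
  set s : Finset ((Ω ≃ₐ[ℚ] Ω) → ℂ) := S.image cj with hs
  set r : ((Ω ≃ₐ[ℚ] Ω) → ℂ) → ℤ := fun χ => -m (cj χ) with hr
  have hsum : ∀ g, ∑ χ ∈ s, (r χ : ℂ) * χ g = virt m S g := by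
    intro g
    rw [hs, Finset.sum_image fun χ _ χ' _ h => hinj h, virt]
    refine Finset.sum_congr rfl fun χ _ => ?_
    rw [hr]
    beta_reduce
    rw [hcj2]
    push_cast
    rfl
  have hvl : Lvl M (virt m S) := by
    refine Lvl.sum S fun χ hχ => ?_
    have h1 : Lvl M (Rd ⟨χ, hχ⟩).char := ArtinRep.lvl_char (hM' ⟨χ, hχ⟩)
    rw [hRd'] at h1
    exact h1.comp fun z => -(m χ : ℂ) * z
  have hvc : IsCl (virt m S) := by
    refine IsCl.sum S fun χ hχ => ?_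
    have h1 : IsCl (Rd ⟨χ, hχ⟩).char := ArtinRep.isCl_char _
    rw [hRd'] at h1
    exact h1.comp fun z => -(m χ : ℂ) * z
  -- the functional
  have hfun : ∀ (L : IntermediateField ℚ Ω) [NumberField L] [IsGalois ℚ L]
      (f : (Ω ≃ₐ[ℚ] Ω) → ℂ), M ≤ L → L ≤ E → Lvl L f → IsCl f →
        MVC (fun p => a p * f (Fr p)) (meanAt L fun g => virt m S g * f g) := by
    intro L _ _ f hML hLE hLf hf
    obtain ⟨x, hx, hx'⟩ := virt_apply horth hX hS (mem_span_irrE E L hLE hLf hf)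
    have h1 := chebΩ_of hyp Fr hFr L (fun g => virt m S g * f g)
      ((hvl.mono hML).comp₂ hLf fun z w => z * w) (hvc.comp₂ hf fun z w => z * w) 0
    rw [if_pos rfl] at h1
    have h2 := h1.congr (d := fun p => virt m S (Fr p) * f (Fr p)) ∅ fun p _ => by
      rw [pw_zero, mul_one]
    rw [← hx'.unique h2]
    exact hx
  refine ⟨M, s, r, hM1, hM2, hME, ?_, ?_, ?_, ?_⟩
  · intro χ hχ
    obtain ⟨χ', hχ', rfl⟩ := Finset.mem_image.1 hχ
    exact ⟨Rd ⟨χ', hχ'⟩, hRd _, hRd' _, hM' _⟩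
  · have h1 := bessel_chars horth (fun p _ => ha p : ∀ p, p ∉ (∅ : Finset Nat.Primes) → ‖a p‖ ≤ b)
      hX S fun χ hχ => ((hS χ).1 hχ).1
    refine le_trans (le_of_eq ?_) h1
    rw [hs, Finset.sum_image fun χ _ χ' _ h => hinj h]
    push_cast
    refine Finset.sum_congr rfl fun χ _ => ?_
    rw [hr]
    beta_reduce
    rw [hcj2]
    push_cast
    ring
  · intro γ
    rw [hsum]
    have hfq := finite_quot M
    have h1 := hfun M (clInd M γ) le_rfl hME (lvl_clInd M γ) (isCl_clInd M γ)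
    have h2 : (fun g => virt m S g * clInd M γ g) = fun g => virt m S γ * clInd M γ g :=
      funext fun g => mul_clInd M hvl hvc γ g
    rw [h2, meanAt_const_mul] at h1
    have h3 := mean_ineq_of hyp Fr hFr ha M (clInd M γ) (lvl_clInd M γ) (isCl_clInd M γ) h1
    have h4 : (fun g => (‖clInd M γ g‖ : ℂ)) = clInd M γ := by
      funext g
      unfold clInd
      split_ifs <;> simp
    obtain ⟨c, hc, hc2⟩ := meanAt_clInd M γ
    rw [h4, hc2, norm_mul, Complex.ofReal_re, Complex.norm_real, Real.norm_of_nonneg hc.le] at h3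
    exact le_of_mul_le_mul_right h3 hc
  · intro L _ _ f hML hLE hLf hf
    have h1 := hfun L f hML hLE hLf hf
    have h2 : (fun g => (∑ χ ∈ s, (r χ : ℂ) * χ g) * f g) = fun g => virt m S g * f g :=
      funext fun g => by rw [hsum]
    rw [h2]
    exact h1

end

section

variable {Ω : Type} [Field Ω] [CharZero Ω] [IsAlgClosure ℚ Ω]

/-- the normal closure of a subfield of a Galois extension -/
lemma nc_le {K E : IntermediateField ℚ Ω} [hE : IsGalois ℚ E] (h : K ≤ E) : NC K ≤ E := by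
  have h1 : @IsGalois ℚ _ E _ E.algebra' := hE
  have h2 : @Normal ℚ E _ _ E.algebra' := h1.to_normal
  unfold NC
  exact IntermediateField.normalClosure_le_iff_of_normal.2 h

/-- **Base change** in `E` -/
theorem virtualE_base {Fr : Nat.Primes → (Ω ≃ₐ[ℚ] Ω)}
    (hFr : ∀ p : Nat.Primes, IsFrob (p : ℕ) (Fr p)) {a : Nat.Primes → ℂ}
    {M E : IntermediateField ℚ Ω} {V : (Ω ≃ₐ[ℚ] Ω) → ℂ}
    (hfun : ∀ (L : IntermediateField ℚ Ω) [NumberField L] [IsGalois ℚ L] (f : (Ω ≃ₐ[ℚ] Ω) → ℂ),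
      M ≤ L → L ≤ E → Lvl L f → IsCl f →
        MVC (fun p => a p * f (Fr p)) (meanAt L fun g => V g * f g))
    {K L : IntermediateField ℚ Ω} [NumberField K] [NumberField L] [IsGalois ℚ L] (hM : M ≤ L)
    (hLE : L ≤ E) (hK : K ≤ L) : MVC (fun p : Nat.Primes => (idc K (p : ℕ) : ℂ) * a p)
      (meanAt L fun g => V g * (fixEmb K Ω g : ℂ)) := by
  obtain ⟨T, hT⟩ := idc_isFrob K
  refine (hfun L (fun g => (fixEmb K Ω g : ℂ)) hM hLE (lvl_fixEmb hK) (isCl_fixEmb K)).congr T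
    fun p hp => ?_
  rw [hT p hp (Fr p) (hFr p), mul_comm]

/-- The mean values of the base changes to `K ≤ E` and `K' ≤ E` are equal if `K` and `K'` have the
same intersection with `M`. -/
theorem virtualE_stable {Fr : Nat.Primes → (Ω ≃ₐ[ℚ] Ω)}
    (hFr : ∀ p : Nat.Primes, IsFrob (p : ℕ) (Fr p)) {a : Nat.Primes → ℂ}
    {M E : IntermediateField ℚ Ω} [NumberField M] [IsGalois ℚ M] [IsGalois ℚ E] (hME : M ≤ E)
    {V : (Ω ≃ₐ[ℚ] Ω) → ℂ} (hV : Lvl M V) (hVc : IsCl V)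
    (hfun : ∀ (L : IntermediateField ℚ Ω) [NumberField L] [IsGalois ℚ L] (f : (Ω ≃ₐ[ℚ] Ω) → ℂ),
      M ≤ L → L ≤ E → Lvl L f → IsCl f →
        MVC (fun p => a p * f (Fr p)) (meanAt L fun g => V g * f g))
    {K K' : IntermediateField ℚ Ω} [NumberField K] [NumberField K'] (hKE : K ≤ E) (hKE' : K' ≤ E)
    (h : K ⊓ M = K' ⊓ M) {x x' : ℂ}
    (hx : MVC (fun p : Nat.Primes => (idc K (p : ℕ) : ℂ) * a p) x)
    (hx' : MVC (fun p : Nat.Primes => (idc K' (p : ℕ) : ℂ) * a p) x') : x = x' := by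
  have h1 : FiniteDimensional ℚ (K ⊔ K' ⊔ M : IntermediateField ℚ Ω) := by
    have : FiniteDimensional ℚ (K ⊔ K' : IntermediateField ℚ Ω) :=
      IntermediateField.finiteDimensional_sup K K'
    exact IntermediateField.finiteDimensional_sup (K ⊔ K') M
  have h2 : NumberField (K ⊔ K' ⊔ M : IntermediateField ℚ Ω) := ⟨⟩
  have h3 : NumberField (NC (K ⊔ K' ⊔ M)) := nc_nf _
  have h4 : IsGalois ℚ (NC (K ⊔ K' ⊔ M)) := nc_gal _
  have hle : K ⊔ K' ⊔ M ≤ NC (K ⊔ K' ⊔ M) := le_nc _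
  have hE : NC (K ⊔ K' ⊔ M) ≤ E := nc_le (sup_le (sup_le hKE hKE') hME)
  have hK : K ≤ NC (K ⊔ K' ⊔ M) := (le_sup_left.trans le_sup_left).trans hle
  have hK' : K' ≤ NC (K ⊔ K' ⊔ M) := (le_sup_right.trans le_sup_left).trans hle
  have hM : M ≤ NC (K ⊔ K' ⊔ M) := le_sup_right.trans hle
  rw [hx.unique (virtualE_base hFr hfun hM hE hK), hx'.unique (virtualE_base hFr hfun hM hE hK')]
  exact meanAt_fixEmb_eq hM hK hK' hV hVc h

end

end Pool.Agent.Work.MP_2b9663_nt
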