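import Pool.Agent.Work.MP_2b9663_nt.Ch.DefsEdge
import Pool.Agent.Work.MP_2b9663_nt.Ch.DefsMain
import Pool.Agent.Work.MP_2b9663_nt.Ch.Assembly
import Pool.Agent.Work.MP_2b9663_nt.Ch.ChebFinal
import Pool.Agent.Work.MP_2b9663_nt.Ch.BesD
import Pool.Agent.Work.MP_2b9663_nt.Ch.GroupBes
import Pool.Agent.Work.MP_2b9663_nt.Ch.VirtE
import Pool.Agent.Work.MP_2b9663_nt.Ch.ExFrob

set_option autoImplicit false

/-!
The theorem on twists by Artin representations: finiteness of the orders, the mean inequality,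
Bessel's inequality on the line `Re s = s₀`, the virtual representation.
-/

namespace Pool.Agent.Work.MP_2b9663_nt

open NumberField Filter Topology ComplexConjugate

section

variable {Ω : Type} [Field Ω] [CharZero Ω] [IsAlgClosure ℚ Ω]

/-- Frobenius elements exist -/
lemma exists_frobs : ∃ Fr : Nat.Primes → (Ω ≃ₐ[ℚ] Ω), ∀ p : Nat.Primes, IsFrob (p : ℕ) (Fr p) := by
  choose Fr hFr using fun p : Nat.Primes => exists_isFrob (Ω := Ω) p.2
  exact ⟨Fr, hFr⟩

omit [IsAlgClosure ℚ Ω] in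
/-- an automorphism and its inverse fix the same embeddings -/
lemma fixEmb_inv_eq (K : Type) [Field K] (g : Ω ≃ₐ[ℚ] Ω) : fixEmb K Ω g⁻¹ = fixEmb K Ω g := by
  unfold fixEmb
  refine Nat.card_congr (Equiv.subtypeEquivRight fun σ => forall_congr' fun x => ?_)
  constructor
  · intro h
    have h1 := congrArg g h
    rw [← AlgEquiv.mul_apply, mul_inv_cancel] at h1
    exact h1.symm
  · intro h
    have h1 := congrArg (g⁻¹ : Ω ≃ₐ[ℚ] Ω) h
    rw [← AlgEquiv.mul_apply, inv_mul_cancel] at h1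
    exact h1.symm

omit [IsAlgClosure ℚ Ω] in
/-- subfields of number fields -/
lemma numberField_of_le {K L : IntermediateField ℚ Ω} [NumberField L] (h : K ≤ L) :
    NumberField K := by
  have h1 : FiniteDimensional ℚ K :=
    FiniteDimensional.of_injective (IntermediateField.inclusion h).toLinearMap
      (IntermediateField.inclusion h).injective
  exact ⟨⟩

variable {G : Nat.Primes → Prop} {t : Nat.Primes → ℕ → ℂ} {i b : ℕ}

/-- the mean value attached to the order of a twist -/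
lemma OrdArtin.mvc (h : WeilBound G t i b) {R : ArtinRep Ω} {y : ℝ} {m : ℤ}
    (hm : OrdArtin G t i R y m) {Fr : Nat.Primes → (Ω ≃ₐ[ℚ] Ω)}
    (hFr : ∀ p : Nat.Primes, IsFrob (p : ℕ) (Fr p)) :
    MVC (fun p => nt G t i p * conj (R.char (Fr p)) * pw y p) (-(m : ℂ)) := by
  obtain ⟨F, hF, hFm⟩ := hm
  obtain ⟨n, hn, hmv⟩ := order_artin (Nat.cast_nonneg b) h hF Fr hFr
  rw [hFm] at hn
  have h1 : m = n := by exact_mod_cast hn
  rw [h1]
  exact hmv

/-- the mean value attached to the order of a twist at `s₀` -/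
lemma OrdArtin.mvc_zero (h : WeilBound G t i b) {R : ArtinRep Ω} {m : ℤ}
    (hm : OrdArtin G t i R 0 m) {Fr : Nat.Primes → (Ω ≃ₐ[ℚ] Ω)}
    (hFr : ∀ p : Nat.Primes, IsFrob (p : ℕ) (Fr p)) :
    MVC (fun p => nt G t i p * conj (R.char (Fr p))) (-(m : ℂ)) :=
  (hm.mvc h hFr).congr ∅ fun p _ => by rw [pw_zero, mul_one]

omit [IsAlgClosure ℚ Ω] in
/-- the mean value attached to the order over a number field -/
lemma OrdField.mvc (h : WeilBound G t i b) {K : IntermediateField ℚ Ω} [NumberField K] {m : ℤ}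
    (hm : OrdField G t i K m) :
    MVC (fun p : Nat.Primes => (idc K (p : ℕ) : ℂ) * nt G t i p) (-(m : ℂ)) := by
  obtain ⟨F, hF, hFm⟩ := hm
  obtain ⟨n, hn, hmv⟩ := order_artinBase (Nat.cast_nonneg b) h hF
  rw [hFm] at hn
  have h1 : m = n := by exact_mod_cast hn
  rw [h1]
  exact hmv

/-- the orders are finite -/
theorem finiteOrders (h : WeilBound G t i b) : FiniteOrders Ω G t i := by
  obtain ⟨Fr, hFr⟩ := exists_frobs (Ω := Ω)
  refine ⟨fun R y F hF => ?_, fun K _ F hF => ?_⟩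
  · obtain ⟨n, hn, -⟩ := order_artin (Nat.cast_nonneg b) h hF Fr hFr
    exact ⟨n, hn⟩
  · obtain ⟨n, hn, -⟩ := order_artinBase (Nat.cast_nonneg b) h hF
    exact ⟨n, hn⟩

/-- **The mean inequality.** -/
theorem meanInequality (h : WeilBound G t i b) : MeanInequality Ω G t i b := by
  intro L _ _ ι ι' s s' R K m m' c c' hR hK
  obtain ⟨Fr, hFr⟩ := exists_frobs (Ω := Ω)
  have hnf : ∀ l ∈ s', NumberField (K l) := fun l hl => numberField_of_le (hK l hl).2
  -- the class function
  set f : (Ω ≃ₐ[ℚ] Ω) → ℂ := fun g => ∑ j ∈ s, c j * (R j).char g +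
    ∑ l ∈ s', c' l * (fixEmb (K l) Ω g : ℂ) with hf
  have hfl : Lvl L f := by
    refine Lvl.comp₂ (Lvl.sum s fun j hj => ?_) (Lvl.sum s' fun l hl => ?_) fun z w => z + w
    · exact (ArtinRep.lvl_char (hR j hj).2).comp fun z => c j * z
    · have := hnf l hl
      exact (lvl_fixEmb (hK l hl).2).comp fun z => c' l * z
  -- its value at the inverse
  set f' : (Ω ≃ₐ[ℚ] Ω) → ℂ := fun g => ∑ j ∈ s, c j * conj ((R j).char g) +
    ∑ l ∈ s', c' l * (fixEmb (K l) Ω g : ℂ) with hf'
  have hff' : ∀ g, f' g = f g⁻¹ := by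
    intro g
    simp only [hf, hf', ArtinRep.char_inv, fixEmb_inv_eq]
  have hfl' : Lvl L f' := by
    refine Lvl.comp₂ (Lvl.sum s fun j hj => ?_) (Lvl.sum s' fun l hl => ?_) fun z w => z + w
    · exact (ArtinRep.lvl_char (hR j hj).2).comp fun z => c j * conj z
    · have := hnf l hl
      exact (lvl_fixEmb (hK l hl).2).comp fun z => c' l * z
  have hfc' : IsCl f' := by
    refine IsCl.comp₂ (IsCl.sum s fun j hj => ?_) (IsCl.sum s' fun l hl => ?_) fun z w => z + w
    · exact (R j).isCl_char.comp fun z => c j * conj z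
    · exact (isCl_fixEmb (K l)).comp fun z => c' l * z
  -- the mean value
  have h1 : MVC (fun p => nt G t i p * f' (Fr p)) (-(∑ j ∈ s, c j * m j + ∑ l ∈ s', c' l * m' l)) := by
    have e1 : MVC (fun p => ∑ j ∈ s, c j * (nt G t i p * conj ((R j).char (Fr p))))
        (∑ j ∈ s, c j * (-(m j : ℂ))) :=
      MVC.sum s fun j hj => ((hR j hj).1.mvc_zero h hFr).const_mul (c j)
    have e2 : MVC (fun p => ∑ l ∈ s', c' l * (nt G t i p * (fixEmb (K l) Ω (Fr p) : ℂ)))
        (∑ l ∈ s', c' l * (-(m' l : ℂ))) := by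
      refine MVC.sum s' fun l hl => MVC.const_mul (c' l) ?_
      have := hnf l hl
      obtain ⟨T, hT⟩ := idc_isFrob (K l)
      refine ((hK l hl).1.mvc h).congr T fun p hp => ?_
      rw [hT p hp (Fr p) (hFr p), mul_comm]
    have e3 := (e1.add e2).congr (d := fun p => nt G t i p * f' (Fr p)) ∅ fun p _ => by
      simp only [hf', mul_add, Finset.mul_sum]
      congr 1
      · exact Finset.sum_congr rfl fun j _ => by ring
      · exact Finset.sum_congr rfl fun j _ => by ring
    have e4 : ∑ j ∈ s, c j * (-(m j : ℂ)) + ∑ l ∈ s', c' l * (-(m' l : ℂ)) =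
        -(∑ j ∈ s, c j * m j + ∑ l ∈ s', c' l * m' l) := by
      simp only [mul_neg, Finset.sum_neg_distrib]
      ring
    rwa [e4] at e3
  have h2 := mean_ineq_of meanHyp Fr hFr (fun p => nt_norm_le (Nat.cast_nonneg b) h p) L f' hfl' hfc'
    h1
  rw [norm_neg] at h2
  have h3 : meanAt L (fun g => (‖f' g‖ : ℂ)) = meanAt L (fun g => (‖f g‖ : ℂ)) := by
    have e1 : (fun g => (‖f' g‖ : ℂ)) = fun g => (fun x => (‖f x‖ : ℂ)) g⁻¹ := by
      funext g
      rw [hff']
    rw [e1]
    exact meanAt_inv L (hfl.comp fun z => (‖z‖ : ℂ))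
  rw [h3] at h2
  exact h2

/-- the characters of different irreducible representations, with different factors `p ^ (-i y)`,
are orthogonal -/
lemma orth_line {Fr : Nat.Primes → (Ω ≃ₐ[ℚ] Ω)} (hFr : ∀ p : Nat.Primes, IsFrob (p : ℕ) (Fr p))
    {R R' : ArtinRep Ω} (hR : R.Irr) (hR' : R'.Irr) (y y' : ℝ) {x : ℂ}
    (h1 : y = y' → R.char = R'.char → x = 1) (h0 : (y = y' → R.char ≠ R'.char) → x = 0) :
    MVC (fun p => R.char (Fr p) * pw y p * conj (R'.char (Fr p) * pw y' p)) x := by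
  classical
  obtain ⟨L, hL1, hL2, hL⟩ := exists_level (Finset.univ : Finset Bool) fun j => cond j R R'
  have hl : Lvl L R.char := ArtinRep.lvl_char fun g hg => by
    have h1 := hL true (Finset.mem_univ _) 1 g hg
    rw [one_mul, map_one] at h1
    exact h1
  have hl' : Lvl L R'.char := ArtinRep.lvl_char fun g hg => by
    have h1 := hL false (Finset.mem_univ _) 1 g hg
    rw [one_mul, map_one] at h1
    exact h1
  have h2 := chebΩ Fr hFr L (fun g => R.char g * conj (R'.char g))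
    (hl.comp₂ hl' fun z w => z * conj w)
    (R.isCl_char.comp₂ R'.isCl_char fun z w => z * conj w) (y - y')
  have h3 := h2.congr (d := fun p => R.char (Fr p) * pw y p *
      conj (R'.char (Fr p) * pw y' p)) ∅ fun p _ => by
    rw [sub_eq_add_neg, pw_add, pw_neg, map_mul]
    ring
  obtain ⟨h5, h6⟩ := char_orth R R' hR hR' L hl hl'
  have h4 : (if y - y' = 0 then meanAt L (fun g => R.char g * conj (R'.char g)) else 0) = x := by
    split_ifs with hy
    · by_cases hc : R.char = R'.char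
      · rw [h5 hc, h1 (sub_eq_zero.1 hy) hc]
      · rw [h6 hc, h0 fun _ => hc]
    · rw [h0 fun h => absurd (sub_eq_zero.2 h) hy]
  rwa [h4] at h3

/-- **Bessel's inequality on the line.** -/
theorem edgeBessel (h : WeilBound G t i b) : EdgeBessel Ω G t i b := by
  intro K₀ _ _ ι s R y m hR hne
  classical
  obtain ⟨Fr, hFr⟩ := exists_frobs (Ω := Ω)
  choose R' hR' hc hlev using fun j => exists_dual (R j)
  set N : ℕ := Module.finrank ℚ K₀ with hN
  have hN0 : (0 : ℝ) < N := by exact_mod_cast Module.finrank_pos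
  -- the primes with the Frobenius elements over `K₀`
  have hw : MVo (fun p => if Fr p ∈ K₀.fixingSubgroup then 1 else 0) (1 / (N : ℝ)) := by
    have h4 := (mvc_fixing meanHyp Fr hFr K₀).re
    have h5 : (1 / (N : ℂ)).re = 1 / (N : ℝ) := by
      rw [show (1 / (N : ℂ)) = ((1 / (N : ℝ) : ℝ) : ℂ) by push_cast; rfl, Complex.ofReal_re]
    rw [h5] at h4
    refine h4.congr ∅ fun p _ => ?_
    split_ifs <;> simp
  have h1 := MVC.bessel_dens s (Finset.univ : Finset Unit)
    (fun j _ p => (R' j).char (Fr p) * pw (y j) p) (fun j hj l hl _ _ =>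
      orth_line hFr (hR' j (hR j hj).1) (hR' l (hR l hl).1) (y j) (y l)
        (fun hy hcc => if_pos (by
          by_contra hjl
          refine hne j hj l hl hjl hy (funext fun g => ?_)
          have e1 := congrFun hcc g
          rw [hc, hc] at e1
          exact (starRingEnd ℂ).injective e1))
        (fun hcc => if_neg (by
          rintro rfl
          exact hcc rfl rfl)))
    (fun _ p => nt G t i p) (fun _ => (b : ℝ)) ∅ (fun _ _ p _ => nt_norm_le (Nat.cast_nonneg b) h p)
    (fun j => -(m j : ℂ)) (fun j hj => ((hR j hj).2.2.mvc h hFr).congr ∅ fun p _ => by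
      rw [Finset.univ_unique, Finset.sum_singleton, hc]
      ring) hw (fun p => by split_ifs <;> norm_num) (fun j hj _ _ p _ => by
      by_cases hp : Fr p ∈ K₀.fixingSubgroup
      · exact Or.inr (if_pos hp)
      · left
        rw [hc, (hR j hj).2.1 _ hp, map_zero, zero_mul])
  have h2 : ∑ j ∈ s, ‖-(m j : ℂ)‖ ^ 2 = ((∑ j ∈ s, m j ^ 2 : ℤ) : ℝ) := by
    push_cast
    refine Finset.sum_congr rfl fun j _ => ?_
    rw [norm_neg, Complex.norm_intCast, sq_abs]
  rw [h2, Finset.univ_unique, Finset.sum_singleton, one_div, ← div_eq_inv_mul, le_div_iff₀ hN0] at h1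
  have h3 : (N : ℝ) * ((∑ j ∈ s, m j ^ 2 : ℤ) : ℝ) ≤ (b : ℝ) ^ 2 := by
    rw [mul_comm]
    exact h1
  exact_mod_cast h3

/-- **The virtual representation.** -/
theorem virtualRep (h : WeilBound G t i b) : VirtualRep Ω G t i b := by
  intro E _ hall
  classical
  obtain ⟨Fr, hFr⟩ := exists_frobs (Ω := Ω)
  have ha : ∀ p, ‖nt G t i p‖ ≤ (b : ℝ) := fun p => nt_norm_le (Nat.cast_nonneg b) h p
  -- the orders
  set m : ((Ω ≃ₐ[ℚ] Ω) → ℂ) → ℤ := fun χ =>
    if hχ : ∃ n : ℤ, MVC (fun p => nt G t i p * χ (Fr p)) (-(n : ℂ)) then hχ.choose else 0 with hm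
  have hmv : ∀ R : ArtinRep Ω, R.Irr → (∀ g ∈ E.fixingSubgroup, R.ρ g = 1) →
      MVC (fun p => nt G t i p * R.char (Fr p)) (-(m R.char : ℂ)) := by
    intro R hR hRE
    obtain ⟨R', hR', hc, hR'E⟩ := exists_dual R
    obtain ⟨n, hn⟩ := hall R' (hR' hR) fun g hg => hR'E g (hRE g hg)
    have hex : ∃ n : ℤ, MVC (fun p => nt G t i p * R.char (Fr p)) (-(n : ℂ)) :=
      ⟨n, (hn.mvc_zero h hFr).congr ∅ fun p _ => by rw [hc, Complex.conj_conj]⟩
    have e1 : m R.char = hex.choose := by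
      simp only [hm]
      exact dif_pos hex
    rw [e1]
    exact hex.choose_spec
  obtain ⟨M, s, r, hM1, hM2, hME, hs, hsum, hbd, hfun⟩ := virtualE_of meanHyp Fr hFr ha E m hmv
  have hVl : Lvl M (fun g => ∑ χ ∈ s, (r χ : ℂ) * χ g) := by
    refine Lvl.sum s fun χ hχ => ?_
    obtain ⟨R, -, hRχ, hRM⟩ := hs χ hχ
    have e1 : Lvl M R.char := ArtinRep.lvl_char hRM
    rw [hRχ] at e1
    exact e1.comp fun z => (r χ : ℂ) * z
  have hVc : IsCl (fun g => ∑ χ ∈ s, (r χ : ℂ) * χ g) := by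
    refine IsCl.sum s fun χ hχ => ?_
    obtain ⟨R, -, hRχ, -⟩ := hs χ hχ
    have e1 : IsCl R.char := R.isCl_char
    rw [hRχ] at e1
    exact e1.comp fun z => (r χ : ℂ) * z
  refine ⟨M, s, r, hM1, hM2, hME, hs, by exact_mod_cast hsum, hbd, ?_, ?_⟩
  · intro L _ _ hML hLE
    refine ⟨fun R n hR hn => ?_, fun K n hK hn => ?_⟩
    · have e1 := hfun L (fun g => conj (R.char g)) hML hLE
        ((ArtinRep.lvl_char hR).comp fun z => conj z) (R.isCl_char.comp fun z => conj z)
      have e2 := (hn.mvc_zero h hFr).unique e1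
      rw [← e2, neg_neg]
    · have := numberField_of_le hK
      have e1 := virtualE_base hFr hfun hML hLE hK
      have e2 := (hn.mvc h).unique e1
      rw [← e2, neg_neg]
  · intro K K' _ _ n n' hKE hKE' hn hn' hKK
    have e1 := virtualE_stable hFr hME hVl hVc hfun hKE hKE' hKK (hn.mvc h) (hn'.mvc h)
    have e2 := neg_injective e1
    exact_mod_cast e2

end

end Pool.Agent.Work.MP_2b9663_nt
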