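import Pool.Agent.Work.MP_2b9663_nt.Ch.DefsChar
import Pool.Agent.Work.MP_2b9663_nt.Ch.MainA
import Pool.Agent.Work.MP_2b9663_nt.Ch.VirtMult

set_option autoImplicit false

/-!
The orders of the twists by characters of Artin representations and of number fields: finiteness,
stability, the virtual representation.
-/

namespace Pool.Agent.Work.MP_2b9663_nt

open NumberField Filter Topology ComplexConjugate

section

variable {Ω : Type} [Field Ω] [CharZero Ω]

variable {G : Nat.Primes → Prop} {t : Nat.Primes → ℕ → ℂ} {i b : ℕ}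

/-- the mean value of a real function -/
lemma meanAt_real (L : IntermediateField ℚ Ω) [Fintype ((Ω ≃ₐ[ℚ] Ω) ⧸ L.fixingSubgroup)]
    (f : (Ω ≃ₐ[ℚ] Ω) → ℝ) : (meanAt L fun g => (f g : ℂ)).re =
      (∑ q : (Ω ≃ₐ[ℚ] Ω) ⧸ L.fixingSubgroup, f q.out) /
        (Fintype.card ((Ω ≃ₐ[ℚ] Ω) ⧸ L.fixingSubgroup) : ℝ) := by
  rw [meanAt_eq]
  have : (∑ q : (Ω ≃ₐ[ℚ] Ω) ⧸ L.fixingSubgroup, ((f q.out : ℝ) : ℂ)) /
      (Fintype.card ((Ω ≃ₐ[ℚ] Ω) ⧸ L.fixingSubgroup) : ℂ) =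
      (((∑ q : (Ω ≃ₐ[ℚ] Ω) ⧸ L.fixingSubgroup, f q.out) /
        (Fintype.card ((Ω ≃ₐ[ℚ] Ω) ⧸ L.fixingSubgroup) : ℝ) : ℝ) : ℂ) := by push_cast; rfl
  rw [this, Complex.ofReal_re]

variable [IsAlgClosure ℚ Ω]

/-- the square of the mean value is at most the mean value of the square -/
lemma meanAt_sq_le (L : IntermediateField ℚ Ω) [NumberField L] (f : (Ω ≃ₐ[ℚ] Ω) → ℝ) :
    (meanAt L fun g => (f g : ℂ)).re ^ 2 ≤ (meanAt L fun g => ((f g ^ 2 : ℝ) : ℂ)).re := by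
  have := finite_quot L
  cases nonempty_fintype ((Ω ≃ₐ[ℚ] Ω) ⧸ L.fixingSubgroup)
  rw [meanAt_real L f, meanAt_real L fun g => f g ^ 2, div_pow]
  have h0 : (0 : ℝ) < (Fintype.card ((Ω ≃ₐ[ℚ] Ω) ⧸ L.fixingSubgroup) : ℝ) := by
    exact_mod_cast Fintype.card_pos
  rw [div_le_div_iff₀ (by positivity) h0, sq, mul_comm (∑ q : (Ω ≃ₐ[ℚ] Ω) ⧸ L.fixingSubgroup, _), sq]
  have h1 := sq_sum_le_card_mul_sum_sq (s := (Finset.univ : Finset ((Ω ≃ₐ[ℚ] Ω) ⧸ L.fixingSubgroup)))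
    (f := fun q => f q.out)
  rw [Finset.card_univ, sq] at h1
  nlinarith [h1, h0]

lemma meanAt_mono_re (L : IntermediateField ℚ Ω) [NumberField L] {f f' : (Ω ≃ₐ[ℚ] Ω) → ℝ}
    (h : ∀ g, f g ≤ f' g) :
    (meanAt L fun g => (f g : ℂ)).re ≤ (meanAt L fun g => (f' g : ℂ)).re := by
  have := finite_quot L
  cases nonempty_fintype ((Ω ≃ₐ[ℚ] Ω) ⧸ L.fixingSubgroup)
  rw [meanAt_real L f, meanAt_real L f']
  exact div_le_div_of_nonneg_right (Finset.sum_le_sum fun q _ => h _) (Nat.cast_nonneg _)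

lemma meanAt_two_add (L : IntermediateField ℚ Ω) [NumberField L] (f f' : (Ω ≃ₐ[ℚ] Ω) → ℝ) :
    (meanAt L fun g => ((2 * f g + 2 * f' g : ℝ) : ℂ)).re =
      2 * (meanAt L fun g => (f g : ℂ)).re + 2 * (meanAt L fun g => (f' g : ℂ)).re := by
  have := finite_quot L
  cases nonempty_fintype ((Ω ≃ₐ[ℚ] Ω) ⧸ L.fixingSubgroup)
  rw [meanAt_real L f, meanAt_real L f', meanAt_real L fun g => 2 * f g + 2 * f' g,
    Finset.sum_add_distrib, ← Finset.mul_sum, ← Finset.mul_sum]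
  ring

omit [IsAlgClosure ℚ Ω] in
/-- a Galois number field which contains two Galois number fields -/
lemma exists_gal_sup (L M : IntermediateField ℚ Ω) [hL1 : NumberField L] [hL2 : IsGalois ℚ L]
    [hM1 : NumberField M] [hM2 : IsGalois ℚ M] : NumberField (L ⊔ M : IntermediateField ℚ Ω) ∧
      IsGalois ℚ (L ⊔ M : IntermediateField ℚ Ω) := by
  have e1 : FiniteDimensional ℚ L := hL1.to_finiteDimensional
  have e2 : FiniteDimensional ℚ M := hM1.to_finiteDimensional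
  have e3 : FiniteDimensional ℚ (L ⊔ M : IntermediateField ℚ Ω) :=
    IntermediateField.finiteDimensional_sup L M
  have e4 : @IsGalois ℚ _ L _ L.algebra' := hL2
  have e5 : @IsGalois ℚ _ M _ M.algebra' := hM2
  have e6 : @IsGalois ℚ _ (L ⊔ M : IntermediateField ℚ Ω) _ (L ⊔ M).algebra' := inferInstance
  exact ⟨⟨⟩, e6⟩

/-- a function of level `N` and of level `E` is of level `N ⊓ E` -/
lemma Lvl.inf {N E : IntermediateField ℚ Ω} [NumberField N] {f : (Ω ≃ₐ[ℚ] Ω) → ℂ} (h : Lvl N f)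
    (h' : Lvl E f) : Lvl (N ⊓ E) f := by
  intro g x hx
  rw [fixing_inf_eq_sup] at hx
  let S : Subgroup (Ω ≃ₐ[ℚ] Ω) :=
    { carrier := {x | ∀ g, f (g * x) = f g}
      mul_mem' := fun {x y} hx hy g => by rw [← mul_assoc, hy, hx]
      one_mem' := fun g => by rw [mul_one]
      inv_mem' := fun {x} hx g => by
        have h1 := hx (g * x⁻¹)
        rw [inv_mul_cancel_right] at h1
        exact h1.symm }
  have hS : N.fixingSubgroup ⊔ E.fixingSubgroup ≤ S :=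
    sup_le (fun y hy g => h g y hy) fun y hy g => h' g y hy
  exact hS hx g

/-- the inner product at any level -/
lemma InnerVal.meanAt {f g : (Ω ≃ₐ[ℚ] Ω) → ℂ} {x : ℂ} (h : InnerVal f g x)
    (L : IntermediateField ℚ Ω) [NumberField L] [IsGalois ℚ L] (hf : Lvl L f) (hg : Lvl L g) :
    meanAt L (fun h => f h * conj (g h)) = x := by
  obtain ⟨L', h1, h2, h3, h4, h5⟩ := h
  rw [← h5]
  exact meanAt_level (hf.comp₂ hg fun z w => z * conj w) (h3.comp₂ h4 fun z w => z * conj w)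

/-! ### The order of the twist by a character -/

/-- the level of a character -/
lemma OrdChar.level {φ : (Ω ≃ₐ[ℚ] Ω) → ℂ} {m : ℤ} (hm : OrdChar G t i φ m) :
    ∃ L : IntermediateField ℚ Ω, NumberField L ∧ IsGalois ℚ L ∧ Lvl L φ := by
  obtain ⟨F, -, ⟨R, rfl, -⟩ | ⟨K, hK, rfl, -⟩⟩ := hm
  · obtain ⟨L, h1, h2, h3⟩ := exists_level (Finset.univ : Finset Unit) fun _ => R
    refine ⟨L, h1, h2, ArtinRep.lvl_char fun g hg => ?_⟩
    have h4 := h3 () (Finset.mem_univ _) 1 g hg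
    rwa [one_mul, map_one] at h4
  · have h1 := nc_nf K
    have h2 := nc_gal K
    exact ⟨NC K, h1, h2, lvl_fixEmb (le_nc K)⟩

omit [IsAlgClosure ℚ Ω] in
lemma OrdChar.isCl {φ : (Ω ≃ₐ[ℚ] Ω) → ℂ} {m : ℤ} (hm : OrdChar G t i φ m) : IsCl φ := by
  obtain ⟨F, -, ⟨R, rfl, -⟩ | ⟨K, hK, rfl, -⟩⟩ := hm
  · exact R.isCl_char
  · exact isCl_fixEmb K

/-- the mean value attached to the order -/
lemma OrdChar.mvc (h : WeilBound G t i b) {φ : (Ω ≃ₐ[ℚ] Ω) → ℂ} {m : ℤ}
    (hm : OrdChar G t i φ m) {Fr : Nat.Primes → (Ω ≃ₐ[ℚ] Ω)}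
    (hFr : ∀ p : Nat.Primes, IsFrob (p : ℕ) (Fr p)) :
    MVC (fun p => nt G t i p * conj (φ (Fr p))) (-(m : ℂ)) := by
  obtain ⟨F, hF, ⟨R, rfl, hR⟩ | ⟨K, hK, rfl, hR⟩⟩ := hm
  · have e : (i : ℂ) / 2 + 1 + Complex.I * ((0 : ℝ) : ℂ) = (i : ℂ) / 2 + 1 := by simp
    have h1 : OrdArtin G t i R 0 m := ⟨F, by rwa [e], by rwa [e]⟩
    exact h1.mvc_zero h hFr
  · have h1 : OrdField G t i K m := ⟨F, hR, hF⟩
    obtain ⟨T, hT⟩ := idc_isFrob K
    refine (h1.mvc h).congr T fun p hp => ?_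
    rw [hT p hp (Fr p) (hFr p), Complex.conj_natCast, mul_comm]

/-- **The orders are finite.** -/
theorem finiteOrdChar (h : WeilBound G t i b) : FiniteOrdChar Ω G t i := by
  obtain ⟨h1, h2⟩ := finiteOrders (Ω := Ω) h
  rintro F (⟨R, hR⟩ | ⟨K, hK, hR⟩)
  · have e : (i : ℂ) / 2 + 1 + Complex.I * ((0 : ℝ) : ℂ) = (i : ℂ) / 2 + 1 := by simp
    obtain ⟨m, hm⟩ := h1 R 0 F (by rwa [e])
    rw [e] at hm
    exact ⟨m, hm⟩
  · exact h2 K F hR

/-! ### Stability -/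

/-- a failure of the stability over `M` -/
structure Fails (G : Nat.Primes → Prop) (t : Nat.Primes → ℕ → ℂ) (i r : ℕ)
    (M : IntermediateField ℚ Ω) (φ φ' : (Ω ≃ₐ[ℚ] Ω) → ℂ) (m m' e : ℤ) : Prop where
  hr : ∃ n : ℕ, n ≤ r ∧ InnerVal φ φ n
  hr' : ∃ n : ℕ, n ≤ r ∧ InnerVal φ' φ' n
  o : OrdChar G t i φ m
  o' : OrdChar G t i φ' m'
  he : e = 0 ∨ e = 1
  orth : ∀ χ, IsIrrChar M χ → ∃ x x' : ℂ, InnerVal φ χ x ∧ InnerVal φ' χ x' ∧ x - e * x' = 0
  ne : m - e * m' ≠ 0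

/-- the difference of the two characters is orthogonal to the class functions of level `M` -/
lemma Fails.orthogonal {r : ℕ} {M : IntermediateField ℚ Ω} [NumberField M] [IsGalois ℚ M]
    {φ φ' : (Ω ≃ₐ[ℚ] Ω) → ℂ} {m m' e : ℤ} (hB : Fails G t i r M φ φ' m m' e)
    (L : IntermediateField ℚ Ω) [NumberField L] [IsGalois ℚ L] (hML : M ≤ L)
    (hφ : Lvl L φ) (hφ' : Lvl L φ') {f : (Ω ≃ₐ[ℚ] Ω) → ℂ} (hf : Lvl M f) (hfc : IsCl f) :
    meanAt L (fun g => (φ g - e * φ' g) * conj (f g)) = 0 := by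
  have hfq := finite_quot L
  obtain ⟨s, c, hs, rfl⟩ := char_complete M hf hfc
  have e1 : (fun g => (φ g - e * φ' g) * conj (∑ χ ∈ s, c χ * χ g)) =
      fun g => ∑ χ ∈ s, conj (c χ) * ((φ g - e * φ' g) * conj (χ g)) := by
    funext g
    rw [map_sum, Finset.mul_sum]
    refine Finset.sum_congr rfl fun χ _ => ?_
    rw [map_mul]
    ring
  rw [e1, meanAt_sum]
  refine Finset.sum_eq_zero fun χ hχ => ?_
  obtain ⟨S, hS, hSχ, hSM⟩ := hs χ hχ
  obtain ⟨x, x', h1, h2, h3⟩ := hB.orth χ ⟨S, hS, hSM, hSχ⟩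
  have hSL : Lvl L χ := by
    rw [← hSχ]
    exact ArtinRep.lvl_char fun g hg => hSM g (IntermediateField.fixingSubgroup_le hML hg)
  have h4 := h1.meanAt L hφ hSL
  have h5 := h2.meanAt L hφ' hSL
  rw [meanAt_const_mul]
  have e2 : (fun g => (φ g - e * φ' g) * conj (χ g)) =
      fun g => ∑ j ∈ (Finset.univ : Finset Bool), (cond j (φ g * conj (χ g))
        (-(e : ℂ) * (φ' g * conj (χ g)))) := by
    funext g
    rw [Fintype.sum_bool]
    simp only [cond_true, cond_false]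
    ring
  rw [e2, meanAt_sum L Finset.univ fun j g => cond j (φ g * conj (χ g))
        (-(e : ℂ) * (φ' g * conj (χ g))), Fintype.sum_bool]
  simp only [cond_true, cond_false]
  rw [meanAt_const_mul, h4, h5, neg_mul, ← sub_eq_add_neg, h3, mul_zero]

/-- the norm of the difference of the two characters -/
lemma Fails.norm_le {r : ℕ} {M : IntermediateField ℚ Ω} {φ φ' : (Ω ≃ₐ[ℚ] Ω) → ℂ} {m m' e : ℤ}
    (hB : Fails G t i r M φ φ' m m' e) (L : IntermediateField ℚ Ω) [NumberField L] [IsGalois ℚ L]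
    (hφ : Lvl L φ) (hφ' : Lvl L φ') :
    (meanAt L (fun g => ((‖φ g - e * φ' g‖ ^ 2 : ℝ) : ℂ))).re ≤ 4 * r := by
  have key : ∀ φ : (Ω ≃ₐ[ℚ] Ω) → ℂ, (∃ n : ℕ, n ≤ r ∧ InnerVal φ φ n) → Lvl L φ →
      (meanAt L (fun g => ((‖φ g‖ ^ 2 : ℝ) : ℂ))).re ≤ r := by
    intro φ hr hφ
    obtain ⟨n, hn, h⟩ := hr
    have h1 := h.meanAt L hφ hφ
    have e1 : (fun g => φ g * conj (φ g)) = fun g => ((‖φ g‖ ^ 2 : ℝ) : ℂ) := by
      funext g
      rw [Complex.mul_conj, Complex.normSq_eq_norm_sq]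
    rw [e1] at h1
    rw [h1, Complex.natCast_re]
    exact_mod_cast hn
  have h1 := key φ hB.hr hφ
  have h2 := key φ' hB.hr' hφ'
  have h3 : ∀ g, ‖φ g - e * φ' g‖ ^ 2 ≤ 2 * ‖φ g‖ ^ 2 + 2 * ‖φ' g‖ ^ 2 := by
    intro g
    have e1 : ‖(e : ℂ) * φ' g‖ ≤ ‖φ' g‖ := by
      rcases hB.he with h | h
      · rw [h]; simp
      · rw [h]; simp
    have e2 := norm_sub_le (φ g) (e * φ' g)
    have e3 := norm_nonneg (φ g)
    have e4 := norm_nonneg (φ' g)
    have e5 : ‖φ g - e * φ' g‖ ≤ ‖φ g‖ + ‖φ' g‖ := e2.trans (by linarith)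
    have e6 := norm_nonneg (φ g - e * φ' g)
    nlinarith [sq_nonneg (‖φ g‖ - ‖φ' g‖)]
  have h4 := meanAt_mono_re L h3
  rw [meanAt_two_add L (fun g => ‖φ g‖ ^ 2) fun g => ‖φ' g‖ ^ 2] at h4
  linarith

/-- the number of failures is bounded -/
lemma fails_le (h : WeilBound G t i b) {r : ℕ} (M : ℕ → IntermediateField ℚ Ω)
    (hM1 : ∀ k, NumberField (M k)) (hM2 : ∀ k, IsGalois ℚ (M k)) (hM : ∀ k, M k ≤ M (k + 1))
    (φ φ' : ℕ → (Ω ≃ₐ[ℚ] Ω) → ℂ) (m m' e : ℕ → ℤ)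
    (hφ : ∀ k, Lvl (M (k + 1)) (φ k)) (hφ' : ∀ k, Lvl (M (k + 1)) (φ' k))
    (hB : ∀ k, Fails G t i r (M k) (φ k) (φ' k) (m k) (m' k) (e k)) (N : ℕ) :
    N ≤ 4 * r * b ^ 2 := by
  classical
  obtain ⟨Fr, hFr⟩ := exists_frobs (Ω := Ω)
  have hmono : Monotone M := monotone_nat_of_le_succ hM
  have hN1 := hM1 N
  have hN2 := hM2 N
  have hfq := finite_quot (M N)
  have hRN : ∀ k l, k < l → Lvl (M l) (φ k) := fun k l hl => (hφ k).mono (hmono hl)
  have hRN' : ∀ k l, k < l → Lvl (M l) (φ' k) := fun k l hl => (hφ' k).mono (hmono hl)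
  -- the functions
  set D : ℕ → (Ω ≃ₐ[ℚ] Ω) → ℂ := fun k g => φ k g - e k * φ' k g with hD
  have hDl : ∀ k l, k < l → Lvl (M l) (D k) := fun k l hl =>
    (hRN k l hl).comp₂ (hRN' k l hl) fun z w => z - e k * w
  have hDc : ∀ k, IsCl (D k) := fun k => (hB k).o.isCl.comp₂ (hB k).o'.isCl fun z w => z - e k * w
  set δ : ℕ → ℤ := fun k => m k - e k * m' k with hδ
  have horth : ∀ k l, k < l → l < N → meanAt (M N) (fun g => D l g * conj (D k g)) = 0 := by
    intro k l hkl hl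
    have := hM1 l
    have := hM2 l
    exact (hB l).orthogonal (M N) (hmono hl.le) (hRN l N hl) (hRN' l N hl) (hDl k l hkl) (hDc k)
  have horth' : ∀ k l, l < k → k < N → meanAt (M N) (fun g => D l g * conj (D k g)) = 0 := by
    intro k l hkl hl
    have h1 := horth l k hkl hl
    have h2 : meanAt (M N) (fun g => D l g * conj (D k g)) =
        conj (meanAt (M N) (fun g => D k g * conj (D l g))) := by
      cases nonempty_fintype ((Ω ≃ₐ[ℚ] Ω) ⧸ (M N).fixingSubgroup)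
      rw [meanAt_eq, meanAt_eq, map_div₀, map_sum, map_natCast]
      congr 1
      refine Finset.sum_congr rfl fun q _ => ?_
      rw [map_mul, Complex.conj_conj, mul_comm]
    rw [h2, h1, map_zero]
  set S : ℝ := ∑ k ∈ Finset.range N, (δ k : ℝ) ^ 2 with hS
  have hS0 : 0 ≤ S := Finset.sum_nonneg fun k _ => sq_nonneg _
  -- the mean inequality
  have h1 : S ≤ b * (meanAt (M N) fun g =>
      ((‖∑ k ∈ Finset.range N, (δ k : ℂ) * D k g‖ : ℝ) : ℂ)).re := by
    have e1 : MVC (fun p => ∑ k ∈ Finset.range N, (δ k : ℂ) * (nt G t i p * conj (φ k (Fr p))))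
        (∑ k ∈ Finset.range N, (δ k : ℂ) * (-(m k : ℂ))) :=
      MVC.sum _ fun k _ => ((hB k).o.mvc h hFr).const_mul _
    have e2 : MVC (fun p => ∑ k ∈ Finset.range N,
        (-(δ k : ℂ) * e k) * (nt G t i p * conj (φ' k (Fr p))))
        (∑ k ∈ Finset.range N, (-(δ k : ℂ) * e k) * (-(m' k : ℂ))) :=
      MVC.sum _ fun k _ => ((hB k).o'.mvc h hFr).const_mul _
    have e3 := (e1.add e2).congr (d := fun p => nt G t i p *
        (fun g => conj (∑ k ∈ Finset.range N, (δ k : ℂ) * D k g)) (Fr p)) ∅ fun p _ => by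
      beta_reduce
      rw [map_sum, Finset.mul_sum, ← Finset.sum_add_distrib]
      refine Finset.sum_congr rfl fun k _ => ?_
      simp only [hD]
      rw [map_mul, map_sub, map_mul, map_intCast, map_intCast]
      ring
    have e4 : ∑ k ∈ Finset.range N, (δ k : ℂ) * (-(m k : ℂ)) +
        ∑ k ∈ Finset.range N, (-(δ k : ℂ) * e k) * (-(m' k : ℂ)) = -((S : ℝ) : ℂ) := by
      rw [hS, ← Finset.sum_add_distrib]
      push_cast
      rw [← Finset.sum_neg_distrib]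
      refine Finset.sum_congr rfl fun k _ => ?_
      simp only [hδ]
      push_cast
      ring
    rw [e4] at e3
    have e5 : Lvl (M N) (fun g => ∑ k ∈ Finset.range N, (δ k : ℂ) * D k g) :=
      Lvl.sum _ fun k hk => (hDl k N (Finset.mem_range.1 hk)).comp fun z => (δ k : ℂ) * z
    have e6 : IsCl (fun g => ∑ k ∈ Finset.range N, (δ k : ℂ) * D k g) :=
      IsCl.sum _ fun k _ => (hDc k).comp fun z => (δ k : ℂ) * z
    have e7 := mean_ineq_of meanHyp Fr hFr (fun p => nt_norm_le (Nat.cast_nonneg b) h p) (M N)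
      (fun g => conj (∑ k ∈ Finset.range N, (δ k : ℂ) * D k g)) (e5.comp fun z => conj z)
      (e6.comp fun z => conj z) e3
    rw [norm_neg, Complex.norm_real, Real.norm_of_nonneg hS0] at e7
    simp only [RCLike.norm_conj] at e7
    exact e7
  -- the mean square
  have h2 := meanAt_sq_le (M N) fun g => ‖∑ k ∈ Finset.range N, (δ k : ℂ) * D k g‖
  have h3 : (meanAt (M N) fun g =>
      ((‖∑ k ∈ Finset.range N, (δ k : ℂ) * D k g‖ ^ 2 : ℝ) : ℂ)).re ≤ 4 * r * S := by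
    have e3 : (fun g => ((‖∑ k ∈ Finset.range N, (δ k : ℂ) * D k g‖ ^ 2 : ℝ) : ℂ)) =
        fun g => ∑ k ∈ Finset.range N, ∑ l ∈ Finset.range N,
          ((δ k : ℂ) * (δ l : ℂ)) * (D k g * conj (D l g)) := by
      funext g
      rw [← Complex.normSq_eq_norm_sq, ← Complex.mul_conj, map_sum, Finset.sum_mul_sum]
      refine Finset.sum_congr rfl fun k _ => Finset.sum_congr rfl fun l _ => ?_
      rw [map_mul, map_intCast]
      ring
    rw [e3, meanAt_sum (M N) (Finset.range N) fun k g => ∑ l ∈ Finset.range N,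
      ((δ k : ℂ) * (δ l : ℂ)) * (D k g * conj (D l g)), Complex.re_sum, Finset.mul_sum]
    refine Finset.sum_le_sum fun k hk => ?_
    rw [Finset.mem_range] at hk
    rw [meanAt_sum (M N) (Finset.range N) fun l g =>
      ((δ k : ℂ) * (δ l : ℂ)) * (D k g * conj (D l g)), Finset.sum_eq_single k]
    · rw [meanAt_const_mul]
      have h4 := (hB k).norm_le (M N) (hRN k N hk) (hRN' k N hk)
      have e4 : (fun g => D k g * conj (D k g)) =
          fun g => ((‖φ k g - e k * φ' k g‖ ^ 2 : ℝ) : ℂ) := by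
        funext g
        rw [Complex.mul_conj, Complex.normSq_eq_norm_sq]
      rw [e4]
      have e5 : ((δ k : ℂ) * (δ k : ℂ)) = (((δ k : ℝ) ^ 2 : ℝ) : ℂ) := by push_cast; ring
      rw [e5, Complex.re_ofReal_mul]
      nlinarith [sq_nonneg (δ k : ℝ)]
    · intro l hl hlk
      rw [Finset.mem_range] at hl
      rw [meanAt_const_mul]
      rcases lt_or_gt_of_ne hlk with h5 | h5
      · rw [horth l k h5 hk, mul_zero]
      · rw [horth' l k h5 hl, mul_zero]
    · intro h5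
      exact absurd (Finset.mem_range.2 hk) h5
  -- conclusion
  have h4 : (N : ℝ) ≤ S := by
    have h5 : ∀ k ∈ Finset.range N, (1 : ℝ) ≤ (δ k : ℝ) ^ 2 := by
      intro k _
      have h6 : (1 : ℤ) ≤ δ k ^ 2 := by
        have h7 : 0 < δ k ^ 2 := by
          have := (hB k).ne
          positivity
        omega
      exact_mod_cast h6
    have h6 := Finset.sum_le_sum h5
    rw [Finset.sum_const, Finset.card_range, nsmul_eq_mul, mul_one] at h6
    exact h6
  have h5 : S ^ 2 ≤ 4 * r * b ^ 2 * S := by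
    have h6 : S ^ 2 ≤ (b * (meanAt (M N) fun g =>
        ((‖∑ k ∈ Finset.range N, (δ k : ℂ) * D k g‖ : ℝ) : ℂ)).re) ^ 2 :=
      pow_le_pow_left₀ hS0 h1 2
    rw [mul_pow] at h6
    have h7 := mul_le_mul_of_nonneg_left (h2.trans h3) (sq_nonneg (b : ℝ))
    linarith
  have h6 : S ≤ 4 * r * b ^ 2 := by
    rcases hS0.eq_or_lt with h7 | h7
    · rw [← h7]
      positivity
    · nlinarith
  have h7 : (N : ℝ) ≤ ((4 * r * b ^ 2 : ℕ) : ℝ) := by
    push_cast
    exact h4.trans h6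
  exact_mod_cast h7

/-- **Stability of the orders of the twists.** -/
theorem stableChar (h : WeilBound G t i b) : StableChar Ω G t i := by
  intro r
  by_contra hno
  -- failures over all Galois number fields
  have hbad : ∀ M : {M : IntermediateField ℚ Ω // NumberField M ∧ IsGalois ℚ M},
      ∃ (φ φ' : (Ω ≃ₐ[ℚ] Ω) → ℂ) (m m' e : ℤ), Fails G t i r M.1 φ φ' m m' e := by
    rintro ⟨M, hM1, hM2⟩
    by_contra hno'
    refine hno ⟨M, hM1, hM2, fun φ φ' m m' hr hr' ho ho' hs => ?_, fun φ m hr ho hs => ?_⟩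
    · by_contra hne
      refine hno' ⟨φ, φ', m, m', 1, hr, hr', ho, ho', Or.inr rfl, fun χ hχ => ?_, ?_⟩
      · obtain ⟨x, h1, h2⟩ := hs χ hχ
        exact ⟨x, x, h1, h2, by simp⟩
      · rw [one_mul]
        exact sub_ne_zero.2 hne
    · by_contra hne
      refine hno' ⟨φ, φ, m, m, 0, hr, hr, ho, ho, Or.inl rfl, fun χ hχ => ?_, ?_⟩
      · exact ⟨0, 0, hs χ hχ, hs χ hχ, by simp⟩
      · rw [zero_mul, sub_zero]
        exact hne
  choose φ φ' m m' e hB using hbad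
  have hnext : ∀ M : {M : IntermediateField ℚ Ω // NumberField M ∧ IsGalois ℚ M},
      ∃ M' : {M : IntermediateField ℚ Ω // NumberField M ∧ IsGalois ℚ M}, M.1 ≤ M'.1 ∧
        Lvl M'.1 (φ M) ∧ Lvl M'.1 (φ' M) := by
    intro M
    have := M.2.1
    have := M.2.2
    obtain ⟨L, h1, h2, h3⟩ := (hB M).o.level
    obtain ⟨L', h1', h2', h3'⟩ := (hB M).o'.level
    obtain ⟨h4, h5⟩ := exists_gal_sup L L'
    obtain ⟨h6, h7⟩ := exists_gal_sup M.1 (L ⊔ L')
    exact ⟨⟨_, h6, h7⟩, le_sup_left, h3.mono (le_sup_left.trans le_sup_right),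
      h3'.mono (le_sup_right.trans le_sup_right)⟩
  choose nx hnx using hnext
  have hbot' : @IsGalois ℚ _ (⊥ : IntermediateField ℚ Ω) _
      (⊥ : IntermediateField ℚ Ω).algebra' := inferInstance
  have hbot : NumberField (⊥ : IntermediateField ℚ Ω) ∧ IsGalois ℚ (⊥ : IntermediateField ℚ Ω) :=
    ⟨⟨⟩, hbot'⟩
  let sq : ℕ → {M : IntermediateField ℚ Ω // NumberField M ∧ IsGalois ℚ M} :=
    fun k => nx^[k] ⟨⊥, hbot⟩
  have hsq : ∀ k, sq (k + 1) = nx (sq k) := fun k => Function.iterate_succ_apply' nx k _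
  have h1 := fails_le h (fun k => (sq k).1) (fun k => (sq k).2.1) (fun k => (sq k).2.2)
    (fun k => by
      show (sq k).1 ≤ (sq (k + 1)).1
      rw [hsq]
      exact (hnx _).1)
    (fun k => φ (sq k)) (fun k => φ' (sq k)) (fun k => m (sq k)) (fun k => m' (sq k))
    (fun k => e (sq k)) (fun k => by
      show Lvl (sq (k + 1)).1 _
      rw [hsq]
      exact (hnx _).2.1) (fun k => by
      show Lvl (sq (k + 1)).1 _
      rw [hsq]
      exact (hnx _).2.2) (fun k => hB (sq k)) (4 * r * b ^ 2 + 1)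
  omega

/-- **The virtual representation.** -/
theorem virtualChar (h : WeilBound G t i b) : VirtualChar Ω G t i b := by
  intro E _ hall
  classical
  obtain ⟨Fr, hFr⟩ := exists_frobs (Ω := Ω)
  have ha : ∀ p, ‖nt G t i p‖ ≤ (b : ℝ) := fun p => nt_norm_le (Nat.cast_nonneg b) h p
  -- the orders
  set m : ((Ω ≃ₐ[ℚ] Ω) → ℂ) → ℤ := fun χ =>
    if hχ : ∃ n : ℤ, MVC (fun p => nt G t i p * χ (Fr p)) (-(n : ℂ)) then hχ.choose else 0 with hm
  have hmv : ∀ R : ArtinRep Ω, R.Irr → (∀ g ∈ E.fixingSubgroup, R.ρ g = 1) →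
      MVC (fun p => nt G t i p * R.char (Fr p)) (-(m R.char : ℂ)) := by
    intro R hR hRE
    obtain ⟨R', hR', hc, hR'E⟩ := exists_dual R
    obtain ⟨n, hn⟩ := hall R'.char ⟨R', hR' hR, fun g hg => hR'E g (hRE g hg), rfl⟩
    have hex : ∃ n : ℤ, MVC (fun p => nt G t i p * R.char (Fr p)) (-(n : ℂ)) :=
      ⟨n, (hn.mvc h hFr).congr ∅ fun p _ => by rw [hc, Complex.conj_conj]⟩
    have e1 : m R.char = hex.choose := by
      simp only [hm]
      exact dif_pos hex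
    rw [e1]
    exact hex.choose_spec
  obtain ⟨M, s, r, hM1, hM2, hME, hs, hsum, hbd, hfun⟩ := virtualE_of meanHyp Fr hFr ha E m hmv
  have hsum' : ∑ χ ∈ s, r χ ^ 2 ≤ (b : ℤ) ^ 2 := by exact_mod_cast hsum
  have hsl : ∀ χ ∈ s, Lvl M χ := by
    intro χ hχ
    obtain ⟨S, -, hSχ, hSM⟩ := hs χ hχ
    have e1 : Lvl M S.char := ArtinRep.lvl_char hSM
    rwa [hSχ] at e1
  have hVl : Lvl M (fun g => ∑ χ ∈ s, (r χ : ℂ) * χ g) :=
    Lvl.sum s fun χ hχ => (hsl χ hχ).comp fun z => (r χ : ℂ) * z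
  have hVc : IsCl (fun g => ∑ χ ∈ s, (r χ : ℂ) * χ g) := by
    refine IsCl.sum s fun χ hχ => ?_
    obtain ⟨R, -, hRχ, -⟩ := hs χ hχ
    have e1 : IsCl R.char := R.isCl_char
    rw [hRχ] at e1
    exact e1.comp fun z => (r χ : ℂ) * z
  -- the order of the twist
  have hI : ∀ (φ : (Ω ≃ₐ[ℚ] Ω) → ℂ) (n : ℤ), Lvl E φ → OrdChar G t i φ n →
      InnerVal (fun g => ∑ χ ∈ s, (r χ : ℂ) * χ g) φ (-(n : ℂ)) := by
    intro φ n hφ hn
    obtain ⟨N, hN1, hN2, hNφ⟩ := hn.level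
    have hφ' := hNφ.inf hφ
    obtain ⟨h4, h5⟩ : NumberField (N ⊓ E : IntermediateField ℚ Ω) ∧
        IsGalois ℚ (N ⊓ E : IntermediateField ℚ Ω) := by
      have h1 : FiniteDimensional ℚ (N ⊓ E : IntermediateField ℚ Ω) :=
        FiniteDimensional.of_injective (IntermediateField.inclusion inf_le_left).toLinearMap
          (IntermediateField.inclusion (E := N ⊓ E) (F := N) inf_le_left).injective
      have h2 : @IsGalois ℚ _ N _ N.algebra' := hN2
      have h3 : @IsGalois ℚ _ E _ E.algebra' := ‹IsGalois ℚ E›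
      have h4 : @IsGalois ℚ _ (N ⊓ E : IntermediateField ℚ Ω) _ (N ⊓ E).algebra' := inferInstance
      exact ⟨⟨⟩, h4⟩
    obtain ⟨h6, h7⟩ := exists_gal_sup (N ⊓ E) M
    have hLφ : Lvl (N ⊓ E ⊔ M) φ := hφ'.mono le_sup_left
    have e1 := hfun (N ⊓ E ⊔ M) (fun g => conj (φ g)) le_sup_right (sup_le inf_le_right hME)
      (hLφ.comp fun z => conj z) (hn.isCl.comp fun z => conj z)
    have e2 := (hn.mvc h hFr).unique e1
    exact ⟨N ⊓ E ⊔ M, h6, h7, hVl.mono le_sup_right, hLφ, e2.symm⟩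
  refine ⟨?_, M, s, r, hM1, hM2, hME, fun χ hχ => ?_, hsum', hbd, hI, ?_⟩
  · -- the number of the exceptions
    have hsub : {χ | IsIrrChar E χ ∧ ∃ m : ℤ, OrdChar G t i χ m ∧ m ≠ 0} ⊆
        ((s.filter fun χ => r χ ≠ 0 : Finset ((Ω ≃ₐ[ℚ] Ω) → ℂ)) : Set ((Ω ≃ₐ[ℚ] Ω) → ℂ)) := by
      rintro φ ⟨⟨R, hR, hRE, rfl⟩, n, hn, hn0⟩
      by_contra hno
      obtain ⟨L, hL1, hL2, hL3⟩ := hn.level
      obtain ⟨h6, h7⟩ := exists_gal_sup L M
      have hLφ : Lvl (L ⊔ M) R.char := hL3.mono le_sup_left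
      have hfq := finite_quot (L ⊔ M)
      have e1 := (hI R.char n (ArtinRep.lvl_char hRE) hn).meanAt (L ⊔ M) (hVl.mono le_sup_right) hLφ
      have e2 : (fun g => (∑ χ ∈ s, (r χ : ℂ) * χ g) * conj (R.char g)) =
          fun g => ∑ χ ∈ s, (r χ : ℂ) * (χ g * conj (R.char g)) := by
        funext g
        rw [Finset.sum_mul]
        exact Finset.sum_congr rfl fun χ _ => by ring
      have e3 : meanAt (L ⊔ M) (fun g => (∑ χ ∈ s, (r χ : ℂ) * χ g) * conj (R.char g)) = 0 := by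
        rw [e2, meanAt_sum]
        refine Finset.sum_eq_zero fun χ hχ => ?_
        rw [meanAt_const_mul]
        obtain ⟨S, hS, hSχ, hSM⟩ := hs χ hχ
        have e4 : Lvl (L ⊔ M) S.char := ArtinRep.lvl_char fun g hg =>
          hSM g (IntermediateField.fixingSubgroup_le le_sup_right hg)
        obtain ⟨-, h9⟩ := char_orth S R hS hR (L ⊔ M) e4 hLφ
        by_cases hc : S.char = R.char
        · have e5 : r χ = 0 := by
            by_contra hr0
            refine hno ?_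
            rw [Finset.mem_coe, Finset.mem_filter, ← hc, hSχ]
            exact ⟨hχ, hr0⟩
          rw [e5, Int.cast_zero, zero_mul]
        · rw [← hSχ, h9 hc, mul_zero]
      rw [e3] at e1
      refine hn0 ?_
      have e4 : (n : ℂ) = 0 := by rw [← neg_eq_zero, ← e1]
      exact_mod_cast e4
    refine (Set.encard_le_encard hsub).trans ?_
    rw [Set.encard_coe_eq_coe_finsetCard]
    have h1 : ((s.filter fun χ => r χ ≠ 0).card : ℤ) ≤ (b : ℤ) ^ 2 := by
      have h2 : ((s.filter fun χ => r χ ≠ 0).card : ℤ) ≤ ∑ χ ∈ s.filter fun χ => r χ ≠ 0, r χ ^ 2 := by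
        have h3 : ∀ χ ∈ s.filter fun χ => r χ ≠ 0, (1 : ℤ) ≤ r χ ^ 2 := by
          intro χ hχ
          have h4 : 0 < r χ ^ 2 := by
            have := (Finset.mem_filter.1 hχ).2
            positivity
          omega
        have h5 := Finset.sum_le_sum h3
        rw [Finset.sum_const, nsmul_eq_mul, mul_one] at h5
        exact h5
      exact (h2.trans (Finset.sum_le_sum_of_subset_of_nonneg (Finset.filter_subset _ _)
        fun χ _ _ => sq_nonneg _)).trans hsum'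
    exact_mod_cast h1
  · obtain ⟨R, h1, h2, h3⟩ := hs χ hχ
    exact ⟨R, h1, h3, h2⟩
  · intro K K' _ _ n n' hKE hKE' hn hn' hKK
    have key : ∀ (K : IntermediateField ℚ Ω) [NumberField K] (n : ℤ),
        OrdChar G t i (fun g => (fixEmb K Ω g : ℂ)) n →
        MVC (fun p : Nat.Primes => (idc K (p : ℕ) : ℂ) * nt G t i p) (-(n : ℂ)) := by
      intro K _ n hn
      obtain ⟨T, hT⟩ := idc_isFrob K
      refine (hn.mvc h hFr).congr T fun p hp => ?_
      rw [hT p hp (Fr p) (hFr p), Complex.conj_natCast, mul_comm]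
    have e1 := virtualE_stable hFr hME hVl hVc hfun hKE hKE' hKK (key K n hn) (key K' n' hn')
    have e2 := neg_injective e1
    exact_mod_cast e2

end

end Pool.Agent.Work.MP_2b9663_nt
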