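import Pool.Agent.Work.MP_2b9663_nt.Ch.DefsMain
import Pool.Agent.Work.MP_2b9663_nt.Pure
import Pool.Agent.Work.MP_2b9663_nt.RankTwo

set_option autoImplicit false

/-!
The orders over number fields, if the `L`-function over `ℚ` extends too.
-/

namespace Pool.Agent.Work.MP_2b9663_nt

open NumberField

section

variable {Ω : Type} [Field Ω] [CharZero Ω] [IsAlgClosure ℚ Ω] {G : Nat.Primes → Prop}
  {t : Nat.Primes → ℕ → ℂ} {i b : ℕ}

omit [IsAlgClosure ℚ Ω] in
/-- the mean value which belongs to the order over a number field -/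
lemma ordField_MV (h : WeilBound G t i b) (K : IntermediateField ℚ Ω) [NumberField K] {m : ℤ}
    (hm : OrdField G t i K m) :
    MV (fun p : Nat.Primes => (idc K (p : ℕ) : ℝ) * na G t i p) (-(m : ℝ)) := by
  obtain ⟨F, hF, hord⟩ := hm
  obtain ⟨n, hn, hMV⟩ := order_nf (Nat.cast_nonneg b) h hF
  have hnm : n = m := by
    rw [hn] at hord
    exact_mod_cast hord
  rw [← hnm]
  exact hMV

omit [IsAlgClosure ℚ Ω] in
variable (Ω) in
lemma numberField_bot : NumberField (⊥ : IntermediateField ℚ Ω) :=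
  NumberField.of_ringEquiv ℚ (⊥ : IntermediateField ℚ Ω) (IntermediateField.botEquiv ℚ Ω).toRingEquiv.symm

omit [IsAlgClosure ℚ Ω] in
variable (Ω) in
/-- there is one prime ideal of `ℚ` over every prime number -/
lemma idc_bot [NumberField (⊥ : IntermediateField ℚ Ω)] (p : Nat.Primes) :
    idc (⊥ : IntermediateField ℚ Ω) (p : ℕ) = 1 := by
  have hp : Fact (p : ℕ).Prime := ⟨p.2⟩
  have e : (⊥ : IntermediateField ℚ Ω) ≃+* ℚ := (IntermediateField.botEquiv ℚ Ω).toRingEquiv
  rw [← idc_rat (p : ℕ)]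
  exact idc_congr e (p : ℕ)

variable (Ω) in
/-- the pairs of a number field and of an order over it -/
abbrev FieldOrd (G : Nat.Primes → Prop) (t : Nat.Primes → ℕ → ℂ) (i : ℕ) : Type :=
  {x : IntermediateField ℚ Ω × ℤ // NumberField x.1 ∧ OrdField G t i x.1 x.2}

instance (x : FieldOrd Ω G t i) : NumberField x.1.1 := x.2.1

theorem fieldOrders (h : WeilBound G t i b) : FieldOrders Ω G t i b := by
  intro m₁ h₁
  have ha : ∀ p, |na G t i p| ≤ b := na_le (Nat.cast_nonneg b) h
  have := numberField_bot Ω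
  have hMV₁ : MV (na G t i) (-(m₁ : ℝ)) := by
    have h2 := ordField_MV h (⊥ : IntermediateField ℚ Ω) h₁
    have h3 : (fun p : Nat.Primes => (idc (⊥ : IntermediateField ℚ Ω) (p : ℕ) : ℝ) * na G t i p) =
        na G t i := by
      funext p
      rw [idc_bot, Nat.cast_one, one_mul]
    rw [h3] at h2
    exact h2
  have hMV : ∀ x : FieldOrd Ω G t i,
      MV (fun p : Nat.Primes => (idc x.1.1 (p : ℕ) : ℝ) * na G t i p) (-(x.1.2 : ℝ)) :=
    fun x => ordField_MV h x.1.1 x.2.2
  have key := stability (K := fun x : FieldOrd Ω G t i => x.1.1) (m := fun x => x.1.2) ha hMV₁ hMV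
  refine ⟨fun r => ?_, ?_, ?_⟩
  · obtain ⟨S, -, -, -, hS2⟩ := key r
    have h0 : FiniteDimensional ℚ (⨆ x ∈ S, x.1.1 : IntermediateField ℚ Ω) := by
      have : ∀ x : FieldOrd Ω G t i, FiniteDimensional ℚ x.1.1 := fun x => inferInstance
      exact IntermediateField.finiteDimensional_iSup_of_finset
    have h1 : NumberField (⨆ x ∈ S, x.1.1 : IntermediateField ℚ Ω) := ⟨⟩
    exact ⟨NC (⨆ x ∈ S, x.1.1), nc_nf _, fun K K' hK hK' m m' hr hr' hm hm' hKK' =>
      hS2 ⟨(K, m), hK, hm⟩ ⟨(K', m'), hK', hm'⟩ hr hr' hKK'⟩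
  · obtain ⟨S, -, -, hS1, -⟩ := key 2
    refine (finite_exceptions hS1).subset ?_
    rintro K ⟨hK, hr, m, hm, hne⟩
    refine ⟨⟨(K, m), hK, hm⟩, rfl, hr, ?_, hne⟩
    refine isAtom_of_rank (fun hbot => hne ?_) hr
    refine hS1 ⟨(K, m), hK, hm⟩ hr ?_
    have hbot' : K = ⊥ := hbot
    simp only [hbot', bot_inf_eq]
  · intro K m q c α hm hq hqb hc hα hK
    have hint : IsIntegral ℚ α := by
      refine IsIntegral.of_pow hq.pos ?_
      rw [hα]
      exact isIntegral_algebraMap (x := c)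
    have hfd : FiniteDimensional ℚ K := by
      rw [hK]
      exact IntermediateField.adjoin.finiteDimensional hint
    have hnf : NumberField K := ⟨⟩
    exact pure_order_of_eq ha hMV₁ hq hqb hc hα hK (ordField_MV h K hm)

end

end Pool.Agent.Work.MP_2b9663_nt
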