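import Pool.Agent.Work.MP_2b9663_nt.Ch.DefsFam
import Pool.Agent.Work.MP_2b9663_nt.Ch.MainA
import Pool.Agent.Work.MP_2b9663_nt.Family

set_option autoImplicit false

/-!
The mean inequality and Bessel's inequality for families of sums of twists.
-/

namespace Pool.Agent.Work.MP_2b9663_nt

open NumberField Filter Topology ComplexConjugate

section

variable {Ω : Type} [Field Ω] [CharZero Ω] [IsAlgClosure ℚ Ω]

/-- outside a finite set of primes an Artin representation is unramified, and its character at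
Frobenius elements does not depend on the choice of these elements -/
lemma ArtinRep.exists_good (R : ArtinRep Ω) : ∃ T : Finset Nat.Primes, ∀ p, p ∉ T →
    R.Unr (p : ℕ) ∧ ∀ g g' : Ω ≃ₐ[ℚ] Ω, IsFrob (p : ℕ) g → IsFrob (p : ℕ) g' →
      R.char g = R.char g' := by
  classical
  obtain ⟨T, hT⟩ := R.unr_almost
  obtain ⟨L, _, _, hL⟩ := exists_level_one R
  obtain ⟨T', hT'⟩ := classFn_isFrob (ArtinRep.lvl_char (R := R) hL) R.isCl_char
  refine ⟨T ∪ T', fun p hp => ?_⟩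
  rw [Finset.mem_union, not_or] at hp
  exact ⟨hT p hp.1, hT' p hp.2⟩

variable {G : Nat.Primes → Prop} {κ : Type} [Fintype κ] {t₀ : Nat.Primes → ℕ → ℂ}
  {t : κ → Nat.Primes → ℕ → ℂ} {i : ℕ} {b₀ : ℕ} {d : κ → ℕ}

/-- the order of the `L`-function of a sum of twists -/
theorem order_sum (h₀ : WeilBound G t₀ i b₀) (h : ∀ j, WeilBound G (t j) i (d j))
    {R₀ : ArtinRep Ω} {R : κ → ArtinRep Ω} {y : ℝ} {F : ℂ → ℂ}
    (hF : IsSumContinuation G t₀ t i R₀ R ((i : ℂ) / 2 + 1 + Complex.I * y) F)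
    {Fr : Nat.Primes → (Ω ≃ₐ[ℚ] Ω)} (hFr : ∀ p : Nat.Primes, IsFrob (p : ℕ) (Fr p)) :
    ∃ n : ℤ, meromorphicOrderAt F ((i : ℂ) / 2 + 1 + Complex.I * y) = n ∧
      MVC (fun p => (nt G t₀ i p * conj (R₀.char (Fr p)) +
        ∑ j, nt G (t j) i p * conj ((R j).char (Fr p))) * pw y p) (-(n : ℂ)) := by
  classical
  obtain ⟨⟨Fr', hFr', hE⟩, hmer⟩ := hF
  obtain ⟨B₀, hB₀0, hB₀⟩ := R₀.char_bounded
  choose B hB0 hB using fun j => (R j).char_bounded
  have hsq : ∀ (p : Nat.Primes) (k : ℕ), 0 ≤ Real.sqrt (((p : ℕ) : ℝ) ^ k) ^ i :=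
    fun p k => pow_nonneg (Real.sqrt_nonneg _) _
  have hw : WeilBound (fun p => G p ∧ R₀.Unr (p : ℕ) ∧ ∀ j, (R j).Unr (p : ℕ))
      (fun p k => t₀ p k * R₀.char (Fr' p ^ k) + ∑ j, t j p k * (R j).char (Fr' p ^ k)) i
      (b₀ * B₀ + ∑ j, d j * B j) := by
    intro p hp k hk
    have e1 : (b₀ * B₀ + ∑ j, (d j : ℝ) * B j) * Real.sqrt (((p : ℕ) : ℝ) ^ k) ^ i =
        (b₀ * Real.sqrt (((p : ℕ) : ℝ) ^ k) ^ i) * B₀ +
          ∑ j, (d j * Real.sqrt (((p : ℕ) : ℝ) ^ k) ^ i) * B j := by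
      rw [add_mul, Finset.sum_mul]
      congr 1
      · ring
      · exact Finset.sum_congr rfl fun j _ => by ring
    rw [e1]
    refine (norm_add_le _ _).trans (add_le_add ?_ ((norm_sum_le _ _).trans
      (Finset.sum_le_sum fun j _ => ?_)))
    · rw [norm_mul]
      exact mul_le_mul (h₀ p hp.1 k hk) (hB₀ _) (norm_nonneg _)
        (mul_nonneg (Nat.cast_nonneg _) (hsq p k))
    · rw [norm_mul]
      exact mul_le_mul (h j p hp.1 k hk) (hB j _) (norm_nonneg _)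
        (mul_nonneg (Nat.cast_nonneg _) (hsq p k))
  have hb : 0 ≤ b₀ * B₀ + ∑ j, (d j : ℝ) * B j :=
    add_nonneg (mul_nonneg (Nat.cast_nonneg _) hB₀0)
      (Finset.sum_nonneg fun j _ => mul_nonneg (Nat.cast_nonneg _) (hB0 j))
  obtain ⟨n, hn, hmv⟩ := order_c hb hw y hE hmer
  refine ⟨n, hn, ?_⟩
  obtain ⟨T₀, hT₀⟩ := R₀.exists_good
  choose T hT using fun j => (R j).exists_good
  refine hmv.congr (T₀ ∪ Finset.univ.biUnion T) fun p hp => ?_
  rw [Finset.mem_union, not_or, Finset.mem_biUnion] at hp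
  have hpT : ∀ j, p ∉ T j := fun j hj => hp.2 ⟨j, Finset.mem_univ _, hj⟩
  congr 1
  unfold nt
  by_cases hG : G p
  · have h1 : ∀ S : ArtinRep Ω, (∀ g g' : Ω ≃ₐ[ℚ] Ω, IsFrob (p : ℕ) g → IsFrob (p : ℕ) g' →
        S.char g = S.char g') → conj (S.char (Fr p)) = S.char (Fr' p) := fun S hS => by
      rw [← hS _ _ (hFr' p) (hFr p), S.char_inv, Complex.conj_conj]
    rw [if_pos ⟨hG, (hT₀ p hp.1).1, fun j => (hT j p (hpT j)).1⟩, if_pos hG]
    beta_reduce
    rw [pow_one, h1 R₀ (hT₀ p hp.1).2, add_div, Finset.sum_div]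
    congr 1
    · ring
    · refine Finset.sum_congr rfl fun j _ => ?_
      rw [if_pos hG, h1 (R j) (hT j p (hpT j)).2]
      ring
  · rw [if_neg fun hcon => hG hcon.1, if_neg hG, zero_mul, zero_add]
    refine (Finset.sum_eq_zero fun j _ => ?_).symm
    rw [if_neg hG, zero_mul]

/-- the difference of the orders -/
theorem order_diff (h₀ : WeilBound G t₀ i b₀) (h : ∀ j, WeilBound G (t j) i (d j))
    {R₀ : ArtinRep Ω} {R : κ → ArtinRep Ω} {y : ℝ} {F : ℂ → ℂ}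
    (hF : IsSumContinuation G t₀ t i R₀ R ((i : ℂ) / 2 + 1 + Complex.I * y) F)
    {Fr : Nat.Primes → (Ω ≃ₐ[ℚ] Ω)} (hFr : ∀ p : Nat.Primes, IsFrob (p : ℕ) (Fr p)) {n : ℤ}
    (hn : MVC (fun p => nt G t₀ i p * conj (R₀.char (Fr p)) * pw y p) (-(n : ℂ))) :
    ∃ m : ℤ, meromorphicOrderAt F ((i : ℂ) / 2 + 1 + Complex.I * y) = m ∧
      MVC (fun p => ∑ j, nt G (t j) i p * (conj ((R j).char (Fr p)) * pw y p))
        (-((m : ℂ) - n)) := by
  obtain ⟨m, hm, hmv⟩ := order_sum h₀ h hF hFr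
  refine ⟨m, hm, ?_⟩
  have e1 := hmv.sub hn
  have e2 : -(m : ℂ) - -(n : ℂ) = -((m : ℂ) - n) := by ring
  rw [e2] at e1
  refine e1.congr ∅ fun p _ => ?_
  rw [add_mul, add_sub_cancel_left, Finset.sum_mul]
  exact Finset.sum_congr rfl fun j _ => by ring

/-- the mean inequality for families of sums of twists -/
theorem family_mean_of (h₀ : WeilBound G t₀ i b₀) (h : ∀ j, WeilBound G (t j) i (d j))
    {Fr : Nat.Primes → (Ω ≃ₐ[ℚ] Ω)} (hFr : ∀ p : Nat.Primes, IsFrob (p : ℕ) (Fr p))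
    (L : IntermediateField ℚ Ω) [NumberField L] [IsGalois ℚ L] {ι : Type} (s : Finset ι)
    (R₀ : ι → ArtinRep Ω) (R : ι → κ → ArtinRep Ω) (y : ℝ) (F : ι → ℂ → ℂ) (m n : ι → ℤ)
    (c : ι → ℂ)
    (hF : ∀ a ∈ s, IsSumContinuation G t₀ t i (R₀ a) (R a) ((i : ℂ) / 2 + 1 + Complex.I * y) (F a))
    (hm : ∀ a ∈ s, meromorphicOrderAt (F a) ((i : ℂ) / 2 + 1 + Complex.I * y) = m a)
    (hn : ∀ a ∈ s, MVC (fun p => nt G t₀ i p * conj ((R₀ a).char (Fr p)) * pw y p) (-(n a : ℂ)))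
    (hL : ∀ a ∈ s, ∀ j, ∀ g ∈ L.fixingSubgroup, (R a j).ρ g = 1) :
    ‖∑ a ∈ s, c a * (m a - n a)‖ ≤ ∑ j, d j * (meanAt L fun g =>
      ((‖∑ a ∈ s, c a * (R a j).char g‖ : ℝ) : ℂ)).re := by
  classical
  -- the class functions
  set f : κ → (Ω ≃ₐ[ℚ] Ω) → ℂ := fun j g => ∑ a ∈ s, c a * (R a j).char g with hf
  have hfl : ∀ j, Lvl L (f j) := fun j => Lvl.sum s fun a ha =>
    (ArtinRep.lvl_char (hL a ha j)).comp fun z => c a * z
  set f' : κ → (Ω ≃ₐ[ℚ] Ω) → ℂ := fun j g => ∑ a ∈ s, c a * conj ((R a j).char g) with hf'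
  have hff' : ∀ j g, f' j g = f j g⁻¹ := by
    intro j g
    simp only [hf, hf', ArtinRep.char_inv]
  have hfl' : ∀ j, Lvl L (f' j) := fun j => Lvl.sum s fun a ha =>
    (ArtinRep.lvl_char (hL a ha j)).comp fun z => c a * conj z
  have hfc' : ∀ j, IsCl (f' j) := fun j => IsCl.sum s fun a _ =>
    (R a j).isCl_char.comp fun z => c a * conj z
  -- the mean value
  have h1 : MVC (fun p => ∑ j, nt G (t j) i p * (f' j (Fr p) * pw y p))
      (-∑ a ∈ s, c a * ((m a : ℂ) - n a)) := by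
    have e1 : MVC (fun p => ∑ a ∈ s, c a *
        ∑ j, nt G (t j) i p * (conj ((R a j).char (Fr p)) * pw y p))
        (∑ a ∈ s, c a * (-((m a : ℂ) - n a))) := by
      refine MVC.sum s fun a ha => MVC.const_mul (c a) ?_
      obtain ⟨m', hm', hmv⟩ := order_diff h₀ h (hF a ha) hFr (hn a ha)
      rw [hm a ha] at hm'
      have e2 : m a = m' := by exact_mod_cast hm'
      rw [e2]
      exact hmv
    have e2 : ∑ a ∈ s, c a * (-((m a : ℂ) - n a)) = -∑ a ∈ s, c a * ((m a : ℂ) - n a) := by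
      simp only [mul_neg, Finset.sum_neg_distrib]
    rw [e2] at e1
    refine e1.congr ∅ fun p _ => ?_
    simp only [hf', Finset.mul_sum, Finset.sum_mul]
    rw [Finset.sum_comm]
    exact Finset.sum_congr rfl fun j _ => Finset.sum_congr rfl fun a _ => by ring
  -- the mean values of the absolute values
  have h2 : ∀ j, MVo (fun p => ‖f' j (Fr p)‖) (meanAt L fun g => (‖f j g‖ : ℂ)).re := by
    intro j
    have e1 := chebΩ Fr hFr L (fun g => (‖f' j g‖ : ℂ)) ((hfl' j).comp fun z => (‖z‖ : ℂ))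
      ((hfc' j).comp fun z => (‖z‖ : ℂ)) 0
    rw [if_pos rfl] at e1
    have e2 := (e1.congr (d := fun p => ((‖f' j (Fr p)‖ : ℝ) : ℂ)) ∅ fun p _ => by
      rw [pw_zero, mul_one]).re
    simp only [Complex.ofReal_re] at e2
    have e3 : meanAt L (fun g => (‖f' j g‖ : ℂ)) = meanAt L (fun g => (‖f j g‖ : ℂ)) := by
      have e4 : (fun g => (‖f' j g‖ : ℂ)) = fun g => (fun x => (‖f j x‖ : ℂ)) g⁻¹ := by
        funext g
        rw [hff']
      rw [e4]
      exact meanAt_inv L ((hfl j).comp fun z => (‖z‖ : ℂ))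
    rw [e3] at e2
    exact e2
  have h3 : MVo (fun p => ∑ j, (d j : ℝ) * ‖f' j (Fr p)‖)
      (∑ j, (d j : ℝ) * (meanAt L fun g => (‖f j g‖ : ℂ)).re) := by
    have := (MVC.sum Finset.univ fun j _ => ((h2 j).const_mul (d j : ℝ)).toMVC).re
    simpa using this
  have h4 := h1.norm_le h3 ∅ fun p _ => by
    refine (norm_sum_le _ _).trans (Finset.sum_le_sum fun j _ => ?_)
    rw [norm_mul, norm_mul, norm_pw, mul_one]
    exact mul_le_mul_of_nonneg_right (nt_norm_le (Nat.cast_nonneg _) (h j) p) (norm_nonneg _)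
  rw [norm_neg] at h4
  exact h4

/-- Bessel's inequality for families of sums of twists -/
theorem family_bessel_of (h₀ : WeilBound G t₀ i b₀) (h : ∀ j, WeilBound G (t j) i (d j))
    {Fr : Nat.Primes → (Ω ≃ₐ[ℚ] Ω)} (hFr : ∀ p : Nat.Primes, IsFrob (p : ℕ) (Fr p))
    (K₀ : IntermediateField ℚ Ω) [NumberField K₀] [IsGalois ℚ K₀] {ι : Type}
    (R₀ : ι → ArtinRep Ω) (R : ι → κ → ArtinRep Ω) (y : ι → ℝ) (F : ι → ℂ → ℂ) (n : ι → ℤ)
    (hF : ∀ a, IsSumContinuation G t₀ t i (R₀ a) (R a)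
      ((i : ℂ) / 2 + 1 + Complex.I * y a) (F a))
    (hn : ∀ a, MVC (fun p => nt G t₀ i p * conj ((R₀ a).char (Fr p)) * pw (y a) p) (-(n a : ℂ)))
    (hR : ∀ j, d j ≠ 0 → (∀ a, (R a j).Irr ∧ ∀ g, g ∉ K₀.fixingSubgroup → (R a j).char g = 0) ∧
      ∀ a a', a ≠ a' → y a = y a' → (R a j).char ≠ (R a' j).char) :
    ∃ m : ι → ℤ,
      (∀ a, meromorphicOrderAt (F a) ((i : ℂ) / 2 + 1 + Complex.I * y a) = m a) ∧
      (∀ s : Finset ι, (Module.finrank ℚ K₀ : ℤ) * ∑ a ∈ s, (m a - n a) ^ 2 ≤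
        ((∑ j, d j : ℕ) : ℤ) ^ 2) ∧
      {a | m a ≠ n a}.encard ≤ ((∑ j, d j) ^ 2 / Module.finrank ℚ K₀ : ℕ) := by
  classical
  choose m hm hmv using fun a => order_diff h₀ h (hF a) hFr (hn a)
  set N : ℕ := Module.finrank ℚ K₀ with hN
  have hNpos : 0 < N := Module.finrank_pos
  have hN0 : (0 : ℝ) < N := by exact_mod_cast hNpos
  -- the primes with the Frobenius elements over `K₀`
  have hw : MVo (fun p => if Fr p ∈ K₀.fixingSubgroup then 1 else 0) (1 / (N : ℝ)) := by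
    have h4 := (mvc_fixing meanHyp Fr hFr K₀).re
    have h5 : (1 / (N : ℂ)).re = 1 / (N : ℝ) := by
      rw [show (1 / (N : ℂ)) = ((1 / (N : ℝ) : ℝ) : ℂ) by push_cast; rfl, Complex.ofReal_re]
    rw [h5] at h4
    refine h4.congr ∅ fun p _ => ?_
    split_ifs <;> simp
  choose R' hR' hc hlev using fun (a : ι) (j : κ) => exists_dual (R a j)
  have key : ∀ s : Finset ι, (N : ℤ) * ∑ a ∈ s, (m a - n a) ^ 2 ≤ ((∑ j, d j : ℕ) : ℤ) ^ 2 := by
    intro s
    set 𝒮 : Finset κ := Finset.univ.filter fun j => d j ≠ 0 with h𝒮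
    have hmem : ∀ j ∈ 𝒮, d j ≠ 0 := fun j hj => (Finset.mem_filter.1 hj).2
    have h1 := MVC.bessel_dens s 𝒮
      (fun a j p => (R' a j).char (Fr p) * pw (y a) p) (fun a _ a' _ j hj =>
        orth_line hFr (hR' a j ((hR j (hmem j hj)).1 a).1) (hR' a' j ((hR j (hmem j hj)).1 a').1)
          (y a) (y a')
          (fun hy hcc => if_pos (by
            by_contra hne
            refine (hR j (hmem j hj)).2 a a' hne hy (funext fun g => ?_)
            have e1 := congrFun hcc g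
            rw [hc, hc] at e1
            exact (starRingEnd ℂ).injective e1))
          (fun hcc => if_neg (by
            rintro rfl
            exact hcc rfl rfl)))
      (fun j p => nt G (t j) i p) (fun j => (d j : ℝ)) ∅
      (fun j _ p _ => nt_norm_le (Nat.cast_nonneg _) (h j) p)
      (fun a => -((m a : ℂ) - n a)) (fun a _ => (hmv a).congr ∅ fun p _ => by
        rw [h𝒮, Finset.sum_filter]
        refine Finset.sum_congr rfl fun j _ => ?_
        split_ifs with hj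
        · rw [hc]
        · have e1 := nt_norm_le (Nat.cast_nonneg _) (h j) p
          rw [not_not.1 hj, Nat.cast_zero] at e1
          rw [norm_le_zero_iff.1 e1, zero_mul])
      hw (fun p => by split_ifs <;> norm_num) (fun a _ j hj p _ => by
        by_cases hp : Fr p ∈ K₀.fixingSubgroup
        · exact Or.inr (if_pos hp)
        · left
          rw [hc, ((hR j (hmem j hj)).1 a).2 _ hp, map_zero, zero_mul])
    have h2 : ∑ a ∈ s, ‖-((m a : ℂ) - n a)‖ ^ 2 = ((∑ a ∈ s, (m a - n a) ^ 2 : ℤ) : ℝ) := by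
      push_cast
      refine Finset.sum_congr rfl fun a _ => ?_
      have e1 : (m a : ℂ) - n a = ((m a - n a : ℤ) : ℂ) := by push_cast; rfl
      rw [norm_neg, e1, Complex.norm_intCast, sq_abs]
      push_cast
      rfl
    have h3 : ∑ j ∈ 𝒮, (d j : ℝ) = ((∑ j, d j : ℕ) : ℝ) := by
      push_cast
      rw [h𝒮, Finset.sum_filter]
      refine Finset.sum_congr rfl fun j _ => ?_
      split_ifs with hj
      · rfl
      · rw [not_not.1 hj, Nat.cast_zero]
    rw [h2, h3, one_div, ← div_eq_inv_mul, le_div_iff₀ hN0] at h1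
    have h4 : (N : ℝ) * ((∑ a ∈ s, (m a - n a) ^ 2 : ℤ) : ℝ) ≤ ((∑ j, d j : ℕ) : ℝ) ^ 2 := by
      rw [mul_comm]
      exact h1
    exact_mod_cast h4
  refine ⟨m, hm, key, encard_le_of_finset fun u hu => ?_⟩
  have h1 : (u.card : ℤ) ≤ ∑ a ∈ u, (m a - n a) ^ 2 := by
    rw [Finset.card_eq_sum_ones, Nat.cast_sum]
    refine Finset.sum_le_sum fun a ha => ?_
    have h2 : m a - n a ≠ 0 := sub_ne_zero.2 (hu ha)
    have h3 := sq_pos_of_ne_zero h2
    rw [Nat.cast_one]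
    linarith
  rw [Nat.le_div_iff_mul_le hNpos]
  have h2 := key u
  have h3 : (N : ℤ) * u.card ≤ ((∑ j, d j : ℕ) : ℤ) ^ 2 :=
    (mul_le_mul_of_nonneg_left h1 (Nat.cast_nonneg N)).trans h2
  have h4 : N * u.card ≤ (∑ j, d j) ^ 2 := by exact_mod_cast h3
  rw [mul_comm]
  exact h4

omit [Fintype κ] in
/-- the mean value attached to the order of the fixed part -/
lemma OrdFixed.mvc (h₀ : WeilBound G t₀ i b₀) {R₀ : ArtinRep Ω} {y : ℝ} {n : ℤ}
    (hn : OrdFixed G t₀ i R₀ y n) (hG : ∃ T : Finset Nat.Primes, ∀ p, p ∉ T → G p)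
    {Fr : Nat.Primes → (Ω ≃ₐ[ℚ] Ω)} (hFr : ∀ p : Nat.Primes, IsFrob (p : ℕ) (Fr p)) :
    MVC (fun p => nt G t₀ i p * conj (R₀.char (Fr p)) * pw y p) (-(n : ℂ)) := by
  classical
  rcases hn with hn | ⟨b₁, hb₁, h0, h1⟩
  · exact hn.mvc h₀ hFr
  obtain ⟨T, hT⟩ := hG
  obtain ⟨L, hL1, hL2, hL, hnL⟩ : ∃ L : IntermediateField ℚ Ω, NumberField L ∧ IsGalois ℚ L ∧
      (∀ g ∈ L.fixingSubgroup, R₀.ρ g = 1) ∧
      -(n : ℂ) = b₁ * (if y = 0 then meanAt L (fun g => conj (R₀.char g)) else 0) := by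
    by_cases hy : y = 0
    · obtain ⟨L, hL1, hL2, hL, hnL⟩ := h0 hy
      refine ⟨L, hL1, hL2, hL, ?_⟩
      have e1 : (fun g => conj (R₀.char g)) = fun g => R₀.char g⁻¹ := by
        funext g
        rw [R₀.char_inv]
      rw [if_pos hy, e1, meanAt_inv L (ArtinRep.lvl_char hL), hnL, neg_neg]
    · obtain ⟨L, hL1, hL2, hL⟩ := exists_level_one R₀
      refine ⟨L, hL1, hL2, hL, ?_⟩
      rw [if_neg hy, h1 hy]
      simp
  have e1 := (chebΩ Fr hFr L (fun g => conj (R₀.char g))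
    ((ArtinRep.lvl_char hL).comp fun z => conj z) (R₀.isCl_char.comp fun z => conj z) y).const_mul
    (b₁ : ℂ)
  rw [← hnL] at e1
  refine e1.congr T fun p hp => ?_
  have hGp := hT p hp
  have h3 := hb₁ p hGp 1 one_ne_zero
  have h4 : ((Real.sqrt ((p : ℕ) : ℝ) ^ i : ℝ) : ℂ) ≠ 0 := by
    have h5 : (0 : ℝ) < ((p : ℕ) : ℝ) := by exact_mod_cast p.2.pos
    have h6 : 0 < Real.sqrt ((p : ℕ) : ℝ) ^ i := pow_pos (Real.sqrt_pos.2 h5) i
    exact_mod_cast h6.ne'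
  rw [pow_one] at h3
  have h5 : nt G t₀ i p = b₁ := by
    unfold nt
    rw [if_pos hGp, h3]
    push_cast at h4 ⊢
    rw [mul_div_assoc, div_self h4, mul_one]
  rw [h5]
  ring

omit [IsAlgClosure ℚ Ω] in
/-- the primes not in `G` are finitely many -/
lemma IsSumContinuation.good {R₀ : ArtinRep Ω} {R : κ → ArtinRep Ω} {s₁ : ℂ} {F : ℂ → ℂ}
    (hF : IsSumContinuation G t₀ t i R₀ R s₁ F) : ∃ T : Finset Nat.Primes, ∀ p, p ∉ T → G p := by
  obtain ⟨⟨Fr, -, T, Q, hT, -⟩, -⟩ := hF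
  refine ⟨T, fun p hp => ?_⟩
  by_contra hG
  exact hp (hT p fun h => hG h.1)

/-- **The mean inequality** for families of sums of twists -/
theorem familyMean (h₀ : WeilBound G t₀ i b₀) (h : ∀ j, WeilBound G (t j) i (d j)) :
    FamilyMean Ω G t₀ t i d := by
  intro L _ _ ι s R₀ R y F m n c hs
  obtain ⟨Fr, hFr⟩ := exists_frobs (Ω := Ω)
  exact family_mean_of h₀ h hFr L s R₀ R y F m n c (fun a ha => (hs a ha).1)
    (fun a ha => (hs a ha).2.1)
    (fun a ha => (hs a ha).2.2.1.mvc h₀ (hs a ha).1.good hFr) fun a ha => (hs a ha).2.2.2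

/-- **Bessel's inequality** for families of sums of twists -/
theorem familyBessel (h₀ : WeilBound G t₀ i b₀) (h : ∀ j, WeilBound G (t j) i (d j)) :
    FamilyBessel Ω G t₀ t i d := by
  intro K₀ _ _ ι R₀ R y F n hF hR
  obtain ⟨Fr, hFr⟩ := exists_frobs (Ω := Ω)
  exact family_bessel_of h₀ h hFr K₀ R₀ R y F n (fun a => (hF a).1)
    (fun a => (hF a).2.mvc h₀ (hF a).1.good hFr) hR

end

end Pool.Agent.Work.MP_2b9663_nt
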