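import Pool.Agent.Work.MP_2b9663_nt.Ch.ThmB
import Pool.Agent.Work.MP_2b9663_nt.Ch.EulerLog

set_option autoImplicit false

/-!
The mean values for one number field.
-/

namespace Pool.Agent.Work.MP_2b9663_nt

open Filter Topology NumberField

namespace MeanA

/-- a continuous logarithm of a function close to `w ≠ 0` is bounded -/
lemma log_bounded {l : ℝ → ℂ} {r : ℝ} (hr : 0 < r) (hl : ContinuousOn l (Set.Ioo 0 r))
    {w : ℂ} (hw : w ≠ 0) (h : ∀ ε ∈ Set.Ioo (0 : ℝ) r, ‖Complex.exp (l ε) / w - 1‖ ≤ 1 / 2) :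
    ∃ C : ℝ, ∀ ε ∈ Set.Ioo (0 : ℝ) r, ‖l ε‖ ≤ C := by
  have hε₀ : r / 2 ∈ Set.Ioo (0 : ℝ) r := ⟨by linarith, by linarith⟩
  have hre : ∀ ε ∈ Set.Ioo (0 : ℝ) r, 1 / 2 ≤ (Complex.exp (l ε) / w).re := by
    intro ε hε
    have h2 := (Complex.abs_re_le_norm _).trans (h ε hε)
    rw [Complex.sub_re, Complex.one_re, abs_le] at h2
    linarith [h2.1]
  have hslit : ∀ ε ∈ Set.Ioo (0 : ℝ) r, Complex.exp (l ε) / w ∈ Complex.slitPlane := by
    intro ε hε
    left
    linarith [hre ε hε]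
  set g : ℝ → ℂ := fun ε => l ε - Complex.log (Complex.exp (l ε) / w) with hg
  have hgc : ContinuousOn g (Set.Ioo 0 r) := by
    refine hl.sub (ContinuousOn.clog ?_ hslit)
    exact (Complex.continuous_exp.comp_continuousOn hl).div_const w
  have hexp : ∀ ε, Complex.exp (g ε) = w := by
    intro ε
    rw [hg]
    beta_reduce
    rw [Complex.exp_sub, Complex.exp_log (div_ne_zero (Complex.exp_ne_zero _) hw)]
    field_simp
  have hgT : ∀ ε, ∃ k : ℤ, g ε = Complex.log w + k * (2 * Real.pi * Complex.I) := by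
    intro ε
    have h2 : Complex.exp (g ε) = Complex.exp (Complex.log w) := by
      rw [hexp, Complex.exp_log hw]
    exact Complex.exp_eq_exp_iff_exists_int.mp h2
  choose k hk using hgT
  have hkim : ∀ ε, ((k ε : ℤ) : ℝ) = ((g ε).im - w.arg) / (2 * Real.pi) := by
    intro ε
    have h2 : (g ε).im = w.arg + k ε * (2 * Real.pi) := by
      rw [hk]
      simp [Complex.log_im]
    rw [h2]
    field_simp
    ring
  have hkc : ContinuousOn k (Set.Ioo 0 r) := by
    rw [Int.isClosedEmbedding_coe_real.isInducing.continuousOn_iff]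
    refine ContinuousOn.congr ?_ fun ε _ => hkim ε
    exact ((Complex.continuous_im.comp_continuousOn hgc).sub continuousOn_const).div_const _
  have hconst : ∀ ε ∈ Set.Ioo (0 : ℝ) r, g ε = g (r / 2) := by
    intro ε hε
    rw [hk ε, hk (r / 2), isPreconnected_Ioo.constant hkc hε hε₀]
  refine ⟨‖g (r / 2)‖ + (Real.log 2 + Real.pi), fun ε hε => ?_⟩
  have h3 : l ε = g (r / 2) + Complex.log (Complex.exp (l ε) / w) := by
    rw [← hconst ε hε, hg]
    ring
  rw [h3]
  refine (norm_add_le _ _).trans (add_le_add_right ?_ _)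
  refine (Complex.norm_le_abs_re_add_abs_im _).trans (add_le_add ?_ ?_)
  · rw [Complex.log_re]
    have h4 : ‖Complex.exp (l ε) / w‖ ≤ 3 / 2 := by
      have h5 := norm_add_le (Complex.exp (l ε) / w - 1) 1
      rw [sub_add_cancel, norm_one] at h5
      linarith [h ε hε]
    have h5 : 1 / 2 ≤ ‖Complex.exp (l ε) / w‖ :=
      (hre ε hε).trans ((le_abs_self _).trans (Complex.abs_re_le_norm _))
    rw [abs_le]
    constructor
    · rw [← Real.log_inv]
      refine Real.log_le_log (by norm_num) ?_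
      linarith
    · refine Real.log_le_log (by linarith) ?_
      linarith
  · rw [Complex.log_im]
    exact Complex.abs_arg_le_pi _

/-- a continuous logarithm along a ray of an analytic function that does not vanish there -/
lemma log_nat {F : ℂ → ℂ} {s₀ : ℂ} (hF : AnalyticAt ℂ F s₀) {Lam : ℝ → ℂ}
    (hL : ContinuousOn Lam (Set.Ioi 0))
    (h : ∀ᶠ ε : ℝ in 𝓝[>] 0, Complex.exp (Lam ε) = F (s₀ + ε)) :
    ∃ (n : ℕ) (C : ℝ), ∀ᶠ ε : ℝ in 𝓝[>] 0, ‖Lam ε - n * (Real.log ε : ℂ)‖ ≤ C := by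
  have hray : Tendsto (fun ε : ℝ => s₀ + (ε : ℂ)) (𝓝[>] 0) (𝓝 s₀) := by
    have h1 : Tendsto (fun ε : ℝ => s₀ + (ε : ℂ)) (𝓝 0) (𝓝 (s₀ + ((0 : ℝ) : ℂ))) :=
      Continuous.tendsto (by fun_prop) 0
    rw [Complex.ofReal_zero, add_zero] at h1
    exact h1.mono_left nhdsWithin_le_nhds
  have htop : analyticOrderAt F s₀ ≠ ⊤ := by
    intro htop
    rw [analyticOrderAt_eq_top] at htop
    obtain ⟨ε, h1, h2⟩ := ((hray.eventually htop).and h).exists
    rw [h1] at h2
    exact Complex.exp_ne_zero _ h2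
  obtain ⟨n, hn⟩ := ENat.ne_top_iff_exists.mp htop
  obtain ⟨G, hG, hG0, hFG⟩ := (hF.analyticOrderAt_eq_natCast).mp hn.symm
  have h1 : Tendsto (fun ε : ℝ => Complex.exp (Lam ε - n * (Real.log ε : ℂ))) (𝓝[>] 0)
      (𝓝 (G s₀)) := by
    refine (hG.continuousAt.tendsto.comp hray).congr' ?_
    filter_upwards [h, hray.eventually hFG, self_mem_nhdsWithin] with ε h2 h3 h4
    have hε : (0 : ℝ) < ε := h4
    rw [Complex.exp_sub, h2, h3]
    have h5 : Complex.exp (n * (Real.log ε : ℂ)) = (ε : ℂ) ^ n := by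
      rw [Complex.exp_nat_mul, ← Complex.ofReal_exp, Real.exp_log hε]
    rw [h5, smul_eq_mul, add_sub_cancel_left, Function.comp_apply,
      mul_div_cancel_left₀ _ (pow_ne_zero _ (by exact_mod_cast hε.ne'))]
  have h2 : Tendsto (fun ε : ℝ => ‖Complex.exp (Lam ε - n * (Real.log ε : ℂ)) / G s₀ - 1‖)
      (𝓝[>] 0) (𝓝 0) := by
    have h3 := ((h1.div_const (G s₀)).sub_const 1).norm
    rwa [div_self hG0, sub_self, norm_zero] at h3
  have h3 := h2.eventually (gt_mem_nhds (by norm_num : (0 : ℝ) < 1 / 2))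
  obtain ⟨r, hr, h4⟩ := mem_nhdsGT_iff_exists_Ioo_subset.mp h3
  have hr0 : (0 : ℝ) < r := hr
  have hc : ContinuousOn (fun ε : ℝ => Lam ε - n * (Real.log ε : ℂ)) (Set.Ioo 0 r) := by
    refine (hL.mono fun ε hε => hε.1).sub (continuousOn_const.mul ?_)
    refine Complex.continuous_ofReal.comp_continuousOn ?_
    exact Real.continuousOn_log.mono fun ε hε => ne_of_gt hε.1
  obtain ⟨C, hC⟩ := log_bounded hr0 hc hG0 fun ε hε => (h4 hε).le
  refine ⟨n, C, ?_⟩
  filter_upwards [Ioo_mem_nhdsGT hr0] with ε hε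
  exact hC ε hε

/-- the twist by `p ^ (-i y)` -/
lemma PSC_pw (a : Nat.Primes → ℂ) (y ε : ℝ) :
    PSC (fun p => a p * pw y p) ε =
      ∑' p : Nat.Primes, a p * ((p : ℕ) : ℂ) ^ (-((1 : ℂ) + ε + y * Complex.I)) := by
  refine tsum_congr fun p => ?_
  have hp : ((p : ℕ) : ℂ) ≠ 0 := by exact_mod_cast p.2.ne_zero
  have h1 : ((((p : ℕ) : ℝ) ^ (-(1 + ε)) : ℝ) : ℂ) = ((p : ℕ) : ℂ) ^ (-((1 : ℂ) + ε)) := by
    rw [Complex.ofReal_cpow (Nat.cast_nonneg _)]
    push_cast
    rfl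
  beta_reduce
  rw [h1, pw, mul_assoc, ← Complex.cpow_add _ _ hp]
  congr 2
  ring

/-- for `y ≠ 0` there is an integer `k = 1` modulo `m` such that `k ^ (i n y) ≠ 1` -/
lemma exists_int {m n : ℕ} (hm : m ≠ 0) (hn : n ≠ 0) {y : ℝ} (hy : y ≠ 0) :
    ∃ j : ℕ, (((1 + m * j : ℕ) ^ n : ℕ) : ℂ) ^ (-((y : ℂ) * Complex.I)) ≠ 1 := by
  by_contra hcon
  push Not at hcon
  have h1 : ∀ j : ℕ, ∃ k : ℤ, -(n * y * Real.log (1 + m * j)) = k * (2 * Real.pi) := by
    intro j
    have h2 := hcon j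
    have hpos : (0 : ℝ) < 1 + m * j := by positivity
    have h0 : (((1 + m * j : ℕ) ^ n : ℕ) : ℂ) ≠ 0 := by
      have : (1 + m * j) ^ n ≠ 0 := pow_ne_zero _ (by omega)
      exact_mod_cast this
    rw [Complex.cpow_def_of_ne_zero h0, Complex.exp_eq_one_iff] at h2
    obtain ⟨k, hk⟩ := h2
    refine ⟨k, ?_⟩
    have h3 : Complex.log (((1 + m * j : ℕ) ^ n : ℕ) : ℂ) = ((n * Real.log (1 + m * j) : ℝ) : ℂ) := by
      rw [← Complex.ofReal_natCast, ← Complex.ofReal_log (Nat.cast_nonneg _)]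
      congr 1
      push_cast
      rw [Real.log_pow]
    rw [h3] at hk
    have h4 := congrArg Complex.im hk
    simp at h4
    linarith
  choose k hk using h1
  -- the differences tend to zero
  have h2 : Tendsto (fun j : ℕ => Real.log (1 + m * (j + 1 : ℕ)) - Real.log (1 + m * j)) atTop (𝓝 0) := by
    have h3 : Tendsto (fun j : ℕ => Real.log (1 + m / (1 + m * j : ℝ))) atTop (𝓝 (Real.log (1 + 0))) := by
      have h4 : Tendsto (fun j : ℕ => (m : ℝ) / (1 + m * j : ℝ)) atTop (𝓝 0) := by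
        refine tendsto_const_nhds.div_atTop ?_
        refine tendsto_atTop_add_const_left _ _ ?_
        exact tendsto_natCast_atTop_atTop.const_mul_atTop (by positivity)
      exact ((Real.continuousAt_log (by norm_num)).tendsto.comp (h4.const_add 1))
    rw [add_zero, Real.log_one] at h3
    refine h3.congr fun j => ?_
    have h5 : (0 : ℝ) < 1 + m * j := by positivity
    rw [← Real.log_div (by positivity) h5.ne']
    congr 1
    field_simp
    push_cast
    ring
  have hny : n * y ≠ 0 := mul_ne_zero (by exact_mod_cast hn) hy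
  have h3 := (h2.const_mul (n * y)).abs
  rw [mul_zero, abs_zero] at h3
  obtain ⟨j, hj⟩ := (h3.eventually (gt_mem_nhds (by positivity : (0 : ℝ) < 2 * Real.pi))).exists
  have h4 : |((k j - k (j + 1) : ℤ) : ℝ)| * (2 * Real.pi) < 2 * Real.pi := by
    have h5 : n * y * (Real.log (1 + m * (j + 1 : ℕ)) - Real.log (1 + m * j)) =
        ((k j - k (j + 1) : ℤ) : ℝ) * (2 * Real.pi) := by
      have h6 := hk j
      have h7 := hk (j + 1)
      push_cast at h6 h7 ⊢
      linarith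
    rw [h5, abs_mul, abs_of_pos (by positivity : (0 : ℝ) < 2 * Real.pi)] at hj
    exact hj
  have h5 : |((k j - k (j + 1) : ℤ) : ℝ)| < 1 := by
    have := Real.two_pi_pos
    nlinarith
  have h6 : k j - k (j + 1) = 0 := by
    have h7 : |k j - k (j + 1)| < 1 := by exact_mod_cast h5
    exact Int.abs_lt_one_iff.mp h7
  have h7 := hk j
  have h8 := hk (j + 1)
  have h9 : k j = k (j + 1) := by omega
  rw [h9] at h7
  have h10 : n * y * (Real.log (1 + m * (j + 1 : ℕ)) - Real.log (1 + m * j)) = 0 := by linarith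
  have h11 := (mul_eq_zero.mp h10).resolve_left hny
  have h12 : Real.log (1 + m * j) < Real.log (1 + m * (j + 1 : ℕ)) := by
    refine Real.log_lt_log (by positivity) ?_
    have : (0 : ℝ) < m := by positivity
    push_cast
    nlinarith
  linarith

end MeanA

/-- Theorem A in the form of `LL_continuation`. -/
def ContHyp : Prop :=
  ∀ (K : Type) [Field K] [NumberField K] (m : ℕ) [NeZero m] (χ : DirichletCharacter ℂ m)
    (a : Ideal (𝓞 K)), a ≠ ⊥ → (Ideal.absNorm a).Coprime m →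
    ∃ g : ℂ → ℂ, DifferentiableOn ℂ g (HP K) ∧ ∀ s : ℂ, 1 < s.re →
      (χ (Ideal.absNorm a : ZMod m) * (Ideal.absNorm a : ℂ) ^ (1 - s) - 1) * LL K χ s = g s

open MeanA in
theorem meanHyp_of (hcont : ContHyp) : MeanHyp := by
  intro K _ _ m _ χ y hnt
  obtain ⟨P0, hP0⟩ := exists_log_LL K
  set m' := m * P0.factorial with hm'
  have hm'0 : m' ≠ 0 := mul_ne_zero (NeZero.ne m) (Nat.factorial_ne_zero _)
  have : NeZero m' := ⟨hm'0⟩
  have hdvd : m ∣ m' := dvd_mul_right _ _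
  set χ' : DirichletCharacter ℂ m' := DirichletCharacter.changeLevel hdvd χ with hχ'
  have hχ0 : ∀ p : ℕ, p.Prime → p ≤ P0 → χ' (p : ZMod m') = 0 := by
    intro p hp hpP
    refine MulChar.map_nonunit _ fun hu => ?_
    rw [ZMod.isUnit_iff_coprime] at hu
    have h1 : p ∣ m' := ((Nat.dvd_factorial hp.pos hpP)).mul_left m
    exact (Nat.Prime.coprime_iff_not_dvd hp).mp hu h1
  have hχp : ∀ p : ℕ, p.Coprime m' → χ' (p : ZMod m') = χ (p : ZMod m) := by
    intro p hp
    have h1 : IsCoprime (p : ℤ) (m' : ℤ) := Nat.isCoprime_iff_coprime.mpr hp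
    have h2 := DirichletCharacter.changeLevel_eq_cast_of_dvd' χ hdvd h1
    push_cast at h2
    exact h2
  -- the ideal
  obtain ⟨a, ha0, ha, hne⟩ : ∃ a : Ideal (𝓞 K), a ≠ ⊥ ∧ (Ideal.absNorm a).Coprime m' ∧
      χ' (Ideal.absNorm a : ZMod m') * (Ideal.absNorm a : ℂ) ^ (-((y : ℂ) * Complex.I)) ≠ 1 := by
    by_cases hy : y = 0
    · obtain ⟨p, hpN, hidc, -, hne⟩ := (hnt.resolve_left (not_not.mpr hy)) m'
      have h1 : Nonempty {I : Ideal (𝓞 K) // Ideal.absNorm I = p} := by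
        by_contra hemp
        rw [not_nonempty_iff] at hemp
        exact hidc Nat.card_of_isEmpty
      obtain ⟨I, hI⟩ := h1
      have hcop : (p : ℕ).Coprime m' := by
        rw [Nat.Prime.coprime_iff_not_dvd p.2]
        intro h2
        have := Nat.le_of_dvd (Nat.pos_of_ne_zero hm'0) h2
        omega
      refine ⟨I, ?_, by rw [hI]; exact hcop, ?_⟩
      · rintro rfl
        rw [Ideal.absNorm_bot] at hI
        exact p.2.ne_zero hI.symm
      · rw [hI, hχp p hcop, hy]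
        simpa using hne
    · obtain ⟨j, hj⟩ := exists_int (n := Module.finrank ℤ (𝓞 K)) hm'0 Module.finrank_pos.ne' hy
      have h1 : Ideal.absNorm (Ideal.span {((1 + m' * j : ℕ) : 𝓞 K)}) =
          (1 + m' * j) ^ Module.finrank ℤ (𝓞 K) := by
        rw [Ideal.absNorm_span_singleton]
        have h2 : ((1 + m' * j : ℕ) : 𝓞 K) = algebraMap ℤ (𝓞 K) ((1 + m' * j : ℕ) : ℤ) := by
          simp
        rw [h2, Algebra.norm_algebraMap, Int.natAbs_pow, Int.natAbs_natCast]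
      have h2 : ((1 + m' * j : ℕ) : ZMod m') = 1 := by
        push_cast
        simp
      refine ⟨Ideal.span {((1 + m' * j : ℕ) : 𝓞 K)}, ?_, ?_, ?_⟩
      · rw [Ne, Ideal.span_singleton_eq_bot]
        have : (1 + m' * j : ℕ) ≠ 0 := by omega
        exact_mod_cast this
      · rw [h1]
        refine Nat.Coprime.pow_left _ ?_
        rw [Nat.Coprime, Nat.gcd_comm, Nat.gcd_add_mul_left_right]
        simp
      · rw [h1, Nat.cast_pow, h2, one_pow, map_one, one_mul]
        exact hj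
  obtain ⟨g, hg, hLL⟩ := hcont K m' χ' a ha0 ha
  have hN0 : (Ideal.absNorm a : ℂ) ≠ 0 := by
    have : Ideal.absNorm a ≠ 0 := by rwa [Ne, Ideal.absNorm_eq_zero_iff]
    exact_mod_cast this
  set D : ℂ → ℂ := fun s => χ' (Ideal.absNorm a : ZMod m') * (Ideal.absNorm a : ℂ) ^ (1 - s) - 1
    with hD
  set s₀ : ℂ := 1 + y * Complex.I with hs₀
  have hDd : Differentiable ℂ D := by
    intro s
    refine ((DifferentiableAt.const_cpow (by fun_prop) (Or.inl hN0)).const_mul _).sub_const _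
  have hD0 : D s₀ ≠ 0 := by
    rw [hD]
    beta_reduce
    rw [sub_ne_zero]
    have : (1 : ℂ) - s₀ = -((y : ℂ) * Complex.I) := by rw [hs₀]; ring
    rw [this]
    exact hne
  have hre : s₀.re = 1 := by simp [hs₀]
  have hHP : IsOpen (HP K) := isOpen_lt continuous_const Complex.continuous_re
  have hs₀HP : s₀ ∈ HP K := by
    change 1 - 1 / (Module.finrank ℚ K : ℝ) < s₀.re
    rw [hre]
    have : (0 : ℝ) < Module.finrank ℚ K := by exact_mod_cast Module.finrank_pos
    have h1 : 0 < 1 / (Module.finrank ℚ K : ℝ) := by positivity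
    linarith
  have hga : AnalyticAt ℂ g s₀ := hg.analyticAt (hHP.mem_nhds hs₀HP)
  have hFa : AnalyticAt ℂ (fun s => g s / D s) s₀ := hga.div (hDd.analyticAt s₀) hD0
  obtain ⟨Lam, hLc, hLexp, C, hLC⟩ := hP0 m' χ' hχ0 y
  have hray : Tendsto (fun ε : ℝ => s₀ + (ε : ℂ)) (𝓝[>] 0) (𝓝 s₀) := by
    have h1 : Tendsto (fun ε : ℝ => s₀ + (ε : ℂ)) (𝓝 0) (𝓝 (s₀ + ((0 : ℝ) : ℂ))) :=
      Continuous.tendsto (by fun_prop) 0
    rw [Complex.ofReal_zero, add_zero] at h1
    exact h1.mono_left nhdsWithin_le_nhds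
  have hev : ∀ᶠ ε : ℝ in 𝓝[>] 0, Complex.exp (Lam ε) = g (s₀ + ε) / D (s₀ + ε) := by
    have h1 := (hDd.continuous.continuousAt (x := s₀)).tendsto.comp hray
    filter_upwards [h1.eventually_ne hD0, self_mem_nhdsWithin] with ε h2 h3
    have hε : (0 : ℝ) < ε := h3
    rw [Function.comp_apply] at h2
    have h4 : (1 : ℂ) + ε + y * Complex.I = s₀ + ε := by rw [hs₀]; ring
    rw [hLexp ε hε, h4, eq_div_iff h2, mul_comm]
    refine hLL _ ?_
    rw [Complex.add_re, hre, Complex.ofReal_re]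
    linarith
  obtain ⟨n, C', hn⟩ := log_nat hFa hLc hev
  refine ⟨n, ?_⟩
  have hB : BDC fun p : Nat.Primes => (idc K (p : ℕ) : ℂ) * χ' ((p : ℕ) : ZMod m') * pw y p := by
    refine ⟨2 ^ Module.finrank ℤ (𝓞 K), fun p => ?_⟩
    rw [norm_mul, norm_pw, mul_one, norm_mul, Complex.norm_natCast]
    refine (mul_le_of_le_one_right (Nat.cast_nonneg _) (DirichletCharacter.norm_le_one χ' _)).trans ?_
    exact_mod_cast idc_prime_le K p.2
  have hmv : MVC (fun p : Nat.Primes => (idc K (p : ℕ) : ℂ) * χ' ((p : ℕ) : ZMod m') * pw y p)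
      (-(n : ℂ)) := by
    refine MVC.of_LA (C := C + C') hB ?_
    filter_upwards [hn, self_mem_nhdsWithin] with ε h1 h2
    have hε : (0 : ℝ) < ε := h2
    have h3 := hLC ε hε
    rw [PSC_pw]
    have h4 : (∑' p : Nat.Primes, (idc K (p : ℕ) : ℂ) * χ' ((p : ℕ) : ZMod m') *
        ((p : ℕ) : ℂ) ^ (-((1 : ℂ) + ε + y * Complex.I))) + -(n : ℂ) * ((Real.log ε : ℝ) : ℂ) =
        -(Lam ε - ∑' p : Nat.Primes, (idc K (p : ℕ) : ℂ) * χ' ((p : ℕ) : ZMod m') *
        ((p : ℕ) : ℂ) ^ (-((1 : ℂ) + ε + y * Complex.I))) + (Lam ε - n * (Real.log ε : ℂ)) := by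
      ring
    rw [h4]
    refine (norm_add_le _ _).trans (add_le_add ?_ h1)
    rw [norm_neg]
    exact h3
  refine hmv.congr (smallPrimes (m' + 1)) fun p hp => ?_
  rw [hχp]
  exact (Nat.Prime.coprime_iff_not_dvd p.2).mpr (not_dvd_of_big hm'0 hp)

end Pool.Agent.Work.MP_2b9663_nt
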