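import Pool.Agent.Work.MP_2b9663_nt.Ch.CDefs

set_option autoImplicit false

/-!
The sum of the weight over the units is one.
-/

namespace Pool.Agent.Work.MP_2b9663_nt

open NumberField NumberField.mixedEmbedding NumberField.Units
  NumberField.Units.dirichletUnitTheorem Ideal
open scoped nonZeroDivisors

namespace TentU

lemma tent_nonneg (c : ℝ) : 0 ≤ tent c := le_max_left _ _

lemma tent_eq_zero {c : ℝ} (h : 1 ≤ |c|) : tent c = 0 := max_eq_left (by linarith)

lemma tent_finset (c : ℝ) :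
    ∃ S : Finset ℤ, (∀ k ∉ S, tent (c + k) = 0) ∧ ∑ k ∈ S, tent (c + k) = 1 := by
  refine ⟨{-⌊c⌋, -⌊c⌋ - 1}, fun k hk => ?_, ?_⟩
  · rw [Finset.mem_insert, Finset.mem_singleton, not_or] at hk
    obtain ⟨hk1, hk2⟩ := hk
    have h1 := Int.floor_le c
    have h2 := Int.lt_floor_add_one c
    refine tent_eq_zero ?_
    rcases lt_or_ge k (-⌊c⌋) with h | h
    · have h3 : k ≤ -⌊c⌋ - 2 := by omega
      have h4 : (k : ℝ) ≤ -(⌊c⌋ : ℝ) - 2 := by exact_mod_cast h3
      rw [abs_of_nonpos (by linarith)]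
      linarith
    · have h3 : -⌊c⌋ + 1 ≤ k := by omega
      have h4 : -(⌊c⌋ : ℝ) + 1 ≤ (k : ℝ) := by exact_mod_cast h3
      rw [abs_of_nonneg (by linarith)]
      linarith
  · have hne : (-⌊c⌋ : ℤ) ∉ ({-⌊c⌋ - 1} : Finset ℤ) := by
      rw [Finset.mem_singleton]
      omega
    rw [Finset.sum_insert hne, Finset.sum_singleton]
    have h1 := Int.floor_le c
    have h2 := Int.lt_floor_add_one c
    push_cast
    unfold tent
    rw [abs_of_nonneg (by linarith : (0 : ℝ) ≤ c + -(⌊c⌋ : ℝ)),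
      abs_of_nonpos (by linarith : c + (-(⌊c⌋ : ℝ) - 1) ≤ 0), max_eq_right (by linarith),
      max_eq_right (by linarith)]
    ring

end TentU

theorem tent_sum (c : ℝ) : HasSum (fun k : ℤ => tent (c + k)) 1 := by
  obtain ⟨S, hS, h1⟩ := TentU.tent_finset c
  rw [← h1]
  exact hasSum_sum_of_ne_finset_zero hS

namespace TentU

/-- the product form -/
lemma tent_prod {r : ℕ} (c : Fin r → ℝ) :
    HasSum (fun k : Fin r → ℤ => ∏ i, tent (c i + k i)) 1 := by
  classical
  choose S hS h1 using fun i => tent_finset (c i)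
  have h2 : ∑ k ∈ Fintype.piFinset S, ∏ i, tent (c i + k i) = 1 := by
    rw [← Finset.prod_univ_sum S fun i (k : ℤ) => tent (c i + k)]
    exact Finset.prod_eq_one fun i _ => h1 i
  rw [← h2]
  refine hasSum_sum_of_ne_finset_zero fun k hk => ?_
  rw [Fintype.mem_piFinset, not_forall] at hk
  obtain ⟨i, hi⟩ := hk
  exact Finset.prod_eq_zero (Finset.mem_univ i) (hS i _ hi)

variable (K : Type) [Field K] [NumberField K]

/-- the units as products of a root of unity and powers of fundamental units -/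
noncomputable def unitEquiv : torsion K × (Fin (rank K) → ℤ) ≃ (𝓞 K)ˣ :=
  Equiv.ofBijective (fun ζe => ζe.1 * ∏ i, (fundSystem K i) ^ (ζe.2 i)) <| by
    constructor
    · intro a b hab
      exact (exist_unique_eq_mul_prod K _).unique rfl hab
    · intro x
      obtain ⟨ζe, h, -⟩ := exist_unique_eq_mul_prod K x
      exact ⟨ζe, h.symm⟩

open scoped Classical in
lemma lc_unitEquiv (ζe : torsion K × (Fin (rank K) → ℤ)) {x : 𝓞 K} (hx : x ≠ 0)
    (i : Fin (rank K)) :
    lc K (mixedEmbedding K (((unitEquiv K ζe : (𝓞 K)ˣ) * x : 𝓞 K) : K)) i =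
      lc K (mixedEmbedding K (x : K)) i + ζe.2 i := by
  have hnorm : mixedEmbedding.norm (mixedEmbedding K (x : K)) ≠ 0 := by
    rw [mixedEmbedding.norm_ne_zero_iff]
    intro w
    rw [normAtPlace_apply]
    exact (map_ne_zero _).mpr (RingOfIntegers.coe_ne_zero_iff.mpr hx)
  have h1 : mixedEmbedding K (((unitEquiv K ζe : (𝓞 K)ˣ) * x : 𝓞 K) : K) =
      (unitEquiv K ζe) • mixedEmbedding K (x : K) := by
    rw [unitSMul_smul, ← map_mul]
    congr 1
  have h2 : logEmbedding K (Additive.ofMul (unitEquiv K ζe)) =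
      ∑ j, (ζe.2 j : ℤ) • ((basisUnitLattice K j : unitLattice K) : logSpace K) := by
    change logEmbedding K (Additive.ofMul (ζe.1 * ∏ i, (fundSystem K i) ^ (ζe.2 i))) = _
    rw [ofMul_mul, map_add, ofMul_prod, map_sum, logEmbedding_eq_zero_iff.mpr ζe.1.2, zero_add]
    refine Finset.sum_congr rfl fun j _ => ?_
    rw [ofMul_zpow, map_zsmul, logEmbedding_fundSystem]
  unfold lc
  rw [h1, logMap_unit_smul _ hnorm, map_add, Finsupp.add_apply, add_comm]
  congr 1
  rw [h2, map_sum, Finsupp.finsetSum_apply]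
  have h3 : ∀ j, ((basisUnitLattice K j : unitLattice K) : logSpace K) =
      (basisUnitLattice K).ofZLatticeBasis ℝ (unitLattice K) j := by
    intro j
    rw [Module.Basis.ofZLatticeBasis_apply]
  rw [Finset.sum_eq_single i]
  · rw [h3, map_zsmul, Module.Basis.repr_self]
    simp
  · intro j _ hj
    rw [h3, map_zsmul, Module.Basis.repr_self]
    simp [hj]
  · intro h
    exact absurd (Finset.mem_univ i) h

lemma wt_unitEquiv (ζe : torsion K × (Fin (rank K) → ℤ)) {x : 𝓞 K} (hx : x ≠ 0) :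
    wt K ((unitEquiv K ζe : (𝓞 K)ˣ) * x) =
      (torsionOrder K : ℝ)⁻¹ * ∏ i, tent (lc K (mixedEmbedding K (x : K)) i + ζe.2 i) := by
  unfold wt
  rw [if_neg (mul_ne_zero (Units.ne_zero _) hx)]
  congr 1
  refine Finset.prod_congr rfl fun i _ => ?_
  rw [lc_unitEquiv K ζe hx i]

lemma hasSum_torsion : HasSum (fun _ : torsion K => (torsionOrder K : ℝ)⁻¹) 1 := by
  have hft := Fintype.ofFinite (torsion K)
  have h4 := hasSum_fintype fun _ : torsion K => (torsionOrder K : ℝ)⁻¹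
  rw [Finset.sum_const, Finset.card_univ, nsmul_eq_mul] at h4
  have h5 : (Fintype.card (torsion K) : ℝ) * (torsionOrder K : ℝ)⁻¹ = 1 := by
    rw [torsionOrder, Nat.card_eq_fintype_card, mul_inv_cancel₀]
    exact_mod_cast Fintype.card_ne_zero
  rwa [h5] at h4

lemma hasSum_all (c : Fin (rank K) → ℝ) :
    HasSum (fun ζe : torsion K × (Fin (rank K) → ℤ) =>
      (torsionOrder K : ℝ)⁻¹ * ∏ i, tent (c i + ζe.2 i)) 1 := by
  have h2 := tent_prod c
  have h3 := hasSum_torsion K
  have h5 : (0 : torsion K → ℝ) ≤ fun _ => (torsionOrder K : ℝ)⁻¹ := fun _ =>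
    inv_nonneg.mpr (Nat.cast_nonneg _)
  have h6 : (0 : (Fin (rank K) → ℤ) → ℝ) ≤ fun k => ∏ i, tent (c i + k i) := fun k =>
    Finset.prod_nonneg fun i _ => tent_nonneg _
  have h7 := h3.summable.mul_of_nonneg h2.summable h5 h6
  have h4 := h3.mul h2 h7
  rw [mul_one] at h4
  exact h4

end TentU

variable (K : Type) [Field K] [NumberField K]

theorem wt_units (x : 𝓞 K) (hx : x ≠ 0) : HasSum (fun u : (𝓞 K)ˣ => wt K (u * x)) 1 := by
  rw [← (TentU.unitEquiv K).hasSum_iff]
  have h1 : ((fun u : (𝓞 K)ˣ => wt K (u * x)) ∘ (TentU.unitEquiv K)) = fun ζe =>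
      (torsionOrder K : ℝ)⁻¹ * ∏ i, tent (lc K (mixedEmbedding K (x : K)) i + ζe.2 i) :=
    funext fun ζe => TentU.wt_unitEquiv K ζe hx
  rw [h1]
  exact TentU.hasSum_all K _

end Pool.Agent.Work.MP_2b9663_nt
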