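import Pool.Agent.Work.MP_2b9663_nt.Ch.CDefs

set_option autoImplicit false

/-!
Unfolding: sums over algebraic integers with the weight `wt` are sums over principal ideals.
-/

namespace Pool.Agent.Work.MP_2b9663_nt

open NumberField NumberField.mixedEmbedding Ideal
open scoped nonZeroDivisors

variable (K : Type) [Field K] [NumberField K]

lemma unf_wt_zero : wt K 0 = 0 := by
  classical
  unfold wt
  rw [if_pos rfl]

lemma unf_wt_nonneg (x : 𝓞 K) : 0 ≤ wt K x := by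
  classical
  unfold wt
  split_ifs
  · exact le_rfl
  · exact mul_nonneg (by positivity) (Finset.prod_nonneg fun i _ => le_max_left _ _)

/-- the nonzero algebraic integers are the multiples by units of the generators -/
noncomputable def genMap (q : {I : Ideal (𝓞 K) // I ≠ ⊥ ∧ I.IsPrincipal} × (𝓞 K)ˣ) : 𝓞 K :=
  (q.2 : 𝓞 K) * (haveI := q.1.2.2; Submodule.IsPrincipal.generator (q.1 : Ideal (𝓞 K)))

omit [NumberField K] in
lemma span_genMap (q : {I : Ideal (𝓞 K) // I ≠ ⊥ ∧ I.IsPrincipal} × (𝓞 K)ˣ) :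
    span {genMap K q} = (q.1 : Ideal (𝓞 K)) := by
  unfold genMap
  have := q.1.2.2
  rw [Ideal.span_singleton_mul_left_unit q.2.isUnit]
  exact Ideal.span_singleton_generator _

omit [NumberField K] in
lemma genMap_ne_zero (q : {I : Ideal (𝓞 K) // I ≠ ⊥ ∧ I.IsPrincipal} × (𝓞 K)ˣ) :
    genMap K q ≠ 0 := by
  intro h
  have h1 := span_genMap K q
  rw [h] at h1
  apply q.1.2.1
  rw [← h1]
  simp

omit [NumberField K] in
lemma genMap_mul (I : {I : Ideal (𝓞 K) // I ≠ ⊥ ∧ I.IsPrincipal}) (u : (𝓞 K)ˣ) :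
    genMap K (I, u) = (u : 𝓞 K) * genMap K (I, 1) := by
  unfold genMap
  rw [Units.val_one, one_mul]

omit [NumberField K] in
lemma genMap_injective : Function.Injective (genMap K) := by
  intro q q' h
  have h1 : (q.1 : Ideal (𝓞 K)) = q'.1 := by
    rw [← span_genMap K q, ← span_genMap K q', h]
  have h2 : q.1 = q'.1 := Subtype.ext h1
  obtain ⟨I, u⟩ := q
  obtain ⟨I', u'⟩ := q'
  obtain rfl : I = I' := h2
  have hne := genMap_ne_zero K (I, u)
  unfold genMap at h hne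
  dsimp only at h hne
  have h3 := mul_right_cancel₀ (right_ne_zero_of_mul hne) h
  rw [Units.ext h3]

omit [NumberField K] in
lemma mem_range_genMap {x : 𝓞 K} (hx : x ≠ 0) : x ∈ Set.range (genMap K) := by
  have hI : (span {x} : Ideal (𝓞 K)) ≠ ⊥ ∧ (span {x} : Ideal (𝓞 K)).IsPrincipal :=
    ⟨by rwa [Ne, Ideal.span_singleton_eq_bot], ⟨x, rfl⟩⟩
  have h1 := span_genMap K (⟨span {x}, hI⟩, 1)
  rw [Ideal.span_singleton_eq_span_singleton] at h1
  obtain ⟨u, hu⟩ := h1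
  refine ⟨(⟨span {x}, hI⟩, u), ?_⟩
  refine Eq.trans ?_ hu
  rw [genMap_mul K ⟨span {x}, hI⟩ u, mul_comm]

theorem unfolding_aux
    (W : ∀ x : 𝓞 K, x ≠ 0 → HasSum (fun u : (𝓞 K)ˣ => wt K (u * x)) 1)
    (G : Ideal (𝓞 K) → ℂ)
    (hG : Summable fun I : {I : Ideal (𝓞 K) // I ≠ ⊥ ∧ I.IsPrincipal} => ‖G I‖) :
    HasSum (fun x : 𝓞 K => (wt K x : ℂ) * G (span {x}))
      (∑' I : {I : Ideal (𝓞 K) // I ≠ ⊥ ∧ I.IsPrincipal}, G I) := by
  have h0 : ∀ x ∉ Set.range (genMap K), (wt K x : ℂ) * G (span {x}) = 0 := by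
    intro x hx
    have : x = 0 := by
      by_contra hc
      exact hx (mem_range_genMap K hc)
    rw [this, unf_wt_zero]
    simp
  rw [← (genMap_injective K).hasSum_iff h0]
  have h1 : ((fun x : 𝓞 K => (wt K x : ℂ) * G (span {x})) ∘ genMap K) =
      fun q => (wt K (genMap K q) : ℂ) * G q.1 := by
    funext q
    simp only [Function.comp_apply]
    rw [span_genMap]
  rw [h1]
  -- the sums over the units
  have hW : ∀ I : {I : Ideal (𝓞 K) // I ≠ ⊥ ∧ I.IsPrincipal},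
      HasSum (fun u : (𝓞 K)ˣ => wt K (genMap K (I, u))) 1 := by
    intro I
    have h := W (genMap K (I, 1)) (genMap_ne_zero K (I, 1))
    simp only [← genMap_mul] at h
    exact h
  have h2 : Summable fun q : {I : Ideal (𝓞 K) // I ≠ ⊥ ∧ I.IsPrincipal} × (𝓞 K)ˣ =>
      wt K (genMap K q) * ‖G q.1‖ := by
    refine (summable_prod_of_nonneg fun q => mul_nonneg (unf_wt_nonneg K _) (norm_nonneg _)).mpr
      ⟨fun I => ?_, ?_⟩
    · exact (hW I).summable.mul_right ‖G (I : Ideal (𝓞 K))‖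
    · refine hG.congr fun I => ?_
      show ‖G (I : Ideal (𝓞 K))‖ = ∑' u : (𝓞 K)ˣ, wt K (genMap K (I, u)) * ‖G (I : Ideal (𝓞 K))‖
      rw [tsum_mul_right, (hW I).tsum_eq, one_mul]
  have h3 : Summable fun q : {I : Ideal (𝓞 K) // I ≠ ⊥ ∧ I.IsPrincipal} × (𝓞 K)ˣ =>
      (wt K (genMap K q) : ℂ) * G q.1 := by
    refine Summable.of_norm (h2.congr fun q => ?_)
    rw [norm_mul, Complex.norm_real, Real.norm_of_nonneg (unf_wt_nonneg K _)]
  have h4 : ∀ I : {I : Ideal (𝓞 K) // I ≠ ⊥ ∧ I.IsPrincipal},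
      HasSum (fun u : (𝓞 K)ˣ => (wt K (genMap K (I, u)) : ℂ) * G I) (G I) := by
    intro I
    have h5 := (Complex.hasSum_ofReal.mpr (hW I)).mul_right (G (I : Ideal (𝓞 K)))
    rw [Complex.ofReal_one, one_mul] at h5
    exact h5
  have h6 := h3.hasSum.prod_fiberwise h4
  rw [h6.tsum_eq]
  exact h3.hasSum

end Pool.Agent.Work.MP_2b9663_nt
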