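import Pool.Agent.Work.MP_2b9663_nt.Ch.ThmA
import Pool.Agent.Work.MP_2b9663_nt.Ch.TentU
import Pool.Agent.Work.MP_2b9663_nt.Ch.Unfold
import Pool.Agent.Work.MP_2b9663_nt.Ch.Mean

set_option autoImplicit false

/-!
Theorem A and the mean values, without hypotheses.
-/

namespace Pool.Agent.Work.MP_2b9663_nt

open NumberField Ideal
open scoped nonZeroDivisors

variable (K : Type) [Field K] [NumberField K]

theorem unfolding (G : Ideal (𝓞 K) → ℂ)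
    (hG : Summable fun I : {I : Ideal (𝓞 K) // I ≠ ⊥ ∧ I.IsPrincipal} => ‖G I‖) :
    HasSum (fun x : 𝓞 K => (wt K x : ℂ) * G (span {x}))
      (∑' I : {I : Ideal (𝓞 K) // I ≠ ⊥ ∧ I.IsPrincipal}, G I) :=
  unfolding_aux K (wt_units K) G hG

theorem LL_continuation {m : ℕ} [NeZero m] (χ : DirichletCharacter ℂ m) (a : Ideal (𝓞 K))
    (ha0 : a ≠ ⊥) (ha : (absNorm a).Coprime m) :
    ∃ g : ℂ → ℂ, DifferentiableOn ℂ g (HP K) ∧ ∀ s : ℂ, 1 < s.re →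
      (χ (absNorm a : ZMod m) * (absNorm a : ℂ) ^ (1 - s) - 1) * LL K χ s = g s :=
  LL_continuation_of K χ (unfolding K) a ha0 ha

/-- **Theorem A.** The `L`-series of `χ ∘ N` is analytic at `1 + i y`, unless `y = 0` and `χ ∘ N`
is trivial. -/
theorem thmA {m : ℕ} [NeZero m] (χ : DirichletCharacter ℂ m) (y : ℝ)
    (h : y ≠ 0 ∨ ∀ N : ℕ, ∃ p : ℕ, N < p ∧ p.Prime ∧ idc K p ≠ 0 ∧ ¬ p ∣ m ∧
      χ (p : ZMod m) ≠ 1) :
    ∃ F : ℂ → ℂ, AnalyticAt ℂ F (1 + Complex.I * y) ∧ ∀ s : ℂ, 1 < s.re → F s = LL K χ s := by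
  rw [mul_comm]
  refine LL_analytic_of K χ (unfolding K) (h.imp id fun h1 => ?_)
  obtain ⟨p, -, h2⟩ := h1 0
  exact ⟨p, h2⟩

/-- the mean values of `χ ∘ N` over the prime ideals of degree one -/
theorem meanHyp : MeanHyp :=
  meanHyp_of fun K _ _ _ _ χ a ha0 ha => LL_continuation K χ a ha0 ha

end Pool.Agent.Work.MP_2b9663_nt
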