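import Pool.Agent.Work.MP_2b9663_nt.Ch.MVC

set_option autoImplicit false

/-!
The numbers `p ^ (-i y)`.
-/

namespace Pool.Agent.Work.MP_2b9663_nt

/-- the number `p ^ (-i y)` -/
noncomputable def pw (y : ℝ) (p : Nat.Primes) : ℂ := ((p : ℕ) : ℂ) ^ (-(Complex.I * y))

lemma BDC_pw (y : ℝ) : BDC (pw y) := BDC.cpow y

lemma pw_zero (p : Nat.Primes) : pw 0 p = 1 := by
  rw [pw, Complex.ofReal_zero, mul_zero, neg_zero, Complex.cpow_zero]

lemma norm_pw (y : ℝ) (p : Nat.Primes) : ‖pw y p‖ = 1 := by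
  rw [pw, Complex.norm_natCast_cpow_of_pos p.2.pos]
  simp

lemma pw_add (y z : ℝ) (p : Nat.Primes) : pw (y + z) p = pw y p * pw z p := by
  rw [pw, pw, pw, ← Complex.cpow_add _ _ (by exact_mod_cast p.2.ne_zero)]
  congr 1
  push_cast
  ring

lemma pw_neg (y : ℝ) (p : Nat.Primes) : pw (-y) p = (starRingEnd ℂ) (pw y p) := by
  have h1 : pw (-y) p * pw y p = 1 := by
    rw [← pw_add, neg_add_cancel, pw_zero]
  have h2 : (starRingEnd ℂ) (pw y p) * pw y p = 1 := by
    rw [mul_comm, Complex.mul_conj, Complex.normSq_eq_norm_sq, norm_pw]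
    norm_num
  have h3 : pw y p ≠ 0 := by
    intro h
    rw [h, mul_zero] at h1
    exact zero_ne_one h1
  exact mul_right_cancel₀ h3 (h1.trans h2.symm)

end Pool.Agent.Work.MP_2b9663_nt
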