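import Pool.Agent.Work.MP_2b9663_nt.Ch.DefsTwist
import Pool.Agent.Work.MP_2b9663_nt.Ch.Arg
import Pool.Agent.Work.MP_2b9663_nt.Ch.Pw
import Pool.Agent.Work.MP_2b9663_nt.Euler

set_option autoImplicit false

/-!
The order of the continuation of an Euler product at any point of the line `Re s = i / 2 + 1`, and
the mean value of the twisted traces.
-/

namespace Pool.Agent.Work.MP_2b9663_nt

open Filter Topology Polynomial

namespace OC

/-- the traces twisted by `p ^ (-k i y)` -/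
noncomputable def tt (t : Nat.Primes → ℕ → ℂ) (y : ℝ) (p : Nat.Primes) (k : ℕ) : ℂ :=
  t p k * ((p : ℕ) : ℂ) ^ (-((k : ℂ) * (Complex.I * y)))

lemma norm_tt (t : Nat.Primes → ℕ → ℂ) (y : ℝ) (p : Nat.Primes) (k : ℕ) :
    ‖tt t y p k‖ = ‖t p k‖ := by
  rw [tt, norm_mul, Complex.norm_natCast_cpow_of_pos p.2.pos]
  have : (-((k : ℂ) * (Complex.I * y))).re = 0 := by simp
  rw [this, Real.rpow_zero, mul_one]

lemma weil_tt {G : Nat.Primes → Prop} {t : Nat.Primes → ℕ → ℂ} {i : ℕ} {B : ℝ}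
    (h : WeilBound G t i B) (y : ℝ) : WeilBound G (tt t y) i B := by
  intro p hp k hk
  rw [norm_tt]
  exact h p hp k hk

lemma nt_tt (G : Nat.Primes → Prop) (t : Nat.Primes → ℕ → ℂ) (i : ℕ) (y : ℝ) (p : Nat.Primes) :
    nt G (tt t y) i p = nt G t i p * pw y p := by
  unfold nt tt pw
  split_ifs with h
  · rw [Nat.cast_one, one_mul]
    ring
  · rw [zero_mul]

lemma logFactor_tt (t : Nat.Primes → ℕ → ℂ) (i : ℕ) (y ε : ℝ) (p : Nat.Primes) :
    logFactor (t p) p ((i : ℂ) / 2 + 1 + Complex.I * y + (ε : ℂ)) =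
      logFactor (tt t y p) p (sp i ε) := by
  unfold logFactor
  refine tsum_congr fun k => ?_
  have hp : ((p : ℕ) : ℂ) ≠ 0 := by exact_mod_cast p.2.ne_zero
  rw [tt, mul_assoc (t p (k + 1)), ← Complex.cpow_add _ _ hp]
  congr 3
  rw [sp]
  push_cast
  ring

lemma logFactor_cont {G : Nat.Primes → Prop} {t : Nat.Primes → ℕ → ℂ} {i : ℕ} {B : ℝ} (hB : 0 ≤ B)
    (h : WeilBound G t i B) {p : Nat.Primes} (hp : G p) :
    ContinuousOn (fun ε : ℝ => logFactor (t p) p (sp i ε)) (Set.Ioi 0) := by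
  have hx0 : (0 : ℝ) ≤ ((p : ℕ) : ℝ)⁻¹ := by positivity
  have hx1 : ((p : ℕ) : ℝ)⁻¹ < 1 := (inv_prime_le p).trans_lt (by norm_num)
  have hgeo := summable_geometric_of_lt_one hx0 hx1
  have hpc : ((p : ℕ) : ℂ) ≠ 0 := by exact_mod_cast p.2.ne_zero
  unfold logFactor
  refine continuousOn_tsum (u := fun k => B * (((p : ℕ) : ℝ)⁻¹) ^ (k + 1)) (fun k => ?_) ?_
    (fun k ε hε => term_le hB h hp hε k)
  · refine Continuous.continuousOn ?_
    refine (continuous_const.mul ?_).div_const _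
    refine Continuous.const_cpow ?_ (Or.inl hpc)
    unfold sp
    fun_prop
  · refine (hgeo.mul_left (B * ((p : ℕ) : ℝ)⁻¹)).congr fun k => ?_
    rw [pow_succ]
    ring

lemma norm_logFactor_le {G : Nat.Primes → Prop} {t : Nat.Primes → ℕ → ℂ} {i : ℕ} {B : ℝ}
    (hB : 0 ≤ B) (h : WeilBound G t i B) {p : Nat.Primes} (hp : G p) {δ ε : ℝ} (hδ : 0 < δ)
    (hε : δ ≤ ε) : ‖logFactor (t p) p (sp i ε)‖ ≤
      2 * B * ((p : ℕ) : ℝ) ^ (-2 : ℝ) + B * ((p : ℕ) : ℝ) ^ (-(1 + δ)) := by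
  have h1 := logFactor_sub hB h hp (hδ.trans_le hε)
  have hp1 : (1 : ℝ) ≤ ((p : ℕ) : ℝ) := by exact_mod_cast p.2.one_le
  have h2 : ‖nt G t i p * ((((p : ℕ) : ℝ) ^ (-(1 + ε)) : ℝ) : ℂ)‖ ≤
      B * ((p : ℕ) : ℝ) ^ (-(1 + δ)) := by
    rw [norm_mul, Complex.norm_real, Real.norm_of_nonneg (Real.rpow_nonneg (Nat.cast_nonneg _) _)]
    refine mul_le_mul (nt_norm_le hB h p) ?_ (Real.rpow_nonneg (Nat.cast_nonneg _) _) hB
    exact Real.rpow_le_rpow_of_exponent_le hp1 (by linarith)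
  calc ‖logFactor (t p) p (sp i ε)‖
      = ‖(logFactor (t p) p (sp i ε) - nt G t i p * ((((p : ℕ) : ℝ) ^ (-(1 + ε)) : ℝ) : ℂ)) +
        nt G t i p * ((((p : ℕ) : ℝ) ^ (-(1 + ε)) : ℝ) : ℂ)‖ := by rw [sub_add_cancel]
    _ ≤ _ := (norm_add_le _ _).trans (add_le_add h1 h2)

/-- the logarithm of the Euler product outside `T` -/
noncomputable def ZZ (t : Nat.Primes → ℕ → ℂ) (i : ℕ) (T : Finset Nat.Primes) (ε : ℝ) : ℂ :=
  ∑' p : {p : Nat.Primes // p ∉ T}, logFactor (t p) p (sp i ε)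

lemma ZZ_cont {G : Nat.Primes → Prop} {t : Nat.Primes → ℕ → ℂ} {i : ℕ} {B : ℝ} (hB : 0 ≤ B)
    (h : WeilBound G t i B) (T : Finset Nat.Primes) (hT : ∀ p, ¬ G p → p ∈ T) :
    ContinuousOn (ZZ t i T) (Set.Ioi 0) := by
  have hG : ∀ p : {p : Nat.Primes // p ∉ T}, G p := fun p => by
    by_contra hn
    exact p.2 (hT p hn)
  intro ε₀ hε₀
  have hε₀' : (0 : ℝ) < ε₀ := hε₀
  have h0 : ContinuousOn (ZZ t i T) (Set.Ioi (ε₀ / 2)) := by
    unfold ZZ
    refine continuousOn_tsum (u := fun p : {p : Nat.Primes // p ∉ T} =>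
      2 * B * ((p : ℕ) : ℝ) ^ (-2 : ℝ) + B * ((p : ℕ) : ℝ) ^ (-(1 + ε₀ / 2))) (fun p => ?_) ?_
      (fun p ε hε => norm_logFactor_le hB h (hG p) (half_pos hε₀') (le_of_lt hε))
    · exact (logFactor_cont hB h (hG p)).mono fun ε hε => (half_pos hε₀').trans hε
    · have h1 : Summable (fun p : Nat.Primes => ((p : ℕ) : ℝ) ^ (-(1 + ε₀ / 2))) :=
        Nat.Primes.summable_rpow.mpr (by linarith)
      exact ((P2_summable.mul_left (2 * B)).add (h1.mul_left B)).subtype _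
  exact (h0.continuousAt (Ioi_mem_nhds (by linarith))).continuousWithinAt

lemma ZZ_sub {G : Nat.Primes → Prop} {t : Nat.Primes → ℕ → ℂ} {i : ℕ} {B : ℝ} (hB : 0 ≤ B)
    (h : WeilBound G t i B) (T : Finset Nat.Primes) (hT : ∀ p, ¬ G p → p ∈ T) {ε : ℝ} (hε : 0 < ε) :
    ‖ZZ t i T ε - PSC (nt G t i) ε‖ ≤ 2 * B * P2 + T.card * B := by
  have hG : ∀ p : {p : Nat.Primes // p ∉ T}, G p := fun p => by
    by_contra hn
    exact p.2 (hT p hn)
  set w : Nat.Primes → ℂ := fun p => nt G t i p * ((((p : ℕ) : ℝ) ^ (-(1 + ε)) : ℝ) : ℂ) with hw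
  have hws : Summable w := PSC_summable ⟨B, nt_norm_le hB h⟩ hε
  have hvc : Summable (fun p : {p : Nat.Primes // p ∉ T} => w p) := hws.subtype _
  have hdiff : ∀ p : {p : Nat.Primes // p ∉ T},
      ‖logFactor (t p) p (sp i ε) - w p‖ ≤ 2 * B * ((p : ℕ) : ℝ) ^ (-2 : ℝ) :=
    fun p => logFactor_sub hB h (hG p) hε
  have hP2 : Summable (fun p : {p : Nat.Primes // p ∉ T} => 2 * B * ((p : ℕ) : ℝ) ^ (-2 : ℝ)) :=
    (P2_summable.mul_left (2 * B)).subtype _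
  have hds : Summable (fun p : {p : Nat.Primes // p ∉ T} =>
      logFactor (t p) p (sp i ε) - w p) := Summable.of_norm_bounded hP2 hdiff
  have e1 : ZZ t i T ε =
      (∑' p : {p : Nat.Primes // p ∉ T}, (logFactor (t p) p (sp i ε) - w p)) +
      ∑' p : {p : Nat.Primes // p ∉ T}, w p := by
    rw [ZZ, ← hds.tsum_add hvc]
    refine tsum_congr fun p => ?_
    ring
  have e2 : PSC (nt G t i) ε = ∑ p ∈ T, w p + ∑' p : {p : Nat.Primes // p ∉ T}, w p :=
    (hws.sum_add_tsum_subtype_compl T).symm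
  rw [e1, e2]
  have e3 : ∀ a b c : ℂ, a + b - (c + b) = a - c := fun a b c => by ring
  rw [e3]
  refine (norm_sub_le _ _).trans (add_le_add ?_ ?_)
  · refine (tsum_of_norm_bounded hP2.hasSum hdiff).trans ?_
    rw [P2, ← tsum_mul_left]
    refine (P2_summable.mul_left (2 * B)).tsum_subtype_le
      (fun p : Nat.Primes => 2 * B * ((p : ℕ) : ℝ) ^ (-2 : ℝ)) _ ?_
    intro p
    have : (0 : ℝ) ≤ ((p : ℕ) : ℝ) := Nat.cast_nonneg _
    positivity
  · refine (norm_sum_le _ _).trans ?_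
    rw [← nsmul_eq_mul]
    refine Finset.sum_le_card_nsmul _ _ _ fun p _ => ?_
    simp only [hw]
    rw [norm_mul, Complex.norm_real, Real.norm_of_nonneg (Real.rpow_nonneg (Nat.cast_nonneg _) _)]
    refine (mul_le_of_le_one_right (norm_nonneg _) ?_).trans (nt_norm_le hB h p)
    exact Real.rpow_le_one_of_one_le_of_nonpos (by exact_mod_cast p.2.one_le) (by linarith)

end OC

open OC

/-- **The order of the continuation and the mean value of the traces**, at any point of the line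
`Re s = i / 2 + 1`. -/
theorem order_c {G : Nat.Primes → Prop} {t : Nat.Primes → ℕ → ℂ} {i : ℕ} {B : ℝ}
    (hB : 0 ≤ B) (h : WeilBound G t i B) {F : ℂ → ℂ} (y : ℝ)
    (hF : IsEulerAt G t i ((i : ℂ) / 2 + 1 + Complex.I * y) F)
    (hm : MeromorphicAt F ((i : ℂ) / 2 + 1 + Complex.I * y)) :
    ∃ n : ℤ, meromorphicOrderAt F ((i : ℂ) / 2 + 1 + Complex.I * y) = n ∧
      MVC (fun p => nt G t i p * pw y p) (-(n : ℂ)) := by
  obtain ⟨T, Q, hT, hQ, hprod⟩ := hF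
  set s₁ : ℂ := (i : ℂ) / 2 + 1 + Complex.I * y with hs₁
  have hw : WeilBound G (tt t y) i B := weil_tt h y
  -- the factors at the exceptional primes
  set ψ : ℂ → ℂ := fun s => ∏ p ∈ T, ((Q p).eval (((p : ℕ) : ℂ) ^ (-s)))⁻¹ with hψ
  have hψ0 : ψ s₁ ≠ 0 := Finset.prod_ne_zero_iff.mpr fun p hp => inv_ne_zero (hQ p hp)
  -- a neighbourhood on which they do not vanish
  have hden : ∀ p ∈ T, Continuous (fun s : ℂ => (Q p).eval (((p : ℕ) : ℂ) ^ (-s))) := by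
    intro p _
    have hp0 : ((p : ℕ) : ℂ) ≠ 0 := by exact_mod_cast p.2.ne_zero
    refine (Q p).continuous.comp ?_
    exact Continuous.const_cpow (by fun_prop) (Or.inl hp0)
  have hψc : ∀ s : ℂ, (∀ p ∈ T, (Q p).eval (((p : ℕ) : ℂ) ^ (-s)) ≠ 0) → ContinuousAt ψ s := by
    intro s hs
    refine tendsto_finsetProd _ fun p hp => ?_
    exact ContinuousAt.inv₀ (hden p hp).continuousAt (hs p hp)
  have hpath : Tendsto (fun ε : ℝ => s₁ + (ε : ℂ)) (𝓝 0) (𝓝 s₁) := by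
    have h1 : Tendsto (fun ε : ℝ => s₁ + (ε : ℂ)) (𝓝 0) (𝓝 (s₁ + ((0 : ℝ) : ℂ))) :=
      Continuous.tendsto (by fun_prop) 0
    rwa [Complex.ofReal_zero, add_zero] at h1
  have h1 : ∀ᶠ ε : ℝ in 𝓝 0, (∀ p ∈ T, (Q p).eval (((p : ℕ) : ℂ) ^ (-(s₁ + (ε : ℂ)))) ≠ 0) ∧
      ‖ψ (s₁ + (ε : ℂ)) / ψ s₁ - 1‖ < 1 / 2 := by
    refine Filter.Eventually.and ?_ ?_
    · rw [Filter.eventually_all_finset]
      intro p hp
      exact hpath.eventually ((hden p hp).continuousAt.eventually_ne (hQ p hp))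
    · have h2 : Tendsto (fun ε : ℝ => ‖ψ (s₁ + (ε : ℂ)) / ψ s₁ - 1‖) (𝓝 0) (𝓝 0) := by
        have h3 := (((hψc s₁ hQ).tendsto.comp hpath).div_const (ψ s₁)).sub_const 1
        rw [div_self hψ0, sub_self] at h3
        simpa using h3.norm
      exact h2.eventually (gt_mem_nhds (by norm_num))
  rw [Metric.eventually_nhds_iff] at h1
  obtain ⟨δ, hδ, h1⟩ := h1
  have h1' : ∀ ε ∈ Set.Ioc (0 : ℝ) (δ / 2),
      (∀ p ∈ T, (Q p).eval (((p : ℕ) : ℂ) ^ (-(s₁ + (ε : ℂ)))) ≠ 0) ∧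
      ‖ψ (s₁ + (ε : ℂ)) / ψ s₁ - 1‖ < 1 / 2 := by
    intro ε hε
    refine h1 ?_
    rw [Real.dist_eq, sub_zero, abs_of_pos hε.1]
    linarith [hε.2]
  have hslit : ∀ ε ∈ Set.Ioc (0 : ℝ) (δ / 2), ψ (s₁ + (ε : ℂ)) / ψ s₁ ∈ Complex.slitPlane := by
    intro ε hε
    left
    have h2 := (Complex.abs_re_le_norm _).trans_lt (h1' ε hε).2
    rw [Complex.sub_re, Complex.one_re, abs_lt] at h2
    linarith [h2.1]
  -- the logarithm
  set Λ : ℝ → ℂ := fun ε => Complex.log (ψ s₁) + Complex.log (ψ (s₁ + (ε : ℂ)) / ψ s₁) +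
    ZZ (tt t y) i T ε with hΛ
  have hBD : BDC (nt G (tt t y) i) := ⟨B, nt_norm_le hB hw⟩
  obtain ⟨n, hn, hmv⟩ := MVC.of_meromorphic (c := nt G (tt t y) i) hBD hm (Λ := Λ)
    (C := ‖Complex.log (ψ s₁)‖ + 1 + (2 * B * P2 + T.card * B)) (half_pos hδ) (by
      refine (continuousOn_const.add ?_).add
        ((ZZ_cont hB hw T hT).mono fun ε hε => hε.1)
      refine ContinuousOn.clog ?_ hslit
      refine ContinuousOn.div_const ?_ _
      intro ε hε
      refine ContinuousAt.continuousWithinAt ?_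
      exact ContinuousAt.comp (g := ψ) (f := fun ε : ℝ => s₁ + (ε : ℂ)) (hψc _ (h1' ε hε).1)
        (by fun_prop)) (by
      intro ε hε
      have h2 : ψ (s₁ + (ε : ℂ)) / ψ s₁ ≠ 0 := Complex.slitPlane_ne_zero (hslit ε hε)
      simp only [hΛ]
      rw [Complex.exp_add, Complex.exp_add, Complex.exp_log hψ0, Complex.exp_log h2,
        mul_div_cancel₀ _ hψ0, hprod (s₁ + (ε : ℂ)) (by
          have : (s₁ + (ε : ℂ)).re = (i : ℝ) / 2 + 1 + ε := by
            rw [hs₁]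
            simp
          rw [this]
          linarith [hε.1])]
      congr 2
      rw [ZZ]
      exact tsum_congr fun p => (logFactor_tt t i y ε p).symm) (by
      intro ε hε
      have h2 := ZZ_sub hB hw T hT hε.1
      have h3 : ‖Complex.log (ψ (s₁ + (ε : ℂ)) / ψ s₁)‖ ≤ 1 := by
        have h4 := Complex.norm_log_one_add_half_le_self (z := ψ (s₁ + (ε : ℂ)) / ψ s₁ - 1)
          (h1' ε hε).2.le
        rw [add_sub_cancel] at h4
        linarith [(h1' ε hε).2]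
      simp only [hΛ]
      have h4 : Complex.log (ψ s₁) + Complex.log (ψ (s₁ + (ε : ℂ)) / ψ s₁) +
          ZZ (tt t y) i T ε - PSC (nt G (tt t y) i) ε = Complex.log (ψ s₁) +
          Complex.log (ψ (s₁ + (ε : ℂ)) / ψ s₁) +
          (ZZ (tt t y) i T ε - PSC (nt G (tt t y) i) ε) := by ring
      rw [h4]
      refine (norm_add_le _ _).trans (add_le_add ((norm_add_le _ _).trans ?_) h2)
      linarith)
  refine ⟨n, hn, ?_⟩
  exact hmv.congr ∅ fun p _ => nt_tt G t i y p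

end Pool.Agent.Work.MP_2b9663_nt
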