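import Pool.Agent.Work.MP_2b9663_nt.Ch.Assembly
import Pool.Agent.Work.MP_2b9663_nt.Ch.IndChar

set_option autoImplicit false

/-!
The order of the `L`-function of a twisted form, and the mean value of its traces.
-/

namespace Pool.Agent.Work.MP_2b9663_nt

open NumberField Filter Topology

section

variable {Ω : Type} [Field Ω] [CharZero Ω] [IsAlgClosure ℚ Ω]

omit [IsAlgClosure ℚ Ω] in
/-- the inertia groups at almost all primes are contained in the group of a Galois number field -/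
lemma inertia_almost (L : IntermediateField ℚ Ω) [NumberField L] [IsGalois ℚ L] :
    ∃ T : Finset Nat.Primes, ∀ p : Nat.Primes, p ∉ T → ∀ 𝔓 : Ideal (𝓞 Ω), 𝔓.IsPrime →
      ((p : ℕ) : 𝓞 Ω) ∈ 𝔓 → ∀ g : Ω ≃ₐ[ℚ] Ω, (∀ x : 𝓞 Ω, g • x - x ∈ 𝔓) →
        g ∈ L.fixingSubgroup := by
  obtain ⟨D, hD0, hD⟩ := exists_sep (⊤ : IntermediateField ℚ L)
  refine ⟨smallPrimes (D + 1), fun p hp 𝔓 h𝔓 hpm g hg => ?_⟩
  have hpr : Fact (p : ℕ).Prime := ⟨p.2⟩
  rw [← restrict_ker]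
  -- the prime ideal of `L`
  set P : Ideal (𝓞 L) := 𝔓.comap (algebraMap (𝓞 L) (𝓞 Ω)) with hP
  have hPp : P.IsPrime := Ideal.comap_isPrime _ _
  have hPm : ((p : ℕ) : 𝓞 L) ∈ P := by
    rw [hP, Ideal.mem_comap, map_natCast]
    exact hpm
  have hunder : P.under ℤ = Ideal.span {((p : ℕ) : ℤ)} := by
    have hmax : (Ideal.span {((p : ℕ) : ℤ)}).IsMaximal :=
      PrincipalIdealRing.isMaximal_of_irreducible (Nat.prime_iff_prime_int.mp p.2).irreducible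
    refine (hmax.eq_of_le (Ideal.comap_isPrime _ _).ne_top ?_).symm
    rw [Ideal.span_singleton_le_iff_mem]
    change algebraMap ℤ (𝓞 L) ((p : ℕ) : ℤ) ∈ P
    simpa using hPm
  obtain ⟨P₀, hP₀⟩ := frob_spec (L := L) p
  have hP₀p : P₀.IsPrime := hP₀.max.isPrime
  obtain ⟨σ, hσ⟩ := Algebra.IsInvariant.exists_smul_of_under_eq ℤ (𝓞 L) (L ≃ₐ[ℚ] L) P₀ P
    (hP₀.under_eq.trans hunder.symm)
  have hF := hP₀.conj σ
  rw [← hσ] at hF
  have h1 : redHom (⊤ : IntermediateField ℚ L) P (AlgEquiv.restrictNormalHom L g) =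
      redHom (⊤ : IntermediateField ℚ L) P 1 := by
    refine RingHom.ext fun y => ?_
    rw [redHom_apply, redHom_apply, one_smul, Ideal.Quotient.eq, hP, Ideal.mem_comap, map_sub]
    have h2 : algebraMap (𝓞 L) (𝓞 Ω) (AlgEquiv.restrictNormalHom L g •
        algebraMap (𝓞 (⊤ : IntermediateField ℚ L)) (𝓞 L) y) =
        g • algebraMap (𝓞 L) (𝓞 Ω) (algebraMap (𝓞 (⊤ : IntermediateField ℚ L)) (𝓞 L) y) := by
      apply RingOfIntegers.ext
      exact AlgEquiv.restrictNormal_commutes g L _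
    rw [h2]
    exact hg _
  have h2 := hD (p : ℕ) _ P hF (not_dvd_of_big hD0 hp) _ _ h1
  rw [mul_one, IntermediateField.fixingSubgroup_top, Subgroup.mem_bot, inv_eq_one] at h2
  exact h2

/-- a twist is unramified outside a finite set of primes -/
lemma TwistHom.unr_almost {K : IntermediateField ℚ Ω} [NumberField K] {A : Type} [Group A]
    (ξ : TwistHom K A) : ∃ T : Finset Nat.Primes, ∀ p : Nat.Primes, p ∉ T → ξ.Unr (p : ℕ) := by
  obtain ⟨M, hM, hξ⟩ := ξ.level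
  have hKM : FiniteDimensional ℚ (K ⊔ M : IntermediateField ℚ Ω) :=
    IntermediateField.finiteDimensional_sup K M
  have h1 : NumberField (K ⊔ M : IntermediateField ℚ Ω) := ⟨⟩
  have h2 : NumberField (NC (K ⊔ M)) := nc_nf _
  have h3 : IsGalois ℚ (NC (K ⊔ M)) := nc_gal _
  have hle : K ⊔ M ≤ NC (K ⊔ M) := le_nc _
  obtain ⟨T, hT⟩ := inertia_almost (NC (K ⊔ M))
  refine ⟨T, fun p hp 𝔓 h𝔓 hpm g hg => ?_⟩
  have h4 := hT p hp 𝔓 h𝔓 hpm g hg
  exact ⟨IntermediateField.fixingSubgroup_le (le_sup_left.trans hle) h4,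
    hξ ⟨g, _⟩ (IntermediateField.fixingSubgroup_le (le_sup_right.trans hle) h4)⟩

omit [IsAlgClosure ℚ Ω] in
lemma fixEmb_inv (K : Type) [Field K] (g : Ω ≃ₐ[ℚ] Ω) : fixEmb K Ω g⁻¹ = fixEmb K Ω g := by
  unfold fixEmb
  refine Nat.card_congr (Equiv.subtypeEquivRight fun σ => forall_congr' fun x => ?_)
  constructor
  · intro h
    have h1 := congrArg g h
    exact h1.symm.trans (AlgEquiv.apply_symm_apply g _)
  · intro h
    have h1 := congrArg g.symm h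
    exact h1.symm.trans (AlgEquiv.symm_apply_apply g _)

/-- the induced character at the inverse of a Frobenius element does not depend on the choice of
this element -/
lemma indChar_isFrob {K : IntermediateField ℚ Ω} [NumberField K] {A : Type} [Group A]
    (ξ : TwistHom K A) {χ : A → ℂ} (hχ : IsCl χ) : ∃ T : Finset Nat.Primes,
    ∀ p, p ∉ T → ∀ g g' : Ω ≃ₐ[ℚ] Ω, IsFrob (p : ℕ) g → IsFrob (p : ℕ) g' →
      indChar ξ χ g⁻¹ = indChar ξ χ g'⁻¹ := by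
  obtain ⟨L, hL1, hL2, -, hL⟩ := exists_lvl_indChar ξ
  have hcl := isCl_indChar ξ hχ
  refine classFn_isFrob (L := L) (f := fun g => indChar ξ χ g⁻¹) ?_ ?_
  · intro g h hh
    beta_reduce
    have h1 := hcl g⁻¹ (g⁻¹ * h⁻¹)
    have h2 : (g * h)⁻¹ = h⁻¹ * g⁻¹ := mul_inv_rev g h
    have h3 := hcl h⁻¹ (g⁻¹ * h⁻¹)
    have h4 : h⁻¹ * (g⁻¹ * h⁻¹) * (h⁻¹)⁻¹ = h⁻¹ * g⁻¹ := by group
    rw [h4] at h3
    rw [h2, h3]
    exact hL χ hχ g⁻¹ h⁻¹ (L.fixingSubgroup.inv_mem hh)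
  · intro x g
    beta_reduce
    have h1 := hcl x g⁻¹
    have h2 : (x * g * x⁻¹)⁻¹ = x * g⁻¹ * x⁻¹ := by group
    rw [h2, h1]

section

variable {G : Nat.Primes → Prop} {t₀ : Nat.Primes → ℕ → ℂ} {i : ℕ}

/-- the order of the `L`-function of a twisted form -/
theorem order_form (Fr : Nat.Primes → (Ω ≃ₐ[ℚ] Ω))
    (hFr : ∀ p : Nat.Primes, IsFrob (p : ℕ) (Fr p)) {κ : Type} [Fintype κ]
    {t : κ → Nat.Primes → ℕ → ℂ} {b₀ : ℕ} {d : κ → ℕ} (h₀ : WeilBound G t₀ i b₀)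
    (h : ∀ j, WeilBound G (t j) i (d j)) {A : Type} [Group A] [Finite A] {χ : κ → A → ℂ}
    (hχ : ∀ j, IsCl (χ j)) {K : IntermediateField ℚ Ω} [NumberField K] (ξ : TwistHom K A)
    {F : ℂ → ℂ} (hF : IsFormContinuation G t₀ t χ i ξ F) :
    ∃ m : ℤ, meromorphicOrderAt F ((i : ℂ) / 2 + 1) = m ∧
      MVC (fun p => nt G t₀ i p * fixEmb K Ω (Fr p) +
        ∑ j, nt G (t j) i p * indChar ξ (χ j) (Fr p)⁻¹) (-(m : ℂ)) := by
  classical
  obtain ⟨⟨Fr', hFr', hE⟩, hmer⟩ := hF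
  have hfin : Fintype A := Fintype.ofFinite A
  -- bounds
  have hb : ∀ χ' : A → ℂ, ∃ C : ℝ, 0 ≤ C ∧ ∀ g, ‖indChar ξ χ' g‖ ≤ C := fun χ' =>
    ⟨Module.finrank ℚ K * ∑ x, ‖χ' x‖,
      mul_nonneg (Nat.cast_nonneg _) (Finset.sum_nonneg fun _ _ => norm_nonneg _),
      fun g => norm_indChar_le ξ (fun x => Finset.single_le_sum (f := fun x => ‖χ' x‖)
        (fun _ _ => norm_nonneg _) (Finset.mem_univ x)) g⟩
  choose C hC0 hC using fun j => hb (χ j)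
  obtain ⟨C₀, hC₀0, hC₀⟩ := hb (fun _ => 1)
  set W : Nat.Primes → ℕ → ℂ := fun p k => indChar ξ (fun _ => 1) (Fr' p ^ k) * t₀ p k +
    ∑ j, indChar ξ (χ j) (Fr' p ^ k) * t j p k with hWdef
  have hw : WeilBound (fun p => G p ∧ ξ.Unr (p : ℕ)) W i (C₀ * b₀ + ∑ j, C j * d j) := by
    intro p hp k hk
    have e1 : (C₀ * b₀ + ∑ j, C j * (d j : ℝ)) * Real.sqrt (((p : ℕ) : ℝ) ^ k) ^ i =
        C₀ * (b₀ * Real.sqrt (((p : ℕ) : ℝ) ^ k) ^ i) +
          ∑ j, C j * (d j * Real.sqrt (((p : ℕ) : ℝ) ^ k) ^ i) := by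
      rw [add_mul, Finset.sum_mul]
      congr 1
      · ring
      · exact Finset.sum_congr rfl fun j _ => by ring
    rw [e1, hWdef]
    refine (norm_add_le _ _).trans (add_le_add ?_ ((norm_sum_le _ _).trans
      (Finset.sum_le_sum fun j _ => ?_)))
    · rw [norm_mul]
      exact mul_le_mul (hC₀ _) (h₀ p hp.1 k hk) (norm_nonneg _) hC₀0
    · rw [norm_mul]
      exact mul_le_mul (hC j _) (h j p hp.1 k hk) (norm_nonneg _) (hC0 j)
  have hB : 0 ≤ C₀ * (b₀ : ℝ) + ∑ j, C j * (d j : ℝ) :=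
    add_nonneg (mul_nonneg hC₀0 (Nat.cast_nonneg _))
      (Finset.sum_nonneg fun j _ => mul_nonneg (hC0 j) (Nat.cast_nonneg _))
  have hs : (i : ℂ) / 2 + 1 + Complex.I * ((0 : ℝ) : ℂ) = (i : ℂ) / 2 + 1 := by
    rw [Complex.ofReal_zero, mul_zero, add_zero]
  obtain ⟨n, hn, hmv⟩ := order_c (y := 0) hB hw (F := F) (by rw [hs]; exact hE)
    (by rw [hs]; exact hmer)
  rw [hs] at hn
  refine ⟨n, hn, ?_⟩
  -- the exceptional primes
  obtain ⟨T, hT⟩ := ξ.unr_almost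
  obtain ⟨T₀, hT₀⟩ := indChar_isFrob ξ (χ := fun _ => 1) (fun _ _ => rfl)
  choose Tj hTj using fun j => indChar_isFrob ξ (hχ j)
  refine hmv.congr (T ∪ T₀ ∪ Finset.univ.biUnion Tj) fun p hp => ?_
  simp only [Finset.mem_union, not_or, Finset.mem_biUnion, Finset.mem_univ, true_and,
    not_exists] at hp
  obtain ⟨⟨hp1, hp2⟩, hp3⟩ := hp
  rw [pw_zero, mul_one]
  have e0 : indChar ξ (fun _ => 1) (Fr' p) = fixEmb K Ω (Fr p) := by
    have h1 := hT₀ p hp2 _ _ (hFr' p) (hFr p)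
    rw [inv_inv] at h1
    rw [h1, indChar_one, fixEmb_inv]
  have ej : ∀ j, indChar ξ (χ j) (Fr' p) = indChar ξ (χ j) (Fr p)⁻¹ := by
    intro j
    have h1 := hTj j p (hp3 j) _ _ (hFr' p) (hFr p)
    rwa [inv_inv] at h1
  unfold nt
  by_cases hG : G p
  · rw [if_pos ⟨hG, hT p hp1⟩, if_pos hG, hWdef]
    simp only [if_pos hG, pow_one, e0, ej]
    rw [add_div, Finset.sum_div]
    congr 1
    · ring
    · exact Finset.sum_congr rfl fun j _ => by ring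
  · rw [if_neg fun hcon => hG hcon.1, if_neg hG]
    simp only [if_neg hG, zero_mul, Finset.sum_const_zero, add_zero]

/-- the fixed part -/
theorem mvc_of_fixedOrder (Fr : Nat.Primes → (Ω ≃ₐ[ℚ] Ω))
    (hFr : ∀ p : Nat.Primes, IsFrob (p : ℕ) (Fr p)) {b₀ : ℕ} (h₀ : WeilBound G t₀ i b₀)
    {K : IntermediateField ℚ Ω} [NumberField K] {m : ℤ} (hm : IsFixedOrder G t₀ i K m)
    (hG : ∃ T : Finset Nat.Primes, ∀ p, ¬ G p → p ∈ T) :
    MVC (fun p => nt G t₀ i p * fixEmb K Ω (Fr p)) (-(m : ℂ)) := by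
  classical
  obtain ⟨T, hT⟩ := idc_isFrob K
  rcases hm with ⟨F, hF, hord⟩ | ⟨b₁, hb₁, rfl⟩
  · obtain ⟨n, hn, hmv⟩ := order_artinBase (Nat.cast_nonneg b₀) h₀ hF
    have h1 : n = m := by
      have h2 := hn.symm.trans hord
      exact_mod_cast h2
    subst h1
    refine hmv.congr T fun p hp => ?_
    rw [hT p hp (Fr p) (hFr p), mul_comm]
  · obtain ⟨T', hT'⟩ := hG
    have h1 := ((MV_idc (K := K)).toMVC).const_mul (b₁ : ℂ)
    have h2 : (b₁ : ℂ) * ((1 : ℝ) : ℂ) = -((-(b₁ : ℤ) : ℤ) : ℂ) := by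
      push_cast
      ring
    rw [h2] at h1
    refine h1.congr (T ∪ T') fun p hp => ?_
    rw [Finset.mem_union, not_or] at hp
    have hGp : G p := by
      by_contra hn
      exact hp.2 (hT' p hn)
    have h3 := hb₁ p hGp 1 one_ne_zero
    have h4 : ((Real.sqrt ((p : ℕ) : ℝ) ^ i : ℝ) : ℂ) ≠ 0 := by
      have h5 : (0 : ℝ) < ((p : ℕ) : ℝ) := by exact_mod_cast p.2.pos
      have h6 : 0 < Real.sqrt ((p : ℕ) : ℝ) ^ i := pow_pos (Real.sqrt_pos.2 h5) i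
      exact_mod_cast h6.ne'
    rw [pow_one] at h3
    unfold nt
    rw [if_pos hGp, h3, ← hT p hp.1 (Fr p) (hFr p)]
    push_cast at h4 ⊢
    rw [mul_div_assoc, div_self h4, mul_one]

end

end

end Pool.Agent.Work.MP_2b9663_nt
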