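import Pool.Agent.Work.MP_2b9663_nt.Perm

set_option autoImplicit false

/-!
Complex matrix representations of a finite group: characters, Schur orthogonality, completeness of
the irreducible characters, permutation characters.
-/

namespace Pool.Agent.Work.MP_2b9663_nt.Reps

open Finset Representation Matrix ComplexOrder

section

variable {G : Type*} [Group G]

/-- the character of a complex matrix representation -/
noncomputable def chi {n : ℕ} (ρ : G →* GL (Fin n) ℂ) (g : G) : ℂ :=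
  Matrix.trace ((ρ g : GL (Fin n) ℂ) : Matrix (Fin n) (Fin n) ℂ)

/-- the complex matrix representation `ρ` is irreducible -/
def Irr {n : ℕ} (ρ : G →* GL (Fin n) ℂ) : Prop :=
  0 < n ∧ ∀ W : Submodule ℂ (Fin n → ℂ),
    (∀ g, ∀ v ∈ W, ((ρ g : GL (Fin n) ℂ) : Matrix (Fin n) (Fin n) ℂ) *ᵥ v ∈ W) → W = ⊥ ∨ W = ⊤

/-- the representation on `ℂ^n` -/
noncomputable def rep {n : ℕ} (ρ : G →* GL (Fin n) ℂ) : Representation ℂ G (Fin n → ℂ) :=
  ((Matrix.toLinAlgEquiv' (R := ℂ) (n := Fin n)).toAlgHom : _ →* _).comp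
    ((Units.coeHom (Matrix (Fin n) (Fin n) ℂ)).comp ρ)

lemma rep_apply {n : ℕ} (ρ : G →* GL (Fin n) ℂ) (g : G) (v : Fin n → ℂ) :
    rep ρ g v = ((ρ g : GL (Fin n) ℂ) : Matrix (Fin n) (Fin n) ℂ) *ᵥ v := rfl

lemma character_rep {n : ℕ} (ρ : G →* GL (Fin n) ℂ) : (rep ρ).character = chi ρ := by
  funext g
  unfold Representation.character chi
  exact Matrix.trace_toLin'_eq _

lemma irr_iff {n : ℕ} (ρ : G →* GL (Fin n) ℂ) : Irr ρ ↔ (rep ρ).IsIrreducible := by
  constructor
  · rintro ⟨hn, h⟩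
    have hne : Nonempty (Fin n) := ⟨⟨0, hn⟩⟩
    refine { exists_pair_ne := ⟨⊥, ⊤, fun h1 => ?_⟩, eq_bot_or_eq_top := fun W => ?_ }
    · have h2 : (⊥ : Submodule ℂ (Fin n → ℂ)) = ⊤ := congrArg Subrepresentation.toSubmodule h1
      exact bot_ne_top h2
    · rcases h W.toSubmodule (fun g v hv => W.apply_mem_toSubmodule g hv) with h1 | h1
      · exact Or.inl (Subrepresentation.toSubmodule_injective h1)
      · exact Or.inr (Subrepresentation.toSubmodule_injective h1)
  · intro h
    refine ⟨?_, fun W hW => ?_⟩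
    · rcases Nat.eq_zero_or_pos n with rfl | hn
      · obtain ⟨x, y, hxy⟩ := h.exists_pair_ne
        exfalso
        apply hxy
        apply Subrepresentation.toSubmodule_injective
        exact Subsingleton.elim _ _
      · exact hn
    · rcases h.eq_bot_or_eq_top ⟨W, fun g v hv => hW g v hv⟩ with h1 | h1
      · exact Or.inl (congrArg Subrepresentation.toSubmodule h1)
      · exact Or.inr (congrArg Subrepresentation.toSubmodule h1)

lemma chi_conj {n : ℕ} (ρ : G →* GL (Fin n) ℂ) (x g : G) : chi ρ (x * g * x⁻¹) = chi ρ g := by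
  rw [← character_rep]
  exact Representation.char_conj _ _ _

lemma chi_one {n : ℕ} (ρ : G →* GL (Fin n) ℂ) : chi ρ 1 = n := by
  unfold chi
  simp

/-- the character at an inverse -/
lemma chi_inv [Finite G] {n : ℕ} (ρ : G →* GL (Fin n) ℂ) (g : G) :
    chi ρ g⁻¹ = (starRingEnd ℂ) (chi ρ g) := by
  classical
  have : Fintype G := Fintype.ofFinite G
  set A : G → Matrix (Fin n) (Fin n) ℂ := fun g => ((ρ g : GL (Fin n) ℂ) : Matrix (Fin n) (Fin n) ℂ)
    with hA
  have hmul : ∀ x y, A (x * y) = A x * A y := fun x y => by simp [hA]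
  have hone : A 1 = 1 := by simp [hA]
  set H : Matrix (Fin n) (Fin n) ℂ := ∑ x : G, (A x)ᴴ * A x with hH
  have hpos : H.PosDef := by
    rw [hH, ← Finset.add_sum_erase _ _ (Finset.mem_univ (1 : G))]
    refine Matrix.PosDef.add_posSemidef ?_ ?_
    · rw [hone]
      simpa using (Matrix.PosDef.one : (1 : Matrix (Fin n) (Fin n) ℂ).PosDef)
    · exact Matrix.posSemidef_sum _ fun x _ => Matrix.posSemidef_conjTranspose_mul_self _
  have hinv : (A g)ᴴ * H * A g = H := by
    rw [hH, Finset.mul_sum, Finset.sum_mul, ← Equiv.sum_comp (Equiv.mulRight g) (fun x => (A x)ᴴ * A x)]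
    refine Finset.sum_congr rfl fun x _ => ?_
    have h1 : A ((Equiv.mulRight g) x) = A x * A g := hmul x g
    rw [h1, Matrix.conjTranspose_mul]
    simp only [Matrix.mul_assoc]
  have hdet : IsUnit H.det := (Matrix.isUnit_iff_isUnit_det H).1 hpos.isUnit
  have hgi : A g * A g⁻¹ = 1 := by rw [← hmul, mul_inv_cancel, hone]
  have h2 : A g⁻¹ = H⁻¹ * (A g)ᴴ * H := by
    have h3 : (A g)ᴴ * H = H * A g⁻¹ := by
      calc (A g)ᴴ * H = (A g)ᴴ * H * (A g * A g⁻¹) := by rw [hgi, Matrix.mul_one]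
        _ = ((A g)ᴴ * H * A g) * A g⁻¹ := by simp only [Matrix.mul_assoc]
        _ = H * A g⁻¹ := by rw [hinv]
    rw [Matrix.mul_assoc, h3, ← Matrix.mul_assoc, Matrix.nonsing_inv_mul _ hdet, Matrix.one_mul]
  have h4 : chi ρ g⁻¹ = Matrix.trace (A g⁻¹) := rfl
  rw [h4, h2, Matrix.trace_mul_comm, ← Matrix.mul_assoc, Matrix.mul_nonsing_inv _ hdet,
    Matrix.one_mul, Matrix.trace_conjTranspose]
  rfl

/-- the matrix form of a representation in a basis -/
noncomputable def ofRep {V : Type*} [AddCommGroup V] [Module ℂ V] {n : ℕ}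
    (b : Module.Basis (Fin n) ℂ V) (σ : Representation ℂ G V) : G →* GL (Fin n) ℂ :=
  MonoidHom.toHomUnits (((LinearMap.toMatrixAlgEquiv b).toAlgHom : _ →* _).comp σ)

lemma coe_ofRep {V : Type*} [AddCommGroup V] [Module ℂ V] {n : ℕ}
    (b : Module.Basis (Fin n) ℂ V) (σ : Representation ℂ G V) (g : G) :
    ((ofRep b σ g : GL (Fin n) ℂ) : Matrix (Fin n) (Fin n) ℂ) = LinearMap.toMatrix b b (σ g) := rfl

lemma rep_ofRep {V : Type*} [AddCommGroup V] [Module ℂ V] {n : ℕ}
    (b : Module.Basis (Fin n) ℂ V) (σ : Representation ℂ G V) (g : G) (v : V) :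
    rep (ofRep b σ) g (b.equivFun v) = b.equivFun (σ g v) := by
  rw [rep_apply, coe_ofRep]
  exact LinearMap.toMatrix_mulVec_repr b b (σ g) v

lemma chi_ofRep {V : Type*} [AddCommGroup V] [Module ℂ V] {n : ℕ}
    (b : Module.Basis (Fin n) ℂ V) (σ : Representation ℂ G V) : chi (ofRep b σ) = σ.character := by
  funext g
  unfold chi Representation.character
  rw [coe_ofRep, ← LinearMap.trace_eq_matrix_trace]

/-- `ρ` is the direct sum of `σ` and `τ` -/
def IsSum {n m k : ℕ} (ρ : G →* GL (Fin n) ℂ) (σ : G →* GL (Fin m) ℂ) (τ : G →* GL (Fin k) ℂ) :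
    Prop :=
  ∃ e : (Fin n → ℂ) ≃ₗ[ℂ] (Fin m → ℂ) × (Fin k → ℂ), ∀ g v,
    e (rep ρ g v) = (rep σ g (e v).1, rep τ g (e v).2)

lemma chi_isSum {n m k : ℕ} {ρ : G →* GL (Fin n) ℂ} {σ : G →* GL (Fin m) ℂ}
    {τ : G →* GL (Fin k) ℂ} (h : IsSum ρ σ τ) (g : G) : chi ρ g = chi σ g + chi τ g := by
  obtain ⟨e, he⟩ := h
  rw [← character_rep, ← character_rep, ← character_rep]
  unfold Representation.character
  rw [← LinearMap.trace_prodMap', ← LinearMap.trace_conj' (rep ρ g) e]
  congr 1
  refine LinearMap.ext fun w => ?_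
  obtain ⟨v, rfl⟩ := e.surjective w
  rw [LinearEquiv.conj_apply_apply, LinearEquiv.symm_apply_apply, he]
  rfl

/-- induction on representations -/
theorem rep_induction [Finite G] {P : ∀ n : ℕ, (G →* GL (Fin n) ℂ) → Prop}
    (h0 : ∀ ρ : G →* GL (Fin 0) ℂ, P 0 ρ)
    (hirr : ∀ (n : ℕ) (ρ : G →* GL (Fin n) ℂ), Irr ρ → P n ρ)
    (hsum : ∀ (n m k : ℕ) (ρ : G →* GL (Fin n) ℂ) (σ : G →* GL (Fin m) ℂ) (τ : G →* GL (Fin k) ℂ),
      IsSum ρ σ τ → P m σ → P k τ → P n ρ) (n : ℕ) (ρ : G →* GL (Fin n) ℂ) : P n ρ := by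
  induction n using Nat.strong_induction_on with
  | _ n ih =>
    rcases Nat.eq_zero_or_pos n with rfl | hn
    · exact h0 ρ
    · by_cases hρ : Irr ρ
      · exact hirr n ρ hρ
      · have : ∃ W : Submodule ℂ (Fin n → ℂ), (∀ g, ∀ v ∈ W, ((ρ g : GL (Fin n) ℂ) :
            Matrix (Fin n) (Fin n) ℂ) *ᵥ v ∈ W) ∧ W ≠ ⊥ ∧ W ≠ ⊤ := by
          by_contra hcon
          push Not at hcon
          refine hρ ⟨hn, fun W hW => ?_⟩
          by_cases h1 : W = ⊥
          · exact Or.inl h1
          · exact Or.inr (hcon W hW h1)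
        obtain ⟨W₀, hW, hb, ht⟩ := this
        have : NeZero (Nat.card G : ℂ) := ⟨by exact_mod_cast Nat.card_pos.ne'⟩
        set W : Subrepresentation (rep ρ) := ⟨W₀, fun g v hv => hW g v hv⟩ with hWdef
        obtain ⟨W', hc⟩ := exists_isCompl W
        have hc' : IsCompl W₀ W'.toSubmodule := by
          constructor
          · rw [Submodule.disjoint_def]
            intro x hx hx'
            have h1 : x ∈ (W ⊓ W').toSubmodule := ⟨hx, hx'⟩
            rw [hc.inf_eq_bot] at h1
            exact h1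
          · rw [codisjoint_iff]
            have h1 : (W ⊔ W').toSubmodule = ⊤ := by rw [hc.sup_eq_top]; rfl
            exact h1
        set b := Module.finBasis ℂ W₀ with hbb
        set b' := Module.finBasis ℂ W'.toSubmodule with hbb'
        have hdim := Submodule.finrank_add_eq_of_isCompl hc'
        have hn' : Module.finrank ℂ (Fin n → ℂ) = n := by simp
        rw [hn'] at hdim
        have hpos : 0 < Module.finrank ℂ W₀ := by
          rw [Module.finrank_pos_iff, Submodule.nontrivial_iff_ne_bot]; exact hb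
        have hpos' : 0 < Module.finrank ℂ W'.toSubmodule := by
          rw [Module.finrank_pos_iff, Submodule.nontrivial_iff_ne_bot]
          intro h1
          rw [h1] at hc'
          exact ht (by simpa using hc'.sup_eq_top)
        refine hsum n _ _ ρ (ofRep b W.toRepresentation) (ofRep b' W'.toRepresentation) ?_
          (ih _ (by omega) _) (ih _ (by omega) _)
        refine ⟨(Submodule.prodEquivOfIsCompl _ _ hc').symm ≪≫ₗ (b.equivFun.prodCongr b'.equivFun),
          fun g v => ?_⟩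
        obtain ⟨⟨w, w'⟩, rfl⟩ := (Submodule.prodEquivOfIsCompl _ _ hc').surjective v
        have h1 : rep ρ g ((Submodule.prodEquivOfIsCompl _ _ hc') (w, w')) =
            (Submodule.prodEquivOfIsCompl _ _ hc') (W.toRepresentation g w,
              W'.toRepresentation g w') := by
          simp only [Submodule.coe_prodEquivOfIsCompl', map_add]
          rfl
        rw [h1]
        simp only [LinearEquiv.trans_apply, LinearEquiv.symm_apply_apply,
          LinearEquiv.prodCongr_apply]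
        rw [rep_ofRep, rep_ofRep]

/-- an endomorphism commuting with an irreducible representation is a scalar -/
lemma schur {n : ℕ} {ρ : G →* GL (Fin n) ℂ} (hρ : Irr ρ) (A : (Fin n → ℂ) →ₗ[ℂ] (Fin n → ℂ))
    (hA : ∀ g v, A (rep ρ g v) = rep ρ g (A v)) : ∃ c : ℂ, A = c • LinearMap.id := by
  have h1 := (irr_iff ρ).1 hρ
  obtain ⟨c, hc⟩ := (IsIrreducible.algebraMap_intertwiningMap_bijective_of_isAlgClosed
    (ρ := rep ρ)).2 (A.intertwiningMap_of_isIntertwiningMap (rep ρ) (rep ρ) hA)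
  refine ⟨c, LinearMap.ext fun v => ?_⟩
  have h2 := congrArg (fun f : IntertwiningMap (rep ρ) (rep ρ) => f v) hc
  simp only [Algebra.algebraMap_eq_smul_one] at h2
  exact h2.symm

section fin

variable [Fintype G]

/-- the inner product of functions on the group -/
noncomputable def ip (f h : G → ℂ) : ℂ := (∑ g, f g * (starRingEnd ℂ) (h g)) / Fintype.card G

/-- the operator attached to a function on the group -/
noncomputable def opOf (f : G → ℂ) {n : ℕ} (ρ : G →* GL (Fin n) ℂ) :
    (Fin n → ℂ) →ₗ[ℂ] (Fin n → ℂ) := ∑ g, f g • rep ρ g⁻¹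

lemma opOf_apply (f : G → ℂ) {n : ℕ} (ρ : G →* GL (Fin n) ℂ) (v : Fin n → ℂ) :
    opOf f ρ v = ∑ g, f g • rep ρ g⁻¹ v := by
  unfold opOf
  rw [LinearMap.sum_apply]
  rfl

lemma opOf_comm {f : G → ℂ} (hf : ∀ x g, f (x * g * x⁻¹) = f g) {n : ℕ} (ρ : G →* GL (Fin n) ℂ)
    (x : G) (v : Fin n → ℂ) : opOf f ρ (rep ρ x v) = rep ρ x (opOf f ρ v) := by
  rw [opOf_apply, opOf_apply, map_sum, ← Equiv.sum_comp (MulAut.conj x).toEquiv]
  refine Finset.sum_congr rfl fun g _ => ?_
  have h1 : (MulAut.conj x).toEquiv g = x * g * x⁻¹ := rfl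
  rw [h1, hf, map_smul]
  congr 1
  have h2 : ∀ a b : G, rep ρ a (rep ρ b v) = rep ρ (a * b) v := fun a b => by
    rw [map_mul]; rfl
  rw [h2, h2]
  congr 2
  group

lemma opOf_eq_zero {f : G → ℂ} (hf : ∀ x g, f (x * g * x⁻¹) = f g)
    (h0 : ∀ (n : ℕ) (ρ : G →* GL (Fin n) ℂ), Irr ρ → ∑ g, f g * chi ρ g⁻¹ = 0)
    (n : ℕ) (ρ : G →* GL (Fin n) ℂ) : opOf f ρ = 0 := by
  refine rep_induction (P := fun n ρ => opOf f ρ = 0) (fun ρ => ?_) (fun n ρ hρ => ?_)
    (fun n m k ρ σ τ hs hσ hτ => ?_) n ρ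
  · exact LinearMap.ext fun v => Subsingleton.elim _ _
  · obtain ⟨c, hc⟩ := schur hρ (opOf f ρ) fun g v => opOf_comm hf ρ g v
    have h1 : LinearMap.trace ℂ (Fin n → ℂ) (opOf f ρ) = 0 := by
      unfold opOf
      rw [map_sum, ← h0 n ρ hρ]
      refine Finset.sum_congr rfl fun g _ => ?_
      rw [map_smul, smul_eq_mul]
      congr 1
      exact congrFun (character_rep ρ) g⁻¹
    rw [hc, map_smul, smul_eq_mul, LinearMap.trace_id, Module.finrank_fin_fun, mul_eq_zero] at h1
    rcases h1 with h1 | h1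
    · rw [hc, h1, zero_smul]
    · exact absurd (by exact_mod_cast h1 : n = 0) hρ.1.ne'
  · obtain ⟨e, he⟩ := hs
    refine LinearMap.ext fun v => ?_
    apply e.injective
    rw [opOf_apply, map_sum, LinearMap.zero_apply, map_zero]
    have h1 : ∀ g, e (f g • rep ρ g⁻¹ v) = (f g • rep σ g⁻¹ (e v).1, f g • rep τ g⁻¹ (e v).2) := by
      intro g
      rw [map_smul, he]
      rfl
    rw [Finset.sum_congr rfl fun g _ => h1 g]
    refine Prod.ext ?_ ?_
    · rw [Prod.fst_sum]
      exact (opOf_apply f σ _).symm.trans (by rw [hσ]; rfl)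
    · rw [Prod.snd_sum]
      exact (opOf_apply f τ _).symm.trans (by rw [hτ]; rfl)

end fin

/-- the permutation representation on the functions on a `G`-set -/
noncomputable def permRep (X : Type*) [MulAction G X] : Representation ℂ G (X → ℂ) where
  toFun g := LinearMap.funLeft ℂ ℂ fun x => g⁻¹ • x
  map_one' := by
    refine LinearMap.ext fun f => funext fun x => ?_
    simp [LinearMap.funLeft_apply]
  map_mul' g h := by
    refine LinearMap.ext fun f => funext fun x => ?_
    simp [LinearMap.funLeft_apply, mul_smul]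

lemma permRep_apply (X : Type*) [MulAction G X] (g : G) (f : X → ℂ) (x : X) :
    permRep X g f x = f (g⁻¹ • x) := rfl

lemma character_permRep (X : Type*) [MulAction G X] [Finite X] (g : G) :
    (permRep X).character g = (Nat.card (MulAction.fixedBy X g) : ℂ) := by
  classical
  have : Fintype X := Fintype.ofFinite X
  unfold Representation.character
  rw [LinearMap.trace_eq_matrix_trace ℂ (Pi.basisFun ℂ X), Matrix.trace]
  have h1 : ∀ x : X, (LinearMap.toMatrix (Pi.basisFun ℂ X) (Pi.basisFun ℂ X) (permRep X g)).diag x =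
      if g • x = x then 1 else 0 := by
    intro x
    rw [Matrix.diag_apply, LinearMap.toMatrix_apply, Pi.basisFun_repr, permRep_apply,
      Pi.basisFun_apply, Pi.single_apply]
    have h2 : g⁻¹ • x = x ↔ g • x = x := by rw [inv_smul_eq_iff, eq_comm]
    simp only [h2]
  rw [Finset.sum_congr rfl fun x _ => h1 x, Finset.sum_boole, Nat.card_eq_fintype_card,
    Fintype.card_subtype]
  rfl

section fin

variable [Fintype G]

omit [Group G] in
lemma ip_add_left (f f' h : G → ℂ) : ip (f + f') h = ip f h + ip f' h := by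
  unfold ip
  rw [← add_div, ← Finset.sum_add_distrib]
  simp only [Pi.add_apply, add_mul]

omit [Group G] in
lemma ip_smul_left (c : ℂ) (f h : G → ℂ) : ip (c • f) h = c * ip f h := by
  unfold ip
  rw [← mul_div_assoc, Finset.mul_sum]
  simp only [Pi.smul_apply, smul_eq_mul, mul_assoc]

omit [Group G] in
lemma ip_sum_left {ι : Type*} (s : Finset ι) (f : ι → G → ℂ) (h : G → ℂ) :
    ip (∑ i ∈ s, f i) h = ∑ i ∈ s, ip (f i) h := by
  classical
  induction s using Finset.induction_on with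
  | empty => simp [ip]
  | insert a s ha ih => rw [Finset.sum_insert ha, Finset.sum_insert ha, ip_add_left, ih]

omit [Group G] in
lemma ip_conj (f h : G → ℂ) : ip h f = (starRingEnd ℂ) (ip f h) := by
  unfold ip
  rw [map_div₀, map_sum, Complex.conj_natCast]
  congr 1
  refine Finset.sum_congr rfl fun g _ => ?_
  rw [map_mul, Complex.conj_conj, mul_comm]

/-- the irreducible characters -/
def irrChar (G : Type*) [Group G] : Set (G → ℂ) :=
  {φ | ∃ (n : ℕ) (ρ : G →* GL (Fin n) ℂ), Irr ρ ∧ φ = chi ρ}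

lemma ip_chi_eq {n m : ℕ} (ρ : G →* GL (Fin n) ℂ) (σ : G →* GL (Fin m) ℂ) :
    ip (chi ρ) (chi σ) = Module.finrank ℂ (IntertwiningMap (rep σ) (rep ρ)) := by
  have h0 : (Nat.card G : ℂ) ≠ 0 := by exact_mod_cast Nat.card_pos.ne'
  have : Invertible (Nat.card G : ℂ) := invertibleOfNonzero h0
  rw [← card_inv_mul_sum_char_mul_char_eq_finrank (rep σ) (rep ρ)]
  unfold ip
  rw [div_eq_inv_mul, Nat.card_eq_fintype_card]
  congr 1
  refine Finset.sum_congr rfl fun g _ => ?_
  rw [character_rep, character_rep, chi_inv]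

/-- **orthogonality relations** -/
theorem ip_irrChar {φ ψ : G → ℂ} (hφ : φ ∈ irrChar G) (hψ : ψ ∈ irrChar G) [Decidable (φ = ψ)] :
    ip φ ψ = if φ = ψ then 1 else 0 := by
  classical
  obtain ⟨n, ρ, hρ, rfl⟩ := hφ
  obtain ⟨m, σ, hσ, rfl⟩ := hψ
  have h0 : (Nat.card G : ℂ) ≠ 0 := by exact_mod_cast Nat.card_pos.ne'
  have : Invertible (Nat.card G : ℂ) := invertibleOfNonzero h0
  have h1 := (irr_iff ρ).1 hρ
  have h2 := (irr_iff σ).1 hσ
  have h3 := char_orthonormal (rep ρ) (rep σ)
  have h4 : (Nat.card G : ℂ)⁻¹ * ∑ g, (rep ρ).character g * (rep σ).character g⁻¹ =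
      ip (chi ρ) (chi σ) := by
    unfold ip
    rw [div_eq_inv_mul, Nat.card_eq_fintype_card]
    congr 1
    refine Finset.sum_congr rfl fun g _ => ?_
    rw [character_rep, character_rep, chi_inv]
  rw [h4] at h3
  have h5 : ip (chi ρ) (chi ρ) = 1 := by
    rw [ip_chi_eq, IsIrreducible.finrank_intertwiningMap_self, Nat.cast_one]
  split_ifs with h
  · rw [← h, h5]
  · rw [h3, if_neg]
    rintro ⟨e⟩
    apply h
    rw [← character_rep, ← character_rep]
    exact (char_iso e).symm

/-- **the norm one criterion** -/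
theorem irr_iff_ip {n : ℕ} (ρ : G →* GL (Fin n) ℂ) : Irr ρ ↔ ip (chi ρ) (chi ρ) = 1 := by
  constructor
  · intro h
    classical
    rw [ip_irrChar ⟨n, ρ, h, rfl⟩ ⟨n, ρ, h, rfl⟩, if_pos rfl]
  · intro h
    have hn : 0 < n := by
      rcases Nat.eq_zero_or_pos n with rfl | hn
      · have h1 : chi ρ = 0 := by
          funext g
          unfold chi
          simp [Matrix.trace]
        rw [h1] at h
        unfold ip at h
        simp at h
      · exact hn
    rw [ip_chi_eq, Nat.cast_eq_one] at h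
    refine ⟨hn, fun W₀ hW => ?_⟩
    have : NeZero (Nat.card G : ℂ) := ⟨by exact_mod_cast Nat.card_pos.ne'⟩
    set W : Subrepresentation (rep ρ) := ⟨W₀, fun g v hv => hW g v hv⟩ with hWdef
    obtain ⟨W', hc⟩ := exists_isCompl W
    have hc' : IsCompl W₀ W'.toSubmodule := by
      constructor
      · rw [Submodule.disjoint_def]
        intro x hx hx'
        have h1 : x ∈ (W ⊓ W').toSubmodule := ⟨hx, hx'⟩
        rw [hc.inf_eq_bot] at h1
        exact h1
      · rw [codisjoint_iff]
        have h1 : (W ⊔ W').toSubmodule = ⊤ := by rw [hc.sup_eq_top]; rfl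
        exact h1
    set P : (Fin n → ℂ) →ₗ[ℂ] (Fin n → ℂ) := W₀.subtype ∘ₗ
      (LinearMap.fst ℂ W₀ W'.toSubmodule ∘ₗ (Submodule.prodEquivOfIsCompl _ _ hc').symm.toLinearMap)
      with hP
    have hPv : ∀ (w : W₀) (w' : W'.toSubmodule), P ((w : Fin n → ℂ) + w') = w := by
      intro w w'
      have h1 : (w : Fin n → ℂ) + w' = (Submodule.prodEquivOfIsCompl _ _ hc') (w, w') := by
        simp
      rw [h1, hP]
      simp
    have hcomm : ∀ g v, P (rep ρ g v) = rep ρ g (P v) := by
      intro g v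
      obtain ⟨⟨w, w'⟩, rfl⟩ := (Submodule.prodEquivOfIsCompl _ _ hc').surjective v
      have h1 : (Submodule.prodEquivOfIsCompl _ _ hc') (w, w') = (w : Fin n → ℂ) + w' := by simp
      rw [h1, map_add, hPv]
      exact hPv ⟨rep ρ g w, W.apply_mem_toSubmodule g w.2⟩
        ⟨rep ρ g w', W'.apply_mem_toSubmodule g w'.2⟩
    have hfr := finrank_eq_one_iff_of_nonzero' (K := ℂ)
      (LinearMap.id.intertwiningMap_of_isIntertwiningMap (rep ρ) (rep ρ) fun g v => rfl) (by
        intro h1
        have h2 := congrArg (fun f : IntertwiningMap (rep ρ) (rep ρ) => f (Pi.single ⟨0, hn⟩ 1)) h1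
        have h3 := congrFun h2 ⟨0, hn⟩
        have h4 : (Pi.single (⟨0, hn⟩ : Fin n) (1 : ℂ) : Fin n → ℂ) ⟨0, hn⟩ = 0 := h3
        simp at h4)
    obtain ⟨c, hcP⟩ := hfr.1 h (P.intertwiningMap_of_isIntertwiningMap (rep ρ) (rep ρ) hcomm)
    have hcv : ∀ v, P v = c • v := fun v =>
      (congrArg (fun f : IntertwiningMap (rep ρ) (rep ρ) => f v) hcP).symm
    by_cases hc0 : c = 0
    · left
      rw [Submodule.eq_bot_iff]
      intro w hw
      have h1 := hPv ⟨w, hw⟩ 0
      rw [hcv, hc0, zero_smul] at h1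
      exact h1.symm
    · right
      rw [Submodule.eq_top_iff']
      intro v
      have h1 : c • v ∈ W₀ := by
        rw [← hcv, hP]
        exact Subtype.mem _
      have h2 := W₀.smul_mem c⁻¹ h1
      rwa [smul_smul, inv_mul_cancel₀ hc0, one_smul] at h2

/-- there are finitely many irreducible characters -/
theorem irrChar_finite : (irrChar G).Finite := by
  classical
  have h1 : LinearIndependent ℂ (fun φ : irrChar G => (φ : G → ℂ)) := by
    rw [linearIndependent_iff']
    intro s c hc i hi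
    have h2 := congrArg (fun f => ip f (i : G → ℂ)) hc
    simp only [ip_sum_left, ip_smul_left] at h2
    rw [Finset.sum_congr rfl fun j _ => by rw [ip_irrChar j.2 i.2]] at h2
    have h3 : ip (0 : G → ℂ) (i : G → ℂ) = 0 := by simp [ip]
    rw [h3] at h2
    simp only [mul_ite, mul_one, mul_zero] at h2
    rw [Finset.sum_eq_single i] at h2
    · simpa using h2
    · intro j _ hj
      rw [if_neg fun h => hj (Subtype.ext h)]
    · exact fun h => absurd hi h
  exact h1.setFinite

variable (G) in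
/-- the finite set of the irreducible characters -/
noncomputable def irrFin : Finset (G → ℂ) := (irrChar_finite (G := G)).toFinset

lemma mem_irrFin {φ : G → ℂ} : φ ∈ irrFin G ↔ φ ∈ irrChar G := Set.Finite.mem_toFinset _

omit [Fintype G] in
lemma conj_of_irrChar {φ : G → ℂ} (hφ : φ ∈ irrChar G) (x g : G) : φ (x * g * x⁻¹) = φ g := by
  obtain ⟨n, ρ, -, rfl⟩ := hφ
  exact chi_conj ρ x g

/-- a class function orthogonal to all irreducible characters is zero -/
theorem eq_zero_of_ip {f : G → ℂ} (hf : ∀ x g, f (x * g * x⁻¹) = f g)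
    (h0 : ∀ φ ∈ irrChar G, ip f φ = 0) : f = 0 := by
  classical
  have hcard : (Fintype.card G : ℂ) ≠ 0 := by exact_mod_cast Fintype.card_ne_zero
  set b := (Pi.basisFun ℂ G).reindex (Fintype.equivFin G) with hb
  have h1 := opOf_eq_zero hf (fun n ρ hρ => by
    have h2 := h0 _ ⟨n, ρ, hρ, rfl⟩
    unfold ip at h2
    rw [div_eq_zero_iff, or_iff_left hcard] at h2
    rw [← h2]
    refine Finset.sum_congr rfl fun g _ => ?_
    rw [chi_inv]) _ (ofRep b (permRep G))
  funext x
  have h2 := congrArg (fun A : (Fin (Fintype.card G) → ℂ) →ₗ[ℂ] (Fin (Fintype.card G) → ℂ) =>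
    b.equivFun.symm (A (b.equivFun (Pi.single 1 1)))) h1
  simp only [opOf_apply, rep_ofRep, map_sum, map_smul, LinearEquiv.symm_apply_apply,
    LinearMap.zero_apply, map_zero] at h2
  have h3 := congrFun h2 x⁻¹
  rw [Finset.sum_apply, Finset.sum_eq_single x] at h3
  · rw [Pi.smul_apply, permRep_apply] at h3
    simpa using h3
  · intro g _ hg
    rw [Pi.smul_apply, permRep_apply, Pi.single_apply, if_neg, smul_zero]
    intro h4
    apply hg
    rw [inv_inv, smul_eq_mul] at h4
    exact mul_inv_eq_one.1 h4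
  · exact fun h => absurd (Finset.mem_univ _) h

/-- **completeness** of the irreducible characters -/
theorem classFun_eq_sum {f : G → ℂ} (hf : ∀ x g, f (x * g * x⁻¹) = f g) :
    f = ∑ φ ∈ irrFin G, ip f φ • φ := by
  classical
  rw [← sub_eq_zero]
  refine eq_zero_of_ip (fun x g => ?_) fun ψ hψ => ?_
  · rw [Pi.sub_apply, Pi.sub_apply, hf, Finset.sum_apply, Finset.sum_apply]
    congr 1
    refine Finset.sum_congr rfl fun φ hφ => ?_
    rw [Pi.smul_apply, Pi.smul_apply, conj_of_irrChar (mem_irrFin.1 hφ)]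
  · rw [sub_eq_add_neg, ip_add_left, ← neg_one_smul ℂ, ip_smul_left, ip_sum_left,
      Finset.sum_congr rfl fun φ hφ => by rw [ip_smul_left, ip_irrChar (mem_irrFin.1 hφ) hψ],
      Finset.sum_eq_single ψ]
    · rw [if_pos rfl]
      ring
    · intro φ _ hne
      rw [if_neg hne, mul_zero]
    · exact fun h => absurd (mem_irrFin.2 hψ) h

theorem classFun_mem_span {f : G → ℂ} (hf : ∀ x g, f (x * g * x⁻¹) = f g) :
    f ∈ Submodule.span ℂ (irrChar G) := by
  rw [classFun_eq_sum hf]
  exact Submodule.sum_mem _ fun φ hφ => Submodule.smul_mem _ _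
    (Submodule.subset_span (mem_irrFin.1 hφ))

/-- Parseval -/
theorem ip_eq_sum {f : G → ℂ} (hf : ∀ x g, f (x * g * x⁻¹) = f g) (h : G → ℂ) :
    ip f h = ∑ φ ∈ irrFin G, ip f φ * (starRingEnd ℂ) (ip h φ) := by
  conv_lhs => rw [classFun_eq_sum hf, ip_sum_left]
  refine Finset.sum_congr rfl fun φ _ => ?_
  rw [ip_smul_left, ip_conj h φ]

/-- every character is a combination of irreducible ones with coefficients in `ℕ` -/
theorem chi_eq_sum (n : ℕ) (ρ : G →* GL (Fin n) ℂ) :
    ∃ m : (G → ℂ) → ℕ, chi ρ = ∑ φ ∈ irrFin G, (m φ : ℂ) • φ := by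
  classical
  refine rep_induction (P := fun n ρ => ∃ m : (G → ℂ) → ℕ, chi ρ =
    ∑ φ ∈ irrFin G, (m φ : ℂ) • φ) (fun ρ => ⟨0, ?_⟩) (fun n ρ hρ => ?_)
    (fun n m k ρ σ τ hs hσ hτ => ?_) n ρ
  · funext g
    unfold chi
    simp [Matrix.trace]
  · refine ⟨fun φ => if φ = chi ρ then 1 else 0, ?_⟩
    rw [Finset.sum_eq_single (chi ρ)]
    · simp
    · intro φ _ hne
      simp [hne]
    · exact fun h => absurd (mem_irrFin.2 ⟨n, ρ, hρ, rfl⟩) h
  · obtain ⟨a, ha⟩ := hσ
    obtain ⟨b, hb⟩ := hτ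
    refine ⟨a + b, ?_⟩
    have h1 : chi ρ = chi σ + chi τ := funext fun g => chi_isSum hs g
    rw [h1, ha, hb, ← Finset.sum_add_distrib]
    refine Finset.sum_congr rfl fun φ _ => ?_
    rw [Pi.add_apply, Nat.cast_add, add_smul]

/-- the multiplicities are natural numbers -/
theorem ip_chi_nat {n : ℕ} (ρ : G →* GL (Fin n) ℂ) (f : G → ℂ) (hf : f ∈ irrChar G) :
    ∃ m : ℕ, ip (chi ρ) f = m := by
  obtain ⟨m, σ, -, rfl⟩ := hf
  exact ⟨_, ip_chi_eq ρ σ⟩

/-- the permutation character is the character of a representation -/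
theorem exists_pc (H : Subgroup G) :
    ∃ ρ : G →* GL (Fin H.index) ℂ, ∀ g, chi ρ g = (pc H g : ℂ) := by
  classical
  have : Fintype (G ⧸ H) := Fintype.ofFinite _
  set e : (G ⧸ H) ≃ Fin H.index := Finite.equivFin (G ⧸ H) with he
  refine ⟨ofRep ((Pi.basisFun ℂ (G ⧸ H)).reindex e) (permRep (G ⧸ H)), fun g => ?_⟩
  rw [chi_ofRep, character_permRep]
  rfl

/-- Frobenius reciprocity for permutation characters and complex class functions -/
theorem sum_mul_pc_complex (H : Subgroup G) {f : G → ℂ} (hf : ∀ x g, f (x * g * x⁻¹) = f g) :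
    (Nat.card H : ℂ) * ∑ g, f g * (pc H g : ℂ) =
      Fintype.card G * ∑ g, f g * Set.indicator (H : Set G) (1 : G → ℂ) g := by
  classical
  have hr := sum_mul_pc H (fun g => (f g).re) fun x g => by rw [hf]
  have hi := sum_mul_pc H (fun g => (f g).im) fun x g => by rw [hf]
  have hind : ∀ g, Set.indicator (H : Set G) (1 : G → ℂ) g =
      ((Set.indicator (H : Set G) (1 : G → ℝ) g : ℝ) : ℂ) := by
    intro g
    rw [Set.indicator_apply, Set.indicator_apply]
    split_ifs <;> simp
  simp only [hind]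
  apply Complex.ext
  · simpa using hr
  · simpa using hi

theorem ip_pc (H : Subgroup G) {f : G → ℂ} (hf : ∀ x g, f (x * g * x⁻¹) = f g) :
    ip f (fun g => (pc H g : ℂ)) =
      (∑ g, f g * Set.indicator (H : Set G) (1 : G → ℂ) g) / Nat.card H := by
  have h1 := sum_mul_pc_complex H hf
  have h2 : (Nat.card H : ℂ) ≠ 0 := by
    have : 0 < Nat.card H := Nat.card_pos
    exact_mod_cast this.ne'
  have h3 : (Fintype.card G : ℂ) ≠ 0 := by exact_mod_cast Fintype.card_ne_zero
  unfold ip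
  rw [div_eq_div_iff h3 h2]
  simp only [Complex.conj_natCast]
  rw [mul_comm, h1, mul_comm]

end fin

end

end Pool.Agent.Work.MP_2b9663_nt.Reps
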