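import Pool.Agent.Work.MP_2b9663_nt.Ch.Defs

set_option autoImplicit false

/-!
Means of functions of finite level do not depend on the level; a common Galois level of finitely
many Artin representations; the complex conjugate of an Artin representation.
-/

namespace Pool.Agent.Work.MP_2b9663_nt

open NumberField Filter Topology

section

/-- averages over the cosets of a smaller subgroup of finite index -/
theorem mean_cosets {G : Type*} [Group G] {N H : Subgroup G} (hNH : N ≤ H) [N.FiniteIndex]
    {f : G → ℂ} (hf : ∀ g, ∀ h ∈ H, f (g * h) = f g) :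
    (∑ᶠ q : G ⧸ N, f q.out) / (Nat.card (G ⧸ N) : ℂ) =
      (∑ᶠ q : G ⧸ H, f q.out) / (Nat.card (G ⧸ H) : ℂ) := by
  classical
  have : H.FiniteIndex := Subgroup.finiteIndex_of_le hNH
  have : Finite (G ⧸ N) := Subgroup.finite_quotient_of_finiteIndex
  have : Finite (G ⧸ H) := Subgroup.finite_quotient_of_finiteIndex
  have := Fintype.ofFinite (G ⧸ N)
  have := Fintype.ofFinite (G ⧸ H)
  set E := Subgroup.quotientEquivProdOfLE hNH with hE
  have : Finite (H ⧸ N.subgroupOf H) := by
    have : Nonempty (G ⧸ H) := ⟨((1 : G) : G ⧸ H)⟩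
    have : Finite ((G ⧸ H) × (H ⧸ N.subgroupOf H)) := Finite.of_equiv _ E
    exact Finite.prod_right (G ⧸ H)
  have := Fintype.ofFinite (H ⧸ N.subgroupOf H)
  have hout : ∀ q : G ⧸ N, f q.out = f ((E q).1).out := by
    intro q
    have h1 : (E q).1 = ((q.out : G) : G ⧸ H) := by
      conv_lhs => rw [← QuotientGroup.out_eq' q]
      rfl
    have h2 : (((E q).1.out : G) : G ⧸ H) = ((q.out : G) : G ⧸ H) := by
      rw [QuotientGroup.out_eq', h1]
    have h3 : (q.out)⁻¹ * (E q).1.out ∈ H := QuotientGroup.eq.1 h2.symm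
    have h4 := hf q.out _ h3
    rw [mul_inv_cancel_left] at h4
    exact h4.symm
  rw [finsum_eq_sum_of_fintype, finsum_eq_sum_of_fintype]
  have h1 : ∑ q : G ⧸ N, f q.out = (Fintype.card (H ⧸ N.subgroupOf H) : ℂ) *
      ∑ q : G ⧸ H, f q.out := by
    calc ∑ q : G ⧸ N, f q.out = ∑ q : G ⧸ N, f ((E q).1).out :=
          Finset.sum_congr rfl fun q _ => hout q
      _ = ∑ x : (G ⧸ H) × (H ⧸ N.subgroupOf H), f x.1.out :=
          Equiv.sum_comp E fun x => f x.1.out
      _ = _ := by
          rw [Fintype.sum_prod_type, Finset.mul_sum]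
          refine Finset.sum_congr rfl fun q _ => ?_
          simp
  have h2 : (Nat.card (G ⧸ N) : ℂ) = Fintype.card (H ⧸ N.subgroupOf H) * Nat.card (G ⧸ H) := by
    rw [Nat.card_congr E, Nat.card_prod, Nat.card_eq_fintype_card (α := H ⧸ N.subgroupOf H)]
    push_cast
    ring
  have h3 : (Fintype.card (H ⧸ N.subgroupOf H) : ℂ) ≠ 0 := by
    have : Nonempty (H ⧸ N.subgroupOf H) := ⟨((1 : H) : H ⧸ N.subgroupOf H)⟩
    exact_mod_cast Fintype.card_ne_zero
  rw [h1, h2, mul_div_mul_left _ _ h3]

variable {Ω : Type} [Field Ω] [CharZero Ω] [IsAlgClosure ℚ Ω]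

/-- the fixing subgroup of a finite Galois extension has finite index -/
theorem fixing_finiteIndex (L : IntermediateField ℚ Ω) [NumberField L] [IsGalois ℚ L] :
    (L.fixingSubgroup).FiniteIndex := by
  have : Algebra.IsAlgebraic ℚ Ω := IsAlgClosure.isAlgebraic
  have : Normal ℚ Ω := IsAlgClosure.normal ℚ Ω
  have hN : @Normal ℚ L _ _ (L.algebra') := (‹IsGalois ℚ L›).to_normal
  have hF : @FiniteDimensional ℚ L _ _ (L.algebra').toModule := (‹NumberField L›).to_finiteDimensional
  rw [← IntermediateField.restrictNormalHom_ker L]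
  exact Subgroup.finiteIndex_ker _

theorem meanAt_level {L L' : IntermediateField ℚ Ω} [NumberField L] [IsGalois ℚ L]
    [NumberField L'] [IsGalois ℚ L'] {f : (Ω ≃ₐ[ℚ] Ω) → ℂ} (h : Lvl L f) (h' : Lvl L' f) :
    meanAt L f = meanAt L' f := by
  have := fixing_finiteIndex L
  have := fixing_finiteIndex L'
  have e1 := mean_cosets (inf_le_left : L.fixingSubgroup ⊓ L'.fixingSubgroup ≤ _) h
  have e2 := mean_cosets (inf_le_right : L.fixingSubgroup ⊓ L'.fixingSubgroup ≤ _) h'
  unfold meanAt
  rw [← e1, ← e2]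

/-- a common Galois level -/
theorem exists_level {ι : Type} (s : Finset ι) (R : ι → ArtinRep Ω) :
    ∃ (L : IntermediateField ℚ Ω), NumberField L ∧ IsGalois ℚ L ∧ ∀ j ∈ s, ∀ g,
      ∀ h ∈ L.fixingSubgroup, (R j).ρ (g * h) = (R j).ρ g := by
  classical
  have : Algebra.IsAlgebraic ℚ Ω := IsAlgClosure.isAlgebraic
  have : Normal ℚ Ω := IsAlgClosure.normal ℚ Ω
  choose M hM hρ using fun j => (R j).level
  have : ∀ j, FiniteDimensional ℚ (M j) := hM
  set K : IntermediateField ℚ Ω := ⨆ j ∈ s, M j with hK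
  have : FiniteDimensional ℚ K := IntermediateField.finiteDimensional_iSup_of_finset
  have hN : @Normal ℚ (IntermediateField.normalClosure ℚ K Ω) _ _
      (IntermediateField.algebra' (IntermediateField.normalClosure ℚ K Ω)) :=
    normalClosure.normal ℚ K Ω
  have hF : @FiniteDimensional ℚ (IntermediateField.normalClosure ℚ K Ω) _ _
      (IntermediateField.algebra' (IntermediateField.normalClosure ℚ K Ω)).toModule :=
    normalClosure.is_finiteDimensional ℚ K Ω
  have hN' : Normal ℚ (IntermediateField.normalClosure ℚ K Ω) := hN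
  have hF' : FiniteDimensional ℚ (IntermediateField.normalClosure ℚ K Ω) := hF
  refine ⟨IntermediateField.normalClosure ℚ K Ω, ⟨⟩, ⟨⟩, fun j hj g h hh => ?_⟩
  · have h1 : M j ≤ IntermediateField.normalClosure ℚ K Ω :=
      (le_iSup₂_of_le j hj le_rfl).trans (IntermediateField.le_normalClosure K)
    have h2 : h ∈ (M j).fixingSubgroup :=
      IntermediateField.fixingSubgroup_le h1 hh
    rw [map_mul, hρ j h h2, mul_one]

omit [IsAlgClosure ℚ Ω] in
/-- the complex conjugate representation -/
theorem exists_dual (R : ArtinRep Ω) : ∃ R' : ArtinRep Ω, (R.Irr → R'.Irr) ∧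
    (∀ g, R'.char g = (starRingEnd ℂ) (R.char g)) ∧
    ∀ g, R.ρ g = 1 → R'.ρ g = 1 := by
  refine ⟨⟨R.n, (Matrix.GeneralLinearGroup.map (starRingEnd ℂ)).comp R.ρ, ?_⟩, ?_, ?_, ?_⟩
  · obtain ⟨M, hM, h⟩ := R.level
    exact ⟨M, hM, fun g hg => by rw [MonoidHom.comp_apply, h g hg]; exact map_one _⟩
  · rintro ⟨hn, hW⟩
    refine ⟨hn, fun W hinv => ?_⟩
    have key : ∀ (g : Ω ≃ₐ[ℚ] Ω) (v : Fin R.n → ℂ),
        star ((R.ρ g : Matrix (Fin R.n) (Fin R.n) ℂ).mulVec v) =
        (((Matrix.GeneralLinearGroup.map (starRingEnd ℂ)).comp R.ρ) g :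
          Matrix (Fin R.n) (Fin R.n) ℂ).mulVec (star v) := by
      intro g v
      ext i
      simp [Matrix.mulVec, dotProduct, Pi.star_apply, star_sum]
    let W' : Submodule ℂ (Fin R.n → ℂ) :=
      { carrier := {v | star v ∈ W}
        add_mem' := fun {a b} ha hb => by
          simp only [Set.mem_ofPred_eq, star_add] at *
          exact W.add_mem ha hb
        zero_mem' := by simp
        smul_mem' := fun c v hv => by
          simp only [Set.mem_ofPred_eq, star_smul] at *
          exact W.smul_mem _ hv }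
    have hmem : ∀ v, v ∈ W' ↔ star v ∈ W := fun v => Iff.rfl
    rcases hW W' (fun g w hw => by
      rw [hmem, key]
      exact hinv g _ hw) with h | h
    · left
      rw [Submodule.eq_bot_iff]
      intro w hw
      have h1 : star w ∈ W' := by rw [hmem, star_star]; exact hw
      rw [h, Submodule.mem_bot, star_eq_zero] at h1
      exact h1
    · right
      rw [Submodule.eq_top_iff']
      intro v
      have h1 : star v ∈ W' := by rw [h]; trivial
      rwa [hmem, star_star] at h1
  · intro g
    simp [ArtinRep.char, Matrix.trace]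
  · intro g hg
    change (Matrix.GeneralLinearGroup.map (starRingEnd ℂ)) (R.ρ g) = 1
    rw [hg]
    exact map_one _

end

end Pool.Agent.Work.MP_2b9663_nt
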