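import Pool.Agent.Work.MP_2b9663_nt.Ch.Defs
import Pool.Agent.Work.MP_2b9663_nt.Ch.Reps

set_option autoImplicit false

/-!
Artin representations of level `L` and representations of `Gal(L/ℚ)`.
-/

namespace Pool.Agent.Work.MP_2b9663_nt

open NumberField Reps Matrix

section

variable {Ω : Type} [Field Ω] [CharZero Ω] [IsAlgClosure ℚ Ω] (L : IntermediateField ℚ Ω)
  [NumberField L] [IsGalois ℚ L]

omit [NumberField L] in
lemma res_surj : Function.Surjective (AlgEquiv.restrictNormalHom (F := ℚ) (K₁ := Ω) L) :=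
  AlgEquiv.restrictNormalHom_surjective Ω

omit [NumberField L] [IsAlgClosure ℚ Ω] in
lemma res_eq_one {g : Ω ≃ₐ[ℚ] Ω} :
    AlgEquiv.restrictNormalHom L g = 1 ↔ g ∈ L.fixingSubgroup := by
  rw [IntermediateField.mem_fixingSubgroup_iff]
  constructor
  · intro h x hx
    have h1 := AlgEquiv.restrictNormal_commutes g L ⟨x, hx⟩
    have h2 : g.restrictNormal L = 1 := h
    rw [h2] at h1
    exact h1.symm
  · intro h
    refine AlgEquiv.ext fun x => ?_
    apply (algebraMap L Ω).injective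
    exact (AlgEquiv.restrictNormal_commutes g L x).trans (h x x.2)

omit [NumberField L] [IsAlgClosure ℚ Ω] in
lemma res_eq_iff {g h : Ω ≃ₐ[ℚ] Ω} : AlgEquiv.restrictNormalHom L g = AlgEquiv.restrictNormalHom L h ↔
    g⁻¹ * h ∈ L.fixingSubgroup := by
  rw [← res_eq_one, map_mul, map_inv, inv_mul_eq_one]

/-- the descent of a function of level `L` -/
noncomputable def desc (f : (Ω ≃ₐ[ℚ] Ω) → ℂ) (σ : L ≃ₐ[ℚ] L) : ℂ :=
  f (Function.surjInv (res_surj L) σ)

variable {L}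

omit [NumberField L] in
lemma desc_res {f : (Ω ≃ₐ[ℚ] Ω) → ℂ} (hf : Lvl L f) (g : Ω ≃ₐ[ℚ] Ω) :
    desc L f (AlgEquiv.restrictNormalHom L g) = f g := by
  unfold desc
  set h := Function.surjInv (res_surj L) (AlgEquiv.restrictNormalHom L g) with hh
  have h1 : AlgEquiv.restrictNormalHom L h = AlgEquiv.restrictNormalHom L g :=
    Function.surjInv_eq (res_surj L) _
  have h2 := (res_eq_iff L).1 h1.symm
  have h3 := hf g _ h2
  rwa [mul_inv_cancel_left] at h3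

omit [NumberField L] in
lemma desc_isCl {f : (Ω ≃ₐ[ℚ] Ω) → ℂ} (hL : Lvl L f) (hf : IsCl f) (x g : L ≃ₐ[ℚ] L) :
    desc L f (x * g * x⁻¹) = desc L f g := by
  obtain ⟨x, rfl⟩ := res_surj L x
  obtain ⟨g, rfl⟩ := res_surj L g
  rw [← map_inv, ← map_mul, ← map_mul, desc_res hL, desc_res hL, hf]

/-- the mean value is the mean over `Gal(L/ℚ)` -/
lemma meanAt_eq_desc {f : (Ω ≃ₐ[ℚ] Ω) → ℂ} (hf : Lvl L f) :
    meanAt L f = (∑ σ : L ≃ₐ[ℚ] L, desc L f σ) / Fintype.card (L ≃ₐ[ℚ] L) := by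
  set e1 : (Ω ≃ₐ[ℚ] Ω) ⧸ L.fixingSubgroup ≃ (L ≃ₐ[ℚ] L) :=
    Equiv.ofBijective (fun q => AlgEquiv.restrictNormalHom L q.out) ⟨fun q r hqr => by
      have h1 := (res_eq_iff L).1 hqr
      rw [← q.out_eq, ← r.out_eq]
      exact Quotient.sound (QuotientGroup.leftRel_apply.2 h1), fun σ => by
      obtain ⟨g, rfl⟩ := res_surj L σ
      refine ⟨(g : (Ω ≃ₐ[ℚ] Ω) ⧸ L.fixingSubgroup), ?_⟩
      rw [res_eq_iff]
      exact QuotientGroup.eq.1 (Quotient.out_eq _)⟩ with he1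
  have he : ∀ q, e1 q = AlgEquiv.restrictNormalHom L q.out := fun q => rfl
  unfold meanAt
  rw [Nat.card_congr e1, Nat.card_eq_fintype_card]
  congr 1
  rw [← finsum_eq_sum_of_fintype, ← finsum_comp_equiv e1]
  refine finsum_congr fun q => ?_
  rw [he, desc_res hf]

omit [NumberField L] in
/-- the descent of a representation of level `L` -/
lemma exists_desc (R : ArtinRep Ω) (h : ∀ g ∈ L.fixingSubgroup, R.ρ g = 1) :
    ∃ ρ : (L ≃ₐ[ℚ] L) →* GL (Fin R.n) ℂ, ∀ g, ρ (AlgEquiv.restrictNormalHom L g) = R.ρ g := by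
  have hk : (AlgEquiv.restrictNormalHom (F := ℚ) (K₁ := Ω) L).ker ≤ R.ρ.ker := fun g hg =>
    h g ((res_eq_one L).1 hg)
  refine ⟨MonoidHom.liftOfSurjective _ (res_surj L) ⟨R.ρ, hk⟩, fun g => ?_⟩
  exact MonoidHom.liftOfRightInverse_comp_apply _ _ _ ⟨R.ρ, hk⟩ g

/-- the inflation of a representation of `Gal(L/ℚ)` -/
noncomputable def infl {n : ℕ} (ρ : (L ≃ₐ[ℚ] L) →* GL (Fin n) ℂ) : ArtinRep Ω where
  n := n
  ρ := ρ.comp (AlgEquiv.restrictNormalHom L)
  level := ⟨L, inferInstance, fun g hg => by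
    rw [MonoidHom.comp_apply, (res_eq_one L).2 hg, map_one]⟩

omit [IsAlgClosure ℚ Ω] in
lemma infl_level {n : ℕ} (ρ : (L ≃ₐ[ℚ] L) →* GL (Fin n) ℂ) (g : Ω ≃ₐ[ℚ] Ω)
    (hg : g ∈ L.fixingSubgroup) : (infl (Ω := Ω) ρ).ρ g = 1 := by
  change ρ (AlgEquiv.restrictNormalHom L g) = 1
  rw [(res_eq_one L).2 hg, map_one]

omit [IsAlgClosure ℚ Ω] [NumberField L] in
lemma char_of_desc {R : ArtinRep Ω} {ρ : (L ≃ₐ[ℚ] L) →* GL (Fin R.n) ℂ}
    (h : ∀ g, ρ (AlgEquiv.restrictNormalHom L g) = R.ρ g) (g : Ω ≃ₐ[ℚ] Ω) :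
    R.char g = chi ρ (AlgEquiv.restrictNormalHom L g) := by
  unfold ArtinRep.char chi
  rw [h]

omit [NumberField L] in
lemma irr_of_desc {R : ArtinRep Ω} {ρ : (L ≃ₐ[ℚ] L) →* GL (Fin R.n) ℂ}
    (h : ∀ g, ρ (AlgEquiv.restrictNormalHom L g) = R.ρ g) : R.Irr ↔ Irr ρ := by
  unfold ArtinRep.Irr Irr
  refine and_congr Nat.pos_iff_ne_zero.symm (forall_congr' fun W => ?_)
  refine imp_congr_left ⟨fun hW σ => ?_, fun hW g => ?_⟩
  · obtain ⟨g, rfl⟩ := res_surj L σ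
    rw [h]
    exact hW g
  · rw [← h]
    exact hW _

omit [IsAlgClosure ℚ Ω] [NumberField L] [IsGalois ℚ L] in
lemma lvl_of_triv {R : ArtinRep Ω} (h : ∀ g ∈ L.fixingSubgroup, R.ρ g = 1) : Lvl L R.char := by
  intro g x hx
  unfold ArtinRep.char
  rw [map_mul, h x hx, mul_one]

omit [IsAlgClosure ℚ Ω] in
lemma isCl_char (R : ArtinRep Ω) : IsCl R.char := by
  intro x g
  exact chi_conj R.ρ x g

/-- the orthogonality relations for representations of level `L` -/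
theorem char_orth_aux (R R' : ArtinRep Ω) (hR : R.Irr) (hR' : R'.Irr)
    (h : ∀ g ∈ L.fixingSubgroup, R.ρ g = 1) (h' : ∀ g ∈ L.fixingSubgroup, R'.ρ g = 1) :
    (R.char = R'.char → meanAt L (fun g => R.char g * (starRingEnd ℂ) (R'.char g)) = 1) ∧
    (R.char ≠ R'.char → meanAt L (fun g => R.char g * (starRingEnd ℂ) (R'.char g)) = 0) := by
  classical
  obtain ⟨ρ, hρ⟩ := exists_desc R h
  obtain ⟨σ, hσ⟩ := exists_desc R' h'
  have h1 : Lvl L (fun g => R.char g * (starRingEnd ℂ) (R'.char g)) := by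
    intro g x hx
    beta_reduce
    rw [lvl_of_triv h g x hx, lvl_of_triv h' g x hx]
  have h2 : ∀ τ, desc L (fun g => R.char g * (starRingEnd ℂ) (R'.char g)) τ =
      chi ρ τ * (starRingEnd ℂ) (chi σ τ) := by
    intro τ
    obtain ⟨g, rfl⟩ := res_surj L τ
    rw [desc_res h1, char_of_desc hρ, char_of_desc hσ]
  have h3 : meanAt L (fun g => R.char g * (starRingEnd ℂ) (R'.char g)) = ip (chi ρ) (chi σ) := by
    rw [meanAt_eq_desc h1, Finset.sum_congr rfl fun τ _ => h2 τ]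
    rfl
  have h4 := ip_irrChar ⟨_, ρ, (irr_of_desc hρ).1 hR, rfl⟩ ⟨_, σ, (irr_of_desc hσ).1 hR', rfl⟩
  have h5 : chi ρ = chi σ ↔ R.char = R'.char := by
    constructor
    · intro h6
      funext g
      rw [char_of_desc hρ, char_of_desc hσ, h6]
    · intro h6
      funext τ
      obtain ⟨g, rfl⟩ := res_surj L τ
      rw [← char_of_desc hρ, ← char_of_desc hσ, h6]
  rw [h3, h4]
  exact ⟨fun h6 => if_pos (h5.2 h6), fun h6 => if_neg fun h7 => h6 (h5.1 h7)⟩

/-- the image of an Artin representation has finite exponent -/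
lemma exists_pow_eq_one (R : ArtinRep Ω) (g : Ω ≃ₐ[ℚ] Ω) :
    ∃ k, k ≠ 0 ∧ R.ρ g ^ k = 1 := by
  obtain ⟨M, hM, h⟩ := R.level
  have hn : Normal ℚ Ω := IsAlgClosure.normal ℚ Ω
  set M' := IntermediateField.normalClosure ℚ M Ω
  have hf : FiniteDimensional ℚ M' := normalClosure.is_finiteDimensional ℚ M Ω
  have hN : Normal ℚ M' := normalClosure.normal ℚ M Ω
  have hG : IsGalois ℚ M' := ⟨⟩
  refine ⟨orderOf (AlgEquiv.restrictNormalHom M' g), (orderOf_pos _).ne', ?_⟩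
  rw [← map_pow]
  refine h _ ?_
  have h1 : g ^ orderOf (AlgEquiv.restrictNormalHom M' g) ∈ M'.fixingSubgroup := by
    rw [← res_eq_one, map_pow, pow_orderOf_eq_one]
  exact IntermediateField.fixingSubgroup_antitone M.le_normalClosure h1

/-- a matrix of finite order all of whose powers have trace `n` is the identity -/
lemma eq_one_of_trace {n : ℕ} (A : Matrix (Fin n) (Fin n) ℂ) {k : ℕ} (hk : k ≠ 0) (h1 : A ^ k = 1)
    (h : ∀ j : ℕ, (A ^ j).trace = n) : A = 1 := by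
  set P : Matrix (Fin n) (Fin n) ℂ := ((k : ℂ)⁻¹) • ∑ j ∈ Finset.range k, A ^ j with hP
  have hk' : (k : ℂ) ≠ 0 := Nat.cast_ne_zero.2 hk
  have h2 : A * P = P := by
    rw [hP, Matrix.mul_smul, Finset.mul_sum, Finset.sum_congr rfl fun j _ => (pow_succ' A j).symm]
    congr 1
    have h4 := Finset.sum_range_succ (fun j => A ^ j) k
    have h5 := Finset.sum_range_succ' (fun j => A ^ j) k
    rw [h4, h1, pow_zero] at h5
    exact (add_right_cancel h5).symm
  have h3 : ∀ j : ℕ, A ^ j * P = P := by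
    intro j
    induction j with
    | zero => rw [pow_zero, one_mul]
    | succ j ih => rw [pow_succ, mul_assoc, h2, ih]
  have h4 : P * P = P := by
    have h5 : (∑ j ∈ Finset.range k, A ^ j) * P = (k : ℂ) • P := by
      rw [Finset.sum_mul, Finset.sum_congr rfl fun j _ => h3 j, Finset.sum_const,
        Finset.card_range, Nat.cast_smul_eq_nsmul]
    calc P * P = ((k : ℂ)⁻¹) • ((∑ j ∈ Finset.range k, A ^ j) * P) := by
          rw [← Matrix.smul_mul]
      _ = P := by rw [h5, smul_smul, inv_mul_cancel₀ hk', one_smul]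
  have h5 : P.trace = n := by
    rw [hP, Matrix.trace_smul, Matrix.trace_sum, Finset.sum_congr rfl fun j _ => h j,
      Finset.sum_const, Finset.card_range, nsmul_eq_mul, smul_eq_mul, inv_mul_cancel_left₀ hk']
  have h6 : IsIdempotentElem (Matrix.toLin' (1 - P)) := by
    have h7 : (1 - P) * (1 - P) = 1 - P := by
      rw [mul_sub, mul_one, sub_mul, one_mul, h4, sub_self, sub_zero]
    change Matrix.toLin' (1 - P) * Matrix.toLin' (1 - P) = _
    rw [Module.End.mul_eq_comp, ← Matrix.toLin'_mul, h7]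
  have h7 : Matrix.toLin' (1 - P) = 0 := by
    refine LinearMap.IsIdempotentElem.eq_zero_of_trace_eq_zero h6 ?_
    rw [Matrix.trace_toLin'_eq, Matrix.trace_sub, h5, Matrix.trace_one, Fintype.card_fin, sub_self]
  have h8 : P = 1 := (sub_eq_zero.1 ((LinearEquiv.map_eq_zero_iff _).1 h7)).symm
  rw [← mul_one A, ← h8, h2]

omit [NumberField L] [IsGalois ℚ L] in
/-- a representation whose character is of level `L` is of level `L` -/
lemma triv_of_lvl {R : ArtinRep Ω} (h : Lvl L R.char) : ∀ g ∈ L.fixingSubgroup, R.ρ g = 1 := by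
  intro g hg
  obtain ⟨k, hk, hk'⟩ := exists_pow_eq_one R g
  refine Units.ext (eq_one_of_trace _ hk ?_ fun j => ?_)
  · rw [← Units.val_pow_eq_pow_val, hk', Units.val_one]
  · have h1 := h 1 (g ^ j) (L.fixingSubgroup.pow_mem hg j)
    rw [one_mul] at h1
    unfold ArtinRep.char at h1
    rw [map_pow, map_one, Units.val_pow_eq_pow_val, Units.val_one, Matrix.trace_one,
      Fintype.card_fin] at h1
    exact h1

/-- the orthogonality relations -/
theorem char_orth (R R' : ArtinRep Ω) (hR : R.Irr) (hR' : R'.Irr) (L : IntermediateField ℚ Ω)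
    [NumberField L] [IsGalois ℚ L] (h : Lvl L R.char) (h' : Lvl L R'.char) :
    (R.char = R'.char → meanAt L (fun g => R.char g * (starRingEnd ℂ) (R'.char g)) = 1) ∧
    (R.char ≠ R'.char → meanAt L (fun g => R.char g * (starRingEnd ℂ) (R'.char g)) = 0) :=
  char_orth_aux R R' hR hR' (triv_of_lvl h) (triv_of_lvl h')

variable (L) in
/-- the pullbacks of the irreducible characters of `Gal(L/ℚ)` -/
noncomputable def irrL : Finset ((Ω ≃ₐ[ℚ] Ω) → ℂ) := by
  classical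
  exact (irrFin (L ≃ₐ[ℚ] L)).image fun φ g => φ (AlgEquiv.restrictNormalHom L g)

omit [NumberField L] in
variable (L) in
lemma comp_res_inj : Function.Injective
    (fun (φ : (L ≃ₐ[ℚ] L) → ℂ) (g : Ω ≃ₐ[ℚ] Ω) => φ (AlgEquiv.restrictNormalHom L g)) := by
  intro φ ψ h
  funext τ
  obtain ⟨g, rfl⟩ := res_surj L τ
  exact congrFun h g

lemma mem_irrL {χ : (Ω ≃ₐ[ℚ] Ω) → ℂ} (h : χ ∈ irrL L) :
    ∃ R : ArtinRep Ω, R.Irr ∧ R.char = χ ∧ ∀ g ∈ L.fixingSubgroup, R.ρ g = 1 := by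
  classical
  unfold irrL at h
  obtain ⟨φ, hφ, rfl⟩ := Finset.mem_image.1 h
  obtain ⟨n, ρ, hρ, rfl⟩ := mem_irrFin.1 hφ
  exact ⟨infl ρ, (irr_of_desc (R := infl ρ) (ρ := ρ) fun g => rfl).2 hρ, rfl, infl_level ρ⟩

lemma sum_irrL (F : ((Ω ≃ₐ[ℚ] Ω) → ℂ) → ℂ) : ∑ χ ∈ irrL L, F χ =
    ∑ φ ∈ irrFin (L ≃ₐ[ℚ] L), F (fun g => φ (AlgEquiv.restrictNormalHom L g)) := by
  classical
  unfold irrL
  exact Finset.sum_image fun φ _ ψ _ h => comp_res_inj L h

/-- completeness: every class function of level `L` is a combination of irreducible characters of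
level `L` -/
theorem char_complete (L : IntermediateField ℚ Ω) [NumberField L] [IsGalois ℚ L]
    {f : (Ω ≃ₐ[ℚ] Ω) → ℂ} (hL : Lvl L f) (hf : IsCl f) :
    ∃ (s : Finset ((Ω ≃ₐ[ℚ] Ω) → ℂ)) (c : ((Ω ≃ₐ[ℚ] Ω) → ℂ) → ℂ),
      (∀ χ ∈ s, ∃ R : ArtinRep Ω, R.Irr ∧ R.char = χ ∧ ∀ g ∈ L.fixingSubgroup, R.ρ g = 1) ∧
      f = fun g => ∑ χ ∈ s, c χ * χ g := by
  classical
  have h1 := classFun_eq_sum (desc_isCl hL hf)
  refine ⟨irrL L, fun χ => ip (desc L f) (desc L χ), fun χ hχ => mem_irrL hχ, ?_⟩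
  funext g
  rw [sum_irrL, ← desc_res hL g]
  conv_lhs => rw [h1]
  rw [Finset.sum_apply]
  refine Finset.sum_congr rfl fun φ _ => ?_
  have h2 : desc L (fun g => φ (AlgEquiv.restrictNormalHom L g)) = φ := by
    funext τ
    exact congrArg φ (Function.surjInv_eq (res_surj L) τ)
  beta_reduce
  rw [h2]
  rfl

/-- every character is a combination of irreducible characters with natural coefficients -/
theorem char_decomp (R : ArtinRep Ω) (L : IntermediateField ℚ Ω) [NumberField L] [IsGalois ℚ L]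
    (h : ∀ g ∈ L.fixingSubgroup, R.ρ g = 1) :
    ∃ (s : Finset ((Ω ≃ₐ[ℚ] Ω) → ℂ)) (c : ((Ω ≃ₐ[ℚ] Ω) → ℂ) → ℕ),
      (∀ χ ∈ s, ∃ R' : ArtinRep Ω, R'.Irr ∧ R'.char = χ ∧ ∀ g ∈ L.fixingSubgroup, R'.ρ g = 1) ∧
      R.char = fun g => ∑ χ ∈ s, (c χ : ℂ) * χ g := by
  classical
  obtain ⟨ρ, hρ⟩ := exists_desc R h
  obtain ⟨m, hm⟩ := chi_eq_sum _ ρ
  refine ⟨irrL L, fun χ => m (desc L χ), fun χ hχ => mem_irrL hχ, ?_⟩
  funext g
  rw [sum_irrL (fun χ => ((m (desc L χ) : ℕ) : ℂ) * χ g), char_of_desc hρ, hm, Finset.sum_apply]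
  refine Finset.sum_congr rfl fun φ _ => ?_
  have h2 : desc L (fun g => φ (AlgEquiv.restrictNormalHom L g)) = φ := by
    funext τ
    exact congrArg φ (Function.surjInv_eq (res_surj L) τ)
  beta_reduce
  rw [h2]
  rfl

end

end Pool.Agent.Work.MP_2b9663_nt
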