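import Pool.Agent.Work.MP_2b9663_nt.Ch.MainA

set_option autoImplicit false

/-!
Twists without exceptions.
-/

namespace Pool.Agent.Work.MP_2b9663_nt

open NumberField Filter Topology ComplexConjugate

section

variable {Ω : Type} [Field Ω] [CharZero Ω]

variable (Ω) in
/-- Twists without exceptions: let the twist of `t` by the Artin representation `R`, trivial over the
Galois number field `L`, have the order `m` at the point `s₀ + i y`, `s₀ = i / 2 + 1`. Then `|m|` is
at most `b` times the mean value of `|tr R g|` over all `g` in `Gal(L/ℚ)`; in particular `m = 0` if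
this mean value is less than `1 / b`, for instance if `R` is irreducible and its character vanishes
at the automorphisms not over a Galois number field `K₀` with `[K₀ : ℚ] > b ^ 2`. -/
def NoExceptions (G : Nat.Primes → Prop) (t : Nat.Primes → ℕ → ℂ) (i b : ℕ) : Prop :=
  ∀ (R : ArtinRep Ω) (y : ℝ) (m : ℤ), OrdArtin G t i R y m →
    (∀ (L : IntermediateField ℚ Ω) [NumberField L] [IsGalois ℚ L],
      (∀ g ∈ L.fixingSubgroup, R.ρ g = 1) →
        |(m : ℝ)| ≤ b * (meanAt L fun g => ((‖R.char g‖ : ℝ) : ℂ)).re ∧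
        (b * (meanAt L fun g => ((‖R.char g‖ : ℝ) : ℂ)).re < 1 → m = 0)) ∧
    ∀ (K₀ : IntermediateField ℚ Ω) [NumberField K₀] [IsGalois ℚ K₀], R.Irr →
      (∀ g, g ∉ K₀.fixingSubgroup → R.char g = 0) → b ^ 2 < Module.finrank ℚ K₀ → m = 0

variable [IsAlgClosure ℚ Ω] {G : Nat.Primes → Prop} {t : Nat.Primes → ℕ → ℂ} {i b : ℕ}

theorem noExceptions (h : WeilBound G t i b) : NoExceptions Ω G t i b := by
  intro R y m hm
  obtain ⟨Fr, hFr⟩ := exists_frobs (Ω := Ω)
  refine ⟨fun L _ _ hL => ?_, fun K₀ _ _ hR hK hb => ?_⟩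
  · have hl : Lvl L R.char := ArtinRep.lvl_char hL
    have e1 := chebΩ Fr hFr L (fun g => ((‖R.char g‖ : ℝ) : ℂ)) (hl.comp fun z => ((‖z‖ : ℝ) : ℂ))
      (R.isCl_char.comp fun z => ((‖z‖ : ℝ) : ℂ)) 0
    rw [if_pos rfl] at e1
    have e2 := (e1.congr (d := fun p => ((‖R.char (Fr p)‖ : ℝ) : ℂ)) ∅ fun p _ => by
      rw [pw_zero, mul_one]).re
    simp only [Complex.ofReal_re] at e2
    have e3 := (hm.mvc h hFr).norm_le (e2.const_mul (b : ℝ)) ∅ fun p _ => by
      rw [norm_mul, norm_mul, norm_pw, mul_one, RCLike.norm_conj]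
      exact mul_le_mul_of_nonneg_right (nt_norm_le (Nat.cast_nonneg b) h p) (norm_nonneg _)
    rw [norm_neg, Complex.norm_intCast] at e3
    refine ⟨e3, fun hlt => ?_⟩
    have e4 : |(m : ℝ)| < 1 := e3.trans_lt hlt
    have e5 : |m| < 1 := by exact_mod_cast e4
    exact Int.abs_lt_one_iff.1 e5
  · have e1 := edgeBessel h K₀ Unit Finset.univ (fun _ => R) (fun _ => y) (fun _ => m)
      (fun _ _ => ⟨hR, hK, hm⟩) (fun j _ l _ hjl => absurd (Subsingleton.elim j l) hjl)
    rw [Finset.univ_unique, Finset.sum_singleton] at e1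
    by_contra hm0
    have e2 : (1 : ℤ) ≤ m ^ 2 := by
      have := sq_pos_of_ne_zero hm0
      linarith
    have e3 : ((b : ℤ)) ^ 2 < Module.finrank ℚ K₀ := by exact_mod_cast hb
    nlinarith

end

end Pool.Agent.Work.MP_2b9663_nt
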