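import Pool.Agent.Work.MP_2b9663_nt.Ch.DefsStable
import Pool.Agent.Work.MP_2b9663_nt.Ch.MainA
import Pool.Agent.Work.MP_2b9663_nt.Ch.VirtMult

set_option autoImplicit false

/-!
The orders of the twists by Artin representations of bounded rank depend only on the restrictions
to the Galois group of one number field.
-/

namespace Pool.Agent.Work.MP_2b9663_nt

open NumberField Filter Topology ComplexConjugate

section

variable {Ω : Type} [Field Ω] [CharZero Ω]

variable {G : Nat.Primes → Prop} {t : Nat.Primes → ℕ → ℂ} {i b : ℕ}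

lemma OrdTwist.ordArtin {R : ArtinRep Ω} {m : ℤ} (h : OrdTwist G t i R m) :
    OrdArtin G t i R 0 m := by
  obtain ⟨F, h1, h2⟩ := h
  have e : (i : ℂ) / 2 + 1 + Complex.I * ((0 : ℝ) : ℂ) = (i : ℂ) / 2 + 1 := by simp
  exact ⟨F, by rwa [e], by rwa [e]⟩

lemma OrdArtin.ordTwist {R : ArtinRep Ω} {m : ℤ} (h : OrdArtin G t i R 0 m) :
    OrdTwist G t i R m := by
  obtain ⟨F, h1, h2⟩ := h
  have e : (i : ℂ) / 2 + 1 + Complex.I * ((0 : ℝ) : ℂ) = (i : ℂ) / 2 + 1 := by simp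
  rw [e] at h1 h2
  exact ⟨F, h1, h2⟩

/-- a failure of the stability over `M` -/
structure Bad (G : Nat.Primes → Prop) (t : Nat.Primes → ℕ → ℂ) (i r : ℕ)
    (M : IntermediateField ℚ Ω) (R R' : ArtinRep Ω) (m m' e : ℤ) : Prop where
  hr : R.RankLe r
  hr' : R'.RankLe r
  o : OrdTwist G t i R m
  o' : OrdTwist G t i R' m'
  he : e = 0 ∨ e = 1
  orth : ∀ S : ArtinRep Ω, S.Irr → (∀ g ∈ M.fixingSubgroup, S.ρ g = 1) →
    ∃ x x' : ℂ, InnerEq R.char S.char x ∧ InnerEq R'.char S.char x' ∧ x - e * x' = 0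
  ne : m - e * m' ≠ 0

/-- the absolute values of the mean values -/
lemma meanAt_ofReal (L : IntermediateField ℚ Ω) [Fintype ((Ω ≃ₐ[ℚ] Ω) ⧸ L.fixingSubgroup)]
    (f : (Ω ≃ₐ[ℚ] Ω) → ℝ) : (meanAt L fun g => (f g : ℂ)).re =
      (∑ q : (Ω ≃ₐ[ℚ] Ω) ⧸ L.fixingSubgroup, f q.out) /
        (Fintype.card ((Ω ≃ₐ[ℚ] Ω) ⧸ L.fixingSubgroup) : ℝ) := by
  rw [meanAt_eq]
  have : (∑ q : (Ω ≃ₐ[ℚ] Ω) ⧸ L.fixingSubgroup, ((f q.out : ℝ) : ℂ)) /
      (Fintype.card ((Ω ≃ₐ[ℚ] Ω) ⧸ L.fixingSubgroup) : ℂ) =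
      (((∑ q : (Ω ≃ₐ[ℚ] Ω) ⧸ L.fixingSubgroup, f q.out) /
        (Fintype.card ((Ω ≃ₐ[ℚ] Ω) ⧸ L.fixingSubgroup) : ℝ) : ℝ) : ℂ) := by push_cast; rfl
  rw [this, Complex.ofReal_re]

variable [IsAlgClosure ℚ Ω]

/-- the square of the mean value is at most the mean value of the square -/
lemma mean_sq_le (L : IntermediateField ℚ Ω) [NumberField L] (f : (Ω ≃ₐ[ℚ] Ω) → ℝ) :
    (meanAt L fun g => (f g : ℂ)).re ^ 2 ≤ (meanAt L fun g => ((f g ^ 2 : ℝ) : ℂ)).re := by
  have := finite_quot L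
  cases nonempty_fintype ((Ω ≃ₐ[ℚ] Ω) ⧸ L.fixingSubgroup)
  rw [meanAt_ofReal L f, meanAt_ofReal L fun g => f g ^ 2, div_pow]
  have h0 : (0 : ℝ) < (Fintype.card ((Ω ≃ₐ[ℚ] Ω) ⧸ L.fixingSubgroup) : ℝ) := by
    exact_mod_cast Fintype.card_pos
  rw [div_le_div_iff₀ (by positivity) h0, sq, mul_comm (∑ q : (Ω ≃ₐ[ℚ] Ω) ⧸ L.fixingSubgroup, _), sq]
  have h1 := sq_sum_le_card_mul_sum_sq (s := (Finset.univ : Finset ((Ω ≃ₐ[ℚ] Ω) ⧸ L.fixingSubgroup)))
    (f := fun q => f q.out)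
  rw [Finset.card_univ, sq] at h1
  nlinarith [h1, h0]

lemma mean_mono (L : IntermediateField ℚ Ω) [NumberField L] {f f' : (Ω ≃ₐ[ℚ] Ω) → ℝ}
    (h : ∀ g, f g ≤ f' g) :
    (meanAt L fun g => (f g : ℂ)).re ≤ (meanAt L fun g => (f' g : ℂ)).re := by
  have := finite_quot L
  cases nonempty_fintype ((Ω ≃ₐ[ℚ] Ω) ⧸ L.fixingSubgroup)
  rw [meanAt_ofReal L f, meanAt_ofReal L f']
  exact div_le_div_of_nonneg_right (Finset.sum_le_sum fun q _ => h _) (Nat.cast_nonneg _)

lemma mean_add_re (L : IntermediateField ℚ Ω) [NumberField L] (f f' : (Ω ≃ₐ[ℚ] Ω) → ℝ) :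
    (meanAt L fun g => ((2 * f g + 2 * f' g : ℝ) : ℂ)).re =
      2 * (meanAt L fun g => (f g : ℂ)).re + 2 * (meanAt L fun g => (f' g : ℂ)).re := by
  have := finite_quot L
  cases nonempty_fintype ((Ω ≃ₐ[ℚ] Ω) ⧸ L.fixingSubgroup)
  rw [meanAt_ofReal L f, meanAt_ofReal L f', meanAt_ofReal L fun g => 2 * f g + 2 * f' g,
    Finset.sum_add_distrib, ← Finset.mul_sum, ← Finset.mul_sum]
  ring

/-- the inner product at any level -/
lemma InnerEq.meanAt {f g : (Ω ≃ₐ[ℚ] Ω) → ℂ} {x : ℂ} (h : InnerEq f g x)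
    (L : IntermediateField ℚ Ω) [NumberField L] [IsGalois ℚ L] (hf : Lvl L f) (hg : Lvl L g) :
    meanAt L (fun h => f h * conj (g h)) = x := by
  obtain ⟨L', h1, h2, h3, h4, h5⟩ := h
  rw [← h5]
  exact meanAt_level (hf.comp₂ hg fun z w => z * conj w) (h3.comp₂ h4 fun z w => z * conj w)

/-- the difference of the two characters is orthogonal to the class functions of level `M` -/
lemma Bad.orthogonal {r : ℕ} {M : IntermediateField ℚ Ω} [NumberField M] [IsGalois ℚ M]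
    {R R' : ArtinRep Ω} {m m' e : ℤ} (hB : Bad G t i r M R R' m m' e)
    (L : IntermediateField ℚ Ω) [NumberField L] [IsGalois ℚ L] (hML : M ≤ L)
    (hR : ∀ g ∈ L.fixingSubgroup, R.ρ g = 1) (hR' : ∀ g ∈ L.fixingSubgroup, R'.ρ g = 1)
    {f : (Ω ≃ₐ[ℚ] Ω) → ℂ} (hf : Lvl M f) (hfc : IsCl f) :
    meanAt L (fun g => (R.char g - e * R'.char g) * conj (f g)) = 0 := by
  have hfq := finite_quot L
  obtain ⟨s, c, hs, rfl⟩ := char_complete M hf hfc
  have e1 : (fun g => (R.char g - e * R'.char g) * conj (∑ χ ∈ s, c χ * χ g)) =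
      fun g => ∑ χ ∈ s, conj (c χ) * ((R.char g - e * R'.char g) * conj (χ g)) := by
    funext g
    rw [map_sum, Finset.mul_sum]
    refine Finset.sum_congr rfl fun χ _ => ?_
    rw [map_mul]
    ring
  rw [e1, meanAt_sum]
  refine Finset.sum_eq_zero fun χ hχ => ?_
  obtain ⟨S, hS, hSχ, hSM⟩ := hs χ hχ
  obtain ⟨x, x', h1, h2, h3⟩ := hB.orth S hS hSM
  have hSL : Lvl L S.char := ArtinRep.lvl_char fun g hg =>
    hSM g (IntermediateField.fixingSubgroup_le hML hg)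
  have h4 := h1.meanAt L (ArtinRep.lvl_char hR) hSL
  have h5 := h2.meanAt L (ArtinRep.lvl_char hR') hSL
  rw [meanAt_const_mul]
  have e2 : (fun g => (R.char g - e * R'.char g) * conj (χ g)) =
      fun g => ∑ j ∈ (Finset.univ : Finset Bool), (cond j (R.char g * conj (S.char g))
        (-(e : ℂ) * (R'.char g * conj (S.char g)))) := by
    funext g
    rw [Fintype.sum_bool, ← hSχ]
    simp only [cond_true, cond_false]
    ring
  rw [e2, meanAt_sum L Finset.univ fun j g => cond j (R.char g * conj (S.char g))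
        (-(e : ℂ) * (R'.char g * conj (S.char g))), Fintype.sum_bool]
  simp only [cond_true, cond_false]
  rw [meanAt_const_mul, h4, h5, neg_mul, ← sub_eq_add_neg, h3, mul_zero]

/-- the norm of the difference of the two characters -/
lemma Bad.norm_le {r : ℕ} {M : IntermediateField ℚ Ω} {R R' : ArtinRep Ω} {m m' e : ℤ}
    (hB : Bad G t i r M R R' m m' e) (L : IntermediateField ℚ Ω) [NumberField L] [IsGalois ℚ L]
    (hR : ∀ g ∈ L.fixingSubgroup, R.ρ g = 1) (hR' : ∀ g ∈ L.fixingSubgroup, R'.ρ g = 1) :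
    (meanAt L (fun g => ((‖R.char g - e * R'.char g‖ ^ 2 : ℝ) : ℂ))).re ≤ 4 * r := by
  have key : ∀ R : ArtinRep Ω, R.RankLe r → (∀ g ∈ L.fixingSubgroup, R.ρ g = 1) →
      (meanAt L (fun g => ((‖R.char g‖ ^ 2 : ℝ) : ℂ))).re ≤ r := by
    intro R hr hR
    obtain ⟨n, hn, h⟩ := hr
    have h1 := h.meanAt L (ArtinRep.lvl_char hR) (ArtinRep.lvl_char hR)
    have e1 : (fun g => R.char g * conj (R.char g)) = fun g => ((‖R.char g‖ ^ 2 : ℝ) : ℂ) := by
      funext g
      rw [Complex.mul_conj, Complex.normSq_eq_norm_sq]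
    rw [e1] at h1
    rw [h1, Complex.natCast_re]
    exact_mod_cast hn
  have h1 := key R hB.hr hR
  have h2 := key R' hB.hr' hR'
  have h3 : ∀ g, ‖R.char g - e * R'.char g‖ ^ 2 ≤ 2 * ‖R.char g‖ ^ 2 + 2 * ‖R'.char g‖ ^ 2 := by
    intro g
    have e1 : ‖(e : ℂ) * R'.char g‖ ≤ ‖R'.char g‖ := by
      rcases hB.he with h | h
      · rw [h]; simp
      · rw [h]; simp
    have e2 := norm_sub_le (R.char g) (e * R'.char g)
    have e3 := norm_nonneg (R.char g)
    have e4 := norm_nonneg (R'.char g)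
    have e5 : ‖R.char g - e * R'.char g‖ ≤ ‖R.char g‖ + ‖R'.char g‖ := e2.trans (by linarith)
    have e6 := norm_nonneg (R.char g - e * R'.char g)
    nlinarith [sq_nonneg (‖R.char g‖ - ‖R'.char g‖)]
  have h4 := mean_mono L h3
  rw [mean_add_re L (fun g => ‖R.char g‖ ^ 2) fun g => ‖R'.char g‖ ^ 2] at h4
  linarith

/-- the number of failures is bounded -/
lemma bad_le (h : WeilBound G t i b) {r : ℕ} (M : ℕ → IntermediateField ℚ Ω)
    (hM1 : ∀ k, NumberField (M k)) (hM2 : ∀ k, IsGalois ℚ (M k)) (hM : ∀ k, M k ≤ M (k + 1))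
    (R R' : ℕ → ArtinRep Ω) (m m' e : ℕ → ℤ)
    (hR : ∀ k, ∀ g ∈ (M (k + 1)).fixingSubgroup, (R k).ρ g = 1)
    (hR' : ∀ k, ∀ g ∈ (M (k + 1)).fixingSubgroup, (R' k).ρ g = 1)
    (hB : ∀ k, Bad G t i r (M k) (R k) (R' k) (m k) (m' k) (e k)) (N : ℕ) : N ≤ 4 * r * b ^ 2 := by
  classical
  have hmono : Monotone M := monotone_nat_of_le_succ hM
  have hN1 := hM1 N
  have hN2 := hM2 N
  have hfq := finite_quot (M N)
  have hRN : ∀ k, k < N → ∀ l, k < l → ∀ g ∈ (M l).fixingSubgroup, (R k).ρ g = 1 :=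
    fun k _ l hl g hg => hR k g (IntermediateField.fixingSubgroup_le (hmono hl) hg)
  have hRN' : ∀ k, k < N → ∀ l, k < l → ∀ g ∈ (M l).fixingSubgroup, (R' k).ρ g = 1 :=
    fun k _ l hl g hg => hR' k g (IntermediateField.fixingSubgroup_le (hmono hl) hg)
  -- the functions
  set D : ℕ → (Ω ≃ₐ[ℚ] Ω) → ℂ := fun k g => (R k).char g - e k * (R' k).char g with hD
  have hDl : ∀ k l, k < N → k < l → Lvl (M l) (D k) := fun k l hk hl =>
    (ArtinRep.lvl_char (hRN k hk l hl)).comp₂ (ArtinRep.lvl_char (hRN' k hk l hl))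
      fun z w => z - e k * w
  have hDc : ∀ k, IsCl (D k) := fun k =>
    (R k).isCl_char.comp₂ (R' k).isCl_char fun z w => z - e k * w
  set δ : ℕ → ℤ := fun k => m k - e k * m' k with hδ
  have horth : ∀ k l, k < l → l < N → meanAt (M N) (fun g => D l g * conj (D k g)) = 0 := by
    intro k l hkl hl
    have := hM1 l
    have := hM2 l
    exact (hB l).orthogonal (M N) (hmono hl.le) (hRN l hl N hl) (hRN' l hl N hl)
      (hDl k l (hkl.trans hl) hkl) (hDc k)
  have horth' : ∀ k l, l < k → k < N → meanAt (M N) (fun g => D l g * conj (D k g)) = 0 := by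
    intro k l hkl hl
    have h1 := horth l k hkl hl
    have h2 : meanAt (M N) (fun g => D l g * conj (D k g)) =
        conj (meanAt (M N) (fun g => D k g * conj (D l g))) := by
      cases nonempty_fintype ((Ω ≃ₐ[ℚ] Ω) ⧸ (M N).fixingSubgroup)
      rw [meanAt_eq, meanAt_eq, map_div₀, map_sum, map_natCast]
      congr 1
      refine Finset.sum_congr rfl fun q _ => ?_
      rw [map_mul, Complex.conj_conj, mul_comm]
    rw [h2, h1, map_zero]
  -- the mean inequality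
  have h1 := meanInequality (Ω := Ω) h (M N) (ℕ × Bool) Empty (Finset.range N ×ˢ Finset.univ) ∅
    (fun j => cond j.2 (R j.1) (R' j.1)) (fun l => l.elim)
    (fun j => cond j.2 (m j.1) (m' j.1)) (fun l => l.elim)
    (fun j => cond j.2 (δ j.1 : ℂ) (-(δ j.1 : ℂ) * e j.1)) (fun l => l.elim) (by
      rintro ⟨k, j⟩ hj
      rw [Finset.mem_product, Finset.mem_range] at hj
      cases j
      · exact ⟨(hB k).o'.ordArtin, hRN' k hj.1 N hj.1⟩
      · exact ⟨(hB k).o.ordArtin, hRN k hj.1 N hj.1⟩) (fun l => l.elim)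
  simp only [Finset.sum_product, Fintype.sum_bool, cond_true, cond_false, Finset.sum_empty,
    add_zero] at h1
  have e1 : ∑ k ∈ Finset.range N, ((δ k : ℂ) * (m k : ℂ) + -(δ k : ℂ) * (e k : ℂ) * (m' k : ℂ)) =
      ((∑ k ∈ Finset.range N, (δ k : ℝ) ^ 2 : ℝ) : ℂ) := by
    push_cast
    refine Finset.sum_congr rfl fun k _ => ?_
    simp only [hδ]
    push_cast
    ring
  have e2 : (fun g => ((‖∑ k ∈ Finset.range N, ((δ k : ℂ) * (R k).char g +
      -(δ k : ℂ) * (e k : ℂ) * (R' k).char g)‖ : ℝ) : ℂ)) =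
      fun g => ((‖∑ k ∈ Finset.range N, (δ k : ℂ) * D k g‖ : ℝ) : ℂ) := by
    funext g
    congr 2
    refine Finset.sum_congr rfl fun k _ => ?_
    simp only [hD]
    ring
  rw [e1, e2] at h1
  set S : ℝ := ∑ k ∈ Finset.range N, (δ k : ℝ) ^ 2 with hS
  have hS0 : 0 ≤ S := Finset.sum_nonneg fun k _ => sq_nonneg _
  rw [Complex.norm_real, Real.norm_of_nonneg hS0] at h1
  -- the mean square
  have h2 := mean_sq_le (M N) fun g => ‖∑ k ∈ Finset.range N, (δ k : ℂ) * D k g‖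
  have h3 : (meanAt (M N) fun g =>
      ((‖∑ k ∈ Finset.range N, (δ k : ℂ) * D k g‖ ^ 2 : ℝ) : ℂ)).re ≤ 4 * r * S := by
    have e3 : (fun g => ((‖∑ k ∈ Finset.range N, (δ k : ℂ) * D k g‖ ^ 2 : ℝ) : ℂ)) =
        fun g => ∑ k ∈ Finset.range N, ∑ l ∈ Finset.range N,
          ((δ k : ℂ) * (δ l : ℂ)) * (D k g * conj (D l g)) := by
      funext g
      rw [← Complex.normSq_eq_norm_sq, ← Complex.mul_conj, map_sum, Finset.sum_mul_sum]
      refine Finset.sum_congr rfl fun k _ => Finset.sum_congr rfl fun l _ => ?_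
      rw [map_mul, map_intCast]
      ring
    rw [e3, meanAt_sum (M N) (Finset.range N) fun k g => ∑ l ∈ Finset.range N,
      ((δ k : ℂ) * (δ l : ℂ)) * (D k g * conj (D l g)), Complex.re_sum, Finset.mul_sum]
    refine Finset.sum_le_sum fun k hk => ?_
    rw [Finset.mem_range] at hk
    rw [meanAt_sum (M N) (Finset.range N) fun l g =>
      ((δ k : ℂ) * (δ l : ℂ)) * (D k g * conj (D l g)), Finset.sum_eq_single k]
    · rw [meanAt_const_mul]
      have h4 := (hB k).norm_le (M N) (hRN k hk N hk) (hRN' k hk N hk)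
      have e4 : (fun g => D k g * conj (D k g)) =
          fun g => ((‖(R k).char g - e k * (R' k).char g‖ ^ 2 : ℝ) : ℂ) := by
        funext g
        rw [Complex.mul_conj, Complex.normSq_eq_norm_sq]
      rw [e4]
      have e5 : ((δ k : ℂ) * (δ k : ℂ)) = (((δ k : ℝ) ^ 2 : ℝ) : ℂ) := by push_cast; ring
      rw [e5, Complex.re_ofReal_mul]
      nlinarith [sq_nonneg (δ k : ℝ)]
    · intro l hl hlk
      rw [Finset.mem_range] at hl
      rw [meanAt_const_mul]
      rcases lt_or_gt_of_ne hlk with h5 | h5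
      · rw [horth l k h5 hk, mul_zero]
      · rw [horth' l k h5 hl, mul_zero]
    · intro h5
      exact absurd (Finset.mem_range.2 hk) h5
  -- conclusion
  have h4 : (N : ℝ) ≤ S := by
    have h5 : ∀ k ∈ Finset.range N, (1 : ℝ) ≤ (δ k : ℝ) ^ 2 := by
      intro k _
      have h6 : (1 : ℤ) ≤ δ k ^ 2 := by
        have h7 : 0 < δ k ^ 2 := by
          have := (hB k).ne
          positivity
        omega
      exact_mod_cast h6
    have h6 := Finset.sum_le_sum h5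
    rw [Finset.sum_const, Finset.card_range, nsmul_eq_mul, mul_one] at h6
    exact h6
  have h5 : S ^ 2 ≤ 4 * r * b ^ 2 * S := by
    have h6 : S ^ 2 ≤ (b * (meanAt (M N) fun g =>
        ((‖∑ k ∈ Finset.range N, (δ k : ℂ) * D k g‖ : ℝ) : ℂ)).re) ^ 2 :=
      pow_le_pow_left₀ hS0 h1 2
    rw [mul_pow] at h6
    have h7 := mul_le_mul_of_nonneg_left (h2.trans h3) (sq_nonneg (b : ℝ))
    linarith
  have h6 : S ≤ 4 * r * b ^ 2 := by
    rcases hS0.eq_or_lt with h7 | h7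
    · rw [← h7]
      positivity
    · nlinarith
  have h7 : (N : ℝ) ≤ ((4 * r * b ^ 2 : ℕ) : ℝ) := by
    push_cast
    exact h4.trans h6
  exact_mod_cast h7

/-- **Stability of the orders of the twists.** -/
theorem stableTwists (h : WeilBound G t i b) : StableTwists Ω G t i := by
  intro r
  by_contra hno
  -- failures over all Galois number fields
  have hbad : ∀ M : {M : IntermediateField ℚ Ω // NumberField M ∧ IsGalois ℚ M},
      ∃ (R R' : ArtinRep Ω) (m m' e : ℤ), Bad G t i r M.1 R R' m m' e := by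
    rintro ⟨M, hM1, hM2⟩
    by_contra hno'
    refine hno ⟨M, hM1, hM2, fun R R' m m' hr hr' ho => ⟨fun ho' hs => ?_, fun hs => ?_⟩⟩
    · by_contra hne
      refine hno' ⟨R, R', m, m', 1, hr, hr', ho, ho', Or.inr rfl, fun S hS hSM => ?_, ?_⟩
      · obtain ⟨x, h1, h2⟩ := hs S hS hSM
        exact ⟨x, x, h1, h2, by simp⟩
      · rw [one_mul]
        exact sub_ne_zero.2 hne
    · by_contra hne
      refine hno' ⟨R, R, m, m, 0, hr, hr, ho, ho, Or.inl rfl, fun S hS hSM => ?_, ?_⟩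
      · exact ⟨0, 0, hs S hS hSM, hs S hS hSM, by simp⟩
      · rw [zero_mul, sub_zero]
        exact hne
  choose R R' m m' e hB using hbad
  have hnext : ∀ M : {M : IntermediateField ℚ Ω // NumberField M ∧ IsGalois ℚ M},
      ∃ M' : {M : IntermediateField ℚ Ω // NumberField M ∧ IsGalois ℚ M}, M.1 ≤ M'.1 ∧
        (∀ g ∈ M'.1.fixingSubgroup, (R M).ρ g = 1) ∧
        ∀ g ∈ M'.1.fixingSubgroup, (R' M).ρ g = 1 := by
    intro M
    have := M.2.1
    obtain ⟨L, h1, h2, h3, h4, h5⟩ := exists_common (R M) (R' M) M.1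
    exact ⟨⟨L, h1, h2⟩, h3, h4, h5⟩
  choose nx hnx using hnext
  have hbot' : @IsGalois ℚ _ (⊥ : IntermediateField ℚ Ω) _
      (⊥ : IntermediateField ℚ Ω).algebra' := inferInstance
  have hbot : NumberField (⊥ : IntermediateField ℚ Ω) ∧ IsGalois ℚ (⊥ : IntermediateField ℚ Ω) :=
    ⟨⟨⟩, hbot'⟩
  let sq : ℕ → {M : IntermediateField ℚ Ω // NumberField M ∧ IsGalois ℚ M} :=
    fun k => nx^[k] ⟨⊥, hbot⟩
  have hsq : ∀ k, sq (k + 1) = nx (sq k) := fun k => Function.iterate_succ_apply' nx k _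
  have h1 := bad_le h (fun k => (sq k).1) (fun k => (sq k).2.1) (fun k => (sq k).2.2)
    (fun k => by
      show (sq k).1 ≤ (sq (k + 1)).1
      rw [hsq]
      exact (hnx _).1)
    (fun k => R (sq k)) (fun k => R' (sq k)) (fun k => m (sq k)) (fun k => m' (sq k))
    (fun k => e (sq k)) (fun k => by
      show ∀ g ∈ (sq (k + 1)).1.fixingSubgroup, _
      rw [hsq]
      exact (hnx _).2.1) (fun k => by
      show ∀ g ∈ (sq (k + 1)).1.fixingSubgroup, _
      rw [hsq]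
      exact (hnx _).2.2) (fun k => hB (sq k)) (4 * r * b ^ 2 + 1)
  omega

/-- **The virtual representation**, for the twists. -/
theorem virtualTwists (h : WeilBound G t i b) : VirtualTwists Ω G t i b := by
  intro E _ hall
  obtain ⟨M, s, r, h1, h2, h3, h4, h5, h6, h7, -⟩ := virtualRep (Ω := Ω) h E fun R hR hRE => by
    obtain ⟨m, hm⟩ := hall R hR hRE
    exact ⟨m, hm.ordArtin⟩
  refine ⟨M, s, r, h1, h2, h3, h4, h5, h6, fun R m hRE hm => ?_⟩
  -- a common level in `E`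
  obtain ⟨L, hL1, hL2, hLE, hL⟩ := exists_level_in E (Finset.univ : Finset Unit) (fun _ => R)
    fun _ _ => hRE
  have hRL := hL () (Finset.mem_univ _)
  obtain ⟨L', hL1', hL2', hLL', hML', hLE'⟩ : ∃ L' : IntermediateField ℚ Ω, NumberField L' ∧
      IsGalois ℚ L' ∧ L ≤ L' ∧ M ≤ L' ∧ L' ≤ E := by
    have e1 : FiniteDimensional ℚ L := hL1.to_finiteDimensional
    have e2 : FiniteDimensional ℚ M := h1.to_finiteDimensional
    have e3 : FiniteDimensional ℚ (L ⊔ M : IntermediateField ℚ Ω) :=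
      IntermediateField.finiteDimensional_sup L M
    have e4 : @IsGalois ℚ _ L _ L.algebra' := hL2
    have e5 : @IsGalois ℚ _ M _ M.algebra' := h2
    have e6 : @IsGalois ℚ _ (L ⊔ M : IntermediateField ℚ Ω) _ (L ⊔ M).algebra' := inferInstance
    exact ⟨L ⊔ M, ⟨⟩, e6, le_sup_left, le_sup_right, sup_le hLE h3⟩
  have hRL' : ∀ g ∈ L'.fixingSubgroup, R.ρ g = 1 := fun g hg =>
    hRL g (IntermediateField.fixingSubgroup_le hLL' hg)
  have h8 := (h7 L' hML' hLE').1 R m hRL' hm.ordArtin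
  refine ⟨L', hL1', hL2', ?_, ArtinRep.lvl_char hRL', ?_⟩
  · refine Lvl.sum s fun χ hχ => ?_
    obtain ⟨S, -, hSχ, hSM⟩ := h4 χ hχ
    have e1 : Lvl L' S.char := ArtinRep.lvl_char fun g hg =>
      hSM g (IntermediateField.fixingSubgroup_le hML' hg)
    rw [hSχ] at e1
    exact e1.comp fun z => (r χ : ℂ) * z
  · rw [h8, neg_neg]

end

end Pool.Agent.Work.MP_2b9663_nt
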