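import Pool.Agent.Work.MP_2b9663_nt.Ch.CDefs
import Pool.Agent.Work.MP_2b9663_nt.Ch.Defs
import Pool.Agent.Work.MP_2b9663_nt.Ch.Pw
import Pool.Agent.Work.MP_2b9663_nt.BaseChange

set_option autoImplicit false

/-!
ARTIN (MP_2b9663_nt): the statements of the modules.  Do not import this file; copy what you need
as `sorry` statements until the real module is on main.
-/

namespace Pool.Agent.Work.MP_2b9663_nt

open NumberField Filter Topology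

/-! ## Theorem A: `Ch/ThmA.lean` (helper85) -/

/-- `χ ∘ N` is not trivial on the prime ideals of degree one -/
def NonTriv (K : Type) [Field K] [NumberField K] {m : ℕ} (χ : DirichletCharacter ℂ m) : Prop :=
  ∀ N : ℕ, ∃ p : ℕ, N < p ∧ p.Prime ∧ idc K p ≠ 0 ∧ ¬ p ∣ m ∧ χ (p : ZMod m) ≠ 1

theorem thmA (K : Type) [Field K] [NumberField K] {m : ℕ} [NeZero m] (χ : DirichletCharacter ℂ m)
    (y : ℝ) (h : y ≠ 0 ∨ NonTriv K χ) :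
    ∃ F : ℂ → ℂ, AnalyticAt ℂ F (1 + Complex.I * y) ∧ ∀ s : ℂ, 1 < s.re → F s = LL K χ s := sorry

/-! ## `Ch/EulerLog.lean` (helper89) -/

theorem euler_log (K : Type) [Field K] [NumberField K] : ∃ P₀ : ℕ, ∀ {m : ℕ} [NeZero m]
    (χ : DirichletCharacter ℂ m), (∀ p : ℕ, p.Prime → p ≤ P₀ → χ (p : ZMod m) = 0) → ∀ y : ℝ,
    ∃ (Λ : ℝ → ℂ) (C : ℝ), ContinuousOn Λ (Set.Ioi 0) ∧
      (∀ ε : ℝ, 0 < ε → Complex.exp (Λ ε) = LL K χ (1 + ε + Complex.I * y)) ∧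
      ∀ ε : ℝ, 0 < ε → ε ≤ 1 →
        ‖Λ ε - PSC (fun p => χ ((p : ℕ) : ZMod m) * (idc K p : ℂ) * pw y p) ε‖ ≤ C := sorry

/-! ## `Ch/Arg.lean` (helper40) -/

theorem arg_lemma {Λ : ℝ → ℂ} (hΛ : ContinuousOn Λ (Set.Ioi 0)) {F : ℂ → ℂ} {s₀ : ℂ}
    (hF : MeromorphicAt F s₀) (h : ∀ᶠ ε : ℝ in 𝓝[>] 0, Complex.exp (Λ ε) = F (s₀ + ε)) :
    ∃ n : ℤ, meromorphicOrderAt F s₀ = n ∧
      ∃ C : ℝ, ∀ᶠ ε : ℝ in 𝓝[>] 0, ‖Λ ε - (n : ℂ) * (Real.log ε : ℂ)‖ ≤ C := sorry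

/-! ## Theorem B: `Ch/ThmB.lean` (helper65) -/

section

variable {L : Type} [Field L] [NumberField L] [IsGalois ℚ L] {m : ℕ} [NeZero m] {ζ : L}

/-- `κ` is the cyclotomic character -/
theorem thmB (hζ : IsPrimitiveRoot ζ m) (κ : (L ≃ₐ[ℚ] L) →* (ZMod m)ˣ)
    (hκ : ∀ g, g ζ = ζ ^ ((κ g : ZMod m).val)) (K : IntermediateField ℚ L)
    (χ : DirichletCharacter ℂ m) (y : ℝ) :
    ((y = 0 ∧ ∀ g ∈ K.fixingSubgroup, χ (κ g : ZMod m) = 1) →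
      MVC (fun p => χ ((p : ℕ) : ZMod m) * (idc K p : ℂ) * pw y p) 1) ∧
    ((y ≠ 0 ∨ ∃ g ∈ K.fixingSubgroup, χ (κ g : ZMod m) ≠ 1) →
      MVC (fun p => χ ((p : ℕ) : ZMod m) * (idc K p : ℂ) * pw y p) 0) := sorry

open scoped Classical in
/-- the classes of the `c` on which `κ` is injective -/
theorem thmB_class (hζ : IsPrimitiveRoot ζ m) (κ : (L ≃ₐ[ℚ] L) →* (ZMod m)ˣ)
    (hκ : ∀ g, g ζ = ζ ^ ((κ g : ZMod m).val)) (c : L ≃ₐ[ℚ] L)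
    (hc : ∀ k : ℤ, κ (c ^ k) = 1 → c ^ k = 1) (y : ℝ) :
    MVC (fun p => (if IsConj c (frob L p) then 1 else 0) * pw y p)
      (if y = 0 then (Nat.card {g : L ≃ₐ[ℚ] L // IsConj c g} : ℂ) / Nat.card (L ≃ₐ[ℚ] L) else 0) :=
  sorry

end

/-! ## Frobenius elements: `Ch/FrobConj.lean`, `Ch/Cross.lean` (helper99) -/

section

variable {L : Type} [Field L] [NumberField L] [IsGalois ℚ L]

theorem frob_conj : ∃ D : ℕ, D ≠ 0 ∧ ∀ (p : ℕ) (φ φ' : L ≃ₐ[ℚ] L) (P P' : Ideal (𝓞 L)),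
    FrobData p φ P → FrobData p φ' P' → ¬ p ∣ D → IsConj φ φ' := sorry

theorem frob_cyc {m : ℕ} [NeZero m] {ζ : L} (hζ : IsPrimitiveRoot ζ m)
    (κ : (L ≃ₐ[ℚ] L) →* (ZMod m)ˣ) (hκ : ∀ g, g ζ = ζ ^ ((κ g : ZMod m).val)) :
    ∃ D : ℕ, D ≠ 0 ∧ ∀ (p : ℕ) (φ : L ≃ₐ[ℚ] L) (P : Ideal (𝓞 L)), FrobData p φ P → ¬ p ∣ D →
      ((κ φ : (ZMod m)ˣ) : ZMod m) = (p : ZMod m) := sorry

/-- the restriction of a Frobenius element of an algebraic closure -/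
theorem frobData_of_isFrob {Ω : Type} [Field Ω] [CharZero Ω] [IsAlgClosure ℚ Ω]
    (M : IntermediateField ℚ Ω) [NumberField M] [IsGalois ℚ M] {p : ℕ} (hp : p.Prime)
    {g : Ω ≃ₐ[ℚ] Ω} (hg : IsFrob p g) :
    ∃ P : Ideal (𝓞 M), FrobData p (AlgEquiv.restrictNormalHom M g) P := sorry

theorem exists_isFrob {Ω : Type} [Field Ω] [CharZero Ω] [IsAlgClosure ℚ Ω] {p : ℕ}
    (hp : p.Prime) : ∃ g : Ω ≃ₐ[ℚ] Ω, IsFrob p g := sorry

end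

/-! ## Counting: `Ch/CountTau.lean` (helper49) -/

theorem exists_modulus (n : ℕ) (hn : n ≠ 0) {δ : ℝ} (hδ : 0 < δ) : ∃ m : ℕ, m.Prime ∧
    (Nat.card {τ : (ZMod m)ˣ // ¬ n ∣ orderOf τ} : ℝ) ≤ δ * Nat.card (ZMod m)ˣ := sorry

/-! ## Chebotarev: `Ch/Cheb.lean` (helper49) -/

section

theorem cheb {L : Type} [Field L] [NumberField L] [IsGalois ℚ L] (f : (L ≃ₐ[ℚ] L) → ℂ)
    (hf : IsCl f) (y : ℝ) :
    MVC (fun p => f (frob L p) * pw y p)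
      (if y = 0 then (∑ g, f g) / Fintype.card (L ≃ₐ[ℚ] L) else 0) := sorry

variable {Ω : Type} [Field Ω] [CharZero Ω] [IsAlgClosure ℚ Ω]

/-- **Chebotarev**, for any choice of the Frobenius elements -/
theorem chebΩ (Fr : Nat.Primes → (Ω ≃ₐ[ℚ] Ω)) (hFr : ∀ p : Nat.Primes, IsFrob (p : ℕ) (Fr p))
    (L : IntermediateField ℚ Ω) [NumberField L] [IsGalois ℚ L] (f : (Ω ≃ₐ[ℚ] Ω) → ℂ) (hL : Lvl L f)
    (hf : IsCl f) (y : ℝ) :
    MVC (fun p => f (Fr p) * pw y p) (if y = 0 then meanAt L f else 0) := sorry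

end

/-! ## Means of functions of finite level, characters: `Ch/Reps.lean` (helper19) -/

section

variable {Ω : Type} [Field Ω] [CharZero Ω] [IsAlgClosure ℚ Ω]

theorem meanAt_level {L L' : IntermediateField ℚ Ω} [NumberField L] [IsGalois ℚ L]
    [NumberField L'] [IsGalois ℚ L'] {f : (Ω ≃ₐ[ℚ] Ω) → ℂ} (h : Lvl L f) (h' : Lvl L' f) :
    meanAt L f = meanAt L' f := sorry

/-- a common Galois level -/
theorem exists_level {ι : Type} (s : Finset ι) (R : ι → ArtinRep Ω) :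
    ∃ (L : IntermediateField ℚ Ω), NumberField L ∧ IsGalois ℚ L ∧ ∀ j ∈ s, ∀ g,
      ∀ h ∈ L.fixingSubgroup, (R j).ρ (g * h) = (R j).ρ g := sorry

/-- the orthogonality relations -/
theorem char_orth (R R' : ArtinRep Ω) (hR : R.Irr) (hR' : R'.Irr) (L : IntermediateField ℚ Ω)
    [NumberField L] [IsGalois ℚ L] (h : Lvl L R.char) (h' : Lvl L R'.char) :
    (R.char = R'.char → meanAt L (fun g => R.char g * (starRingEnd ℂ) (R'.char g)) = 1) ∧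
    (R.char ≠ R'.char → meanAt L (fun g => R.char g * (starRingEnd ℂ) (R'.char g)) = 0) := sorry

/-- completeness: every class function of level `L` is a combination of irreducible characters of
level `L` -/
theorem char_complete (L : IntermediateField ℚ Ω) [NumberField L] [IsGalois ℚ L]
    {f : (Ω ≃ₐ[ℚ] Ω) → ℂ} (hL : Lvl L f) (hf : IsCl f) :
    ∃ (s : Finset ((Ω ≃ₐ[ℚ] Ω) → ℂ)) (c : ((Ω ≃ₐ[ℚ] Ω) → ℂ) → ℂ),
      (∀ χ ∈ s, ∃ R : ArtinRep Ω, R.Irr ∧ R.char = χ ∧ ∀ g ∈ L.fixingSubgroup, R.ρ g = 1) ∧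
      f = fun g => ∑ χ ∈ s, c χ * χ g := sorry

/-- every character is a combination of irreducible characters with natural coefficients -/
theorem char_decomp (R : ArtinRep Ω) (L : IntermediateField ℚ Ω) [NumberField L] [IsGalois ℚ L]
    (h : ∀ g ∈ L.fixingSubgroup, R.ρ g = 1) :
    ∃ (s : Finset ((Ω ≃ₐ[ℚ] Ω) → ℂ)) (c : ((Ω ≃ₐ[ℚ] Ω) → ℂ) → ℕ),
      (∀ χ ∈ s, ∃ R' : ArtinRep Ω, R'.Irr ∧ R'.char = χ ∧ ∀ g ∈ L.fixingSubgroup, R'.ρ g = 1) ∧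
      R.char = fun g => ∑ χ ∈ s, (c χ : ℂ) * χ g := sorry

/-- the contragredient representation has the conjugate character -/
theorem exists_dual (R : ArtinRep Ω) : ∃ R' : ArtinRep Ω, (R.Irr → R'.Irr) ∧
    (∀ g, R'.char g = (starRingEnd ℂ) (R.char g)) ∧
    ∀ g, R.ρ g = 1 → R'.ρ g = 1 := sorry

end

/-! ## Orders: `Ch/OrderC.lean` (helper5) -/

section

/-- As `IsEuler`, with exceptional factors that do not vanish at `s₁`. -/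
def IsEulerAt (G : Nat.Primes → Prop) (t : Nat.Primes → ℕ → ℂ) (i : ℕ) (s₁ : ℂ) (F : ℂ → ℂ) :
    Prop :=
  ∃ (T : Finset Nat.Primes) (Q : Nat.Primes → Polynomial ℂ), (∀ p, ¬ G p → p ∈ T) ∧
    (∀ p ∈ T, (Q p).eval (((p : ℕ) : ℂ) ^ (-s₁)) ≠ 0) ∧
    ∀ s : ℂ, (i : ℝ) / 2 + 1 < s.re →
      F s = (∏ p ∈ T, ((Q p).eval (((p : ℕ) : ℂ) ^ (-s)))⁻¹) *
        Complex.exp (∑' p : {p : Nat.Primes // p ∉ T}, logFactor (t p) p s)

/-- **The order of the continuation and the mean value of the traces**, at any point of the line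
`Re s = i / 2 + 1`. -/
theorem order_c {G : Nat.Primes → Prop} {t : Nat.Primes → ℕ → ℂ} {i : ℕ} {B : ℝ}
    (hB : 0 ≤ B) (h : WeilBound G t i B) {F : ℂ → ℂ} (y : ℝ)
    (hF : IsEulerAt G t i ((i : ℂ) / 2 + 1 + Complex.I * y) F)
    (hm : MeromorphicAt F ((i : ℂ) / 2 + 1 + Complex.I * y)) :
    ∃ n : ℤ, meromorphicOrderAt F ((i : ℂ) / 2 + 1 + Complex.I * y) = n ∧
      MVC (fun p => nt G t i p * pw y p) (-(n : ℂ)) := sorry

end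

/-! ## Bessel and the virtual representation: `Ch/Virtual.lean` (helper17) -/

section

variable {Ω : Type} [Field Ω] [CharZero Ω] [IsAlgClosure ℚ Ω] (Fr : Nat.Primes → (Ω ≃ₐ[ℚ] Ω))
  (hFr : ∀ p : Nat.Primes, IsFrob (p : ℕ) (Fr p)) {a : Nat.Primes → ℂ} {b : ℝ} (ha : ∀ p, ‖a p‖ ≤ b)

include hFr ha in
/-- the mean inequality -/
theorem mean_ineq (L : IntermediateField ℚ Ω) [NumberField L] [IsGalois ℚ L]
    (f : (Ω ≃ₐ[ℚ] Ω) → ℂ) (hL : Lvl L f) (hf : IsCl f) {x : ℂ}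
    (h : MVC (fun p => a p * f (Fr p)) x) : ‖x‖ ≤ b * (meanAt L (fun g => (‖f g‖ : ℂ))).re := sorry

include hFr ha in
/-- Bessel's inequality, on the whole line -/
theorem bessel_line {ι : Type} (s : Finset ι) (R : ι → ArtinRep Ω) (hR : ∀ j ∈ s, (R j).Irr)
    (y : ι → ℝ) (hne : ∀ j ∈ s, ∀ l ∈ s, j ≠ l → y j = y l → (R j).char ≠ (R l).char)
    (x : ι → ℂ) (h : ∀ j ∈ s, MVC (fun p => a p * (R j).char (Fr p) * pw (y j) p) (x j)) :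
    ∑ j ∈ s, ‖x j‖ ^ 2 ≤ b ^ 2 := sorry

include hFr ha in
/-- The virtual representation.  `m χ` is the order of the twist by the irreducible Artin character
`χ`. -/
theorem virtual (m : ((Ω ≃ₐ[ℚ] Ω) → ℂ) → ℤ)
    (h : ∀ R : ArtinRep Ω, R.Irr → MVC (fun p => a p * R.char (Fr p)) (-(m R.char : ℂ))) :
    ∃ (M : IntermediateField ℚ Ω) (s : Finset ((Ω ≃ₐ[ℚ] Ω) → ℂ)) (r : ((Ω ≃ₐ[ℚ] Ω) → ℂ) → ℤ),
      NumberField M ∧ IsGalois ℚ M ∧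
      (∀ χ ∈ s, ∃ R : ArtinRep Ω, R.Irr ∧ R.char = χ ∧ ∀ g ∈ M.fixingSubgroup, R.ρ g = 1) ∧
      ((∑ χ ∈ s, r χ ^ 2 : ℤ) : ℝ) ≤ b ^ 2 ∧
      (∀ g, ‖∑ χ ∈ s, (r χ : ℂ) * χ g‖ ≤ b) ∧
      ∀ (L : IntermediateField ℚ Ω) [NumberField L] [IsGalois ℚ L] (f : (Ω ≃ₐ[ℚ] Ω) → ℂ),
        M ≤ L → Lvl L f → IsCl f →
        MVC (fun p => a p * f (Fr p)) (meanAt L fun g => (∑ χ ∈ s, (r χ : ℂ) * χ g) * f g) := sorry

end

end Pool.Agent.Work.MP_2b9663_nt
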