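import Pool.Agent.Work.MP_2b9663_nt.Density
import Pool.Agent.Work.MP_2b9663_nt.Ch.Pw

set_option autoImplicit false

/-!
The mean values of permutation characters times cyclotomic characters.
-/

namespace Pool.Agent.Work.MP_2b9663_nt

open Filter Topology NumberField

lemma pw_two (y : ℝ) (p : Nat.Primes) : pw (2 * y) p = pw y p ^ 2 := by
  have hp : ((p : ℕ) : ℂ) ≠ 0 := by exact_mod_cast p.2.ne_zero
  rw [pw, pw, ← Complex.cpow_nat_mul]
  congr 1
  push_cast
  ring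

/-- The mean values for one number field (consequence of Theorem A): the hypothesis of this file. -/
def MeanHyp : Prop :=
  ∀ (K : Type) [Field K] [NumberField K] (m : ℕ) [NeZero m] (χ : DirichletCharacter ℂ m) (y : ℝ),
    (y ≠ 0 ∨ ∀ N : ℕ, ∃ p : Nat.Primes, N < (p : ℕ) ∧ idc K (p : ℕ) ≠ 0 ∧ ¬ ((p : ℕ) ∣ m) ∧
      χ ((p : ℕ) : ZMod m) ≠ 1) →
    ∃ n : ℕ, MVC (fun p => (idc K (p : ℕ) : ℂ) * χ ((p : ℕ) : ZMod m) * pw y p) (-(n : ℂ))

section

variable (K : Type) [Field K] [NumberField K] {m : ℕ} [NeZero m] (χ : DirichletCharacter ℂ m)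

lemma three_four_one {z : ℂ} (hz : ‖z‖ ≤ 1) : 0 ≤ 3 + 4 * z.re + (z ^ 2).re := by
  have h1 : (z ^ 2).re = 2 * z.re ^ 2 - ‖z‖ ^ 2 := by
    rw [Complex.sq_norm, Complex.normSq_apply, sq, Complex.mul_re]
    ring
  have h2 : ‖z‖ ^ 2 ≤ 1 := by
    have := norm_nonneg z
    nlinarith
  rw [h1]
  nlinarith [sq_nonneg (z.re + 1)]

/-- for `y ≠ 0` all the means are zero -/
theorem mean_ne (hyp : MeanHyp) {y : ℝ} (hy : y ≠ 0) :
    MVC (fun p => (idc K (p : ℕ) : ℂ) * χ ((p : ℕ) : ZMod m) * pw y p) 0 := by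
  obtain ⟨n, hn⟩ := hyp K m χ y (Or.inl hy)
  obtain ⟨n', hn'⟩ := hyp K m (χ ^ 2) (2 * y) (Or.inl (mul_ne_zero two_ne_zero hy))
  have h0 := MV.toMVC (MV_idc K)
  have h1 := ((h0.const_mul 3).add (hn.const_mul 4)).add hn'
  have h2 := h1.re.nonneg ∅ fun p _ => by
    have h3 : ‖χ ((p : ℕ) : ZMod m) * pw y p‖ ≤ 1 := by
      rw [norm_mul, norm_pw, mul_one]
      exact DirichletCharacter.norm_le_one χ _
    have h4 := three_four_one h3
    have h5 : 3 * ((idc K (p : ℕ) : ℝ) : ℂ) +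
        4 * ((idc K (p : ℕ) : ℂ) * χ ((p : ℕ) : ZMod m) * pw y p) +
        (idc K (p : ℕ) : ℂ) * (χ ^ 2) ((p : ℕ) : ZMod m) * pw (2 * y) p =
        ((idc K (p : ℕ) : ℝ) : ℂ) * (3 + 4 * (χ ((p : ℕ) : ZMod m) * pw y p) +
          (χ ((p : ℕ) : ZMod m) * pw y p) ^ 2) := by
      rw [pw_two, MulChar.pow_apply' _ two_ne_zero]
      push_cast
      ring
    rw [h5, Complex.re_ofReal_mul]
    refine mul_nonneg (Nat.cast_nonneg _) ?_
    simpa using h4
  have h3 : (0 : ℝ) ≤ 3 - 4 * n - n' := by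
    have h4 : (3 * ((1 : ℝ) : ℂ) + 4 * -(n : ℂ) + -(n' : ℂ)).re = 3 - 4 * n - n' := by
      simp
      ring
    rw [← h4]
    exact h2
  have h4 : n = 0 := by
    by_contra hne
    have h5 : (1 : ℝ) ≤ n := by exact_mod_cast Nat.one_le_iff_ne_zero.mpr hne
    have h6 : (0 : ℝ) ≤ n' := Nat.cast_nonneg _
    linarith
  rw [h4] at hn
  simpa using hn

end

section

variable {L : Type} [Field L] [NumberField L] [IsGalois ℚ L] {m : ℕ} [NeZero m]

/-- `κ` is the cyclotomic character modulo `m` on the Frobenius elements -/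
def IsCyc (κ : (L ≃ₐ[ℚ] L) →* (ZMod m)ˣ) : Prop :=
  ∃ T : Finset Nat.Primes, ∀ p, p ∉ T → ((κ (frob L p) : (ZMod m)ˣ) : ZMod m) = ((p : ℕ) : ZMod m)

/-- the average of a function on a finite group -/
noncomputable def av {G : Type*} [Fintype G] (Φ : G → ℂ) : ℂ := (∑ g, Φ g) / Fintype.card G

/-- the expected mean of `Φ (frob p) * p ^ (-i y)` -/
def HasDens (y : ℝ) (Φ : (L ≃ₐ[ℚ] L) → ℂ) : Prop :=
  MVC (fun p => Φ (frob L p) * pw y p) (if y = 0 then av Φ else 0)

lemma HasDens.add {y : ℝ} {Φ Ψ : (L ≃ₐ[ℚ] L) → ℂ} (h : HasDens y Φ) (h' : HasDens y Ψ) :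
    HasDens y (Φ + Ψ) := by
  have h1 := MVC.add h h'
  unfold HasDens
  have h2 : (fun p => (Φ + Ψ) (frob L p) * pw y p) =
      fun p => Φ (frob L p) * pw y p + Ψ (frob L p) * pw y p := by
    funext p
    rw [Pi.add_apply, add_mul]
  have h3 : (if y = 0 then av (Φ + Ψ) else 0) =
      (if y = 0 then av Φ else 0) + (if y = 0 then av Ψ else 0) := by
    split_ifs
    · simp only [av, Pi.add_apply, Finset.sum_add_distrib, add_div]
    · rw [add_zero]
  rw [h2, h3]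
  exact h1

lemma HasDens.smul {y : ℝ} {Φ : (L ≃ₐ[ℚ] L) → ℂ} (a : ℂ) (h : HasDens y Φ) : HasDens y (a • Φ) := by
  have h1 := MVC.const_mul a h
  unfold HasDens
  have h2 : (fun p => (a • Φ) (frob L p) * pw y p) = fun p => a * (Φ (frob L p) * pw y p) := by
    funext p
    rw [Pi.smul_apply, smul_eq_mul, mul_assoc]
  have h3 : (if y = 0 then av (a • Φ) else 0) = a * (if y = 0 then av Φ else 0) := by
    split_ifs
    · simp only [av, Pi.smul_apply, smul_eq_mul, ← Finset.mul_sum, mul_div_assoc]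
    · rw [mul_zero]
  rw [h2, h3]
  exact h1

lemma HasDens.zero {y : ℝ} : HasDens y (0 : (L ≃ₐ[ℚ] L) → ℂ) := by
  have h1 : MVC (fun _ : Nat.Primes => (0 : ℂ)) 0 := by
    have h2 := MVC.sum (∅ : Finset ℕ) (c := fun _ _ => 0) (κ := fun _ => 0) (by simp)
    simpa using h2
  unfold HasDens
  have h3 : (if y = 0 then av (0 : (L ≃ₐ[ℚ] L) → ℂ) else 0) = 0 := by
    split_ifs
    · simp [av]
    · rfl
  rw [h3]
  simpa using h1

lemma HasDens.sum {ι : Type*} {y : ℝ} (s : Finset ι) {Φ : ι → (L ≃ₐ[ℚ] L) → ℂ}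
    (h : ∀ j ∈ s, HasDens y (Φ j)) : HasDens y (∑ j ∈ s, Φ j) := by
  classical
  induction s using Finset.induction_on with
  | empty => simpa using HasDens.zero
  | insert k s hk ih =>
    rw [Finset.sum_insert hk]
    exact (h k (Finset.mem_insert_self _ _)).add (ih fun j hj => h j (Finset.mem_insert_of_mem hj))

open scoped Classical in
/-- Frobenius reciprocity for a linear character -/
lemma av_char (κ : (L ≃ₐ[ℚ] L) →* (ZMod m)ˣ) (χ : DirichletCharacter ℂ m)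
    (H : Subgroup (L ≃ₐ[ℚ] L)) :
    (av fun g => χ (κ g : (ZMod m)ˣ) * (pc H g : ℂ)) =
      if ∀ h ∈ H, χ (κ h : (ZMod m)ˣ) = 1 then 1 else 0 := by
  set f : (L ≃ₐ[ℚ] L) → ℂ := fun g => χ (κ g : (ZMod m)ˣ) with hf
  have hconj : ∀ x g, f (x * g * x⁻¹) = f g := by
    intro x g
    rw [hf]
    beta_reduce
    have h1 : κ (x * g * x⁻¹) = κ g := by
      rw [map_mul, map_mul, map_inv, mul_comm (κ x), mul_inv_cancel_right]
    rw [h1]
  have hre := sum_mul_pc H (fun g => (f g).re) fun x g => by rw [hconj]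
  have him := sum_mul_pc H (fun g => (f g).im) fun x g => by rw [hconj]
  have hcard : (Fintype.card (L ≃ₐ[ℚ] L) : ℂ) ≠ 0 := by exact_mod_cast Fintype.card_ne_zero
  have hH : (Nat.card H : ℂ) ≠ 0 := by
    have : 0 < Nat.card H := Nat.card_pos
    exact_mod_cast this.ne'
  have key : (Nat.card H : ℂ) * ∑ g, f g * (pc H g : ℂ) =
      Fintype.card (L ≃ₐ[ℚ] L) * ∑ g, if g ∈ H then f g else 0 := by
    apply Complex.ext
    · have h1 : ((Nat.card H : ℂ) * ∑ g, f g * (pc H g : ℂ)).re =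
          (Nat.card H : ℝ) * ∑ g, (f g).re * pc H g := by
        rw [← Complex.ofReal_natCast, Complex.re_ofReal_mul, Complex.re_sum]
        simp
      have h2 : ((Fintype.card (L ≃ₐ[ℚ] L) : ℂ) * ∑ g, if g ∈ H then f g else 0).re =
          (Fintype.card (L ≃ₐ[ℚ] L) : ℝ) * ∑ g, (f g).re * Set.indicator (H : Set (L ≃ₐ[ℚ] L)) 1 g := by
        rw [← Complex.ofReal_natCast, Complex.re_ofReal_mul, Complex.re_sum]
        congr 1
        refine Finset.sum_congr rfl fun g _ => ?_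
        by_cases hg : g ∈ H
        · rw [if_pos hg, Set.indicator_of_mem (by exact hg), Pi.one_apply, mul_one]
        · rw [if_neg hg, Set.indicator_of_notMem (by exact hg), mul_zero, Complex.zero_re]
      rw [h1, h2, hre]
    · have h1 : ((Nat.card H : ℂ) * ∑ g, f g * (pc H g : ℂ)).im =
          (Nat.card H : ℝ) * ∑ g, (f g).im * pc H g := by
        rw [← Complex.ofReal_natCast, Complex.im_ofReal_mul, Complex.im_sum]
        simp
      have h2 : ((Fintype.card (L ≃ₐ[ℚ] L) : ℂ) * ∑ g, if g ∈ H then f g else 0).im =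
          (Fintype.card (L ≃ₐ[ℚ] L) : ℝ) * ∑ g, (f g).im * Set.indicator (H : Set (L ≃ₐ[ℚ] L)) 1 g := by
        rw [← Complex.ofReal_natCast, Complex.im_ofReal_mul, Complex.im_sum]
        congr 1
        refine Finset.sum_congr rfl fun g _ => ?_
        by_cases hg : g ∈ H
        · rw [if_pos hg, Set.indicator_of_mem (by exact hg), Pi.one_apply, mul_one]
        · rw [if_neg hg, Set.indicator_of_notMem (by exact hg), mul_zero, Complex.zero_im]
      rw [h1, h2, him]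
  -- the sum over `H`
  have hsum : (∑ g, if g ∈ H then f g else 0) =
      if ∀ h ∈ H, χ (κ h : (ZMod m)ˣ) = 1 then (Nat.card H : ℂ) else 0 := by
    split_ifs with htriv
    · have h1 : (∑ g, if g ∈ H then f g else 0) = ∑ g, if g ∈ H then (1 : ℂ) else 0 := by
        refine Finset.sum_congr rfl fun g _ => ?_
        split_ifs with hg
        · exact htriv g hg
        · rfl
      rw [h1, Finset.sum_boole, Nat.card_eq_fintype_card, ← Fintype.card_subtype]
    · push Not at htriv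
      obtain ⟨h, hh, hne⟩ := htriv
      set S := ∑ g, if g ∈ H then f g else 0 with hS
      have h1 : f h * S = S := by
        rw [hS, Finset.mul_sum]
        conv_rhs => rw [← Equiv.sum_comp (Equiv.mulLeft h)]
        refine Finset.sum_congr rfl fun g _ => ?_
        rw [Equiv.coe_mulLeft, Subgroup.mul_mem_cancel_left _ hh]
        split_ifs
        · rw [hf]
          beta_reduce
          rw [map_mul, Units.val_mul, map_mul]
        · rw [mul_zero]
      have h2 : (f h - 1) * S = 0 := by rw [sub_mul, one_mul, h1, sub_self]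
      exact (mul_eq_zero.mp h2).resolve_left (sub_ne_zero.mpr hne)
  rw [hsum] at key
  have h3 : ∑ g, f g * (pc H g : ℂ) = Fintype.card (L ≃ₐ[ℚ] L) *
      (if ∀ h ∈ H, χ (κ h : (ZMod m)ˣ) = 1 then 1 else 0) := by
    apply mul_left_cancel₀ hH
    rw [key]
    split_ifs
    · ring
    · ring
  rw [av, h3, mul_div_cancel_left₀ _ hcard]

/-- a nontrivial character occurs at infinitely many primes -/
lemma exists_prime_char {κ : (L ≃ₐ[ℚ] L) →* (ZMod m)ˣ} (hκ : IsCyc κ) (χ : DirichletCharacter ℂ m)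
    (H : Subgroup (L ≃ₐ[ℚ] L)) {h : L ≃ₐ[ℚ] L} (hh : h ∈ H) (hχ : χ (κ h : (ZMod m)ˣ) ≠ 1) (N : ℕ) :
    ∃ p : Nat.Primes, N < (p : ℕ) ∧ idc (IntermediateField.fixedField H) (p : ℕ) ≠ 0 ∧
      ¬ ((p : ℕ) ∣ m) ∧ χ ((p : ℕ) : ZMod m) ≠ 1 := by
  classical
  set F : (L ≃ₐ[ℚ] L) → ℝ := fun g => if pc H g ≠ 0 ∧ χ (κ g : (ZMod m)ˣ) ≠ 1 then 1 else 0 with hF
  have hpow : ∀ {g g' : L ≃ₐ[ℚ] L}, g' ∈ Subgroup.zpowers g → χ (κ g : (ZMod m)ˣ) = 1 →
      χ (κ g' : (ZMod m)ˣ) = 1 := by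
    intro g g' hg' h1
    obtain ⟨k, rfl⟩ := Subgroup.mem_zpowers_iff.mp hg'
    have h2 : MulChar.toUnitHom χ (κ g) = 1 := by
      apply Units.ext
      rw [MulChar.coe_toUnitHom, h1, Units.val_one]
    have h3 : MulChar.toUnitHom χ (κ (g ^ k)) = 1 := by
      rw [map_zpow, map_zpow, h2, one_zpow]
    rw [← MulChar.coe_toUnitHom, h3, Units.val_one]
  have hconj : ∀ x g : L ≃ₐ[ℚ] L, κ (x * g * x⁻¹) = κ g := by
    intro x g
    rw [map_mul, map_mul, map_inv, mul_comm (κ x), mul_inv_cancel_right]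
  have hrat : IsRat F := by
    intro g g' hgg'
    have h1 := pc_div H hgg'
    obtain ⟨x, hx⟩ := hgg'
    have h2 : χ (κ g : (ZMod m)ˣ) = 1 ↔ χ (κ g' : (ZMod m)ˣ) = 1 := by
      rw [← hconj x g]
      constructor
      · exact hpow (by rw [hx]; exact Subgroup.mem_zpowers _)
      · exact hpow (by rw [← hx]; exact Subgroup.mem_zpowers _)
    rw [hF]
    beta_reduce
    exact if_congr (by rw [h1, ne_eq, ne_eq, h2]) rfl rfl
  have hd := density hrat
  have hFh : F h = 1 := by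
    rw [hF]
    beta_reduce
    refine if_pos ⟨?_, hχ⟩
    have h1 : ((1 : L ≃ₐ[ℚ] L) : (L ≃ₐ[ℚ] L) ⧸ H) ∈ MulAction.fixedBy ((L ≃ₐ[ℚ] L) ⧸ H) h := by
      rw [mk_fixed_iff]
      simpa using hh
    have : Nonempty (MulAction.fixedBy ((L ≃ₐ[ℚ] L) ⧸ H) h) := ⟨⟨_, h1⟩⟩
    exact Nat.card_pos.ne'
  have hpos : 0 < (∑ g, F g) / Fintype.card (L ≃ₐ[ℚ] L) := by
    have hc : (0 : ℝ) < Fintype.card (L ≃ₐ[ℚ] L) := by exact_mod_cast Fintype.card_pos
    refine div_pos ?_ hc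
    refine Finset.sum_pos' (fun g _ => ?_) ⟨h, Finset.mem_univ _, by rw [hFh]; exact one_pos⟩
    rw [hF]
    beta_reduce
    split_ifs <;> norm_num
  obtain ⟨T, hT⟩ := hκ
  obtain ⟨T', hT'⟩ := idc_frob (IntermediateField.fixedField H)
  rw [IntermediateField.fixingSubgroup_fixedField] at hT'
  by_contra hno
  push Not at hno
  -- then `F (frob p) = 0` outside a finite set
  have h0 : MV (fun p => F (frob L p)) 0 := by
    refine MV.zero.congr (BD_frob F) (T ∪ T' ∪ smallPrimes (N + 1) ∪ smallPrimes (m + 1)) fun p hp => ?_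
    simp only [Finset.mem_union, not_or] at hp
    obtain ⟨⟨⟨hp1, hp2⟩, hp3⟩, hp4⟩ := hp
    rw [mem_smallPrimes] at hp3
    rw [hF]
    beta_reduce
    refine (if_neg fun hcon => ?_).symm
    refine hcon.2 ?_
    rw [hT p hp1]
    refine hno p (by omega) ?_ (not_dvd_of_big (NeZero.ne m) hp4)
    rw [hT' p hp2]
    exact hcon.1
  have h1 := hd.mono h0 ∅ fun p _ => le_rfl
  linarith

/-- Outside a finite set the values at `p` are the values at the Frobenius element. -/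
lemma exists_char_frob {κ : (L ≃ₐ[ℚ] L) →* (ZMod m)ˣ} (hκ : IsCyc κ)
    (χ : DirichletCharacter ℂ m) (H : Subgroup (L ≃ₐ[ℚ] L)) (y : ℝ) : ∃ T : Finset Nat.Primes,
      ∀ p, p ∉ T → (idc (IntermediateField.fixedField H) (p : ℕ) : ℂ) * χ ((p : ℕ) : ZMod m) *
        pw y p = χ (κ (frob L p) : (ZMod m)ˣ) * (pc H (frob L p) : ℂ) * pw y p := by
  classical
  obtain ⟨T, hT⟩ := hκ
  obtain ⟨T', hT'⟩ := idc_frob (IntermediateField.fixedField H)
  rw [IntermediateField.fixingSubgroup_fixedField] at hT'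
  refine ⟨T ∪ T', fun p hp => ?_⟩
  rw [Finset.mem_union, not_or] at hp
  rw [hT p hp.1, hT' p hp.2]
  ring

/-- the sum over all characters -/
lemma sum_char (a b : (ZMod m)ˣ) :
    ∑ χ : DirichletCharacter ℂ m, (χ (a : ZMod m))⁻¹ * χ (b : ZMod m) =
      if b = a then (m.totient : ℂ) else 0 := by
  have h1 := DirichletCharacter.sum_char_inv_mul_char_eq ℂ a.isUnit (b : ZMod m)
  have h2 : ∀ χ : DirichletCharacter ℂ m, χ ((a : ZMod m)⁻¹) = (χ (a : ZMod m))⁻¹ := by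
    intro χ
    have h3 : χ ((a : ZMod m)⁻¹) * χ (a : ZMod m) = 1 := by
      rw [← map_mul, ZMod.inv_mul_of_unit _ a.isUnit, map_one]
    exact eq_inv_of_mul_eq_one_left h3
  simp only [h2] at h1
  rw [h1]
  refine if_congr ?_ rfl rfl
  rw [Units.val_inj, eq_comm]

/-- **Theorem B**. -/
theorem hasDens_char (hyp : MeanHyp) {κ : (L ≃ₐ[ℚ] L) →* (ZMod m)ˣ} (hκ : IsCyc κ)
    (χ : DirichletCharacter ℂ m) (H : Subgroup (L ≃ₐ[ℚ] L)) (y : ℝ) :
    HasDens y fun g => χ (κ g : (ZMod m)ˣ) * (pc H g : ℂ) := by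
  classical
  by_cases hy : y = 0
  swap
  · obtain ⟨T, hT⟩ := exists_char_frob hκ χ H y
    unfold HasDens
    rw [if_neg hy]
    exact (mean_ne (IntermediateField.fixedField H) χ hyp hy).congr T fun p hp => hT p hp
  subst hy
  unfold HasDens
  rw [if_pos rfl, av_char]
  -- the trivial characters
  have htriv : ∀ χ : DirichletCharacter ℂ m, (∀ h ∈ H, χ (κ h : (ZMod m)ˣ) = 1) →
      MVC (fun p => χ (κ (frob L p) : (ZMod m)ˣ) * (pc H (frob L p) : ℂ) * pw 0 p) 1 := by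
    intro χ hχ
    obtain ⟨T, hT⟩ := idc_frob (IntermediateField.fixedField H)
    rw [IntermediateField.fixingSubgroup_fixedField] at hT
    refine (MV.toMVC (MV_idc (IntermediateField.fixedField H))).congr T fun p hp => ?_
    rw [hT p hp, pw_zero, mul_one]
    by_cases h0 : pc H (frob L p) = 0
    · rw [h0]
      simp
    · have h1 : χ (κ (frob L p) : (ZMod m)ˣ) = 1 := by
        have h2 : Nonempty (MulAction.fixedBy ((L ≃ₐ[ℚ] L) ⧸ H) (frob L p)) := by
          by_contra hemp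
          rw [not_nonempty_iff] at hemp
          exact h0 (Nat.card_of_isEmpty)
        obtain ⟨x, hx⟩ := h2
        obtain ⟨x, rfl⟩ := QuotientGroup.mk_surjective x
        rw [mk_fixed_iff] at hx
        have h3 := hχ _ hx
        have h4 : κ (x⁻¹ * frob L p * x) = κ (frob L p) := by
          rw [map_mul, map_mul, map_inv, mul_comm, mul_inv_cancel_left]
        rwa [h4] at h3
      rw [h1, one_mul, Complex.ofReal_natCast]
  -- the others
  have hother : ∀ χ : DirichletCharacter ℂ m, ¬ (∀ h ∈ H, χ (κ h : (ZMod m)ˣ) = 1) →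
      ∃ n : ℕ, MVC (fun p => χ (κ (frob L p) : (ZMod m)ˣ) * (pc H (frob L p) : ℂ) * pw 0 p)
        (-(n : ℂ)) := by
    intro χ hχ
    push Not at hχ
    obtain ⟨h, hh, hne⟩ := hχ
    obtain ⟨n, hn⟩ := hyp (IntermediateField.fixedField H) m χ 0
      (Or.inr fun N => exists_prime_char hκ χ H hh hne N)
    obtain ⟨T, hT⟩ := exists_char_frob hκ χ H 0
    exact ⟨n, hn.congr T fun p hp => hT p hp⟩
  set P : DirichletCharacter ℂ m → Prop := fun χ => ∀ h ∈ H, χ (κ h : (ZMod m)ˣ) = 1 with hP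
  have hn : ∀ χ : DirichletCharacter ℂ m, ∃ n : ℕ,
      MVC (fun p => χ (κ (frob L p) : (ZMod m)ˣ) * (pc H (frob L p) : ℂ) * pw 0 p)
        ((if P χ then 1 else 0) - (n : ℂ)) ∧ (P χ → n = 0) := by
    intro χ
    by_cases hχ : P χ
    · refine ⟨0, ?_, fun _ => rfl⟩
      rw [if_pos hχ]
      simpa using htriv χ hχ
    · obtain ⟨n, h1⟩ := hother χ hχ
      refine ⟨n, ?_, fun h => (hχ h).elim⟩
      rw [if_neg hχ, zero_sub]
      exact h1
  choose n hn1 hn2 using hn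
  -- the sum over all characters is rational
  have hsum := MVC.sum Finset.univ fun χ _ => hn1 χ
  have hF : ∀ g : L ≃ₐ[ℚ] L, ∑ χ : DirichletCharacter ℂ m, χ (κ g : (ZMod m)ˣ) * (pc H g : ℂ) =
      (((if κ g = 1 then (m.totient : ℝ) else 0) * pc H g : ℝ) : ℂ) := by
    intro g
    rw [← Finset.sum_mul]
    have h1 := sum_char 1 (κ g)
    simp only [Units.val_one, map_one, inv_one, one_mul] at h1
    rw [h1]
    push_cast
    split_ifs <;> simp
  have hrat : IsRat fun g : L ≃ₐ[ℚ] L => (if κ g = 1 then (m.totient : ℝ) else 0) * pc H g := by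
    intro g g' hgg'
    have h1 := pc_div H hgg'
    obtain ⟨x, hx⟩ := hgg'
    have hconj : κ (x * g * x⁻¹) = κ g := by
      rw [map_mul, map_mul, map_inv, mul_comm (κ x), mul_inv_cancel_right]
    have hpow : ∀ {g g' : L ≃ₐ[ℚ] L}, g' ∈ Subgroup.zpowers g → κ g = 1 → κ g' = 1 := by
      intro g g' hg' h1
      obtain ⟨k, rfl⟩ := Subgroup.mem_zpowers_iff.mp hg'
      rw [map_zpow, h1, one_zpow]
    have h2 : κ g = 1 ↔ κ g' = 1 := by
      rw [← hconj]
      constructor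
      · exact hpow (by rw [hx]; exact Subgroup.mem_zpowers _)
      · exact hpow (by rw [← hx]; exact Subgroup.mem_zpowers _)
    beta_reduce
    rw [h1, if_congr h2 rfl rfl]
  have hd := MV.toMVC (density hrat)
  have heq : (fun p => ∑ χ : DirichletCharacter ℂ m,
      χ (κ (frob L p) : (ZMod m)ˣ) * (pc H (frob L p) : ℂ) * pw 0 p) =
      fun p => (((if κ (frob L p) = 1 then (m.totient : ℝ) else 0) * pc H (frob L p) : ℝ) : ℂ) := by
    funext p
    simp only [pw_zero, mul_one]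
    exact hF _
  rw [heq] at hsum
  have h1 := hsum.unique hd
  -- the average of the sum
  have h2 : ((((∑ g : L ≃ₐ[ℚ] L, (if κ g = 1 then (m.totient : ℝ) else 0) * pc H g) /
      Fintype.card (L ≃ₐ[ℚ] L) : ℝ)) : ℂ) = ∑ χ : DirichletCharacter ℂ m, if P χ then (1 : ℂ) else 0 := by
    have h3 : (∑ g : L ≃ₐ[ℚ] L, (((if κ g = 1 then (m.totient : ℝ) else 0) * pc H g : ℝ) : ℂ)) =
        ∑ χ : DirichletCharacter ℂ m, ∑ g : L ≃ₐ[ℚ] L, χ (κ g : (ZMod m)ˣ) * (pc H g : ℂ) := by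
      rw [Finset.sum_comm]
      exact Finset.sum_congr rfl fun g _ => (hF g).symm
    rw [Complex.ofReal_div, Complex.ofReal_sum, h3, Finset.sum_div, Complex.ofReal_natCast]
    refine Finset.sum_congr rfl fun χ _ => ?_
    exact av_char κ χ H
  rw [h2, Finset.sum_sub_distrib, sub_eq_self] at h1
  have h3 : n χ = 0 := by
    have h4 : ∑ χ : DirichletCharacter ℂ m, n χ = 0 := by exact_mod_cast h1
    exact (Finset.sum_eq_zero_iff.mp h4) χ (Finset.mem_univ _)
  have h4 := hn1 χ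
  rw [h3, Nat.cast_zero, sub_zero] at h4
  exact h4

/-- the function `[κ g = a] pc H g` -/
theorem hasDens_class (hyp : MeanHyp) {κ : (L ≃ₐ[ℚ] L) →* (ZMod m)ˣ} (hκ : IsCyc κ)
    (a : (ZMod m)ˣ) (H : Subgroup (L ≃ₐ[ℚ] L)) (y : ℝ) :
    HasDens y fun g => if κ g = a then (pc H g : ℂ) else 0 := by
  have h1 : HasDens y (∑ χ : DirichletCharacter ℂ m, ((m.totient : ℂ)⁻¹ * (χ (a : ZMod m))⁻¹) •
      fun g : L ≃ₐ[ℚ] L => χ (κ g : (ZMod m)ˣ) * (pc H g : ℂ)) :=
    HasDens.sum _ fun χ _ => (hasDens_char hyp hκ χ H y).smul _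
  convert h1 using 1
  funext g
  simp only [Finset.sum_apply, Pi.smul_apply, smul_eq_mul]
  have h2 := sum_char a (κ g)
  have h3 : ∑ χ : DirichletCharacter ℂ m, (m.totient : ℂ)⁻¹ * (χ (a : ZMod m))⁻¹ *
      (χ (κ g : (ZMod m)ˣ) * (pc H g : ℂ)) = (m.totient : ℂ)⁻¹ *
        (∑ χ : DirichletCharacter ℂ m, (χ (a : ZMod m))⁻¹ * χ (κ g : (ZMod m)ˣ)) * (pc H g : ℂ) := by
    rw [Finset.mul_sum, Finset.sum_mul]
    refine Finset.sum_congr rfl fun χ _ => ?_
    ring
  have hm : (m.totient : ℂ) ≠ 0 := by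
    have := Nat.totient_pos.mpr (NeZero.pos m)
    exact_mod_cast this.ne'
  rw [h3, h2]
  split_ifs
  · rw [inv_mul_cancel₀ hm, one_mul]
  · rw [mul_zero, zero_mul]

end

end Pool.Agent.Work.MP_2b9663_nt
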