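import Pool.Agent.Work.MP_2b9663_nt.Ch.DefsGroup
import Pool.Agent.Work.MP_2b9663_nt.Ch.DefsMain
import Pool.Agent.Work.MP_2b9663_nt.Ch.ThmB
import Pool.Agent.Work.MP_2b9663_nt.InvInst

set_option autoImplicit false

/-!
ARTIN (MP_2b9663_nt): the statements of the second round.  Do not import this file; copy what you
need as `sorry` statements until the real module is on main.
-/

namespace Pool.Agent.Work.MP_2b9663_nt

open NumberField Filter Topology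

section

variable {Ω : Type} [Field Ω] [CharZero Ω] [IsAlgClosure ℚ Ω]

/-! ## G1: `Ch/IndChar.lean` (helper24) -/

section

variable {K : IntermediateField ℚ Ω} [NumberField K] {A : Type} [Group A] (ξ : TwistHom K A)
  {χ : A → ℂ}

theorem isCl_indChar (hχ : IsCl χ) : IsCl (indChar ξ χ) := sorry

/-- a common level of all functions `indChar ξ χ` -/
theorem exists_lvl_indChar : ∃ L : IntermediateField ℚ Ω, NumberField L ∧ IsGalois ℚ L ∧ K ≤ L ∧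
    ∀ χ : A → ℂ, IsCl χ → Lvl L (indChar ξ χ) := sorry

theorem norm_indChar_le {C : ℝ} (hC : ∀ x, ‖χ x‖ ≤ C) (g : Ω ≃ₐ[ℚ] Ω) :
    ‖indChar ξ χ g‖ ≤ Module.finrank ℚ K * C := sorry

theorem indChar_eq_zero (K₀ : IntermediateField ℚ Ω) [NumberField K₀] [IsGalois ℚ K₀] (h : K₀ ≤ K)
    {g : Ω ≃ₐ[ℚ] Ω} (hg : g ∉ K₀.fixingSubgroup) : indChar ξ χ g = 0 := sorry

theorem indChar_one (g : Ω ≃ₐ[ℚ] Ω) : indChar ξ (fun _ => 1) g = fixEmb K Ω g := sorry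

end

/-! ## G2: `Ch/GroupBes.lean` (helper84) -/

/-- Bessel's inequality for families of sums; take `(hyp : MeanHyp)` as the first argument and use
`chebΩ_of hyp`. -/
theorem group_bessel (hyp : MeanHyp) (Fr : Nat.Primes → (Ω ≃ₐ[ℚ] Ω))
    (hFr : ∀ p : Nat.Primes, IsFrob (p : ℕ) (Fr p)) (K₀ : IntermediateField ℚ Ω) [NumberField K₀]
    [IsGalois ℚ K₀] {κ ι : Type} [Fintype κ] (β : κ → Nat.Primes → ℂ) (d : κ → ℕ)
    (hβ : ∀ j p, ‖β j p‖ ≤ d j) (f : κ → ι → (Ω ≃ₐ[ℚ] Ω) → ℂ) (hcl : ∀ j a, IsCl (f j a))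
    (hlvl : ∀ j a, ∃ L : IntermediateField ℚ Ω, NumberField L ∧ IsGalois ℚ L ∧ Lvl L (f j a))
    (h0 : ∀ j a, ∀ g, g ∉ K₀.fixingSubgroup → f j a g = 0)
    (hon : ∀ j, d j ≠ 0 → OrthoChar (f j)) (x : ι → ℤ)
    (hx : ∀ a, MVC (fun p => ∑ j, β j p * f j a (Fr p)) (x a)) (s : Finset ι) :
    (Module.finrank ℚ K₀ : ℤ) * ∑ a ∈ s, x a ^ 2 ≤ ((∑ j, d j : ℕ) : ℤ) ^ 2 := sorry

/-! ## G3: `Ch/OrderForm.lean` (helper5) -/

section

variable {G : Nat.Primes → Prop} {t₀ : Nat.Primes → ℕ → ℂ} {i : ℕ}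

/-- the order of the `L`-function of a twisted form -/
theorem order_form (Fr : Nat.Primes → (Ω ≃ₐ[ℚ] Ω))
    (hFr : ∀ p : Nat.Primes, IsFrob (p : ℕ) (Fr p)) {κ : Type} [Fintype κ]
    {t : κ → Nat.Primes → ℕ → ℂ} {b₀ : ℕ} {d : κ → ℕ} (h₀ : WeilBound G t₀ i b₀)
    (h : ∀ j, WeilBound G (t j) i (d j)) {A : Type} [Group A] [Finite A] {χ : κ → A → ℂ}
    (hχ : ∀ j, IsCl (χ j)) {K : IntermediateField ℚ Ω} [NumberField K] (ξ : TwistHom K A)
    {F : ℂ → ℂ} (hF : IsFormContinuation G t₀ t χ i ξ F) :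
    ∃ m : ℤ, meromorphicOrderAt F ((i : ℂ) / 2 + 1) = m ∧
      MVC (fun p => nt G t₀ i p * fixEmb K Ω (Fr p) +
        ∑ j, nt G (t j) i p * indChar ξ (χ j) (Fr p)⁻¹) (-(m : ℂ)) := sorry

/-- the fixed part -/
theorem mvc_of_fixedOrder (Fr : Nat.Primes → (Ω ≃ₐ[ℚ] Ω))
    (hFr : ∀ p : Nat.Primes, IsFrob (p : ℕ) (Fr p)) {b₀ : ℕ} (h₀ : WeilBound G t₀ i b₀)
    {K : IntermediateField ℚ Ω} [NumberField K] {m : ℤ} (hm : IsFixedOrder G t₀ i K m)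
    (hG : ∃ T : Finset Nat.Primes, ∀ p, ¬ G p → p ∈ T) :
    MVC (fun p => nt G t₀ i p * fixEmb K Ω (Fr p)) (-(m : ℂ)) := sorry

end

/-! ## G4: the hand-in `GroupTwists` (helper84, from G1, G2, G3; helper49 reads) -/

theorem group_twists (hyp : MeanHyp) {κ : Type} [Fintype κ] {G : Nat.Primes → Prop}
    {t₀ : Nat.Primes → ℕ → ℂ} {t : κ → Nat.Primes → ℕ → ℂ} {i b₀ : ℕ} {d : κ → ℕ}
    (h₀ : WeilBound G t₀ i b₀) (h : ∀ j, WeilBound G (t j) i (d j)) {A : Type} [Group A] [Finite A]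
    (n : κ → ℕ) (σ : ∀ j, A →* Matrix.GeneralLinearGroup (Fin (n j)) ℂ)
    (K₀ : IntermediateField ℚ Ω) [NumberField K₀] [IsGalois ℚ K₀] {ι : Type}
    (K : ι → IntermediateField ℚ Ω) [∀ a, NumberField (K a)] (hK : ∀ a, K₀ ≤ K a)
    (ξ : ∀ a, TwistHom (K a) A)
    (hξ : ∀ j, d j ≠ 0 → OrthoChar fun a => indChar (ξ a) fun x =>
      Matrix.trace (σ j x : Matrix (Fin (n j)) (Fin (n j)) ℂ))
    (F : ι → ℂ → ℂ) (hF : ∀ a, IsFormContinuation G t₀ t (fun j x =>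
      Matrix.trace (σ j x : Matrix (Fin (n j)) (Fin (n j)) ℂ)) i (ξ a) (F a))
    (m₀ : ι → ℤ) (hm₀ : ∀ a, IsFixedOrder G t₀ i (K a) (m₀ a)) :
    ∃ m : ι → ℤ, (∀ a, meromorphicOrderAt (F a) ((i : ℂ) / 2 + 1) = m a) ∧
      (∀ s : Finset ι, (Module.finrank ℚ K₀ : ℤ) * ∑ a ∈ s, (m a - m₀ a) ^ 2 ≤
        ((∑ j, d j : ℕ) : ℤ) ^ 2) ∧
      {a | m a ≠ m₀ a}.encard ≤ ((∑ j, d j) ^ 2 / Module.finrank ℚ K₀ : ℕ) := sorry

/-! ## M1: `Ch/MainA.lean`: the hand-in `ArtinTwists` (helper17) -/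

section

variable {G : Nat.Primes → Prop} {t : Nat.Primes → ℕ → ℂ} {i b : ℕ}

theorem finiteOrders (h : WeilBound G t i b) : FiniteOrders Ω G t i := sorry

theorem meanInequality (hyp : MeanHyp) (h : WeilBound G t i b) : MeanInequality Ω G t i b := sorry

theorem edgeBessel (hyp : MeanHyp) (h : WeilBound G t i b) : EdgeBessel Ω G t i b := sorry

theorem virtualRep (hyp : MeanHyp) (h : WeilBound G t i b) : VirtualRep Ω G t i b := sorry

/-! ## M2: `Ch/MainF.lean` (helper65) -/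

theorem fieldOrders (h : WeilBound G t i b) : FieldOrders Ω G t i b := sorry

end

end

/-! ## G5: `Ch/CurveInst.lean` (helper24 or helper84): products of hyperelliptic curves, with the
group of the products of the hyperelliptic involutions -/

open Polynomial in
theorem curve_data' {r : ℕ} {f : Fin r → ℤ[X]} (hf : ∀ j, IsCurve (f j)) (i : ℕ) :
    (∀ S, WeilBound (Good f fun _ => 1) (fun p k => (curveTrace f i S p k : ℂ)) i
      (curveBetti f i S)) ∧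
    ∀ p, Good f (fun _ => 1) p → ∀ k : ℕ, k ≠ 0 →
      (curveTrace f i ∅ p k : ℂ) = curveBetti f i ∅ * Real.sqrt (((p : ℕ) : ℝ) ^ k) ^ i := sorry

end Pool.Agent.Work.MP_2b9663_nt
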