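import Pool.Agent.Work.MP_2b9663_nt.Ch.Lip

set_option autoImplicit false

/-!
The translation lemma: lattice sums of the weighted norm with periodic coefficients of mean zero.
-/

namespace Pool.Agent.Work.MP_2b9663_nt

open NumberField NumberField.mixedEmbedding NumberField.Units
  NumberField.Units.dirichletUnitTheorem Ideal
open scoped nonZeroDivisors

variable (K : Type) [Field K] [NumberField K]

lemma sg_norm_le (σ : Bool) (x : 𝓞 K) : ‖((sg K σ x : ℤ) : ℂ)‖ ≤ 1 := by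
  rw [Complex.norm_intCast]
  unfold sg
  split_ifs with h
  · rcases lt_trichotomy (Algebra.norm ℤ x) 0 with h1 | h1 | h1
    · rw [Int.sign_eq_neg_one_of_neg h1]; norm_num
    · rw [h1]; norm_num
    · rw [Int.sign_eq_one_of_pos h1]; norm_num
  · norm_num

lemma nrm_ne_zero {x : 𝓞 K} (hx : x ≠ 0) : nrm K x ≠ 0 := by
  unfold nrm
  rw [Ne, Int.natAbs_eq_zero]
  exact (Algebra.norm_ne_zero_iff (R := ℤ)).mpr hx

lemma FF_norm_le {σ : Bool} {s : ℂ} (x : 𝓞 K) : ‖FF K σ s x‖ ≤ wt K x * (nrm K x : ℝ) ^ (-s.re) := by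
  by_cases hx : x = 0
  · subst hx
    simp [FF, Lip.wt_zero]
  have h1 : (0 : ℝ) < nrm K x := by exact_mod_cast Nat.pos_of_ne_zero (nrm_ne_zero K hx)
  have h2 : ‖(nrm K x : ℂ) ^ (-s)‖ = (nrm K x : ℝ) ^ (-s.re) := by
    have := Complex.norm_cpow_eq_rpow_re_of_pos h1 (-s)
    rw [Complex.neg_re] at this
    exact_mod_cast this
  unfold FF
  rw [norm_mul, norm_mul, h2, Complex.norm_real, Real.norm_of_nonneg (Lip.wt_nonneg K x)]
  have h3 : 0 ≤ (nrm K x : ℝ) ^ (-s.re) := by positivity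
  have h4 : ‖((sg K σ x : ℤ) : ℂ)‖ * wt K x ≤ wt K x :=
    mul_le_of_le_one_left (Lip.wt_nonneg K x) (sg_norm_le K σ x)
  exact mul_le_mul_of_nonneg_right h4 h3

theorem FF_summable (σ : Bool) {s : ℂ} (hs : 1 < s.re) :
    Summable fun x : 𝓞 K => FF K σ s x := by
  obtain ⟨κ, hκ, h⟩ := nrm_ge K
  have hn : (0 : ℝ) < Module.finrank ℚ K := by exact_mod_cast Module.finrank_pos
  have h1 : (Module.finrank ℚ K : ℝ) < Module.finrank ℚ K * s.re := by
    exact lt_mul_of_one_lt_right hn hs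
  refine Summable.of_norm_bounded ((sz_summable K h1).mul_left (κ ^ (-s.re))) fun x => ?_
  refine (FF_norm_le K x).trans ?_
  have hsz := Lip.sz_nonneg x
  have hb : (0 : ℝ) < 1 + sz K x := by positivity
  by_cases hw : wt K x = 0
  · rw [hw, zero_mul]
    positivity
  have h2 := h x hw
  have h3 : (0 : ℝ) < κ * (1 + sz K x) ^ Module.finrank ℚ K := by positivity
  have h4 : (nrm K x : ℝ) ^ (-s.re) ≤ (κ * (1 + sz K x) ^ Module.finrank ℚ K) ^ (-s.re) :=
    Real.rpow_le_rpow_of_nonpos h3 h2 (by linarith)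
  have h5 : (κ * (1 + sz K x) ^ Module.finrank ℚ K) ^ (-s.re) =
      κ ^ (-s.re) * (1 + sz K x) ^ (-((Module.finrank ℚ K : ℝ) * s.re)) := by
    rw [Real.mul_rpow hκ.le (by positivity), ← Real.rpow_natCast, ← Real.rpow_mul hb.le]
    congr 2
    ring
  rw [h5] at h4
  calc wt K x * (nrm K x : ℝ) ^ (-s.re) ≤ 1 * (nrm K x : ℝ) ^ (-s.re) :=
        mul_le_mul_of_nonneg_right (Lip.wt_le_one K x) (by positivity)
    _ ≤ _ := by rw [one_mul]; exact h4

lemma FF_differentiable (σ : Bool) (x : 𝓞 K) : Differentiable ℂ fun s => FF K σ s x := by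
  by_cases hx : x = 0
  · subst hx
    simp only [FF, Lip.wt_zero, Complex.ofReal_zero, mul_zero, zero_mul]
    exact differentiable_const _
  unfold FF
  have h1 : (nrm K x : ℂ) ≠ 0 := by exact_mod_cast nrm_ne_zero K hx
  refine Differentiable.const_mul ?_ _
  intro s
  exact (differentiableAt_id.neg.const_cpow (Or.inl h1))

lemma isOpen_HP : IsOpen (HP K) := by
  unfold HP
  exact isOpen_lt continuous_const Complex.continuous_re

/-- the difference of the sums over two translates -/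
lemma diff_translate (σ : Bool) (A : Ideal (𝓞 K)) (v : 𝓞 K) :
    DifferentiableOn ℂ (fun s => ∑' a : A, (FF K σ s ((a : 𝓞 K) + v) - FF K σ s a)) (HP K) := by
  have hn : (0 : ℝ) < Module.finrank ℚ K := by exact_mod_cast Module.finrank_pos
  intro s₀ hs₀
  have hs₀' : 1 - 1 / (Module.finrank ℚ K : ℝ) < s₀.re := hs₀
  set σ₀ : ℝ := (1 - 1 / (Module.finrank ℚ K : ℝ) + s₀.re) / 2 with hσ₀
  have h1 : 1 - 1 / (Module.finrank ℚ K : ℝ) < σ₀ := by rw [hσ₀]; linarith
  have h2 : σ₀ < s₀.re := by rw [hσ₀]; linarith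
  have h3 : 0 ≤ 1 - 1 / (Module.finrank ℚ K : ℝ) := by
    have : (1 : ℝ) ≤ Module.finrank ℚ K := by exact_mod_cast Module.finrank_pos (R := ℚ) (M := K)
    rw [sub_nonneg, div_le_one hn]
    exact this
  have h0 : 0 ≤ σ₀ := by linarith
  obtain ⟨C, hC⟩ := FF_lip K σ v σ₀ (‖s₀‖ + 1) h0
  set U : Set ℂ := {s | σ₀ < s.re} ∩ Metric.ball 0 (‖s₀‖ + 1) with hU
  have hUo : IsOpen U := (isOpen_lt continuous_const Complex.continuous_re).inter Metric.isOpen_ball
  have hsU : s₀ ∈ U := ⟨h2, by simp⟩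
  have h4 : (Module.finrank ℚ K : ℝ) < (Module.finrank ℚ K : ℝ) * σ₀ + 1 := by
    have h5 : (Module.finrank ℚ K : ℝ) * (1 - 1 / (Module.finrank ℚ K : ℝ)) <
        (Module.finrank ℚ K : ℝ) * σ₀ := mul_lt_mul_of_pos_left h1 hn
    have h6 : (Module.finrank ℚ K : ℝ) * (1 - 1 / (Module.finrank ℚ K : ℝ)) =
        Module.finrank ℚ K - 1 := by field_simp
    linarith
  have h5 := ((sz_summable K h4).mul_left C).comp_injective
    (i := fun a : A => (a : 𝓞 K)) Subtype.val_injective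
  have h6 := Complex.differentiableOn_tsum_of_summable_norm (u := fun a : A =>
      C * (1 + sz K (a : 𝓞 K)) ^ (-((Module.finrank ℚ K : ℝ) * σ₀ + 1)))
    (F := fun (a : A) s => FF K σ s ((a : 𝓞 K) + v) - FF K σ s a) h5
    (fun a => ((FF_differentiable K σ _).sub (FF_differentiable K σ _)).differentiableOn) hUo
    (fun a s hs => hC a s (le_of_lt hs.1) (by
      have := hs.2
      rw [mem_ball_zero_iff] at this
      exact this.le))
  exact ((h6 s₀ hsU).differentiableAt (hUo.mem_nhds hsU)).differentiableWithinAt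

section Mean

variable {K}

lemma mk_out (A : Ideal (𝓞 K)) (x : 𝓞 K) : ∃ a ∈ A,
    (Quotient.out (Ideal.Quotient.mk A x) : 𝓞 K) = x + a := by
  refine ⟨(Quotient.out (Ideal.Quotient.mk A x) : 𝓞 K) - x, ?_, by ring⟩
  rw [← Ideal.Quotient.eq]
  exact Ideal.Quotient.mk_out _

/-- the value of a periodic function at a representative -/
lemma periodic_out {A : Ideal (𝓞 K)} {k : 𝓞 K → ℂ} (hk : ∀ x, ∀ a ∈ A, k (x + a) = k x) (x : 𝓞 K) :
    k (Quotient.out (Ideal.Quotient.mk A x)) = k x := by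
  obtain ⟨a, ha, h⟩ := mk_out A x
  rw [h, hk x a ha]

lemma finite_idealQuot {A : Ideal (𝓞 K)} (hA : A ≠ ⊥) : Finite (𝓞 K ⧸ A) :=
  Ideal.finiteQuotientOfFreeOfNeBot A hA

/-- the elements of the ring as pairs of a class and an element of the ideal -/
noncomputable def splitEquiv (A : Ideal (𝓞 K)) : (𝓞 K ⧸ A) × A ≃ 𝓞 K where
  toFun z := (z.2 : 𝓞 K) + Quotient.out z.1
  invFun x := (Ideal.Quotient.mk A x, ⟨x - Quotient.out (Ideal.Quotient.mk A x), by
    rw [← Ideal.Quotient.eq]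
    exact (Ideal.Quotient.mk_out _).symm⟩)
  left_inv z := by
    obtain ⟨q, a, ha⟩ := z
    have h1 : Ideal.Quotient.mk A (a + Quotient.out q) = q := by
      rw [map_add, Ideal.Quotient.eq_zero_iff_mem.mpr ha, zero_add]
      exact Ideal.Quotient.mk_out q
    ext
    · simp [h1]
    · simp [h1]
  right_inv x := by simp

end Mean

/-- The translation lemma. -/
theorem translation (σ : Bool) (A : Ideal (𝓞 K)) (hA : A ≠ ⊥) (k : 𝓞 K → ℂ)
    (hk : ∀ x, ∀ a ∈ A, k (x + a) = k x) (h0 : ∑ᶠ q : 𝓞 K ⧸ A, k (Quotient.out q) = 0) :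
    ∃ g : ℂ → ℂ, DifferentiableOn ℂ g (HP K) ∧
      ∀ s : ℂ, 1 < s.re → g s = ∑' x : 𝓞 K, k x * FF K σ s x := by
  have hfin := finite_idealQuot hA
  have := Fintype.ofFinite (𝓞 K ⧸ A)
  rw [finsum_eq_sum_of_fintype] at h0
  refine ⟨fun s => ∑ q : 𝓞 K ⧸ A, k (Quotient.out q) *
    ∑' a : A, (FF K σ s ((a : 𝓞 K) + Quotient.out q) - FF K σ s a), ?_, ?_⟩
  · refine DifferentiableOn.fun_sum fun q _ => ?_
    exact (diff_translate K σ A _).const_mul _
  · intro s hs
    have hF := FF_summable K σ hs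
    have hinj : ∀ v : 𝓞 K, Function.Injective fun a : A => (a : 𝓞 K) + v := fun v a b h =>
      Subtype.ext (add_right_cancel h)
    have hFv : ∀ v : 𝓞 K, Summable fun a : A => FF K σ s ((a : 𝓞 K) + v) := fun v =>
      hF.comp_injective (hinj v)
    have hFA : Summable fun a : A => FF K σ s (a : 𝓞 K) := by
      simpa using hFv 0
    have h1 : ∀ q : 𝓞 K ⧸ A, ∑' a : A, (FF K σ s ((a : 𝓞 K) + Quotient.out q) - FF K σ s a) =
        ∑' a : A, FF K σ s ((a : 𝓞 K) + Quotient.out q) - ∑' a : A, FF K σ s a := fun q =>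
      (hFv _).tsum_sub hFA
    have hbd : ∃ B : ℝ, ∀ x, ‖k x‖ ≤ B := by
      refine ⟨∑ q : 𝓞 K ⧸ A, ‖k (Quotient.out q)‖, fun x => ?_⟩
      rw [← periodic_out hk x]
      exact Finset.single_le_sum (f := fun q : 𝓞 K ⧸ A => ‖k (Quotient.out q)‖)
        (fun q _ => norm_nonneg _) (Finset.mem_univ _)
    obtain ⟨B, hB⟩ := hbd
    have hkF : Summable fun x : 𝓞 K => k x * FF K σ s x := by
      refine Summable.of_norm_bounded (hF.norm.mul_left B) fun x => ?_
      rw [norm_mul]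
      exact mul_le_mul_of_nonneg_right (hB x) (norm_nonneg _)
    have h2 : ∑' x : 𝓞 K, k x * FF K σ s x =
        ∑ q : 𝓞 K ⧸ A, ∑' a : A, k (Quotient.out q) * FF K σ s ((a : 𝓞 K) + Quotient.out q) := by
      have h3 : Summable fun z : (𝓞 K ⧸ A) × A => k (splitEquiv A z) * FF K σ s (splitEquiv A z) :=
        (splitEquiv A).summable_iff.mpr hkF
      rw [← (splitEquiv A).tsum_eq, Summable.tsum_prod h3, tsum_fintype]
      refine Finset.sum_congr rfl fun q _ => tsum_congr fun a => ?_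
      change k ((a : 𝓞 K) + Quotient.out q) * FF K σ s ((a : 𝓞 K) + Quotient.out q) = _
      rw [add_comm (a : 𝓞 K) (Quotient.out q), hk _ _ a.2]
    rw [h2]
    simp_rw [h1, mul_sub, Finset.sum_sub_distrib, ← Finset.sum_mul, h0, zero_mul, sub_zero,
      tsum_mul_left]

end Pool.Agent.Work.MP_2b9663_nt
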