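import Pool.Agent.Work.MP_2b9663_nt.Ch.BesC

set_option autoImplicit false

/-!
The virtual character attached to a bounded function of primes whose correlations with the
characters are integers.
-/

namespace Pool.Agent.Work.MP_2b9663_nt

open Filter Topology ComplexConjugate

section

variable {Γ : Type*} {g : Nat.Primes → Γ} {𝓧 : Set (Γ → ℂ)} {a : Nat.Primes → ℂ} {b : ℝ}
  {T : Finset Nat.Primes} {m : (Γ → ℂ) → ℤ}

/-- Orthonormality along the sequence `g`. -/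
def OrthP (g : Nat.Primes → Γ) (𝓧 : Set (Γ → ℂ)) : Prop :=
  ∀ χ ∈ 𝓧, ∀ χ' ∈ 𝓧, ((χ = χ' → MVC (fun p => χ (g p) * conj (χ' (g p))) 1) ∧
    (χ ≠ χ' → MVC (fun p => χ (g p) * conj (χ' (g p))) 0))

lemma OrthP.ite (h : OrthP g 𝓧) {χ χ' : Γ → ℂ} (hχ : χ ∈ 𝓧) (hχ' : χ' ∈ 𝓧)
    [Decidable (χ = χ')] : MVC (fun p => χ (g p) * conj (χ' (g p))) (if χ = χ' then 1 else 0) := by
  split_ifs with h1
  · exact (h χ hχ χ' hχ').1 h1
  · exact (h χ hχ χ' hχ').2 h1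

lemma bessel_chars (horth : OrthP g 𝓧) (ha : ∀ p, p ∉ T → ‖a p‖ ≤ b)
    (h : ∀ χ ∈ 𝓧, MVC (fun p => a p * χ (g p)) (-(m χ : ℂ))) (s : Finset (Γ → ℂ))
    (hs : ∀ χ ∈ s, χ ∈ 𝓧) : ∑ χ ∈ s, ((m χ : ℝ)) ^ 2 ≤ b ^ 2 := by
  classical
  have h1 := MVC.bessel s (fun χ p => χ (g p)) (fun χ hχ χ' hχ' => horth.ite (hs χ hχ) (hs χ' hχ'))
    a b T ha (fun χ => -(m χ : ℂ)) fun χ hχ => h χ (hs χ hχ)
  refine le_trans (le_of_eq (Finset.sum_congr rfl fun χ _ => ?_)) h1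
  rw [norm_neg, Complex.norm_intCast, sq_abs]

/-- the support of `m` -/
def suppX (𝓧 : Set (Γ → ℂ)) (m : (Γ → ℂ) → ℤ) : Set (Γ → ℂ) := {χ | χ ∈ 𝓧 ∧ m χ ≠ 0}

lemma suppX_finite {B : ℕ} (horth : OrthP g 𝓧) (ha : ∀ p, p ∉ T → ‖a p‖ ≤ B)
    (h : ∀ χ ∈ 𝓧, MVC (fun p => a p * χ (g p)) (-(m χ : ℂ))) :
    (suppX 𝓧 m).Finite ∧ (suppX 𝓧 m).ncard ≤ B ^ 2 := by
  classical
  have key : ∀ s : Finset (Γ → ℂ), (∀ χ ∈ s, χ ∈ suppX 𝓧 m) → s.card ≤ B ^ 2 := by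
    intro s hs
    have h1 := bessel_chars horth ha h s fun χ hχ => (hs χ hχ).1
    have h2 : (s.card : ℝ) ≤ ∑ χ ∈ s, ((m χ : ℝ)) ^ 2 := by
      rw [Finset.card_eq_sum_ones, Nat.cast_sum]
      refine Finset.sum_le_sum fun χ hχ => ?_
      have h2 : (1 : ℤ) ≤ m χ ^ 2 := by
        have := sq_pos_of_ne_zero (hs χ hχ).2
        linarith
      rw [Nat.cast_one]
      exact_mod_cast h2
    exact_mod_cast h2.trans h1
  have hfin : (suppX 𝓧 m).Finite := by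
    by_contra hinf
    obtain ⟨t, ht, hc⟩ := Set.Infinite.exists_subset_card_eq hinf (B ^ 2 + 1)
    have := key t fun χ hχ => ht hχ
    omega
  refine ⟨hfin, ?_⟩
  rw [Set.ncard_eq_toFinset_card _ hfin]
  exact key _ fun χ hχ => by simpa using hχ

variable (m) in
/-- the virtual character with multiplicities `- m χ` -/
noncomputable def virt (S : Finset (Γ → ℂ)) (x : Γ) : ℂ := ∑ χ ∈ S, -(m χ : ℂ) * conj (χ x)

/-- **The functional is given by the virtual character.** -/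
lemma virt_apply (horth : OrthP g 𝓧)
    (h : ∀ χ ∈ 𝓧, MVC (fun p => a p * χ (g p)) (-(m χ : ℂ))) {S : Finset (Γ → ℂ)}
    (hS : ∀ χ, χ ∈ S ↔ χ ∈ suppX 𝓧 m) {Φ : Γ → ℂ} (hΦ : Φ ∈ Submodule.span ℂ 𝓧) :
    ∃ x, MVC (fun p => a p * Φ (g p)) x ∧ MVC (fun p => virt m S (g p) * Φ (g p)) x := by
  classical
  induction hΦ using Submodule.span_induction with
  | mem χ hχ =>
    refine ⟨-(m χ : ℂ), h χ hχ, ?_⟩
    have h1 := MVC.sum S fun χ' hχ' =>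
      (horth.ite hχ ((hS χ').1 hχ').1).const_mul (-(m χ' : ℂ))
    have h2 : ∑ χ' ∈ S, -(m χ' : ℂ) * (if χ = χ' then 1 else 0) = -(m χ : ℂ) := by
      simp only [mul_ite, mul_one, mul_zero]
      rw [Finset.sum_ite_eq]
      split_ifs with h3
      · rfl
      · have h4 : m χ = 0 := by
          by_contra h5
          exact h3 ((hS χ).2 ⟨hχ, h5⟩)
        rw [h4]
        simp
    rw [h2] at h1
    refine h1.congr ∅ fun p _ => ?_
    rw [virt, Finset.sum_mul]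
    exact Finset.sum_congr rfl fun χ' _ => by ring
  | zero =>
    refine ⟨0, ?_, ?_⟩
    · simpa using MVC.zero
    · simpa using MVC.zero
  | add Φ Ψ _ _ h1 h2 =>
    obtain ⟨x, hx, hx'⟩ := h1
    obtain ⟨y, hy, hy'⟩ := h2
    refine ⟨x + y, (hx.add hy).congr ∅ fun p _ => ?_, (hx'.add hy').congr ∅ fun p _ => ?_⟩
    · rw [Pi.add_apply]; ring
    · rw [Pi.add_apply]; ring
  | smul c Φ _ h1 =>
    obtain ⟨x, hx, hx'⟩ := h1
    refine ⟨c * x, (hx.const_mul c).congr ∅ fun p _ => ?_, (hx'.const_mul c).congr ∅ fun p _ => ?_⟩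
    · rw [Pi.smul_apply, smul_eq_mul]; ring
    · rw [Pi.smul_apply, smul_eq_mul]; ring

/-- The mean value of `|R|^2` is the sum of the squares of the multiplicities. -/
lemma virt_sq (horth : OrthP g 𝓧) {S : Finset (Γ → ℂ)} (hS : ∀ χ, χ ∈ S ↔ χ ∈ suppX 𝓧 m) :
    MVC (fun p => conj (virt m S (g p)) * virt m S (g p)) (∑ χ ∈ S, ((m χ : ℂ)) ^ 2) := by
  classical
  have h1 := MVC.sum S fun χ hχ => MVC.sum S fun χ' hχ' =>
    (horth.ite ((hS χ).1 hχ).1 ((hS χ').1 hχ').1).const_mul ((m χ : ℂ) * (m χ' : ℂ))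
  have h2 : ∑ χ ∈ S, ∑ χ' ∈ S, (m χ : ℂ) * (m χ' : ℂ) * (if χ = χ' then 1 else 0) =
      ∑ χ ∈ S, ((m χ : ℂ)) ^ 2 := by
    refine Finset.sum_congr rfl fun χ hχ => ?_
    simp only [mul_ite, mul_one, mul_zero]
    rw [Finset.sum_ite_eq, if_pos hχ, sq]
  rw [h2] at h1
  refine h1.congr ∅ fun p _ => ?_
  simp only [virt]
  rw [map_sum, Finset.sum_mul_sum]
  refine Finset.sum_congr rfl fun χ _ => Finset.sum_congr rfl fun χ' _ => ?_
  rw [map_mul, Complex.conj_conj, map_neg, map_intCast]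
  ring

end

end Pool.Agent.Work.MP_2b9663_nt
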