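import Pool.Agent.Work.MP_2b9663_nt.Ch.RepsQ
import Pool.Agent.Work.MP_2b9663_nt.Ch.Cheb
import Pool.Agent.Work.MP_2b9663_nt.Ch.RepsL
import Pool.Agent.Work.MP_2b9663_nt.Ch.Levels
import Pool.Agent.Work.MP_2b9663_nt.Ch.VirtAbs

set_option autoImplicit false

/-!
The mean inequality, the Bessel inequality, and the virtual representation.
-/

namespace Pool.Agent.Work.MP_2b9663_nt

open NumberField Filter Topology ComplexConjugate

section

variable {Ω : Type} [Field Ω] [CharZero Ω]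

/-- a number field fixes a subgroup of finite index -/
lemma finite_quot [IsAlgClosure ℚ Ω] (L : IntermediateField ℚ Ω) [NumberField L] :
    Finite ((Ω ≃ₐ[ℚ] Ω) ⧸ L.fixingSubgroup) := by
  have h1 : FiniteDimensional ℚ L := inferInstance
  have h2 : Algebra.IsAlgebraic ℚ Ω := IsAlgClosure.isAlgebraic
  -- the embeddings
  have h3 : Finite (L →+* Ω) := inferInstance
  let F : (Ω ≃ₐ[ℚ] Ω) ⧸ L.fixingSubgroup → (L →+* Ω) := Quotient.lift
    (fun g : Ω ≃ₐ[ℚ] Ω => ((g : Ω ≃ₐ[ℚ] Ω) : Ω →+* Ω).comp (algebraMap L Ω)) (by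
      intro g h hgh
      have h4 : g⁻¹ * h ∈ L.fixingSubgroup := QuotientGroup.leftRel_apply.1 hgh
      refine RingHom.ext fun x => ?_
      have h5 := (IntermediateField.mem_fixingSubgroup_iff L _).1 h4 (x : Ω) x.2
      have h6 : g ((g⁻¹ * h) (x : Ω)) = g (x : Ω) := congrArg g h5
      have h7 : g ((g⁻¹ * h) (x : Ω)) = h (x : Ω) := by
        rw [← AlgEquiv.mul_apply, mul_inv_cancel_left]
      exact (h6.symm.trans h7))
  refine Finite.of_injective F ?_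
  intro q q' hqq
  induction q using QuotientGroup.induction_on with
  | H g =>
  induction q' using QuotientGroup.induction_on with
  | H h =>
  refine QuotientGroup.eq.2 ((IntermediateField.mem_fixingSubgroup_iff L _).2 fun x hx => ?_)
  have h4 : g x = h x := RingHom.congr_fun hqq (⟨x, hx⟩ : L)
  rw [AlgEquiv.mul_apply, ← h4, ← AlgEquiv.mul_apply, inv_mul_cancel]
  rfl

end

section

variable {Ω : Type} [Field Ω] [CharZero Ω] [IsAlgClosure ℚ Ω] (hyp : MeanHyp)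
  (Fr : Nat.Primes → (Ω ≃ₐ[ℚ] Ω)) (hFr : ∀ p : Nat.Primes, IsFrob (p : ℕ) (Fr p)) {a : Nat.Primes → ℂ} {b : ℝ} (ha : ∀ p, ‖a p‖ ≤ b)

include hyp hFr ha in
/-- the mean inequality -/
theorem mean_ineq_of (L : IntermediateField ℚ Ω) [NumberField L] [IsGalois ℚ L]
    (f : (Ω ≃ₐ[ℚ] Ω) → ℂ) (hL : Lvl L f) (hf : IsCl f) {x : ℂ}
    (h : MVC (fun p => a p * f (Fr p)) x) : ‖x‖ ≤ b * (meanAt L (fun g => (‖f g‖ : ℂ))).re := by
  have h1 := chebΩ_of hyp Fr hFr L (fun g => (‖f g‖ : ℂ)) (hL.comp fun z => (‖z‖ : ℂ))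
    (hf.comp fun z => (‖z‖ : ℂ)) 0
  rw [if_pos rfl] at h1
  have h2 := (h1.congr (d := fun p => ((‖f (Fr p)‖ : ℝ) : ℂ)) ∅ fun p _ => by
    rw [pw_zero, mul_one]).re
  simp only [Complex.ofReal_re] at h2
  exact h.master (T := ∅) (fun p _ => ha p) h2

include hyp hFr ha in
/-- Bessel's inequality, on the whole line -/
theorem bessel_line_of {ι : Type} (s : Finset ι) (R : ι → ArtinRep Ω) (hR : ∀ j ∈ s, (R j).Irr)
    (y : ι → ℝ) (hne : ∀ j ∈ s, ∀ l ∈ s, j ≠ l → y j = y l → (R j).char ≠ (R l).char)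
    (x : ι → ℂ) (h : ∀ j ∈ s, MVC (fun p => a p * (R j).char (Fr p) * pw (y j) p) (x j)) :
    ∑ j ∈ s, ‖x j‖ ^ 2 ≤ b ^ 2 := by
  classical
  refine MVC.bessel s (fun j p => (R j).char (Fr p) * pw (y j) p) ?_ a b ∅ (fun p _ => ha p) x
    fun j hj => (h j hj).congr ∅ fun p _ => by ring
  intro j hj l hl
  obtain ⟨L, hL1, hL2, hL⟩ := exists_level s R
  have hlev : ∀ k ∈ s, Lvl L (R k).char := fun k hk => ArtinRep.lvl_char fun g hg => by
    have h1 := hL k hk 1 g hg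
    rwa [one_mul, map_one] at h1
  have h1 := chebΩ_of hyp Fr hFr L (fun g => (R j).char g * conj ((R l).char g))
    ((hlev j hj).comp₂ (hlev l hl) fun z w => z * conj w)
    ((R j).isCl_char.comp₂ (R l).isCl_char fun z w => z * conj w) (y j - y l)
  have h2 := h1.congr (d := fun p => (R j).char (Fr p) * pw (y j) p *
      conj ((R l).char (Fr p) * pw (y l) p)) ∅ fun p _ => by
    rw [sub_eq_add_neg, pw_add, pw_neg, map_mul]
    ring
  have h3 : (if y j - y l = 0 then meanAt L (fun g => (R j).char g * conj ((R l).char g)) else 0) =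
      if j = l then (1 : ℂ) else 0 := by
    by_cases hjl : j = l
    · subst hjl
      rw [if_pos (sub_self _), if_pos rfl]
      exact (char_orth (R j) (R j) (hR j hj) (hR j hj) L (hlev j hj) (hlev j hj)).1 rfl
    · rw [if_neg hjl]
      split_ifs with h4
      · exact (char_orth (R j) (R l) (hR j hj) (hR l hl) L (hlev j hj) (hlev l hl)).2
          (hne j hj l hl hjl (sub_eq_zero.1 h4))
      · rfl
  rw [h3] at h2
  exact h2

/-- the irreducible Artin characters -/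
def irrArtin (Ω : Type) [Field Ω] [CharZero Ω] : Set ((Ω ≃ₐ[ℚ] Ω) → ℂ) :=
  {χ | ∃ R : ArtinRep Ω, R.Irr ∧ R.char = χ}

include hyp hFr in
lemma orthP_irrArtin : OrthP Fr (irrArtin Ω) := by
  rintro χ ⟨R, hR, rfl⟩ χ' ⟨R', hR', rfl⟩
  obtain ⟨L, hL1, hL2, hL⟩ := exists_level (Finset.univ : Finset Bool) fun j => cond j R R'
  have h1 : Lvl L R.char := ArtinRep.lvl_char fun g hg => by
    have h1 := hL true (Finset.mem_univ _) 1 g hg
    rw [one_mul, map_one] at h1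
    exact h1
  have h2 : Lvl L R'.char := ArtinRep.lvl_char fun g hg => by
    have h1 := hL false (Finset.mem_univ _) 1 g hg
    rw [one_mul, map_one] at h1
    exact h1
  have h3 := chebΩ_of hyp Fr hFr L (fun g => R.char g * conj (R'.char g))
    (h1.comp₂ h2 fun z w => z * conj w) (R.isCl_char.comp₂ R'.isCl_char fun z w => z * conj w) 0
  rw [if_pos rfl] at h3
  have h4 := h3.congr (d := fun p => R.char (Fr p) * conj (R'.char (Fr p))) ∅ fun p _ => by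
    rw [pw_zero, mul_one]
  obtain ⟨h5, h6⟩ := char_orth R R' hR hR' L h1 h2
  refine ⟨fun h => ?_, fun h => ?_⟩
  · rw [h5 h] at h4
    exact h4
  · rw [h6 h] at h4
    exact h4

/-- the class functions of finite level are in the span of the irreducible characters -/
lemma mem_span_irr (L : IntermediateField ℚ Ω) [NumberField L] [IsGalois ℚ L]
    {f : (Ω ≃ₐ[ℚ] Ω) → ℂ} (hL : Lvl L f) (hf : IsCl f) : f ∈ Submodule.span ℂ (irrArtin Ω) := by
  obtain ⟨s, c, hs, h⟩ := char_complete L hL hf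
  have h1 : f = ∑ χ ∈ s, c χ • χ := by
    rw [h]
    funext g
    rw [Finset.sum_apply]
    rfl
  rw [h1]
  refine Submodule.sum_mem _ fun χ hχ => Submodule.smul_mem _ _ (Submodule.subset_span ?_)
  obtain ⟨R, hR, hR2, -⟩ := hs χ hχ
  exact ⟨R, hR, hR2⟩

open scoped Classical in
/-- the indicator function of the conjugacy class of `γ` modulo the automorphisms which fix `M` -/
noncomputable def clInd (M : IntermediateField ℚ Ω) (γ x : Ω ≃ₐ[ℚ] Ω) : ℂ :=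
  if ∃ y, (y * γ * y⁻¹)⁻¹ * x ∈ M.fixingSubgroup then 1 else 0

omit [IsAlgClosure ℚ Ω] in
lemma lvl_clInd (M : IntermediateField ℚ Ω) (γ : Ω ≃ₐ[ℚ] Ω) : Lvl M (clInd M γ) := by
  intro g h hh
  have h1 : (∃ y, (y * γ * y⁻¹)⁻¹ * (g * h) ∈ M.fixingSubgroup) ↔
      ∃ y, (y * γ * y⁻¹)⁻¹ * g ∈ M.fixingSubgroup := by
    refine exists_congr fun y => ?_
    rw [← mul_assoc, Subgroup.mul_mem_cancel_right _ hh]
  classical
  exact if_congr h1 rfl rfl

omit [IsAlgClosure ℚ Ω] in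
lemma isCl_clInd (M : IntermediateField ℚ Ω) [IsGalois ℚ M] (γ : Ω ≃ₐ[ℚ] Ω) :
    IsCl (clInd M γ) := by
  intro x g
  have h0 := normal_fixing M
  have h1 : (∃ y, (y * γ * y⁻¹)⁻¹ * (x * g * x⁻¹) ∈ M.fixingSubgroup) ↔
      ∃ y, (y * γ * y⁻¹)⁻¹ * g ∈ M.fixingSubgroup := by
    constructor
    · rintro ⟨y, hy⟩
      refine ⟨x⁻¹ * y, ?_⟩
      have h2 := h0.conj_mem _ hy x⁻¹
      have h3 : x⁻¹ * ((y * γ * y⁻¹)⁻¹ * (x * g * x⁻¹)) * x⁻¹⁻¹ =
          (x⁻¹ * y * γ * (x⁻¹ * y)⁻¹)⁻¹ * g := by group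
      rw [h3] at h2
      exact h2
    · rintro ⟨y, hy⟩
      refine ⟨x * y, ?_⟩
      have h2 := h0.conj_mem _ hy x
      have h3 : x * ((y * γ * y⁻¹)⁻¹ * g) * x⁻¹ =
          (x * y * γ * (x * y)⁻¹)⁻¹ * (x * g * x⁻¹) := by group
      rw [h3] at h2
      exact h2
  classical
  exact if_congr h1 rfl rfl

omit [IsAlgClosure ℚ Ω] in
lemma mul_clInd (M : IntermediateField ℚ Ω) {f : (Ω ≃ₐ[ℚ] Ω) → ℂ} (hM : Lvl M f) (hf : IsCl f)
    (γ x : Ω ≃ₐ[ℚ] Ω) : f x * clInd M γ x = f γ * clInd M γ x := by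
  unfold clInd
  split_ifs with h
  · obtain ⟨y, hy⟩ := h
    have h1 := hM (y * γ * y⁻¹) _ hy
    rw [mul_inv_cancel_left] at h1
    rw [h1, hf]
  · simp

omit [IsAlgClosure ℚ Ω] in
lemma meanAt_const_mul (M : IntermediateField ℚ Ω) [Finite ((Ω ≃ₐ[ℚ] Ω) ⧸ M.fixingSubgroup)]
    (c : ℂ) (f : (Ω ≃ₐ[ℚ] Ω) → ℂ) : meanAt M (fun g => c * f g) = c * meanAt M f := by
  cases nonempty_fintype ((Ω ≃ₐ[ℚ] Ω) ⧸ M.fixingSubgroup)
  rw [meanAt_eq, meanAt_eq, ← Finset.mul_sum, mul_div_assoc]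

omit [IsAlgClosure ℚ Ω] in
lemma meanAt_clInd (M : IntermediateField ℚ Ω) [Finite ((Ω ≃ₐ[ℚ] Ω) ⧸ M.fixingSubgroup)]
    (γ : Ω ≃ₐ[ℚ] Ω) : ∃ c : ℝ, 0 < c ∧ meanAt M (clInd M γ) = c := by
  classical
  cases nonempty_fintype ((Ω ≃ₐ[ℚ] Ω) ⧸ M.fixingSubgroup)
  have h0 : ∀ x, clInd M γ x = ((if ∃ y, (y * γ * y⁻¹)⁻¹ * x ∈ M.fixingSubgroup then 1 else 0 : ℝ) : ℂ) := by
    intro x
    unfold clInd
    split_ifs <;> simp
  refine ⟨(∑ q : (Ω ≃ₐ[ℚ] Ω) ⧸ M.fixingSubgroup,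
    if ∃ y, (y * γ * y⁻¹)⁻¹ * q.out ∈ M.fixingSubgroup then 1 else 0) /
      Fintype.card ((Ω ≃ₐ[ℚ] Ω) ⧸ M.fixingSubgroup), ?_, ?_⟩
  · refine div_pos ?_ (by exact_mod_cast Fintype.card_pos)
    refine Finset.sum_pos' (fun q _ => by split_ifs <;> norm_num)
      ⟨(γ : (Ω ≃ₐ[ℚ] Ω) ⧸ M.fixingSubgroup), Finset.mem_univ _, ?_⟩
    rw [if_pos]
    · exact one_pos
    · refine ⟨1, ?_⟩
      have h1 : ((((γ : (Ω ≃ₐ[ℚ] Ω) ⧸ M.fixingSubgroup).out : Ω ≃ₐ[ℚ] Ω)) :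
          (Ω ≃ₐ[ℚ] Ω) ⧸ M.fixingSubgroup) = γ := QuotientGroup.out_eq' _
      have h2 := QuotientGroup.eq.1 h1.symm
      simpa using h2
  · rw [meanAt_eq]
    push_cast
    simp only [h0]

include hyp hFr ha in
/-- The virtual representation.  `m χ` is the order of the twist by the irreducible Artin character
`χ`. -/
theorem virtual_of (m : ((Ω ≃ₐ[ℚ] Ω) → ℂ) → ℤ)
    (h : ∀ R : ArtinRep Ω, R.Irr → MVC (fun p => a p * R.char (Fr p)) (-(m R.char : ℂ))) :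
    ∃ (M : IntermediateField ℚ Ω) (s : Finset ((Ω ≃ₐ[ℚ] Ω) → ℂ)) (r : ((Ω ≃ₐ[ℚ] Ω) → ℂ) → ℤ),
      NumberField M ∧ IsGalois ℚ M ∧
      (∀ χ ∈ s, ∃ R : ArtinRep Ω, R.Irr ∧ R.char = χ ∧ ∀ g ∈ M.fixingSubgroup, R.ρ g = 1) ∧
      ((∑ χ ∈ s, r χ ^ 2 : ℤ) : ℝ) ≤ b ^ 2 ∧
      (∀ g, ‖∑ χ ∈ s, (r χ : ℂ) * χ g‖ ≤ b) ∧
      ∀ (L : IntermediateField ℚ Ω) [NumberField L] [IsGalois ℚ L] (f : (Ω ≃ₐ[ℚ] Ω) → ℂ),
        M ≤ L → Lvl L f → IsCl f →
        MVC (fun p => a p * f (Fr p)) (meanAt L fun g => (∑ χ ∈ s, (r χ : ℂ) * χ g) * f g) := by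
  classical
  have horth : OrthP Fr (irrArtin Ω) := orthP_irrArtin hyp Fr hFr
  have hX : ∀ χ ∈ irrArtin Ω, MVC (fun p => a p * χ (Fr p)) (-(m χ : ℂ)) := by
    rintro χ ⟨R, hR, rfl⟩
    exact h R hR
  have haB : ∀ p, p ∉ (∅ : Finset Nat.Primes) → ‖a p‖ ≤ ((⌈b⌉₊ : ℕ) : ℝ) := fun p _ =>
    (ha p).trans (Nat.le_ceil b)
  obtain ⟨hfin, -⟩ := suppX_finite horth haB hX
  set S : Finset ((Ω ≃ₐ[ℚ] Ω) → ℂ) := hfin.toFinset with hSdef
  have hS : ∀ χ, χ ∈ S ↔ χ ∈ suppX (irrArtin Ω) m := fun χ => hfin.mem_toFinset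
  -- the representations
  have hex : ∀ χ : S, ∃ R : ArtinRep Ω, R.Irr ∧ R.char = fun g => conj (χ.1 g) := by
    rintro ⟨χ, hχ⟩
    obtain ⟨⟨R, hR, hRχ⟩, -⟩ := (hS χ).1 hχ
    obtain ⟨R', h1, h2, -⟩ := exists_dual R
    refine ⟨R', h1 hR, funext fun g => ?_⟩
    rw [h2, hRχ]
  choose Rd hRd hRd' using hex
  obtain ⟨M, hM1, hM2, hM⟩ := exists_level (Finset.univ : Finset S) Rd
  have hM' : ∀ χ : S, ∀ g ∈ M.fixingSubgroup, (Rd χ).ρ g = 1 := fun χ g hg => by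
    have h1 := hM χ (Finset.mem_univ _) 1 g hg
    rw [one_mul, map_one] at h1
    exact h1
  set cj : ((Ω ≃ₐ[ℚ] Ω) → ℂ) → ((Ω ≃ₐ[ℚ] Ω) → ℂ) := fun χ g => conj (χ g) with hcj
  have hcj2 : ∀ χ, cj (cj χ) = χ := fun χ => funext fun g => Complex.conj_conj _
  have hinj : Function.Injective cj := Function.HasLeftInverse.injective ⟨cj, hcj2⟩
  set s : Finset ((Ω ≃ₐ[ℚ] Ω) → ℂ) := S.image cj with hs
  set r : ((Ω ≃ₐ[ℚ] Ω) → ℂ) → ℤ := fun χ => -m (cj χ) with hr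
  have hsum : ∀ g, ∑ χ ∈ s, (r χ : ℂ) * χ g = virt m S g := by
    intro g
    rw [hs, Finset.sum_image fun χ _ χ' _ h => hinj h, virt]
    refine Finset.sum_congr rfl fun χ _ => ?_
    rw [hr]
    beta_reduce
    rw [hcj2]
    push_cast
    rfl
  have hvl : Lvl M (virt m S) := by
    refine Lvl.sum S fun χ hχ => ?_
    have h1 : Lvl M (Rd ⟨χ, hχ⟩).char := ArtinRep.lvl_char (hM' ⟨χ, hχ⟩)
    rw [hRd'] at h1
    exact h1.comp fun z => -(m χ : ℂ) * z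
  have hvc : IsCl (virt m S) := by
    refine IsCl.sum S fun χ hχ => ?_
    have h1 : IsCl (Rd ⟨χ, hχ⟩).char := ArtinRep.isCl_char _
    rw [hRd'] at h1
    exact h1.comp fun z => -(m χ : ℂ) * z
  -- the functional
  have hfun : ∀ (L : IntermediateField ℚ Ω) [NumberField L] [IsGalois ℚ L]
      (f : (Ω ≃ₐ[ℚ] Ω) → ℂ), M ≤ L → Lvl L f → IsCl f →
        MVC (fun p => a p * f (Fr p)) (meanAt L fun g => virt m S g * f g) := by
    intro L _ _ f hML hLf hf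
    obtain ⟨x, hx, hx'⟩ := virt_apply horth hX hS (mem_span_irr L hLf hf)
    have h1 := chebΩ_of hyp Fr hFr L (fun g => virt m S g * f g)
      ((hvl.mono hML).comp₂ hLf fun z w => z * w) (hvc.comp₂ hf fun z w => z * w) 0
    rw [if_pos rfl] at h1
    have h2 := h1.congr (d := fun p => virt m S (Fr p) * f (Fr p)) ∅ fun p _ => by
      rw [pw_zero, mul_one]
    rw [← hx'.unique h2]
    exact hx
  refine ⟨M, s, r, hM1, hM2, ?_, ?_, ?_, ?_⟩
  · intro χ hχ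
    obtain ⟨χ', hχ', rfl⟩ := Finset.mem_image.1 hχ
    exact ⟨Rd ⟨χ', hχ'⟩, hRd _, hRd' _, hM' _⟩
  · have h1 := bessel_chars horth (fun p _ => ha p : ∀ p, p ∉ (∅ : Finset Nat.Primes) → ‖a p‖ ≤ b)
      hX S fun χ hχ => ((hS χ).1 hχ).1
    refine le_trans (le_of_eq ?_) h1
    rw [hs, Finset.sum_image fun χ _ χ' _ h => hinj h]
    push_cast
    refine Finset.sum_congr rfl fun χ _ => ?_
    rw [hr]
    beta_reduce
    rw [hcj2]
    push_cast
    ring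
  · intro γ
    rw [hsum]
    have hfq := finite_quot M
    have h1 := hfun M (clInd M γ) le_rfl (lvl_clInd M γ) (isCl_clInd M γ)
    have h2 : (fun g => virt m S g * clInd M γ g) = fun g => virt m S γ * clInd M γ g :=
      funext fun g => mul_clInd M hvl hvc γ g
    rw [h2, meanAt_const_mul] at h1
    have h3 := mean_ineq_of hyp Fr hFr ha M (clInd M γ) (lvl_clInd M γ) (isCl_clInd M γ) h1
    have h4 : (fun g => (‖clInd M γ g‖ : ℂ)) = clInd M γ := by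
      funext g
      unfold clInd
      split_ifs <;> simp
    obtain ⟨c, hc, hc2⟩ := meanAt_clInd M γ
    rw [h4, hc2, norm_mul, Complex.ofReal_re, Complex.norm_real, Real.norm_of_nonneg hc.le] at h3
    exact le_of_mul_le_mul_right h3 hc
  · intro L _ _ f hML hLf hf
    have h1 := hfun L f hML hLf hf
    have h2 : (fun g => (∑ χ ∈ s, (r χ : ℂ) * χ g) * f g) = fun g => virt m S g * f g :=
      funext fun g => by rw [hsum]
    rw [h2]
    exact h1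

end

end Pool.Agent.Work.MP_2b9663_nt
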