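import Pool.Agent.Work.MP_2b9663_nt.Ch.MainA
import Pool.Agent.Work.MP_2b9663_nt.Ch.DefsStable

set_option autoImplicit false

/-!
The virtual representation, in terms of inner products.
-/

namespace Pool.Agent.Work.MP_2b9663_nt

open NumberField Filter Topology ComplexConjugate

section

variable {Ω : Type} [Field Ω] [CharZero Ω]

variable {G : Nat.Primes → Prop} {t : Nat.Primes → ℕ → ℂ} {i b : ℕ}

/-- the orders at `s₀` -/
lemma ordArtin_zero_iff {R : ArtinRep Ω} {m : ℤ} : OrdArtin G t i R 0 m ↔ OrdTwist G t i R m := by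
  have h : (i : ℂ) / 2 + 1 + Complex.I * ((0 : ℝ) : ℂ) = (i : ℂ) / 2 + 1 := by
    rw [Complex.ofReal_zero, mul_zero, add_zero]
  unfold OrdArtin OrdTwist
  rw [h]

variable [IsAlgClosure ℚ Ω]

/-- **The virtual representation.** -/
theorem virtualTwists (h : WeilBound G t i b) : VirtualTwists Ω G t i b := by
  intro E _ hall
  obtain ⟨M, s, r, hM1, hM2, hME, hs, hsum, hbd, hmain, -⟩ := virtualRep h E
    fun R hR hRE => by
      obtain ⟨m, hm⟩ := hall R hR hRE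
      exact ⟨m, ordArtin_zero_iff.2 hm⟩
  refine ⟨M, s, r, hM1, hM2, hME, hs, hsum, hbd, fun R m hRE hm => ?_⟩
  obtain ⟨L₀, h1, h2, hLE, hL⟩ := exists_level_in E (Finset.univ : Finset Unit) (fun _ => R)
    fun _ _ => hRE
  have h3 : FiniteDimensional ℚ (L₀ ⊔ M : IntermediateField ℚ Ω) :=
    IntermediateField.finiteDimensional_sup L₀ M
  have h4 : NumberField (L₀ ⊔ M : IntermediateField ℚ Ω) := ⟨⟩
  have h5 : NumberField (NC (L₀ ⊔ M)) := nc_nf _
  have h6 : IsGalois ℚ (NC (L₀ ⊔ M)) := nc_gal _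
  have hle : L₀ ⊔ M ≤ NC (L₀ ⊔ M) := le_nc _
  have hE : NC (L₀ ⊔ M) ≤ E := nc_le (sup_le hLE hME)
  have hM : M ≤ NC (L₀ ⊔ M) := le_sup_right.trans hle
  have hL₀ : L₀ ≤ NC (L₀ ⊔ M) := le_sup_left.trans hle
  have hR : ∀ g ∈ (NC (L₀ ⊔ M)).fixingSubgroup, R.ρ g = 1 := fun g hg =>
    hL () (Finset.mem_univ _) g (IntermediateField.fixingSubgroup_le hL₀ hg)
  have hVl : Lvl M (fun g => ∑ χ ∈ s, (r χ : ℂ) * χ g) := by
    refine Lvl.sum s fun χ hχ => ?_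
    obtain ⟨R, -, hRχ, hRM⟩ := hs χ hχ
    have e1 : Lvl M R.char := ArtinRep.lvl_char hRM
    rw [hRχ] at e1
    exact e1.comp fun z => (r χ : ℂ) * z
  refine ⟨NC (L₀ ⊔ M), h5, h6, hVl.mono hM, ArtinRep.lvl_char hR, ?_⟩
  have e1 := (hmain (NC (L₀ ⊔ M)) hM hE).1 R m hR (ordArtin_zero_iff.2 hm)
  rw [e1, neg_neg]

end

end Pool.Agent.Work.MP_2b9663_nt
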